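import Pool.Agent.WG.Wit

/-! # Multiplication by Teichmueller representatives (piece WG-W3) -/

namespace Pool.Agent.WG

open Pool.Agent.WD Pool.Agent.WC

noncomputable section

universe u

variable {p : ℕ} [Fact p.Prime]

omit [Fact p.Prime] in
private theorem W3_pow_pow {s a : ℕ} (ha : a ^ p ≡ a [MOD p ^ s]) (n : ℕ) :
    a ^ p ^ n ≡ a [MOD p ^ s] := by
  induction n with
  | zero => simp [Nat.ModEq]
  | succ n ih =>
    rw [pow_succ, pow_mul]
    exact (ih.pow p).trans ha

/-- the first coordinates of `a` are those of the Teichmueller representative -/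
private theorem W3_teich {A : Type*} [Field A] [CharP A p] {s a : ℕ}
    (ha : a ^ p ≡ a [MOD p ^ s]) : ∀ i < s, ((a : ℕ) : WittVector p A).coeff i =
      (WittVector.teichmuller p (a : A)).coeff i := by
  intro i hi
  -- over the prime field
  have h1 : (p : WittVector p (ZMod p)) ∣
      ((a : ℕ) : WittVector p (ZMod p)) - WittVector.teichmuller p ((a : ℕ) : ZMod p) := by
    rw [← Ideal.mem_span_singleton, WittVector.mem_span_p_iff_coeff_zero_eq_zero]
    have h2 : WittVector.constantCoeff (((a : ℕ) : WittVector p (ZMod p)) -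
        WittVector.teichmuller p ((a : ℕ) : ZMod p)) = 0 := by
      rw [map_sub, map_natCast]
      change ((a : ℕ) : ZMod p) - (WittVector.teichmuller p ((a : ℕ) : ZMod p)).coeff 0 = 0
      rw [WittVector.teichmuller_coeff_zero, sub_self]
    exact h2
  have h3 := dvd_sub_pow_of_dvd_sub h1 s
  have h4 : (WittVector.teichmuller p ((a : ℕ) : ZMod p)) ^ p ^ s =
      WittVector.teichmuller p ((a : ℕ) : ZMod p) := by
    rw [← map_pow]
    congr 1
    exact ZMod.pow_card_pow _
  rw [h4] at h3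
  have h5 : ∀ j < s, ((a ^ p ^ s : ℕ) : WittVector p (ZMod p)).coeff j =
      (WittVector.teichmuller p ((a : ℕ) : ZMod p)).coeff j := by
    have h6 : ((a : ℕ) : WittVector p (ZMod p)) ^ p ^ s -
        WittVector.teichmuller p ((a : ℕ) : ZMod p) ∈
        Ideal.span {(p ^ s : WittVector p (ZMod p))} := by
      rw [Ideal.mem_span_singleton]
      exact (pow_dvd_pow _ (Nat.le_succ s)).trans h3
    rw [WittVector.mem_span_p_pow_iff_le_coeff_eq_zero] at h6
    intro j hj
    have h7 := coeff_add_congr (p := p) (L := ZMod p)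
      (a := ((a : ℕ) : WittVector p (ZMod p)) ^ p ^ s -
        WittVector.teichmuller p ((a : ℕ) : ZMod p)) (a' := 0)
      (b := WittVector.teichmuller p ((a : ℕ) : ZMod p))
      (b' := WittVector.teichmuller p ((a : ℕ) : ZMod p)) (n := s)
      (fun i hi => by rw [h6 i hi, WittVector.zero_coeff]) (fun i _ => rfl) j hj
    rw [sub_add_cancel, zero_add] at h7
    rw [Nat.cast_pow]
    exact h7
  have h6 : ((a : ℕ) : WittVector p (ZMod p)).coeff i =
      (WittVector.teichmuller p ((a : ℕ) : ZMod p)).coeff i := by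
    rw [← h5 i hi]
    exact coeff_nat_congr (W3_pow_pow ha s).symm i hi
  have h7 : (WittVector.map (ZMod.castHom (dvd_refl p) A)) ((a : ℕ) : WittVector p (ZMod p)) =
      ((a : ℕ) : WittVector p A) := map_natCast _ _
  rw [← h7, WittVector.map_coeff, h6, ← WittVector.map_coeff, WittVector.map_teichmuller,
    map_natCast]

/-- a number of finite order prime to `p` modulo `p^s` is a `(p-1)`-st root of unity -/
theorem pow_p_of_pow {N s a : ℕ} (hN : ¬ p ∣ N) (ha : a ^ N ≡ 1 [MOD p ^ s]) :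
    a ^ p ≡ a [MOD p ^ s] := by
  have hp : p.Prime := Fact.out
  rcases Nat.eq_zero_or_pos s with rfl | hs
  · rw [pow_zero]
    exact Nat.modEq_one
  have hN0 : N ≠ 0 := fun h => hN (h ▸ dvd_zero p)
  have h1 : ((a : ℕ) : ZMod (p ^ s)) ^ N = 1 := by
    have := (ZMod.natCast_eq_natCast_iff _ _ _).2 ha
    rwa [Nat.cast_pow, Nat.cast_one] at this
  have hu : IsUnit ((a : ℕ) : ZMod (p ^ s)) := IsUnit.of_pow_eq_one h1 hN0
  obtain ⟨u, hu⟩ := hu
  have h2 : u ^ N = 1 := by
    apply Units.ext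
    rw [Units.val_pow_eq_pow_val, hu, h1, Units.val_one]
  have h3 : orderOf u ∣ N := orderOf_dvd_of_pow_eq_one h2
  have h4 : orderOf u ∣ p ^ (s - 1) * (p - 1) := by
    rw [← Nat.totient_prime_pow hp hs]
    exact orderOf_dvd_of_pow_eq_one (ZMod.pow_totient u)
  have h5 : Nat.Coprime (orderOf u) (p ^ (s - 1)) := by
    apply Nat.Coprime.pow_right
    rw [Nat.coprime_comm, hp.coprime_iff_not_dvd]
    exact fun h => hN (h.trans h3)
  have h6 : orderOf u ∣ p - 1 := h5.dvd_of_dvd_mul_left h4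
  have h7 : u ^ p = u := by
    have h8 : u ^ (p - 1) = 1 := orderOf_dvd_iff_pow_eq_one.1 h6
    have h9 : p = (p - 1) + 1 := (Nat.succ_pred_prime hp).symm
    calc u ^ p = u ^ ((p - 1) + 1) := congrArg (fun n : ℕ => u ^ n) h9
      _ = u := by rw [pow_succ, h8, one_mul]
  apply (ZMod.natCast_eq_natCast_iff _ _ _).1
  rw [Nat.cast_pow, ← hu, ← Units.val_pow_eq_pow_val, h7]

/-- `a ≡ [a_0]` modulo `p^s`, `[a_0] f = (a_0 f_0, a_0^p f_1, ...)`, and `a_0^p = a_0`. -/
theorem coeff_nat_mul {A : Type*} [Field A] [CharP A p] {s a : ℕ} (ha : a ^ p ≡ a [MOD p ^ s])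
    (f : WittVector p A) : ∀ i < s, (((a : ℕ) : WittVector p A) * f).coeff i = (a : A) * f.coeff i := by
  intro i hi
  have h1 : WittVector.truncate s (((a : ℕ) : WittVector p A) * f) =
      WittVector.truncate s (WittVector.teichmuller p (a : A) * f) := by
    rw [map_mul, map_mul]
    congr 1
    refine TruncatedWittVector.ext fun j => ?_
    rw [WittVector.coeff_truncate, WittVector.coeff_truncate]
    exact W3_teich ha j j.2
  have h2 := congrArg (TruncatedWittVector.coeff (⟨i, hi⟩ : Fin s)) h1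
  rw [WittVector.coeff_truncate, WittVector.coeff_truncate] at h2
  change (((a : ℕ) : WittVector p A) * f).coeff i =
    (WittVector.teichmuller p (a : A) * f).coeff i at h2
  rw [h2, coeff_teichmuller_mul]
  congr 1
  have h3 : ∀ n : ℕ, ((a : ℕ) : A) ^ p ^ n = (a : A) := by
    intro n
    induction n with
    | zero => rw [pow_zero, pow_one]
    | succ n ih =>
      rw [pow_succ, pow_mul, ih]
      exact map_natCast (frobenius A p) a
  exact h3 i

variable {k : Type u} [Field k] [CharP k p] {s : ℕ}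

omit [CharP k p] [Fact p.Prime] in
private theorem W3_polar_sum (c : Par p s k) (i : Fin s) (z : ℤ) : (polar c i).coeff z =
    ∑ x ∈ c.support, if x.1 = i ∧ z = -(x.2.1 : ℤ) then c x else 0 := by
  unfold polar
  rw [Finsupp.sum, HahnSeries.coeff_sum]
  refine Finset.sum_congr rfl fun x _ => ?_
  by_cases h1 : x.1 = i
  · rw [if_pos h1, HahnSeries.coeff_single]
    by_cases h2 : z = -(x.2.1 : ℤ)
    · rw [if_pos h2, if_pos ⟨h1, h2⟩]
    · rw [if_neg h2, if_neg (fun h => h2 h.2)]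
  · rw [if_neg h1, if_neg (fun h => h1 h.1), HahnSeries.coeff_zero]

omit [CharP k p] [Fact p.Prime] in
private theorem W3_polar_self (c : Par p s k) (i : Fin s) (j : Jp p) :
    (polar c i).coeff (-(j.1 : ℤ)) = c (i, j) := by
  rw [W3_polar_sum, Finset.sum_eq_single (i, j)]
  · rw [if_pos ⟨rfl, rfl⟩]
  · rintro ⟨i', j'⟩ _ hne
    rw [if_neg]
    rintro ⟨h1, h2⟩
    apply hne
    refine Prod.ext h1 (Subtype.ext ?_)
    change j'.1 = j.1
    change -(j.1 : ℤ) = -(j'.1 : ℤ) at h2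
    omega
  · intro hj
    rw [if_pos ⟨rfl, rfl⟩]
    exact Finsupp.notMem_support_iff.1 hj

omit [CharP k p] [Fact p.Prime] in
private theorem W3_polar_not (c : Par p s k) (i : Fin s) (z : ℤ)
    (h : ∀ j : Jp p, z ≠ -(j.1 : ℤ)) : (polar c i).coeff z = 0 := by
  rw [W3_polar_sum]
  exact Finset.sum_eq_zero fun x _ => if_neg fun h' => h x.2 h'.2

omit [CharP k p] [Fact p.Prime] in
private theorem W3_coeff (c : Par p s k) (i : ℕ) (hi : i < s) :
    (wfK c).coeff i = polar c ⟨i, hi⟩ := by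
  change (if h : i < s then polar c ⟨i, h⟩ else 0) = _
  rw [dif_pos hi]

omit [CharP k p] [Fact p.Prime] in
private theorem W3_coeff_not (c : Par p s k) (i : ℕ) (hi : ¬ i < s) :
    (wfK c).coeff i = 0 := by
  change (if h : i < s then polar c ⟨i, h⟩ else 0) = _
  rw [dif_neg hi]

omit [CharP k p] [Fact p.Prime] in
private theorem W3_scl (x : k) (c : Par p s k) (y : Fin s × Jp p) : scl x c y = x * c y := rfl

theorem coeff_nat_mul_wfK {a : ℕ} (ha : a ^ p ≡ a [MOD p ^ s]) (c : Par p s k) :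
    ∀ i < s, (((a : ℕ) : WittVector p (LaurentSeries k)) * wfK c).coeff i =
      (wfK (scl (a : k) c)).coeff i := by
  intro i hi
  have : CharP (LaurentSeries k) p := charP_of_injective_algebraMap
    (algebraMap k (LaurentSeries k)).injective p
  rw [coeff_nat_mul ha _ i hi, W3_coeff _ i hi, W3_coeff _ i hi]
  have h1 : ((a : ℕ) : LaurentSeries k) = HahnSeries.C ((a : ℕ) : k) := (map_natCast _ a).symm
  rw [h1]
  ext z
  rw [HahnSeries.C_mul_eq_smul, HahnSeries.coeff_smul, smul_eq_mul]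
  by_cases hz : ∃ j : Jp p, z = -(j.1 : ℤ)
  · obtain ⟨j, rfl⟩ := hz
    rw [W3_polar_self, W3_polar_self, W3_scl]
  · push Not at hz
    rw [W3_polar_not _ _ _ hz, W3_polar_not _ _ _ hz, mul_zero]

/-- `f_c(ζ T) = θ f_c(T)` if all exponents are `≡ κ` and `ζ^{-κ} = θ` -/
theorem rot_wfK {N κ : ℕ} (c : Par p s k) (hc : ∀ x ∈ c.support, (x.2 : ℕ) ≡ κ [MOD N]) (ζ : kˣ)
    (hζ : ζ ^ N = 1) (θ : k) (hθ : θ * (ζ : k) ^ κ = 1) (i : ℕ) :
    rot ζ ((wfK c).coeff i) = (wfK (scl θ c)).coeff i := by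
  by_cases hi : i < s
  · rw [W3_coeff _ i hi, W3_coeff _ i hi]
    ext z
    rw [rot_coeff]
    by_cases hz : ∃ j : Jp p, z = -(j.1 : ℤ)
    · obtain ⟨j, rfl⟩ := hz
      rw [W3_polar_self, W3_polar_self, W3_scl]
      by_cases hx : c (⟨i, hi⟩, j) = 0
      · rw [hx, mul_zero, mul_zero]
      · congr 1
        have h1 := hc _ (Finsupp.mem_support_iff.2 hx)
        have h2 : ζ ^ (j.1 : ℕ) = ζ ^ κ := by
          have h3 : orderOf ζ ∣ N := orderOf_dvd_of_pow_eq_one hζ
          exact pow_eq_pow_iff_modEq.2 (h1.of_dvd h3)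
        have h4 : (ζ : k) ^ κ ≠ 0 := pow_ne_zero _ ζ.ne_zero
        apply mul_right_cancel₀ h4
        rw [hθ, ← Units.val_pow_eq_pow_val, ← h2, ← Units.val_mul, zpow_neg, zpow_natCast,
          inv_mul_cancel, Units.val_one]
    · push Not at hz
      rw [W3_polar_not _ _ _ hz, W3_polar_not _ _ _ hz, mul_zero]
  · rw [W3_coeff_not _ i hi, W3_coeff_not _ i hi, map_zero]

/-- and conversely -/
theorem val_of_rot {N κ : ℕ} (c : Par p s k) (ζ : kˣ) (hζ : IsPrimitiveRoot ζ N) (θ : k)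
    (hθ : θ * (ζ : k) ^ κ = 1)
    (h : ∀ i < s, rot ζ ((wfK c).coeff i) = (wfK (scl θ c)).coeff i) :
    ∀ x ∈ c.support, (x.2 : ℕ) ≡ κ [MOD N] := by
  rintro ⟨⟨i, hi⟩, j⟩ hx
  have h1 := h i hi
  rw [W3_coeff _ i hi, W3_coeff _ i hi] at h1
  have h2 := congrArg (fun y : LaurentSeries k => y.coeff (-(j.1 : ℤ))) h1
  simp only [rot_coeff] at h2
  rw [W3_polar_self, W3_polar_self, W3_scl] at h2
  have h3 := mul_right_cancel₀ (Finsupp.mem_support_iff.1 hx) h2
  have h4 : ζ ^ κ = ζ ^ (j.1 : ℕ) := by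
    rw [← h3, ← Units.val_pow_eq_pow_val, ← Units.val_mul] at hθ
    have h5 : ζ ^ (-(j.1 : ℤ)) * ζ ^ κ = 1 := Units.ext hθ
    rw [zpow_neg, zpow_natCast, inv_mul_eq_one] at h5
    exact h5.symm
  change (j.1 : ℕ) ≡ κ [MOD N]
  rw [hζ.eq_orderOf]
  exact pow_eq_pow_iff_modEq.1 h4.symm

theorem wfK_injective (c c' : Par p s k) (h : ∀ i < s, (wfK c).coeff i = (wfK c').coeff i) :
    c = c' := by
  ext x
  obtain ⟨⟨i, hi⟩, j⟩ := x
  have h1 := h i hi
  rw [W3_coeff _ i hi, W3_coeff _ i hi] at h1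
  have h2 := congrArg (fun y : LaurentSeries k => y.coeff (-(j.1 : ℤ))) h1
  change (polar c ⟨i, hi⟩).coeff (-(j.1 : ℤ)) = (polar c' ⟨i, hi⟩).coeff (-(j.1 : ℤ)) at h2
  rw [W3_polar_self, W3_polar_self] at h2
  exact h2

end

end Pool.Agent.WG
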