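import Pool.Agent.WG.K2
import Pool.Agent.WG.W3

/-!
# Admissible pairs (piece WG-A1)
-/

namespace Pool.Agent.WG

open Polynomial Pool.Agent.WD

noncomputable section

universe u v

variable {k : Type u} [Field k] {G : Type v} [Group G]

/-- `γ^N = 1`, `g` has the order `p^s`, `γ⁻¹ g γ = g^θ`, and `θ = ζ^{-κ}` in `k` -/
structure Adm (p N : ℕ) (ζ : kˣ) (γ g : G) (s θ κ : ℕ) : Prop where
  hγ : γ ^ N = 1
  hg : orderOf g = p ^ s
  hθ : γ⁻¹ * g * γ = g ^ θ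
  hθN : θ ^ N ≡ 1 [MOD p ^ s]
  hθp : ¬ p ∣ θ
  hθk : (θ : k) * (ζ : k) ^ κ = 1

/-- `(γ, g)` can be conjugated to a pair which generates the same subgroup and the same coset as
`(γ', g')` -/
def EqP (x y : G × G) : Prop :=
  ∃ h : G, Subgroup.zpowers (h * x.2 * h⁻¹) = Subgroup.zpowers y.2 ∧
    y.1⁻¹ * (h * x.1 * h⁻¹) ∈ Subgroup.zpowers y.2

/-- the pairs that occur -/
def AdmP (p N : ℕ) (x : G × G) : Prop :=
  x.1 ^ N = 1 ∧ (∃ s : ℕ, orderOf x.2 = p ^ s) ∧ ∃ θ : ℕ, x.1⁻¹ * x.2 * x.1 = x.2 ^ θ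

variable {p : ℕ} [Fact p.Prime] [CharP k p] {N : ℕ} [NeZero N] {ζ : kˣ} {γ g : G} {s θ κ : ℕ}

theorem Adm.hθk' (h : Adm p N ζ γ g s θ κ) (hζ : ζ ^ N = 1) : (θ : k) ^ N = 1 := by
  have h1 : ((θ : k) * (ζ : k) ^ κ) ^ N = 1 := by rw [h.hθk, one_pow]
  have h2 : (ζ : k) ^ N = 1 := by
    rw [← Units.val_pow_eq_pow_val, hζ, Units.val_one]
  rw [mul_pow, ← pow_mul, mul_comm κ N, pow_mul, h2, one_pow, mul_one] at h1
  exact h1

theorem Adm.dual (h : Adm p N ζ γ g s θ κ) (hζ : ζ ^ N = 1) :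
    Adm p N ζ γ⁻¹ g s (θ ^ (N - 1)) ((N - κ % N) % N) := by
  have hN : 0 < N := Nat.pos_of_ne_zero (NeZero.ne N)
  have hNs : N - 1 + 1 = N := Nat.sub_add_cancel hN
  have hζk : (ζ : k) ^ N = 1 := by
    rw [← Units.val_pow_eq_pow_val, hζ, Units.val_one]
  refine ⟨by rw [inv_pow, h.hγ, inv_one], h.hg, ?_, ?_, ?_, ?_⟩
  · rw [inv_inv]
    have hx : (γ * g * γ⁻¹) ^ θ = g := by
      rw [conj_pow, ← h.hθ]
      group
    have ho : orderOf (γ * g * γ⁻¹) = p ^ s := by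
      have h1 : γ * g * γ⁻¹ = (MulAut.conj γ) g := rfl
      rw [h1, MulEquiv.orderOf_eq, h.hg]
    have h2 : (γ * g * γ⁻¹) ^ (θ ^ N) = (γ * g * γ⁻¹) ^ 1 := by
      rw [pow_eq_pow_iff_modEq, ho]
      exact h.hθN
    rw [pow_one] at h2
    calc γ * g * γ⁻¹ = (γ * g * γ⁻¹) ^ (θ ^ N) := h2.symm
      _ = ((γ * g * γ⁻¹) ^ θ) ^ (θ ^ (N - 1)) := by
          rw [← pow_mul]
          congr 1
          rw [← pow_succ', hNs]
      _ = g ^ (θ ^ (N - 1)) := by rw [hx]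
  · rw [← pow_mul, mul_comm (N - 1) N, pow_mul]
    have h1 := h.hθN.pow (N - 1)
    rwa [one_pow] at h1
  · intro hp
    exact h.hθp ((Fact.out : p.Prime).dvd_of_dvd_pow hp)
  · have h1 : (ζ : k) ^ ((N - κ % N) % N) * (ζ : k) ^ κ = 1 := by
      have h2 : (ζ : k) ^ κ = (ζ : k) ^ (κ % N) := by
        conv_lhs => rw [← Nat.div_add_mod κ N, pow_add, pow_mul, hζk, one_pow, one_mul]
      have h3 : (ζ : k) ^ (N - κ % N) = (ζ : k) ^ ((N - κ % N) % N) := by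
        conv_lhs => rw [← Nat.div_add_mod (N - κ % N) N, pow_add, pow_mul, hζk, one_pow, one_mul]
      rw [← h3, h2, ← pow_add, Nat.sub_add_cancel (Nat.mod_lt κ hN).le, hζk]
    have h4 : (θ : k) ^ (N - 1) * (θ : k) = 1 := by
      rw [← pow_succ, hNs]
      exact h.hθk' hζ
    have h5 : ((θ : k) ^ (N - 1) * (ζ : k) ^ ((N - κ % N) % N)) * ((θ : k) * (ζ : k) ^ κ) = 1 := by
      calc ((θ : k) ^ (N - 1) * (ζ : k) ^ ((N - κ % N) % N)) * ((θ : k) * (ζ : k) ^ κ)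
          = ((θ : k) ^ (N - 1) * (θ : k)) *
              ((ζ : k) ^ ((N - κ % N) % N) * (ζ : k) ^ κ) := by ring
        _ = 1 := by rw [h4, h1, one_mul]
    rw [h.hθk, mul_one] at h5
    rw [Nat.cast_pow]
    exact h5

theorem Adm.p_sub_one (h : Adm p N ζ γ g s θ κ) (hζ : IsPrimitiveRoot ζ N) :
    N ∣ (p - 1) * κ := by
  have hp : p.Prime := Fact.out
  have h1 : (θ : k) ^ (p - 1) = 1 := by
    have h2 : ((θ : ZMod p)) ≠ 0 := by
      intro h0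
      exact h.hθp ((ZMod.natCast_eq_zero_iff θ p).1 h0)
    have h3 := ZMod.pow_card_sub_one_eq_one h2
    have h4 := congrArg (ZMod.castHom (dvd_refl p) k) h3
    rw [map_pow, map_one, map_natCast] at h4
    exact h4
  have h5 : (ζ : k) ^ ((p - 1) * κ) = 1 := by
    have h6 : ((θ : k) * (ζ : k) ^ κ) ^ (p - 1) = 1 := by rw [h.hθk, one_pow]
    rw [mul_pow, h1, one_mul, ← pow_mul, mul_comm κ] at h6
    exact h6
  apply hζ.dvd_of_pow_eq_one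
  apply Units.ext
  rw [Units.val_pow_eq_pow_val, h5, Units.val_one]

private theorem Adm_conj_pow {G : Type v} [Group G] {γ g : G} {θ : ℕ}
    (h : γ⁻¹ * g * γ = g ^ θ) (n : ℕ) : (γ ^ n)⁻¹ * g * γ ^ n = g ^ (θ ^ n) := by
  induction n with
  | zero => simp
  | succ n ih =>
    have h1 : (γ ^ (n + 1))⁻¹ * g * γ ^ (n + 1) = γ⁻¹ * ((γ ^ n)⁻¹ * g * γ ^ n) * γ := by
      rw [pow_succ]
      group
    have h2 : γ⁻¹ * g ^ (θ ^ n) * γ = (γ⁻¹ * g * γ) ^ (θ ^ n) := by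
      have h3 := conj_pow (i := θ ^ n) (a := γ⁻¹) (b := g)
      rw [inv_inv] at h3
      exact h3.symm
    rw [h1, ih, h2, h, ← pow_mul, ← pow_succ']

theorem exists_Adm (hN : ¬ p ∣ N) (hζ : IsPrimitiveRoot ζ N) {x : G × G} (hx : AdmP p N x) :
    ∃ s θ κ : ℕ, κ < N ∧ Adm p N ζ x.1 x.2 s θ κ := by
  have hp : p.Prime := Fact.out
  have hN0 : 0 < N := Nat.pos_of_ne_zero (NeZero.ne N)
  obtain ⟨hγ, ⟨s, hs⟩, θ, hθ⟩ := hx
  rcases Nat.eq_zero_or_pos s with rfl | hs0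
  · have hg : x.2 = 1 := by
      rw [pow_zero, orderOf_eq_one_iff] at hs
      exact hs
    refine ⟨0, 1, 0, hN0, hγ, hs, ?_, ?_, ?_, ?_⟩
    · rw [hg]
      group
    · rw [one_pow]
    · exact hp.one_lt.ne' ∘ Nat.dvd_one.1
    · simp
  · have h1 : θ ^ N ≡ 1 [MOD p ^ s] := by
      have h2 := Adm_conj_pow hθ N
      rw [hγ, inv_one, one_mul, mul_one] at h2
      rw [← hs, ← pow_eq_pow_iff_modEq, ← h2, pow_one]
    have h3 : θ ^ N ≡ 1 [MOD p] := h1.of_dvd (dvd_pow_self p hs0.ne')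
    have h4 : ¬ p ∣ θ := by
      intro h5
      have h6 : p ∣ θ ^ N := dvd_pow h5 hN0.ne'
      have h7 := (Nat.modEq_zero_iff_dvd.2 h6).symm.trans h3
      exact hp.one_lt.ne' (Nat.dvd_one.1 ((Nat.modEq_zero_iff_dvd.1 h7.symm)))
    have h5 : (θ : k) ^ N = 1 := by
      have h6 : ((θ ^ N : ℕ) : k) = ((1 : ℕ) : k) := (CharP.natCast_eq_natCast k p).2 h3
      rwa [Nat.cast_pow, Nat.cast_one] at h6
    have hζ' : IsPrimitiveRoot (ζ : k) N := IsPrimitiveRoot.coe_units_iff.2 hζ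
    obtain ⟨j, hj, hj'⟩ := hζ'.eq_pow_of_pow_eq_one h5
    refine ⟨s, θ, (N - j) % N, Nat.mod_lt _ hN0, hγ, hs, hθ, h1, h4, ?_⟩
    have h7 : (ζ : k) ^ ((N - j) % N) = (ζ : k) ^ (N - j) := by
      conv_rhs => rw [← Nat.div_add_mod (N - j) N, pow_add, pow_mul, hζ'.pow_eq_one, one_pow,
        one_mul]
    rw [h7, ← hj', ← pow_add, Nat.add_sub_cancel' hj.le, hζ'.pow_eq_one]

theorem Adm.admP (h : Adm p N ζ γ g s θ κ) : AdmP p N (γ, g) :=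
  ⟨h.hγ, ⟨s, h.hg⟩, ⟨θ, h.hθ⟩⟩

end

end Pool.Agent.WG
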