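import Pool.Agent.WG.Adm

/-! # Representatives of the admissible pairs (piece WG-A2) -/

namespace Pool.Agent.WG

open Polynomial Pool.Agent.WD

noncomputable section

universe v

variable {G : Type v} [Group G] {p : ℕ} [Fact p.Prime] {N : ℕ}

/-- conjugates of cyclic subgroups -/
private theorem Adm2_conj_mem (h g x : G) :
    h * x * h⁻¹ ∈ Subgroup.zpowers (h * g * h⁻¹) ↔ x ∈ Subgroup.zpowers g := by
  rw [Subgroup.mem_zpowers_iff, Subgroup.mem_zpowers_iff]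
  refine exists_congr fun n => ?_
  rw [conj_zpow, mul_left_inj, mul_right_inj]

private theorem Adm2_zpowers_conj {h g g' : G}
    (H : Subgroup.zpowers g = Subgroup.zpowers g') :
    Subgroup.zpowers (h * g * h⁻¹) = Subgroup.zpowers (h * g' * h⁻¹) := by
  ext x
  have e : x = h * (h⁻¹ * x * h) * h⁻¹ := by group
  rw [e, Adm2_conj_mem, Adm2_conj_mem, H]

theorem EqP.refl (x : G × G) : EqP x x := by
  refine ⟨1, ?_, ?_⟩
  · rw [one_mul, inv_one, mul_one]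
  · rw [one_mul, inv_one, mul_one, inv_mul_cancel]
    exact Subgroup.one_mem _

theorem EqP.symm {x y : G × G} (h : EqP x y) : EqP y x := by
  obtain ⟨h, h1, h2⟩ := h
  refine ⟨h⁻¹, ?_, ?_⟩
  · have h3 := Adm2_zpowers_conj (h := h⁻¹) h1
    rw [← h3]
    congr 1
    group
  · rw [← Adm2_conj_mem h, h1]
    have h3 := Subgroup.inv_mem _ h2
    have e : h * (x.1⁻¹ * (h⁻¹ * y.1 * h⁻¹⁻¹)) * h⁻¹ = (y.1⁻¹ * (h * x.1 * h⁻¹))⁻¹ := by
      group
    rw [e]
    exact h3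

theorem EqP.trans {x y z : G × G} (h : EqP x y) (h' : EqP y z) : EqP x z := by
  obtain ⟨h, h1, h2⟩ := h
  obtain ⟨h', h1', h2'⟩ := h'
  refine ⟨h' * h, ?_, ?_⟩
  · have h3 := Adm2_zpowers_conj (h := h') h1
    rw [← h1', ← h3]
    congr 1
    group
  · have h3 : h' * (y.1⁻¹ * (h * x.1 * h⁻¹)) * h'⁻¹ ∈ Subgroup.zpowers z.2 := by
      rw [← h1', Adm2_conj_mem]
      exact h2
    have e : z.1⁻¹ * (h' * h * x.1 * (h' * h)⁻¹) =
        (z.1⁻¹ * (h' * y.1 * h'⁻¹)) * (h' * (y.1⁻¹ * (h * x.1 * h⁻¹)) * h'⁻¹) := by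
      group
    rw [e]
    exact Subgroup.mul_mem _ h2' h3

/-- `(γ⁻¹, g)` -/
def invP (x : G × G) : G × G := (x.1⁻¹, x.2)

private theorem Adm2_mem {x : G × G} (hx : AdmP p N x) {c : G}
    (hc : c ∈ Subgroup.zpowers x.2) : x.1 * c * x.1⁻¹ ∈ Subgroup.zpowers x.2 := by
  obtain ⟨-, ⟨s, hs⟩, θ, hθ⟩ := hx
  have hfin : Finite (Subgroup.zpowers x.2) := by
    apply Nat.finite_of_card_ne_zero
    rw [Nat.card_zpowers, hs]
    exact (pow_pos (Fact.out : p.Prime).pos s).ne'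
  have hmap : ∀ w ∈ Subgroup.zpowers x.2, x.1⁻¹ * w * x.1 ∈ Subgroup.zpowers x.2 := by
    intro w hw
    obtain ⟨n, rfl⟩ := Subgroup.mem_zpowers_iff.1 hw
    have e : x.1⁻¹ * x.2 ^ n * x.1 = (x.1⁻¹ * x.2 * x.1) ^ n := by
      have h3 := conj_zpow (i := n) (a := x.1⁻¹) (b := x.2)
      rw [inv_inv] at h3
      exact h3.symm
    rw [e, hθ]
    exact Subgroup.zpow_mem _ (Subgroup.pow_mem _ (Subgroup.mem_zpowers _) _) _
  have hinj : Function.Injective
      (fun w : Subgroup.zpowers x.2 =>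
        (⟨x.1⁻¹ * w * x.1, hmap w w.2⟩ : Subgroup.zpowers x.2)) := by
    intro w w' hww
    have h1 := congrArg Subtype.val hww
    simp only [mul_left_inj, mul_right_inj] at h1
    exact Subtype.ext h1
  obtain ⟨w, hw⟩ := (Finite.injective_iff_surjective.1 hinj) ⟨c, hc⟩
  have h2 : x.1⁻¹ * (w : G) * x.1 = c := congrArg Subtype.val hw
  have h3 : x.1 * c * x.1⁻¹ = w := by
    rw [← h2]
    group
  rw [h3]
  exact w.2

theorem EqP.inv {x y : G × G} (hx : AdmP p N x) (hy : AdmP p N y) (h : EqP x y) :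
    EqP (invP x) (invP y) := by
  obtain ⟨h, h1, h2⟩ := h
  refine ⟨h, h1, ?_⟩
  have h3 := Adm2_mem hy (Subgroup.inv_mem _ h2)
  have e : (invP y).1⁻¹ * (h * (invP x).1 * h⁻¹) =
      y.1 * (y.1⁻¹ * (h * x.1 * h⁻¹))⁻¹ * y.1⁻¹ := by
    change y.1⁻¹⁻¹ * (h * x.1⁻¹ * h⁻¹) = _
    group
  rw [e]
  exact h3

theorem AdmP.inv {x : G × G} (hx : AdmP p N x) : AdmP p N (invP x) := by
  have h1 := Adm2_mem hx (Subgroup.mem_zpowers x.2)
  obtain ⟨h2, ⟨s, hs⟩, -⟩ := hx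
  refine ⟨?_, ⟨s, hs⟩, ?_⟩
  · change x.1⁻¹ ^ N = 1
    rw [inv_pow, h2, inv_one]
  · have hf : IsOfFinOrder x.2 := by
      rw [← orderOf_pos_iff, hs]
      exact pow_pos (Fact.out : p.Prime).pos s
    obtain ⟨θ, hθ⟩ := (hf.mem_powers_iff_mem_zpowers.2 h1)
    refine ⟨θ, ?_⟩
    change x.1⁻¹⁻¹ * x.2 * x.1⁻¹ = x.2 ^ θ
    rw [inv_inv]
    exact hθ.symm

/-- `R` is a system of representatives of the admissible pairs -/
def Reps (p N : ℕ) {m : ℕ} (R : Fin m → G × G) : Prop :=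
  (∀ i, AdmP p N (R i)) ∧ (∀ x, AdmP p N x → ∃ i, EqP x (R i)) ∧
    ∀ i j, EqP (R i) (R j) → i = j

theorem exists_reps [Finite G] : ∃ (m : ℕ) (R : Fin m → G × G), Reps p N R := by
  let S : Setoid {x : G × G // AdmP p N x} :=
    { r := fun x y => EqP x.1 y.1
      iseqv := ⟨fun x => EqP.refl x.1, fun h => h.symm, fun h h' => h.trans h'⟩ }
  let e := Finite.equivFin (Quotient S)
  refine ⟨Nat.card (Quotient S), fun i => (e.symm i).out.1, fun i => (e.symm i).out.2, ?_, ?_⟩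
  · intro x hx
    refine ⟨e (Quotient.mk S ⟨x, hx⟩), ?_⟩
    change EqP x (e.symm (e (Quotient.mk S ⟨x, hx⟩))).out.1
    rw [e.symm_apply_apply]
    have h1 : (Quotient.mk S ⟨x, hx⟩).out ≈ (⟨x, hx⟩ : {x : G × G // AdmP p N x}) :=
      Quotient.mk_out _
    exact EqP.symm h1
  · intro i j h
    have h1 : Quotient.mk S (e.symm i).out = Quotient.mk S (e.symm j).out := Quotient.sound h
    rw [Quotient.out_eq, Quotient.out_eq] at h1
    exact e.symm.injective h1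

private theorem Adm2_invP_invP (x : G × G) : invP (invP x) = x := by
  unfold invP
  rw [inv_inv]

theorem Reps.inv {m : ℕ} {R : Fin m → G × G} (h : Reps p N R) : Reps p N fun i => invP (R i) := by
  obtain ⟨h1, h2, h3⟩ := h
  refine ⟨fun i => (h1 i).inv, fun x hx => ?_, fun i j hij => ?_⟩
  · obtain ⟨i, hi⟩ := h2 (invP x) hx.inv
    refine ⟨i, ?_⟩
    have h4 := EqP.inv hx.inv (h1 i) hi
    rwa [Adm2_invP_invP] at h4
  · apply h3
    have h4 := EqP.inv (h1 i).inv (h1 j).inv hij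
    rwa [Adm2_invP_invP, Adm2_invP_invP] at h4

end

end Pool.Agent.WG
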