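import Pool.Agent.WG.Adm

/-! # Automorphisms of cyclic `p`-subgroups, the group `Theta` (piece WG-A3) -/

namespace Pool.Agent.WG

open Polynomial Pool.Agent.WD

noncomputable section

universe u v

variable {k : Type u} [Field k] {G : Type v} [Group G]
  {p : ℕ} [Fact p.Prime] [CharP k p] {N : ℕ} [NeZero N] {ζ : kˣ} {γ g : G} {s θ κ : ℕ}

/-- In a group with cyclic Sylow `p`-subgroups: if `h g h⁻¹ = g^a`, `g` a `p`-element, then `a` has
an order prime to `p` modulo the order of `g`: the `p`-part of `h` and `g` generate a `p`-group,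
which is cyclic, so the `p`-part of `h` commutes with `g`. -/
theorem teich_of_conj [Finite G] (hG : ∀ P : Sylow p G, IsCyclic P) {g h : G} {s a : ℕ}
    (hg : orderOf g = p ^ s) (ha : h * g * h⁻¹ = g ^ a) : ∃ M : ℕ, ¬ p ∣ M ∧
      a ^ M ≡ 1 [MOD p ^ s] := by
  obtain ⟨e, m, hm, hn⟩ := Nat.exists_eq_pow_mul_and_not_dvd (orderOf_pos h).ne' p
    (Fact.out : p.Prime).ne_one
  refine ⟨m, hm, ?_⟩
  have hconj : ∀ i : ℕ, h ^ i * g * (h ^ i)⁻¹ = g ^ (a ^ i) := by
    intro i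
    induction i with
    | zero => simp
    | succ i ih =>
      have h1 : h ^ (i + 1) * g * (h ^ (i + 1))⁻¹ = h * (h ^ i * g * (h ^ i)⁻¹) * h⁻¹ := by
        rw [pow_succ']; group
      rw [h1, ih, ← conj_pow, ha, ← pow_mul, pow_succ']
  set y := h ^ m with hy
  have hyp : y ^ p ^ e = 1 := by
    rw [hy, ← pow_mul, mul_comm, ← hn, pow_orderOf_eq_one]
  have hyP : IsPGroup p (Subgroup.zpowers y) := by
    rintro ⟨x, hx⟩
    obtain ⟨i, rfl⟩ := Subgroup.mem_zpowers_iff.1 hx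
    refine ⟨e, Subtype.ext ?_⟩
    change (y ^ i) ^ p ^ e = 1
    rw [← zpow_natCast, ← zpow_mul, mul_comm, zpow_mul, zpow_natCast, hyp, one_zpow]
  have hgP : IsPGroup p (Subgroup.zpowers g) := by
    rintro ⟨x, hx⟩
    obtain ⟨i, rfl⟩ := Subgroup.mem_zpowers_iff.1 hx
    refine ⟨s, Subtype.ext ?_⟩
    change (g ^ i) ^ p ^ s = 1
    rw [← zpow_natCast, ← zpow_mul, mul_comm, zpow_mul, zpow_natCast, ← hg, pow_orderOf_eq_one,
      one_zpow]
  have hmem : ∀ (i : ℕ) (x : G), x ∈ Subgroup.zpowers g → h ^ i * x * (h ^ i)⁻¹ ∈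
      Subgroup.zpowers g := by
    intro i x hx
    obtain ⟨j, rfl⟩ := Subgroup.mem_zpowers_iff.1 hx
    rw [← conj_zpow, hconj]
    exact Subgroup.zpow_mem _ (Subgroup.pow_mem _ (Subgroup.mem_zpowers g) _) _
  have hnorm : Subgroup.zpowers y ≤ Subgroup.normalizer (Subgroup.zpowers g : Set G) := by
    rw [Subgroup.zpowers_le, Subgroup.mem_normalizer_iff]
    intro x
    constructor
    · exact hmem m x
    · intro hx
      -- `h⁻¹` is a power of `h`
      have h1 := hmem (m * (orderOf h - 1)) _ hx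
      have h2 : h ^ (m * (orderOf h - 1)) = y⁻¹ := by
        rw [eq_inv_iff_mul_eq_one, hy, ← pow_add]
        have h3 : m * (orderOf h - 1) + m = orderOf h * m := by
          have h4 : orderOf h - 1 + 1 = orderOf h := Nat.sub_add_cancel (orderOf_pos h)
          calc m * (orderOf h - 1) + m = m * (orderOf h - 1 + 1) := by ring
            _ = _ := by rw [h4, mul_comm]
        rw [h3, pow_mul, pow_orderOf_eq_one, one_pow]
      rw [h2] at h1
      have h3 : y⁻¹ * (y * x * y⁻¹) * y⁻¹⁻¹ = x := by group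
      rwa [h3] at h1
  obtain ⟨Q, hQ⟩ := (IsPGroup.to_sup_of_normal_right' hyP hgP hnorm).exists_le_sylow
  have hyQ : y ∈ (Q : Subgroup G) := hQ (Subgroup.mem_sup_left (Subgroup.mem_zpowers y))
  have hgQ : g ∈ (Q : Subgroup G) := hQ (Subgroup.mem_sup_right (Subgroup.mem_zpowers g))
  have hcyc : IsCyclic Q := hG Q
  have hcomm : y * g = g * y := by
    have h1 := (IsCyclic.commGroup (α := Q)).mul_comm ⟨y, hyQ⟩ ⟨g, hgQ⟩
    exact congrArg Subtype.val h1
  have h1 : g ^ (a ^ m) = g ^ 1 := by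
    rw [← hconj m, ← hy, hcomm, pow_one]; group
  rw [pow_eq_pow_iff_modEq, hg] at h1
  exact h1

variable (k) in
/-- the group of the scalars `a ∈ 𝔽_p` for which there is an `h ∈ G` with `h g h⁻¹ = g^a` and
`h γ h⁻¹ ∈ γ ⟨g⟩` -/
def Theta (p : ℕ) (γ g : G) : Subgroup kˣ :=
  Subgroup.closure {x : kˣ | ∃ (a : ℕ) (h : G), (x : k) = a ∧ h * g * h⁻¹ = g ^ a ∧
    γ⁻¹ * (h * γ * h⁻¹) ∈ Subgroup.zpowers g}

private theorem Adm3_pow {x : kˣ} {a : ℕ} (hx : (x : k) = a) : x ^ (p - 1) = 1 := by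
  have h1 : (a : k) ^ p = a := map_natCast (frobenius k p) a
  have h2 : (x : k) ^ p = x := by rw [hx]; exact h1
  have hp : p - 1 + 1 = p := Nat.sub_add_cancel (Fact.out : p.Prime).one_le
  apply Units.ext
  rw [Units.val_pow_eq_pow_val, Units.val_one]
  have h3 : (x : k) ^ (p - 1) * x = 1 * x := by
    rw [← pow_succ, hp, h2, one_mul]
  exact mul_right_cancel₀ x.ne_zero h3

theorem mem_Theta_iff [Finite G] (hA : Adm p N ζ γ g s θ κ) (x : kˣ) :
    x ∈ Theta k p γ g ↔ ∃ (a : ℕ) (h : G), (x : k) = a ∧ h * g * h⁻¹ = g ^ a ∧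
      γ⁻¹ * (h * γ * h⁻¹) ∈ Subgroup.zpowers g := by
  constructor
  · intro hx
    have hmul : ∀ x y : kˣ, (∃ (a : ℕ) (h : G), (x : k) = a ∧ h * g * h⁻¹ = g ^ a ∧
        γ⁻¹ * (h * γ * h⁻¹) ∈ Subgroup.zpowers g) → (∃ (a : ℕ) (h : G), (y : k) = a ∧
        h * g * h⁻¹ = g ^ a ∧ γ⁻¹ * (h * γ * h⁻¹) ∈ Subgroup.zpowers g) →
        ∃ (a : ℕ) (h : G), ((x * y : kˣ) : k) = a ∧ h * g * h⁻¹ = g ^ a ∧
        γ⁻¹ * (h * γ * h⁻¹) ∈ Subgroup.zpowers g := by
      rintro x y ⟨a, h, h1, h2, h3⟩ ⟨b, h', h1', h2', h3'⟩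
      refine ⟨a * b, h * h', ?_, ?_, ?_⟩
      · rw [Units.val_mul, h1, h1', Nat.cast_mul]
      · have e1 : h * h' * g * (h * h')⁻¹ = h * (h' * g * h'⁻¹) * h⁻¹ := by group
        rw [e1, h2', ← conj_pow, h2, pow_mul]
      · have e1 : γ⁻¹ * (h * h' * γ * (h * h')⁻¹) =
            (γ⁻¹ * (h * γ * h⁻¹)) * (h * (γ⁻¹ * (h' * γ * h'⁻¹)) * h⁻¹) := by group
        rw [e1]
        refine Subgroup.mul_mem _ h3 ?_
        obtain ⟨j, hj⟩ := Subgroup.mem_zpowers_iff.1 h3'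
        rw [← hj, ← conj_zpow, h2]
        exact Subgroup.zpow_mem _ (Subgroup.pow_mem _ (Subgroup.mem_zpowers g) _) _
    have hone : ∃ (a : ℕ) (h : G), ((1 : kˣ) : k) = a ∧ h * g * h⁻¹ = g ^ a ∧
        γ⁻¹ * (h * γ * h⁻¹) ∈ Subgroup.zpowers g :=
      ⟨1, 1, by simp, by simp, by simp⟩
    refine Subgroup.closure_induction (p := fun (x : kˣ) _ => ∃ (a : ℕ) (h : G), (x : k) = a ∧
      h * g * h⁻¹ = g ^ a ∧ γ⁻¹ * (h * γ * h⁻¹) ∈ Subgroup.zpowers g)
      (fun x hx => hx) hone (fun x y _ _ hx hy => hmul x y hx hy) (fun x _ hx => ?_) hx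
    have h1 : x⁻¹ = x ^ (p - 2) := by
      have h2 : x ^ (p - 1) = 1 := by
        obtain ⟨a, -, ha, -⟩ := hx
        exact Adm3_pow ha
      have h3 : p - 1 = p - 2 + 1 := by
        have := (Fact.out : p.Prime).two_le
        omega
      rw [h3, pow_succ] at h2
      exact (eq_inv_of_mul_eq_one_left h2).symm
    rw [h1]
    have hpow : ∀ n : ℕ, ∃ (a : ℕ) (h : G), ((x ^ n : kˣ) : k) = a ∧ h * g * h⁻¹ = g ^ a ∧
        γ⁻¹ * (h * γ * h⁻¹) ∈ Subgroup.zpowers g := by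
      intro n
      induction n with
      | zero => rw [pow_zero]; exact hone
      | succ n ih => rw [pow_succ]; exact hmul _ _ ih hx
    exact hpow (p - 2)
  · intro hx
    exact Subgroup.subset_closure hx

theorem finite_Theta (hA : Adm p N ζ γ g s θ κ) : Finite (Theta k p γ g) := by
  have hp := (Fact.out : p.Prime).two_le
  have : NeZero (p - 1) := ⟨by omega⟩
  have h1 : Theta k p γ g ≤ rootsOfUnity (p - 1) k := by
    unfold Theta
    rw [Subgroup.closure_le]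
    rintro x ⟨a, h, ha, -⟩
    exact Adm3_pow ha
  exact Finite.of_injective (Subgroup.inclusion h1) (Subgroup.inclusion_injective h1)

end

end Pool.Agent.WG
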