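import Pool.Agent.WG.Cls

/-! # Torsors of the same type are isomorphic (piece WG-C1) -/

namespace Pool.Agent.WG

open Polynomial Pool.Agent.WD Pool.Agent.WC

noncomputable section

universe u v

variable {p : ℕ} [Fact p.Prime] {k : Type u} [Field k] [IsAlgClosed k] [CharP k p] {s : ℕ}
  {G : Type v} [Group G] {N κ θ : ℕ} [NeZero N] {ζ : kˣ} {γ g : G}

omit [IsAlgClosed k] [CharP k p] [Field k] [NeZero N] in
private theorem C1_tr {L : Type*} [CommRing L] {x y : WittVector p L} {n : ℕ} :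
    (∀ i < n, x.coeff i = y.coeff i) ↔ WittVector.truncate n x = WittVector.truncate n y := by
  constructor
  · intro h
    refine TruncatedWittVector.ext fun i => ?_
    rw [WittVector.coeff_truncate, WittVector.coeff_truncate]
    exact h i i.2
  · intro h i hi
    have h1 := congrArg (TruncatedWittVector.coeff (⟨i, hi⟩ : Fin n)) h
    rwa [WittVector.coeff_truncate, WittVector.coeff_truncate] at h1

private theorem C1_conj {γ g : G} (h : γ⁻¹ * g * γ = g ^ θ) (n m : ℕ) :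
    (γ ^ n)⁻¹ * g ^ m * γ ^ n = g ^ (θ ^ n * m) := by
  have key : ∀ (x : G) (m : ℕ), γ⁻¹ * x ^ m * γ = (γ⁻¹ * x * γ) ^ m := by
    intro x m
    have h3 := conj_pow (i := m) (a := γ⁻¹) (b := x)
    rw [inv_inv] at h3
    exact h3.symm
  induction n with
  | zero => simp
  | succ n ih =>
    have h1 : (γ ^ (n + 1))⁻¹ * g ^ m * γ ^ (n + 1) = γ⁻¹ * ((γ ^ n)⁻¹ * g ^ m * γ ^ n) * γ := by
      rw [pow_succ]
      group
    rw [h1, ih, key, h, ← pow_mul]
    congr 1
    rw [pow_succ]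
    ring

omit [IsAlgClosed k] in
private theorem C1_cK (σ : GalK k) (x : k) : σ (cK k x) = cK k x := σ.commutes _

/-- WG-C1: two torsors of the same type are isomorphic: with `T' = ζ^a T`, `z' = θ^a z + l`, the
homomorphism for `(T', z')` is conjugate to the one for `(T, z)` by `g^{-l} γ^{-a}`. -/
theorem type_unique (hN : ¬ p ∣ N) (hζ : IsPrimitiveRoot ζ N) (hA : Adm p N ζ γ g s θ κ)
    {c : Par p s k} (hc : ∀ x ∈ c.support, (x.2 : ℕ) ≡ κ [MOD N]) {φ ψ : Torsor k G}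
    (h : IsType N (ζ : k) γ g c φ) (h' : IsType N (ζ : k) γ g c ψ) : Iso φ ψ := by
  classical
  obtain ⟨T, z, hR, hT⟩ := (isType_iff hA c φ).1 h
  obtain ⟨T', z', hR', hT'⟩ := (isType_iff hA c ψ).1 h'
  have hN0 : N ≠ 0 := NeZero.ne N
  have ht0 : tK k ≠ 0 := by
    rw [tK, Ne, map_eq_zero]
    exact HahnSeries.single_ne_zero one_ne_zero
  have hne : T ≠ 0 := by
    rintro rfl
    have := hR.1
    rw [zero_pow hN0] at this
    exact ht0 this.symm
  have hne' : T' ≠ 0 := by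
    rintro rfl
    have := hR'.1
    rw [zero_pow hN0] at this
    exact ht0 this.symm
  have hζk : IsPrimitiveRoot (cK k (ζ : k)) N :=
    (IsPrimitiveRoot.coe_units_iff.2 hζ).map_of_injective (cK k).injective
  obtain ⟨a, ha, haT⟩ : ∃ a < N, cK k (ζ : k) ^ a = T' / T := by
    apply hζk.eq_pow_of_pow_eq_one
    rw [div_pow, hR.1, hR'.1, div_self ht0]
  have hT'e : T' = cK k (ζ : k) ^ a * T := by
    rw [haT, div_mul_cancel₀ _ hne]
  have hζN : ζ ^ N = 1 := hζ.pow_eq_one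
  have hθp : (θ ^ a) ^ p ≡ θ ^ a [MOD p ^ s] := by
    have h1 := (pow_p_of_pow hN hA.hθN).pow a
    rwa [← pow_mul, mul_comm p a, pow_mul] at h1
  have hroot1 : Root N (scl (((θ ^ a : ℕ) : ℕ) : k) c) T
      ((((θ ^ a : ℕ) : ℕ) : WittVector p (Ks k)) * z) := root_scl hR hθp
  have hroot2 : Root N (scl (((θ ^ a : ℕ) : ℕ) : k) c) T z' := by
    refine ⟨hR.1, fun i hi => ?_⟩
    rw [hR'.2 i hi, hT'e, fT_rot hc hζN hA.hθk, Nat.cast_pow]
  obtain ⟨l, hl⟩ := root_unique hroot1 hroot2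
  have hps : WittVector.truncate s ((p ^ s : ℕ) : WittVector p (Ks k)) = 0 := by
    have : CharP (Ks k) p := charP_of_injective_ringHom (cK k).injective p
    have h1 := coeff_nat_congr (p := p) (A := Ks k) (r := s) (a := p ^ s) (b := 0)
      ((Nat.modEq_zero_iff_dvd.2 (dvd_refl _)))
    rw [C1_tr] at h1
    rw [h1, Nat.cast_zero, map_zero]
  have hzt := C1_tr.1 hl
  have hp1 : 1 ≤ p ^ s := Nat.one_le_pow _ _ (Fact.out : p.Prime).pos
  refine ⟨(g ^ l)⁻¹ * (γ ^ a)⁻¹, fun σ => ?_⟩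
  obtain ⟨i0, l0, hF, hφ⟩ := hT σ
  obtain ⟨i, l', hF', hψ⟩ := hT' σ
  set l'' := θ ^ a * l0 + l + θ ^ i0 * l * (p ^ s - 1) with hl''
  have hF2 : Form ζ θ s T' z' σ i0 l'' := by
    constructor
    · rw [hT'e, map_mul, map_pow, C1_cK, hF.1]
      ring
    · have h1 : WittVector.truncate s (WittVector.map (σ : Ks k →+* Ks k) z) =
          WittVector.truncate s (((θ ^ i0 : ℕ) : WittVector p (Ks k)) * z + (l0 : WittVector p (Ks k))) := by
        rw [← C1_tr]
        intro j hj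
        rw [WittVector.map_coeff]
        exact hF.2 j hj
      have h2 : WittVector.truncate s (WittVector.map (σ : Ks k →+* Ks k) z') =
          WittVector.truncate s (WittVector.map (σ : Ks k →+* Ks k)
            (((θ ^ a : ℕ) : WittVector p (Ks k)) * z + (l : WittVector p (Ks k)))) := by
        rw [← C1_tr]
        intro j hj
        rw [WittVector.map_coeff, WittVector.map_coeff, hl j hj]
      have h3 : WittVector.truncate s (WittVector.map (σ : Ks k →+* Ks k) z') =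
          WittVector.truncate s (((θ ^ i0 : ℕ) : WittVector p (Ks k)) * z' +
            (l'' : WittVector p (Ks k))) := by
        rw [h2]
        rw [map_add, map_mul, map_natCast, map_natCast, map_add, map_mul, h1, map_add, map_mul,
          map_natCast, map_natCast, map_natCast, map_natCast, map_add, map_mul, hzt, map_add,
          map_mul, map_natCast, map_natCast, map_natCast, map_natCast]
        have h4 : ((p ^ s : ℕ) : TruncatedWittVector p s (Ks k)) = 0 := by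
          rw [← map_natCast (WittVector.truncate s), hps]
        rw [hl'']
        have h5 : ((p ^ s - 1 : ℕ) : TruncatedWittVector p s (Ks k)) = -1 := by
          rw [Nat.cast_sub hp1, h4, Nat.cast_one, zero_sub]
        push_cast [h5]
        ring
      intro j hj
      have h6 := C1_tr.2 h3 j hj
      rw [WittVector.map_coeff] at h6
      exact h6
  obtain ⟨hi, hl'⟩ := form_unique hζ hA.hθN hne' hF' hF2
  have e1 : γ ^ i = γ ^ i0 := by
    rw [pow_eq_pow_iff_modEq]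
    exact hi.of_dvd (orderOf_dvd_of_pow_eq_one hA.hγ)
  have e2 : g ^ l' = g ^ l'' := by
    rw [pow_eq_pow_iff_modEq, hA.hg]
    exact hl'
  have e3 : g ^ (θ ^ i0 * l * (p ^ s - 1)) = (g ^ (θ ^ i0 * l))⁻¹ := by
    rw [eq_inv_iff_mul_eq_one, ← pow_add]
    have h7 : θ ^ i0 * l * (p ^ s - 1) + θ ^ i0 * l = p ^ s * (θ ^ i0 * l) := by
      obtain ⟨q, hq⟩ : ∃ q, p ^ s = q + 1 := ⟨p ^ s - 1, by omega⟩
      rw [hq]
      simp only [Nat.add_sub_cancel]
      ring
    rw [h7, pow_mul, ← hA.hg, pow_orderOf_eq_one, one_pow]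
  have e4 : g ^ (θ ^ a * l0) = (γ ^ a)⁻¹ * g ^ l0 * γ ^ a := (C1_conj hA.hθ a l0).symm
  have e5 : g ^ (θ ^ i0 * l) = (γ ^ i0)⁻¹ * g ^ l * γ ^ i0 := (C1_conj hA.hθ i0 l).symm
  have e6 : g ^ l'' = (g ^ (θ ^ i0 * l))⁻¹ * (g ^ (θ ^ a * l0) * g ^ l) := by
    rw [hl'', pow_add, pow_add, e3]
    have hcomm : Commute (g ^ (θ ^ a * l0) * g ^ l) (g ^ (θ ^ i0 * l))⁻¹ := by
      apply Commute.inv_right
      rw [← pow_add]
      exact Commute.pow_pow_self g _ _
    exact hcomm.eq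
  rw [hψ, hφ, e1, e2, e6, e4, e5]
  have e7 : γ ^ a * γ ^ i0 = γ ^ i0 * γ ^ a := by rw [← pow_add, ← pow_add, add_comm]
  have e8 : (γ ^ a)⁻¹ * γ ^ i0 = γ ^ i0 * (γ ^ a)⁻¹ := by
    rw [inv_mul_eq_iff_eq_mul, ← mul_assoc, e7, mul_assoc, mul_inv_cancel, mul_one]
  calc γ ^ i0 * (((γ ^ i0)⁻¹ * g ^ l * γ ^ i0)⁻¹ * ((γ ^ a)⁻¹ * g ^ l0 * γ ^ a * g ^ l))
      = (g ^ l)⁻¹ * (γ ^ i0 * (γ ^ a)⁻¹) * g ^ l0 * γ ^ a * g ^ l := by group
    _ = (g ^ l)⁻¹ * ((γ ^ a)⁻¹ * γ ^ i0) * g ^ l0 * γ ^ a * g ^ l := by rw [e8]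
    _ = (g ^ l)⁻¹ * (γ ^ a)⁻¹ * (γ ^ i0 * g ^ l0) * ((g ^ l)⁻¹ * (γ ^ a)⁻¹)⁻¹ := by group

end

end Pool.Agent.WG
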