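import Pool.Agent.WG.Cls

/-! # Conjugation (piece WG-C2) -/

namespace Pool.Agent.WG

open Polynomial Pool.Agent.WD Pool.Agent.WC

noncomputable section

universe u v

variable {p : ℕ} [Fact p.Prime] {k : Type u} [Field k] [IsAlgClosed k] [CharP k p] {s : ℕ}
  {G : Type v} [Group G] {N κ θ : ℕ} [NeZero N] {ζ : kˣ} {γ g : G}

omit [Fact p.Prime] [IsAlgClosed k] [CharP k p] in
private theorem C2_trunc {L : Type*} [CommRing L] [Fact p.Prime] {a a' b b' : WittVector p L}
    {n : ℕ} (ha : ∀ i < n, a.coeff i = a'.coeff i) (hb : ∀ i < n, b.coeff i = b'.coeff i) :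
    ∀ i < n, (a * b).coeff i = (a' * b').coeff i := by
  have h1 : WittVector.truncate n a = WittVector.truncate n a' := by
    refine TruncatedWittVector.ext fun i => ?_
    rw [WittVector.coeff_truncate, WittVector.coeff_truncate]
    exact ha i i.2
  have h2 : WittVector.truncate n b = WittVector.truncate n b' := by
    refine TruncatedWittVector.ext fun i => ?_
    rw [WittVector.coeff_truncate, WittVector.coeff_truncate]
    exact hb i i.2
  have h3 : WittVector.truncate n (a * b) = WittVector.truncate n (a' * b') := by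
    rw [map_mul, map_mul, h1, h2]
  intro i hi
  have h4 := congrArg (TruncatedWittVector.coeff (⟨i, hi⟩ : Fin n)) h3
  rwa [WittVector.coeff_truncate, WittVector.coeff_truncate] at h4

/-- the sum `1 + θ + ... + θ^(i-1)` -/
private def C2_S (θ : ℕ) : ℕ → ℕ
  | 0 => 0
  | i + 1 => θ * C2_S θ i + 1

private theorem C2_comm {G : Type v} [Group G] {γ g : G} {θ : ℕ} (hθ : γ⁻¹ * g * γ = g ^ θ)
    (n : ℕ) : g ^ n * γ = γ * g ^ (θ * n) := by
  induction n with
  | zero => simp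
  | succ n ih =>
    have h1 : g * γ = γ * g ^ θ := by
      rw [← hθ]
      group
    rw [pow_succ', mul_assoc, ih, ← mul_assoc, h1, mul_assoc, ← pow_add]
    congr 2
    ring

private theorem C2_pow {G : Type v} [Group G] {γ g : G} {θ : ℕ} (hθ : γ⁻¹ * g * γ = g ^ θ)
    (m i : ℕ) : (γ * g ^ m) ^ i = γ ^ i * g ^ (m * C2_S θ i) := by
  induction i with
  | zero => simp [C2_S]
  | succ i ih =>
    rw [pow_succ, ih, mul_assoc, ← mul_assoc (g ^ (m * C2_S θ i)), C2_comm hθ, mul_assoc,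
      ← mul_assoc, ← pow_succ, ← pow_add]
    congr 2
    rw [C2_S]
    ring

private theorem C2_S_mod {p θ : ℕ} (h : (p : ℤ) ∣ 1 - θ) (i : ℕ) :
    (p : ℤ) ∣ (C2_S θ i : ℤ) - i := by
  induction i with
  | zero => simp [C2_S]
  | succ i ih =>
    have e : ((C2_S θ (i + 1) : ℕ) : ℤ) - ((i + 1 : ℕ) : ℤ) =
        ((C2_S θ i : ℤ) - i) - (1 - θ) * C2_S θ i := by
      rw [C2_S]
      push_cast
      ring
    rw [e]
    exact dvd_sub ih (Dvd.dvd.mul_right h _)

private theorem C2_exists_b {p : ℕ} (hp : p.Prime) {N s θ m : ℕ} (hN : ¬ p ∣ N)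
    (hm : p ^ s ∣ m * C2_S θ N) : ∃ b : ℕ, θ * b + m ≡ b [MOD p ^ s] := by
  have hpz : Prime (p : ℤ) := Nat.prime_iff_prime_int.1 hp
  by_cases h : (p : ℤ) ∣ 1 - θ
  · refine ⟨0, ?_⟩
    have h1 : ¬ p ∣ C2_S θ N := by
      intro h2
      have h3 := C2_S_mod h N
      have h4 : (p : ℤ) ∣ (N : ℤ) := by
        have h5 := dvd_sub (Int.natCast_dvd_natCast.2 h2) h3
        rwa [sub_sub_cancel] at h5
      exact hN (Int.natCast_dvd_natCast.1 h4)
    have h2 : Nat.Coprime (p ^ s) (C2_S θ N) :=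
      Nat.Coprime.pow_left s ((Nat.Prime.coprime_iff_not_dvd hp).2 h1)
    have h3 : p ^ s ∣ m := h2.dvd_of_dvd_mul_right hm
    rw [mul_zero, zero_add]
    exact (Nat.modEq_zero_iff_dvd).2 h3
  · have h1 : IsCoprime (1 - θ : ℤ) ((p : ℤ) ^ s) :=
      IsCoprime.pow_right ((Prime.coprime_iff_not_dvd hpz).2 h).symm
    obtain ⟨u, v, huv⟩ := h1
    have hps : (0 : ℤ) < (p : ℤ) ^ s := by
      have := hp.pos
      positivity
    refine ⟨((m * u : ℤ) % (p : ℤ) ^ s).toNat, ?_⟩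
    set b : ℕ := ((m * u : ℤ) % (p : ℤ) ^ s).toNat with hb
    have hb' : (b : ℤ) = (m * u : ℤ) % (p : ℤ) ^ s := by
      rw [hb, Int.toNat_of_nonneg (Int.emod_nonneg _ hps.ne')]
    have h2 : (b : ℤ) ≡ m * u [ZMOD (p : ℤ) ^ s] := by
      rw [hb']
      exact Int.mod_modEq _ _
    rw [← Int.natCast_modEq_iff]
    push_cast
    have h3 : (1 - θ : ℤ) * b ≡ (1 - θ) * (m * u) [ZMOD (p : ℤ) ^ s] := h2.mul_left _
    have h4 : (1 - θ : ℤ) * (m * u) ≡ m [ZMOD (p : ℤ) ^ s] := by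
      refine (Int.modEq_iff_dvd.2 ?_)
      refine ⟨m * v, ?_⟩
      linear_combination (m : ℤ) * (-huv)
    have h5 := h3.trans h4
    have h6 : (θ : ℤ) * b + (1 - θ) * b ≡ θ * b + m [ZMOD (p : ℤ) ^ s] := h5.add_left _
    have h7 : (θ : ℤ) * b + (1 - θ) * b = b := by ring
    rw [h7] at h6
    exact h6.symm

private theorem C2_iter {M θ m b : ℕ} (h : θ * b + m ≡ b [MOD M]) (i : ℕ) :
    θ ^ i * b + m * C2_S θ i ≡ b [MOD M] := by
  induction i with
  | zero =>
    simp only [pow_zero, one_mul, C2_S, mul_zero, add_zero]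
    exact Nat.ModEq.refl b
  | succ i ih =>
    have h1 : θ ^ (i + 1) * b + m * C2_S θ (i + 1) = θ * (θ ^ i * b + m * C2_S θ i) + m := by
      rw [C2_S]
      ring
    rw [h1]
    exact ((ih.mul_left θ).add_right m).trans h

/-- WG-C2: conjugation by `h` with `h g h⁻¹ = g^a`, `h γ h⁻¹ ∈ γ ⟨g⟩`, changes `c` into `a c`. -/
theorem type_conj (hN : ¬ p ∣ N) (hζ : IsPrimitiveRoot ζ N) (hA : Adm p N ζ γ g s θ κ)
    {c : Par p s k} (hc : ∀ x ∈ c.support, (x.2 : ℕ) ≡ κ [MOD N]) {φ : Torsor k G}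
    (h : IsType N (ζ : k) γ g c φ) {x : G} {a : ℕ} (hx : x * g * x⁻¹ = g ^ a)
    (ha : a ^ p ≡ a [MOD p ^ s]) (hγ : γ⁻¹ * (x * γ * x⁻¹) ∈ Subgroup.zpowers g) :
    IsType N (ζ : k) γ g (scl (a : k) c) (conjT x φ) := by
  have hp : p.Prime := Fact.out
  obtain ⟨T, z, hr, ht⟩ := (isType_iff hA c φ).1 h
  rw [isType_iff hA]
  -- the exponent `m`
  have hfin : IsOfFinOrder g := by
    rw [← orderOf_pos_iff, hA.hg]
    exact pow_pos hp.pos s
  obtain ⟨m, hm⟩ := (hfin.mem_powers_iff_mem_zpowers).2 hγ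
  have hm1 : x * γ * x⁻¹ = γ * g ^ m := by
    have h1 : g ^ m = γ⁻¹ * (x * γ * x⁻¹) := hm
    rw [h1, mul_inv_cancel_left]
  have hdvd : p ^ s ∣ m * C2_S θ N := by
    have h1 : (x * γ * x⁻¹) ^ N = 1 := by
      rw [conj_pow, hA.hγ, mul_one, mul_inv_cancel]
    rw [hm1, C2_pow hA.hθ, hA.hγ, one_mul] at h1
    rw [← hA.hg]
    exact orderOf_dvd_of_pow_eq_one h1
  obtain ⟨b, hb⟩ := C2_exists_b hp hN hdvd
  refine ⟨T, ((a : ℕ) : WittVector p (Ks k)) * z + ((b : ℕ) : WittVector p (Ks k)), ?_, ?_⟩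
  · obtain ⟨h1, h2⟩ := root_scl hr ha
    refine ⟨h1, fun i hi => ?_⟩
    have h3 : WittVector.frobenius (((a : ℕ) : WittVector p (Ks k)) * z +
          ((b : ℕ) : WittVector p (Ks k))) -
        (((a : ℕ) : WittVector p (Ks k)) * z + ((b : ℕ) : WittVector p (Ks k))) =
        WittVector.frobenius (((a : ℕ) : WittVector p (Ks k)) * z) -
          ((a : ℕ) : WittVector p (Ks k)) * z := by
      rw [map_add, map_natCast]
      ring
    rw [h3]
    exact h2 i hi
  · intro σ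
    obtain ⟨i, l, ⟨hf1, hf2⟩, hφ⟩ := ht σ
    refine ⟨i, m * C2_S θ i + a * l, ⟨hf1, ?_⟩, ?_⟩
    · have e0 : ∀ (w : WittVector p (Ks k)) (j : ℕ), σ (w.coeff j) =
          (WittVector.map (σ : Ks k →+* Ks k) w).coeff j := fun w j => rfl
      have e1 : ∀ j < s, (WittVector.map (σ : Ks k →+* Ks k) z).coeff j =
          (((θ ^ i : ℕ) : WittVector p (Ks k)) * z + l).coeff j := hf2
      have e2 := coeff_add_congr (C2_trunc (a := ((a : ℕ) : WittVector p (Ks k)))
        (fun _ _ => rfl) e1) (b := ((b : ℕ) : WittVector p (Ks k))) (fun _ _ => rfl)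
      have e3 : ((a : ℕ) : WittVector p (Ks k)) * (((θ ^ i : ℕ) : WittVector p (Ks k)) * z + l) +
          ((b : ℕ) : WittVector p (Ks k)) =
            ((θ ^ i : ℕ) : WittVector p (Ks k)) * (((a : ℕ) : WittVector p (Ks k)) * z) +
            ((a * l + b : ℕ) : WittVector p (Ks k)) := by
        push_cast
        ring
      have e4 : ((θ ^ i : ℕ) : WittVector p (Ks k)) *
          (((a : ℕ) : WittVector p (Ks k)) * z + ((b : ℕ) : WittVector p (Ks k))) +
            ((m * C2_S θ i + a * l : ℕ) : WittVector p (Ks k)) =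
          ((θ ^ i : ℕ) : WittVector p (Ks k)) * (((a : ℕ) : WittVector p (Ks k)) * z) +
            ((θ ^ i * b + m * C2_S θ i + a * l : ℕ) : WittVector p (Ks k)) := by
        push_cast
        ring
      have e5 : a * l + b ≡ θ ^ i * b + m * C2_S θ i + a * l [MOD p ^ s] := by
        rw [add_comm (a * l) b]
        exact ((C2_iter hb i).add_right (a * l)).symm
      intro j hj
      rw [e0, map_add, map_mul, map_natCast, map_natCast, e2 j hj, e3, e4]
      exact coeff_add_congr (fun _ _ => rfl) (coeff_nat_congr e5) j hj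
    · rw [conjT_hom, hφ]
      have h1 : x * (γ ^ i * g ^ l) * x⁻¹ = (x * γ * x⁻¹) ^ i * (x * g * x⁻¹) ^ l := by
        rw [conj_pow, conj_pow]
        group
      rw [h1, hm1, hx, C2_pow hA.hθ, ← pow_mul, mul_assoc, ← pow_add]

end

end Pool.Agent.WG
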