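import Pool.Agent.WG.Cls

/-! # The wild part and the parameter of a torsor (piece WG-C3) -/

namespace Pool.Agent.WG

open Polynomial Pool.Agent.WD Pool.Agent.WC

noncomputable section

universe u v

variable {p : ℕ} [Fact p.Prime] {k : Type u} [Field k] [IsAlgClosed k] [CharP k p] {s : ℕ}
  {G : Type v} [Group G] {N κ θ : ℕ} [NeZero N] {ζ : kˣ} {γ g : G}

omit [IsAlgClosed k] [NeZero N] in
private theorem C3_prim (hζ : IsPrimitiveRoot ζ N) : IsPrimitiveRoot (cK k (ζ : k)) N :=
  (IsPrimitiveRoot.coe_units_iff.2 hζ).map_of_injective (cK k).injective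

omit [IsAlgClosed k] [NeZero N] in
private theorem C3_ne {T : Ks k} (hN : N ≠ 0) (hT : T ^ N = tK k) : T ≠ 0 := by
  rintro rfl
  rw [zero_pow hN] at hT
  exact tK_ne_zero hT.symm

omit [IsAlgClosed k] in
private theorem C3_root (hζ : IsPrimitiveRoot ζ N) {T T' : Ks k} (hT : T ^ N = tK k)
    (hT' : T' ^ N = tK k) : ∃ a : ℕ, T' = cK k (ζ : k) ^ a * T := by
  have h0 : T ≠ 0 := C3_ne (NeZero.ne N) hT
  have h1 : (T' / T) ^ N = 1 := by
    rw [div_pow, hT, hT', div_self tK_ne_zero]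
  obtain ⟨a, _, ha⟩ := (C3_prim hζ).eq_pow_of_pow_eq_one h1
  refine ⟨a, ?_⟩
  rw [ha, div_mul_cancel₀ _ h0]

omit [IsAlgClosed k] in
private theorem C3_scal (hζ : IsPrimitiveRoot ζ N) {T T' : Ks k} (hT : T ^ N = tK k)
    (hT' : T' ^ N = tK k) (σ : GalK k) {x : k} (h : σ T = cK k x * T) :
    σ T' = cK k x * T' := by
  obtain ⟨a, rfl⟩ := C3_root hζ hT hT'
  rw [map_mul, map_pow, sigma_cK, h]
  ring

omit [IsAlgClosed k] [NeZero N] in
private theorem C3_mod (hζ : IsPrimitiveRoot ζ N) {T : Ks k} (h0 : T ≠ 0) {i j : ℕ}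
    (h : cK k (ζ : k) ^ i * T = cK k (ζ : k) ^ j * T) : i ≡ j [MOD N] := by
  have h1 := mul_right_cancel₀ h0 h
  rw [← map_pow, ← map_pow] at h1
  have h2 : (ζ : k) ^ i = (ζ : k) ^ j := (cK k).injective h1
  have h3 : ζ ^ i = ζ ^ j := by
    apply Units.ext
    rw [Units.val_pow_eq_pow_val, Units.val_pow_eq_pow_val, h2]
  rw [hζ.eq_orderOf]
  exact pow_eq_pow_iff_modEq.1 h3

omit [NeZero N] in
private theorem C3_powN {γ : G} (hγ : γ ^ N = 1) {i j : ℕ} (h : i ≡ j [MOD N]) :
    γ ^ i = γ ^ j := by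
  apply pow_eq_pow_iff_modEq.2
  exact h.of_dvd (orderOf_dvd_of_pow_eq_one hγ)

/-- WG-C3: the wild part of a torsor of the type `(γ, g, c)` -/
theorem wild_of_type (hN : ¬ p ∣ N) (hζ : IsPrimitiveRoot ζ N) (hA : Adm p N ζ γ g s θ κ)
    {c : Par p s k} (hv : Val N κ c) {φ : Torsor k G} (h : IsType N (ζ : k) γ g c φ) {T : Ks k}
    (hT : T ^ N = tK k) : Wild φ T = Subgroup.zpowers g ∧
      ∀ σ : GalK k, σ T = cK k (ζ : k) * T → γ⁻¹ * φ.hom σ ∈ Subgroup.zpowers g := by
  obtain ⟨T₀, z, hR, hφ⟩ := (isType_iff hA c φ).1 h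
  have hT₀ : T₀ ^ N = tK k := hR.1
  have h0 : T₀ ≠ 0 := C3_ne (NeZero.ne N) hT₀
  constructor
  · ext x
    rw [mem_Wild]
    constructor
    · rintro ⟨σ, hσ, rfl⟩
      obtain ⟨i, l, hF, hφσ⟩ := hφ σ
      have h1 : σ T₀ = cK k (1 : k) * T₀ := by
        apply C3_scal hζ hT hT₀ σ
        rw [map_one, one_mul]
        exact hσ
      rw [map_one, one_mul] at h1
      have h2 : cK k (ζ : k) ^ i * T₀ = cK k (ζ : k) ^ 0 * T₀ := by
        rw [← hF.1, h1, pow_zero, one_mul]
      have h3 := C3_powN hA.hγ (C3_mod hζ h0 h2)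
      rw [hφσ, h3, pow_zero, one_mul]
      exact Subgroup.npow_mem_zpowers g l
    · intro hx
      have hfin : IsOfFinOrder g := by
        rw [← orderOf_pos_iff, hA.hg]
        exact pow_pos (Fact.out : p.Prime).pos _
      rw [← hfin.mem_powers_iff_mem_zpowers] at hx
      obtain ⟨l, rfl⟩ := hx
      obtain ⟨σ, hσ⟩ := form_surj hN hζ hA hv hR 0 l
      obtain ⟨i', l', hF, hφσ⟩ := hφ σ
      obtain ⟨h1, h2⟩ := form_unique hζ hA.hθN h0 hσ hF
      refine ⟨σ, ?_, ?_⟩
      · have h3 : σ T₀ = cK k (1 : k) * T₀ := by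
          rw [hσ.1, map_one, pow_zero]
        have h4 := C3_scal hζ hT₀ hT σ h3
        rwa [map_one, one_mul] at h4
      · rw [hφσ, ← C3_powN hA.hγ h1, pow_zero, one_mul]
        apply pow_eq_pow_iff_modEq.2
        rw [hA.hg]
        exact h2.symm
  · intro σ hσ
    obtain ⟨i, l, hF, hφσ⟩ := hφ σ
    have h1 : σ T₀ = cK k (ζ : k) * T₀ := C3_scal hζ hT hT₀ σ hσ
    have h2 : cK k (ζ : k) ^ i * T₀ = cK k (ζ : k) ^ 1 * T₀ := by
      rw [← hF.1, h1, pow_one]
    have h3 := C3_powN hA.hγ (C3_mod hζ h0 h2)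
    rw [hφσ, h3, pow_one, inv_mul_cancel_left]
    exact Subgroup.npow_mem_zpowers g l

private theorem C3_tr {A : Type*} [CommRing A] {a b : WittVector p A} :
    (∀ i < s, a.coeff i = b.coeff i) ↔ WittVector.truncate s a = WittVector.truncate s b := by
  constructor
  · intro h
    refine TruncatedWittVector.ext fun i => ?_
    rw [WittVector.coeff_truncate, WittVector.coeff_truncate]
    exact h i i.2
  · intro h i hi
    have h1 := congrArg (TruncatedWittVector.coeff (⟨i, hi⟩ : Fin s)) h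
    rwa [WittVector.coeff_truncate, WittVector.coeff_truncate] at h1

private theorem C3_nat {A : Type*} [Field A] [CharP A p] {a b : ℕ} (h : a ≡ b [MOD p ^ s]) :
    WittVector.truncate s ((a : ℕ) : WittVector p A) =
      WittVector.truncate s ((b : ℕ) : WittVector p A) :=
  C3_tr.1 (coeff_nat_congr h)

omit [IsAlgClosed k] in
/-- the action on the differences of two roots, for automorphisms which fix `T` -/
private theorem C3_form {T : Ks k} {z : WittVector p (Ks k)} {σ : GalK k} {i l : ℕ}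
    (hθ : θ ^ i ≡ 1 [MOD p ^ s]) (h : Form ζ θ s T z σ i l) :
    WittVector.truncate s (WittVector.map (σ : Ks k →+* Ks k) z) =
      WittVector.truncate s z + WittVector.truncate s ((l : ℕ) : WittVector p (Ks k)) := by
  have h1 : WittVector.truncate s (WittVector.map (σ : Ks k →+* Ks k) z) =
      WittVector.truncate s (((θ ^ i : ℕ) : WittVector p (Ks k)) * z + (l : WittVector p (Ks k))) := by
    apply C3_tr.1
    intro j hj
    rw [WittVector.map_coeff]
    exact h.2 j hj
  rw [h1, map_add, map_mul, C3_nat hθ, Nat.cast_one, map_one, one_mul]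

omit [IsAlgClosed k] [Fact p.Prime] [CharP k p] in
private theorem C3_lift {ι : LaurentSeries k →+* Ks k} {x : WittVector p (Ks k)}
    (h : ∀ j < s, x.coeff j ∈ Set.range ι) : ∃ y : WittVector p (LaurentSeries k),
      ∀ j < s, ι (y.coeff j) = x.coeff j := by
  classical
  refine ⟨WittVector.mk p fun j => if hj : j < s then (h j hj).choose else 0, fun j hj => ?_⟩
  rw [WittVector.coeff_mk, dif_pos hj]
  exact (h j hj).choose_spec

/-- WG-C4: if `φ` has the types `(γ, g, c)` and `(γ, g, c')`, then `c' = θ^i c` -/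
theorem param_unique (hN : ¬ p ∣ N) (hζ : IsPrimitiveRoot ζ N) (hA : Adm p N ζ γ g s θ κ)
    {c c' : Par p s k} (hv : Val N κ c) (hv' : Val N κ c') {φ : Torsor k G}
    (h : IsType N (ζ : k) γ g c φ) (h' : IsType N (ζ : k) γ g c' φ) :
    ∃ i : ℕ, c' = scl ((θ : k) ^ i) c := by
  obtain ⟨T, z, hR, hφ⟩ := (isType_iff hA c φ).1 h
  obtain ⟨T', z', hR', hφ'⟩ := (isType_iff hA c' φ).1 h'
  have hT : T ^ N = tK k := hR.1
  have h0 : T ≠ 0 := C3_ne (NeZero.ne N) hT
  have h0' : T' ≠ 0 := C3_ne (NeZero.ne N) hR'.1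
  have hζN : ζ ^ N = 1 := hζ.pow_eq_one
  obtain ⟨a, ha⟩ := C3_root hζ hT hR'.1
  have hNk : (N : k) ≠ 0 := by
    intro hN0
    exact hN ((CharP.cast_eq_zero_iff k p N).1 hN0)
  obtain ⟨ι, hι1, hι2⟩ := exists_iota N hNk ζ hζ T hT
  -- the difference is defined over `K(T)`
  have hfix : ∀ σ : GalK k, σ T = T → ∀ j < s, σ ((z' - z).coeff j) = (z' - z).coeff j := by
    intro σ hσ
    obtain ⟨i, l, hF, hσ1⟩ := hφ σ
    obtain ⟨i', l', hF', hσ2⟩ := hφ' σ
    have hσ' : σ T' = T' := by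
      have h1 : σ T = cK k (1 : k) * T := by rw [map_one, one_mul]; exact hσ
      have h2 := C3_scal hζ hT hR'.1 σ h1
      rwa [map_one, one_mul] at h2
    have hi : i ≡ 0 [MOD N] := by
      apply C3_mod hζ h0
      rw [← hF.1, hσ, pow_zero, one_mul]
    have hi' : i' ≡ 0 [MOD N] := by
      apply C3_mod hζ h0'
      rw [← hF'.1, hσ', pow_zero, one_mul]
    have hpow : ∀ i : ℕ, i ≡ 0 [MOD N] → θ ^ i ≡ 1 [MOD p ^ s] := by
      intro i hi
      obtain ⟨m, rfl⟩ := (Nat.modEq_zero_iff_dvd).1 hi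
      have h1 := hA.hθN.pow m
      rwa [one_pow, ← pow_mul] at h1
    have hl : l ≡ l' [MOD p ^ s] := by
      rw [← hA.hg]
      apply pow_eq_pow_iff_modEq.1
      rw [hσ1, C3_powN hA.hγ hi, C3_powN hA.hγ hi'] at hσ2
      simpa using hσ2
    have h3 : WittVector.truncate s (WittVector.map (σ : Ks k →+* Ks k) (z' - z)) =
        WittVector.truncate s (z' - z) := by
      rw [map_sub, map_sub, map_sub, C3_form (hpow i hi) hF, C3_form (hpow i' hi') hF', C3_nat hl]
      ring
    intro j hj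
    have h4 := C3_tr.2 h3 j hj
    rwa [WittVector.map_coeff] at h4
  obtain ⟨y, hy⟩ := C3_lift (s := s) (ι := ι) (x := z' - z) fun j hj =>
    mem_range_iota hι1 hι2 _ fun σ hσ => hfix σ hσ j hj
  -- the equation over `k((T))`
  have hy1 : WittVector.truncate s (WittVector.map ι y) = WittVector.truncate s (z' - z) := by
    apply C3_tr.1
    intro j hj
    rw [WittVector.map_coeff]
    exact hy j hj
  have hy2 : WittVector.truncate s (WittVector.map ι (WittVector.frobenius y)) =
      WittVector.truncate s (WittVector.frobenius (z' - z)) := by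
    apply C3_tr.1
    intro j hj
    rw [WittVector.map_coeff, WittVector.coeff_frobenius_charP, WittVector.coeff_frobenius_charP,
      map_pow, hy j hj]
  have hf : WittVector.truncate s (WittVector.frobenius z - z) =
      WittVector.truncate s (WittVector.map ι (wfK c)) := by
    apply C3_tr.1
    intro j hj
    rw [WittVector.map_coeff, ← fT_coeff hι1 hι2, hR.2 j hj]
  have hf' : WittVector.truncate s (WittVector.frobenius z' - z') =
      WittVector.truncate s (WittVector.map ι (wfK (scl ((θ : k) ^ a) c'))) := by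
    apply C3_tr.1
    intro j hj
    rw [WittVector.map_coeff, ← fT_coeff hι1 hι2, hR'.2 j hj, ha,
      fT_rot hv'.1 hζN hA.hθk]
  have hmain : ∀ i < s, (wfK (scl ((θ : k) ^ a) c') - wfK c).coeff i =
      (WittVector.frobenius y - y).coeff i := by
    intro i hi
    apply ι.injective
    rw [← WittVector.map_coeff, ← WittVector.map_coeff]
    have h5 : WittVector.truncate s (WittVector.map ι (wfK (scl ((θ : k) ^ a) c') - wfK c)) =
        WittVector.truncate s (WittVector.map ι (WittVector.frobenius y - y)) := by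
      rw [map_sub, map_sub, map_sub, map_sub, hy1, hy2, ← hf, ← hf']
      simp only [map_sub]
      ring
    exact C3_tr.2 h5 i hi
  have hc := (reduced_unique _ _ y hmain).1
  refine ⟨a * (N - 1), ?_⟩
  rw [← hc]
  have hθN : (θ : k) ^ N = 1 := hA.hθk' hζN
  have h6 : (θ : k) ^ (a * (N - 1)) * (θ : k) ^ a = 1 := by
    rw [← pow_add]
    have : a * (N - 1) + a = N * a := by
      have hN1 : 1 ≤ N := Nat.one_le_iff_ne_zero.2 (NeZero.ne N)
      obtain ⟨M, rfl⟩ := Nat.exists_eq_add_of_le hN1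
      simp only [Nat.add_sub_cancel_left]
      ring
    rw [this, pow_mul, hθN, one_pow]
  ext x
  unfold scl
  rw [Finsupp.mapRange_apply, Finsupp.mapRange_apply, ← mul_assoc, h6, one_mul]

end

end Pool.Agent.WG
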