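import Pool.Agent.WG.Cls

/-! # Hilbert 90 for Witt vectors (piece WG-C5) -/

namespace Pool.Agent.WG

open Polynomial Pool.Agent.WD Pool.Agent.WC

noncomputable section

universe u v

/-- additive Hilbert 90 for continuous cocycles on the automorphisms which fix `T` -/
private theorem c5_h90 {K Ω : Type u} [Field K] [Field Ω] [Algebra K Ω] [IsGalois K Ω] (T : Ω)
    (a : (Ω ≃ₐ[K] Ω) → Ω)
    (ha : ∀ σ σ', σ T = T → σ' T = T → a (σ * σ') = a σ + σ (a σ'))
    (hc : ∃ S : Finset Ω, ∀ σ : Ω ≃ₐ[K] Ω, σ T = T → (∀ x ∈ S, σ x = x) → a σ = 0) :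
    ∃ b, ∀ σ, σ T = T → a σ = b - σ b := by
  classical
  obtain ⟨S, hS⟩ := hc
  let E : FiniteGaloisIntermediateField K Ω :=
    FiniteGaloisIntermediateField.adjoin K ((insert T S : Finset Ω) : Set Ω)
  have hsub : ((insert T S : Finset Ω) : Set Ω) ⊆ (E.toIntermediateField : Set Ω) :=
    FiniteGaloisIntermediateField.subset_adjoin K _
  have hTE : T ∈ E.toIntermediateField := hsub (by simp)
  have hSE : ∀ x ∈ S, x ∈ E.toIntermediateField := fun x hx => hsub (by simp [hx])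
  let L : IntermediateField K Ω := E.toIntermediateField
  let t : L := ⟨T, hTE⟩
  let r : (Ω ≃ₐ[K] Ω) →* (L ≃ₐ[K] L) := AlgEquiv.restrictNormalHom L
  have hr : ∀ (σ : Ω ≃ₐ[K] Ω) (x : L), ((r σ x : L) : Ω) = σ x := fun σ x =>
    AlgEquiv.restrictNormalHom_apply L σ x
  have hrs : Function.Surjective r := AlgEquiv.restrictNormalHom_surjective Ω
  obtain ⟨l, hl⟩ := hrs.hasRightInverse
  have hlT : ∀ g : L ≃ₐ[K] L, g t = t → l g T = T := by
    intro g hg
    have h1 := hr (l g) t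
    rw [hl g, hg] at h1
    exact h1.symm
  -- the value depends on the restriction only
  have hval : ∀ σ σ' : Ω ≃ₐ[K] Ω, σ T = T → σ' T = T → r σ = r σ' → a σ = a σ' := by
    intro σ σ' h1 h2 h3
    have h4 : ∀ x : L, (σ'⁻¹ * σ) (x : Ω) = x := by
      intro x
      have h5 : σ x = σ' x := by rw [← hr, ← hr, h3]
      rw [AlgEquiv.mul_apply, h5, ← AlgEquiv.mul_apply, inv_mul_cancel]
      rfl
    have h5 : a (σ'⁻¹ * σ) = 0 := hS _ (h4 t) fun x hx => h4 ⟨x, hSE x hx⟩
    have h6 := ha σ' (σ'⁻¹ * σ) h2 (h4 t)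
    rw [mul_inv_cancel_left, h5, map_zero, add_zero] at h6
    exact h6
  let Q : Finset (L ≃ₐ[K] L) := Finset.univ.filter fun g => g t = t
  have hQ : ∀ g, g ∈ Q ↔ g t = t := fun g => by simp [Q]
  -- an element with nonzero trace
  obtain ⟨x, hx⟩ : ∃ x : L, ∑ g ∈ Q, g x ≠ 0 := by
    by_contra hcon
    push Not at hcon
    have hli := (linearIndependent_monoidHom L L).comp
      (fun g : L ≃ₐ[K] L => ((g : L →+* L) : L →* L)) (by
        intro g g' h
        ext y
        have := DFunLike.congr_fun h y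
        exact congrArg _ this)
    rw [linearIndependent_iff'] at hli
    have h1 := hli Q (fun _ => 1) (by
      funext y
      rw [Finset.sum_apply]
      simpa using hcon y) 1 ((hQ 1).2 rfl)
    exact one_ne_zero h1
  set d : Ω := ((∑ g ∈ Q, g x : L) : Ω) with hd
  have hd0 : d ≠ 0 := by
    intro h
    exact hx (Subtype.ext h)
  have hdsum : d = ∑ g ∈ Q, ((g x : L) : Ω) := by
    rw [hd]
    push_cast
    rfl
  have hreix : ∀ (σ : Ω ≃ₐ[K] Ω), σ T = T → ∀ F : (L ≃ₐ[K] L) → Ω,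
      ∑ g ∈ Q, F (r σ * g) = ∑ g ∈ Q, F g := by
    intro σ hσ F
    have hrt : r σ t = t := Subtype.ext (by rw [hr]; exact hσ)
    refine Finset.sum_equiv (Equiv.mulLeft (r σ)) (fun g => ?_) (fun g _ => rfl)
    rw [hQ, hQ, Equiv.coe_mulLeft, AlgEquiv.mul_apply]
    constructor
    · intro h
      rw [h, hrt]
    · intro h
      apply (r σ).injective
      rw [h, hrt]
  have hσd : ∀ σ : Ω ≃ₐ[K] Ω, σ T = T → σ d = d := by
    intro σ hσ
    conv_lhs => rw [hdsum, map_sum]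
    rw [hdsum, ← hreix σ hσ (fun g => ((g x : L) : Ω))]
    refine Finset.sum_congr rfl fun g _ => ?_
    rw [AlgEquiv.mul_apply, hr]
  let b' : Ω := ∑ g ∈ Q, a (l g) * ((g x : L) : Ω)
  have hb' : ∀ σ : Ω ≃ₐ[K] Ω, σ T = T → σ b' = b' - a σ * d := by
    intro σ hσ
    change σ (∑ g ∈ Q, a (l g) * ((g x : L) : Ω)) = (∑ g ∈ Q, a (l g) * ((g x : L) : Ω)) - _
    conv_rhs => rw [← hreix σ hσ (fun g => a (l g) * ((g x : L) : Ω))]
    have h1 : a σ * d = ∑ g ∈ Q, a σ * (((r σ * g) x : L) : Ω) := by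
      rw [hreix σ hσ (fun g => a σ * ((g x : L) : Ω)), ← Finset.mul_sum, ← hdsum]
    rw [h1, ← Finset.sum_sub_distrib, map_sum]
    refine Finset.sum_congr rfl fun g hg => ?_
    have hgt := (hQ g).1 hg
    have h2 : a (l (r σ * g)) = a σ + σ (a (l g)) := by
      rw [← ha σ (l g) hσ (hlT g hgt)]
      refine hval _ _ (hlT _ ?_) ?_ ?_
      · rw [AlgEquiv.mul_apply, hgt]
        exact Subtype.ext (by rw [hr]; exact hσ)
      · rw [AlgEquiv.mul_apply, hlT g hgt, hσ]
      · rw [hl, map_mul, hl]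
    rw [h2, map_mul, AlgEquiv.mul_apply, hr]
    ring
  refine ⟨b' / d, fun σ hσ => ?_⟩
  rw [map_div₀, hb' σ hσ, hσd σ hσ]
  field_simp
  ring

private theorem c5_map_iterate {p : ℕ} [Fact p.Prime] {R : Type u} [CommRing R] (f : R →+* R)
    (s : ℕ) (x : R) : WittVector.map f ((WittVector.verschiebung (p := p))^[s]
      (WittVector.teichmuller p x)) =
      (WittVector.verschiebung (p := p))^[s] (WittVector.teichmuller p (f x)) := by
  induction s with
  | zero => exact WittVector.map_teichmuller p f x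
  | succ s ih =>
    rw [Function.iterate_succ_apply', Function.iterate_succ_apply', WittVector.map_verschiebung, ih]

/-- the step of the induction, for an arbitrary Galois extension -/
private theorem c5_main {p : ℕ} [Fact p.Prime] {K Ω : Type u} [Field K] [Field Ω] [Algebra K Ω]
    [IsGalois K Ω] [CharP Ω p] (T : Ω) (n : (Ω ≃ₐ[K] Ω) → ℕ) : ∀ (s : ℕ)
    (_ : ∀ σ σ' : Ω ≃ₐ[K] Ω, σ T = T → σ' T = T → n (σ * σ') ≡ n σ + n σ' [MOD p ^ s])
    (_ : ∃ S : Finset Ω, ∀ σ : Ω ≃ₐ[K] Ω, σ T = T → (∀ x ∈ S, σ x = x) →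
      n σ ≡ 0 [MOD p ^ s]),
    ∃ z : WittVector p Ω, ∀ σ : Ω ≃ₐ[K] Ω, σ T = T → ∀ j < s, σ (z.coeff j) =
      (z + (n σ : ℕ)).coeff j := by
  classical
  intro s
  induction s with
  | zero =>
    intro _ _
    exact ⟨0, fun _ _ j hj => absurd hj (Nat.not_lt_zero j)⟩
  | succ s ih =>
    intro hn hcont
    have hmod : ∀ {a b : ℕ}, a ≡ b [MOD p ^ (s + 1)] → a ≡ b [MOD p ^ s] := fun h =>
      h.of_dvd (pow_dvd_pow p (Nat.le_succ s))
    obtain ⟨z, hz⟩ := ih (fun σ σ' h h' => hmod (hn σ σ' h h')) (by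
      obtain ⟨S, hS⟩ := hcont
      exact ⟨S, fun σ h h' => hmod (hS σ h h')⟩)
    let V : Ω → WittVector p Ω := fun x =>
      (WittVector.verschiebung (p := p))^[s] (WittVector.teichmuller p x)
    let m : (Ω ≃ₐ[K] Ω) → (WittVector p Ω →+* WittVector p Ω) := fun σ =>
      WittVector.map (σ : Ω →+* Ω)
    have hm : ∀ σ (x : WittVector p Ω) j, (m σ x).coeff j = σ (x.coeff j) := fun σ x j =>
      WittVector.map_coeff _ _ _
    have hmV : ∀ σ x, m σ (V x) = V (σ x) := fun σ x => c5_map_iterate _ s x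
    let a : (Ω ≃ₐ[K] Ω) → Ω := fun σ => σ (z.coeff s) - (z + (n σ : ℕ)).coeff s
    have hV : ∀ (w : WittVector p Ω) (x : Ω), (∀ i < s, (w + V x).coeff i = w.coeff i) ∧
        (w + V x).coeff s = w.coeff s + x := fun w x => coeff_add_iterate w s x
    -- the first coordinates of the image of `z`
    have h1 : ∀ σ, σ T = T → ∀ j < s + 1, (m σ z).coeff j =
        (z + (n σ : ℕ) + V (a σ)).coeff j := by
      intro σ hσ j hj
      rw [hm]
      rcases Nat.lt_succ_iff_lt_or_eq.1 hj with hj | rfl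
      · rw [(hV _ _).1 j hj, hz σ hσ j hj]
      · rw [(hV _ _).2]
        change _ = _ + (σ (z.coeff j) - (z + (n σ : ℕ)).coeff j)
        ring
    have hcoc : ∀ σ σ', σ T = T → σ' T = T → a (σ * σ') = a σ + σ (a σ') := by
      intro σ σ' hσ hσ'
      have h2 : ∀ j < s + 1, (m (σ * σ') z).coeff j =
          (z + (n σ : ℕ) + V (a σ) + (n σ' : ℕ) + V (σ (a σ'))).coeff j := by
        intro j hj
        have h3 : (m (σ * σ') z).coeff j = (m σ (m σ' z)).coeff j := by
          rw [hm, hm, hm, AlgEquiv.mul_apply]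
        have h4 : (m σ (m σ' z)).coeff j = (m σ (z + (n σ' : ℕ) + V (a σ'))).coeff j := by
          rw [hm σ (m σ' z), hm σ (z + (n σ' : ℕ) + V (a σ')), h1 σ' hσ' j hj]
        rw [h3, h4, map_add, map_add, hmV, map_natCast]
        refine coeff_add_congr (n := s + 1) (fun i hi => ?_) (fun i _ => rfl) j hj
        exact coeff_add_congr (n := s + 1) (h1 σ hσ) (fun i _ => rfl) i hi
      have h3 := h2 s (Nat.lt_succ_self s)
      have e : z + (n σ : ℕ) + V (a σ) + (n σ' : ℕ) + V (σ (a σ')) =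
          z + ((n σ + n σ' : ℕ) : WittVector p Ω) + V (a σ) + V (σ (a σ')) := by
        push_cast
        ring
      have hT2 : (σ * σ') T = T := by rw [AlgEquiv.mul_apply, hσ', hσ]
      rw [h1 (σ * σ') hT2 s (Nat.lt_succ_self s), e, (hV _ _).2, (hV _ _).2, (hV _ _).2] at h3
      have h5 : (z + ((n (σ * σ') : ℕ) : WittVector p Ω)).coeff s =
          (z + ((n σ + n σ' : ℕ) : WittVector p Ω)).coeff s :=
        coeff_add_congr (n := s + 1) (fun i _ => rfl) (coeff_nat_congr (hn σ σ' hσ hσ')) s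
          (Nat.lt_succ_self s)
      rw [h5, add_assoc] at h3
      exact add_left_cancel h3
    obtain ⟨b, hb⟩ := c5_h90 T a hcoc (by
      obtain ⟨S, hS⟩ := hcont
      refine ⟨insert (z.coeff s) S, fun σ hσ h => ?_⟩
      have h2 := hS σ hσ fun x hx => h x (Finset.mem_insert_of_mem hx)
      have h3 : (z + ((n σ : ℕ) : WittVector p Ω)).coeff s = (z + ((0 : ℕ) : WittVector p Ω)).coeff s :=
        coeff_add_congr (n := s + 1) (fun i _ => rfl) (coeff_nat_congr h2) s (Nat.lt_succ_self s)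
      change σ (z.coeff s) - (z + (n σ : ℕ)).coeff s = 0
      rw [h3, h _ (Finset.mem_insert_self _ _), Nat.cast_zero, add_zero, sub_self])
    refine ⟨z + V b, fun σ hσ j hj => ?_⟩
    have h2 : σ ((z + V b).coeff j) = (z + (n σ : ℕ) + V (a σ) + V (σ b)).coeff j := by
      rw [← hm, map_add, hmV]
      exact coeff_add_congr (n := s + 1) (h1 σ hσ) (fun i _ => rfl) j hj
    have e : z + V b + (n σ : ℕ) = z + (n σ : ℕ) + V b := by ring
    rw [h2, e]
    rcases Nat.lt_succ_iff_lt_or_eq.1 hj with hj | rfl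
    · rw [(hV _ _).1 j hj, (hV _ _).1 j hj, (hV _ _).1 j hj]
    · rw [(hV _ _).2, (hV _ _).2, (hV _ _).2, hb σ hσ]
      ring

variable {p : ℕ} [Fact p.Prime] {k : Type u} [Field k] [IsAlgClosed k] [CharP k p] {s : ℕ}
  {G : Type v} [Group G] {N κ θ : ℕ} [NeZero N] {ζ : kˣ} {γ g : G}

/-- WG-C5: additive Hilbert 90 for Witt vectors. A map `n` from the automorphisms which fix `T`
to the integers modulo `p^s` which is additive, continuous, has the form `σ(z) - z`. -/
theorem exists_witt_of_hom {T : Ks k} (hN : ¬ p ∣ N) (hT : T ^ N = tK k) (s : ℕ)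
    (n : GalK k → ℕ)
    (hn : ∀ σ σ' : GalK k, σ T = T → σ' T = T → n (σ * σ') ≡ n σ + n σ' [MOD p ^ s])
    (hcont : ∃ S : Finset (Ks k), ∀ σ : GalK k, σ T = T → (∀ x ∈ S, σ x = x) →
      n σ ≡ 0 [MOD p ^ s]) :
    ∃ z : WittVector p (Ks k), ∀ σ : GalK k, σ T = T → ∀ j < s, σ (z.coeff j) =
      (z + (n σ : ℕ)).coeff j :=
  c5_main T n s hn hcont

end

end Pool.Agent.WG
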