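import Pool.Agent.WG.Cls
import Pool.Agent.WG.C5

/-! # Every torsor has a type (piece WG-C6) -/

namespace Pool.Agent.WG

open Polynomial Pool.Agent.WD Pool.Agent.WC

noncomputable section

universe u v

section gen

variable {p : ℕ} [Fact p.Prime] {A : Type*} [Field A] {B : Type*} [Field B] {s : ℕ}

/-- equality of the coordinates `< s` -/
private def C6E (s : ℕ) (x y : WittVector p A) : Prop :=
  WittVector.truncate s x = WittVector.truncate s y

private theorem C6E_iff {x y : WittVector p A} :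
    C6E s x y ↔ ∀ i < s, x.coeff i = y.coeff i := by
  constructor
  · intro h i hi
    have h1 := congrArg (TruncatedWittVector.coeff (⟨i, hi⟩ : Fin s)) h
    rwa [WittVector.coeff_truncate, WittVector.coeff_truncate] at h1
  · intro h
    refine TruncatedWittVector.ext fun i => ?_
    rw [WittVector.coeff_truncate, WittVector.coeff_truncate]
    exact h i i.2

private theorem C6E_refl (x : WittVector p A) : C6E s x x := rfl

private theorem C6E_of_eq {x y : WittVector p A} (h : x = y) : C6E s x y := by rw [h]; rfl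

private theorem C6E_symm {x y : WittVector p A} (h : C6E s x y) : C6E s y x := Eq.symm h

private theorem C6E_trans {x y z : WittVector p A} (h : C6E s x y) (h' : C6E s y z) :
    C6E s x z := Eq.trans h h'

private theorem C6E_add {x y x' y' : WittVector p A} (h : C6E s x y) (h' : C6E s x' y') :
    C6E s (x + x') (y + y') := by
  unfold C6E at *
  rw [map_add, map_add, h, h']

private theorem C6E_sub {x y x' y' : WittVector p A} (h : C6E s x y) (h' : C6E s x' y') :
    C6E s (x - x') (y - y') := by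
  unfold C6E at *
  rw [map_sub, map_sub, h, h']

private theorem C6E_mul {x y x' y' : WittVector p A} (h : C6E s x y) (h' : C6E s x' y') :
    C6E s (x * x') (y * y') := by
  unfold C6E at *
  rw [map_mul, map_mul, h, h']

private theorem C6E_map (f : A →+* B) {x y : WittVector p A} (h : C6E s x y) :
    C6E s (WittVector.map f x) (WittVector.map f y) := by
  rw [C6E_iff] at *
  intro i hi
  rw [WittVector.map_coeff, WittVector.map_coeff, h i hi]

private theorem C6E_of_map (f : A →+* B) {x y : WittVector p A}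
    (h : C6E s (WittVector.map f x) (WittVector.map f y)) : C6E s x y := by
  rw [C6E_iff] at *
  intro i hi
  have := h i hi
  rw [WittVector.map_coeff, WittVector.map_coeff] at this
  exact f.injective this

private theorem C6E_frob [CharP A p] {x y : WittVector p A} (h : C6E s x y) :
    C6E s (WittVector.frobenius x) (WittVector.frobenius y) := by
  rw [C6E_iff] at *
  intro i hi
  rw [WittVector.coeff_frobenius_charP, WittVector.coeff_frobenius_charP, h i hi]

private theorem C6_map_frob [CharP A p] [CharP B p] (f : A →+* B) (x : WittVector p A) :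
    WittVector.map f (WittVector.frobenius x) = WittVector.frobenius (WittVector.map f x) := by
  ext i
  rw [WittVector.map_coeff, WittVector.coeff_frobenius_charP, WittVector.coeff_frobenius_charP,
    WittVector.map_coeff, map_pow]

private theorem C6E_nat [CharP A p] {a b : ℕ} (h : a ≡ b [MOD p ^ s]) :
    C6E s ((a : ℕ) : WittVector p A) (b : ℕ) := C6E_iff.2 (coeff_nat_congr h)

private theorem C6E_nat_inv [CharP A p] {a b : ℕ}
    (h : C6E s ((a : ℕ) : WittVector p A) (b : ℕ)) : a ≡ b [MOD p ^ s] :=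
  nat_congr_of_coeff (C6E_iff.1 h)

/-- the residue class of a solution of `m + b = θ b` -/
private theorem C6_solve {m θ : ℕ} (h1 : ¬ p ∣ θ) (h2 : ¬ θ ≡ 1 [MOD p]) :
    ∃ b : ℕ, m + b ≡ θ * b [MOD p ^ s] := by
  have hp : p.Prime := Fact.out
  have hθ0 : 1 ≤ θ := by
    rcases Nat.eq_zero_or_pos θ with h | h
    · exact absurd (h ▸ dvd_zero p) h1
    · exact h
  obtain ⟨e, rfl⟩ := Nat.exists_eq_add_of_le hθ0
  have hcop : Nat.Coprime e (p ^ s) := by
    apply Nat.Coprime.pow_right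
    rw [Nat.coprime_comm, hp.coprime_iff_not_dvd]
    intro hd
    apply h2
    have : e ≡ 0 [MOD p] := (Nat.modEq_zero_iff_dvd).2 hd
    simpa using this.add_left 1
  have hNZ : NeZero (p ^ s) := ⟨pow_ne_zero _ hp.ne_zero⟩
  obtain ⟨b, hb⟩ : ∃ b : ZMod (p ^ s), (e : ZMod (p ^ s)) * b = m := by
    have hu := (ZMod.isUnit_iff_coprime e (p ^ s)).2 hcop
    obtain ⟨w, hw⟩ := hu
    exact ⟨(w⁻¹ : (ZMod (p ^ s))ˣ) * m, by rw [← hw, ← mul_assoc, Units.mul_inv, one_mul]⟩
  refine ⟨b.val, ?_⟩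
  rw [← ZMod.natCast_eq_natCast_iff]
  push_cast
  rw [ZMod.natCast_val, ZMod.cast_id', id, ← hb]
  ring

omit [Fact p.Prime] in
/-- a Teichmueller representative which is `1` modulo `p` is `1` -/
private theorem C6_one {θ : ℕ} (h : θ ^ p ≡ θ [MOD p ^ s]) (h1 : θ ≡ 1 [MOD p]) :
    θ ≡ 1 [MOD p ^ s] := by
  have hpow : ∀ j : ℕ, θ ^ (p ^ j) ≡ θ [MOD p ^ s] := by
    intro j
    induction j with
    | zero => rw [pow_zero, pow_one]
    | succ j ih =>
      rw [pow_succ, pow_mul]
      exact (ih.pow p).trans h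
  have h2 : ((p : ℤ)) ∣ (θ : ℤ) - 1 := by
    have := (Int.natCast_modEq_iff.2 h1).symm.dvd
    simpa using this
  have h3 := dvd_sub_pow_of_dvd_sub h2 s
  rw [one_pow] at h3
  have h4 : ((p ^ s : ℕ) : ℤ) ∣ (θ : ℤ) ^ p ^ s - 1 := by
    refine dvd_trans ?_ h3
    push_cast
    exact pow_dvd_pow _ (Nat.le_succ s)
  have h5 : θ ^ p ^ s ≡ 1 [MOD p ^ s] := by
    rw [← Int.natCast_modEq_iff]
    apply Int.ModEq.symm
    rw [Int.modEq_iff_dvd]
    push_cast at h4 ⊢
    exact h4
  exact (hpow s).symm.trans h5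

end gen

section gal

variable {p : ℕ} [Fact p.Prime] {k : Type u} [Field k]

/-- the action of the Galois group on the Witt vectors -/
private def C6M (σ : GalK k) : WittVector p (Ks k) →+* WittVector p (Ks k) :=
  WittVector.map (σ.toAlgHom.toRingHom)

private theorem C6M_coeff (σ : GalK k) (x : WittVector p (Ks k)) (i : ℕ) :
    (C6M σ x).coeff i = σ (x.coeff i) := WittVector.map_coeff _ _ _

private theorem C6M_mul (σ τ : GalK k) (x : WittVector p (Ks k)) :
    C6M (σ * τ) x = C6M σ (C6M τ x) := by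
  ext i
  rw [C6M_coeff, C6M_coeff, C6M_coeff, AlgEquiv.mul_apply]

private theorem C6E_M {s : ℕ} (σ : GalK k) {x y : WittVector p (Ks k)} (h : C6E s x y) :
    C6E s (C6M σ x) (C6M σ y) := C6E_map _ h

private theorem C6M_frob [CharP k p] (σ : GalK k) (x : WittVector p (Ks k)) :
    C6M σ (WittVector.frobenius x) = WittVector.frobenius (C6M σ x) := C6_map_frob _ x

variable {s N : ℕ} [NeZero N] {T : Ks k} {ι : LaurentSeries k →+* Ks k}

/-- a Witt vector fixed by the automorphisms fixing `T` comes from `k((T))` -/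
private theorem C6_desc (h : ∀ x, ι (subN k N x) = algebraMap (LaurentSeries k) (Ks k) x)
    (hT : ι (HahnSeries.single 1 1) = T) (x : WittVector p (Ks k))
    (hx : ∀ σ : GalK k, σ T = T → C6E s (C6M σ x) x) :
    ∃ y : WittVector p (LaurentSeries k), C6E s x (WittVector.map ι y) := by
  classical
  have h1 : ∀ i, ∃ a : LaurentSeries k, i < s → ι a = x.coeff i := by
    intro i
    by_cases hi : i < s
    · obtain ⟨a, ha⟩ := mem_range_iota h hT (x.coeff i) (fun σ hσ => by
        have := C6E_iff.1 (hx σ hσ) i hi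
        rwa [C6M_coeff] at this)
      exact ⟨a, fun _ => ha⟩
    · exact ⟨0, fun h' => absurd h' hi⟩
  choose a ha using h1
  refine ⟨WittVector.mk p a, C6E_iff.2 fun i hi => ?_⟩
  rw [WittVector.map_coeff]
  exact (ha i hi).symm

private theorem C6_sigma_iota (h : ∀ x, ι (subN k N x) = algebraMap (LaurentSeries k) (Ks k) x)
    (hT : ι (HahnSeries.single 1 1) = T) (σ : GalK k) (ζ : kˣ) (hσ : σ T = cK k (ζ : k) * T)
    (y : WittVector p (LaurentSeries k)) :
    C6M σ (WittVector.map ι y) = WittVector.map ι (WittVector.map (rot ζ) y) := by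
  ext i
  rw [C6M_coeff, WittVector.map_coeff, WittVector.map_coeff, WittVector.map_coeff,
    sigma_iota h hT σ ζ hσ]

private theorem C6_fix_iota (h : ∀ x, ι (subN k N x) = algebraMap (LaurentSeries k) (Ks k) x)
    (hT : ι (HahnSeries.single 1 1) = T) (σ : GalK k) (hσ : σ T = T)
    (y : WittVector p (LaurentSeries k)) :
    C6M σ (WittVector.map ι y) = WittVector.map ι y := by
  rw [C6_sigma_iota h hT σ 1 (by rw [Units.val_one, map_one, one_mul, hσ])]
  ext i
  rw [WittVector.map_coeff, WittVector.map_coeff, WittVector.map_coeff, rot_one]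

private theorem C6_pow_T {σ : GalK k} {a : k} (h : σ T = cK k a * T) (i : ℕ) :
    (σ ^ i) T = cK k a ^ i * T := by
  induction i with
  | zero => rw [pow_zero, pow_zero, one_mul]; rfl
  | succ i ih =>
    rw [pow_succ, AlgEquiv.mul_apply, h, map_mul, ih, sigma_cK, pow_succ]
    ring

end gal

section rotc

variable {p : ℕ} {k : Type u} [Field k] {s : ℕ}

/-- the parameter of `f_c(ζ T)` -/
private def C6rc (ζ : kˣ) (c : Par p s k) : Par p s k :=
  Finsupp.onFinset c.support (fun x => ((ζ ^ (-(x.2.1 : ℤ)) : kˣ) : k) * c x) (by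
    intro x hx
    rw [Finsupp.mem_support_iff]
    intro h
    exact hx (by rw [h, mul_zero]))

private theorem C6_polar (ζ : kˣ) (c : Par p s k) (i : Fin s) :
    polar (C6rc ζ c) i = rot ζ (polar c i) := by
  unfold polar C6rc
  rw [Finsupp.onFinset_sum _ (by intro x; split_ifs <;> simp), map_finsuppSum, Finsupp.sum]
  refine Finset.sum_congr rfl fun x _ => ?_
  split_ifs
  · rw [rot_single]
  · rw [map_zero]

private theorem C6_wfK [Fact p.Prime] (ζ : kˣ) (c : Par p s k) (i : ℕ) :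
    (wfK (C6rc ζ c)).coeff i = rot ζ ((wfK c).coeff i) := by
  change (if h : i < s then polar (C6rc ζ c) ⟨i, h⟩ else 0) =
    rot ζ (if h : i < s then polar c ⟨i, h⟩ else 0)
  split_ifs with h
  · exact C6_polar ζ c _
  · rw [map_zero]

end rotc

variable {p : ℕ} [Fact p.Prime] {k : Type u} [Field k] [IsAlgClosed k] [CharP k p] {s : ℕ}
  {G : Type v} [Group G] {N κ θ : ℕ} [NeZero N] {ζ : kˣ} {γ g : G}

/-- WG-C6: a torsor whose wild part is generated by `g`, and which maps some automorphism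
`T ↦ ζ T` to `γ`, has the type `(γ, g, c)` for some `c`. -/
theorem exists_type (hN : ¬ p ∣ N) (hζ : IsPrimitiveRoot ζ N) (hA : Adm p N ζ γ g s θ κ)
    {φ : Torsor k G} {T : Ks k} (hT : T ^ N = tK k) (hW : Wild φ T = Subgroup.zpowers g)
    (hγ : ∃ σ : GalK k, σ T = cK k (ζ : k) * T ∧ φ.hom σ = γ) :
    ∃ c : Par p s k, Val N κ c ∧ IsType N (ζ : k) γ g c φ := by
  classical
  have hp : p.Prime := Fact.out
  have hNk : (N : k) ≠ 0 := fun h => hN ((CharP.cast_eq_zero_iff k p N).1 h)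
  have hθp : θ ^ p ≡ θ [MOD p ^ s] := pow_p_of_pow hN hA.hθN
  obtain ⟨ι, hι, hιT⟩ := exists_iota N hNk ζ hζ T hT
  -- the numbers `n σ`
  have hmod : ∀ a b : ℕ, g ^ a = g ^ b ↔ a ≡ b [MOD p ^ s] := by
    intro a b
    rw [pow_eq_pow_iff_modEq, hA.hg]
  have hn0 : ∀ σ : GalK k, ∃ m : ℕ, σ T = T → φ.hom σ = g ^ m := by
    intro σ
    by_cases h : σ T = T
    · have h1 : φ.hom σ ∈ Wild φ T := mem_Wild.2 ⟨σ, h, rfl⟩
      rw [hW] at h1
      have hfin : IsOfFinOrder g :=
        orderOf_pos_iff.1 (by rw [hA.hg]; exact pow_pos hp.pos s)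
      rw [← hfin.mem_powers_iff_mem_zpowers] at h1
      obtain ⟨m, hm⟩ := h1
      exact ⟨m, fun _ => hm.symm⟩
    · exact ⟨0, fun h' => absurd h' h⟩
  choose n hn using hn0
  have hadd : ∀ σ σ' : GalK k, σ T = T → σ' T = T →
      n (σ * σ') ≡ n σ + n σ' [MOD p ^ s] := by
    intro σ σ' h h'
    rw [← hmod, pow_add, ← hn σ h, ← hn σ' h', ← hn (σ * σ') (by
      rw [AlgEquiv.mul_apply, h', h]), map_mul]
  have hcont : ∃ S : Finset (Ks k), ∀ σ : GalK k, σ T = T → (∀ x ∈ S, σ x = x) →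
      n σ ≡ 0 [MOD p ^ s] := by
    obtain ⟨S, hS⟩ := φ.cont
    refine ⟨S, fun σ h hx => ?_⟩
    rw [← hmod, ← hn σ h, hS σ hx, pow_zero]
  obtain ⟨z0, hz0⟩ := exists_witt_of_hom hN hT s n hadd hcont
  have H1 : ∀ σ : GalK k, σ T = T → C6E s (C6M σ z0) (z0 + (n σ : ℕ)) := by
    intro σ h
    rw [C6E_iff]
    intro i hi
    rw [C6M_coeff]
    exact hz0 σ h i hi
  -- `F(z0) - z0` comes from `k((T))`
  have hfix : ∀ σ : GalK k, σ T = T → C6E s (C6M σ (WittVector.frobenius z0 - z0))
      (WittVector.frobenius z0 - z0) := by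
    intro σ h
    rw [map_sub, C6M_frob]
    refine C6E_trans (C6E_sub (C6E_frob (H1 σ h)) (H1 σ h)) (C6E_of_eq ?_)
    rw [map_add, map_natCast]
    ring
  obtain ⟨f, hf⟩ := C6_desc hι hιT _ hfix
  obtain ⟨c, y, hcy⟩ := exists_reduced f s
  have hcy' : C6E s (f - (WittVector.frobenius y - y)) (wfK c) := C6E_iff.2 hcy
  obtain ⟨z1, hz1def⟩ : ∃ z1, z1 = z0 - WittVector.map ι y := ⟨_, rfl⟩
  have hz1 : C6E s (WittVector.frobenius z1 - z1) (WittVector.map ι (wfK c)) := by
    have e : WittVector.frobenius z1 - z1 =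
        (WittVector.frobenius z0 - z0) - WittVector.map ι (WittVector.frobenius y - y) := by
      rw [hz1def, map_sub, map_sub, C6_map_frob]
      ring
    rw [e]
    refine C6E_trans (C6E_sub hf (C6E_refl _)) ?_
    rw [← map_sub]
    exact C6E_map ι hcy'
  have H2 : ∀ σ : GalK k, σ T = T → C6E s (C6M σ z1) (z1 + (n σ : ℕ)) := by
    intro σ h
    rw [hz1def, map_sub, C6_fix_iota hι hιT σ h]
    refine C6E_trans (C6E_sub (H1 σ h) (C6E_refl _)) (C6E_of_eq ?_)
    ring
  -- the automorphism `σ0`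
  obtain ⟨σ0, h0T, h0γ⟩ := hγ
  have hu : ∀ σ : GalK k, σ T = T → C6E s (C6M σ (C6M σ0 z1 - ((θ : ℕ) : WittVector p (Ks k)) * z1))
      (C6M σ0 z1 - ((θ : ℕ) : WittVector p (Ks k)) * z1) := by
    intro σ h
    obtain ⟨τ, hτ⟩ : ∃ τ : GalK k, σ * σ0 = σ0 * τ := ⟨σ0⁻¹ * (σ * σ0), by group⟩
    have hτT : τ T = T := by
      apply σ0.injective
      have e1 : σ0 (τ T) = (σ0 * τ) T := rfl
      rw [e1, ← hτ, AlgEquiv.mul_apply, h0T, map_mul, sigma_cK, h]
    have hτn : n τ ≡ θ * n σ [MOD p ^ s] := by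
      rw [← hmod, ← hn τ hτT]
      have e2 : γ * φ.hom τ = φ.hom σ * γ := by
        have := congrArg φ.hom hτ
        rw [map_mul, map_mul, h0γ] at this
        exact this.symm
      have e3 : φ.hom τ = γ⁻¹ * φ.hom σ * γ := by
        rw [mul_assoc, ← e2, inv_mul_cancel_left]
      rw [e3, hn σ h, pow_mul, ← hA.hθ]
      have e4 : ∀ m : ℕ, γ⁻¹ * g ^ m * γ = (γ⁻¹ * g * γ) ^ m := by
        intro m
        induction m with
        | zero => simp
        | succ m ih => rw [pow_succ, pow_succ, ← ih]; group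
      exact e4 _
    have e5 : C6M σ (C6M σ0 z1) = C6M σ0 (C6M τ z1) := by
      rw [← C6M_mul, hτ, C6M_mul]
    have e6 : C6E s (C6M σ (C6M σ0 z1)) (C6M σ0 z1 + ((n τ : ℕ) : WittVector p (Ks k))) := by
      rw [e5]
      refine C6E_trans (C6E_M σ0 (H2 τ hτT)) (C6E_of_eq ?_)
      rw [map_add, map_natCast]
    have e7 : C6E s (C6M σ (((θ : ℕ) : WittVector p (Ks k)) * z1))
        (((θ : ℕ) : WittVector p (Ks k)) * z1 + ((θ * n σ : ℕ) : WittVector p (Ks k))) := by
      rw [map_mul, map_natCast]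
      refine C6E_trans (C6E_mul (C6E_refl _) (H2 σ h)) (C6E_of_eq ?_)
      push_cast
      ring
    rw [map_sub]
    refine C6E_trans (C6E_sub e6 e7) ?_
    refine C6E_trans (C6E_sub (C6E_add (C6E_refl _) (C6E_nat hτn)) (C6E_refl _)) (C6E_of_eq ?_)
    ring
  obtain ⟨y1, hy1⟩ := C6_desc hι hιT _ hu
  have hy2 : C6E s (WittVector.frobenius y1 - y1)
      (WittVector.map (rot ζ) (wfK c) - ((θ : ℕ) : WittVector p (LaurentSeries k)) * wfK c) := by
    apply C6E_of_map ι
    rw [map_sub, C6_map_frob]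
    refine C6E_trans (C6E_sub (C6E_frob (C6E_symm hy1)) (C6E_symm hy1)) ?_
    have e8 : WittVector.frobenius (C6M σ0 z1 - ((θ : ℕ) : WittVector p (Ks k)) * z1) -
        (C6M σ0 z1 - ((θ : ℕ) : WittVector p (Ks k)) * z1) =
        C6M σ0 (WittVector.frobenius z1 - z1) -
          ((θ : ℕ) : WittVector p (Ks k)) * (WittVector.frobenius z1 - z1) := by
      rw [map_sub, map_mul, map_natCast, map_sub, C6M_frob]
      ring
    rw [e8]
    refine C6E_trans (C6E_sub (C6E_M σ0 hz1) (C6E_mul (C6E_refl _) hz1)) (C6E_of_eq ?_)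
    rw [C6_sigma_iota hι hιT σ0 ζ h0T, map_sub, map_mul, map_natCast]
  have hθw : C6E s (((θ : ℕ) : WittVector p (LaurentSeries k)) * wfK c) (wfK (scl (θ : k) c)) :=
    C6E_iff.2 (coeff_nat_mul_wfK hθp c)
  have hrot : wfK (C6rc ζ c) = WittVector.map (rot ζ) (wfK c) := by
    ext1 i
    rw [C6_wfK, WittVector.map_coeff]
  obtain ⟨hcc, m, hm⟩ := reduced_unique (C6rc ζ c) (scl (θ : k) c) y1 (C6E_iff.1 (by
    refine C6E_trans ?_ (C6E_symm hy2)
    rw [hrot]
    exact C6E_sub (C6E_refl _) (C6E_symm hθw)))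
  have hm' : C6E s (C6M σ0 z1) (((θ : ℕ) : WittVector p (Ks k)) * z1 + (m : ℕ)) := by
    have h1 : C6E s (C6M σ0 z1 - ((θ : ℕ) : WittVector p (Ks k)) * z1) (m : ℕ) := by
      refine C6E_trans hy1 ?_
      refine C6E_trans (C6E_map ι (C6E_iff.2 hm)) (C6E_of_eq ?_)
      rw [map_natCast]
    refine C6E_trans (C6E_of_eq ?_) (C6E_trans (C6E_add (C6E_refl (((θ : ℕ) :
      WittVector p (Ks k)) * z1)) h1) (C6E_refl _))
    ring
  -- the first coordinate
  have hval : Val N κ c := by
    refine ⟨val_of_rot c ζ hζ (θ : k) hA.hθk fun i _ => ?_, fun h0 => ?_⟩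
    · rw [← C6_wfK, hcc]
    · by_contra hcon
      push Not at hcon
      obtain ⟨σ, hσT, hσg⟩ : ∃ σ : GalK k, σ T = T ∧ φ.hom σ = g := by
        apply mem_Wild.1
        rw [hW]
        exact Subgroup.mem_zpowers g
      have hn1 : n σ ≡ 1 [MOD p ^ s] := by
        rw [← hmod, ← hn σ hσT, hσg, pow_one]
      have hpol : polar c ⟨0, h0⟩ = 0 := by
        unfold polar
        rw [Finsupp.sum]
        refine Finset.sum_eq_zero fun x _ => ?_
        split_ifs with hx
        · have : c x = 0 := by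
            have h2 : x = (⟨0, h0⟩, x.2) := by rw [← hx]
            rw [h2]
            exact hcon x.2
          rw [this, map_zero]
        · rfl
      have hw0 : (wfK c).coeff 0 = 0 := by
        change (if h : 0 < s then polar c ⟨0, h⟩ else 0) = 0
        rw [dif_pos h0, hpol]
      have hz10 : ∀ i < 1, (WittVector.frobenius z1 - z1).coeff i = 0 := by
        intro i hi
        obtain rfl : i = 0 := by omega
        rw [C6E_iff.1 hz1 0 h0, WittVector.map_coeff, hw0, map_zero]
      obtain ⟨a, ha⟩ := exists_nat_of_frobenius 1 z1 hz10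
      have ha' : C6E 1 z1 ((a.val : ℕ) : WittVector p (Ks k)) := C6E_iff.2 ha
      have h3 : C6E 1 (C6M σ z1) (z1 + (n σ : ℕ)) := by
        rw [C6E_iff]
        intro i hi
        exact C6E_iff.1 (H2 σ hσT) i (by omega)
      have h4 : C6E 1 (((n σ : ℕ) : WittVector p (Ks k))) ((0 : ℕ) : WittVector p (Ks k)) := by
        have h5 : C6E 1 (C6M σ z1 - z1) (z1 + (n σ : ℕ) - z1) := C6E_sub h3 (C6E_refl _)
        have h6 : C6E 1 (C6M σ z1 - z1) ((0 : ℕ) : WittVector p (Ks k)) := by
          refine C6E_trans (C6E_sub (C6E_M σ ha') ha') (C6E_of_eq ?_)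
          rw [map_natCast, sub_self, Nat.cast_zero]
        refine C6E_trans (C6E_of_eq ?_) (C6E_trans (C6E_symm h5) h6)
        ring
      have h7 := C6E_nat_inv h4
      rw [pow_one] at h7
      have h8 : n σ ≡ 1 [MOD p] := hn1.of_dvd (dvd_pow_self p h0.ne')
      have h9 : 0 ≡ 1 [MOD p] := h7.symm.trans h8
      have h10 := (Nat.modEq_iff_dvd' (Nat.zero_le 1)).1 h9
      exact hp.one_lt.ne' (Nat.dvd_one.1 h10)
  -- the correction of `z1`
  obtain ⟨b, hb⟩ : ∃ b : ℕ, m + b ≡ θ * b [MOD p ^ s] := by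
    by_cases hθ1 : θ ≡ 1 [MOD p]
    · have hθs : θ ≡ 1 [MOD p ^ s] := C6_one hθp hθ1
      have hm1 : C6E s (C6M σ0 z1) (z1 + (m : ℕ)) := by
        refine C6E_trans hm' ?_
        refine C6E_add ?_ (C6E_refl _)
        refine C6E_trans (C6E_mul (C6E_nat hθs) (C6E_refl _)) (C6E_of_eq ?_)
        rw [Nat.cast_one, one_mul]
      have hpow : ∀ i : ℕ, C6E s (C6M (σ0 ^ i) z1) (z1 + ((i * m : ℕ) : WittVector p (Ks k))) := by
        intro i
        induction i with
        | zero =>
          refine C6E_of_eq ?_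
          ext j
          rw [C6M_coeff, zero_mul, Nat.cast_zero, add_zero, pow_zero]
          rfl
        | succ i ih =>
          rw [pow_succ, C6M_mul]
          refine C6E_trans (C6E_M _ hm1) ?_
          rw [map_add, map_natCast]
          refine C6E_trans (C6E_add ih (C6E_refl _)) (C6E_of_eq ?_)
          push_cast
          ring
      have hNT : (σ0 ^ N) T = T := by
        rw [C6_pow_T h0T, ← map_pow, ← Units.val_pow_eq_pow_val, hζ.pow_eq_one, Units.val_one,
          map_one, one_mul]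
      have hnN : n (σ0 ^ N) ≡ 0 [MOD p ^ s] := by
        rw [← hmod, ← hn _ hNT, map_pow, h0γ, hA.hγ, pow_zero]
      have h11 : C6E s (((N * m : ℕ) : WittVector p (Ks k))) ((0 : ℕ) : WittVector p (Ks k)) := by
        have h12 := C6E_sub (C6E_trans (C6E_symm (hpow N)) (H2 _ hNT)) (C6E_refl z1)
        refine C6E_trans (C6E_of_eq ?_) (C6E_trans h12 (C6E_trans (C6E_of_eq ?_) (C6E_nat hnN)))
        · ring
        · ring
      have h13 := C6E_nat_inv h11
      have hcop : Nat.Coprime (p ^ s) N := Nat.Coprime.pow_left _ (hp.coprime_iff_not_dvd.2 hN)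
      have h14 : p ^ s ∣ m := hcop.dvd_of_dvd_mul_left ((Nat.modEq_zero_iff_dvd).1 h13)
      refine ⟨0, ?_⟩
      rw [add_zero, mul_zero]
      exact (Nat.modEq_zero_iff_dvd).2 h14
    · exact C6_solve hA.hθp hθ1
  obtain ⟨z, hzdef⟩ : ∃ z, z = z1 + ((b : ℕ) : WittVector p (Ks k)) := ⟨_, rfl⟩
  have hz : C6E s (WittVector.frobenius z - z) (WittVector.map ι (wfK c)) := by
    refine C6E_trans (C6E_of_eq ?_) hz1
    rw [hzdef, map_add, map_natCast]
    ring
  have H3 : C6E s (C6M σ0 z) (((θ : ℕ) : WittVector p (Ks k)) * z) := by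
    rw [hzdef, map_add, map_natCast]
    refine C6E_trans (C6E_add hm' (C6E_refl _)) ?_
    have h15 := C6E_add (C6E_refl (((θ : ℕ) : WittVector p (Ks k)) * z1))
      (C6E_nat (A := Ks k) hb)
    refine C6E_trans (C6E_of_eq ?_) (C6E_trans h15 (C6E_of_eq ?_))
    · push_cast; ring
    · push_cast; ring
  have H4 : ∀ σ : GalK k, σ T = T → C6E s (C6M σ z) (z + (n σ : ℕ)) := by
    intro σ h
    rw [hzdef, map_add, map_natCast]
    refine C6E_trans (C6E_add (H2 σ h) (C6E_refl _)) (C6E_of_eq ?_)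
    ring
  have H5 : ∀ i : ℕ, C6E s (C6M (σ0 ^ i) z) (((θ ^ i : ℕ) : WittVector p (Ks k)) * z) := by
    intro i
    induction i with
    | zero =>
      refine C6E_of_eq ?_
      ext j
      rw [C6M_coeff, pow_zero, pow_zero, Nat.cast_one, one_mul]
      rfl
    | succ i ih =>
      rw [pow_succ, C6M_mul]
      refine C6E_trans (C6E_M _ H3) ?_
      rw [map_mul, map_natCast]
      refine C6E_trans (C6E_mul (C6E_refl _) ih) (C6E_of_eq ?_)
      push_cast
      ring
  refine ⟨c, hval, (isType_iff hA c φ).2 ⟨T, z, ⟨hT, fun i hi => ?_⟩, fun σ => ?_⟩⟩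
  · rw [fT_coeff hι hιT, C6E_iff.1 hz i hi, WittVector.map_coeff]
  · obtain ⟨i, hi⟩ := sigma_T (ζ : k) (IsPrimitiveRoot.coe_units_iff.2 hζ) hT σ
    obtain ⟨τ, hτ⟩ : ∃ τ : GalK k, σ = σ0 ^ i * τ := ⟨(σ0 ^ i)⁻¹ * σ, by group⟩
    have hτT : τ T = T := by
      apply (σ0 ^ i).injective
      have e1 : (σ0 ^ i) (τ T) = (σ0 ^ i * τ) T := rfl
      rw [e1, ← hτ, hi, C6_pow_T h0T]
    refine ⟨i, n τ, ⟨hi, fun j hj => ?_⟩, ?_⟩
    · rw [← C6M_coeff]
      refine C6E_iff.1 ?_ j hj
      rw [hτ, C6M_mul]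
      refine C6E_trans (C6E_M _ (H4 τ hτT)) ?_
      rw [map_add, map_natCast]
      exact C6E_add (H5 i) (C6E_refl _)
    · rw [hτ, map_mul, map_pow, h0γ, hn τ hτT]

end

end Pool.Agent.WG
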