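import Pool.Agent.WD.Defs

/-! # Numbers in a residue class, triangular determinants (piece WG-CL) -/

namespace Pool.Agent.WG

open Polynomial Pool.Agent.WD

noncomputable section

universe v

/-- the least natural number `≥ x` that is `≡ r` modulo `N` (for `0 ≤ x`, `r < N`) -/
def clN (N : ℕ) (x : ℚ) (r : ℕ) : ℕ := r + N * ⌈(x - r) / N⌉₊

theorem le_clN {N : ℕ} [NeZero N] (x : ℚ) (r : ℕ) : x ≤ clN N x r := by
  have hN : (0 : ℚ) < N := by exact_mod_cast Nat.pos_of_ne_zero (NeZero.ne N)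
  have h1 : (x - r) / N ≤ (⌈(x - r) / N⌉₊ : ℚ) := Nat.le_ceil _
  rw [div_le_iff₀ hN] at h1
  unfold clN
  push_cast
  linarith

/-- an integer `z ≥ x`, `z ≡ r`, has the form `clN N x r + N l`, `l ∈ ℕ` -/
theorem exists_of_le_clN {N : ℕ} [NeZero N] {x : ℚ} (hx : 0 ≤ x) {r : ℕ} (hr : r < N) {z : ℤ}
    (hz : x ≤ z) (hzr : (N : ℤ) ∣ z - r) : ∃ l : ℕ, z = clN N x r + N * l := by
  have hN0 : 0 < N := Nat.pos_of_ne_zero (NeZero.ne N)
  have hN : (0 : ℚ) < N := by exact_mod_cast hN0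
  obtain ⟨w, hw⟩ := hzr
  have hz0 : 0 ≤ z := by exact_mod_cast hx.trans hz
  have hw0 : 0 ≤ w := by
    by_contra hcon
    push Not at hcon
    have h1 : (N : ℤ) * w ≤ -N := by nlinarith
    omega
  obtain ⟨v, rfl⟩ := Int.eq_ofNat_of_zero_le hw0
  have h2 : ⌈(x - r) / N⌉₊ ≤ v := by
    rw [Nat.ceil_le, div_le_iff₀ hN]
    have h3 : (z : ℚ) - r = N * v := by exact_mod_cast hw
    linarith
  obtain ⟨l, hl⟩ := Nat.exists_eq_add_of_le h2
  refine ⟨l, ?_⟩
  unfold clN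
  push_cast
  have h4 : (v : ℤ) = (⌈(x - r) / N⌉₊ : ℤ) + l := by exact_mod_cast hl
  rw [h4] at hw
  linarith

variable {L : Type v} [Field L] {n : ℕ} {m : Fin n → ℕ}

/-- the determinant of a triangular matrix in block form -/
theorem det_triangular (ξ : Ix n m → Ix n m → L)
    (h0 : ∀ b b' : Ix n m, b.1 ≠ b'.1 ∨ (b.2 : ℕ) < b'.2 → ξ b b' = 0) :
    Matrix.det (Matrix.of ξ) = ∏ b, ξ b b := by
  let f : Ix n m → ℕ ×ₗ ℕ := fun b => toLex ((b.1 : ℕ), (b.2 : ℕ))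
  have hf : Function.Injective f := by
    rintro ⟨B, i⟩ ⟨B', i'⟩ h
    have h1 : (((B : ℕ), (i : ℕ)) : ℕ × ℕ) = ((B' : ℕ), (i' : ℕ)) := toLex.injective h
    have h2 := congrArg Prod.fst h1
    have h3 := congrArg Prod.snd h1
    simp only at h2 h3
    obtain rfl : B = B' := Fin.ext h2
    obtain rfl : i = i' := Fin.ext h3
    rfl
  let _ : LinearOrder (Ix n m) := LinearOrder.lift' f hf
  rw [Matrix.det_of_isLowerTriangular (Matrix.of ξ) ?_]
  · rfl
  · intro b b' hb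
    have h1 : f b < f b' := OrderDual.toDual_lt_toDual.1 hb
    rw [Prod.Lex.lt_iff] at h1
    show ξ b b' = 0
    rcases h1 with h1 | ⟨h1, h2⟩
    · apply h0
      left
      intro h2
      have h3 : ((b.1 : ℕ)) < b'.1 := h1
      rw [h2] at h3
      exact absurd h3 (lt_irrefl _)
    · exact h0 b b' (Or.inr h2)

end

end Pool.Agent.WG
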