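import Pool.Agent.WG.Typ3

/-!
# Classification of the torsors (piece WG-C0)
-/

namespace Pool.Agent.WG

open Polynomial Pool.Agent.WD Pool.Agent.WC

noncomputable section

universe u v

variable {p : ℕ} [Fact p.Prime] {k : Type u} [Field k] [IsAlgClosed k] [CharP k p] {s : ℕ}
  {G : Type v} [Group G] {N κ θ : ℕ} [NeZero N] {ζ : kˣ} {γ g : G}

theorem Iso.refl (φ : Torsor k G) : Iso φ φ := ⟨1, fun σ => by simp⟩

theorem Iso.symm {φ ψ : Torsor k G} (h : Iso φ ψ) : Iso ψ φ := by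
  obtain ⟨x, hx⟩ := h
  refine ⟨x⁻¹, fun σ => ?_⟩
  rw [hx]
  group

theorem Iso.trans {φ ψ χ : Torsor k G} (h : Iso φ ψ) (h' : Iso ψ χ) : Iso φ χ := by
  obtain ⟨x, hx⟩ := h
  obtain ⟨y, hy⟩ := h'
  refine ⟨y * x, fun σ => ?_⟩
  rw [hy, hx]
  group

/-- the conjugate torsor -/
def conjT (h : G) (φ : Torsor k G) : Torsor k G where
  hom := (MulAut.conj h).toMonoidHom.comp φ.hom
  cont := by
    obtain ⟨s, hs⟩ := φ.cont
    exact ⟨s, fun σ hσ => by simp [hs σ hσ]⟩

theorem conjT_hom (h : G) (φ : Torsor k G) (σ : GalK k) :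
    (conjT h φ).hom σ = h * φ.hom σ * h⁻¹ := rfl

theorem iso_conjT (h : G) (φ : Torsor k G) : Iso φ (conjT h φ) := ⟨h, fun _ => rfl⟩

/-- the image of the wild inertia group: of the automorphisms which fix `T` -/
def Wild (φ : Torsor k G) (T : Ks k) : Subgroup G :=
  Subgroup.closure {x | ∃ σ : GalK k, σ T = T ∧ φ.hom σ = x}

theorem mem_Wild {φ : Torsor k G} {T : Ks k} {x : G} :
    x ∈ Wild φ T ↔ ∃ σ : GalK k, σ T = T ∧ φ.hom σ = x := by
  constructor
  · intro h
    induction h using Subgroup.closure_induction with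
    | mem x hx => exact hx
    | one => exact ⟨1, rfl, map_one _⟩
    | mul x y _ _ hx hy =>
      obtain ⟨σ, h1, h2⟩ := hx
      obtain ⟨τ, h3, h4⟩ := hy
      refine ⟨σ * τ, ?_, by rw [map_mul, h2, h4]⟩
      change σ (τ T) = T
      rw [h3, h1]
    | inv x _ hx =>
      obtain ⟨σ, h1, h2⟩ := hx
      refine ⟨σ⁻¹, ?_, by rw [map_inv, h2]⟩
      change σ.symm T = T
      rw [AlgEquiv.symm_apply_eq]
      exact h1.symm
  · intro h
    exact Subgroup.subset_closure h

end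

end Pool.Agent.WG
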