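import Pool.Agent.WG.EL

/-! # The elements `H_j` (piece WG-EL2) -/

namespace Pool.Agent.WG

open Polynomial Pool.Agent.WD

noncomputable section

universe u v

variable {p N s θ : ℕ} [Fact p.Prime] {k : Type u} [Field k] [CharP k p] {ζ : kˣ}
  {L : Type v} [Field L] {φ : L →+* Om k} {j0 : LaurentSeries k →+* L} {w τ : L ≃+* L}
  {h : ℕ → L} {Xv : ℕ → ℚ}

omit [Fact p.Prime] [CharP k p] in
private theorem el2_cst_mul (a : k) (x : L) : cst0 j0 a * x = j0 (HahnSeries.C a) * x := rfl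

omit [Fact p.Prime] [CharP k p] in
private theorem el2_XL_add (q : k[X]) (x y : L) :
    XL j0 w q (x + y) = XL j0 w q x + XL j0 w q y := opQ_map_add q x y

/-- `X` as an additive endomorphism -/
private def el2E (j0 : LaurentSeries k →+* L) (w : L ≃+* L) (q : k[X]) : L →+ L :=
  AddMonoidHom.mk' (XL j0 w q) (el2_XL_add q)

private theorem el2_zero (q : k[X]) : XL j0 w q 0 = 0 := (el2E j0 w q).map_zero

private theorem el2_iter_zero (q : k[X]) (n : ℕ) : (XL j0 w q)^[n] 0 = 0 := by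
  induction n with
  | zero => rfl
  | succ n ih => rw [Function.iterate_succ_apply, el2_zero, ih]

private theorem el2_iter_sub (q : k[X]) (n : ℕ) (x y : L) :
    (XL j0 w q)^[n] (x - y) = (XL j0 w q)^[n] x - (XL j0 w q)^[n] y := by
  induction n generalizing x y with
  | zero => rfl
  | succ n ih =>
    rw [Function.iterate_succ_apply, Function.iterate_succ_apply, Function.iterate_succ_apply,
      ← ih]
    congr 1
    exact (el2E j0 w q).map_sub x y

private theorem el2_iter_add (q : k[X]) (n : ℕ) (x y : L) :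
    (XL j0 w q)^[n] (x + y) = (XL j0 w q)^[n] x + (XL j0 w q)^[n] y := by
  induction n generalizing x y with
  | zero => rfl
  | succ n ih =>
    rw [Function.iterate_succ_apply, Function.iterate_succ_apply, Function.iterate_succ_apply,
      ← ih]
    congr 1
    exact (el2E j0 w q).map_add x y

private theorem el2_iter_sum (q : k[X]) (n : ℕ) (S : Finset ℕ) (u : ℕ → L) :
    (XL j0 w q)^[n] (∑ j ∈ S, u j) = ∑ j ∈ S, (XL j0 w q)^[n] (u j) := by
  classical
  induction S using Finset.induction_on with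
  | empty => rw [Finset.sum_empty, Finset.sum_empty, el2_iter_zero]
  | insert a S ha ih => rw [Finset.sum_insert ha, Finset.sum_insert ha, el2_iter_add, ih]

private theorem el2_iter_mul (E : EL p N s θ ζ φ j0 w τ h Xv) (q : k[X]) (n : ℕ)
    (a : LaurentSeries k) (x : L) :
    (XL j0 w q)^[n] (j0 a * x) = j0 a * (XL j0 w q)^[n] x := by
  induction n generalizing x with
  | zero => rfl
  | succ n ih =>
    rw [Function.iterate_succ_apply, Function.iterate_succ_apply, ← ih]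
    congr 1
    exact E.X_mul q a x

private theorem el2_w_j (E : EL p N s θ ζ φ j0 w τ h Xv) (a : LaurentSeries k) :
    w (j0 a) = j0 a := (E.fixw _).2 ⟨a, rfl⟩

private theorem el2_winv_j (E : EL p N s θ ζ φ j0 w τ h Xv) (a : LaurentSeries k) :
    w⁻¹ (j0 a) = j0 a := by
  have h1 : w⁻¹ (w (j0 a)) = j0 a := by
    rw [← RingAut.mul_apply, inv_mul_cancel]
    rfl
  rwa [el2_w_j E a] at h1

/-- `q(1) = 0` -/
private theorem el2_X_fix (E : EL p N s θ ζ φ j0 w τ h Xv) (q : k[X]) (c : L)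
    (hc : w⁻¹ c = c) : XL j0 w q c = cst0 j0 (q.eval 1) * c := by
  have h1 : XL j0 w q (c * 1) = c * XL j0 w q 1 := opQ_mul_fixed q c hc 1
  rw [mul_one] at h1
  rw [h1, mul_comm]
  congr 1
  show (q.sum fun n a => cst0 j0 a * (w⁻¹ ^ n) 1) = _
  rw [Polynomial.eval_eq_sum, Polynomial.sum_def, Polynomial.sum_def, map_sum]
  refine Finset.sum_congr rfl fun n _ => ?_
  rw [map_one, one_pow, mul_one, mul_one]

private theorem el2_X_one (E : EL p N s θ ζ φ j0 w τ h Xv) {q : k[X]} (hq : GoodQ p s θ q) :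
    XL j0 w q (1 : L) = 0 := by
  obtain ⟨⟨v, hv, _⟩, _⟩ := hq
  rw [el2_X_fix E q 1 (map_one _), hv]
  simp

private theorem el2_fixed (E : EL p N s θ ζ φ j0 w τ h Xv) {q : k[X]} (hq : GoodQ p s θ q)
    (c : L) (hc : XL j0 w q c = 0) : c ∈ Set.range j0 := by
  obtain ⟨R, hR0, _, hR⟩ := E.w_of_X hq
  have h1 : w⁻¹ c = c := by
    rw [hR c, Polynomial.sum_def, Finset.sum_eq_zero, add_zero]
    intro n _
    rcases Nat.eq_zero_or_pos n with hn | hn
    · rw [hn, hR0, map_zero, zero_mul]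
    · obtain ⟨m, rfl⟩ : ∃ m, n = m + 1 := ⟨n - 1, by omega⟩
      rw [Function.iterate_succ_apply, hc, el2_iter_zero, mul_zero]
  rw [← E.fixw]
  have h2 : w (w⁻¹ c) = c := by
    rw [← RingAut.mul_apply, mul_inv_cancel]
    rfl
  rwa [h1] at h2

private theorem el2_iter_H (E : EL p N s θ ζ φ j0 w τ h Xv) {q : k[X]} (hq : GoodQ p s θ q)
    {H : ℕ → L} {j : ℕ} (hH : (XL j0 w q)^[j] (H j) = 1) {m : ℕ} (hjm : j < m) :
    (XL j0 w q)^[m] (H j) = 0 := by
  have h1 : m = (m - (j + 1)) + 1 + j := by omega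
  rw [h1, Function.iterate_add_apply, hH, Function.iterate_add_apply, Function.iterate_one,
    el2_X_one E hq, el2_iter_zero]

private theorem el2_repr (E : EL p N s θ ζ φ j0 w τ h Xv) {q : k[X]} (hq : GoodQ p s θ q)
    {H : ℕ → L} (hH : ∀ j < p ^ s, (XL j0 w q)^[j] (H j) = 1) {m : ℕ} (hm : m ≤ p ^ s) (x : L)
    (hx : (XL j0 w q)^[m] x = 0) :
    ∃ a : ℕ → LaurentSeries k, x = ∑ j ∈ Finset.range m, j0 (a j) * H j := by
  classical
  induction m generalizing x with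
  | zero =>
    refine ⟨fun _ => 0, ?_⟩
    rw [Finset.range_zero, Finset.sum_empty]
    exact hx
  | succ m ih =>
    set c := (XL j0 w q)^[m] x with hc
    obtain ⟨b, hb⟩ : c ∈ Set.range j0 := by
      refine el2_fixed E hq c ?_
      rw [Function.iterate_succ_apply'] at hx
      exact hx
    have h1 : (XL j0 w q)^[m] (x - j0 b * H m) = 0 := by
      rw [el2_iter_sub, el2_iter_mul E, hH m (by omega), mul_one, ← hc, hb, sub_self]
    obtain ⟨a, hxa⟩ := ih (by omega) _ h1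
    refine ⟨Function.update a m b, ?_⟩
    rw [Finset.sum_range_succ, Function.update_self]
    have h2 : ∑ j ∈ Finset.range m, j0 (Function.update a m b j) * H j =
        ∑ j ∈ Finset.range m, j0 (a j) * H j := by
      refine Finset.sum_congr rfl fun j hj => ?_
      rw [Function.update_of_ne (Finset.mem_range.1 hj).ne]
    rw [h2, ← hxa]
    ring

private theorem el2_sum (S : Finset ℕ) (u : ℕ → Om k)
    (hd : ∀ i ∈ S, ∀ j ∈ S, i ≠ j → u i ≠ 0 → (u i).orderTop ≠ (u j).orderTop) (j : ℕ)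
    (hj : j ∈ S) : (∑ i ∈ S, u i).orderTop ≤ (u j).orderTop := by
  by_cases hj0 : u j = 0
  · rw [hj0, HahnSeries.orderTop_zero]
    exact le_top
  obtain ⟨i, hi, hmin⟩ := Finset.exists_min_image S (fun i => (u i).orderTop) ⟨j, hj⟩
  have h1 : u i ≠ 0 := by
    intro h0
    have h2 := hmin j hj
    rw [h0, HahnSeries.orderTop_zero, top_le_iff, HahnSeries.orderTop_eq_top] at h2
    exact hj0 h2
  obtain ⟨g, hg⟩ := WithTop.ne_top_iff_exists.1 (HahnSeries.orderTop_ne_top.2 h1)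
  have h2 : (∑ i ∈ S, u i).coeff g = (u i).coeff g := by
    rw [HahnSeries.coeff_sum]
    refine Finset.sum_eq_single i ?_ (fun h => absurd hi h)
    intro i' hi' hne
    apply HahnSeries.coeff_eq_zero_of_lt_orderTop
    rw [hg]
    exact lt_of_le_of_ne (hmin i' hi') (hd i hi i' hi' (Ne.symm hne) h1)
  have h3 : (u i).coeff g ≠ 0 := HahnSeries.coeff_orderTop_ne hg.symm
  have h4 : (∑ i ∈ S, u i).orderTop ≤ g := by
    apply HahnSeries.orderTop_le_of_coeff_ne_zero
    rw [h2]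
    exact h3
  rw [hg] at h4
  exact h4.trans (hmin j hj)

private theorem el2_ord_int {a : LaurentSeries k} (ha : a ≠ 0) :
    ∃ z : ℤ, (toOm k a).orderTop = (((z : ℚ)) : WithTop ℚ) := by
  have h1 : toOm k a ≠ 0 := by
    intro h0
    exact ha ((toOm k).injective (by rw [h0, map_zero]))
  obtain ⟨g, hg⟩ := WithTop.ne_top_iff_exists.1 (HahnSeries.orderTop_ne_top.2 h1)
  have h2 : (toOm k a).coeff g ≠ 0 := HahnSeries.coeff_orderTop_ne hg.symm
  by_cases h3 : ∃ z : ℤ, g = z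
  · obtain ⟨z, hz⟩ := h3
    exact ⟨z, by rw [← hg, hz]⟩
  · push Not at h3
    exact absurd (toOm_coeff_not a g h3) h2

private theorem el2_ord_le (E : EL p N s θ ζ φ j0 w τ h Xv) {H : ℕ → L}
    (hH : ∀ j < p ^ s, (φ (H j)).orderTop = ((-Xv j : ℚ) : WithTop ℚ)) {m : ℕ} (hm : m ≤ p ^ s)
    (a : ℕ → LaurentSeries k) {j : ℕ} (hj : j < m) :
    (φ (∑ j ∈ Finset.range m, j0 (a j) * H j)).orderTop ≤ (φ (j0 (a j) * H j)).orderTop := by
  rw [map_sum]
  refine el2_sum (Finset.range m) (fun j => φ (j0 (a j) * H j)) ?_ j (Finset.mem_range.2 hj)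
  intro i hi i' hi' hne h0 heq
  have hi1 : i < p ^ s := lt_of_lt_of_le (Finset.mem_range.1 hi) hm
  have hi2 : i' < p ^ s := lt_of_lt_of_le (Finset.mem_range.1 hi') hm
  have h0' : φ (j0 (a i') * H i') ≠ 0 := by
    intro h1
    rw [h1, HahnSeries.orderTop_zero, HahnSeries.orderTop_eq_top] at heq
    exact h0 heq
  have ha0 : a i ≠ 0 := by
    intro h1
    apply h0
    show φ (j0 (a i) * H i) = 0
    rw [h1, map_zero, zero_mul, map_zero]
  have ha0' : a i' ≠ 0 := by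
    intro h1
    rw [h1, map_zero, zero_mul, map_zero] at h0'
    exact h0' rfl
  obtain ⟨z, hz⟩ := el2_ord_int ha0
  obtain ⟨z', hz'⟩ := el2_ord_int ha0'
  have e1 : (φ (j0 (a i) * H i)).orderTop = (φ (j0 (a i') * H i')).orderTop := heq
  rw [map_mul, map_mul, HahnSeries.orderTop_mul, HahnSeries.orderTop_mul, E.φj, E.φj, hz, hz',
    hH i hi1, hH i' hi2, ← WithTop.coe_add, ← WithTop.coe_add, WithTop.coe_inj] at e1
  refine E.Xnot i hi1 i' hi2 hne (z - z') ?_
  push_cast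
  linarith

/-! ### the construction of `H_j` -/

private theorem el2_diff (E : EL p N s θ ζ φ j0 w τ h Xv) (j : ℕ) (x : L) :
    (fun y => w⁻¹ y - y)^[j] x = (-1) ^ j * (w⁻¹ ^ j) ((fun y => w y - y)^[j] x) := by
  have hww : ∀ y : L, w⁻¹ (w y) = y := fun y => by
    rw [← RingAut.mul_apply, inv_mul_cancel]
    rfl
  induction j with
  | zero => simp
  | succ j ih =>
    rw [Function.iterate_succ_apply', Function.iterate_succ_apply', ih]
    set u := (fun y => w y - y)^[j] x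
    show w⁻¹ ((-1) ^ j * (w⁻¹ ^ j) u) - (-1) ^ j * (w⁻¹ ^ j) u =
      (-1) ^ (j + 1) * (w⁻¹ ^ (j + 1)) (w u - u)
    have h1 : (w⁻¹ ^ (j + 1)) (w u) = (w⁻¹ ^ j) u := by
      rw [pow_succ, RingAut.mul_apply, hww]
    have h2 : (w⁻¹ ^ (j + 1)) u = w⁻¹ ((w⁻¹ ^ j) u) := by
      rw [pow_succ', RingAut.mul_apply]
    rw [map_mul, map_pow, map_neg, map_one, map_sub, h1, h2, pow_succ]
    ring

private theorem el2_iter_opQ (E : EL p N s θ ζ φ j0 w τ h Xv) (q : k[X]) (j : ℕ) (x : L) :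
    (XL j0 w q)^[j] x = opQ (cst0 j0) w⁻¹ (q ^ j) x := by
  have hfix : ∀ a, w⁻¹ (cst0 j0 a) = cst0 j0 a := fun a => el2_winv_j E _
  induction j generalizing x with
  | zero =>
    rw [pow_zero, ← C_1, opQ_C, map_one, one_mul]
    rfl
  | succ j ih =>
    rw [Function.iterate_succ_apply', ih, pow_succ', opQ_mul hfix]
    rfl

private theorem el2_h0 (E : EL p N s θ ζ φ j0 w τ h Xv) {q : k[X]} (hq : GoodQ p s θ q) (j : ℕ)
    (hj : j < p ^ s) : (XL j0 w q)^[j] ((-1) ^ j * h j) = 1 := by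
  have hfix : ∀ a, w⁻¹ (cst0 j0 a) = cst0 j0 a := fun a => el2_winv_j E _
  obtain ⟨⟨v, hv, hv1⟩, _⟩ := hq
  have hm1 : ((-1 : L)) ^ j = j0 ((-1) ^ j) := by simp
  rw [hm1, el2_iter_mul E, el2_iter_opQ E, hv, mul_pow, mul_comm ((X - 1 : k[X]) ^ j) (v ^ j),
    opQ_mul hfix]
  have h1 : ∀ (i : ℕ) (x : L), opQ (cst0 j0) w⁻¹ ((X - 1 : k[X]) ^ i) x =
      (fun y => w⁻¹ y - y)^[i] x := by
    intro i
    induction i with
    | zero =>
      intro x
      rw [pow_zero, ← C_1, opQ_C, map_one, one_mul]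
      rfl
    | succ i ih =>
      intro x
      rw [pow_succ', opQ_mul hfix, ih, Function.iterate_succ_apply', opQ_sub, opQ_X, ← C_1,
        opQ_C, map_one, one_mul]
  rw [h1, el2_diff E, E.hh j hj, map_one, mul_one, hm1]
  have h2 : opQ (cst0 j0) w⁻¹ (v ^ j) (j0 ((-1) ^ j)) =
      cst0 j0 ((v ^ j).eval 1) * j0 ((-1) ^ j) :=
    el2_X_fix E (v ^ j) _ (el2_winv_j E _)
  rw [h2, eval_pow, hv1, one_pow, map_one, one_mul, ← map_mul, ← pow_add, ← two_mul, pow_mul]
  simp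

private theorem el2_tau_cst (E : EL p N s θ ζ φ j0 w τ h Xv) (a : k) :
    τ (cst0 j0 a) = cst0 j0 a := by
  show τ (j0 (HahnSeries.C a)) = j0 (HahnSeries.C a)
  rw [E.τj]
  congr 1
  ext i
  rw [rot_coeff]
  by_cases hi : i = 0
  · rw [hi, zpow_zero, Units.val_one, one_mul]
  · rw [HahnSeries.C_apply, HahnSeries.coeff_single_of_ne hi, mul_zero]

private theorem el2_X_taupow (E : EL p N s θ ζ φ j0 w τ h Xv) {q : k[X]} (hq : GoodQ p s θ q)
    (i : ℕ) (x : L) :
    XL j0 w q ((τ ^ i) x) = cst0 j0 ((θ : k) ^ i) * (τ ^ i) (XL j0 w q x) := by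
  induction i with
  | zero =>
    rw [pow_zero, pow_zero, map_one, one_mul]
    rfl
  | succ i ih =>
    rw [pow_succ', RingAut.mul_apply, RingAut.mul_apply, E.X_tau hq, ih, map_mul, el2_tau_cst E,
      pow_succ', map_mul]
    ring

private theorem el2_iter_taupow (E : EL p N s θ ζ φ j0 w τ h Xv) {q : k[X]}
    (hq : GoodQ p s θ q) (i j : ℕ) (x : L) :
    (XL j0 w q)^[j] ((τ ^ i) x) =
      cst0 j0 ((θ : k) ^ (i * j)) * (τ ^ i) ((XL j0 w q)^[j] x) := by
  induction j generalizing x with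
  | zero =>
    rw [mul_zero, pow_zero, map_one, one_mul]
    rfl
  | succ j ih =>
    rw [Function.iterate_succ_apply, el2_X_taupow E hq, Function.iterate_succ_apply]
    rw [el2_cst_mul, el2_iter_mul E, ih, ← mul_assoc]
    congr 1
    show cst0 j0 ((θ : k) ^ i) * cst0 j0 ((θ : k) ^ (i * j)) = cst0 j0 ((θ : k) ^ (i * (j + 1)))
    rw [← map_mul, ← pow_add]
    congr 2
    ring

private theorem el2_ord_cst (E : EL p N s θ ζ φ j0 w τ h Xv) (a : k) (x : L) :
    (φ x).orderTop ≤ (φ (cst0 j0 a * x)).orderTop := by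
  have h1 := E.ordX (C a) x
  have h2 : XL j0 w (C a) x = cst0 j0 a * x := opQ_C a x
  rwa [h2] at h1

private theorem el2_ord_taupow (E : EL p N s θ ζ φ j0 w τ h Xv) (i : ℕ) (x : L) :
    (φ ((τ ^ i) x)).orderTop = (φ x).orderTop := by
  induction i with
  | zero => rfl
  | succ i ih => rw [pow_succ', RingAut.mul_apply, E.ordτ, ih]

private theorem el2_ord_sum (g : WithTop ℚ) (S : Finset ℕ) (u : ℕ → L)
    (hu : ∀ i ∈ S, g ≤ (φ (u i)).orderTop) : g ≤ (φ (∑ i ∈ S, u i)).orderTop := by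
  classical
  induction S using Finset.induction_on with
  | empty =>
    rw [Finset.sum_empty, map_zero, HahnSeries.orderTop_zero]
    exact le_top
  | insert a S ha ih =>
    rw [Finset.sum_insert ha, map_add]
    refine le_trans ?_ HahnSeries.min_orderTop_le_orderTop_add
    exact le_min (hu a (Finset.mem_insert_self a S))
      (ih fun i hi => hu i (Finset.mem_insert_of_mem hi))

/-- The elements `H_j`: `(-1)^j h_j`, projected to the eigenspace of `τ` with
`N⁻¹ ∑_{i < N} θ^{-ji} τ^i`. -/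
theorem EL.exists_H (E : EL p N s θ ζ φ j0 w τ h Xv) (hN : ¬ p ∣ N) (hθk : (θ : k) ^ N = 1)
    {q : k[X]} (hq : GoodQ p s θ q) :
    ∃ H : ℕ → L, (∀ j < p ^ s, (XL j0 w q)^[j] (H j) = 1) ∧
      (∀ j < p ^ s, τ (H j) = cst0 j0 ((θ : k) ^ j) * H j) ∧
      ∀ j < p ^ s, (φ (H j)).orderTop = ((-Xv j : ℚ) : WithTop ℚ) := by
  have hp : p.Prime := Fact.out
  have hN0 : 0 < N := Nat.pos_of_ne_zero fun h0 => hN (h0 ▸ dvd_zero p)
  have hNk : (N : k) ≠ 0 := by
    intro h0
    exact hN ((CharP.cast_eq_zero_iff k p N).1 h0)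
  have hθ0 : (θ : k) ≠ 0 := by
    intro h0
    rw [h0, zero_pow hN0.ne'] at hθk
    exact zero_ne_one hθk
  -- the elements before the projection
  set H0 : ℕ → L := fun j => (-1) ^ j * h j with hH0
  have hH0X : ∀ j < p ^ s, (XL j0 w q)^[j] (H0 j) = 1 := fun j hj => el2_h0 E hq j hj
  have hH0o : ∀ j < p ^ s, (φ (H0 j)).orderTop = ((-Xv j : ℚ) : WithTop ℚ) := by
    intro j hj
    rw [← E.hord j hj]
    show (φ ((-1) ^ j * h j)).orderTop = _
    rcases neg_one_pow_eq_or L j with h1 | h1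
    · rw [h1, one_mul]
    · rw [h1, neg_one_mul, map_neg, HahnSeries.orderTop_neg]
  set u : ℕ → ℕ → L := fun j i => cst0 j0 ((θ : k) ^ (i * j))⁻¹ * (τ ^ i) (H0 j) with hu
  set H : ℕ → L := fun j => cst0 j0 (N : k)⁻¹ * ∑ i ∈ Finset.range N, u j i with hH
  have hHX : ∀ j < p ^ s, (XL j0 w q)^[j] (H j) = 1 := by
    intro j hj
    show (XL j0 w q)^[j] (j0 (HahnSeries.C (N : k)⁻¹) * ∑ i ∈ Finset.range N, u j i) = 1
    rw [el2_iter_mul E, el2_iter_sum]
    have h1 : ∀ i ∈ Finset.range N, (XL j0 w q)^[j] (u j i) = 1 := by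
      intro i _
      show (XL j0 w q)^[j] (j0 (HahnSeries.C ((θ : k) ^ (i * j))⁻¹) * (τ ^ i) (H0 j)) = 1
      rw [el2_iter_mul E, el2_iter_taupow E hq, hH0X j hj, map_one, mul_one]
      show cst0 j0 ((θ : k) ^ (i * j))⁻¹ * cst0 j0 ((θ : k) ^ (i * j)) = 1
      rw [← map_mul, inv_mul_cancel₀ (pow_ne_zero _ hθ0), map_one]
    rw [Finset.sum_congr rfl h1, Finset.sum_const, Finset.card_range, nsmul_eq_mul, mul_one]
    have h2 : ((N : ℕ) : L) = cst0 j0 (N : k) := (map_natCast (cst0 j0) N).symm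
    rw [h2]
    show cst0 j0 (N : k)⁻¹ * cst0 j0 (N : k) = 1
    rw [← map_mul, inv_mul_cancel₀ hNk, map_one]
  refine ⟨H, hHX, ?_, ?_⟩
  · intro j _
    have h1 : ∀ i, τ (u j i) = cst0 j0 ((θ : k) ^ j) * u j (i + 1) := by
      intro i
      show τ (cst0 j0 ((θ : k) ^ (i * j))⁻¹ * (τ ^ i) (H0 j)) =
        cst0 j0 ((θ : k) ^ j) * (cst0 j0 ((θ : k) ^ ((i + 1) * j))⁻¹ * (τ ^ (i + 1)) (H0 j))
      rw [map_mul, el2_tau_cst E, pow_succ' τ i, RingAut.mul_apply, ← mul_assoc, ← map_mul]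
      congr 2
      rw [add_mul, one_mul, pow_add, mul_inv]
      field_simp
    have h2 : u j N = u j 0 := by
      show cst0 j0 ((θ : k) ^ (N * j))⁻¹ * (τ ^ N) (H0 j) =
        cst0 j0 ((θ : k) ^ (0 * j))⁻¹ * (τ ^ 0) (H0 j)
      rw [E.τN, pow_mul, hθk, one_pow, zero_mul, pow_zero, pow_zero]
    show τ (cst0 j0 (N : k)⁻¹ * ∑ i ∈ Finset.range N, u j i) = cst0 j0 ((θ : k) ^ j) *
      (cst0 j0 (N : k)⁻¹ * ∑ i ∈ Finset.range N, u j i)
    rw [map_mul, el2_tau_cst E, map_sum, Finset.sum_congr rfl fun i _ => h1 i, ← Finset.mul_sum]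
    have h3 : ∑ i ∈ Finset.range N, u j (i + 1) = ∑ i ∈ Finset.range N, u j i := by
      have h4 := Finset.sum_range_succ' (u j) N
      have h5 := Finset.sum_range_succ (u j) N
      rw [h5, h2] at h4
      exact (add_right_cancel h4).symm
    rw [h3]
    ring
  · intro j hj
    refine le_antisymm ?_ ?_
    · have hkill : (XL j0 w q)^[j + 1] (H j) = 0 := by
        rw [Function.iterate_succ_apply', hHX j hj, el2_X_one E hq]
      obtain ⟨a, ha⟩ := el2_repr E hq hH0X (Nat.succ_le_of_lt hj) (H j) hkill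
      have h1 := hHX j hj
      rw [ha, el2_iter_sum, Finset.sum_range_succ] at h1
      have h2 : ∑ i ∈ Finset.range j, (XL j0 w q)^[j] (j0 (a i) * H0 i) = 0 := by
        refine Finset.sum_eq_zero fun i hi => ?_
        have hi' := Finset.mem_range.1 hi
        rw [el2_iter_mul E, el2_iter_H E hq (hH0X i (by omega)) hi', mul_zero]
      rw [h2, zero_add, el2_iter_mul E, hH0X j hj, mul_one] at h1
      have h3 := el2_ord_le E hH0o (Nat.succ_le_of_lt hj) a (Nat.lt_succ_self j)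
      rw [Nat.succ_eq_add_one, ← ha, h1, one_mul, hH0o j hj] at h3
      exact h3
    · refine le_trans ?_ (el2_ord_cst E _ _)
      refine el2_ord_sum _ _ _ fun i _ => ?_
      refine le_trans ?_ (el2_ord_cst E _ _)
      rw [el2_ord_taupow E, hH0o j hj]

/-- elements killed by `X^m` -/
theorem EL.exists_repr (E : EL p N s θ ζ φ j0 w τ h Xv) {q : k[X]} (hq : GoodQ p s θ q)
    {H : ℕ → L} (hH : ∀ j < p ^ s, (XL j0 w q)^[j] (H j) = 1) {m : ℕ} (hm : m ≤ p ^ s) (x : L)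
    (hx : (XL j0 w q)^[m] x = 0) :
    ∃ a : ℕ → LaurentSeries k, x = ∑ j ∈ Finset.range m, j0 (a j) * H j := by
  exact el2_repr E hq hH hm x hx

theorem EL.X_sum (E : EL p N s θ ζ φ j0 w τ h Xv) {q : k[X]} (hq : GoodQ p s θ q)
    {H : ℕ → L} (hH : ∀ j < p ^ s, (XL j0 w q)^[j] (H j) = 1) {m : ℕ} (hm : m ≤ p ^ s)
    (a : ℕ → LaurentSeries k) :
    (XL j0 w q)^[m] (∑ j ∈ Finset.range m, j0 (a j) * H j) = 0 := by
  rw [el2_iter_sum]
  refine Finset.sum_eq_zero fun j hj => ?_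
  have hj' := Finset.mem_range.1 hj
  rw [el2_iter_mul E, el2_iter_H E hq (hH j (by omega)) hj', mul_zero]

/-- the order of a sum is the minimum of the orders of its terms -/
theorem EL.ord_le (E : EL p N s θ ζ φ j0 w τ h Xv) {H : ℕ → L}
    (hH : ∀ j < p ^ s, (φ (H j)).orderTop = ((-Xv j : ℚ) : WithTop ℚ)) {m : ℕ} (hm : m ≤ p ^ s)
    (a : ℕ → LaurentSeries k) {j : ℕ} (hj : j < m) :
    (φ (∑ j ∈ Finset.range m, j0 (a j) * H j)).orderTop ≤ (φ (j0 (a j) * H j)).orderTop := by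
  exact el2_ord_le E hH hm a hj

end

end Pool.Agent.WG
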