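import Pool.Agent.WG.TL
import Pool.Agent.WG.EL2

/-! # The basis of the tuning module over `L_c` (piece WG-TL2) -/

namespace Pool.Agent.WG

open Polynomial Pool.Agent.WD

noncomputable section

universe u v

variable {p N s θ : ℕ} [Fact p.Prime] {k : Type u} [Field k] [CharP k p] {ζ : kˣ}
  {L : Type v} [Field L] {φ : L →+* Om k} {j0 : LaurentSeries k →+* L} {w τ : L ≃+* L}
  {h : ℕ → L} {Xv : ℕ → ℚ} {d n : ℕ} {q : k[X]}
  {A Γ : Matrix (Fin d) (Fin d) k} {m : Fin n → ℕ}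
  {E : Module.Basis (Ix n m) k (Fin d → k)} {r : Ix n m → ℕ}

omit [Fact p.Prime] [CharP k p] in
private theorem TL2_X_add (q : k[X]) (x y : L) :
    XL j0 w q (x + y) = XL j0 w q x + XL j0 w q y := opQ_map_add q x y

omit [Fact p.Prime] [CharP k p] in
private theorem TL2_zero (q : k[X]) : XL j0 w q 0 = 0 := by
  have h := TL2_X_add (j0 := j0) (w := w) q 0 0
  rw [add_zero] at h
  exact left_eq_add.1 h

omit [Fact p.Prime] [CharP k p] in
private theorem TL2_iter_zero (q : k[X]) (n : ℕ) : (XL j0 w q)^[n] 0 = 0 := by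
  induction n with
  | zero => rfl
  | succ n ih => rw [Function.iterate_succ_apply, TL2_zero, ih]

omit [Fact p.Prime] [CharP k p] in
private theorem TL2_iter_add (q : k[X]) (n : ℕ) (x y : L) :
    (XL j0 w q)^[n] (x + y) = (XL j0 w q)^[n] x + (XL j0 w q)^[n] y := by
  induction n generalizing x y with
  | zero => rfl
  | succ n ih =>
    rw [Function.iterate_succ_apply, Function.iterate_succ_apply, Function.iterate_succ_apply,
      ← ih, TL2_X_add]

omit [Fact p.Prime] [CharP k p] in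
private theorem TL2_iter_sum {ι : Type*} (q : k[X]) (n : ℕ) (S : Finset ι) (u : ι → L) :
    (XL j0 w q)^[n] (∑ j ∈ S, u j) = ∑ j ∈ S, (XL j0 w q)^[n] (u j) := by
  classical
  induction S using Finset.induction_on with
  | empty => rw [Finset.sum_empty, Finset.sum_empty, TL2_iter_zero]
  | insert a S ha ih => rw [Finset.sum_insert ha, Finset.sum_insert ha, TL2_iter_add, ih]

private theorem TL2_iter_mul (D : EL p N s θ ζ φ j0 w τ h Xv) (q : k[X]) (n : ℕ)
    (a : LaurentSeries k) (x : L) :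
    (XL j0 w q)^[n] (j0 a * x) = j0 a * (XL j0 w q)^[n] x := by
  induction n generalizing x with
  | zero => rfl
  | succ n ih => rw [Function.iterate_succ_apply, Function.iterate_succ_apply, D.X_mul, ih]

private theorem TL2_tau_cst (D : EL p N s θ ζ φ j0 w τ h Xv) (a : k) :
    τ (cst0 j0 a) = cst0 j0 a := by
  change τ (j0 (HahnSeries.C a)) = j0 (HahnSeries.C a)
  rw [D.τj]
  congr 1
  change rot ζ (HahnSeries.single 0 a) = HahnSeries.single 0 a
  rw [rot_single]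
  simp

private theorem TL2_iter_tau (D : EL p N s θ ζ φ j0 w τ h Xv) (hq : GoodQ p s θ q)
    (i : ℕ) (x : L) :
    (XL j0 w q)^[i] (τ x) = cst0 j0 ((θ : k) ^ i) * τ ((XL j0 w q)^[i] x) := by
  induction i generalizing x with
  | zero => simp
  | succ i ih =>
    rw [Function.iterate_succ_apply, Function.iterate_succ_apply, D.X_tau hq]
    have h1 := TL2_iter_mul D q i (HahnSeries.C (θ : k)) (τ (XL j0 w q x))
    have h2 : j0 (HahnSeries.C (θ : k)) = cst0 j0 (θ : k) := rfl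
    rw [h2] at h1
    rw [h1, ih, pow_succ', map_mul, mul_assoc]

/-- the two forms of the eigenvalue condition -/
private theorem TL2_tau_iff (D : EL p N s θ ζ φ j0 w τ h Xv) (c : kˣ) (y : L) :
    τ⁻¹ y = cst0 j0 ((c⁻¹ : kˣ) : k) * y ↔ τ y = cst0 j0 (c : k) * y := by
  have h1 : ∀ z, τ (τ⁻¹ z) = z := fun z => by
    rw [← RingAut.mul_apply, mul_inv_cancel]
    rfl
  have h2 : ∀ z, τ⁻¹ (τ z) = z := fun z => by
    rw [← RingAut.mul_apply, inv_mul_cancel]
    rfl
  have h3 : cst0 j0 (c : k) * cst0 j0 ((c⁻¹ : kˣ) : k) = 1 := by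
    rw [← map_mul, Units.mul_inv, map_one]
  have h4 : cst0 j0 ((c⁻¹ : kˣ) : k) * cst0 j0 (c : k) = 1 := by
    rw [mul_comm, h3]
  constructor
  · intro h
    have h5 := congrArg τ h
    rw [h1, map_mul, TL2_tau_cst D] at h5
    calc τ y = (cst0 j0 (c : k) * cst0 j0 ((c⁻¹ : kˣ) : k)) * τ y := by rw [h3, one_mul]
      _ = cst0 j0 (c : k) * y := by rw [mul_assoc, ← h5]
  · intro h
    have h5 : τ (cst0 j0 ((c⁻¹ : kˣ) : k) * y) = y := by
      rw [map_mul, TL2_tau_cst D, h, ← mul_assoc, h4, one_mul]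
    conv_lhs => rw [← h5]
    exact h2 _

/-- the elements `H_j` are linearly independent -/
private theorem TL2_indep (D : EL p N s θ ζ φ j0 w τ h Xv) {H : ℕ → L}
    (hH : ∀ j < p ^ s, (φ (H j)).orderTop = ((-Xv j : ℚ) : WithTop ℚ)) {M : ℕ}
    (hM : M ≤ p ^ s) (a : ℕ → LaurentSeries k)
    (h0 : ∑ j ∈ Finset.range M, j0 (a j) * H j = 0) (j : ℕ) (hj : j < M) : a j = 0 := by
  have h1 := D.ord_le hH hM a hj
  rw [h0, map_zero, HahnSeries.orderTop_zero, top_le_iff, HahnSeries.orderTop_eq_top] at h1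
  have h2 : j0 (a j) * H j = 0 := φ.injective (by rw [h1, map_zero])
  rcases mul_eq_zero.1 h2 with h3 | h3
  · exact j0.injective (by rw [h3, map_zero])
  · have h4 := hH j (lt_of_lt_of_le hj hM)
    rw [h3, map_zero, HahnSeries.orderTop_zero] at h4
    exact absurd h4.symm (WithTop.coe_ne_top)

/-- integral Laurent series in a residue class -/
private theorem TL2_series [NeZero N] (hζ : IsPrimitiveRoot ζ N) {x : ℚ} (hx : 0 ≤ x) {r : ℕ}
    (hr : r < N) (a : LaurentSeries k) (h1 : rot ζ a = HahnSeries.C ((ζ ^ r : kˣ) : k) * a)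
    (h2 : ∀ z : ℤ, a.coeff z ≠ 0 → x ≤ z) :
    ∃ u : PowerSeries k, a = HahnSeries.single ((clN N x r : ℕ) : ℤ) 1 *
      subN k N (u : LaurentSeries k) := by
  obtain ⟨y, hy⟩ := rot_eigen N ζ hζ (r : ℤ) a (by rw [h1, zpow_natCast])
  refine ⟨PowerSeries.mk fun l => a.coeff (((clN N x r : ℕ) : ℤ) + N * l), ?_⟩
  ext z
  rw [HahnSeries.coeff_single_mul, one_mul]
  have h3 : a.coeff z ≠ 0 → ∃ l : ℕ, z = clN N x r + N * l := by
    intro hz
    refine exists_of_le_clN hx hr (h2 z hz) ?_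
    by_contra hcon
    apply hz
    rw [hy, HahnSeries.coeff_single_mul, one_mul, subN_coeff_not N _ _ hcon]
  by_cases hd : (N : ℤ) ∣ z - ((clN N x r : ℕ) : ℤ)
  · obtain ⟨i, hi⟩ := hd
    rw [hi, subN_coeff_mul]
    by_cases hi0 : 0 ≤ i
    · obtain ⟨l, rfl⟩ := Int.eq_ofNat_of_zero_le hi0
      have h4 : (HahnSeries.ofPowerSeries ℤ k (PowerSeries.mk fun l : ℕ =>
          a.coeff (((clN N x r : ℕ) : ℤ) + N * l))).coeff (l : ℤ) =
          a.coeff (((clN N x r : ℕ) : ℤ) + N * l) := by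
        rw [HahnSeries.ofPowerSeries_apply_coeff, PowerSeries.coeff_mk]
      refine Eq.trans ?_ h4.symm
      congr 1
      have : z = ((clN N x r : ℕ) : ℤ) + N * (l : ℤ) := by linarith
      exact this
    · have h4 : (HahnSeries.ofPowerSeries ℤ k (PowerSeries.mk fun l : ℕ =>
          a.coeff (((clN N x r : ℕ) : ℤ) + N * l))).coeff i = 0 := by
        rw [HahnSeries.ofPowerSeries_apply]
        apply HahnSeries.embDomain_of_notMem_range
        rintro ⟨l, hl⟩
        apply hi0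
        rw [← hl]
        exact Int.natCast_nonneg l
      refine Eq.trans ?_ h4.symm
      by_contra hz
      obtain ⟨l, hl⟩ := h3 hz
      have hN : (0 : ℤ) < N := by exact_mod_cast Nat.pos_of_ne_zero (NeZero.ne N)
      have h5 : (N : ℤ) * i = N * l := by linarith
      have h6 : i = l := mul_left_cancel₀ hN.ne' h5
      exact hi0 (h6 ▸ Int.natCast_nonneg l)
  · rw [subN_coeff_not N _ _ hd]
    by_contra hz
    obtain ⟨l, hl⟩ := h3 hz
    exact hd ⟨l, by rw [hl]; ring⟩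

/-- the relation between the eigenvalues in a block -/
private theorem TL2_rel1 (hq : GoodQ p s θ q) (hA : A ^ (p ^ s) = 1) (hrel : A * Γ = Γ * A ^ θ)
    (J : JD p N s ζ q A Γ m E r) (b b' : Ix n m) (hb : b.1 = b'.1)
    (hb2 : (b.2 : ℕ) = (b'.2 : ℕ) + 1) :
    ((ζ ^ r b' : kˣ) : k) = (θ : k) * ((ζ ^ r b : kˣ) : k) := by
  have h1 : (aeval A q * Γ).mulVec (E b) = ((θ : k) • (Γ * aeval A q)).mulVec (E b) := by
    rw [aeval_rel hq hA hrel]
  rw [← Matrix.mulVec_mulVec, Matrix.smul_mulVec, ← Matrix.mulVec_mulVec, J.hX b b' hb hb2,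
    J.hΓ b, J.hΓ b', Units.smul_def, Units.smul_def, Matrix.mulVec_smul, J.hX b b' hb hb2,
    smul_smul] at h1
  have h2 : (((ζ ^ r b)⁻¹ : kˣ) : k) = (θ : k) * (((ζ ^ r b')⁻¹ : kˣ) : k) := by
    have h3 : ((((ζ ^ r b)⁻¹ : kˣ) : k) - (θ : k) * (((ζ ^ r b')⁻¹ : kˣ) : k)) • E b' = 0 := by
      rw [sub_smul, h1, sub_self]
    rcases smul_eq_zero.1 h3 with h4 | h4
    · exact sub_eq_zero.1 h4
    · exact absurd h4 (E.ne_zero b')
  have h5 : ((ζ ^ r b : kˣ) : k) * (((ζ ^ r b)⁻¹ : kˣ) : k) = 1 := Units.mul_inv _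
  have h6 : ((ζ ^ r b' : kˣ) : k) * (((ζ ^ r b')⁻¹ : kˣ) : k) = 1 := Units.mul_inv _
  calc ((ζ ^ r b' : kˣ) : k) = ((ζ ^ r b' : kˣ) : k) *
        (((ζ ^ r b : kˣ) : k) * (((ζ ^ r b)⁻¹ : kˣ) : k)) := by rw [h5, mul_one]
    _ = (θ : k) * ((ζ ^ r b : kˣ) : k) *
        (((ζ ^ r b' : kˣ) : k) * (((ζ ^ r b')⁻¹ : kˣ) : k)) := by rw [h2]; ring
    _ = _ := by rw [h6, mul_one]

private theorem TL2_rel (hq : GoodQ p s θ q) (hA : A ^ (p ^ s) = 1) (hrel : A * Γ = Γ * A ^ θ)
    (J : JD p N s ζ q A Γ m E r) (B : Fin n) (e i : ℕ) (hi : i < m B) (he : i + e < m B) :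
    ((ζ ^ r ⟨B, ⟨i, hi⟩⟩ : kˣ) : k) = (θ : k) ^ e * ((ζ ^ r ⟨B, ⟨i + e, he⟩⟩ : kˣ) : k) := by
  induction e with
  | zero => simp
  | succ e ih =>
    rw [ih (by omega), TL2_rel1 hq hA hrel J (⟨B, ⟨i + (e + 1), he⟩⟩ : Ix n m)
      (⟨B, ⟨i + e, by omega⟩⟩ : Ix n m) rfl rfl, pow_succ]
    ring

/-- coordinates are unique -/
private theorem TL2_inj (E : Module.Basis (Ix n m) k (Fin d → k)) {y y' : Ix n m → L}
    (hy : ∀ a, ∑ b, cst0 j0 (E b a) * y b = ∑ b, cst0 j0 (E b a) * y' b) : y = y' := by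
  obtain ⟨y0, -, h2⟩ := JD.exists_coord E (cst0 j0) fun a => ∑ b, cst0 j0 (E b a) * y' b
  rw [h2 y fun a => (hy a).symm, h2 y' fun a => rfl]

/-- The basis: `ξ_{B,j}` has the coordinates `y_{B,i} = X^i (T^A H_j)`, `A = clN N (X_j) r_{B,j}`
(and `0` in the other blocks). It is triangular with the diagonal entries `T^A`. -/
theorem exists_basisL [NeZero N] (D : EL p N s θ ζ φ j0 w τ h Xv) (hN : ¬ p ∣ N)
    (hζ : IsPrimitiveRoot ζ N) (hθk : (θ : k) ^ N = 1) (hX0 : ∀ j, 0 ≤ Xv j)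
    (hq : GoodQ p s θ q) (hA : A ^ (p ^ s) = 1) (hrel : A * Γ = Γ * A ^ θ)
    (J : JD p N s ζ q A Γ m E r) :
    ∃ ξ : Ix n m → Ix n m → L,
      (∀ b, TunL φ j0 w τ A Γ fun a => ∑ b', cst0 j0 (E b' a) * ξ b b') ∧
      (∀ b b' : Ix n m, b.1 ≠ b'.1 ∨ (b.2 : ℕ) < b'.2 → ξ b b' = 0) ∧
      (∀ b, ξ b b = j0 (HahnSeries.single ((clN N (Xv b.2) (r b) : ℕ) : ℤ) 1)) ∧
      ∀ x : Fin d → L, TunL φ j0 w τ A Γ x →
        ∃! u : Ix n m → PowerSeries k, ∀ a, x a = ∑ b, j0 (subN k N (u b : LaurentSeries k)) *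
          ∑ b', cst0 j0 (E b' a) * ξ b b' := by
  classical
  obtain ⟨H, hH1, hHτ, hHo⟩ := D.exists_H hN hθk hq
  have hlt : ∀ b : Ix n m, (b.2 : ℕ) < p ^ s := fun b => lt_of_lt_of_le b.2.2 (J.hm _)
  have hθ0 : (θ : k) ≠ 0 := by
    intro h0
    rw [h0, zero_pow (NeZero.ne N)] at hθk
    exact zero_ne_one hθk
  -- the elements `X^i(c H_j)` with `i > j`
  have hkill : ∀ (j i : ℕ), j < i → i ≤ p ^ s → ∀ a : LaurentSeries k,
      (XL j0 w q)^[i] (j0 a * H j) = 0 := by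
    intro j i hji hi a
    have h1 := D.X_sum hq hH1 hi (fun l => if l = j then a else 0)
    rw [Finset.sum_eq_single j] at h1
    · simpa using h1
    · intro l _ hl
      simp [hl]
    · intro hj
      exact absurd (Finset.mem_range.2 hji) hj
  set P : Ix n m → L := fun b =>
    j0 (HahnSeries.single ((clN N (Xv b.2) (r b) : ℕ) : ℤ) 1) * H b.2 with hP
  set ξ : Ix n m → Ix n m → L := fun b b' =>
    if b.1 = b'.1 then (XL j0 w q)^[(b'.2 : ℕ)] (P b) else 0 with hξ
  have hξ0 : ∀ b b' : Ix n m, b.1 ≠ b'.1 ∨ (b.2 : ℕ) < b'.2 → ξ b b' = 0 := by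
    intro b b' hbb
    simp only [hξ]
    split_ifs with hB
    · rcases hbb with h1 | h1
      · exact absurd hB h1
      · exact hkill _ _ h1 (hlt b').le _
    · rfl
  have hξd : ∀ b, ξ b b = j0 (HahnSeries.single ((clN N (Xv b.2) (r b) : ℕ) : ℤ) 1) := by
    intro b
    simp only [hξ, hP, if_true]
    rw [TL2_iter_mul D, hH1 _ (hlt b), mul_one]
  -- the order of `P b`
  have hPo : ∀ b, 0 ≤ (φ (P b)).orderTop := by
    intro b
    simp only [hP]
    rw [map_mul, HahnSeries.orderTop_mul, hHo _ (hlt b), D.φj]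
    have h1 : ((clN N (Xv b.2) (r b) : ℕ) : ℚ) ≤
        (toOm k (HahnSeries.single ((clN N (Xv b.2) (r b) : ℕ) : ℤ) 1)).orderTop := by
      have h2 : toOm k (HahnSeries.single ((clN N (Xv b.2) (r b) : ℕ) : ℤ) 1) =
          HahnSeries.single (((clN N (Xv b.2) (r b) : ℕ) : ℤ) : ℚ) 1 := by
        change HahnSeries.embDomain _ _ = _
        rw [HahnSeries.embDomain_single]
        rfl
      rw [h2]
      have h3 := HahnSeries.orderTop_single_le (R := k)
        (a := ((((clN N (Xv b.2) (r b) : ℕ) : ℤ)) : ℚ)) (r := (1 : k))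
      rw [Int.cast_natCast] at h3 ⊢
      exact h3
    have h2 : (0 : WithTop ℚ) ≤ (((clN N (Xv b.2) (r b) : ℕ) : ℚ) : WithTop ℚ) +
        ((-Xv b.2 : ℚ) : WithTop ℚ) := by
      rw [← WithTop.coe_add, ← WithTop.coe_zero, WithTop.coe_le_coe]
      have := le_clN (N := N) (Xv b.2) (r b)
      linarith
    exact h2.trans (add_le_add_left h1 _)
  have hiterO : ∀ (i : ℕ) (x : L), (φ x).orderTop ≤ (φ ((XL j0 w q)^[i] x)).orderTop := by
    intro i
    induction i with
    | zero => exact fun x => le_rfl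
    | succ i ih =>
      intro x
      rw [Function.iterate_succ_apply]
      exact (D.ordX q x).trans (ih _)
  have hζN : ζ ^ N = 1 := hζ.pow_eq_one
  -- the action of `τ` on `P b`
  have hPτ : ∀ b, τ (P b) = cst0 j0 (((ζ ^ r b : kˣ) : k) * (θ : k) ^ (b.2 : ℕ)) * P b := by
    intro b
    simp only [hP]
    rw [map_mul, D.τj, hHτ _ (hlt b), rot_single, zpow_natCast]
    have h1 : ζ ^ clN N (Xv b.2) (r b) = ζ ^ r b := by
      unfold clN
      rw [pow_add, pow_mul, hζN, one_pow, mul_one]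
    rw [h1, mul_one, map_mul]
    have h2 : j0 (HahnSeries.single ((clN N (Xv b.2) (r b) : ℕ) : ℤ) ((ζ ^ r b : kˣ) : k)) =
        cst0 j0 ((ζ ^ r b : kˣ) : k) *
          j0 (HahnSeries.single ((clN N (Xv b.2) (r b) : ℕ) : ℤ) 1) := by
      change _ = j0 (HahnSeries.C _) * _
      rw [← map_mul, HahnSeries.C_apply, HahnSeries.single_mul_single, zero_add, mul_one]
    rw [h2]
    ring
  have hτξ : ∀ b b' : Ix n m, τ (ξ b b') = cst0 j0 ((ζ ^ r b' : kˣ) : k) * ξ b b' := by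
    intro b b'
    by_cases hbb : b.1 ≠ b'.1 ∨ (b.2 : ℕ) < b'.2
    · rw [hξ0 b b' hbb, map_zero, mul_zero]
    · push Not at hbb
      obtain ⟨hB, hle⟩ := hbb
      have h1 : ξ b b' = (XL j0 w q)^[(b'.2 : ℕ)] (P b) := by
        simp only [hξ, hB, if_true]
      rw [h1]
      have h2 := TL2_iter_tau D hq (b'.2 : ℕ) (P b)
      have h3 := TL2_iter_mul D q (b'.2 : ℕ)
        (HahnSeries.C (((ζ ^ r b : kˣ) : k) * (θ : k) ^ (b.2 : ℕ))) (P b)
      have h4 : j0 (HahnSeries.C (((ζ ^ r b : kˣ) : k) * (θ : k) ^ (b.2 : ℕ))) =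
        cst0 j0 (((ζ ^ r b : kˣ) : k) * (θ : k) ^ (b.2 : ℕ)) := rfl
      rw [h4] at h3
      rw [hPτ, h3] at h2
      obtain ⟨B, j, hj⟩ := b
      obtain ⟨B', i, hi⟩ := b'
      obtain rfl : B = B' := hB
      have h5 : ((ζ ^ r ⟨B, ⟨i, hi⟩⟩ : kˣ) : k) =
          (θ : k) ^ (j - i) * ((ζ ^ r ⟨B, ⟨j, hj⟩⟩ : kˣ) : k) := by
        have hle' : i ≤ j := hle
        have h6 := TL2_rel hq hA hrel J B (j - i) i hi (by omega)
        have h7 : i + (j - i) = j := by omega
        simp only [h7] at h6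
        exact h6
      have h6 : cst0 j0 ((θ : k) ^ i) ≠ 0 := by
        rw [_root_.map_ne_zero]
        exact pow_ne_zero _ hθ0
      apply mul_left_cancel₀ h6
      change cst0 j0 ((θ : k) ^ i) * τ ((XL j0 w q)^[i] (P ⟨B, ⟨j, hj⟩⟩)) =
        cst0 j0 ((θ : k) ^ i) * (cst0 j0 ((ζ ^ r ⟨B, ⟨i, hi⟩⟩ : kˣ) : k) *
          (XL j0 w q)^[i] (P ⟨B, ⟨j, hj⟩⟩))
      have h2' : cst0 j0 (((ζ ^ r ⟨B, ⟨j, hj⟩⟩ : kˣ) : k) * (θ : k) ^ j) *
          (XL j0 w q)^[i] (P ⟨B, ⟨j, hj⟩⟩) =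
          cst0 j0 ((θ : k) ^ i) * τ ((XL j0 w q)^[i] (P ⟨B, ⟨j, hj⟩⟩)) := h2
      rw [← h2', h5, ← mul_assoc, ← map_mul]
      congr 2
      have hle' : i ≤ j := hle
      have h7 : (θ : k) ^ j = (θ : k) ^ i * (θ : k) ^ (j - i) := by
        rw [← pow_add]
        congr 1
        omega
      rw [h7]
      ring
  refine ⟨ξ, fun b => ?_, hξ0, hξd, ?_⟩
  · -- the elements of the basis are in the module
    rw [tunL_iff D hq hA J]
    refine ⟨fun b' => ?_, fun b' => ?_, fun b' => ?_⟩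
    · by_cases hB : b.1 = b'.1
      · simp only [hξ, hB, if_true]
        exact (hPo b).trans (hiterO _ _)
      · rw [hξ0 b b' (Or.inl hB), map_zero, HahnSeries.orderTop_zero]
        exact le_top
    · by_cases hB : b.1 = b'.1
      · have h1 : ξ b b' = (XL j0 w q)^[(b'.2 : ℕ)] (P b) := by
          simp only [hξ, hB, if_true]
        have h1' : XL j0 w q ((XL j0 w q)^[(b'.2 : ℕ)] (P b)) =
            (XL j0 w q)^[(b'.2 : ℕ) + 1] (P b) :=
          (Function.iterate_succ_apply' (XL j0 w q) _ _).symm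
        rw [h1, h1']
        split_ifs with h2
        · have h3 : ξ b ⟨b'.1, ⟨(b'.2 : ℕ) + 1, h2⟩⟩ =
              (XL j0 w q)^[(b'.2 : ℕ) + 1] (P b) := by
            simp only [hξ, hB, if_true]
          rw [h3]
        · have h3 := b'.2.2
          have h4 := b.2.2
          have h5 : m b.1 = m b'.1 := by rw [hB]
          have h6 := J.hm b'.1
          exact hkill _ _ (by omega) (by omega) _
      · rw [hξ0 b b' (Or.inl hB), TL2_zero]
        split_ifs with h2
        · exact (hξ0 b ⟨b'.1, ⟨(b'.2 : ℕ) + 1, h2⟩⟩ (Or.inl hB)).symm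
        · rfl
    · rw [TL2_tau_iff D]
      exact hτξ b b'
  · intro x hx
    obtain ⟨y, hy, hyu⟩ := JD.exists_coord E (cst0 j0) x
    have hx' : x = fun a => ∑ b, cst0 j0 (E b a) * y b := funext hy
    rw [hx', tunL_iff D hq hA J] at hx
    obtain ⟨hy1, hy2, hy3⟩ := hx
    -- the coordinates in a block
    have hyi : ∀ (B : Fin n) (h0 : 0 < m B) (i : ℕ) (hi : i < m B),
        y ⟨B, ⟨i, hi⟩⟩ = (XL j0 w q)^[i] (y ⟨B, ⟨0, h0⟩⟩) := by
      intro B h0 i
      induction i with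
      | zero => intro _; rfl
      | succ i ih =>
        intro hi
        have h1 := hy2 ⟨B, ⟨i, by omega⟩⟩
        rw [dif_pos (show ((⟨B, ⟨i, by omega⟩⟩ : Ix n m).2 : ℕ) + 1 <
          m (⟨B, ⟨i, by omega⟩⟩ : Ix n m).1 from hi)] at h1
        rw [Function.iterate_succ_apply', ← ih (by omega)]
        exact h1.symm
    have key : ∀ B : Fin n, ∃ u : Fin (m B) → PowerSeries k, ∀ i : Fin (m B),
        y ⟨B, i⟩ = ∑ j : Fin (m B), j0 (subN k N (u j : LaurentSeries k)) *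
          ξ ⟨B, j⟩ ⟨B, i⟩ := by
      intro B
      rcases Nat.eq_zero_or_pos (m B) with h0 | h0
      · refine ⟨fun _ => 0, fun i => ?_⟩
        exact absurd i.2 (by omega)
      have h1 : (XL j0 w q)^[m B] (y ⟨B, ⟨0, h0⟩⟩) = 0 := by
        have h2 := hy2 ⟨B, ⟨m B - 1, by omega⟩⟩
        rw [dif_neg (by
          change ¬ (m B - 1 + 1 < m B)
          omega), hyi B h0] at h2
        have h2' := (Function.iterate_succ_apply' (XL j0 w q) (m B - 1)
          (y ⟨B, ⟨0, h0⟩⟩)).trans h2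
        have h3 : (m B - 1).succ = m B := by omega
        rwa [h3] at h2'
      obtain ⟨a, ha⟩ := D.exists_repr hq hH1 (J.hm B) _ h1
      -- the action of `τ`
      have h2 : ∀ j (hj : j < m B),
          rot ζ (a j) = HahnSeries.C ((ζ ^ r ⟨B, ⟨j, hj⟩⟩ : kˣ) : k) * a j := by
        have h3 := (TL2_tau_iff D (ζ ^ r ⟨B, ⟨0, h0⟩⟩) _).1 (hy3 ⟨B, ⟨0, h0⟩⟩)
        have h4 : ∑ j ∈ Finset.range (m B), j0 (HahnSeries.C ((θ : k) ^ j) * rot ζ (a j) -
            HahnSeries.C ((ζ ^ r ⟨B, ⟨0, h0⟩⟩ : kˣ) : k) * a j) * H j = 0 := by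
          have h5 : ∑ j ∈ Finset.range (m B), j0 (HahnSeries.C ((θ : k) ^ j) * rot ζ (a j) -
            HahnSeries.C ((ζ ^ r ⟨B, ⟨0, h0⟩⟩ : kˣ) : k) * a j) * H j =
            τ (∑ j ∈ Finset.range (m B), j0 (a j) * H j) -
            cst0 j0 ((ζ ^ r ⟨B, ⟨0, h0⟩⟩ : kˣ) : k) *
              ∑ j ∈ Finset.range (m B), j0 (a j) * H j := by
            rw [map_sum, Finset.mul_sum, ← Finset.sum_sub_distrib]
            refine Finset.sum_congr rfl fun j hj => ?_
            have hj' : j < p ^ s := lt_of_lt_of_le (Finset.mem_range.1 hj) (J.hm B)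
            rw [map_mul, D.τj, hHτ j hj', map_sub, map_mul, map_mul]
            change (cst0 j0 ((θ : k) ^ j) * _ - cst0 j0 _ * _) * _ = _
            ring
          rw [h5, ← ha, h3, sub_self]
        intro j hj
        have h6 := TL2_indep D hHo (J.hm B) _ h4 j hj
        have h7 := TL2_rel hq hA hrel J B j 0 h0 (by omega)
        simp only [zero_add] at h7
        rw [h7, map_mul, sub_eq_zero] at h6
        have h8 : (HahnSeries.C ((θ : k) ^ j) : LaurentSeries k) ≠ 0 := by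
          rw [_root_.map_ne_zero]
          exact pow_ne_zero _ hθ0
        apply mul_left_cancel₀ h8
        rw [h6, mul_assoc]
      have h3 : ∀ j (hj : j < m B), ∃ u : PowerSeries k,
          a j = HahnSeries.single ((clN N (Xv j) (r ⟨B, ⟨j, hj⟩⟩) : ℕ) : ℤ) 1 *
            subN k N (u : LaurentSeries k) := by
        intro j hj
        refine TL2_series hζ (hX0 j) (J.hr _) (a j) (h2 j hj) ?_
        intro z hz
        have hj' : j < p ^ s := lt_of_lt_of_le hj (J.hm B)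
        have h4 := D.ord_le hHo (J.hm B) a hj
        rw [← ha, map_mul, HahnSeries.orderTop_mul, hHo j hj', D.φj] at h4
        have h5 : (toOm k (a j)).orderTop ≤ ((z : ℚ) : WithTop ℚ) := by
          apply HahnSeries.orderTop_le_of_coeff_ne_zero
          rw [toOm_coeff_int]
          exact hz
        have h6 := (hy1 ⟨B, ⟨0, h0⟩⟩).trans (h4.trans (add_le_add_left h5 _))
        rw [← WithTop.coe_add, ← WithTop.coe_zero, WithTop.coe_le_coe] at h6
        linarith
      choose u hu using h3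
      refine ⟨fun j => u j j.2, fun i => ?_⟩
      obtain ⟨i, hi⟩ := i
      rw [hyi B h0 i hi, ha, Finset.sum_range, TL2_iter_sum]
      refine Finset.sum_congr rfl fun j _ => ?_
      have h5 : ξ ⟨B, j⟩ ⟨B, ⟨i, hi⟩⟩ = (XL j0 w q)^[i] (P ⟨B, j⟩) := by
        simp only [hξ, if_true]
      rw [h5, ← TL2_iter_mul D]
      congr 1
      simp only [hP]
      rw [← mul_assoc, ← map_mul]
      congr 2
      rw [hu j j.2, mul_comm]
    choose u hu using key
    have hsum : ∀ (v : Ix n m → PowerSeries k) (a : Fin d),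
        ∑ b, j0 (subN k N (v b : LaurentSeries k)) * ∑ b', cst0 j0 (E b' a) * ξ b b' =
        ∑ b', cst0 j0 (E b' a) * ∑ b, j0 (subN k N (v b : LaurentSeries k)) * ξ b b' := by
      intro v a
      simp_rw [Finset.mul_sum]
      rw [Finset.sum_comm]
      refine Finset.sum_congr rfl fun b' _ => Finset.sum_congr rfl fun b _ => ?_
      ring
    have hblock : ∀ (v : Ix n m → PowerSeries k) (B : Fin n) (i : Fin (m B)),
        ∑ b, j0 (subN k N (v b : LaurentSeries k)) * ξ b ⟨B, i⟩ =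
        ∑ j : Fin (m B), j0 (subN k N (v ⟨B, j⟩ : LaurentSeries k)) * ξ ⟨B, j⟩ ⟨B, i⟩ := by
      intro v B i
      rw [Fintype.sum_sigma, Finset.sum_eq_single B]
      · intro B' _ hB'
        refine Finset.sum_eq_zero fun j _ => ?_
        rw [hξ0 _ _ (Or.inl hB'), mul_zero]
      · intro hB
        exact absurd (Finset.mem_univ _) hB
    refine ⟨fun b => u b.1 b.2, fun a => ?_, fun v hv => ?_⟩
    · rw [hsum, hy]
      refine Finset.sum_congr rfl fun b' _ => ?_
      obtain ⟨B, i⟩ := b'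
      rw [hblock (fun b => u b.1 b.2) B i, hu B i]
    · have h1 : (fun b' => ∑ b, j0 (subN k N (v b : LaurentSeries k)) * ξ b b') = y := by
        apply TL2_inj (j0 := j0) E
        intro a
        rw [← hy a, hv a, hsum]
      funext b
      obtain ⟨B, j⟩ := b
      have h0 : 0 < m B := Nat.lt_of_le_of_lt (Nat.zero_le _) j.2
      have h2 := congrFun h1 ⟨B, ⟨0, h0⟩⟩
      rw [hblock v B ⟨0, h0⟩, hu B ⟨0, h0⟩] at h2
      set c : ℕ → LaurentSeries k := fun l => if hl : l < m B then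
        subN k N ((v ⟨B, ⟨l, hl⟩⟩ : LaurentSeries k) - (u B ⟨l, hl⟩ : LaurentSeries k)) *
          HahnSeries.single ((clN N (Xv l) (r ⟨B, ⟨l, hl⟩⟩) : ℕ) : ℤ) 1 else 0 with hc
      have h3 : ∑ l ∈ Finset.range (m B), j0 (c l) * H l = 0 := by
        rw [Finset.sum_range]
        rw [← sub_eq_zero, ← Finset.sum_sub_distrib] at h2
        rw [← h2]
        refine Finset.sum_congr rfl fun l _ => ?_
        simp only [hc, l.2, dif_pos, hξ, hP, if_true, Function.iterate_zero, id_eq, Fin.eta]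
        rw [map_mul, map_sub, map_sub]
        ring
      have h4 := TL2_indep D hHo (J.hm B) c h3 j j.2
      simp only [hc, j.2, dif_pos, Fin.eta] at h4
      rcases mul_eq_zero.1 h4 with h5 | h5
      · have h6 : (v ⟨B, j⟩ : LaurentSeries k) - (u B j : LaurentSeries k) = 0 :=
          (subN k N).injective (by rw [h5, map_zero])
        exact HahnSeries.ofPowerSeries_injective (sub_eq_zero.1 h6)
      · exact absurd h5 (HahnSeries.single_ne_zero one_ne_zero)

end

end Pool.Agent.WG
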