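import Pool.Agent.WG.Typ3
import Pool.Agent.WG.TL2

/-! # The tuning module of a torsor (piece WG-U1) -/

namespace Pool.Agent.WG

open Polynomial Pool.Agent.WD Pool.Agent.WC

noncomputable section

universe u v

variable {p : ℕ} [Fact p.Prime] {k : Type u} [Field k] [IsAlgClosed k] [CharP k p] {s : ℕ}
  {G : Type v} [Group G] {N κ θ : ℕ} [NeZero N] {ζ : kˣ} {γ g : G} {d n : ℕ}
  {ρ : G →* Matrix (Fin d) (Fin d) k} {c : Par p s k} {q : k[X]} {m : Fin n → ℕ}
  {E : Module.Basis (Ix n m) k (Fin d → k)} {r : Ix n m → ℕ}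

/-- `N v(c) = ∑_b (least number ≥ X_b, ≡ r_b)` -/
def vc (N : ℕ) (c : Par p s k) {n : ℕ} {m : Fin n → ℕ} (r : Ix n m → ℕ) : ℕ :=
  ∑ b : Ix n m, clN N (XvL c b.2) (r b)

section Tun_aux

variable {K : Type u} [Field K] {G₁ : Type v} [Group G₁] {L : Type u} [Field L] {cc : K →+* L}
  {σ₀ : G₁ →* Matrix (Fin d) (Fin d) K} {y : Fin d → L}

/-- `α` acts on `y` as `h⁻¹` -/
private def TunR (cc : K →+* L) (σ₀ : G₁ →* Matrix (Fin d) (Fin d) K) (y : Fin d → L)
    (α : L ≃+* L) (h : G₁) : Prop :=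
  (∀ a, α (cc a) = cc a) ∧ ∀ a, α (y a) = ∑ b, cc (σ₀ h⁻¹ a b) * y b

private theorem TunR_comb {α : L ≃+* L} {h : G₁} (H : TunR cc σ₀ y α h)
    (M : Matrix (Fin d) (Fin d) K) (a : Fin d) :
    α (∑ b, cc (M a b) * y b) = ∑ b, cc ((M * σ₀ h⁻¹) a b) * y b := by
  rw [map_sum]
  simp_rw [map_mul, H.1, H.2, Finset.mul_sum]
  rw [Finset.sum_comm]
  refine Finset.sum_congr rfl fun b _ => ?_
  rw [Matrix.mul_apply, map_sum, Finset.sum_mul]
  refine Finset.sum_congr rfl fun e _ => ?_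
  rw [map_mul, mul_assoc]

private theorem TunR_one : TunR cc σ₀ y 1 1 := by
  refine ⟨fun a => rfl, fun a => ?_⟩
  rw [inv_one, map_one]
  simp [Matrix.one_apply]

private theorem TunR_mul {α β : L ≃+* L} {h h' : G₁} (H : TunR cc σ₀ y α h)
    (H' : TunR cc σ₀ y β h') : TunR cc σ₀ y (α * β) (h * h') := by
  refine ⟨fun a => ?_, fun a => ?_⟩
  · change α (β (cc a)) = cc a
    rw [H'.1, H.1]
  · change α (β (y a)) = _
    rw [H'.2, TunR_comb H, ← map_mul, mul_inv_rev]

private theorem TunR_inv {α : L ≃+* L} {h : G₁} (H : TunR cc σ₀ y α h) :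
    TunR cc σ₀ y α⁻¹ h⁻¹ := by
  refine ⟨fun a => ?_, fun a => ?_⟩
  · have h1 : α⁻¹ (α (cc a)) = cc a := α.symm_apply_apply _
    rwa [H.1] at h1
  · apply α.injective
    have h1 : α (α⁻¹ (y a)) = y a := α.apply_symm_apply _
    rw [h1, TunR_comb H, ← map_mul, inv_inv, mul_inv_cancel, map_one]
    simp [Matrix.one_apply]

private theorem TunR_pow {α : L ≃+* L} {h : G₁} (H : TunR cc σ₀ y α h) (l : ℕ) :
    TunR cc σ₀ y (α ^ l) (h ^ l) := by
  induction l with
  | zero =>
    rw [pow_zero, pow_zero]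
    exact TunR_one
  | succ l ih =>
    rw [pow_succ, pow_succ]
    exact TunR_mul ih H

end Tun_aux

private theorem Tun_subN_C (a : k) : subN k N (HahnSeries.C a) = HahnSeries.C a := by
  change subN k N (HahnSeries.single 0 a) = HahnSeries.single 0 a
  rw [subN_single, mul_zero]

private theorem Tun_rot_C (a : k) : rot ζ (HahnSeries.C a) = HahnSeries.C a := by
  change rot ζ (HahnSeries.single 0 a) = HahnSeries.single 0 a
  rw [rot_single, zpow_zero, Units.val_one, one_mul]

/-- the images of the automorphisms of given forms -/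
private theorem Tun_hom (hζ : IsPrimitiveRoot ζ N) (hA : Adm p N ζ γ g s θ κ)
    {T : Ks k} {z : WittVector p (Ks k)} (hr : Root N c T z)
    {φ : Torsor k G} (hφ : TypeT ζ θ γ g s T z φ) {σ : GalK k} {i l : ℕ}
    (h : Form ζ θ s T z σ i l) : φ.hom σ = γ ^ i * g ^ l := by
  obtain ⟨i', l', h1, h2⟩ := hφ σ
  have hT : T ≠ 0 := by
    intro h0
    have h3 := hr.1
    rw [h0, zero_pow (NeZero.ne N)] at h3
    exact tK_ne_zero h3.symm
  obtain ⟨h3, h4⟩ := form_unique hζ hA.hθN hT h1 h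
  rw [h2]
  congr 1
  · rw [pow_eq_pow_iff_modEq]
    exact h3.of_dvd (orderOf_dvd_of_pow_eq_one hA.hγ)
  · rw [pow_eq_pow_iff_modEq, hA.hg]
    exact h4

/-- WG-U1: a vector is in the tuning module of `φ` if and only if it is the image of a vector in
the module `TunL` over `L_c`: the automorphisms which fix `ε(L_c)` are mapped to `1` by `φ`; there
are automorphisms which induce `w` and `τ` (`Emb.exists_sigma`), they are mapped to `g` and `γ`. -/
theorem tuned_iff (hN : ¬ p ∣ N) (hζ : IsPrimitiveRoot ζ N) (hA : Adm p N ζ γ g s θ κ)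
    (hv : Val N κ c) {T : Ks k} {z : WittVector p (Ks k)} (hr : Root N c T z)
    {φ : Torsor k G} (hφ : TypeT ζ θ γ g s T z φ)
    {ε : Lw c →+* Ks k} (e : Emb N c T z ε) {w τ : Lw c ≃+* Lw c} {h : ℕ → Lw c}
    (D : EL p N s θ ζ (phiL c) (j0L c) w τ h (XvL c))
    (hw : ∀ i : Fin s, ((w (zL c i) : Lw c) : Om k) = (wz c + 1).coeff i)
    (hτ : ∀ i : Fin s, ((τ (zL c i) : Lw c) : Om k) =
      (((θ : ℕ) : WittVector p (Om k)) * wz c).coeff i) (x : Fin d → Ks k) :
    Tuned ρ φ x ↔ ∃ y : Fin d → Lw c, TunL (phiL c) (j0L c) w τ (ρ g) (ρ γ) y ∧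
      ∀ a, x a = ε (y a) := by
  have hεc : ∀ a : k, ε (cst0 (j0L c) a) = cK k a := by
    intro a
    have h1 := e.εK (HahnSeries.C a)
    rw [Tun_subN_C] at h1
    exact h1
  have hwj : ∀ a, w (j0L c a) = j0L c a := fun a => (D.fixw _).2 ⟨a, rfl⟩
  have hwc : ∀ a : k, w (cst0 (j0L c) a) = cst0 (j0L c) a := fun a => hwj _
  have hτc : ∀ a : k, τ (cst0 (j0L c) a) = cst0 (j0L c) a := by
    intro a
    change τ (j0L c (HahnSeries.C a)) = j0L c (HahnSeries.C a)
    rw [D.τj, Tun_rot_C]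
  constructor
  · rintro ⟨hint, hx⟩
    have hmem : ∀ a, x a ∈ Set.range ε := by
      intro a
      refine e.mem_range _ fun σ hσ => ?_
      have hF : Form ζ θ s T z σ 0 0 := by
        refine ⟨?_, fun j hj => ?_⟩
        · rw [pow_zero, one_mul, ← e.εT, hσ]
        · rw [pow_zero, Nat.cast_one, one_mul, Nat.cast_zero, add_zero]
          have h1 := e.εz ⟨j, hj⟩
          change ε (zL c ⟨j, hj⟩) = z.coeff j at h1
          rw [← h1, hσ]
      have h1 := Tun_hom hζ hA hr hφ hF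
      rw [pow_zero, pow_zero, one_mul] at h1
      rw [hx, h1, inv_one, map_one]
      simp [Matrix.one_apply]
    choose y hy using hmem
    refine ⟨y, ⟨?_, ?_, ?_⟩, fun a => (hy a).symm⟩
    · intro a
      have h1 := hint a
      rw [← hy a] at h1
      exact (e.isIntegral_iff _).1 h1
    · obtain ⟨σ, hσ⟩ := e.exists_sigma w (fun x => hwj _)
      have hF : Form ζ θ s T z σ 0 1 := by
        refine ⟨?_, fun j hj => ?_⟩
        · rw [pow_zero, one_mul, ← e.εT, hσ, hwj]
        · have h1 := e.εz ⟨j, hj⟩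
          change ε (zL c ⟨j, hj⟩) = z.coeff j at h1
          rw [pow_zero, ← h1, hσ]
          refine e.coeff 1 1 ⟨j, hj⟩ _ ?_
          rw [hw, Nat.cast_one, one_mul]
      have h1 := Tun_hom hζ hA hr hφ hF
      rw [pow_zero, pow_one, one_mul] at h1
      have h1' : (φ.hom σ⁻¹)⁻¹ = g := by rw [map_inv, inv_inv, h1]
      intro a
      apply ε.injective
      have h2 : σ⁻¹ (x a) = ε (w⁻¹ (y a)) := by
        rw [← hy a]
        have h3 : σ (ε (w⁻¹ (y a))) = ε (y a) := by
          rw [hσ]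
          congr 1
          exact w.apply_symm_apply _
        rw [← h3]
        exact σ.symm_apply_apply _
      rw [← h2, hx, h1', map_sum]
      refine Finset.sum_congr rfl fun b _ => ?_
      rw [map_mul, hεc, hy]
    · obtain ⟨σ, hσ⟩ := e.exists_sigma τ (fun x => by
        rw [D.τj, rot_subN N ζ hζ.pow_eq_one])
      have hF : Form ζ θ s T z σ 1 0 := by
        refine ⟨?_, fun j hj => ?_⟩
        · rw [pow_one, ← e.εT, hσ, D.τj, rot_single, zpow_one, ← hεc, ← map_mul]
          congr 1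
          change _ = j0L c (HahnSeries.C (ζ : k)) * _
          rw [← map_mul]
          congr 1
          change _ = HahnSeries.single 0 (ζ : k) * _
          rw [HahnSeries.single_mul_single, zero_add]
        · have h1 := e.εz ⟨j, hj⟩
          change ε (zL c ⟨j, hj⟩) = z.coeff j at h1
          rw [pow_one, ← h1, hσ]
          refine e.coeff θ 0 ⟨j, hj⟩ _ ?_
          rw [hτ, Nat.cast_zero, add_zero]
      have h1 := Tun_hom hζ hA hr hφ hF
      rw [pow_zero, pow_one, mul_one] at h1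
      have h1' : (φ.hom σ⁻¹)⁻¹ = γ := by rw [map_inv, inv_inv, h1]
      intro a
      apply ε.injective
      have h2 : σ⁻¹ (x a) = ε (τ⁻¹ (y a)) := by
        rw [← hy a]
        have h3 : σ (ε (τ⁻¹ (y a))) = ε (y a) := by
          rw [hσ]
          congr 1
          exact τ.apply_symm_apply _
        rw [← h3]
        exact σ.symm_apply_apply _
      rw [← h2, hx, h1', map_sum]
      refine Finset.sum_congr rfl fun b _ => ?_
      rw [map_mul, hεc, hy]
  · rintro ⟨y, ⟨hy0, hy1, hy2⟩, hxy⟩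
    refine ⟨fun a => ?_, fun σ a => ?_⟩
    · rw [hxy]
      exact (e.isIntegral_iff _).2 (hy0 a)
    · obtain ⟨i, l, hF, hσ⟩ := hφ σ
      have hinv : ∀ α : Lw c ≃+* Lw c, (∀ a : k, α (cst0 (j0L c) a) = cst0 (j0L c) a) →
          ∀ a : k, α⁻¹ (cst0 (j0L c) a) = cst0 (j0L c) a := by
        intro α hα a
        have h1 : α⁻¹ (α (cst0 (j0L c) a)) = cst0 (j0L c) a := α.symm_apply_apply _
        rwa [hα] at h1
      have R1 : TunR (cst0 (j0L c)) ρ y w g := by
        have h1 : TunR (cst0 (j0L c)) ρ y w⁻¹ g⁻¹ := by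
          refine ⟨hinv w hwc, fun a => ?_⟩
          rw [inv_inv]
          exact hy1 a
        have h2 := TunR_inv h1
        rwa [inv_inv, inv_inv] at h2
      have R2 : TunR (cst0 (j0L c)) ρ y τ γ := by
        have h1 : TunR (cst0 (j0L c)) ρ y τ⁻¹ γ⁻¹ := by
          refine ⟨hinv τ hτc, fun a => ?_⟩
          rw [inv_inv]
          exact hy2 a
        have h2 := TunR_inv h1
        rwa [inv_inv, inv_inv] at h2
      have R3 := TunR_mul (TunR_pow R2 i) (TunR_pow R1 l)
      have h3 := e.sigma D hw hτ σ i l hF.1 hF.2 (y a)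
      rw [hxy, h3]
      have h4 := R3.2 a
      change (τ ^ i) ((w ^ l) (y a)) = _ at h4
      rw [h4, ← hσ, map_sum]
      refine Finset.sum_congr rfl fun b _ => ?_
      rw [map_mul, hεc, hxy]

end

end Pool.Agent.WG
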