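import Pool.Agent.WG.N5
import Pool.Agent.WG.Tun
import Pool.Agent.WC.F1

/-! # The classes of the level sets (piece WG-F1) -/

namespace Pool.Agent.WG

open Polynomial Pool.Agent.WD Pool.Agent.WC

noncomputable section

universe u

variable {p : ℕ} [Fact p.Prime] {k : Type u} [Field k] [IsAlgClosed k] [CharP k p] {s : ℕ}
  {β : Type} [Fintype β] {N κ : ℕ} {pos r : β → ℕ}

private theorem ClsF_count {p N κ J : ℕ} (h1 : J ≡ κ [MOD N]) (h2 : ¬ p ∣ J) (h3 : 0 < J) :
    ((Finset.range J).filter fun j => j ≡ κ [MOD N] ∧ ¬ p ∣ j).card = cnt p N κ J - 1 := by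
  rw [cnt, Finset.range_add_one, Finset.filter_insert, if_pos ⟨h3, h1, h2⟩,
    Finset.card_insert_of_notMem (by simp), Nat.add_sub_cancel]
  congr 1
  apply Finset.filter_congr
  intro j _
  constructor
  · rintro ⟨h4, h5⟩
    refine ⟨Nat.pos_of_ne_zero ?_, h4, h5⟩
    rintro rfl
    exact h5 (dvd_zero p)
  · rintro ⟨_, h4, h5⟩
    exact ⟨h4, h5⟩

/-- the numbers `≤ M` prime to `p` -/
private abbrev ClsF_T (p M : ℕ) : Type := {j : Fin (M + 1) // ¬ p ∣ (j : ℕ)}

private theorem ClsF_lt {p N κ M J : ℕ} (hJM : J ≤ M) (hJ : J = 0 ∨ (J ≡ κ [MOD N] ∧ ¬ p ∣ J)) :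
    (Finset.univ.filter fun j : ClsF_T p M => (j.1 : ℕ) < J ∧ (j.1 : ℕ) ≡ κ [MOD N]).card =
      if J = 0 then 0 else cnt p N κ J - 1 := by
  split_ifs with h0
  · rw [Finset.card_eq_zero, Finset.filter_eq_empty_iff]
    rintro j _ ⟨h1, _⟩
    omega
  · obtain ⟨h1, h2⟩ := hJ.resolve_left h0
    rw [← ClsF_count h1 h2 (Nat.pos_of_ne_zero h0)]
    rw [← Finset.card_image_of_injective
      (Finset.univ.filter fun j : ClsF_T p M => (j.1 : ℕ) < J ∧ (j.1 : ℕ) ≡ κ [MOD N])
      (f := fun j : ClsF_T p M => (j.1 : ℕ))]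
    · congr 1
      ext j
      rw [Finset.mem_image, Finset.mem_filter, Finset.mem_range]
      constructor
      · rintro ⟨i, hi, rfl⟩
        have h3 := (Finset.mem_filter.1 hi).2
        exact ⟨h3.1, h3.2, i.2⟩
      · rintro ⟨h3, h4, h5⟩
        exact ⟨⟨⟨j, by omega⟩, h5⟩, Finset.mem_filter.2 ⟨Finset.mem_univ _, h3, h4⟩, rfl⟩
    · intro i j h
      exact Subtype.ext (Fin.ext h)

private theorem ClsF_eq {p M J : ℕ} (hJM : J ≤ M) (hJ : J = 0 ∨ ¬ p ∣ J) :
    (Finset.univ.filter fun j : ClsF_T p M => (j.1 : ℕ) = J).card = if J = 0 then 0 else 1 := by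
  split_ifs with h0
  · rw [Finset.card_eq_zero, Finset.filter_eq_empty_iff]
    intro j _ hj
    apply j.2
    rw [hj, h0]
    exact dvd_zero p
  · rw [Finset.card_eq_one]
    refine ⟨⟨⟨J, by omega⟩, hJ.resolve_left h0⟩, ?_⟩
    ext j
    rw [Finset.mem_filter, Finset.mem_singleton]
    constructor
    · rintro ⟨_, h1⟩
      exact Subtype.ext (Fin.ext h1)
    · rintro rfl
      exact ⟨Finset.mem_univ _, rfl⟩

private theorem ClsF_tot {p N κ M J : ℕ} (hJ : J = 0 ∨ (J ≡ κ [MOD N] ∧ ¬ p ∣ J)) :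
    Fintype.card (ClsF_T p M) =
      (Finset.univ.filter fun j : ClsF_T p M => (j.1 : ℕ) = J).card +
      (Finset.univ.filter fun j : ClsF_T p M => J < (j.1 : ℕ) ∨ ¬ (j.1 : ℕ) ≡ κ [MOD N]).card +
      (Finset.univ.filter fun j : ClsF_T p M =>
        (j.1 : ℕ) < J ∧ (j.1 : ℕ) ≡ κ [MOD N]).card := by
  rw [Finset.card_filter, Finset.card_filter, Finset.card_filter, ← Finset.sum_add_distrib,
    ← Finset.sum_add_distrib, Fintype.card, Finset.card_eq_sum_ones]
  refine Finset.sum_congr rfl fun j _ => ?_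
  rcases lt_trichotomy (j.1 : ℕ) J with h | h | h
  · rw [if_neg (by omega)]
    by_cases h1 : (j.1 : ℕ) ≡ κ [MOD N]
    · rw [if_neg (by rintro (h2 | h2)
                     · omega
                     · exact h2 h1), if_pos ⟨h, h1⟩]
    · rw [if_pos (Or.inr h1), if_neg (fun h2 => h1 h2.2)]
  · have h0 : J ≠ 0 := by
      rintro h0
      apply j.2
      rw [h, h0]
      exact dvd_zero p
    have h1 := (hJ.resolve_left h0).1
    rw [if_pos h, if_neg (by rintro (h2 | h2)
                             · omega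
                             · rw [h] at h2
                               exact h2 h1), if_neg (by rintro ⟨h2, _⟩; omega)]
  · rw [if_neg (by omega), if_pos (Or.inl h), if_neg (by rintro ⟨h2, _⟩; omega)]

private theorem ClsF_prod {p s M : ℕ} (Q : Fin s → ℕ → Prop) [∀ l j, Decidable (Q l j)] :
    (Finset.univ.filter fun i : Co p s M => Q i.1 (i.2.1 : ℕ)).card =
      ∑ l, (Finset.univ.filter fun j : ClsF_T p M => Q l (j.1 : ℕ)).card := by
  rw [Finset.card_filter, Fintype.sum_prod_type]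
  refine Finset.sum_congr rfl fun l _ => ?_
  rw [Finset.card_filter]

omit [Fact p.Prime] [CharP k p] [IsAlgClosed k] in
private theorem ClsF_ext {M : ℕ} (x : Co p s M → k) (l : Fin s) (j : Jp p) (hj : j.1 < M + 1) :
    ext x (l, j) = x (l, ⟨⟨j.1, hj⟩, j.2⟩) :=
  Finsupp.embDomain_apply_self (coEmb p s M) (Finsupp.equivFunOnFinite.symm x)
    (l, ⟨⟨j.1, hj⟩, j.2⟩)

omit [Fact p.Prime] [CharP k p] [IsAlgClosed k] in
private theorem ClsF_ext_lt {M : ℕ} (x : Co p s M → k) (l : Fin s) (j : Jp p) (hj : M < j.1) :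
    ext x (l, j) = 0 := by
  rw [WD.ext]
  apply Finsupp.embDomain_notin_range
  rintro ⟨⟨l', ⟨j', hj'⟩⟩, h⟩
  have h1 : (j' : ℕ) = j.1 := congrArg (fun z : Fin s × Jp p => z.2.1) h
  have h2 := j'.2
  omega

omit [Fact p.Prime] [CharP k p] [IsAlgClosed k] in
private theorem ClsF_pol_le (c : Par p s k) (l : Fin s) (M : ℕ) :
    pol c l ≤ M ↔ ∀ j : Jp p, M < j.1 → c (l, j) = 0 := by
  rw [pol, Finset.sup_le_iff]
  constructor
  · intro h j hj
    by_contra hne
    have h1 := h (l, j) (Finset.mem_filter.2 ⟨Finsupp.mem_support_iff.2 hne, rfl⟩)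
    exact absurd hj (not_lt.2 h1)
  · rintro h ⟨l', j⟩ hx
    rw [Finset.mem_filter, Finsupp.mem_support_iff] at hx
    obtain ⟨h1, h2⟩ := hx
    have h3 : l' = l := Fin.ext h2
    subst h3
    by_contra hlt
    exact h1 (h j (not_le.1 hlt))

omit [Fact p.Prime] [CharP k p] [IsAlgClosed k] in
private theorem ClsF_pol_eq (c : Par p s k) (l : Fin s) (J : ℕ) (hJ : J = 0 ∨ ¬ p ∣ J) :
    pol c l = J ↔ (∀ h : ¬ p ∣ J, c (l, ⟨J, h⟩) ≠ 0) ∧ ∀ j : Jp p, J < j.1 → c (l, j) = 0 := by
  constructor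
  · intro h
    refine ⟨?_, (ClsF_pol_le c l J).1 h.le⟩
    intro hJ2 h0
    have hJ0 : J ≠ 0 := by
      rintro rfl
      exact hJ2 (dvd_zero p)
    have h1 : pol c l ≤ J - 1 := by
      rw [ClsF_pol_le]
      intro j hj
      rcases Nat.lt_or_ge J j.1 with h2 | h2
      · exact (ClsF_pol_le c l J).1 h.le j h2
      · have h3 : j = ⟨J, hJ2⟩ := Subtype.ext (by
          change j.1 = J
          omega)
        rw [h3]
        exact h0
    omega
  · rintro ⟨h1, h2⟩
    have h3 := (ClsF_pol_le c l J).2 h2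
    rcases hJ with h4 | h4
    · omega
    · by_contra hne
      have h5 : pol c l ≤ J - 1 := by omega
      have hJ0 : J ≠ 0 := by
        rintro rfl
        exact h4 (dvd_zero p)
      exact h1 h4 ((ClsF_pol_le c l (J - 1)).1 h5 ⟨J, h4⟩ (by
        change J - 1 < J
        omega))

private theorem ClsF_JV {N κ l j : ℕ} (h : JV p N κ l j) :
    j = 0 ∨ (j ≡ κ [MOD N] ∧ ¬ p ∣ j) := by
  rcases h with ⟨h1, h2, _⟩ | ⟨_, h1⟩
  · exact Or.inr ⟨h1, h2⟩
  · exact Or.inl h1

/-- the cell of the pole orders `J`: the coefficients outside the residue class `κ` and those of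
higher order vanish, the leading ones do not vanish (`WC.cls_coord`) -/
theorem cls_cellG (e : Realization k) (M : ℕ) (J : Fin s → ℕ) (hJ : J ∈ boxG p N κ s M) :
    IsConstr {x : Co p s M → k | Val N κ (ext x) ∧ ∀ l : Fin s, pol (ext x) l = J l} ∧
      e.cls {x : Co p s M → k | Val N κ (ext x) ∧ ∀ l : Fin s, pol (ext x) l = J l} =
        ∏ l, mclsG p N κ (J l) := by
  classical
  rw [boxG, Finset.mem_filter, Fintype.mem_piFinset] at hJ
  obtain ⟨hJM0, hJV⟩ := hJ
  have hJM : ∀ l, J l ≤ M := by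
    intro l
    have h := hJM0 l
    rw [Finset.mem_range] at h
    omega
  have hJp : ∀ l, J l = 0 ∨ (J l ≡ κ [MOD N] ∧ ¬ p ∣ J l) := fun l => ClsF_JV (hJV l)
  have hJp' : ∀ l, J l = 0 ∨ ¬ p ∣ J l := fun l => (hJp l).imp_right fun h => h.2
  set A : Finset (Co p s M) := Finset.univ.filter fun i => (i.2.1 : ℕ) = J i.1 with hA
  set B : Finset (Co p s M) := Finset.univ.filter fun i =>
    J i.1 < (i.2.1 : ℕ) ∨ ¬ (i.2.1 : ℕ) ≡ κ [MOD N] with hB
  have hdis : Disjoint A B := by
    rw [Finset.disjoint_left]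
    intro i hi hi'
    rw [hA, Finset.mem_filter] at hi
    rw [hB, Finset.mem_filter] at hi'
    have h1 := hi.2
    rcases hi'.2 with h2 | h2
    · omega
    · rcases hJp i.1 with h3 | h3
      · apply i.2.2
        rw [h1, h3]
        exact dvd_zero p
      · rw [h1] at h2
        exact h2 h3.1
  have hset : {x : Co p s M → k | Val N κ (ext x) ∧ ∀ l : Fin s, pol (ext x) l = J l} =
      {x : Co p s M → k | (∀ i ∈ A, x i ≠ 0) ∧ ∀ i ∈ B, x i = 0} := by
    ext x
    constructor
    · rintro ⟨hv, hx⟩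
      refine ⟨?_, ?_⟩
      · rintro ⟨l, j⟩ hi
        rw [hA, Finset.mem_filter] at hi
        have h1 : (j.1 : ℕ) = J l := hi.2
        have h2 := ((ClsF_pol_eq (ext x) l (J l) (hJp' l)).1 (hx l)).1 (by
          rw [← h1]
          exact j.2)
        rw [ClsF_ext x l _ (by
          change J l < M + 1
          have := hJM l
          omega)] at h2
        intro h3
        apply h2
        rw [← h3]
        congr 1
        refine Prod.ext rfl (Subtype.ext (Fin.ext ?_))
        exact h1.symm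
      · rintro ⟨l, j⟩ hi
        rw [hB, Finset.mem_filter] at hi
        rcases hi.2 with h1 | h1
        · have h2 := ((ClsF_pol_eq (ext x) l (J l) (hJp' l)).1 (hx l)).2 ⟨(j.1 : ℕ), j.2⟩ h1
          rw [ClsF_ext x l _ j.1.2] at h2
          exact h2
        · by_contra hne
          apply h1
          have h2 : ext x (l, ⟨(j.1 : ℕ), j.2⟩) ≠ 0 := by
            rw [ClsF_ext x l _ j.1.2]
            exact hne
          exact hv.1 _ (Finsupp.mem_support_iff.2 h2)
    · rintro ⟨h1, h2⟩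
      have hA' : ∀ (l : Fin s) (h : ¬ p ∣ J l), ext x (l, ⟨J l, h⟩) ≠ 0 := by
        intro l h
        rw [ClsF_ext x l _ (by
          change J l < M + 1
          have := hJM l
          omega)]
        apply h1
        rw [hA, Finset.mem_filter]
        exact ⟨Finset.mem_univ _, rfl⟩
      refine ⟨⟨?_, ?_⟩, ?_⟩
      · rintro ⟨l, j⟩ hi
        rw [Finsupp.mem_support_iff] at hi
        by_cases hjM : j.1 < M + 1
        · rw [ClsF_ext x l j hjM] at hi
          by_contra hne
          apply hi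
          apply h2
          rw [hB, Finset.mem_filter]
          exact ⟨Finset.mem_univ _, Or.inr hne⟩
        · exact absurd (ClsF_ext_lt x l j (by omega)) hi
      · intro h
        have h3 := hJV ⟨0, h⟩
        rcases h3 with ⟨_, h4, _⟩ | ⟨h4, _⟩
        · exact ⟨⟨J ⟨0, h⟩, h4⟩, hA' _ h4⟩
        · exact absurd h4 (lt_irrefl 0)
      · intro l
        rw [ClsF_pol_eq (ext x) l (J l) (hJp' l)]
        refine ⟨hA' l, ?_⟩
        intro j hj
        by_cases hjM : j.1 < M + 1
        · rw [ClsF_ext x l j hjM]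
          apply h2
          rw [hB, Finset.mem_filter]
          exact ⟨Finset.mem_univ _, Or.inl hj⟩
        · exact ClsF_ext_lt x l j (by omega)
  have hAc : A.card = ∑ l, if J l = 0 then 0 else 1 := by
    rw [hA, ClsF_prod (fun l j => j = J l)]
    exact Finset.sum_congr rfl fun l _ => ClsF_eq (hJM l) (hJp' l)
  have hcard : Fintype.card (Co p s M) = A.card + B.card +
      ∑ l, if J l = 0 then 0 else cnt p N κ (J l) - 1 := by
    rw [hA, hB, ClsF_prod (fun l j => j = J l),
      ClsF_prod (fun l j => J l < j ∨ ¬ j ≡ κ [MOD N]),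
      ← Finset.sum_add_distrib, ← Finset.sum_add_distrib, Fintype.card_prod, Fintype.card_fin]
    have h1 : ∀ l ∈ (Finset.univ : Finset (Fin s)),
        (Finset.univ.filter fun j : ClsF_T p M => (j.1 : ℕ) = J l).card +
        (Finset.univ.filter fun j : ClsF_T p M =>
          J l < (j.1 : ℕ) ∨ ¬ (j.1 : ℕ) ≡ κ [MOD N]).card +
        (if J l = 0 then 0 else cnt p N κ (J l) - 1) = Fintype.card (ClsF_T p M) := by
      intro l _
      rw [← ClsF_lt (hJM l) (hJp l)]
      exact (ClsF_tot (hJp l)).symm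
    rw [Finset.sum_congr rfl h1, Finset.sum_const, Finset.card_univ, Fintype.card_fin,
      smul_eq_mul]
  obtain ⟨k1, k2⟩ := cls_coord e A B hdis
  rw [hset]
  refine ⟨k1, ?_⟩
  rw [k2]
  have h3 : Fintype.card (Co p s M) - A.card - B.card =
      ∑ l, if J l = 0 then 0 else cnt p N κ (J l) - 1 := by omega
  rw [h3, hAc, Finset.mul_sum, ← Finset.prod_pow_eq_pow_sum, ← Finset.prod_pow_eq_pow_sum,
    ← Finset.prod_mul_distrib]
  refine Finset.prod_congr rfl fun l _ => ?_
  rw [mclsG]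
  split_ifs <;> simp

private theorem ClsF_jN (c : Par p s k) : pol c = jN fun l : Fin s => pol c l := by
  funext l
  rw [jN]
  split_ifs with h
  · rfl
  · rw [pol, Finset.filter_eq_empty_iff.2, Finset.sup_empty]
    · rfl
    · rintro ⟨l', j⟩ _ h1
      exact h (h1 ▸ l'.2)

/-- the pole orders are admissible -/
private theorem ClsF_pol (c : Par p s k) (hc : Val N κ c) (l : Fin s) :
    JV p N κ l (pol c l) := by
  by_cases h0 : pol c l = 0
  · refine Or.inr ⟨?_, h0⟩
    by_contra hl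
    have hl0 : (l : ℕ) = 0 := by omega
    have hs : 0 < s := lt_of_le_of_lt (Nat.zero_le _) l.2
    obtain ⟨j, hj⟩ := hc.2 hs
    have hl1 : (⟨0, hs⟩ : Fin s) = l := Fin.ext hl0.symm
    rw [hl1] at hj
    apply hj
    apply (ClsF_pol_le c l 0).1 h0.le
    refine Nat.pos_of_ne_zero fun h1 => j.2 ?_
    rw [h1]
    exact dvd_zero p
  · have h1 := (pol_spec c l).resolve_left h0
    have h2 := ((ClsF_pol_eq c l (pol c l) (Or.inr h1)).1 rfl).1 h1
    exact Or.inl ⟨hc.1 _ (Finsupp.mem_support_iff.2 h2), h1, Nat.pos_of_ne_zero h0⟩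

private theorem ClsF_mem (M : ℕ) (x : Co p s M → k) (hx : Val N κ (ext x)) :
    (fun l : Fin s => pol (ext x) l) ∈ boxG p N κ s M := by
  classical
  rw [boxG, Finset.mem_filter, Fintype.mem_piFinset]
  refine ⟨fun l => ?_, fun l => ClsF_pol (ext x) hx l⟩
  rw [Finset.mem_range]
  have h := (ClsF_pol_le (ext x) l M).2 fun j hj => ClsF_ext_lt x l j hj
  omega

private theorem ClsF_hasClass (e : Realization k) (D : ND p N κ s pos r) (Pr : (ℕ → ℕ) → Prop)
    (R : ℕ) (hR : ∀ j, Pr j → vGN p N s pos r (up p j) ≤ R)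
    [DecidablePred fun J : Fin s → ℕ => Pr (jN J)] :
    HasClass e {c : Par p s k | Val N κ c ∧ Pr (pol c)}
      (∑ J ∈ (boxG p N κ s ((p + 1) * R)).filter (fun J => Pr (jN J)),
        ∏ l, mclsG p N κ (J l)) := by
  classical
  have hp : p.Prime := Fact.out
  have hbd : ∀ J : Fin s → ℕ, (∀ l : Fin s, JV p N κ l (J l)) → Pr (jN J) →
      ∀ l, J l ≤ (p + 1) * R := by
    intro J hJ hPr l
    exact (le_vGN hp D hJ l).trans (Nat.mul_le_mul_left _ (hR _ hPr))
  refine ⟨(p + 1) * R, ?_, ?_⟩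
  · rintro c ⟨hv, hc⟩ l j hj
    rw [ClsF_jN] at hc
    exact (ClsF_pol_le c l ((p + 1) * R)).1 (hbd _ (ClsF_pol c hv) hc l) j hj
  · intro M hM
    have hbox : (boxG p N κ s ((p + 1) * R)).filter (fun J => Pr (jN J)) =
        (boxG p N κ s M).filter (fun J => Pr (jN J)) := by
      ext J
      rw [Finset.mem_filter, Finset.mem_filter, boxG, boxG, Finset.mem_filter,
        Finset.mem_filter, Fintype.mem_piFinset, Fintype.mem_piFinset]
      constructor
      · rintro ⟨⟨h1, h2⟩, h3⟩
        refine ⟨⟨fun l => ?_, h2⟩, h3⟩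
        have h4 := h1 l
        rw [Finset.mem_range] at h4 ⊢
        omega
      · rintro ⟨⟨_, h2⟩, h3⟩
        refine ⟨⟨fun l => ?_, h2⟩, h3⟩
        have h4 := hbd J h2 h3 l
        rw [Finset.mem_range]
        omega
    rw [hbox]
    have h1 : {x : Co p s M → k | ext x ∈ {c : Par p s k | Val N κ c ∧ Pr (pol c)}} =
        ⋃ J ∈ (boxG p N κ s M).filter (fun J => Pr (jN J)),
          {x : Co p s M → k | Val N κ (ext x) ∧ ∀ l : Fin s, pol (ext x) l = J l} := by
      ext x
      simp only [Set.mem_iUnion]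
      constructor
      · rintro ⟨hv, h⟩
        refine ⟨fun l => pol (ext x) l, ?_, hv, fun l => rfl⟩
        rw [Finset.mem_filter]
        refine ⟨ClsF_mem M x hv, ?_⟩
        rw [← ClsF_jN]
        exact h
      · rintro ⟨J, hJ, hv, h⟩
        rw [Finset.mem_filter] at hJ
        refine ⟨hv, ?_⟩
        have h2 : (fun l : Fin s => pol (ext x) l) = J := funext h
        rw [ClsF_jN, h2]
        exact hJ.2
    rw [h1]
    have h2 : ∀ J ∈ (boxG p N κ s M).filter (fun J => Pr (jN J)), IsConstr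
        {x : Co p s M → k | Val N κ (ext x) ∧ ∀ l : Fin s, pol (ext x) l = J l} := fun J hJ =>
      (cls_cellG e M J (Finset.mem_filter.1 hJ).1).1
    refine ⟨IsConstr.biUnion _ _ h2, ?_⟩
    rw [e.cls_biUnion _ _ h2]
    · exact Finset.sum_congr rfl fun J hJ => (cls_cellG e M J (Finset.mem_filter.1 hJ).1).2
    · intro J _ J' _ hne
      rw [Set.disjoint_left]
      rintro x ⟨_, hx⟩ ⟨_, hx'⟩
      apply hne
      funext l
      exact (hx l).symm.trans (hx' l)

theorem hasClass_PG (e : Realization k) (D : ND p N κ s pos r) (a : ℕ) :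
    HasClass e {c : Par p s k | Val N κ c ∧ vGN p N s pos r (upc c) = a}
      (PGp p N κ s pos r a) :=
  ClsF_hasClass e D (fun j => vGN p N s pos r (up p j) = a) a (fun _ h => h.le)

theorem hasClass_QG (e : Realization k) (D : ND p N κ s pos r) (b : ℤ) :
    HasClass e {c : Par p s k | Val N κ c ∧
      ((N * cGN pos r : ℕ) : ℤ) - (vGN p N s pos r (upc c) : ℤ) = b} (QGp p N κ s pos r b) := by
  refine ClsF_hasClass e D
    (fun j => ((N * cGN pos r : ℕ) : ℤ) - (vGN p N s pos r (up p j) : ℤ) = b)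
    (N * cGN pos r + (-b).toNat) ?_
  intro j h
  have h2 := Int.self_le_toNat (-b)
  omega

theorem hasClass_empty (e : Realization k) : HasClass e (∅ : Set (Par p s k)) 0 := by
  refine ⟨0, fun c hc => absurd hc (Set.notMem_empty c), fun M _ => ?_⟩
  have h1 : {x : Co p s M → k | ext x ∈ (∅ : Set (Par p s k))} = ∅ := by
    ext x
    simp
  rw [h1]
  have h2 : IsConstr (∅ : Set (Co p s M → k)) := by
    have h3 := (IsConstr.univ (k := k) (ι := Co p s M)).compl
    rwa [Set.compl_univ] at h3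
  refine ⟨h2, ?_⟩
  have h3 := e.cls_union h2 h2 (Set.disjoint_empty _)
  rw [Set.union_empty] at h3
  exact left_eq_add.mp h3

theorem upc_scl (x : kˣ) (c : Par p s k) : upc (scl (x : k) c) = upc c := by
  have h1 : (scl (x : k) c).support = c.support := by
    ext i
    rw [Finsupp.mem_support_iff, Finsupp.mem_support_iff, scl, Finsupp.mapRange_apply]
    constructor
    · intro h h2
      apply h
      rw [h2, mul_zero]
    · intro h
      exact mul_ne_zero x.ne_zero h
  have h2 : pol (scl (x : k) c) = pol c := by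
    funext l
    rw [pol, pol, h1]
  rw [upc, upc, h2]

end

end Pool.Agent.WG
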