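import Pool.Agent.WC.G3
import Pool.Agent.WC.Lat
import Pool.Agent.WC.E1
import Pool.Agent.WG.W3

/-!
# The automorphisms of `L_c` (piece WG-F1)

`c ∈ Par p s k` with the first coordinate not zero (or `s = 0`); `Lw c` is an extension of
`LaurentSeries k = k((T))` with the Galois group `ℤ/p^s`.
-/

namespace Pool.Agent.WG

open Pool.Agent.WD Pool.Agent.WC

noncomputable section

universe u

variable {p : ℕ} [Fact p.Prime] {k : Type u} [Field k] [IsAlgClosed k] [CharP k p] {s : ℕ}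

/-- the first coordinate is not zero, or `s = 0` -/
def Ful (c : Par p s k) : Prop := ∀ h : 0 < s, ∃ j, c (⟨0, h⟩, j) ≠ 0

/-- the upper jumps -/
def upc (c : Par p s k) : ℕ → ℕ := up p (pol c)

private theorem Core_pol (c : Par p s k) (hc : Ful c) (h : 0 < s) : pol c 0 ≠ 0 := by
  obtain ⟨j, hj⟩ := hc h
  have h1 : j.1 ≤ pol c 0 := by
    have hm : ((⟨0, h⟩, j) : Fin s × Jp p) ∈ c.support.filter fun x => (x.1 : ℕ) = 0 :=
      Finset.mem_filter.2 ⟨Finsupp.mem_support_iff.2 hj, rfl⟩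
    exact Finset.le_sup (f := fun x : Fin s × Jp p => x.2.1) hm
  have h2 : j.1 ≠ 0 := fun h0 => j.2 (by rw [h0]; exact dvd_zero p)
  omega

private theorem Core_ne (c : Par p s k) (hc : Ful c) (h : 0 < s) : c ≠ 0 := by
  obtain ⟨j, hj⟩ := hc h
  rintro rfl
  exact hj rfl

private theorem Core_core (c : Par p s k) (hc : Ful c) (h : 0 < s) :
    ∃ (τ : Lw c ≃ₐ[LaurentSeries k] Lw c) (y : ℕ → Lw c),
      CorrW c τ 1 ∧
      (∀ σ g, CorrW c σ g → ∃ i : ℕ, σ = τ ^ i ∧ g = ((i : ℕ) : ZMod (p ^ s))) ∧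
      (∀ x : Lw c, τ x = x → x ∈ Set.range (algebraMap (LaurentSeries k) (Lw c))) ∧
      (∀ x : Lw c, ((τ x : Lw c) : Om k).orderTop = (x : Om k).orderTop) ∧
      (∀ t < s, (τ ^ (p ^ t)) (y t) = y t + 1) ∧
      (∀ t < s, ((y t : Lw c) : Om k).orderTop =
        ((-Yq p (fun t => (up p (pol c) t : ℚ)) t : ℚ) : WithTop ℚ)) := by
  obtain ⟨a, ha, τ, y, h0, hpa, hcτ, hall, hfix, hinv, hy1, hy2⟩ := core c (Core_ne c hc h)
  have ha0 : a = 0 := by
    by_contra hcon
    exact Core_pol c hc h (h0 0 (Nat.pos_of_ne_zero hcon))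
  subst ha0
  refine ⟨τ, y, ?_, ?_, hfix, hinv, ?_, ?_⟩
  · rw [pow_zero, Nat.cast_one] at hcτ
    exact hcτ
  · intro σ g hσ
    obtain ⟨i, hi1, hi2⟩ := hall σ g hσ
    refine ⟨i, hi1, ?_⟩
    rw [hi2, pow_zero, one_mul]
  · intro t ht
    exact hy1 t (by omega)
  · intro t ht
    have h1 := hy2 t (by omega)
    rw [zero_add] at h1
    exact h1

private theorem Core_order {y : LaurentSeries k} (hy : y ≠ 0) :
    (toOm k y).orderTop = ((y.order : ℚ) : WithTop ℚ) := by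
  change (HahnSeries.embDomain _ y).orderTop = _
  rw [HahnSeries.orderTop_embDomain, ← HahnSeries.order_eq_orderTop_of_ne_zero hy]
  rfl

private theorem Core_pow_apply (c : Par p s k) (τ : Lw c ≃ₐ[LaurentSeries k] Lw c) (j : ℕ)
    (x : Lw c) : ((τ : Lw c ≃+* Lw c) ^ j) x = (τ ^ j) x := by
  induction j generalizing x with
  | zero => rfl
  | succ j ih =>
    rw [pow_succ', pow_succ', AlgEquiv.mul_apply, ← ih]
    rfl

private theorem Core_lat (c : Par p s k) (hc : Ful c) (h : 0 < s)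
    {τ : Lw c ≃ₐ[LaurentSeries k] Lw c}
    {y : ℕ → Lw c}
    (hfix : ∀ x : Lw c, τ x = x → x ∈ Set.range (algebraMap (LaurentSeries k) (Lw c)))
    (hy1 : ∀ t < s, (τ ^ (p ^ t)) (y t) = y t + 1)
    (hy2 : ∀ t < s, ((y t : Lw c) : Om k).orderTop =
        ((-Yq p (fun t => (up p (pol c) t : ℚ)) t : ℚ) : WithTop ℚ)) :
    LatD p (algebraMap (Lw c) (Om k)) (τ : Lw c ≃+* Lw c) (KL c) s y
      (fun t => Yq p (fun t => (up p (pol c) t : ℚ)) t) := by
  have hp : p.Prime := Fact.out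
  refine ⟨fun x => ⟨fun h => ?_, fun h => ?_⟩, fun x hx hx0 => ?_, fun t ht => ?_, fun t ht => ?_,
    fun t ht => ?_⟩
  · obtain ⟨x', hx'⟩ := hfix x h
    exact ⟨x', hx'⟩
  · obtain ⟨x', rfl⟩ := h
    exact τ.commutes x'
  · obtain ⟨x', rfl⟩ := hx
    have hx0' : x' ≠ 0 := by
      rintro rfl
      exact hx0 (map_zero _)
    exact ⟨x'.order, Core_order hx0'⟩
  · rw [Core_pow_apply]
    exact hy1 t ht
  · exact hy2 t ht
  · obtain ⟨l, hl1, hl2, hl3⟩ := Yq_num hp (up p (pol c)) (fun t => up_mono hp.one_lt.le _ t) 0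
      (fun t ht => absurd ht (Nat.not_lt_zero t)) (by
        rw [up]
        exact (pol_spec c 0).resolve_left (Core_pol c hc h)) t (Nat.zero_le t)
    exact ⟨l, hl1, hl2, hl3⟩

/-- The generator `w` of the Galois group of `L_c / k((T))`, and the elements `h_j`, `j < p^s`:
`(w - 1)^j h_j = 1`, and the order of `h_j` is `-X_j`. From `WC.core` with `a = 0` (or
`WC.core_zero` for `s = 0`), and from `WC.TT_hh`, `WC.orderTop_hh`. -/
theorem exists_w (c : Par p s k) (hc : Ful c) :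
    ∃ (w : Lw c ≃ₐ[LaurentSeries k] Lw c) (h : ℕ → Lw c),
      CorrW c w 1 ∧ (∀ σ : Lw c ≃ₐ[LaurentSeries k] Lw c, ∃ i : ℕ, σ = w ^ i) ∧
      w ^ (p ^ s) = 1 ∧
      (∀ x : Lw c, w x = x → x ∈ Set.range (algebraMap (LaurentSeries k) (Lw c))) ∧
      (∀ x : Lw c, ((w x : Lw c) : Om k).orderTop = (x : Om k).orderTop) ∧
      (∀ j < p ^ s, (fun x => w x - x)^[j] (h j) = 1) ∧
      ∀ j < p ^ s, ((h j : Lw c) : Om k).orderTop =
        ((-Xq p s (upc c) j : ℚ) : WithTop ℚ) := by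
  rcases Nat.eq_zero_or_pos s with hs | hs
  · subst hs
    have hc0 : c = 0 := by
      ext x
      exact x.1.elim0
    subst hc0
    refine ⟨1, fun _ => 1, fun t => t.elim0, fun σ => ⟨0, ?_⟩, one_pow _, fun x _ => ?_,
      fun x => rfl, ?_, ?_⟩
    · rw [pow_zero]
      exact (core_zero σ).1
    · exact (core_zero (1 : Lw (0 : Par p 0 k) ≃ₐ[LaurentSeries k] Lw (0 : Par p 0 k))).2.2 x
    · intro j hj
      rw [pow_zero, Nat.lt_one_iff] at hj
      subst hj
      rfl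
    · intro j _
      change (1 : Om k).orderTop = _
      rw [HahnSeries.orderTop_one, Xq, Finset.range_zero, Finset.sum_empty, neg_zero]
      rfl
  · obtain ⟨τ, y, hcτ, hall, hfix, hinv, hy1, hy2⟩ := Core_core c hc hs
    have hL := Core_lat c hc hs hfix hy1 hy2
    refine ⟨τ, fun j => hh p y s j, hcτ, fun σ => ?_, ?_, hfix, hinv, fun j hj => ?_,
      fun j hj => ?_⟩
    · obtain ⟨g, hg⟩ := corrW_exists c σ
      obtain ⟨i, hi, -⟩ := hall σ g hg
      exact ⟨i, hi⟩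
    · have h1 : ∀ i : ℕ, CorrW c (τ ^ i) ((i : ℕ) : ZMod (p ^ s)) := by
        intro i
        induction i with
        | zero =>
          rw [pow_zero, Nat.cast_zero]
          exact corrW_one c
        | succ i ih =>
          rw [pow_succ, Nat.cast_succ]
          exact corrW_mul c ih hcτ
      have h2 := h1 (p ^ s)
      rw [ZMod.natCast_self] at h2
      exact eq_of_corrW c h2 (corrW_one c)
    · exact TT_hh hL j hj
    · exact orderTop_hh hL j hj

/-- the numbers `X_i`, `i < p^s`, are not congruent modulo `ℤ` -/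
theorem Xq_sub_not_int (c : Par p s k) (hc : Ful c) {i j : ℕ} (hi : i < p ^ s) (hj : j < p ^ s)
    (hij : i ≠ j) (z : ℤ) : Xq p s (upc c) i - Xq p s (upc c) j ≠ z := by
  rcases Nat.eq_zero_or_pos s with hs | hs
  · subst hs
    rw [pow_zero, Nat.lt_one_iff] at hi hj
    omega
  · obtain ⟨τ, y, hcτ, hall, hfix, hinv, hy1, hy2⟩ := Core_core c hc hs
    exact XX_not_int (Core_lat c hc hs hfix hy1 hy2) hi hj hij z

theorem Xq_nonneg (c : Par p s k) (i : ℕ) : 0 ≤ Xq p s (upc c) i := by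
  have hp : p.Prime := Fact.out
  unfold Xq
  refine Finset.sum_nonneg fun t _ => mul_nonneg (Nat.cast_nonneg _) ?_
  refine le_trans ?_ (Yq_ge hp (upc c) (fun t => up_mono hp.one_lt.le _ t) t)
  positivity

theorem Xq_zero (c : Par p s k) : Xq p s (upc c) 0 = 0 := by
  unfold Xq
  refine Finset.sum_eq_zero fun t _ => ?_
  rw [Nat.zero_div, Nat.zero_mod, Nat.cast_zero, zero_mul]

end

end Pool.Agent.WG
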