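import Pool.Agent.WG.Core

/-! # The tame automorphism of `L_c` (piece WG-F2) -/

namespace Pool.Agent.WG

open Pool.Agent.WD Pool.Agent.WC

noncomputable section

universe u

variable {p : ℕ} [Fact p.Prime] {k : Type u} [Field k] [IsAlgClosed k] [CharP k p] {s : ℕ}

section Eqs

set_option linter.unusedSectionVars false

variable {A B : Type*} [Field A] [CharP A p] [Field B] [CharP B p]

/-- equality of the coordinates `< s` -/
private def Core2Eqs (s : ℕ) (a b : WittVector p A) : Prop := ∀ i < s, a.coeff i = b.coeff i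

omit [CharP A p] in
private theorem Core2_trunc {a a' : WittVector p A} :
    Core2Eqs s a a' ↔ WittVector.truncate s a = WittVector.truncate s a' := by
  constructor
  · intro h
    ext i
    rw [WittVector.coeff_truncate, WittVector.coeff_truncate]
    exact h i i.2
  · intro h i hi
    have h1 := congrArg (TruncatedWittVector.coeff (⟨i, hi⟩ : Fin s)) h
    rwa [WittVector.coeff_truncate, WittVector.coeff_truncate] at h1

omit [CharP A p] in
private theorem Core2Eqs.refl (a : WittVector p A) : Core2Eqs s a a := fun _ _ => rfl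

omit [CharP A p] in
private theorem Core2Eqs.symm {a b : WittVector p A} (h : Core2Eqs s a b) : Core2Eqs s b a :=
  fun i hi => (h i hi).symm

omit [CharP A p] in
private theorem Core2Eqs.trans {a b c : WittVector p A} (h : Core2Eqs s a b)
    (h' : Core2Eqs s b c) : Core2Eqs s a c := fun i hi => (h i hi).trans (h' i hi)

omit [CharP A p] in
private theorem Core2Eqs.add {a a' b b' : WittVector p A} (h : Core2Eqs s a a')
    (h' : Core2Eqs s b b') : Core2Eqs s (a + b) (a' + b') := by
  rw [Core2_trunc] at *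
  rw [map_add, map_add, h, h']

omit [CharP A p] in
private theorem Core2Eqs.mul {a a' b b' : WittVector p A} (h : Core2Eqs s a a')
    (h' : Core2Eqs s b b') : Core2Eqs s (a * b) (a' * b') := by
  rw [Core2_trunc] at *
  rw [map_mul, map_mul, h, h']

omit [CharP A p] in
private theorem Core2Eqs.sub {a a' b b' : WittVector p A} (h : Core2Eqs s a a')
    (h' : Core2Eqs s b b') : Core2Eqs s (a - b) (a' - b') := by
  rw [Core2_trunc] at *
  rw [map_sub, map_sub, h, h']

omit [CharP A p] [CharP B p] in
private theorem Core2Eqs.map {a a' : WittVector p A} (f : A →+* B) (h : Core2Eqs s a a') :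
    Core2Eqs s (WittVector.map f a) (WittVector.map f a') := by
  intro i hi
  rw [WittVector.map_coeff, WittVector.map_coeff, h i hi]

private theorem Core2_nat {a b : ℕ} (h : a ≡ b [MOD p ^ s]) :
    Core2Eqs s ((a : ℕ) : WittVector p A) ((b : ℕ) : WittVector p A) := coeff_nat_congr h

private theorem Core2_frob (f : A →+* B) (a : WittVector p A) :
    WittVector.frobenius (WittVector.map f a) - WittVector.map f a =
      WittVector.map f (WittVector.frobenius a - a) := by
  have e1 : WittVector.frobenius (WittVector.map f a) =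
      WittVector.map f (WittVector.frobenius a) := by
    ext j
    rw [WittVector.coeff_frobenius_charP, WittVector.map_coeff, WittVector.map_coeff,
      WittVector.coeff_frobenius_charP, map_pow]
  rw [e1, ← map_sub]

private theorem Core2_diff {a b : WittVector p A}
    (h : Core2Eqs s (WittVector.frobenius a - a) (WittVector.frobenius b - b)) :
    ∃ g : ZMod (p ^ s), Core2Eqs s a (b + ((g.val : ℕ) : WittVector p A)) := by
  have h1 : Core2Eqs s (WittVector.frobenius (a - b) - (a - b)) 0 := by
    have e1 : WittVector.frobenius (a - b) - (a - b) =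
        (WittVector.frobenius a - a) - (WittVector.frobenius b - b) := by
      rw [map_sub]
      ring
    have h2 := h.sub (Core2Eqs.refl (WittVector.frobenius b - b))
    rw [sub_self] at h2
    rwa [e1]
  obtain ⟨g, hg⟩ := exists_nat_of_frobenius s (a - b) (fun i hi => by
    rw [h1 i hi, WittVector.zero_coeff])
  refine ⟨g, ?_⟩
  have h3 : Core2Eqs s (b + (a - b)) (b + ((g.val : ℕ) : WittVector p A)) :=
    (Core2Eqs.refl b).add hg
  rwa [add_sub_cancel] at h3

end Eqs

/-- the Witt vector `(z_0, ..., z_{s-1}, 0, ...)` over `L_c` -/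
private def Core2_zw (c : Par p s k) : WittVector p (Lw c) :=
  WittVector.mk p fun i => if h : i < s then zL c ⟨i, h⟩ else 0

private theorem Core2_zw_coeff (c : Par p s k) {i : ℕ} (hi : i < s) :
    (Core2_zw c).coeff i = zL c ⟨i, hi⟩ := by
  change (if h : i < s then zL c ⟨i, h⟩ else 0) = _
  rw [dif_pos hi]

private theorem Core2_map_zw (c : Par p s k) :
    Core2Eqs s (WittVector.map (algebraMap (Lw c) (Om k)) (Core2_zw c)) (wz c) := by
  intro i hi
  rw [WittVector.map_coeff, Core2_zw_coeff c hi]
  rfl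

private theorem Core2_ext (c : Par p s k) (f g : Lw c →+* Lw c)
    (hK : ∀ x : LaurentSeries k, f (algebraMap (LaurentSeries k) (Lw c) x) =
      g (algebraMap (LaurentSeries k) (Lw c) x))
    (hz : Core2Eqs s (WittVector.map f (Core2_zw c)) (WittVector.map g (Core2_zw c))) : f = g := by
  refine RingHom.ext fun x => ?_
  obtain ⟨x, hx⟩ := x
  change x ∈ IntermediateField.adjoin (LaurentSeries k)
    (Set.range fun s : Fin s => (wz c).coeff s) at hx
  induction hx using IntermediateField.adjoin_induction with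
  | mem x hx =>
    obtain ⟨i, rfl⟩ := hx
    have h := hz i i.2
    rw [WittVector.map_coeff, WittVector.map_coeff, Core2_zw_coeff c i.2] at h
    exact h
  | algebraMap x => exact hK x
  | add x y hx hy h1 h2 =>
    have e : (⟨x + y, (Lw c).add_mem hx hy⟩ : Lw c) = ⟨x, hx⟩ + ⟨y, hy⟩ := rfl
    rw [e, map_add, map_add, h1, h2]
  | inv x hx h1 =>
    have e : (⟨x⁻¹, (Lw c).inv_mem hx⟩ : Lw c) = (⟨x, hx⟩ : Lw c)⁻¹ := rfl
    rw [e, map_inv₀, map_inv₀, h1]
  | mul x y hx hy h1 h2 =>
    have e : (⟨x * y, (Lw c).mul_mem hx hy⟩ : Lw c) = ⟨x, hx⟩ * ⟨y, hy⟩ := rfl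
    rw [e, map_mul, map_mul, h1, h2]

private theorem Core2_order (c : Par p s k) (σ : Lw c ≃ₐ[LaurentSeries k] Lw c) (x : Lw c) :
    ((σ x : Lw c) : Om k).orderTop = (x : Om k).orderTop := by
  by_cases hc : c = 0
  · subst hc
    rw [(core_zero σ).1]
    rfl
  · obtain ⟨a, ha, τ, y, h0, hpa, hcτ, hall, hfix, hinv, hy1, hy2⟩ := core c hc
    obtain ⟨g, hg⟩ := corrW_exists c σ
    obtain ⟨i, hi, -⟩ := hall σ g hg
    rw [hi]
    clear hi
    induction i with
    | zero => rfl
    | succ i ih =>
      rw [pow_succ', AlgEquiv.mul_apply, hinv, ih]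

/-- `w^n` as a ring homomorphism -/
private def Core2_W (c : Par p s k) (w : Lw c ≃ₐ[LaurentSeries k] Lw c) (n : ℕ) :
    Lw c →+* Lw c :=
  (((w ^ n : Lw c ≃ₐ[LaurentSeries k] Lw c) : Lw c →ₐ[LaurentSeries k] Lw c) : Lw c →+* Lw c)

private theorem Core2_W_apply (c : Par p s k) (w : Lw c ≃ₐ[LaurentSeries k] Lw c) (n : ℕ)
    (x : Lw c) : Core2_W c w n x = (w ^ n) x := rfl

private theorem Core2_W_K (c : Par p s k) (w : Lw c ≃ₐ[LaurentSeries k] Lw c) (n : ℕ)
    (x : LaurentSeries k) : Core2_W c w n (algebraMap (LaurentSeries k) (Lw c) x) =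
      algebraMap (LaurentSeries k) (Lw c) x := (w ^ n).commutes x

private theorem Core2_inj (c : Par p s k) {a b : WittVector p (Lw c)}
    (h : Core2Eqs s (WittVector.map (algebraMap (Lw c) (Om k)) a)
      (WittVector.map (algebraMap (Lw c) (Om k)) b)) : Core2Eqs s a b := by
  intro i hi
  have h1 := h i hi
  rw [WittVector.map_coeff, WittVector.map_coeff] at h1
  exact (algebraMap (Lw c) (Om k)).injective h1

private theorem Core2_map_nat {A B : Type*} [CommRing A] [CommRing B] (f : A →+* B) (n : ℕ) :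
    WittVector.map (p := p) f (n : WittVector p A) = (n : WittVector p B) := map_natCast _ n

private theorem Core2_W_z (c : Par p s k) (w : Lw c ≃ₐ[LaurentSeries k] Lw c)
    (hw : CorrW c w 1) (n : ℕ) :
    Core2Eqs s (WittVector.map (Core2_W c w n) (Core2_zw c))
      (Core2_zw c + ((n : ℕ) : WittVector p (Lw c))) := by
  have h1 : Core2Eqs s (WittVector.map (w : Lw c →+* Lw c) (Core2_zw c))
      (Core2_zw c + ((1 : ℕ) : WittVector p (Lw c))) := by
    apply Core2_inj c
    have h2 : Core2Eqs s (WittVector.map (algebraMap (Lw c) (Om k))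
        (WittVector.map (w : Lw c →+* Lw c) (Core2_zw c)))
        (wz c + (((1 : ZMod (p ^ s)).val : ℕ) : WittVector p (Om k))) := by
      intro i hi
      rw [WittVector.map_coeff, WittVector.map_coeff, Core2_zw_coeff c hi]
      exact hw ⟨i, hi⟩
    refine h2.trans ?_
    rw [map_add, Core2_map_nat]
    refine (Core2_map_zw c).symm.add (Core2_nat ?_)
    rw [ZMod.val_one_eq_one_mod]
    exact Nat.mod_modEq _ _
  induction n with
  | zero =>
    intro i hi
    rw [Nat.cast_zero, add_zero, WittVector.map_coeff]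
    rfl
  | succ n ih =>
    have e : Core2_W c w (n + 1) = (Core2_W c w n).comp (w : Lw c →+* Lw c) := by
      refine RingHom.ext fun x => ?_
      change (w ^ (n + 1)) x = (w ^ n) (w x)
      rw [pow_succ]
      rfl
    have e2 : WittVector.map (Core2_W c w (n + 1)) (Core2_zw c) =
        WittVector.map (Core2_W c w n) (WittVector.map (w : Lw c →+* Lw c) (Core2_zw c)) := by
      ext i
      rw [WittVector.map_coeff, WittVector.map_coeff, WittVector.map_coeff, e]
      rfl
    rw [e2]
    refine (h1.map (Core2_W c w n)).trans ?_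
    rw [map_add, Core2_map_nat]
    refine (ih.add (Core2Eqs.refl _)).trans ?_
    rw [add_assoc, ← Nat.cast_add]
    exact Core2Eqs.refl _

private theorem Core2_comp {A B C : Type*} [CommRing A] [CommRing B] [CommRing C] (f : A →+* B)
    (g : B →+* C) (a : WittVector p A) :
    WittVector.map (g.comp f) a = WittVector.map g (WittVector.map f a) := by
  ext i
  rw [WittVector.map_coeff, WittVector.map_coeff, WittVector.map_coeff]
  rfl

/-- The tame automorphism: if all exponents of `c` are `≡ κ` modulo `N`, `ζ` is an `N`-th root of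
unity, and `θ = ζ^{-κ}` in `k`, `θ^N ≡ 1` modulo `p^s`, then `x(T) ↦ x(ζ T)` extends to an
automorphism `τ` of `L_c` with `τ(z) = θ z` (coordinates `< s`). Extend `rot ζ` to the
automorphism `hmulHom χ` of `k((T^ℚ))`; it maps `z` to a root of `F(y) - y = θ f`, hence to
`θ z + l`, `l` a natural number (in the coordinates `< s`); so it maps `L_c` to itself, and it
can be corrected with a power of `w`. -/
theorem exists_tau {N κ θ : ℕ} [NeZero N] (hN : ¬ p ∣ N) (c : Par p s k) (hv : Val N κ c)
    (ζ : kˣ) (hζ : ζ ^ N = 1) (hθ : (θ : k) * (ζ : k) ^ κ = 1) (hθN : θ ^ N ≡ 1 [MOD p ^ s])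
    (w : Lw c ≃ₐ[LaurentSeries k] Lw c) (hw : CorrW c w 1) :
    ∃ τ : Lw c ≃+* Lw c,
      (∀ x : LaurentSeries k, τ (algebraMap (LaurentSeries k) (Lw c) x) =
        algebraMap (LaurentSeries k) (Lw c) (rot ζ x)) ∧
      (∀ i : Fin s, ((τ (zL c i) : Lw c) : Om k) = (((θ : ℕ) : WittVector p (Om k)) * wz c).coeff i) ∧
      (∀ x : Lw c, ((τ x : Lw c) : Om k).orderTop = (x : Om k).orderTop) ∧
      (∀ x : Lw c, (⇑τ)^[N] x = x) ∧
      ∀ x : Lw c, w (τ x) = τ ((w ^ θ) x) := by
  have hp : p.Prime := Fact.out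
  have : NeZero (p ^ s) := ⟨pow_ne_zero _ hp.ne_zero⟩
  have : CharP (LaurentSeries k) p := charP_of_injective_algebraMap
    (algebraMap k (LaurentSeries k)).injective p
  obtain ⟨χ, hχ⟩ := exists_char ζ
  set R : Om k →+* Om k := hmulHom χ with hR
  have hRK : ∀ x : LaurentSeries k, R (toOm k x) = toOm k (rot ζ x) := hmulHom_toOm χ ζ hχ
  have hθp : θ ^ p ≡ θ [MOD p ^ s] := pow_p_of_pow hN hθN
  -- the image of `f`
  have hwf : WittVector.map (toOm k) (wfK c) = wf c := by
    refine WittVector.ext fun i => ?_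
    rw [WittVector.map_coeff]
    change toOm k (if h : i < s then polar c ⟨i, h⟩ else 0) =
      if h : i < s then toOm k (polar c ⟨i, h⟩) else 0
    split_ifs
    · rfl
    · exact map_zero _
  have h3 : Core2Eqs s (WittVector.map R (wf c)) (((θ : ℕ) : WittVector p (Om k)) * wf c) := by
    intro i hi
    rw [← hwf, WittVector.map_coeff, WittVector.map_coeff, hRK, rot_wfK c hv.1 ζ hζ θ hθ i,
      ← coeff_nat_mul_wfK hθp c i hi, ← WittVector.map_coeff, map_mul, Core2_map_nat]
  -- the image of `z`
  obtain ⟨g, hg⟩ : ∃ g : ZMod (p ^ s), Core2Eqs s (WittVector.map R (wz c))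
      (((θ : ℕ) : WittVector p (Om k)) * wz c + ((g.val : ℕ) : WittVector p (Om k))) := by
    apply Core2_diff
    rw [Core2_frob, wz_spec]
    have e : WittVector.frobenius (((θ : ℕ) : WittVector p (Om k)) * wz c) -
        ((θ : ℕ) : WittVector p (Om k)) * wz c = ((θ : ℕ) : WittVector p (Om k)) * wf c := by
      rw [map_mul, map_natCast, ← mul_sub, wz_spec]
    rw [e]
    exact h3
  have hg2 : Core2Eqs s (WittVector.map R (wz c)) (WittVector.map (algebraMap (Lw c) (Om k))
      (((θ : ℕ) : WittVector p (Lw c)) * Core2_zw c + ((g.val : ℕ) : WittVector p (Lw c)))) := by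
    refine hg.trans ?_
    rw [map_add, map_mul, Core2_map_nat, Core2_map_nat]
    exact ((Core2Eqs.refl _).mul (Core2_map_zw c).symm).add (Core2Eqs.refl _)
  -- `R` maps `L_c` to itself
  have hmem : ∀ x ∈ Lw c, R x ∈ Lw c := by
    intro x hx
    change x ∈ IntermediateField.adjoin (LaurentSeries k)
      (Set.range fun s : Fin s => (wz c).coeff s) at hx
    induction hx using IntermediateField.adjoin_induction with
    | mem x hx =>
      obtain ⟨i, rfl⟩ := hx
      have h := hg2 i i.2
      rw [WittVector.map_coeff, WittVector.map_coeff] at h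
      change R ((wz c).coeff i) ∈ Lw c
      rw [h]
      exact Subtype.mem _
    | algebraMap x =>
      change R (toOm k x) ∈ Lw c
      rw [hRK]
      exact (Lw c).algebraMap_mem (rot ζ x)
    | add x y hx hy h1 h2 =>
      rw [map_add]
      exact (Lw c).add_mem h1 h2
    | inv x hx h1 =>
      rw [map_inv₀]
      exact (Lw c).inv_mem h1
    | mul x y hx hy h1 h2 =>
      rw [map_mul]
      exact (Lw c).mul_mem h1 h2
  let τ0 : Lw c →+* Lw c :=
    { toFun := fun x => ⟨R x, hmem x x.2⟩
      map_one' := Subtype.ext (map_one R)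
      map_mul' := fun x y => Subtype.ext (map_mul R _ _)
      map_zero' := Subtype.ext (map_zero R)
      map_add' := fun x y => Subtype.ext (map_add R _ _) }
  have hτ0 : ∀ x : Lw c, ((τ0 x : Lw c) : Om k) = R x := fun _ => rfl
  have hτ0K : ∀ x : LaurentSeries k, τ0 (algebraMap (LaurentSeries k) (Lw c) x) =
      algebraMap (LaurentSeries k) (Lw c) (rot ζ x) := fun x => Subtype.ext (hRK x)
  have hτ0z : Core2Eqs s (WittVector.map τ0 (Core2_zw c))
      (((θ : ℕ) : WittVector p (Lw c)) * Core2_zw c + ((g.val : ℕ) : WittVector p (Lw c))) := by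
    apply Core2_inj c
    refine Core2Eqs.trans ?_ hg2
    intro i hi
    rw [WittVector.map_coeff, WittVector.map_coeff, Core2_zw_coeff c hi, WittVector.map_coeff]
    rfl
  -- the correction
  set m := p ^ s - g.val with hm
  have hgm : g.val + m = p ^ s := by
    have := ZMod.val_lt g
    omega
  let τ1 : Lw c →+* Lw c := τ0.comp (Core2_W c w m)
  have hτ1 : ∀ x : Lw c, ((τ1 x : Lw c) : Om k) = R ((w ^ m) x : Lw c) := fun _ => rfl
  have hτ1K : ∀ x : LaurentSeries k, τ1 (algebraMap (LaurentSeries k) (Lw c) x) =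
      algebraMap (LaurentSeries k) (Lw c) (rot ζ x) := by
    intro x
    change τ0 (Core2_W c w m _) = _
    rw [Core2_W_K, hτ0K]
  have hτ1z : Core2Eqs s (WittVector.map τ1 (Core2_zw c))
      (((θ : ℕ) : WittVector p (Lw c)) * Core2_zw c) := by
    rw [Core2_comp]
    refine ((Core2_W_z c w hw m).map τ0).trans ?_
    rw [map_add, Core2_map_nat]
    refine (hτ0z.add (Core2Eqs.refl _)).trans ?_
    rw [add_assoc, ← Nat.cast_add, hgm]
    have h4 : Core2Eqs s ((p ^ s : ℕ) : WittVector p (Lw c)) ((0 : ℕ) : WittVector p (Lw c)) :=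
      Core2_nat (by
        unfold Nat.ModEq
        rw [Nat.mod_self, Nat.zero_mod])
    refine ((Core2Eqs.refl _).add h4).trans ?_
    rw [Nat.cast_zero, add_zero]
    exact Core2Eqs.refl _
  -- powers
  have hpowK : ∀ (n : ℕ) (x : LaurentSeries k),
      (τ1 ^ n) (algebraMap (LaurentSeries k) (Lw c) x) =
        algebraMap (LaurentSeries k) (Lw c) (rot (ζ ^ n) x) := by
    intro n
    induction n with
    | zero => intro x; rw [pow_zero, pow_zero, rot_one]; rfl
    | succ n ih =>
      intro x
      rw [pow_succ]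
      change (τ1 ^ n) (τ1 _) = _
      rw [hτ1K, ih, rot_rot, pow_succ]
  have hpowz : ∀ n : ℕ, Core2Eqs s (WittVector.map (τ1 ^ n) (Core2_zw c))
      (((θ ^ n : ℕ) : WittVector p (Lw c)) * Core2_zw c) := by
    intro n
    induction n with
    | zero =>
      intro i hi
      rw [pow_zero, pow_zero, Nat.cast_one, one_mul, WittVector.map_coeff]
      rfl
    | succ n ih =>
      have e : τ1 ^ (n + 1) = (τ1 ^ n).comp τ1 := pow_succ _ _
      rw [e, Core2_comp]
      refine (hτ1z.map (τ1 ^ n)).trans ?_
      rw [map_mul, Core2_map_nat]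
      refine ((Core2Eqs.refl _).mul ih).trans ?_
      rw [← mul_assoc, ← Nat.cast_mul, mul_comm θ, ← pow_succ]
      exact Core2Eqs.refl _
  have hN1 : τ1 ^ N = RingHom.id _ := by
    refine Core2_ext c _ _ (fun x => ?_) ?_
    · rw [hpowK, hζ, rot_one]
      rfl
    · refine (hpowz N).trans ?_
      have h5 : Core2Eqs s (((θ ^ N : ℕ) : WittVector p (Lw c)) * Core2_zw c)
          (((1 : ℕ) : WittVector p (Lw c)) * Core2_zw c) :=
        (Core2_nat hθN).mul (Core2Eqs.refl _)
      refine h5.trans ?_
      intro i hi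
      rw [Nat.cast_one, one_mul, WittVector.map_coeff]
      rfl
  have hN2 : ∀ x : Lw c, (⇑τ1)^[N] x = x := by
    intro x
    rw [← RingHom.coe_pow, hN1]
    rfl
  have hsurj : Function.Surjective τ1 := by
    intro x
    refine ⟨(⇑τ1)^[N - 1] x, ?_⟩
    have h := Function.iterate_succ_apply' (⇑τ1) (N - 1) x
    rw [Nat.succ_eq_add_one, Nat.sub_add_cancel (Nat.pos_of_ne_zero (NeZero.ne N)), hN2] at h
    exact h.symm
  have hcomm : (Core2_W c w 1).comp τ1 = τ1.comp (Core2_W c w θ) := by
    refine Core2_ext c _ _ (fun x => ?_) ?_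
    · change Core2_W c w 1 (τ1 _) = τ1 (Core2_W c w θ _)
      rw [hτ1K, Core2_W_K, Core2_W_K, hτ1K]
    · rw [Core2_comp, Core2_comp]
      have h6 : Core2Eqs s (WittVector.map (Core2_W c w 1) (WittVector.map τ1 (Core2_zw c)))
          (((θ : ℕ) : WittVector p (Lw c)) * Core2_zw c + ((θ : ℕ) : WittVector p (Lw c))) := by
        refine (hτ1z.map (Core2_W c w 1)).trans ?_
        rw [map_mul, Core2_map_nat]
        refine ((Core2Eqs.refl _).mul (Core2_W_z c w hw 1)).trans ?_
        rw [mul_add, Nat.cast_one, mul_one]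
        exact Core2Eqs.refl _
      have h7 : Core2Eqs s (WittVector.map τ1 (WittVector.map (Core2_W c w θ) (Core2_zw c)))
          (((θ : ℕ) : WittVector p (Lw c)) * Core2_zw c + ((θ : ℕ) : WittVector p (Lw c))) := by
        refine ((Core2_W_z c w hw θ).map τ1).trans ?_
        rw [map_add, Core2_map_nat]
        exact hτ1z.add (Core2Eqs.refl _)
      exact h6.trans h7.symm
  refine ⟨RingEquiv.ofBijective τ1 ⟨τ1.injective, hsurj⟩, hτ1K, fun i => ?_, fun x => ?_, hN2,
    fun x => ?_⟩
  · have h8 := (hτ1z.map (algebraMap (Lw c) (Om k))).trans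
      (b := WittVector.map (algebraMap (Lw c) (Om k))
        (((θ : ℕ) : WittVector p (Lw c)) * Core2_zw c)) (Core2Eqs.refl _) i i.2
    rw [WittVector.map_coeff, WittVector.map_coeff, Core2_zw_coeff c i.2] at h8
    have h9 : Core2Eqs s (WittVector.map (algebraMap (Lw c) (Om k))
        (((θ : ℕ) : WittVector p (Lw c)) * Core2_zw c)) (((θ : ℕ) : WittVector p (Om k)) * wz c) := by
      rw [map_mul, Core2_map_nat]
      exact (Core2Eqs.refl _).mul (Core2_map_zw c)
    exact h8.trans (h9 i i.2)
  · change ((τ1 x : Lw c) : Om k).orderTop = _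
    rw [hτ1, orderTop_hmulHom, Core2_order]
  · have h10 := RingHom.congr_fun hcomm x
    change (w ^ 1) (τ1 x) = τ1 ((w ^ θ) x) at h10
    rw [pow_one] at h10
    exact h10

end

end Pool.Agent.WG
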