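import Pool.Agent.WG.M2

/-! # Roots of units (piece WG-M3) -/

namespace Pool.Agent.WG

open Polynomial Pool.Agent.WD

noncomputable section

universe u

private theorem M3_mem {A N : Type*} [CommRing A] [AddCommGroup N] [Module A N] (r : A) (n : ℕ)
    (x : N) : x ∈ ((Ideal.span {r}) ^ n • ⊤ : Submodule A N) ↔ ∃ y, r ^ n • y = x := by
  rw [Ideal.span_singleton_pow, Submodule.ideal_span_singleton_smul,
    Submodule.mem_smul_pointwise_iff_exists]
  simp

private theorem M3_complete {A N : Type*} [CommRing A] [AddCommGroup N] [Module A N] {d : ℕ}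
    (b : Module.Basis (Fin d) A N) (r : A) [IsAdicComplete (Ideal.span {r}) A] :
    IsAdicComplete (Ideal.span {r}) N := by
  have hA1 : IsHausdorff (Ideal.span {r}) A := inferInstance
  have hA2 : IsPrecomplete (Ideal.span {r}) A := inferInstance
  have h1 : IsHausdorff (Ideal.span {r}) N := by
    refine ⟨fun x hx => ?_⟩
    apply b.repr.injective
    ext i
    rw [map_zero, Finsupp.zero_apply]
    refine hA1.haus _ (fun n => ?_)
    have h := hx n
    rw [SModEq.zero, M3_mem] at h
    rw [SModEq.zero, M3_mem]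
    obtain ⟨y, hy⟩ := h
    refine ⟨b.repr y i, ?_⟩
    rw [← hy, map_smul, Finsupp.smul_apply]
  have h2 : IsPrecomplete (Ideal.span {r}) N := by
    refine ⟨fun f hf => ?_⟩
    have h3 : ∀ i : Fin d, ∃ L : A, ∀ n, b.repr (f n) i ≡ L
        [SMOD ((Ideal.span {r}) ^ n • ⊤ : Submodule A A)] := by
      intro i
      refine hA2.prec' (fun n => b.repr (f n) i) (fun {m n} hmn => ?_)
      have h := hf hmn
      rw [SModEq.sub_mem, M3_mem] at h
      rw [SModEq.sub_mem, M3_mem]
      obtain ⟨y, hy⟩ := h
      refine ⟨b.repr y i, ?_⟩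
      have h5 : b.repr (f m) - b.repr (f n) = r ^ m • b.repr y := by
        rw [← map_sub, ← hy, map_smul]
      rw [← Finsupp.sub_apply, h5, Finsupp.smul_apply]
    choose L hL using h3
    refine ⟨∑ i, L i • b i, fun n => ?_⟩
    rw [SModEq.sub_mem, M3_mem]
    have h4 : ∀ i, ∃ y : A, r ^ n • y = b.repr (f n) i - L i := by
      intro i
      have h := hL i n
      rwa [SModEq.sub_mem, M3_mem] at h
    choose y hy using h4
    refine ⟨∑ i, y i • b i, ?_⟩
    rw [Finset.smul_sum]
    conv_rhs => rw [← b.sum_repr (f n), ← Finset.sum_sub_distrib]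
    refine Finset.sum_congr rfl (fun i _ => ?_)
    rw [← sub_smul, ← hy i, smul_assoc]
  exact { h1, h2 with }

private theorem M3_art (A B : Type*) [CommRing A] [IsLocalRing A] [CommRing B] [Algebra A B]
    [Module.Finite A B] :
    IsArtinianRing (B ⧸ (IsLocalRing.maximalIdeal A).map (algebraMap A B)) := by
  have h1 : IsArtinianRing (A ⧸ IsLocalRing.maximalIdeal A) := by
    let _ := Ideal.Quotient.field (IsLocalRing.maximalIdeal A)
    infer_instance
  have h2 : Module.Finite (A ⧸ IsLocalRing.maximalIdeal A)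
      (B ⧸ (IsLocalRing.maximalIdeal A).map (algebraMap A B)) :=
    Module.Finite.of_restrictScalars_finite A _ _
  have h3 : IsArtinian (A ⧸ IsLocalRing.maximalIdeal A)
      (B ⧸ (IsLocalRing.maximalIdeal A).map (algebraMap A B)) := inferInstance
  exact isArtinian_of_tower (A ⧸ IsLocalRing.maximalIdeal A) h3

variable {k : Type u} [Field k] {M : Type u} [Field M] [Algebra (LaurentSeries k) M]
  [Algebra (PowerSeries k) M] [IsScalarTower (PowerSeries k) (LaurentSeries k) M]
  [FiniteDimensional (LaurentSeries k) M] [Algebra.IsSeparable (LaurentSeries k) M]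

/-- one step of the approximation -/
private theorem M3_step {B : Type*} [CommRing B] (n : ℕ) (hn : IsUnit (n : B)) (I : Ideal B)
    (v c : B) (hc : IsUnit c) (r : ℕ) (h : c ^ n - v ∈ I ^ (r + 1)) :
    ∃ c' : B, c' - c ∈ I ^ (r + 1) ∧ c' ^ n - v ∈ I ^ (r + 2) := by
  obtain ⟨w, hw⟩ := (hn.mul (hc.pow (n - 1))).exists_right_inv
  set y := c ^ n - v with hy
  refine ⟨c + -(y * w), ?_, ?_⟩
  · have : c + -(y * w) - c = -(y * w) := by ring
    rw [this]
    exact (I ^ (r + 1)).neg_mem (Ideal.mul_mem_right _ _ h)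
  · obtain ⟨e, he⟩ := Polynomial.powAddExpansion c (-(y * w)) n
    have h2 : (c + -(y * w)) ^ n - v = e * w ^ 2 * (y * y) := by
      rw [he]
      linear_combination (-y) * hw
    rw [h2]
    refine Ideal.mul_mem_left _ _ ?_
    have h3 := Ideal.mul_mem_mul h h
    rw [← pow_add] at h3
    exact Ideal.pow_le_pow_right (by omega) h3

/-- WG-M4: units have `n`-th roots, if `n` is prime to the characteristic (Hensel's lemma). -/
theorem exists_root_unit [IsAlgClosed k] (n : ℕ) (hn : (n : k) ≠ 0)
    (v : (integralClosure (PowerSeries k) M)ˣ) :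
    ∃ x : integralClosure (PowerSeries k) M, x ^ n = v := by
  have hn0 : n ≠ 0 := by
    rintro rfl
    simp at hn
  let B := integralClosure (PowerSeries k) M
  have hloc : IsLocalRing B := isLocalRing_B
  have hfin : Module.Finite (PowerSeries k) B :=
    IsIntegralClosure.finite (PowerSeries k) (LaurentSeries k) M B
  have hnB : IsUnit (n : B) := by
    have h1 : IsUnit (PowerSeries.C (n : k)) := (IsUnit.mk0 _ hn).map PowerSeries.C
    have h2 := h1.map (algebraMap (PowerSeries k) B)
    simpa using h2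
  -- residues
  obtain ⟨a, ha⟩ := exists_residue (v : B)
  have ha0 : a ≠ 0 := by
    rintro rfl
    apply ha
    simp
  obtain ⟨e, he⟩ := IsAlgClosed.exists_pow_nat_eq a (Nat.pos_of_ne_zero hn0)
  have he0 : e ≠ 0 := by
    rintro rfl
    rw [zero_pow hn0] at he
    exact ha0 he.symm
  let c₀ : B := algebraMap (PowerSeries k) B (PowerSeries.C e)
  have hc₀ : IsUnit c₀ := ((IsUnit.mk0 _ he0).map PowerSeries.C).map _
  have h0 : c₀ ^ n - v ∈ (IsLocalRing.maximalIdeal B) ^ (0 + 1) := by
    rw [zero_add, pow_one, IsLocalRing.mem_maximalIdeal, mem_nonunits_iff]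
    intro h
    apply ha
    have h1 : (v : B) - algebraMap (PowerSeries k) B (PowerSeries.C a) = -(c₀ ^ n - v) := by
      simp only [c₀]
      rw [← map_pow, ← map_pow, he]
      ring
    rw [h1]
    exact h.neg
  have key : ∀ r : ℕ, ∃ c : B, IsUnit c ∧
      c ^ n - v ∈ (IsLocalRing.maximalIdeal B) ^ (r + 1) := by
    intro r
    induction r with
    | zero => exact ⟨c₀, hc₀, h0⟩
    | succ r ih =>
      obtain ⟨c, hc, h⟩ := ih
      obtain ⟨c', h1, h2⟩ := M3_step n hnB _ (v : B) c hc r h
      refine ⟨c', ?_, h2⟩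
      by_contra hcon
      have h3 : c' ∈ IsLocalRing.maximalIdeal B := hcon
      have h4 := Ideal.pow_le_self (Nat.succ_ne_zero r) h1
      have h5 := (IsLocalRing.maximalIdeal B).sub_mem h3 h4
      rw [sub_sub_cancel] at h5
      exact h5 hc
  have := M3_art (PowerSeries k) B
  obtain ⟨j, hj⟩ := IsLocalRing.exists_maximalIdeal_pow_le_of_isArtinianRing_quotient
    ((IsLocalRing.maximalIdeal (PowerSeries k)).map (algebraMap (PowerSeries k) B))
  obtain ⟨c, hc, hcv⟩ := key j
  have hcv' := hj (Ideal.pow_le_pow_right (Nat.le_succ j) hcv)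
  -- completeness
  have htf : Module.IsTorsionFree (PowerSeries k) M :=
    Module.IsTorsionFree.trans_faithfulSMul (PowerSeries k) (LaurentSeries k) M
  have hfree : Module.Free (PowerSeries k) B :=
    IsIntegralClosure.module_free (PowerSeries k) (LaurentSeries k) M B
  have hcomp : IsAdicComplete ((Ideal.span {(PowerSeries.X : PowerSeries k)}).map
      (algebraMap (PowerSeries k) B)) B := by
    rw [IsAdicComplete.map_algebraMap_iff]
    exact M3_complete (Module.finBasis (PowerSeries k) B) PowerSeries.X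
  have hhen : HenselianRing B ((Ideal.span {(PowerSeries.X : PowerSeries k)}).map
      (algebraMap (PowerSeries k) B)) := inferInstance
  obtain ⟨x, hx, -⟩ := hhen.is_henselian (X ^ n - C (v : B)) (monic_X_pow_sub_C _ hn0) c
    (by
      rw [eval_sub, eval_pow, eval_X, eval_C]
      rwa [PowerSeries.maximalIdeal_eq_span_X] at hcv') (by
      rw [derivative_sub, derivative_X_pow, derivative_C, sub_zero, eval_mul, eval_C, eval_pow,
        eval_X]
      exact (hnB.mul (hc.pow _)).map _)
  refine ⟨x, ?_⟩
  rw [IsRoot.def, eval_sub, eval_pow, eval_X, eval_C, sub_eq_zero] at hx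
  exact hx

end

end Pool.Agent.WG
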