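import Pool.Agent.WG.M2
import Pool.Agent.WG.M3

/-! # Extensions of `k((t))` of a degree prime to `p` (piece WG-M4) -/

namespace Pool.Agent.WG

open Polynomial Pool.Agent.WD

noncomputable section

universe u

variable {k : Type u} [Field k] {M : Type u} [Field M] [Algebra (LaurentSeries k) M]
  [Algebra (PowerSeries k) M] [IsScalarTower (PowerSeries k) (LaurentSeries k) M]
  [FiniteDimensional (LaurentSeries k) M] [Algebra.IsSeparable (LaurentSeries k) M]

/-- `t` is an `n`-th power in `M`, `n = [M : K]` prime to `p`  -/
theorem exists_root_of_coprime [IsAlgClosed k]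
    (hn : ((Module.finrank (LaurentSeries k) M : ℕ) : k) ≠ 0) :
    ∃ x : M, x ^ Module.finrank (LaurentSeries k) M =
      algebraMap (LaurentSeries k) M (HahnSeries.single 1 1) := by
  obtain ⟨ϖ, v, -, hv⟩ := exists_uniformizer (k := k) (M := M)
  obtain ⟨y, hy⟩ := exists_root_unit (k := k) (M := M) (Module.finrank (LaurentSeries k) M) hn v
  refine ⟨((y * ϖ : integralClosure (PowerSeries k) M) : M), ?_⟩
  have h1 : (y * ϖ) ^ Module.finrank (LaurentSeries k) M =
      algebraMap (PowerSeries k) (integralClosure (PowerSeries k) M) PowerSeries.X := by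
    rw [mul_pow, hy, hv]
  have h2 := congrArg (fun z : integralClosure (PowerSeries k) M => (z : M)) h1
  have h3 : ((algebraMap (PowerSeries k) (integralClosure (PowerSeries k) M)
      PowerSeries.X : integralClosure (PowerSeries k) M) : M) =
      algebraMap (PowerSeries k) M PowerSeries.X := rfl
  have h4 : algebraMap (PowerSeries k) M PowerSeries.X =
      algebraMap (LaurentSeries k) M (HahnSeries.single 1 1) := by
    rw [IsScalarTower.algebraMap_apply (PowerSeries k) (LaurentSeries k) M,
      LaurentSeries.coe_algebraMap, HahnSeries.ofPowerSeries_X]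
  rw [← h4, ← h3, ← h2]
  rfl

omit [Algebra (PowerSeries k) M] [IsScalarTower (PowerSeries k) (LaurentSeries k) M]
  [Algebra.IsSeparable (LaurentSeries k) M] in
/-- if `x^n = t`, `n = [M : K]`, then `M = K(x)` -/
theorem adjoin_eq_top (x : M) (hx : x ^ Module.finrank (LaurentSeries k) M =
      algebraMap (LaurentSeries k) M (HahnSeries.single 1 1)) :
    IntermediateField.adjoin (LaurentSeries k) {x} = ⊤ := by
  set n := Module.finrank (LaurentSeries k) M with hn
  set F := IntermediateField.adjoin (LaurentSeries k) {x} with hF
  let g : F := ⟨x, IntermediateField.mem_adjoin_simple_self _ x⟩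
  have hg : g ^ n = algebraMap (LaurentSeries k) F (HahnSeries.single 1 1) := by
    apply Subtype.ext
    exact hx
  have h1 : (Algebra.norm (LaurentSeries k) g) ^ n =
      (HahnSeries.single 1 1 : LaurentSeries k) ^ Module.finrank (LaurentSeries k) F := by
    rw [← map_pow, hg, Algebra.norm_algebraMap]
  have h2 := congrArg HahnSeries.order h1
  rw [HahnSeries.order_pow, HahnSeries.order_pow, HahnSeries.order_single one_ne_zero] at h2
  have h3 : 0 < Module.finrank (LaurentSeries k) F := Module.finrank_pos
  have h4 : n ∣ Module.finrank (LaurentSeries k) F := by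
    have h5 : (n : ℤ) ∣ (Module.finrank (LaurentSeries k) F : ℤ) := by
      refine ⟨(Algebra.norm (LaurentSeries k) g).order, ?_⟩
      simpa using h2.symm
    exact_mod_cast h5
  apply IntermediateField.eq_of_le_of_finrank_le le_top
  rw [IntermediateField.finrank_top']
  exact Nat.le_of_dvd h3 h4

end

end Pool.Agent.WG
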