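import Pool.Agent.WG.Cls
import Pool.Agent.WG.Tame

/-! # The wild part is a `p`-group (piece WG-D1) -/

namespace Pool.Agent.WG

open Polynomial Pool.Agent.WD Pool.Agent.WC

noncomputable section

universe u v

variable {p : ℕ} [Fact p.Prime] {k : Type u} [Field k] [IsAlgClosed k] [CharP k p] {s : ℕ}
  {G : Type v} [Group G] {N κ θ : ℕ} [NeZero N] {ζ : kˣ} {γ g : G}

/-- WG-D1: the wild part is a `p`-group: let `P` be a Sylow `p`-subgroup of the image `H` of `φ`
and `M` the fixed field of `φ⁻¹(P)`; its degree is `[H : P]`, which divides `N`, so `M` is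
generated by a root of `t` and is contained in `K(T)`. -/
theorem wild_isPGroup [Finite G] {e : ℕ} (hG : Nat.card G = N * p ^ e) (hN : ¬ p ∣ N)
    (hζ : IsPrimitiveRoot ζ N) (φ : Torsor k G) {T : Ks k} (hT : T ^ N = tK k) :
    IsPGroup p (Wild φ T) := by
  classical
  have : Fintype G := Fintype.ofFinite G
  -- the image and a Sylow subgroup of it
  let H : Subgroup G := φ.hom.range
  let ψ : GalK k →* H := φ.hom.rangeRestrict
  have hψ : Function.Surjective ψ := φ.hom.rangeRestrict_surjective
  obtain ⟨P⟩ : Nonempty (Sylow p H) := inferInstance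
  let U : Subgroup (GalK k) := (P : Subgroup H).comap ψ
  have hUi : U.index = (P : Subgroup H).index := Subgroup.index_comap_of_surjective _ hψ
  have hPi : ¬ p ∣ (P : Subgroup H).index := P.not_dvd_index
  have hdvd : (P : Subgroup H).index ∣ N := by
    have h1 : (P : Subgroup H).index ∣ Nat.card H := (P : Subgroup H).index_dvd_card
    have h2 : Nat.card H ∣ Nat.card G := Subgroup.card_subgroup_dvd_card H
    have h3 : (P : Subgroup H).index ∣ N * p ^ e := hG ▸ h1.trans h2
    have h4 : Nat.Coprime (P : Subgroup H).index (p ^ e) :=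
      Nat.Coprime.pow_right e ((Nat.Prime.coprime_iff_not_dvd (Fact.out : p.Prime)).2 hPi).symm
    exact h4.dvd_of_dvd_mul_right h3
  have hN0 : N ≠ 0 := NeZero.ne N
  -- the subgroup `U` is open
  obtain ⟨S, hS⟩ := φ.cont
  have hUo : IsOpen (U : Set (GalK k)) := by
    let E : IntermediateField (LaurentSeries k) (Ks k) :=
      IntermediateField.adjoin (LaurentSeries k) (S : Set (Ks k))
    have : FiniteDimensional (LaurentSeries k) E :=
      IntermediateField.finiteDimensional_adjoin
        (fun x _ => Algebra.IsIntegral.isIntegral (R := LaurentSeries k) x)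
    have h1 : IsOpen (E.fixingSubgroup : Set (GalK k)) := IntermediateField.fixingSubgroup_isOpen E
    refine Subgroup.isOpen_mono (H₁ := E.fixingSubgroup) ?_ h1
    intro σ hσ
    have h2 : φ.hom σ = 1 := hS σ fun x hx =>
      (IntermediateField.mem_fixingSubgroup_iff E σ).1 hσ x
        (IntermediateField.subset_adjoin _ _ hx)
    change ψ σ ∈ (P : Subgroup H)
    have h3 : ψ σ = 1 := Subtype.ext h2
    rw [h3]
    exact Subgroup.one_mem _
  have hUc : IsClosed (U : Set (GalK k)) := Subgroup.isClosed_of_isOpen U hUo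
  let F : IntermediateField (LaurentSeries k) (Ks k) := IntermediateField.fixedField U
  have hF : F.fixingSubgroup = U :=
    InfiniteGalois.fixingSubgroup_fixedField (⟨U, hUc⟩ : ClosedSubgroup (GalK k))
  have hrank : Module.finrank (LaurentSeries k) F = (P : Subgroup H).index := by
    rw [IntermediateField.finrank_eq_fixingSubgroup_index, hF, hUi]
  have hpos : 0 < Module.finrank (LaurentSeries k) F := by
    rw [hrank]
    exact Nat.pos_of_ne_zero fun h0 => hN0 (by rw [h0] at hdvd; exact Nat.eq_zero_of_zero_dvd hdvd)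
  have : FiniteDimensional (LaurentSeries k) F := Module.finite_of_finrank_pos hpos
  let _ : Algebra (PowerSeries k) F :=
    ((algebraMap (LaurentSeries k) F).comp (algebraMap (PowerSeries k) (LaurentSeries k))).toAlgebra
  have : IsScalarTower (PowerSeries k) (LaurentSeries k) F :=
    IsScalarTower.of_algebraMap_eq fun _ => rfl
  have hne : ((Module.finrank (LaurentSeries k) F : ℕ) : k) ≠ 0 := by
    rw [hrank]
    intro h0
    exact hPi ((CharP.cast_eq_zero_iff k p _).1 h0)
  obtain ⟨x, hx⟩ := exists_root_of_coprime (k := k) (M := F) hne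
  have htop := adjoin_eq_top x hx
  rw [hrank] at hx
  obtain ⟨m, hm⟩ := hdvd
  set n : ℕ := (P : Subgroup H).index with hn
  have hn0 : 0 < n := by rw [← hrank]; exact hpos
  have hm0 : m ≠ 0 := fun h0 => hN0 (by rw [hm, h0, mul_zero])
  have hxt : (x : Ks k) ^ n = tK k := by
    have h1 := congrArg (fun y : F => (y : Ks k)) hx
    exact h1
  have hT0 : T ≠ 0 := by
    intro h0
    rw [h0, zero_pow hN0] at hT
    exact tK_ne_zero hT.symm
  have hTm : (T ^ m) ^ n = tK k := by rw [← pow_mul, mul_comm m n, ← hm, hT]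
  have hprim : IsPrimitiveRoot (cK k ((ζ : k) ^ m)) n := by
    have h1 : IsPrimitiveRoot (ζ : k) N := IsPrimitiveRoot.coe_units_iff.2 hζ
    have h2 : IsPrimitiveRoot ((ζ : k) ^ m) n := by
      have := h1.pow (Nat.pos_of_ne_zero hN0) (a := m) (b := n) (by rw [hm, mul_comm])
      exact this
    exact h2.map_of_injective (cK k).injective
  have hy1 : ((x : Ks k) / T ^ m) ^ n = 1 := by
    rw [div_pow, hxt, hTm, div_self tK_ne_zero]
  have : NeZero n := ⟨hn0.ne'⟩
  obtain ⟨i, -, hi⟩ := hprim.eq_pow_of_pow_eq_one hy1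
  have hxT : (x : Ks k) = cK k ((ζ : k) ^ m) ^ i * T ^ m := by
    rw [hi, div_mul_cancel₀ _ (pow_ne_zero m hT0)]
  -- conclusion
  have hWle : Wild φ T ≤ (P : Subgroup H).map H.subtype := by
    unfold Wild
    rw [Subgroup.closure_le]
    rintro g ⟨σ, hσT, rfl⟩
    have hσx : σ (x : Ks k) = x := by
      rw [hxT, map_mul, map_pow σ, sigma_cK, map_pow σ T m, hσT]
    have hσF : σ ∈ F.fixingSubgroup := by
      rw [IntermediateField.mem_fixingSubgroup_iff]
      intro z hz
      have hz' : (⟨z, hz⟩ : F) ∈ IntermediateField.adjoin (LaurentSeries k) {x} := by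
        rw [htop]
        exact IntermediateField.mem_top
      refine IntermediateField.adjoin_induction (LaurentSeries k)
        (p := fun (y : F) _ => σ (y : Ks k) = y) ?_ ?_ ?_ ?_ ?_ hz'
      · intro y hy
        rw [Set.mem_singleton_iff.1 hy]
        exact hσx
      · intro a
        exact σ.commutes a
      · intro a b _ _ ha hb
        change σ ((a : Ks k) + b) = a + b
        rw [map_add, ha, hb]
      · intro a _ ha
        change σ ((a : Ks k)⁻¹) = (a : Ks k)⁻¹
        rw [map_inv₀, ha]
      · intro a b _ _ ha hb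
        change σ ((a : Ks k) * b) = a * b
        rw [map_mul, ha, hb]
    rw [hF] at hσF
    exact ⟨ψ σ, hσF, rfl⟩
  exact IsPGroup.to_le (P.isPGroup'.map H.subtype) hWle

end

end Pool.Agent.WG
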