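import Pool.Agent.WG.D1

/-! # The pair of a torsor (piece WG-D2) -/

namespace Pool.Agent.WG

open Polynomial Pool.Agent.WD Pool.Agent.WC

noncomputable section

universe u v

variable {p : ℕ} [Fact p.Prime] {k : Type u} [Field k] [IsAlgClosed k] [CharP k p] {s : ℕ}
  {G : Type v} [Group G] {N κ θ : ℕ} [NeZero N] {ζ : kˣ} {γ g : G}

private theorem D2_pow_T {σ : GalK k} {a : k} {T : Ks k} (h : σ T = cK k a * T) (n : ℕ) :
    (σ ^ n) T = cK k a ^ n * T := by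
  induction n with
  | zero => simp
  | succ n ih =>
    rw [pow_succ', AlgEquiv.mul_apply, ih, map_mul, map_pow, sigma_cK, h, pow_succ]
    ring

/-- WG-D2: the pair of a torsor -/
theorem exists_pair [Finite G] (hG : ∀ P : Sylow p G, IsCyclic P) {e : ℕ}
    (hcard : Nat.card G = N * p ^ e) (hN : ¬ p ∣ N) (hζ : IsPrimitiveRoot ζ N) (φ : Torsor k G)
    {T : Ks k} (hT : T ^ N = tK k) :
    ∃ x : G × G, AdmP p N x ∧ Wild φ T = Subgroup.zpowers x.2 ∧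
      ∃ σ : GalK k, σ T = cK k (ζ : k) * T ∧ φ.hom σ = x.1 := by
  have hp : p.Prime := Fact.out
  have hNk : (N : k) ≠ 0 := fun h0 => hN ((CharP.cast_eq_zero_iff k p N).1 h0)
  obtain ⟨σ₀, hσ₀⟩ := exists_sigma_T hNk ζ hζ hT
  have hζN : (cK k (ζ : k)) ^ N = 1 := by
    rw [← map_pow, ← Units.val_pow_eq_pow_val, hζ.pow_eq_one, Units.val_one, map_one]
  have hW : IsPGroup p (Wild φ T) := wild_isPGroup hcard hN hζ φ hT
  obtain ⟨P, hP⟩ := hW.exists_le_sylow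
  have : IsCyclic P := hG P
  have hWc : IsCyclic (Wild φ T) :=
    isCyclic_of_injective (Subgroup.inclusion hP) (Subgroup.inclusion_injective hP)
  obtain ⟨g, hg⟩ := (Subgroup.isCyclic_iff_exists_zpowers_eq_top _).1 hWc
  have hord : ∀ x ∈ Wild φ T, ∃ j : ℕ, orderOf x = p ^ j := by
    intro x hx
    obtain ⟨j, hj⟩ := (IsPGroup.iff_orderOf.1 hW) ⟨x, hx⟩
    rw [Subgroup.orderOf_mk] at hj
    exact ⟨j, hj⟩
  have hgW : g ∈ Wild φ T := by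
    rw [← hg]
    exact Subgroup.mem_zpowers g
  have hyN : (φ.hom σ₀) ^ N ∈ Wild φ T := by
    refine mem_Wild.2 ⟨σ₀ ^ N, ?_, map_pow _ _ _⟩
    rw [D2_pow_T hσ₀, hζN, one_mul]
  have hcop : Nat.Coprime N (p ^ e) :=
    Nat.Coprime.pow_right e ((Nat.Prime.coprime_iff_not_dvd hp).2 hN).symm
  have hyp : ((φ.hom σ₀) ^ N) ^ (p ^ e) = 1 := by
    obtain ⟨j, hj⟩ := hord _ hyN
    have h1 : p ^ j ∣ N * p ^ e := by
      rw [← hj, ← hcard]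
      exact orderOf_dvd_natCard _
    have h2 : Nat.Coprime (p ^ j) N :=
      Nat.Coprime.pow_left j ((Nat.Prime.coprime_iff_not_dvd hp).2 hN)
    rw [← orderOf_dvd_iff_pow_eq_one, hj]
    exact h2.dvd_of_dvd_mul_left h1
  obtain ⟨m, hm1, hm2⟩ := Nat.chineseRemainder hcop 1 0
  have hσT : (σ₀ ^ m) T = cK k (ζ : k) * T := by
    rw [D2_pow_T hσ₀, pow_eq_pow_of_modEq hm1 hζN, pow_one]
  have hγN : (φ.hom (σ₀ ^ m)) ^ N = 1 := by
    obtain ⟨c, hc⟩ := (Nat.modEq_zero_iff_dvd.1 hm2)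
    rw [map_pow, ← pow_mul, mul_comm m N, hc, pow_mul, pow_mul, hyp, one_pow]
  have hθ : ∃ θ : ℕ, (φ.hom (σ₀ ^ m))⁻¹ * g * φ.hom (σ₀ ^ m) = g ^ θ := by
    obtain ⟨τ, hτ, hτg⟩ := mem_Wild.1 hgW
    have h1 : (φ.hom (σ₀ ^ m))⁻¹ * g * φ.hom (σ₀ ^ m) ∈ Wild φ T := by
      refine mem_Wild.2 ⟨(σ₀ ^ m)⁻¹ * τ * σ₀ ^ m, ?_, ?_⟩
      · rw [AlgEquiv.mul_apply, AlgEquiv.mul_apply, hσT, map_mul, sigma_cK, hτ, ← hσT,
          ← AlgEquiv.mul_apply, inv_mul_cancel, AlgEquiv.one_apply]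
      · rw [map_mul, map_mul, map_inv, hτg]
    rw [← hg, ← mem_powers_iff_mem_zpowers] at h1
    obtain ⟨θ, hθ⟩ := h1
    exact ⟨θ, hθ.symm⟩
  exact ⟨(φ.hom (σ₀ ^ m), g), ⟨hγN, hord g hgW, hθ⟩, hg.symm, σ₀ ^ m, hσT, rfl⟩

end

end Pool.Agent.WG
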