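import Pool.Agent.WG.D2
import Pool.Agent.WG.C6
import Pool.Agent.WG.Adm2

/-! # Classification (piece WG-D3) -/

namespace Pool.Agent.WG

open Polynomial Pool.Agent.WD Pool.Agent.WC

noncomputable section

universe u v

variable {p : ℕ} [Fact p.Prime] {k : Type u} [Field k] [IsAlgClosed k] [CharP k p] {s : ℕ}
  {G : Type v} [Group G] {N κ θ : ℕ} [NeZero N] {ζ : kˣ} {γ g : G}

omit [Fact p.Prime] [IsAlgClosed k] [CharP k p] in
private theorem D3_conj_mem (h x y : G) :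
    h * y * h⁻¹ ∈ Subgroup.zpowers (h * x * h⁻¹) ↔ y ∈ Subgroup.zpowers x := by
  constructor
  · rintro ⟨n, hn⟩
    refine ⟨n, ?_⟩
    simp only [conj_zpow] at hn
    exact mul_left_cancel (mul_right_cancel hn)
  · rintro ⟨n, rfl⟩
    exact ⟨n, by simp only [conj_zpow]⟩

/-- WG-D3: every torsor is isomorphic to one of a type `(γ, g, c)`, where `(γ, g)` is one of the
representatives -/
theorem classify [Finite G] (hG : ∀ P : Sylow p G, IsCyclic P) {e : ℕ}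
    (hcard : Nat.card G = N * p ^ e) (hN : ¬ p ∣ N) (hζ : IsPrimitiveRoot ζ N) {m : ℕ}
    {R : Fin m → G × G} (hR : Reps p N R) {s θ κ : Fin m → ℕ}
    (hA : ∀ i, Adm p N ζ (R i).1 (R i).2 (s i) (θ i) (κ i)) (φ : Torsor k G) :
    ∃ (i : Fin m) (c : Par p (s i) k) (ψ : Torsor k G), Val N (κ i) c ∧
      IsType N (ζ : k) (R i).1 (R i).2 c ψ ∧ Iso φ ψ := by
  have hNk : (N : k) ≠ 0 := by
    intro h0
    exact hN ((CharP.cast_eq_zero_iff k p N).1 h0)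
  obtain ⟨T, hT⟩ := exists_T (k := k) N hNk
  obtain ⟨x, hx, hW, σ₀, hσ₀, hσ₀x⟩ := exists_pair hG hcard hN hζ φ hT
  obtain ⟨i, h, hz, hm⟩ := hR.2.1 x hx
  have hW' : Wild (conjT h φ) T = Subgroup.zpowers (R i).2 := by
    rw [← hz]
    ext y
    rw [mem_Wild]
    constructor
    · rintro ⟨σ, hσ, rfl⟩
      rw [conjT_hom, D3_conj_mem, ← hW, mem_Wild]
      exact ⟨σ, hσ, rfl⟩
    · intro hy
      have hy' : y = h * (h⁻¹ * y * h) * h⁻¹ := by group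
      rw [hy', D3_conj_mem, ← hW, mem_Wild] at hy
      obtain ⟨σ, hσ, hσy⟩ := hy
      exact ⟨σ, hσ, by rw [conjT_hom, hσy, ← hy']⟩
  have hγ : ∃ σ : GalK k, σ T = cK k (ζ : k) * T ∧ (conjT h φ).hom σ = (R i).1 := by
    have h1 : ((R i).1⁻¹ * (h * x.1 * h⁻¹))⁻¹ ∈ Wild (conjT h φ) T := by
      rw [hW']
      exact Subgroup.inv_mem _ hm
    obtain ⟨τ, hτ, hτ'⟩ := mem_Wild.1 h1
    refine ⟨σ₀ * τ, ?_, ?_⟩
    · rw [AlgEquiv.mul_apply, hτ, hσ₀]
    · rw [map_mul, hτ', conjT_hom, hσ₀x]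
      group
  obtain ⟨c, hc, hc'⟩ := exists_type hN hζ (hA i) hT hW' hγ
  exact ⟨i, c, conjT h φ, hc, hc', iso_conjT h φ⟩

end

end Pool.Agent.WG
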