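import Pool.Agent.WG.C1
import Pool.Agent.WG.C2
import Pool.Agent.WG.C3
import Pool.Agent.WG.Adm3

/-! # Uniqueness (piece WG-D4) -/

namespace Pool.Agent.WG

open Polynomial Pool.Agent.WD Pool.Agent.WC

noncomputable section

universe u v

variable {p : ℕ} [Fact p.Prime] {k : Type u} [Field k] [IsAlgClosed k] [CharP k p] {s : ℕ}
  {G : Type v} [Group G] {N κ θ : ℕ} [NeZero N] {ζ : kˣ} {γ g : G}

private theorem D4_key (hN : ¬ p ∣ N) (hζ : IsPrimitiveRoot ζ N) {γ' g' : G} {s' θ' κ' : ℕ}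
    (hA : Adm p N ζ γ g s θ κ) (hA' : Adm p N ζ γ' g' s' θ' κ') {c : Par p s k}
    {c' : Par p s' k} (hv : Val N κ c) (hv' : Val N κ' c') {φ ψ : Torsor k G}
    (h : IsType N (ζ : k) γ g c φ) (h' : IsType N (ζ : k) γ' g' c' ψ) {x : G}
    (hx : ∀ σ, ψ.hom σ = x * φ.hom σ * x⁻¹) :
    Subgroup.zpowers (x * g * x⁻¹) = Subgroup.zpowers g' ∧
      γ'⁻¹ * (x * γ * x⁻¹) ∈ Subgroup.zpowers g' := by
  have hNk : (N : k) ≠ 0 := by
    rw [Ne, CharP.cast_eq_zero_iff k p]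
    exact hN
  obtain ⟨T, hT⟩ := exists_T (k := k) N hNk
  obtain ⟨hW, hσ⟩ := wild_of_type hN hζ hA hv h hT
  obtain ⟨hW', hσ'⟩ := wild_of_type hN hζ hA' hv' h' hT
  obtain ⟨σ, hσT⟩ := exists_sigma_T hNk ζ hζ hT
  have hz : Subgroup.zpowers (x * g * x⁻¹) = Subgroup.zpowers g' := by
    apply le_antisymm
    · rw [Subgroup.zpowers_le, ← hW', mem_Wild]
      have h1 : g ∈ Wild φ T := by
        rw [hW]
        exact Subgroup.mem_zpowers g
      obtain ⟨τ, hτ, hτg⟩ := mem_Wild.1 h1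
      exact ⟨τ, hτ, by rw [hx, hτg]⟩
    · rw [Subgroup.zpowers_le]
      have h1 : g' ∈ Wild ψ T := by
        rw [hW']
        exact Subgroup.mem_zpowers g'
      obtain ⟨τ, hτ, hτg⟩ := mem_Wild.1 h1
      have h2 : φ.hom τ ∈ Wild φ T := mem_Wild.2 ⟨τ, hτ, rfl⟩
      rw [hW] at h2
      obtain ⟨j, hj⟩ := Subgroup.mem_zpowers_iff.1 h2
      rw [← hτg, hx, ← hj, ← conj_zpow]
      exact Subgroup.zpow_mem _ (Subgroup.mem_zpowers _) _
  refine ⟨hz, ?_⟩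
  have h1 := hσ σ hσT
  have h2 := hσ' σ hσT
  rw [hx] at h2
  obtain ⟨j, hj⟩ := Subgroup.mem_zpowers_iff.1 h1
  have h3 : x * (γ⁻¹ * φ.hom σ) * x⁻¹ ∈ Subgroup.zpowers g' := by
    rw [← hj, ← conj_zpow, ← hz]
    exact Subgroup.zpow_mem _ (Subgroup.mem_zpowers _) _
  have h4 : γ'⁻¹ * (x * γ * x⁻¹) =
      (γ'⁻¹ * (x * φ.hom σ * x⁻¹)) * (x * (γ⁻¹ * φ.hom σ) * x⁻¹)⁻¹ := by group
  rw [h4]
  exact Subgroup.mul_mem _ h2 (Subgroup.inv_mem _ h3)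

/-- WG-D4: the pair is unique -/
theorem pair_unique (hN : ¬ p ∣ N) (hζ : IsPrimitiveRoot ζ N) {γ' g' : G} {s' θ' κ' : ℕ}
    (hA : Adm p N ζ γ g s θ κ) (hA' : Adm p N ζ γ' g' s' θ' κ') {c : Par p s k}
    {c' : Par p s' k} (hv : Val N κ c) (hv' : Val N κ' c') {φ ψ : Torsor k G}
    (h : IsType N (ζ : k) γ g c φ) (h' : IsType N (ζ : k) γ' g' c' ψ) (hi : Iso φ ψ) :
    EqP (γ, g) (γ', g') := by
  obtain ⟨x, hx⟩ := hi
  exact ⟨x, D4_key hN hζ hA hA' hv hv' h h' hx⟩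

private theorem D4_conj_pow {γ g : G} {θ : ℕ} (h : γ⁻¹ * g * γ = g ^ θ) (n : ℕ) :
    (γ ^ n)⁻¹ * g * γ ^ n = g ^ (θ ^ n) := by
  induction n with
  | zero => simp
  | succ n ih =>
    have h1 : (γ ^ (n + 1))⁻¹ * g * γ ^ (n + 1) = γ⁻¹ * ((γ ^ n)⁻¹ * g * γ ^ n) * γ := by
      rw [pow_succ]
      group
    have h2 : γ⁻¹ * g ^ (θ ^ n) * γ = (γ⁻¹ * g * γ) ^ (θ ^ n) := by
      have h3 := conj_pow (i := θ ^ n) (a := γ⁻¹) (b := g)
      rw [inv_inv] at h3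
      exact h3.symm
    rw [h1, ih, h2, h, ← pow_mul, ← pow_succ']

private theorem D4_scl_scl (x y : k) (c : Par p s k) : scl x (scl y c) = scl (x * y) c := by
  ext j
  simp [scl, mul_assoc]

private theorem D4_val {x : k} (hx : x ≠ 0) {c : Par p s k} (hv : Val N κ c) :
    Val N κ (scl x c) := by
  refine ⟨fun j hj => hv.1 j ?_, fun h => ?_⟩
  · rw [Finsupp.mem_support_iff] at hj ⊢
    intro h0
    apply hj
    simp [scl, h0]
  · obtain ⟨j, hj⟩ := hv.2 h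
    refine ⟨j, ?_⟩
    simp only [scl, Finsupp.mapRange_apply]
    exact mul_ne_zero hx hj

private theorem D4_conjT_eq {φ ψ : Torsor k G} {x : G}
    (hx : ∀ σ, ψ.hom σ = x * φ.hom σ * x⁻¹) : conjT x φ = ψ := by
  rcases ψ with ⟨f, hf⟩
  have h1 : (MulAut.conj x).toMonoidHom.comp φ.hom = f := by
    ext σ
    exact (hx σ).symm
  subst h1
  rfl

/-- WG-D5: the parameter is unique up to `Theta` -/
theorem iso_iff [Finite G] (hG : ∀ P : Sylow p G, IsCyclic P) (hN : ¬ p ∣ N)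
    (hζ : IsPrimitiveRoot ζ N) (hA : Adm p N ζ γ g s θ κ) {c c' : Par p s k} (hv : Val N κ c)
    (hv' : Val N κ c') {φ ψ : Torsor k G} (h : IsType N (ζ : k) γ g c φ)
    (h' : IsType N (ζ : k) γ g c' ψ) :
    Iso φ ψ ↔ ∃ x ∈ Theta k p γ g, c' = scl (x : k) c := by
  have hp : p.Prime := Fact.out
  constructor
  · rintro ⟨x, hx⟩
    obtain ⟨hz, hγ⟩ := D4_key hN hζ hA hA hv hv' h h' hx
    have hex : ∃ a : ℕ, x * g * x⁻¹ = g ^ a ∧ a ^ p ≡ a [MOD p ^ s] ∧ (a : k) ≠ 0 := by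
      rcases Nat.eq_zero_or_pos s with hs | hs
      · have hg : g = 1 := by
          have h1 := hA.hg
          rw [hs, pow_zero, orderOf_eq_one_iff] at h1
          exact h1
        refine ⟨1, ?_, ?_, ?_⟩
        · rw [hg]
          simp
        · rw [one_pow]
        · simp
      · have h1 : x * g * x⁻¹ ∈ Subgroup.zpowers g := by
          rw [← hz]
          exact Subgroup.mem_zpowers _
        rw [← mem_powers_iff_mem_zpowers] at h1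
        obtain ⟨a, ha⟩ := h1
        have ha' : x * g * x⁻¹ = g ^ a := ha.symm
        obtain ⟨M, hM, hM'⟩ := teich_of_conj hG hA.hg ha'
        refine ⟨a, ha', pow_p_of_pow hM hM', ?_⟩
        rw [Ne, CharP.cast_eq_zero_iff k p]
        intro hpa
        have h2 : a ^ M ≡ 1 [MOD p] := hM'.of_dvd (dvd_pow_self p hs.ne')
        have hM0 : M ≠ 0 := by
          rintro rfl
          exact hM (dvd_zero p)
        have h3 : p ∣ a ^ M := dvd_pow hpa hM0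
        have h4 := (Nat.modEq_zero_iff_dvd.2 h3).symm.trans h2
        exact hp.one_lt.ne' (Nat.dvd_one.1 (Nat.modEq_zero_iff_dvd.1 h4.symm))
    obtain ⟨a, ha, hap, ha0⟩ := hex
    have h1 := type_conj hN hζ hA hv.1 h ha hap hγ
    rw [D4_conjT_eq hx] at h1
    obtain ⟨i, hi⟩ := param_unique hN hζ hA (D4_val ha0 hv) hv' h1 h'
    rw [D4_scl_scl] at hi
    have hθ0 : (θ : k) ≠ 0 := by
      rw [Ne, CharP.cast_eq_zero_iff k p]
      exact hA.hθp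
    refine ⟨Units.mk0 ((θ : k) ^ i * a) (mul_ne_zero (pow_ne_zero _ hθ0) ha0), ?_, hi⟩
    have hconj := D4_conj_pow hA.hθ i
    refine Subgroup.subset_closure ⟨θ ^ i * a, (γ ^ i)⁻¹ * x, ?_, ?_, ?_⟩
    · rw [Units.val_mk0]
      push_cast
      rfl
    · have h2 : (γ ^ i)⁻¹ * x * g * ((γ ^ i)⁻¹ * x)⁻¹ =
          (γ ^ i)⁻¹ * (x * g * x⁻¹) * (γ ^ i)⁻¹⁻¹ := by group
      rw [h2, ha, ← conj_pow, inv_inv, hconj, ← pow_mul]
    · have h2 : γ⁻¹ * ((γ ^ i)⁻¹ * x * γ * ((γ ^ i)⁻¹ * x)⁻¹) =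
          (γ ^ i)⁻¹ * (γ⁻¹ * (x * γ * x⁻¹)) * (γ ^ i)⁻¹⁻¹ := by group
      obtain ⟨j, hj⟩ := Subgroup.mem_zpowers_iff.1 hγ
      rw [h2, ← hj, ← conj_zpow, inv_inv, hconj]
      exact Subgroup.zpow_mem _ (Subgroup.pow_mem _ (Subgroup.mem_zpowers g) _) _
  · rintro ⟨x, hx, rfl⟩
    obtain ⟨a, y, hxa, hya, hyγ⟩ := (mem_Theta_iff hA x).1 hx
    obtain ⟨M, hM, hM'⟩ := teich_of_conj hG hA.hg hya
    have h1 := type_conj hN hζ hA hv.1 h hya (pow_p_of_pow hM hM') hyγ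
    rw [← hxa] at h1
    exact (iso_conjT y φ).trans (type_unique hN hζ hA hv'.1 h1 h')

end

end Pool.Agent.WG
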