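import Pool.Agent.WG.D3
import Pool.Agent.WG.D4

/-! # The class of a set of torsors (piece WG-D6) -/

namespace Pool.Agent.WG

open Polynomial Pool.Agent.WD Pool.Agent.WC

noncomputable section

universe u v

variable {p : ℕ} [Fact p.Prime] {k : Type u} [Field k] [IsAlgClosed k] [CharP k p] {s : ℕ}
  {G : Type v} [Group G] {N κ θ : ℕ} [NeZero N] {ζ : kˣ} {γ g : G}

theorem scale_eq_scl (x : k) (c : Par p s k) : scale x c = scl x c := rfl

theorem val_scl (x : kˣ) {c : Par p s k} (hv : Val N κ c) : Val N κ (scl (x : k) c) := by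
  have hc : ∀ y, (scl (x : k) c) y = (x : k) * c y := fun y => Finsupp.mapRange_apply ..
  refine ⟨fun y hy => hv.1 y ?_, fun h => ?_⟩
  · rw [Finsupp.mem_support_iff] at hy ⊢
    intro h0
    apply hy
    rw [hc, h0, mul_zero]
  · obtain ⟨j, hj⟩ := hv.2 h
    refine ⟨j, ?_⟩
    rw [hc]
    exact mul_ne_zero x.ne_zero hj

/-- WG-D6: the class of a set of torsors from the classes of its sets of parameters -/
theorem hasClassG_of [Finite G] (hG : ∀ P : Sylow p G, IsCyclic P) {e : ℕ}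
    (hcard : Nat.card G = N * p ^ e) (hN : ¬ p ∣ N) (hζ : IsPrimitiveRoot ζ N) {m : ℕ}
    {R : Fin m → G × G} (hR : Reps p N R) {s θ κ : Fin m → ℕ}
    (hA : ∀ i, Adm p N ζ (R i).1 (R i).2 (s i) (θ i) (κ i)) (r : Realization k)
    (S : ∀ i, Set (Par p (s i) k)) (hS : ∀ i, ∀ c ∈ S i, Val N (κ i) c)
    (hsc : ∀ i (x : kˣ), ∀ c ∈ S i, scl (x : k) c ∈ S i) (Q : Fin m → ℤ[X])
    (hQ : ∀ i, HasClass r (S i) (Q i)) (D : Set (Torsor k G))
    (hD : ∀ i (c : Par p (s i) k) (φ ψ : Torsor k G), Val N (κ i) c →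
      IsType N (ζ : k) (R i).1 (R i).2 c ψ → Iso φ ψ → (φ ∈ D ↔ c ∈ S i)) :
    HasClassG (p := p) r D (∑ i, Q i) := by
  have hNk : (N : k) ≠ 0 := fun h => hN ((CharP.cast_eq_zero_iff k p N).1 h)
  have hζk : IsPrimitiveRoot (ζ : k) N := IsPrimitiveRoot.coe_units_iff.2 hζ
  refine ⟨N, (ζ : k), m, fun i => ⟨(R i).1, (R i).2, s i, S i⟩,
    fun i => Theta k p (R i).1 (R i).2, Q, Nat.pos_of_ne_zero (NeZero.ne N), hζk, fun i => ?_, hQ,
    rfl, fun φ => ⟨fun hφ => ?_, ?_⟩, ?_⟩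
  · refine ⟨finite_Theta (hA i), fun x c hc => hsc i x c hc, fun c hc => ?_,
      fun c hc c' hc' φ ψ h h' => iso_iff hG hN hζ (hA i) (hS i c hc) (hS i c' hc') h h'⟩
    obtain ⟨T, hT⟩ := exists_T (k := k) N hNk
    obtain ⟨z, hz⟩ := exists_root_Ks c T
    obtain ⟨φ, hφ⟩ := exists_torsor hN hζ (hA i) (hS i c hc).1 (show Root N c T z from ⟨hT, hz⟩)
    exact ⟨φ, (isType_iff (hA i) c φ).2 ⟨T, z, ⟨hT, hz⟩, hφ⟩⟩
  · obtain ⟨i, c, ψ, hv, ht, hi⟩ := classify hG hcard hN hζ hR hA φ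
    exact ⟨i, c, (hD i c φ ψ hv ht hi).1 hφ, ψ, ht, hi⟩
  · rintro ⟨i, c, hc, ψ, ht, hi⟩
    exact (hD i c φ ψ (hS i c hc) ht hi).2 hc
  · rintro i j φ ⟨c, hc, ψ, ht, hi⟩ ⟨c', hc', ψ', ht', hi'⟩
    exact hR.2.2 i j (pair_unique hN hζ (hA i) (hA j) (hS i c hc) (hS j c' hc') ht ht'
      (hi.symm.trans hi'))

end

end Pool.Agent.WG
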