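import Pool.Agent.WD.Defs

/-!
# MP_827cb6_ag : wild duality for the finite groups with cyclic Sylow `p`-subgroups, definitions

`k` is an algebraically closed field of characteristic `p` and `K = k((t))`.
-/

namespace Pool.Agent.WG

open Polynomial Filter Pool.Agent.WD

noncomputable section

universe u v

/-- the separable closure of `K = k((t))` -/
def Ks (k : Type u) [Field k] : Type u := SeparableClosure (LaurentSeries k)

instance instFieldKs (k : Type u) [Field k] : Field (Ks k) :=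
  (separableClosure (LaurentSeries k) (AlgebraicClosure (LaurentSeries k))).toField

instance instAlgKKs (k : Type u) [Field k] : Algebra (LaurentSeries k) (Ks k) :=
  (separableClosure (LaurentSeries k) (AlgebraicClosure (LaurentSeries k))).algebra'

instance instAlgOKs (k : Type u) [Field k] : Algebra (PowerSeries k) (Ks k) :=
  (separableClosure (LaurentSeries k) (AlgebraicClosure (LaurentSeries k))).algebra'

/-- the absolute Galois group of `K` -/
abbrev GalK (k : Type u) [Field k] : Type u := Ks k ≃ₐ[LaurentSeries k] Ks k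

/-- constants `k → K^sep` -/
def cK (k : Type u) [Field k] : k →+* Ks k :=
  (algebraMap (LaurentSeries k) (Ks k)).comp HahnSeries.C

/-- the element `t` of `K^sep` -/
def tK (k : Type u) [Field k] : Ks k := algebraMap (LaurentSeries k) (Ks k) (HahnSeries.single 1 1)

section Torsors

variable {p : ℕ} [Fact p.Prime] {k : Type u} [Field k] {G : Type v} [Group G] {d : ℕ}

/-- A `G`-torsor over `K` is given by a continuous homomorphism `Gal(K^sep / K) → G`; continuity
means that the kernel contains the stabilizer of a finite subset of `K^sep`. -/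
structure Torsor (k : Type u) [Field k] (G : Type v) [Group G] where
  /-- the homomorphism -/
  hom : GalK k →* G
  cont : ∃ s : Finset (Ks k), ∀ σ : GalK k, (∀ x ∈ s, σ x = x) → hom σ = 1

/-- two homomorphisms give isomorphic torsors if they are conjugate -/
def Iso (φ ψ : Torsor k G) : Prop := ∃ h : G, ∀ σ, ψ.hom σ = h * φ.hom σ * h⁻¹

/-- `x` is in the tuning module `Ξ_φ = (𝒪 ⊗ V)^Gal`: it is integral and
`σ(x) = ρ(φ(σ))⁻¹ x` for all `σ`. -/
def Tuned (ρ : G →* Matrix (Fin d) (Fin d) k) (φ : Torsor k G) (x : Fin d → Ks k) : Prop :=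
  (∀ a, IsIntegral (PowerSeries k) (x a)) ∧
    ∀ (σ : GalK k) (a : Fin d), σ (x a) = ∑ b, cK k (ρ ((φ.hom σ)⁻¹) a b) * x b

/-- the family `b` is a `k[[t]]`-basis of the tuning module -/
def TBasis (ρ : G →* Matrix (Fin d) (Fin d) k) (φ : Torsor k G) (b : Fin d → Fin d → Ks k) :
    Prop :=
  (∀ i, Tuned ρ φ (b i)) ∧ ∀ x : Fin d → Ks k, Tuned ρ φ x →
    ∃! u : Fin d → PowerSeries k, ∀ a, x a = ∑ i, algebraMap (PowerSeries k) (Ks k) (u i) * b i a

/-- `v(φ) = a`: the determinant of a `k[[t]]`-basis of `Ξ_φ` has the order `a ∈ ℚ` with respect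
to `t`, i.e. its `M`-th power is `t^l` times a unit of `k[[t]]`, where `a = l / M`. -/
def VVal (ρ : G →* Matrix (Fin d) (Fin d) k) (φ : Torsor k G) (a : ℚ) : Prop :=
  ∃ (b : Fin d → Fin d → Ks k) (M l : ℕ) (w : (PowerSeries k)ˣ), TBasis ρ φ b ∧ 0 < M ∧
    a = (l : ℚ) / (M : ℚ) ∧
    Matrix.det b ^ M = algebraMap (PowerSeries k) (Ks k) ((w : PowerSeries k) * PowerSeries.X ^ l)

/-- `V^H`, where `H ⊆ G` is the image of the Galois group -/
def FixG (ρ : G →* Matrix (Fin d) (Fin d) k) (φ : Torsor k G) : Submodule k (Fin d → k) :=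
  Submodule.span k {x | ∀ σ : GalK k, (ρ (φ.hom σ)).mulVec x = x}

/-- `w(φ) = b`, where `w(φ) = codim V^H - v(φ)` -/
def WVal (ρ : G →* Matrix (Fin d) (Fin d) k) (φ : Torsor k G) (b : ℚ) : Prop :=
  ∃ a : ℚ, VVal ρ φ a ∧ b = (d : ℚ) - Module.finrank k (FixG ρ φ) - a

/-- the Witt vector `(f_0(T), ..., f_{s-1}(T), 0, ...)`, where `f_i(T) = ∑_j c_{i,j} T^{-j}` -/
def fT {s : ℕ} (c : Par p s k) (T : Ks k) : WittVector p (Ks k) :=
  WittVector.mk p fun i => c.sum fun x a => if (x.1 : ℕ) = i then cK k a * T⁻¹ ^ (x.2 : ℕ) else 0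

/-- The torsor `φ` has the type `(γ, g, c)`: for an `N`-th root `T` of `t` and a root `z` of
`F(z) - z = (f_0(T), ..., f_{s-1}(T))` in the Witt vectors of length `s`, each `σ` has the form
`T ↦ ζ^i T`, `z ↦ θ^i z + l`, and `φ(σ) = γ^i g^l`, where `γ⁻¹ g γ = g^θ`. -/
def IsType (N : ℕ) (ζ : k) (γ g : G) {s : ℕ} (c : Par p s k) (φ : Torsor k G) : Prop :=
  ∃ (T : Ks k) (z : WittVector p (Ks k)) (θ : ℕ), T ^ N = tK k ∧
    (∀ i < s, (WittVector.frobenius z - z).coeff i = (fT c T).coeff i) ∧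
    γ⁻¹ * g * γ = g ^ θ ∧
    ∀ σ : GalK k, ∃ i l : ℕ, σ T = cK k ζ ^ i * T ∧
      (∀ j < s, σ (z.coeff j) = (((θ ^ i : ℕ) : WittVector p (Ks k)) * z + l).coeff j) ∧
      φ.hom σ = γ ^ i * g ^ l

/-- A family of torsors: those of the types `(γ, g, c)`, `c ∈ S`. -/
structure Chart (p : ℕ) (k : Type u) [Field k] (G : Type v) where
  /-- the image of the generator of the tame inertia -/
  γ : G
  /-- the generator of the image of the wild inertia -/
  g : G
  /-- the length of the Witt vectors -/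
  s : ℕ
  /-- the parameters -/
  S : Set (Par p s k)

/-- multiplication of all coefficients by `x` -/
def scale {s : ℕ} (x : k) (c : Par p s k) : Par p s k := c.mapRange (fun a => x * a) (mul_zero x)

/-- The chart `C` is good for `Θ`, a finite group of scalars: its set `S` of parameters is stable
under all scalars, each parameter gives a torsor, and two parameters give isomorphic torsors if
and only if they differ by an element of `Θ`. The set of the isomorphism classes is thus the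
quotient `S / Θ`, and the Poincare polynomials of `S` and of `S / Θ` agree, because `Θ` is
contained in the connected group of all scalars. -/
def Good (N : ℕ) (ζ : k) (C : Chart p k G) (Θ : Subgroup kˣ) : Prop :=
  Finite Θ ∧ (∀ (x : kˣ), ∀ c ∈ C.S, scale (x : k) c ∈ C.S) ∧
    (∀ c ∈ C.S, ∃ φ, IsType N ζ C.γ C.g c φ) ∧
    ∀ c ∈ C.S, ∀ c' ∈ C.S, ∀ φ ψ, IsType N ζ C.γ C.g c φ → IsType N ζ C.γ C.g c' ψ →
      (Iso φ ψ ↔ ∃ x ∈ Θ, c' = scale (x : k) c)

/-- `φ` is isomorphic to a torsor of the chart -/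
def InC (N : ℕ) (ζ : k) (C : Chart p k G) (φ : Torsor k G) : Prop :=
  ∃ c ∈ C.S, ∃ ψ, IsType N ζ C.γ C.g c ψ ∧ Iso φ ψ

/-- The set `D` of (isomorphism classes of) torsors has the class `P`: it is the disjoint union of
the images of finitely many good charts, and `P` is the sum of the classes of the sets of
parameters. -/
def HasClassG (e : Realization k) (D : Set (Torsor k G)) (P : ℤ[X]) : Prop :=
  ∃ (N : ℕ) (ζ : k) (m : ℕ) (C : Fin m → Chart p k G) (Θ : Fin m → Subgroup kˣ) (Q : Fin m → ℤ[X]),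
    0 < N ∧ IsPrimitiveRoot ζ N ∧ (∀ i, Good N ζ (C i) (Θ i)) ∧
    (∀ i, HasClass e (C i).S (Q i)) ∧ P = ∑ i, Q i ∧
    (∀ φ, φ ∈ D ↔ ∃ i, InC N ζ (C i) φ) ∧
    ∀ i j φ, InC N ζ (C i) φ → InC N ζ (C j) φ → i = j

end Torsors

/-- `∑_a P_a L^(d - a)`, `a ∈ (1/n) ℕ`, converges: the dimension of its terms tends to `-∞` -/
def ConvergesG (n : ℕ) (P : ℚ → ℤ[X]) : Prop :=
  Tendsto (fun j : ℕ => 2 * ((j : ℚ) / n) - ((P ((j : ℚ) / n)).natDegree : ℚ)) atTop atTop

/-- `∑_a P_a L^(d - a)` and `∑_b Q_b L^b`, `L = T^2`, converge for `T = S^n > 1` to rational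
functions `R(S)` and `S^(2 n d) R(S⁻¹)` of `S = T^(1/n)` -/
def DualSumsG (n d : ℕ) (P Q : ℚ → ℤ[X]) : Prop :=
  ∃ A B : ℤ[X], (∀ x : ℝ, 0 < x → x ≠ 1 → aeval x B ≠ 0) ∧ ∀ S : ℝ, 1 < S →
    HasSum (fun a : ℚ => aeval (S ^ n) (P a) * (S ^ n) ^ (2 * ((d : ℝ) - a)))
      (aeval S A / aeval S B) ∧
    HasSum (fun b : ℚ => aeval (S ^ n) (Q b) * (S ^ n) ^ (2 * (b : ℝ)))
      (S ^ (2 * n * d) * (aeval S⁻¹ A / aeval S⁻¹ B))

end

end Pool.Agent.WG
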