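import Pool.Agent.WG.Gen

/-!
# The polynomial `q` (piece WG-Q1)
-/

namespace Pool.Agent.WG

open Polynomial

noncomputable section

universe u

variable {k : Type u} [Field k]

/-- `q` is `(x - 1)` times a polynomial `u` with `u(1) = 1`, and `q(x^θ) ≡ θ q(x)` modulo
`x^(p^s) - 1` -/
def GoodQ (p s θ : ℕ) (q : k[X]) : Prop :=
  (∃ v : k[X], q = (X - 1) * v ∧ v.eval 1 = 1) ∧
    (X ^ (p ^ s) - 1 : k[X]) ∣ q.comp (X ^ θ) - C (θ : k) * q

private theorem GoodQ_dvd_X {n m : ℕ} (hm : m ≠ 0) (h : m ≡ 1 [MOD n]) :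
    (X ^ n - 1 : k[X]) ∣ X ^ m - X := by
  have h1 : 1 ≤ m := Nat.one_le_iff_ne_zero.mpr hm
  have h2 : n ∣ m - 1 := (Nat.modEq_iff_dvd' h1).mp h.symm
  obtain ⟨c, hc⟩ := h2
  have e : (X ^ m - X : k[X]) = X * ((X ^ n) ^ c - 1 ^ c) := by
    rw [← pow_mul, ← hc, one_pow, mul_sub, mul_one, ← pow_succ', Nat.sub_add_cancel h1]
  rw [e]
  exact (sub_dvd_pow_sub_pow _ _ c).mul_left _

/-- `q = N⁻¹ ∑_{i < N} θ^{-i} (x^(θ^i) - 1)` -/
theorem exists_goodQ {p : ℕ} [Fact p.Prime] [CharP k p] {N s θ : ℕ} (hN : ¬ p ∣ N)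
    (hθ : ¬ p ∣ θ) (hθN : θ ^ N ≡ 1 [MOD p ^ s]) (hθk : (θ : k) ^ N = 1) :
    ∃ q : k[X], GoodQ p s θ q := by
  have hNk : (N : k) ≠ 0 := fun h => hN ((CharP.cast_eq_zero_iff k p N).mp h)
  have hθk0 : (θ : k) ≠ 0 := fun h => hθ ((CharP.cast_eq_zero_iff k p θ).mp h)
  have hθ0 : θ ≠ 0 := fun h => hθ (h ▸ dvd_zero p)
  refine ⟨C ((N : k)⁻¹) * ∑ i ∈ Finset.range N, C (((θ : k)⁻¹) ^ i) * (X ^ (θ ^ i) - 1),
    ⟨C ((N : k)⁻¹) * ∑ i ∈ Finset.range N, C (((θ : k)⁻¹) ^ i) *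
      ∑ j ∈ Finset.range (θ ^ i), X ^ j, ?_, ?_⟩, ?_⟩
  · rw [mul_left_comm]
    congr 1
    rw [Finset.mul_sum]
    apply Finset.sum_congr rfl
    intro i _
    rw [mul_left_comm, mul_geom_sum]
  · rw [eval_mul, eval_C, eval_finsetSum]
    have h1 : ∀ i ∈ Finset.range N, eval 1 (C (((θ : k)⁻¹) ^ i) *
        ∑ j ∈ Finset.range (θ ^ i), X ^ j) = 1 := by
      intro i _
      rw [eval_mul, eval_C, eval_finsetSum]
      simp only [eval_pow, eval_X, one_pow, Finset.sum_const, Finset.card_range, nsmul_eq_mul,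
        mul_one]
      rw [Nat.cast_pow, ← mul_pow, inv_mul_cancel₀ hθk0, one_pow]
    rw [Finset.sum_congr rfl h1, Finset.sum_const, Finset.card_range, nsmul_eq_mul, mul_one,
      inv_mul_cancel₀ hNk]
  · have hcomp : (C ((N : k)⁻¹) * ∑ i ∈ Finset.range N, C (((θ : k)⁻¹) ^ i) *
        (X ^ (θ ^ i) - 1)).comp (X ^ θ) = C ((N : k)⁻¹) * ∑ i ∈ Finset.range N,
          C (((θ : k)⁻¹) ^ i) * (X ^ (θ ^ (i + 1)) - 1) := by
      rw [mul_comp, C_comp, Polynomial.sum_comp]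
      congr 1
      apply Finset.sum_congr rfl
      intro i _
      rw [mul_comp, C_comp, sub_comp, one_comp, X_pow_comp, ← pow_mul, pow_succ']
    have hstep : ∀ i, C (((θ : k)⁻¹) ^ i) * (X ^ (θ ^ (i + 1)) - 1) -
        C (θ : k) * (C (((θ : k)⁻¹) ^ i) * (X ^ (θ ^ i) - 1)) =
        C (θ : k) * (C (((θ : k)⁻¹) ^ (i + 1)) * (X ^ (θ ^ (i + 1)) - 1)) -
        C (θ : k) * (C (((θ : k)⁻¹) ^ i) * (X ^ (θ ^ i) - 1)) := by
      intro i
      have : (C (((θ : k)⁻¹) ^ i) : k[X]) = C (θ : k) * C (((θ : k)⁻¹) ^ (i + 1)) := by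
        rw [← C_mul, pow_succ', ← mul_assoc, mul_inv_cancel₀ hθk0, one_mul]
      rw [← mul_assoc (C (θ : k)) (C (((θ : k)⁻¹) ^ (i + 1))), ← this]
    have hmain : (C ((N : k)⁻¹) * ∑ i ∈ Finset.range N, C (((θ : k)⁻¹) ^ i) *
        (X ^ (θ ^ i) - 1)).comp (X ^ θ) - C (θ : k) * (C ((N : k)⁻¹) * ∑ i ∈ Finset.range N,
          C (((θ : k)⁻¹) ^ i) * (X ^ (θ ^ i) - 1)) =
        C ((N : k)⁻¹) * C (θ : k) * (X ^ (θ ^ N) - X) := by
      rw [hcomp, mul_left_comm, ← mul_sub, Finset.mul_sum, ← Finset.sum_sub_distrib,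
        Finset.sum_congr rfl (fun i _ => hstep i),
        Finset.sum_range_sub (fun i => C (θ : k) * (C (((θ : k)⁻¹) ^ i) * (X ^ (θ ^ i) - 1))) N,
        mul_assoc]
      congr 1
      rw [inv_pow, hθk, inv_one, C_1, one_mul, pow_zero, pow_zero, C_1, one_mul, pow_one,
        ← mul_sub]
      congr 1
      ring
    rw [hmain]
    exact (GoodQ_dvd_X (pow_ne_zero _ hθ0) hθN).mul_left _

/-- the same polynomial for the inverse of `θ` -/
theorem GoodQ.dual {p s θ θ' : ℕ} {q : k[X]} (h : GoodQ p s θ q) (h1 : θ * θ' ≡ 1 [MOD p ^ s])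
    (h2 : (θ : k) * (θ' : k) = 1) : GoodQ p s θ' q := by
  refine ⟨h.1, ?_⟩
  have h0 : θ * θ' ≠ 0 := by
    intro h0
    have : ((θ * θ' : ℕ) : k) = 0 := by rw [h0, Nat.cast_zero]
    rw [Nat.cast_mul, h2] at this
    exact one_ne_zero this
  -- substitution of `x^θ'`
  obtain ⟨w, hw⟩ := h.2
  have e1 : (X ^ (p ^ s) - 1 : k[X]) ∣ (X ^ (p ^ s) - 1 : k[X]).comp (X ^ θ') := by
    rw [sub_comp, one_comp, X_pow_comp, ← pow_mul, mul_comm, pow_mul]
    have := sub_dvd_pow_sub_pow (X ^ (p ^ s) : k[X]) 1 θ'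
    rwa [one_pow] at this
  have e2 : (X ^ (p ^ s) - 1 : k[X]) ∣ q.comp (X ^ (θ * θ')) - C (θ : k) * q.comp (X ^ θ') := by
    have h3 : q.comp (X ^ (θ * θ')) - C (θ : k) * q.comp (X ^ θ') =
        (X ^ (p ^ s) - 1 : k[X]).comp (X ^ θ') * w.comp (X ^ θ') := by
      rw [← mul_comp, ← hw, sub_comp, comp_assoc, X_pow_comp, mul_comp, C_comp, ← pow_mul,
        mul_comm θ' θ]
    rw [h3]
    exact e1.mul_right _
  have e3 : (X ^ (p ^ s) - 1 : k[X]) ∣ q.comp (X ^ (θ * θ')) - q := by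
    have h3 : (X ^ (θ * θ') - X : k[X]) ∣ q.comp (X ^ (θ * θ')) - q := by
      have := Polynomial.sub_dvd_eval_sub (X ^ (θ * θ') : k[X]) X (q.map C)
      rwa [eval_map, eval_map, ← comp, ← comp, comp_X] at this
    exact (GoodQ_dvd_X h0 h1).trans h3
  have e4 : q.comp (X ^ θ') - C (θ' : k) * q = C (θ' : k) * ((q.comp (X ^ (θ * θ')) - q) -
      (q.comp (X ^ (θ * θ')) - C (θ : k) * q.comp (X ^ θ'))) := by
    have h3 : (C (θ' : k) * C (θ : k) : k[X]) = 1 := by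
      rw [← C_mul, mul_comm, h2, C_1]
    linear_combination (-q.comp (X ^ θ')) * h3
  rw [e4]
  exact (dvd_sub e3 e2).mul_left _

/-- `x - 1` is a polynomial in `q` modulo `(x - 1)^M` -/
theorem exists_inverse (q : k[X]) (h : ∃ v : k[X], q = (X - 1) * v ∧ v.eval 1 = 1) (M : ℕ) :
    ∃ R : k[X], R.coeff 0 = 0 ∧ ((X - 1) ^ M : k[X]) ∣ R.comp q - (X - 1) := by
  obtain ⟨v, hq, hv⟩ := h
  induction M with
  | zero => exact ⟨0, coeff_zero _, by simp⟩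
  | succ M ih =>
    rcases Nat.eq_zero_or_pos M with rfl | hM
    · refine ⟨0, coeff_zero _, ?_⟩
      rw [zero_comp, zero_sub, zero_add, pow_one]
      exact (dvd_refl _).neg_right
    · obtain ⟨R, hR0, w, hw⟩ := ih
      refine ⟨R - C (w.eval 1) * X ^ M, ?_, ?_⟩
      · rw [coeff_sub, hR0, coeff_C_mul, coeff_X_pow, if_neg (by omega), mul_zero, sub_zero]
      · have h1 : (R - C (w.eval 1) * X ^ M).comp q - (X - 1) =
            (X - 1) ^ M * (w - C (w.eval 1) * v ^ M) := by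
          rw [sub_comp, mul_comp, C_comp, X_pow_comp]
          rw [sub_right_comm, hw]
          rw [hq, mul_pow]
          ring
        rw [h1, pow_succ]
        apply mul_dvd_mul_left
        have h2 : (X - C 1 : k[X]) ∣ w - C (w.eval 1) * v ^ M := by
          rw [dvd_iff_isRoot, IsRoot.def, eval_sub, eval_mul, eval_C, eval_pow, hv, one_pow,
            mul_one, sub_self]
        rwa [C_1] at h2

end

end Pool.Agent.WG
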