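import Pool.Agent.WG.OpQ
import Pool.Agent.WG.GoodQ

/-!
# The equivariant basis of `L_c` (piece WG-EL1)
-/

namespace Pool.Agent.WG

open Polynomial Pool.Agent.WD

noncomputable section

universe u v

/-- The abstract data: a field `L` with an embedding `φ` into `k((T^ℚ))`, an embedding `j0` of
`k((T))`, an automorphism `w` of order `p^s` with the fixed field `k((T))`, and an automorphism `τ`
of order `N` which induces `T ↦ ζ T`. The order of `x ∈ L` is the order of `φ x`. -/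
structure EL (p N s θ : ℕ) {k : Type u} [Field k] (ζ : kˣ) {L : Type v} [Field L]
    (φ : L →+* Om k) (j0 : LaurentSeries k →+* L) (w τ : L ≃+* L) (h : ℕ → L) (Xv : ℕ → ℚ) :
    Prop where
  φj : ∀ x, φ (j0 x) = toOm k x
  fixw : ∀ x, w x = x ↔ x ∈ Set.range j0
  ordw : ∀ x, (φ (w x)).orderTop = (φ x).orderTop
  ordτ : ∀ x, (φ (τ x)).orderTop = (φ x).orderTop
  τj : ∀ x, τ (j0 x) = j0 (rot ζ x)
  wps : w ^ (p ^ s) = 1
  τN : τ ^ N = 1
  rel : ∀ x, w (τ x) = τ ((w ^ θ) x)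
  hh : ∀ j < p ^ s, (fun x => w x - x)^[j] (h j) = 1
  hord : ∀ j < p ^ s, (φ (h j)).orderTop = ((-Xv j : ℚ) : WithTop ℚ)
  Xnot : ∀ i < p ^ s, ∀ j < p ^ s, i ≠ j → ∀ z : ℤ, Xv i - Xv j ≠ z

variable {p N s θ : ℕ} [Fact p.Prime] {k : Type u} [Field k] [CharP k p] {ζ : kˣ}
  {L : Type v} [Field L] {φ : L →+* Om k} {j0 : LaurentSeries k →+* L} {w τ : L ≃+* L}
  {h : ℕ → L} {Xv : ℕ → ℚ}

/-- the constants -/
def cst0 (j0 : LaurentSeries k →+* L) : k →+* L := j0.comp HahnSeries.C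

/-- the operator `X = q(w⁻¹)` -/
def XL (j0 : LaurentSeries k →+* L) (w : L ≃+* L) (q : k[X]) (x : L) : L :=
  opQ (cst0 j0) w⁻¹ q x

section auxEL

variable {k : Type u} [Field k] {L : Type v} [Field L] {cc : k →+* L} {w : L ≃+* L}

private theorem EL_opQ_zero (x : L) : opQ cc w (0 : k[X]) x = 0 := by
  simp [opQ]

private theorem EL_opQ_finsum {ι : Type*} (S : Finset ι) (f : ι → k[X]) (x : L) :
    opQ cc w (∑ i ∈ S, f i) x = ∑ i ∈ S, opQ cc w (f i) x := by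
  classical
  induction S using Finset.induction_on with
  | empty => simp only [Finset.sum_empty]; exact EL_opQ_zero x
  | insert a S ha ih => rw [Finset.sum_insert ha, Finset.sum_insert ha, opQ_add, ih]

private theorem EL_opQ_one (x : L) : opQ cc w (1 : k[X]) x = x := by
  rw [← C_1, opQ_C, map_one, one_mul]

private theorem EL_opQ_pow (h : ∀ a, w (cc a) = cc a) (q : k[X]) (n : ℕ) (x : L) :
    opQ cc w (q ^ n) x = (fun y => opQ cc w q y)^[n] x := by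
  induction n generalizing x with
  | zero => rw [pow_zero, EL_opQ_one]; rfl
  | succ n ih => rw [pow_succ, opQ_mul h, ih, Function.iterate_succ_apply]

end auxEL

private theorem EL.fixinv (E : EL p N s θ ζ φ j0 w τ h Xv) (a : LaurentSeries k) :
    w⁻¹ (j0 a) = j0 a := by
  have h1 : w (j0 a) = j0 a := (E.fixw _).2 ⟨a, rfl⟩
  have h2 : w⁻¹ (w (j0 a)) = j0 a := by
    change (w⁻¹ * w) (j0 a) = j0 a
    rw [inv_mul_cancel]
    rfl
  rw [h1] at h2
  exact h2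

private theorem EL.fixc (E : EL p N s θ ζ φ j0 w τ h Xv) (a : k) :
    w⁻¹ (cst0 j0 a) = cst0 j0 a := E.fixinv (HahnSeries.C a)

private theorem EL.τc (E : EL p N s θ ζ φ j0 w τ h Xv) (a : k) :
    τ (cst0 j0 a) = cst0 j0 a := by
  change τ (j0 (HahnSeries.C a)) = j0 (HahnSeries.C a)
  rw [E.τj]
  congr 1
  change rot ζ (HahnSeries.single 0 a) = HahnSeries.single 0 a
  rw [rot_single]
  simp

private theorem EL.relinv (E : EL p N s θ ζ φ j0 w τ h Xv) (x : L) :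
    w⁻¹ (τ x) = τ ((w⁻¹ ^ θ) x) := by
  have h1 := E.rel ((w⁻¹ ^ θ) x)
  have h2 : (w ^ θ) ((w⁻¹ ^ θ) x) = x := by
    change (w ^ θ * w⁻¹ ^ θ) x = x
    rw [inv_pow, mul_inv_cancel]
    rfl
  rw [h2] at h1
  rw [← h1]
  change (w⁻¹ * w) (τ ((w⁻¹ ^ θ) x)) = _
  rw [inv_mul_cancel]
  rfl

private theorem EL.winvps (E : EL p N s θ ζ φ j0 w τ h Xv) : w⁻¹ ^ (p ^ s) = 1 := by
  rw [inv_pow, E.wps, inv_one]

/-- `X τ = θ τ X` -/
theorem EL.X_tau (E : EL p N s θ ζ φ j0 w τ h Xv) {q : k[X]} (hq : GoodQ p s θ q) (x : L) :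
    XL j0 w q (τ x) = cst0 j0 (θ : k) * τ (XL j0 w q x) := by
  unfold XL
  rw [opQ_conj q τ w⁻¹ E.τc θ E.relinv x, ← opQ_comp_pow E.fixc,
    opQ_eq_of_dvd E.fixc E.winvps _ _ hq.2, opQ_mul E.fixc, opQ_C, map_mul, E.τc]

theorem EL.X_mul (E : EL p N s θ ζ φ j0 w τ h Xv) (q : k[X]) (a : LaurentSeries k) (x : L) :
    XL j0 w q (j0 a * x) = j0 a * XL j0 w q x :=
  opQ_mul_fixed q (j0 a) (E.fixinv a) x

private theorem EL_frob (s : ℕ) : ((X - 1) ^ (p ^ s) : k[X]) = X ^ (p ^ s) - 1 := by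
  rw [sub_pow_char_pow, one_pow]

theorem EL.X_pow_eq_zero (E : EL p N s θ ζ φ j0 w τ h Xv) {q : k[X]} (hq : GoodQ p s θ q)
    (x : L) : (XL j0 w q)^[p ^ s] x = 0 := by
  have h1 : (XL j0 w q)^[p ^ s] x = opQ (cst0 j0) w⁻¹ (q ^ (p ^ s)) x :=
    (EL_opQ_pow E.fixc q (p ^ s) x).symm
  rw [h1, opQ_eq_of_dvd E.fixc E.winvps (q ^ (p ^ s)) 0 ?_, EL_opQ_zero]
  obtain ⟨v, hv, -⟩ := hq.1
  refine ⟨v ^ (p ^ s), ?_⟩
  rw [sub_zero, hv, mul_pow, EL_frob]

theorem EL.ordX (E : EL p N s θ ζ φ j0 w τ h Xv) (q : k[X]) (x : L) :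
    (φ x).orderTop ≤ (φ (XL j0 w q x)).orderTop := by
  classical
  have hinv : ∀ y, (φ (w⁻¹ y)).orderTop = (φ y).orderTop := by
    intro y
    have h1 := E.ordw (w⁻¹ y)
    have h2 : w (w⁻¹ y) = y := by
      change (w * w⁻¹) y = y
      rw [mul_inv_cancel]
      rfl
    rw [h2] at h1
    exact h1.symm
  have hpow : ∀ (n : ℕ) y, (φ ((w⁻¹ ^ n) y)).orderTop = (φ y).orderTop := by
    intro n
    induction n with
    | zero => intro y; rw [pow_zero]; rfl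
    | succ n ih =>
      intro y
      rw [pow_succ]
      change (φ ((w⁻¹ ^ n) (w⁻¹ y))).orderTop = _
      rw [ih, hinv]
  have hc : ∀ a : k, (0 : WithTop ℚ) ≤ (φ (cst0 j0 a)).orderTop := by
    intro a
    change (0 : WithTop ℚ) ≤ (φ (j0 (HahnSeries.C a))).orderTop
    rw [E.φj]
    have h1 : toOm k (HahnSeries.C a) = HahnSeries.C a := by
      change toOm k (HahnSeries.single 0 a) = HahnSeries.single 0 a
      simp [toOm, HahnSeries.embDomainRingHom]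
    rw [h1]
    by_cases ha : a = 0
    · rw [ha, map_zero, HahnSeries.orderTop_zero]
      exact le_top
    · rw [HahnSeries.C_apply, HahnSeries.orderTop_single ha]
      rfl
  unfold XL opQ Polynomial.sum
  rw [map_sum]
  refine Finset.sum_induction _ (fun y : Om k => (φ x).orderTop ≤ y.orderTop) ?_ ?_ ?_
  · intro a b ha hb
    exact le_trans (le_min ha hb) HahnSeries.min_orderTop_le_orderTop_add
  · rw [HahnSeries.orderTop_zero]
    exact le_top
  · intro n _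
    rw [map_mul]
    refine le_trans ?_ HahnSeries.orderTop_add_le_mul
    rw [hpow]
    exact le_add_of_nonneg_left (hc _)

/-- `w⁻¹ = 1 + R(X)` for the polynomial `R` of `exists_inverse` -/
theorem EL.w_of_X (E : EL p N s θ ζ φ j0 w τ h Xv) {q : k[X]} (hq : GoodQ p s θ q) :
    ∃ R : k[X], R.coeff 0 = 0 ∧ ((X - 1) ^ (p ^ s) : k[X]) ∣ R.comp q - (X - 1) ∧
      ∀ x : L, w⁻¹ x = x + R.sum fun n a => cst0 j0 a * (XL j0 w q)^[n] x := by
  obtain ⟨R, hR0, hR⟩ := exists_inverse q hq.1 (p ^ s)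
  refine ⟨R, hR0, hR, fun x => ?_⟩
  have h1 : opQ (cst0 j0) w⁻¹ (R.comp q) x = opQ (cst0 j0) w⁻¹ (X - 1) x := by
    refine opQ_eq_of_dvd E.fixc E.winvps _ _ ?_ x
    rw [← EL_frob]
    exact hR
  have h2 : opQ (cst0 j0) w⁻¹ (X - 1) x = w⁻¹ x - x := by
    rw [opQ_sub, opQ_X, EL_opQ_one]
  have h3 : opQ (cst0 j0) w⁻¹ (R.comp q) x
      = R.sum fun n a => cst0 j0 a * (XL j0 w q)^[n] x := by
    have e : R.comp q = ∑ n ∈ R.support, C (R.coeff n) * q ^ n := by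
      rw [comp, eval₂_eq_sum, Polynomial.sum]
    rw [e, EL_opQ_finsum, Polynomial.sum]
    refine Finset.sum_congr rfl fun n _ => ?_
    rw [opQ_mul E.fixc, opQ_C, EL_opQ_pow E.fixc]
    rfl
  rw [← h3, h1, h2]
  ring

end

end Pool.Agent.WG
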