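import Pool.Agent.WG.Adm
import Pool.Agent.WG.Core2
import Pool.Agent.WG.EL

/-!
# The field `L_c` inside the separable closure of `k((t))` (piece WG-E1)
-/

namespace Pool.Agent.WG

open Polynomial Pool.Agent.WD Pool.Agent.WC

noncomputable section

universe u v

variable {p : ℕ} [Fact p.Prime] {k : Type u} [Field k] [IsAlgClosed k] [CharP k p] {s : ℕ}

/-- the embedding of `L_c` into `k((T^ℚ))` -/
def phiL (c : Par p s k) : Lw c →+* Om k := (Lw c).val.toRingHom

/-- the embedding of `k((T))` into `L_c` -/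
def j0L (c : Par p s k) : LaurentSeries k →+* Lw c := algebraMap (LaurentSeries k) (Lw c)

/-- the numbers `X_j` -/
def XvL (c : Par p s k) (j : ℕ) : ℚ := Xq p s (upc c) j

omit [IsAlgClosed k] [CharP k p] [Fact p.Prime] in
private theorem Emb_pow_apply {L : Type u} [Field L] (w : L ≃+* L) (n : ℕ) (x : L) :
    (w ^ n) x = (⇑w)^[n] x := by
  induction n generalizing x with
  | zero => rfl
  | succ n ih => rw [pow_succ, Function.iterate_succ_apply, ← ih]; rfl

private theorem Emb_pow_coe {c : Par p s k} (w : Lw c ≃ₐ[LaurentSeries k] Lw c) (n : ℕ)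
    (x : Lw c) : ((w : Lw c ≃+* Lw c) ^ n) x = (w ^ n) x := by
  induction n generalizing x with
  | zero => rfl
  | succ n ih =>
    rw [pow_succ, pow_succ]
    change ((w : Lw c ≃+* Lw c) ^ n) (w x) = (w ^ n) (w x)
    exact ih (w x)

private theorem Emb_w_one (c : Par p s k) (w : Lw c ≃ₐ[LaurentSeries k] Lw c)
    (hw : CorrW c w 1) (i : Fin s) :
    ((w (zL c i) : Lw c) : Om k) = (wz c + 1).coeff i := by
  rw [hw i]
  have h1 : ∀ j < s, (((((1 : ZMod (p ^ s)).val : ℕ) : WittVector p (Om k)))).coeff j =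
      (1 : WittVector p (Om k)).coeff j := by
    have h2 : (1 : ZMod (p ^ s)).val ≡ 1 [MOD p ^ s] := by
      rw [ZMod.val_one_eq_one_mod]
      exact Nat.mod_modEq _ _
    have h3 := coeff_nat_congr (A := Om k) h2
    rw [Nat.cast_one] at h3
    exact h3
  exact coeff_add_congr (n := s) (fun j _ => rfl) h1 i i.2

/-- the Witt vector `(z_0, ..., z_{s-1}, 0, ...)` over `L_c` -/
private def Emb_zt (c : Par p s k) : WittVector p (Lw c) :=
  WittVector.mk p fun i => if h : i < s then zL c ⟨i, h⟩ else 0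

private theorem Emb_zt_coeff (c : Par p s k) {i : ℕ} (hi : i < s) :
    (Emb_zt c).coeff i = zL c ⟨i, hi⟩ := by
  unfold Emb_zt
  rw [WittVector.coeff_mk, dif_pos hi]

private theorem Emb_map_zt (c : Par p s k) : ∀ i < s,
    (WittVector.map (phiL c) (Emb_zt c)).coeff i = (wz c).coeff i := by
  intro i hi
  rw [WittVector.map_coeff, Emb_zt_coeff c hi]
  rfl

private theorem Emb_wf_coeff (c : Par p s k) (i : ℕ) :
    (wf c).coeff i = phiL c (j0L c ((wfK c).coeff i)) := by
  change (if h : i < s then toOm k (polar c ⟨i, h⟩) else 0) =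
    toOm k (if h : i < s then polar c ⟨i, h⟩ else 0)
  split_ifs
  · rfl
  · rw [map_zero]

private theorem Emb_map_frob {A B : Type u} [Field A] [CharP A p] [Field B] [CharP B p]
    (f : A →+* B) (x : WittVector p A) :
    WittVector.frobenius (WittVector.map f x) = WittVector.map f (WittVector.frobenius x) := by
  ext j
  rw [WittVector.coeff_frobenius_charP, WittVector.map_coeff, WittVector.map_coeff,
    WittVector.coeff_frobenius_charP, map_pow]

private theorem Emb_zt_frob (c : Par p s k) {i : ℕ} (hi : i < s) :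
    (WittVector.frobenius (Emb_zt c) - Emb_zt c).coeff i = j0L c ((wfK c).coeff i) := by
  apply (phiL c).injective
  rw [← Emb_wf_coeff c i, ← wz_spec c, ← WittVector.map_coeff, map_sub, ← Emb_map_frob]
  refine coeff_sub_congr (p := p) (n := s) ?_ (Emb_map_zt c) i hi
  intro j hj
  rw [WittVector.coeff_frobenius_charP, WittVector.coeff_frobenius_charP, Emb_map_zt c j hj]

private theorem Emb_corr (c : Par p s k) {σ : Lw c ≃ₐ[LaurentSeries k] Lw c} {g : ZMod (p ^ s)}
    (h : CorrW c σ g) (i : Fin s) :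
    σ (zL c i) = (Emb_zt c + ((g.val : ℕ) : WittVector p (Lw c))).coeff i := by
  apply (phiL c).injective
  refine (h i).trans ?_
  rw [← WittVector.map_coeff, map_add, map_natCast]
  exact coeff_add_congr (n := s) (fun j hj => (Emb_map_zt c j hj).symm) (fun j _ => rfl) i i.2

private theorem Emb_corr_pow (c : Par p s k) {τ : Lw c ≃ₐ[LaurentSeries k] Lw c}
    {g : ZMod (p ^ s)} (h : CorrW c τ g) (n : ℕ) : CorrW c (τ ^ n) (n * g) := by
  induction n with
  | zero =>
    rw [pow_zero, Nat.cast_zero, zero_mul]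
    exact corrW_one c
  | succ n ih =>
    rw [pow_succ, Nat.cast_succ, add_mul, one_mul]
    exact corrW_mul c ih h

/-- The data of the automorphisms of `L_c`: from `exists_w` and `exists_tau`. -/
theorem exists_EL {N κ θ : ℕ} [NeZero N] (hN : ¬ p ∣ N) (c : Par p s k) (hv : Val N κ c)
    (ζ : kˣ) (hζ : ζ ^ N = 1) (hθ : (θ : k) * (ζ : k) ^ κ = 1) (hθN : θ ^ N ≡ 1 [MOD p ^ s]) :
    ∃ (w τ : Lw c ≃+* Lw c) (h : ℕ → Lw c), EL p N s θ ζ (phiL c) (j0L c) w τ h (XvL c) ∧
      (∀ i : Fin s, ((w (zL c i) : Lw c) : Om k) = (wz c + 1).coeff i) ∧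
      ∀ i : Fin s, ((τ (zL c i) : Lw c) : Om k) =
        (((θ : ℕ) : WittVector p (Om k)) * wz c).coeff i := by
  obtain ⟨w, h, hw1, -, hwps, hfix, hordw, hh, hhord⟩ := exists_w c hv.2
  obtain ⟨τ, hτj, hτz, hτord, hτN, hrel⟩ := exists_tau hN c hv ζ hζ hθ hθN w hw1
  refine ⟨(w : Lw c ≃+* Lw c), τ, h, ?_, fun i => Emb_w_one c w hw1 i, hτz⟩
  refine ⟨fun x => rfl, fun x => ⟨fun hx => hfix x hx, ?_⟩, hordw, hτord, hτj, ?_, ?_, ?_, hh,
    hhord, fun i hi j hj hij z => Xq_sub_not_int c hv.2 hi hj hij z⟩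
  · rintro ⟨y, rfl⟩
    exact w.commutes y
  · ext x
    rw [Emb_pow_coe, hwps]
    rfl
  · ext x
    rw [Emb_pow_apply, hτN]
    rfl
  · intro x
    rw [Emb_pow_coe]
    exact hrel x

/-- the coefficients of the Witt vector `fT c T` -/
theorem fT_coeff {N : ℕ} [NeZero N] {T : Ks k} {ι : LaurentSeries k →+* Ks k}
    (h : ∀ x, ι (subN k N x) = algebraMap (LaurentSeries k) (Ks k) x)
    (hT : ι (HahnSeries.single 1 1) = T) (c : Par p s k) (i : ℕ) :
    (fT c T).coeff i = ι ((wfK c).coeff i) := by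
  unfold fT wfK
  rw [WittVector.coeff_mk, WittVector.coeff_mk]
  by_cases hi : i < s
  · rw [dif_pos hi]
    unfold polar Finsupp.sum
    rw [map_sum]
    refine Finset.sum_congr rfl fun x _ => ?_
    beta_reduce
    by_cases hx : (x.1 : ℕ) = i
    · have hx' : x.1 = ⟨i, hi⟩ := Fin.ext hx
      rw [if_pos hx, if_pos hx', iota_single h hT, zpow_neg, zpow_natCast, inv_pow]
    · have hx' : x.1 ≠ ⟨i, hi⟩ := fun h0 => hx (by rw [h0])
      rw [if_neg hx, if_neg hx', map_zero]
  · rw [dif_neg hi, map_zero]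
    refine Finset.sum_eq_zero fun x _ => ?_
    beta_reduce
    rw [if_neg]
    intro h0
    exact hi (h0 ▸ x.1.2)

/-- the embedding `ε` of `L_c` over `k((t))` with `T ↦ T`, `z ↦ z` (coordinates `< s`)  -/
structure Emb (N : ℕ) [NeZero N] (c : Par p s k) (T : Ks k) (z : WittVector p (Ks k))
    (ε : Lw c →+* Ks k) : Prop where
  εK : ∀ x, ε (j0L c (subN k N x)) = algebraMap (LaurentSeries k) (Ks k) x
  εT : ε (j0L c (HahnSeries.single 1 1)) = T
  εz : ∀ i : Fin s, ε (zL c i) = z.coeff i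

/-- Extend `ι` of `exists_iota` to `L_c` (`exists_lift`) and correct the image of `z` with a power
of `w`. -/
theorem exists_emb {N κ : ℕ} [NeZero N] (hN : ¬ p ∣ N) (c : Par p s k) (hv : Val N κ c)
    (ζ : kˣ) (hζ : IsPrimitiveRoot ζ N) (T : Ks k) (hT : T ^ N = tK k)
    (z : WittVector p (Ks k))
    (hz : ∀ i < s, (WittVector.frobenius z - z).coeff i = (fT c T).coeff i) :
    ∃ ε : Lw c →+* Ks k, Emb N c T z ε := by
  have hNk : (N : k) ≠ 0 := by
    intro h0
    exact hN ((CharP.cast_eq_zero_iff k p N).1 h0)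
  obtain ⟨ι, hι, hιT⟩ := exists_iota N hNk ζ hζ T hT
  have hgal := isGalois_Lw c
  obtain ⟨ε₀, hε₀⟩ := exists_lift (j0L c) ι (fun x =>
    ⟨minpoly (LaurentSeries k) x, Algebra.IsSeparable.isSeparable (LaurentSeries k) x,
      minpoly.aeval (LaurentSeries k) x⟩)
  obtain ⟨w, -, hw1, -⟩ := exists_w c hv.2
  -- the image of `z`
  have h1 : ∀ i < s, (WittVector.frobenius (WittVector.map ε₀ (Emb_zt c)) -
      WittVector.map ε₀ (Emb_zt c)).coeff i = (fT c T).coeff i := by
    intro i hi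
    rw [Emb_map_frob, ← map_sub, WittVector.map_coeff, Emb_zt_frob c hi, hε₀,
      fT_coeff hι hιT c i]
  have h2 : ∀ i < s, (WittVector.frobenius (z - WittVector.map ε₀ (Emb_zt c)) -
      (z - WittVector.map ε₀ (Emb_zt c))).coeff i = 0 := by
    intro i hi
    have e1 : WittVector.frobenius (z - WittVector.map ε₀ (Emb_zt c)) -
        (z - WittVector.map ε₀ (Emb_zt c)) = (WittVector.frobenius z - z) -
          (WittVector.frobenius (WittVector.map ε₀ (Emb_zt c)) -
            WittVector.map ε₀ (Emb_zt c)) := by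
      rw [map_sub]
      ring
    have e2 := coeff_sub_congr (p := p) (L := Ks k) (n := s) (a := WittVector.frobenius z - z)
      (a' := fT c T) (b := WittVector.frobenius (WittVector.map ε₀ (Emb_zt c)) -
        WittVector.map ε₀ (Emb_zt c)) (b' := fT c T) hz h1 i hi
    rw [e1, e2, sub_self, WittVector.zero_coeff]
  obtain ⟨g, hg⟩ := exists_nat_of_frobenius s _ h2
  have h3 : ∀ i < s, z.coeff i = (WittVector.map ε₀ (Emb_zt c) +
      ((g.val : ℕ) : WittVector p (Ks k))).coeff i := by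
    intro i hi
    have e3 := coeff_add_congr (p := p) (L := Ks k) (n := s)
      (a := WittVector.map ε₀ (Emb_zt c)) (a' := WittVector.map ε₀ (Emb_zt c))
      (b := z - WittVector.map ε₀ (Emb_zt c)) (b' := ((g.val : ℕ) : WittVector p (Ks k)))
      (fun i _ => rfl) hg i hi
    rw [← e3]
    congr 1
    ring
  have h4 : CorrW c (w ^ g.val) g := by
    have e4 := Emb_corr_pow c hw1 g.val
    have : NeZero (p ^ s) := ⟨pow_ne_zero _ (Fact.out : p.Prime).ne_zero⟩
    rwa [ZMod.natCast_val, ZMod.cast_id, mul_one] at e4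
  have h5 : ∀ x : LaurentSeries k, ε₀ ((w ^ g.val) (j0L c x)) = ι x := by
    intro x
    have e5 : (w ^ g.val) (j0L c x) = j0L c x := (w ^ g.val).commutes x
    rw [e5, hε₀]
  refine ⟨ε₀.comp ((w ^ g.val : Lw c ≃ₐ[LaurentSeries k] Lw c) : Lw c →+* Lw c),
    fun x => ?_, ?_, fun i => ?_⟩
  · change ε₀ ((w ^ g.val) (j0L c (subN k N x))) = _
    rw [h5, hι]
  · change ε₀ ((w ^ g.val) (j0L c (HahnSeries.single 1 1))) = _
    rw [h5, hιT]
  · change ε₀ ((w ^ g.val) (zL c i)) = _
    rw [h3 i i.2, Emb_corr c h4 i, ← WittVector.map_coeff, map_add, map_natCast]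

end

end Pool.Agent.WG
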