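import Pool.Agent.WG.Emb

/-! # Properties of the embedding `ε` (piece WG-E2) -/

namespace Pool.Agent.WG

open Polynomial Pool.Agent.WD Pool.Agent.WC

noncomputable section

universe u v

variable {p : ℕ} [Fact p.Prime] {k : Type u} [Field k] [IsAlgClosed k] [CharP k p] {s : ℕ}

section aux

omit [IsAlgClosed k] [CharP k p] [Field k] in
private theorem Emb2_tr {L : Type*} [CommRing L] {x y : WittVector p L} {n : ℕ} :
    (∀ i < n, x.coeff i = y.coeff i) ↔ WittVector.truncate n x = WittVector.truncate n y := by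
  constructor
  · intro h
    refine TruncatedWittVector.ext fun i => ?_
    rw [WittVector.coeff_truncate, WittVector.coeff_truncate]
    exact h i i.2
  · intro h i hi
    have h1 := congrArg (TruncatedWittVector.coeff (⟨i, hi⟩ : Fin n)) h
    rwa [WittVector.coeff_truncate, WittVector.coeff_truncate] at h1

/-- congruence of `a x + b` -/
private theorem Emb2_lin {L : Type*} [CommRing L] {x y : WittVector p L} {n : ℕ}
    (h : ∀ i < n, x.coeff i = y.coeff i) (a b : ℕ) :
    ∀ i < n, (((a : ℕ) : WittVector p L) * x + b).coeff i =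
      (((a : ℕ) : WittVector p L) * y + b).coeff i := by
  rw [Emb2_tr] at h ⊢
  rw [map_add, map_mul, h, ← map_mul, ← map_add]

/-- the Witt vector `(z_0, ..., z_{s-1}, 0, ...)` over `L_c` -/
private def Emb2_zw (c : Par p s k) : WittVector p (Lw c) :=
  WittVector.mk p fun i => if h : i < s then zL c ⟨i, h⟩ else 0

private theorem Emb2_zw_coeff (c : Par p s k) {i : ℕ} (hi : i < s) :
    (Emb2_zw c).coeff i = zL c ⟨i, hi⟩ := by
  rw [Emb2_zw, WittVector.coeff_mk, dif_pos hi]

private theorem Emb2_map_zw (c : Par p s k) : ∀ i < s,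
    (WittVector.map (phiL c) (Emb2_zw c)).coeff i = (wz c).coeff i := by
  intro i hi
  rw [WittVector.map_coeff, Emb2_zw_coeff c hi]
  rfl

private theorem Emb2_phi_lin (c : Par p s k) (a b : ℕ) : ∀ i < s,
    phiL c ((((a : ℕ) : WittVector p (Lw c)) * Emb2_zw c + b).coeff i) =
      (((a : ℕ) : WittVector p (Om k)) * wz c + b).coeff i := by
  intro i hi
  rw [← Emb2_lin (Emb2_map_zw c) a b i hi, ← WittVector.map_coeff, map_add, map_mul, map_natCast,
    map_natCast]

/-- a ring homomorphism which multiplies `z` by `a` and adds `b`  -/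
private theorem Emb2_map (c : Par p s k) {R : Type*} [CommRing R] (f : Lw c →+* R)
    {y : WittVector p R} (h : ∀ i : Fin s, f (zL c i) = y.coeff i) (a b : ℕ) :
    ∀ i < s, f ((((a : ℕ) : WittVector p (Lw c)) * Emb2_zw c + b).coeff i) =
      (((a : ℕ) : WittVector p R) * y + b).coeff i := by
  intro i hi
  have h1 : ∀ i < s, (WittVector.map f (Emb2_zw c)).coeff i = y.coeff i := by
    intro i hi
    rw [WittVector.map_coeff, Emb2_zw_coeff c hi, h]
  rw [← Emb2_lin h1 a b i hi, ← WittVector.map_coeff, map_add, map_mul, map_natCast,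
    map_natCast]

end aux

variable {N κ θ : ℕ} [NeZero N] {c : Par p s k} {ζ : kˣ} {T : Ks k} {z : WittVector p (Ks k)}
  {ε : Lw c →+* Ks k} {w τ : Lw c ≃+* Lw c} {h : ℕ → Lw c}

/-- `ε` applied to the coordinates of a Witt vector made of `z` -/
theorem Emb.coeff (e : Emb N c T z ε) (a b : ℕ) (i : Fin s) (x : Lw c)
    (hx : (x : Om k) = (((a : ℕ) : WittVector p (Om k)) * wz c + b).coeff i) :
    ε x = (((a : ℕ) : WittVector p (Ks k)) * z + b).coeff i := by
  have h1 : x = (((a : ℕ) : WittVector p (Lw c)) * Emb2_zw c + b).coeff i := by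
    apply Subtype.ext
    rw [hx]
    exact (Emb2_phi_lin c a b i i.2).symm
  rw [h1]
  exact Emb2_map c ε e.εz a b i i.2

private theorem Emb2_ext {R : Type*} [Field R] (f g : Lw c →+* R)
    (h1 : ∀ x, f (j0L c x) = g (j0L c x)) (h2 : ∀ i : Fin s, f (zL c i) = g (zL c i))
    (x : Lw c) : f x = g x := by
  obtain ⟨x, hx⟩ := x
  induction hx using IntermediateField.adjoin_induction with
  | mem x hx =>
    obtain ⟨i, rfl⟩ := hx
    exact h2 i
  | algebraMap x => exact h1 x
  | add x y hx hy ihx ihy =>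
    have e : (⟨x + y, (Lw c).add_mem hx hy⟩ : Lw c) = ⟨x, hx⟩ + ⟨y, hy⟩ := rfl
    rw [e, map_add, map_add, ihx, ihy]
  | inv x hx ihx =>
    have e : (⟨x⁻¹, (Lw c).inv_mem hx⟩ : Lw c) = (⟨x, hx⟩ : Lw c)⁻¹ := rfl
    rw [e, map_inv₀, map_inv₀, ihx]
  | mul x y hx hy ihx ihy =>
    have e : (⟨x * y, (Lw c).mul_mem hx hy⟩ : Lw c) = ⟨x, hx⟩ * ⟨y, hy⟩ := rfl
    rw [e, map_mul, map_mul, ihx, ihy]

private theorem Emb2_C (e : Emb N c T z ε) (a : k) : ε (j0L c (HahnSeries.C a)) = cK k a := by
  have h1 : subN k N (HahnSeries.C a) = HahnSeries.C a := by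
    have h2 := subN_single (k := k) N 0 a
    rw [mul_zero] at h2
    exact h2
  have h3 := e.εK (HahnSeries.C a)
  rw [h1] at h3
  exact h3

private theorem Emb2_term (e : Emb N c T z ε) (r : ℕ) (y : LaurentSeries k) :
    ε (j0L c (HahnSeries.single (r : ℤ) 1 * subN k N y)) =
      T ^ r * algebraMap (LaurentSeries k) (Ks k) y := by
  have h1 : (HahnSeries.single (r : ℤ) (1 : k)) = (HahnSeries.single (1 : ℤ) (1 : k)) ^ r := by
    rw [HahnSeries.single_pow, one_pow]
    simp
  rw [map_mul, map_mul, e.εK, h1, map_pow, map_pow, e.εT]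

/-- an automorphism of the form `T ↦ ζ^i T`, `z ↦ θ^i z + l` restricts to `τ^i w^l`  -/
theorem Emb.sigma (e : Emb N c T z ε) (E : EL p N s θ ζ (phiL c) (j0L c) w τ h (XvL c))
    (hw : ∀ i : Fin s, ((w (zL c i) : Lw c) : Om k) = (wz c + 1).coeff i)
    (hτ : ∀ i : Fin s, ((τ (zL c i) : Lw c) : Om k) =
      (((θ : ℕ) : WittVector p (Om k)) * wz c).coeff i)
    (σ : GalK k) (i l : ℕ) (h1 : σ T = cK k (ζ : k) ^ i * T)
    (h2 : ∀ j < s, σ (z.coeff j) = (((θ ^ i : ℕ) : WittVector p (Ks k)) * z + l).coeff j)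
    (x : Lw c) : σ (ε x) = ε ((τ ^ i) ((w ^ l) x)) := by
  -- the powers of `w`
  have hw' : ∀ i : Fin s, w (zL c i) = (((1 : ℕ) : WittVector p (Lw c)) * Emb2_zw c +
      (1 : ℕ)).coeff i := by
    intro i
    apply Subtype.ext
    have h3 := Emb2_phi_lin c 1 1 i i.2
    rw [Nat.cast_one, one_mul, Nat.cast_one, one_mul] at h3
    rw [hw, Nat.cast_one, one_mul]
    exact h3.symm
  have hτ' : ∀ i : Fin s, τ (zL c i) = (((θ : ℕ) : WittVector p (Lw c)) * Emb2_zw c +
      (0 : ℕ)).coeff i := by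
    intro i
    apply Subtype.ext
    have h3 := Emb2_phi_lin c θ 0 i i.2
    rw [Nat.cast_zero, add_zero, Nat.cast_zero, add_zero] at h3
    rw [hτ, Nat.cast_zero, add_zero]
    exact h3.symm
  have hzz : ∀ i : Fin s, (zL c i) = (Emb2_zw c).coeff i := fun i =>
    (Emb2_zw_coeff c i.2).symm
  have hwl : ∀ (l : ℕ) (i : Fin s), (w ^ l) (zL c i) =
      (((1 : ℕ) : WittVector p (Lw c)) * Emb2_zw c + (l : ℕ)).coeff i := by
    intro l
    induction l with
    | zero =>
      intro i
      rw [Nat.cast_one, one_mul, Nat.cast_zero, add_zero]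
      exact hzz i
    | succ l ih =>
      intro i
      rw [pow_succ']
      change w ((w ^ l) (zL c i)) = _
      rw [ih i]
      have h4 := Emb2_map c (w : Lw c →+* Lw c) (y := ((1 : ℕ) : WittVector p (Lw c)) *
        Emb2_zw c + (1 : ℕ)) (fun i => hw' i) 1 l i i.2
      refine h4.trans ?_
      congr 1
      push_cast
      ring
  have hτi : ∀ (n : ℕ) (i : Fin s), (τ ^ n) (zL c i) =
      (((θ ^ n : ℕ) : WittVector p (Lw c)) * Emb2_zw c + (0 : ℕ)).coeff i := by
    intro n
    induction n with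
    | zero =>
      intro i
      rw [pow_zero, pow_zero, Nat.cast_one, one_mul, Nat.cast_zero, add_zero]
      exact hzz i
    | succ n ih =>
      intro i
      rw [pow_succ']
      change τ ((τ ^ n) (zL c i)) = _
      rw [ih i]
      have h4 := Emb2_map c (τ : Lw c →+* Lw c) (y := ((θ : ℕ) : WittVector p (Lw c)) *
        Emb2_zw c + (0 : ℕ)) (fun i => hτ' i) (θ ^ n) 0 i i.2
      refine h4.trans ?_
      congr 1
      push_cast
      ring
  have hrot : ∀ (n : ℕ) (y : LaurentSeries k), (τ ^ n) (j0L c y) = j0L c (rot (ζ ^ n) y) := by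
    intro n
    induction n with
    | zero =>
      intro y
      rw [pow_zero, pow_zero, rot_one]
      rfl
    | succ n ih =>
      intro y
      rw [pow_succ']
      change τ ((τ ^ n) (j0L c y)) = _
      rw [ih, E.τj, rot_rot, pow_succ']
  have hζN : ζ ^ N = 1 := by
    have h3 := hrot N (HahnSeries.single 1 1)
    rw [E.τN] at h3
    have h4 : HahnSeries.single (1 : ℤ) (1 : k) = rot (ζ ^ N) (HahnSeries.single 1 1) :=
      (j0L c).injective h3
    rw [rot_single, zpow_one, mul_one] at h4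
    have h5 := congrArg (fun f : LaurentSeries k => f.coeff 1) h4
    simp only [HahnSeries.coeff_single_same] at h5
    exact (Units.ext h5).symm
  have hwj : ∀ (l : ℕ) (y : LaurentSeries k), (w ^ l) (j0L c y) = j0L c y := by
    intro l
    induction l with
    | zero => intro y; rfl
    | succ l ih =>
      intro y
      rw [pow_succ']
      change w ((w ^ l) (j0L c y)) = _
      rw [ih, (E.fixw _).2 ⟨y, rfl⟩]
  let g : Lw c →+* Ks k := ε.comp (((w ^ l).trans (τ ^ i) : Lw c ≃+* Lw c) : Lw c →+* Lw c)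
  let f : Lw c →+* Ks k := (σ : Ks k →+* Ks k).comp ε
  suffices hfg : ∀ x, f x = g x from hfg x
  apply Emb2_ext
  · intro y
    change σ (ε (j0L c y)) = ε ((τ ^ i) ((w ^ l) (j0L c y)))
    rw [hwj, hrot]
    obtain ⟨y', hy'⟩ := exists_decomp N y
    have h3 : ε (j0L c y) = ∑ r : Fin N, T ^ (r : ℕ) *
        algebraMap (LaurentSeries k) (Ks k) (y' r) := by
      conv_lhs => rw [hy']
      rw [map_sum, map_sum]
      exact Finset.sum_congr rfl fun r _ => Emb2_term e r (y' r)
    have h4 : rot (ζ ^ i) y = ∑ r : Fin N, HahnSeries.C (((ζ ^ i) ^ (r : ℕ) : kˣ) : k) *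
        (HahnSeries.single ((r : ℕ) : ℤ) 1 * subN k N (y' r)) := by
      conv_lhs => rw [hy']
      rw [map_sum]
      refine Finset.sum_congr rfl fun r _ => ?_
      rw [map_mul, rot_subN N (ζ ^ i) (by rw [← pow_mul, mul_comm, pow_mul, hζN, one_pow]),
        rot_single, zpow_natCast, ← mul_assoc, HahnSeries.C_apply, HahnSeries.single_mul_single,
        zero_add]
    rw [h3, h4, map_sum, map_sum, map_sum]
    refine Finset.sum_congr rfl fun r _ => ?_
    rw [map_mul, map_mul, map_mul, Emb2_C e, Emb2_term e, map_pow, h1, σ.commutes, mul_pow,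
      ← mul_assoc]
    congr 2
    rw [← pow_mul, Units.val_pow_eq_pow_val, Units.val_pow_eq_pow_val, map_pow, map_pow,
      ← pow_mul]
  · intro j
    change σ (ε (zL c j)) = ε ((τ ^ i) ((w ^ l) (zL c j)))
    rw [e.εz, h2 j j.2, hwl]
    have h5 := Emb2_map c (((τ ^ i : Lw c ≃+* Lw c)) : Lw c →+* Lw c)
      (y := ((θ ^ i : ℕ) : WittVector p (Lw c)) * Emb2_zw c + (0 : ℕ)) (fun j => hτi i j) 1 l j j.2
    have h6 : (τ ^ i) ((((1 : ℕ) : WittVector p (Lw c)) * Emb2_zw c + (l : ℕ)).coeff j) =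
        (((θ ^ i : ℕ) : WittVector p (Lw c)) * Emb2_zw c + (l : ℕ)).coeff j := by
      refine h5.trans ?_
      congr 1
      rw [Nat.cast_one, one_mul, Nat.cast_zero, add_zero]
    rw [h6]
    exact (Emb2_map c ε e.εz (θ ^ i) l j j.2).symm

theorem Emb.exists_sigma (e : Emb N c T z ε) (α : Lw c ≃+* Lw c)
    (hα : ∀ x, α (j0L c (subN k N x)) = j0L c (subN k N x)) :
    ∃ σ : GalK k, ∀ x, σ (ε x) = ε (α x) :=
  exists_extend ((j0L c).comp (subN k N)) ε e.εK α hα

theorem Emb.mem_range (e : Emb N c T z ε) (x : Ks k)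
    (hx : ∀ σ : GalK k, (∀ y, σ (ε y) = ε y) → σ x = x) : x ∈ Set.range ε :=
  mem_range_of_fixed ((j0L c).comp (subN k N)) ε e.εK x hx

omit [IsAlgClosed k] in
private theorem Emb2_neg (f : PowerSeries k) {j : ℤ} (hj : j < 0) :
    (algebraMap (PowerSeries k) (LaurentSeries k) f).coeff j = 0 := by
  change (HahnSeries.ofPowerSeries ℤ k f).coeff j = 0
  rw [HahnSeries.ofPowerSeries_apply, HahnSeries.embDomain_of_notMem_range]
  rintro ⟨i, hi⟩
  have : ((i : ℕ) : ℤ) = j := hi
  omega

omit [IsAlgClosed k] in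
private theorem Emb2_pos (y : LaurentSeries k) (h : ∀ j : ℤ, j < 0 → y.coeff j = 0) :
    0 ≤ (toOm k y).orderTop := by
  by_contra hlt
  rw [not_le] at hlt
  have hne : (toOm k y).orderTop ≠ ⊤ := ne_top_of_lt hlt
  obtain ⟨q, hq⟩ := WithTop.ne_top_iff_exists.1 hne
  have h1 : (toOm k y).coeff q ≠ 0 := HahnSeries.coeff_orderTop_ne hq.symm
  rw [← hq] at hlt
  have hq0 : q < 0 := by exact_mod_cast hlt
  apply h1
  by_cases hj : ∃ j : ℤ, q = j
  · obtain ⟨j, rfl⟩ := hj
    rw [toOm_coeff_int]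
    exact h j (by exact_mod_cast hq0)
  · push Not at hj
    exact toOm_coeff_not y q hj

omit [IsAlgClosed k] in
private theorem Emb2_subN_neg (f : PowerSeries k) {j : ℤ} (hj : j < 0) :
    (subN k N (algebraMap (PowerSeries k) (LaurentSeries k) f)).coeff j = 0 := by
  by_cases h : (N : ℤ) ∣ j
  · obtain ⟨i, rfl⟩ := h
    rw [subN_coeff_mul]
    apply Emb2_neg
    have hN : (0 : ℤ) < N := Int.natCast_pos.mpr (Nat.pos_of_ne_zero (NeZero.ne N))
    by_contra hi
    push Not at hi
    have := mul_nonneg hN.le hi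
    omega
  · exact subN_coeff_not N _ j h

omit [IsAlgClosed k] in
/-- the components of a power series are power series -/
private theorem Emb2_decomp (f : PowerSeries k) (y : Fin N → LaurentSeries k)
    (hy : algebraMap (PowerSeries k) (LaurentSeries k) f =
      ∑ i : Fin N, HahnSeries.single ((i : ℕ) : ℤ) 1 * subN k N (y i)) (r : Fin N) (j : ℤ)
    (hj : j < 0) : (y r).coeff j = 0 := by
  have h1 : (algebraMap (PowerSeries k) (LaurentSeries k) f).coeff ((N : ℤ) * j + (r : ℕ)) =
      (∑ i : Fin N, HahnSeries.single ((i : ℕ) : ℤ) 1 * subN k N (y i)).coeff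
        ((N : ℤ) * j + (r : ℕ)) := by rw [hy]
  have hN : (0 : ℤ) < N := Int.natCast_pos.mpr (Nat.pos_of_ne_zero (NeZero.ne N))
  have hneg : (N : ℤ) * j + (r : ℕ) < 0 := by
    have h2 : ((r : ℕ) : ℤ) < N := by exact_mod_cast r.2
    nlinarith
  rw [Emb2_neg f hneg, HahnSeries.coeff_sum, Finset.sum_eq_single r] at h1
  · rw [HahnSeries.coeff_single_mul, one_mul, add_sub_cancel_right, subN_coeff_mul] at h1
    exact h1.symm
  · intro i _ hi
    rw [HahnSeries.coeff_single_mul, one_mul]
    apply subN_coeff_not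
    intro hd
    have h3 : (N : ℤ) ∣ ((r : ℕ) : ℤ) - ((i : ℕ) : ℤ) := by
      have h4 := dvd_sub hd (dvd_mul_right (N : ℤ) j)
      have h5 : (N : ℤ) * j + ((r : ℕ) : ℤ) - ((i : ℕ) : ℤ) - (N : ℤ) * j =
          ((r : ℕ) : ℤ) - ((i : ℕ) : ℤ) := by ring
      rwa [h5] at h4
    apply hi
    have hr := r.2
    have hi2 := i.2
    obtain ⟨q, hq⟩ := h3
    have hq0 : q = 0 := by
      by_contra hq0
      rcases lt_or_gt_of_ne hq0 with hq1 | hq1
      · have : (N : ℤ) * q ≤ -N := by nlinarith
        omega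
      · have : (N : ℤ) ≤ (N : ℤ) * q := by nlinarith
        omega
    rw [hq0, mul_zero] at hq
    apply Fin.ext
    omega
  · intro h3
    exact absurd (Finset.mem_univ _) h3

private theorem Emb2_T (e : Emb N c T z ε) : T ^ N =
    algebraMap (PowerSeries k) (Ks k) PowerSeries.X := by
  have h1 : (HahnSeries.single (1 : ℤ) (1 : k)) ^ N =
      subN k N (HahnSeries.single (1 : ℤ) (1 : k)) := by
    rw [HahnSeries.single_pow, one_pow, subN_single]
    simp
  rw [← e.εT, ← map_pow, ← map_pow, h1, e.εK,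
    IsScalarTower.algebraMap_apply (PowerSeries k) (LaurentSeries k) (Ks k)]
  congr 1
  exact (HahnSeries.ofPowerSeries_X).symm

private theorem Emb2_int (e : Emb N c T z ε) (f : PowerSeries k) :
    IsIntegral (PowerSeries k) (ε (algebraMap (PowerSeries k) (Lw c) f)) := by
  obtain ⟨y, hy⟩ := exists_decomp N (algebraMap (PowerSeries k) (LaurentSeries k) f)
  have h1 : ε (algebraMap (PowerSeries k) (Lw c) f) = ∑ r : Fin N, T ^ (r : ℕ) *
      algebraMap (LaurentSeries k) (Ks k) (y r) := by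
    rw [IsScalarTower.algebraMap_apply (PowerSeries k) (LaurentSeries k) (Lw c)]
    change ε (j0L c (algebraMap (PowerSeries k) (LaurentSeries k) f)) = _
    conv_lhs => rw [hy]
    rw [map_sum, map_sum]
    exact Finset.sum_congr rfl fun r _ => Emb2_term e r (y r)
  rw [h1]
  refine IsIntegral.sum _ fun r _ => ?_
  refine IsIntegral.mul ?_ ?_
  · refine IsIntegral.pow ?_ _
    refine IsIntegral.of_pow (Nat.pos_of_ne_zero (NeZero.ne N)) ?_
    rw [Emb2_T e]
    exact isIntegral_algebraMap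
  · obtain ⟨g, hg⟩ := exists_powerSeries (y r) (Emb2_pos _ fun j hj => Emb2_decomp f y hy r j hj)
    rw [← hg, ← IsScalarTower.algebraMap_apply (PowerSeries k) (LaurentSeries k) (Ks k)]
    exact isIntegral_algebraMap

private def Emb2_V (k : Type u) [Field k] :
    Valuation (Om k) (Multiplicative (WithTop ℚ)ᵒᵈ) :=
  (HahnSeries.addVal ℚ k).toValuation

omit [IsAlgClosed k] in
private theorem Emb2_mem (x : Om k) : x ∈ (Emb2_V k).integer ↔ 0 ≤ x.orderTop := by
  rw [Valuation.mem_integer_iff]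
  rfl

/-- `k[[T]]` is integral over `k[[t]]`, and `WC.isIntegral_Lw_iff` -/
theorem Emb.isIntegral_iff (e : Emb N c T z ε) (x : Lw c) :
    IsIntegral (PowerSeries k) (ε x) ↔ 0 ≤ (x : Om k).orderTop := by
  constructor
  · intro h
    obtain ⟨P, hP, hev⟩ := h
    let j : PowerSeries k →+* Lw c :=
      (j0L c).comp ((subN k N).comp (algebraMap (PowerSeries k) (LaurentSeries k)))
    have hj : ε.comp j = algebraMap (PowerSeries k) (Ks k) := by
      ext f
      change ε (j0L c (subN k N (algebraMap (PowerSeries k) (LaurentSeries k) f))) = _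
      rw [e.εK, IsScalarTower.algebraMap_apply (PowerSeries k) (LaurentSeries k) (Ks k)]
    have h0 : P.eval₂ j x = 0 := by
      apply ε.injective
      rw [Polynomial.hom_eval₂, hj, hev, map_zero]
    have hmem : ∀ f, (phiL c) (j f) ∈ (Emb2_V k).integer := by
      intro f
      rw [Emb2_mem]
      exact Emb2_pos _ fun i hi => Emb2_subN_neg f hi
    let φ : PowerSeries k →+* (Emb2_V k).integer :=
      ((phiL c).comp j).codRestrict (Emb2_V k).integer hmem
    have h2 : IsIntegral (Emb2_V k).integer (x : Om k) := by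
      refine ⟨P.map φ, hP.map φ, ?_⟩
      rw [Polynomial.eval₂_map]
      have h3 : (algebraMap (Emb2_V k).integer (Om k)).comp φ = (phiL c).comp j := rfl
      have h4 : (x : Om k) = phiL c x := rfl
      rw [h3, h4, ← Polynomial.hom_eval₂, h0, map_zero]
    rw [← Emb2_mem]
    exact (Valuation.integer.integers (Emb2_V k)).mem_of_integral h2
  · intro h
    have h1 := (isIntegral_Lw_iff c x).2 h
    let φ : PowerSeries k →+* integralClosure (PowerSeries k) (Ks k) :=
      (ε.comp (algebraMap (PowerSeries k) (Lw c))).codRestrict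
        (integralClosure (PowerSeries k) (Ks k)) fun f => Emb2_int e f
    have h2 : IsIntegral (integralClosure (PowerSeries k) (Ks k)) (ε x) :=
      IsIntegral.map_of_comp_eq (R := PowerSeries k) (S := Lw c)
        (T := integralClosure (PowerSeries k) (Ks k)) (U := Ks k) φ ε rfl h1
    exact isIntegral_trans (A := integralClosure (PowerSeries k) (Ks k)) _ h2

end

end Pool.Agent.WG
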