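import Pool.Agent.WG.N5

/-! # The generating series (piece WG-N6) -/

namespace Pool.Agent.WG

open Polynomial Filter Pool.Agent.WD Pool.Agent.WC

variable {β : Type} [Fintype β] {p N κ s : ℕ} {pos r : β → ℕ}

private theorem n6_Xq_congr {p r : ℕ} {u u' : ℕ → ℕ} (h : ∀ s, s < r → u s = u' s) (i : ℕ) :
    Xq p r u i = Xq p r u' i := by
  unfold Xq
  refine Finset.sum_congr rfl fun s hs => ?_
  rw [Finset.mem_range] at hs
  congr 1
  unfold Yq
  simp only
  rw [h s hs]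
  congr 1
  refine Finset.sum_congr rfl fun t ht => ?_
  rw [Finset.mem_range] at ht
  rw [h t (ht.trans hs)]

private theorem n6_vGN_congr {u u' : ℕ → ℕ} (h : ∀ l, l < s → u l = u' l) :
    vGN p N s pos r u = vGN p N s pos r u' := by
  unfold vGN
  exact Finset.sum_congr rfl fun a _ => by rw [n6_Xq_congr h]

private theorem n6_group {γ K : Type} (g : K → γ) (t : γ → Finset K) (F : K → ℝ)
    (h1 : ∀ c k, g k = c → k ∈ t c) (h2 : ∀ c, ∀ k ∈ t c, g k = c) {x : ℝ}
    (h : HasSum F x) : HasSum (fun c => ∑ k ∈ t c, F k) x := by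
  have h3 := h.tsum_fiberwise g
  have h4 : (fun c => ∑ k ∈ t c, F k) = fun c => ∑' b : g ⁻¹' {c}, F b := by
    funext c
    rw [tsum_subtype (g ⁻¹' {c}) F, tsum_eq_sum (s := t c)]
    · refine Finset.sum_congr rfl fun k hk => ?_
      rw [Set.indicator_of_mem]
      exact h2 c k hk
    · intro k hk
      rw [Set.indicator_of_notMem]
      exact fun h5 => hk (h1 c k h5)
  rw [h4]
  exact h3

private theorem n6_mcls (p N κ : ℕ) (y : ℝ) (j : ℕ) :
    aeval (y ^ N) (mclsG p N κ j) = mRG p N κ ((y ^ 2) ^ N) j := by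
  have e : (y ^ N) ^ 2 = (y ^ 2) ^ N := by rw [← pow_mul, ← pow_mul, mul_comm]
  unfold mclsG mRG
  split_ifs with h
  · simp
  · simp [pow_mul, e]

private theorem n6_box {M : ℕ} (K : Fin s → ℕ) :
    K ∈ boxG p N κ s M ↔ (∀ l, K l ≤ M) ∧ ∀ l : Fin s, JV p N κ l (K l) := by
  classical
  unfold boxG
  simp only [Finset.mem_filter, Fintype.mem_piFinset, Finset.mem_range, Nat.lt_succ_iff]

private theorem n6_mem (hp : p.Prime) (D : ND p N κ s pos r) (J : JT p N κ s) {M : ℕ}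
    (hM : vGN p N s pos r (up p (WC.jN J.1)) ≤ M) : J.1 ∈ boxG p N κ s ((p + 1) * M) := by
  rw [n6_box]
  exact ⟨fun l => (le_vGN hp D J.2 l).trans (Nat.mul_le_mul_left _ hM), J.2⟩

private theorem n6_sum {M : ℕ} (P : (Fin s → ℕ) → Prop) [DecidablePred P]
    [DecidablePred fun J : Fin s → ℕ => ∀ l : Fin s, JV p N κ l (J l)]
    (F : (Fin s → ℕ) → ℝ) :
    (∑ J ∈ ((boxG p N κ s M).filter P).subtype
      (fun J : Fin s → ℕ => ∀ l : Fin s, JV p N κ l (J l)), F (J : Fin s → ℕ)) =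
      ∑ J ∈ (boxG p N κ s M).filter P, F J := by
  have h := Finset.sum_subtype_eq_sum_filter (s := (boxG p N κ s M).filter P) F
    (p := fun J : Fin s → ℕ => ∀ l : Fin s, JV p N κ l (J l))
  rw [h, Finset.filter_true_of_mem]
  intro J hJ
  exact ((n6_box J).1 (Finset.mem_filter.1 hJ).1).2

/-- group the sum over `J` by the values of `N v`; `T = y^N`, `q = T^2 = (y^2)^N` -/
theorem hasSum_PG (hp : p.Prime) (D : ND p N κ s pos r) (y : ℝ) (hy : 1 < y) (x : ℝ)
    (h : HasSum (fun e : ET p N κ s => (1 - ((y ^ 2) ^ N)⁻¹) ^ nS e.1 *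
      (y ^ 2) ^ AG p N κ pos r e.1) x) :
    HasSum (fun a : ℕ => aeval (y ^ N) (PGp p N κ s pos r a) * y ^ (-(2 * (a : ℤ)))) x := by
  classical
  have hq1 : 1 < y ^ 2 := by nlinarith
  have hq0 : (0 : ℝ) < y ^ 2 := by positivity
  have hq : 1 < (y ^ 2) ^ N := one_lt_pow₀ hq1 D.hN.ne'
  set Φ : (ℕ → ℕ) → ℝ := fun u => (y ^ 2) ^ (-(vGN p N s pos r u : ℤ)) with hΦ
  have h1 := hasSum_jumpsG hp D.hN D.hpN D.hκ ((y ^ 2) ^ N) hq Φ
    (fun u => (zpow_pos hq0 _).le)
    (fun u u' hu => by rw [hΦ]; simp only; rw [n6_vGN_congr hu]) x (by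
      convert h using 2 with e
      rw [hΦ, mul_assoc]
      congr 1
      simp only
      unfold AG
      rw [← pow_mul, sub_eq_add_neg, zpow_add₀ hq0.ne', zpow_natCast])
  have h3 := n6_group (fun J : JT p N κ s => vGN p N s pos r (up p (WC.jN J.1)))
    (fun a => ((boxG p N κ s ((p + 1) * a)).filter
      (fun J => vGN p N s pos r (up p (WC.jN J)) = a)).subtype
        (fun J => ∀ l : Fin s, JV p N κ l (J l))) _
    (fun a J hJ => by
      rw [Finset.mem_subtype, Finset.mem_filter]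
      exact ⟨n6_mem hp D J (le_of_eq hJ), hJ⟩)
    (fun a J hJ => (Finset.mem_filter.1 (Finset.mem_subtype.1 hJ)).2) h1
  convert h3 using 2 with a
  rw [n6_sum (P := fun J => vGN p N s pos r (up p (WC.jN J)) = a)
    (F := fun J => (∏ l, mRG p N κ ((y ^ 2) ^ N) (J l)) * Φ (up p (WC.jN J)))]
  unfold PGp
  rw [map_sum, Finset.sum_mul]
  refine Finset.sum_congr rfl fun K hK => ?_
  rw [Finset.mem_filter] at hK
  rw [map_prod, hΦ]
  simp only
  rw [hK.2]
  congr 1
  · exact Finset.prod_congr rfl fun s _ => n6_mcls p N κ y _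
  · rw [← zpow_natCast y 2, ← zpow_mul]
    congr 1
    push_cast
    ring

theorem hasSum_QG (hp : p.Prime) (D : ND p N κ s pos r) (y : ℝ) (hy : 1 < y) (x : ℝ)
    (h : HasSum (fun e : ET p N κ s => (1 - ((y ^ 2) ^ N)⁻¹) ^ nS e.1 *
      (y ^ 2) ^ (AG p N κ pos r e.1 + ((N * cGN pos r : ℕ) : ℤ))) x) :
    HasSum (fun b : ℤ => aeval (y ^ N) (QGp p N κ s pos r b) * y ^ (2 * b)) x := by
  classical
  have hq1 : 1 < y ^ 2 := by nlinarith
  have hq0 : (0 : ℝ) < y ^ 2 := by positivity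
  have hq : 1 < (y ^ 2) ^ N := one_lt_pow₀ hq1 D.hN.ne'
  set Φ : (ℕ → ℕ) → ℝ := fun u =>
    (y ^ 2) ^ (((N * cGN pos r : ℕ) : ℤ) - (vGN p N s pos r u : ℤ)) with hΦ
  have h1 := hasSum_jumpsG hp D.hN D.hpN D.hκ ((y ^ 2) ^ N) hq Φ
    (fun u => (zpow_pos hq0 _).le)
    (fun u u' hu => by rw [hΦ]; simp only; rw [n6_vGN_congr hu]) x (by
      convert h using 2 with e
      rw [hΦ, mul_assoc]
      congr 1
      simp only
      unfold AG
      rw [← pow_mul, ← zpow_natCast (y ^ 2) (N * _), ← zpow_add₀ hq0.ne']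
      congr 1
      ring)
  have h3 := n6_group (fun J : JT p N κ s =>
      ((N * cGN pos r : ℕ) : ℤ) - (vGN p N s pos r (up p (WC.jN J.1)) : ℤ))
    (fun b => ((boxG p N κ s ((p + 1) * (N * cGN pos r + (-b).toNat))).filter
      (fun J => ((N * cGN pos r : ℕ) : ℤ) -
        (vGN p N s pos r (up p (WC.jN J)) : ℤ) = b)).subtype
        (fun J => ∀ l : Fin s, JV p N κ l (J l))) _
    (fun b J hJ => by
      rw [Finset.mem_subtype, Finset.mem_filter]
      refine ⟨n6_mem hp D J ?_, hJ⟩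
      omega)
    (fun b J hJ => (Finset.mem_filter.1 (Finset.mem_subtype.1 hJ)).2) h1
  convert h3 using 2 with b
  rw [n6_sum (P := fun J => ((N * cGN pos r : ℕ) : ℤ) -
        (vGN p N s pos r (up p (WC.jN J)) : ℤ) = b)
    (F := fun J => (∏ l, mRG p N κ ((y ^ 2) ^ N) (J l)) * Φ (up p (WC.jN J)))]
  unfold QGp
  rw [map_sum, Finset.sum_mul]
  refine Finset.sum_congr rfl fun K hK => ?_
  rw [Finset.mem_filter] at hK
  rw [map_prod, hΦ]
  simp only
  rw [hK.2]
  congr 1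
  · exact Finset.prod_congr rfl fun s _ => n6_mcls p N κ y _
  · rw [← zpow_natCast y 2, ← zpow_mul]
    congr 1

end Pool.Agent.WG
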