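import Pool.Agent.WG.N3
import Pool.Agent.WG.N6

/-! # The duality for one pair `(γ, g)` -/

namespace Pool.Agent.WG

open Polynomial Filter Pool.Agent.WD Pool.Agent.WC

variable {β : Type} [Fintype β] {p N κ s : ℕ} {pos r : β → ℕ}

/-- the dual data -/
theorem ND.dual (D : ND p N κ s pos r) : ND p N (dk N κ) s pos (dr N r) where
  hN := D.hN
  hpN := D.hpN
  hκ := by
    have h1 := D.hκ
    have hN := D.hN
    have h2 : κ % N < N := Nat.mod_lt _ hN
    have h3 : N ∣ (p - 1) * (κ % N) := by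
      have h4 : (p - 1) * κ = (p - 1) * (κ % N) + N * ((p - 1) * (κ / N)) := by
        conv_lhs => rw [← Nat.mod_add_div κ N]
        ring
      exact (Nat.dvd_add_left (Dvd.intro _ rfl)).mp (h4 ▸ h1)
    have h5 : N ∣ (p - 1) * (N - κ % N) := by
      rw [Nat.mul_sub]
      exact Nat.dvd_sub (Dvd.intro_left _ rfl) h3
    rw [dk]
    rw [Nat.dvd_iff_mod_eq_zero, Nat.mul_mod, Nat.mod_mod, ← Nat.mul_mod]
    exact Nat.mod_eq_zero_of_dvd h5
  hpos := D.hpos
  hr b := Nat.mod_lt _ D.hN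
  hf := D.hf

theorem cGN_dual (D : ND p N κ s pos r) : cGN pos (dr N r) = cGN pos r := by
  unfold cGN
  congr 1
  ext b
  simp only [Finset.mem_filter, Finset.mem_univ, true_and, dr]
  have h := D.hr b
  have : (N - r b) % N = 0 ↔ r b = 0 := by
    constructor
    · intro h1
      by_contra h2
      rw [Nat.mod_eq_of_lt (by omega)] at h1
      omega
    · intro h1
      rw [h1, Nat.sub_zero, Nat.mod_self]
  rw [this]

/-- If the series of `(γ, g)` converges, then its sum and the sum of the second series for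
`(γ⁻¹, g)` are dual. -/
theorem comp_dual (hp : p.Prime) (D : ND p N κ s pos r)
    (hconv : Tendsto (fun a : ℕ => 2 * (a : ℤ) - N * ((PGp p N κ s pos r a).natDegree : ℤ))
      atTop atTop) :
    ∃ F F' : ℝ → ℝ, Dual F F' ∧ ∀ y : ℝ, 1 < y →
      HasSum (fun a : ℕ => aeval (y ^ N) (PGp p N κ s pos r a) * y ^ (-(2 * (a : ℤ)))) (F y) ∧
      HasSum (fun b : ℤ => aeval (y ^ N) (QGp p N (dk N κ) s pos (dr N r) b) * y ^ (2 * b))
        (F' y) := by
  obtain ⟨c, h1, h2, h3⟩ := AG_struct hp D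
  have hc := dec_posG hp D hconv c h1
  have hN := D.hN
  have hpp := hp.pos
  have hP : 0 < N * p ^ s := Nat.mul_pos hN (pow_pos hpp s)
  have hdvd : ∀ l : Fin s, p ∣ N * p ^ s := fun l =>
    Dvd.dvd.mul_left (dvd_pow_self p (by have := l.2; omega)) N
  -- periodicity of the index sets
  have hper : ∀ (κ : ℕ) (l : Fin s) (x : ℕ), x ≠ 0 →
      (EV p N κ l x ↔ EV p N κ l (x + N * p ^ s)) := by
    intro κ l x hx
    have h5 : (p ∣ x + N * p ^ s) ↔ p ∣ x := Nat.dvd_add_left (hdvd l)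
    have h6 : (x + N * p ^ s ≡ κ [MOD N]) ↔ (x ≡ κ [MOD N]) := by
      unfold Nat.ModEq
      rw [Nat.add_mul_mod_self_left]
    have h7 : (N ∣ x + N * p ^ s) ↔ N ∣ x := Nat.dvd_add_left (Dvd.intro _ rfl)
    unfold EV
    rw [h5, h6, h7]
    constructor
    · rintro (⟨a, b, c, d⟩ | ⟨a, b⟩)
      · exact Or.inl ⟨a, b, c, by omega⟩
      · rcases b with b | b
        · exact absurd b hx
        · exact Or.inr ⟨a, Or.inr b⟩
    · rintro (⟨a, b, c, d⟩ | ⟨a, b⟩)
      · exact Or.inl ⟨a, b, c, by omega⟩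
      · rcases b with b | b
        · omega
        · exact Or.inr ⟨a, Or.inr b⟩
  have hnd : ∀ (κ : ℕ) (l : Fin s) (x : ℕ), EV p N κ l x → x ≠ 0 → ¬ N * p ^ s ∣ x := by
    intro κ l x hx hx0 hd
    have h5 : p ∣ x := (hdvd l).trans hd
    rcases hx with ⟨-, -, h6, -⟩ | ⟨-, h6 | ⟨-, h6⟩⟩
    · exact h6 h5
    · exact hx0 h6
    · exact h6 h5
  have hrefl : ∀ (l : Fin s) (x : ℕ), 0 < x → x < N * p ^ s →
      (EV p N κ l x ↔ EV p N (dk N κ) l (N * p ^ s - x)) := by
    intro l x hx0 hx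
    have h5 : (p ∣ N * p ^ s - x) ↔ p ∣ x := (Nat.dvd_sub_iff_right hx.le (hdvd l))
    have h6 : (N * p ^ s - x ≡ dk N κ [MOD N]) ↔ (x ≡ κ [MOD N]) := by
      have e1 : dk N κ + κ ≡ 0 [MOD N] := by
        have h2 : κ % N < N := Nat.mod_lt _ hN
        have g1 : dk N κ ≡ N - κ % N [MOD N] := Nat.mod_modEq _ _
        have g2 : κ ≡ κ % N [MOD N] := (Nat.mod_modEq _ _).symm
        have g3 : dk N κ + κ ≡ N - κ % N + κ % N [MOD N] := g1.add g2
        rw [Nat.sub_add_cancel h2.le] at g3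
        exact g3.trans ((Nat.modEq_zero_iff_dvd).mpr dvd_rfl)
      have e2 : N * p ^ s - x + x ≡ 0 [MOD N] := by
        rw [Nat.sub_add_cancel hx.le]
        exact (Nat.modEq_zero_iff_dvd).mpr (Dvd.intro _ rfl)
      constructor
      · intro h
        have e3 : dk N κ + x ≡ dk N κ + κ [MOD N] := (h.symm.add_right x).trans (e2.trans e1.symm)
        exact Nat.ModEq.add_left_cancel' _ e3
      · intro h
        have e3 : N * p ^ s - x + κ ≡ dk N κ + κ [MOD N] :=
          ((h.symm.add_left _).trans e2).trans e1.symm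
        exact Nat.ModEq.add_right_cancel' _ e3
    have h7 : (N ∣ N * p ^ s - x) ↔ N ∣ x := Nat.dvd_sub_iff_right hx.le (Dvd.intro _ rfl)
    unfold EV
    rw [h5, h6, h7]
    constructor
    · rintro (⟨a, b, c, d⟩ | ⟨a, b⟩)
      · exact Or.inl ⟨a, b, c, by omega⟩
      · rcases b with b | b
        · omega
        · exact Or.inr ⟨a, Or.inr b⟩
    · rintro (⟨a, b, c, d⟩ | ⟨a, b⟩)
      · exact Or.inl ⟨a, b, c, by omega⟩
      · rcases b with b | b
        · omega
        · exact Or.inr ⟨a, Or.inr b⟩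
  have hz : ∀ l : Fin s, EV p N κ l 0 ↔ EV p N (dk N κ) l 0 := by
    intro l
    unfold EV
    constructor
    · rintro (⟨a, b, c, d⟩ | ⟨a, b⟩)
      · omega
      · exact Or.inr ⟨a, Or.inl rfl⟩
    · rintro (⟨a, b, c, d⟩ | ⟨a, b⟩)
      · omega
      · exact Or.inr ⟨a, Or.inl rfl⟩
  obtain ⟨F, F', hFF, hsum⟩ := recipG (s := s) hP hN (fun l x => EV p N κ l x)
    (fun l x => EV p N (dk N κ) l x) (hper κ) (hper (dk N κ)) (hnd κ) (hnd (dk N κ)) hrefl hz
    (AG p N κ pos r) (fun e => AG p N (dk N κ) pos (dr N r) e + ((N * cGN pos r : ℕ) : ℤ)) c hc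
    h1 (by
      intro e he l hl
      have := h2 e he l hl
      beta_reduce
      rw [this]
      ring) h3
  refine ⟨fun y => F (y ^ 2), fun y => F' (y ^ 2), hFF.comp_sq, fun y hy => ?_⟩
  have hy2 : 1 < y ^ 2 := by nlinarith
  obtain ⟨hs1, hs2⟩ := hsum (y ^ 2) hy2
  refine ⟨hasSum_PG hp D y hy _ hs1, hasSum_QG hp D.dual y hy _ ?_⟩
  rw [cGN_dual D]
  exact hs2

end Pool.Agent.WG
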