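import Pool.Agent.WG.Fin1
import Pool.Agent.WG.Defs

/-! # Sums over the rational numbers, convergence -/

namespace Pool.Agent.WG

open Polynomial Filter Pool.Agent.WD Pool.Agent.WC

noncomputable section

/-- the family `a ↦ f(a N)` on the rational numbers, `0` if `a N` is not a natural number -/
def PQ (N : ℕ) (f : ℕ → ℤ[X]) (a : ℚ) : ℤ[X] := if ((⌊a * N⌋₊ : ℕ) : ℚ) = a * N then f ⌊a * N⌋₊ else 0

/-- the same for the integers -/
def QQ (N : ℕ) (f : ℤ → ℤ[X]) (b : ℚ) : ℤ[X] := if ((⌊b * N⌋ : ℤ) : ℚ) = b * N then f ⌊b * N⌋ else 0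

theorem PQ_div {N : ℕ} (hN : 0 < N) (f : ℕ → ℤ[X]) (a : ℕ) : PQ N f ((a : ℚ) / N) = f a := by
  have hN' : (N : ℚ) ≠ 0 := by exact_mod_cast hN.ne'
  unfold PQ
  rw [div_mul_cancel₀ _ hN', Nat.floor_natCast, if_pos rfl]

theorem QQ_div {N : ℕ} (hN : 0 < N) (f : ℤ → ℤ[X]) (b : ℤ) : QQ N f ((b : ℚ) / N) = f b := by
  have hN' : (N : ℚ) ≠ 0 := by exact_mod_cast hN.ne'
  unfold QQ
  rw [div_mul_cancel₀ _ hN', Int.floor_intCast, if_pos rfl]

theorem PQ_not {N : ℕ} (hN : 0 < N) (f : ℕ → ℤ[X]) (a : ℚ)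
    (h : a ∉ Set.range fun n : ℕ => (n : ℚ) / N) : PQ N f a = 0 := by
  have hN' : (N : ℚ) ≠ 0 := by exact_mod_cast hN.ne'
  unfold PQ
  rw [if_neg]
  intro h1
  apply h
  refine ⟨⌊a * N⌋₊, ?_⟩
  beta_reduce
  rw [h1, mul_div_cancel_right₀ _ hN']

theorem QQ_not {N : ℕ} (hN : 0 < N) (f : ℤ → ℤ[X]) (a : ℚ)
    (h : a ∉ Set.range fun n : ℤ => (n : ℚ) / N) : QQ N f a = 0 := by
  have hN' : (N : ℚ) ≠ 0 := by exact_mod_cast hN.ne'
  unfold QQ
  rw [if_neg]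
  intro h1
  apply h
  refine ⟨⌊a * N⌋, ?_⟩
  beta_reduce
  rw [h1, mul_div_cancel_right₀ _ hN']

theorem pow_rat {N m d : ℕ} (hN : 0 < N) {S : ℝ} (hS : 1 < S) (a : ℤ) :
    ((S ^ (N * m) : ℝ)) ^ (2 * ((d : ℝ) - (((a : ℚ) / N : ℚ) : ℝ))) =
      S ^ (2 * (N * m) * d) * (S ^ m) ^ (-(2 * a)) := by
  have h0 : (0 : ℝ) < S := by linarith
  have hN' : (N : ℝ) ≠ 0 := by exact_mod_cast hN.ne'
  rw [← Real.rpow_natCast S (N * m), ← Real.rpow_mul h0.le, ← Real.rpow_natCast S (2 * (N * m) * d),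
    ← Real.rpow_intCast (S ^ m), ← Real.rpow_natCast S m, ← Real.rpow_mul h0.le,
    ← Real.rpow_add h0]
  congr 1
  push_cast
  field_simp
  ring

theorem hasSum_rat {N m d : ℕ} (hN : 0 < N) (f : ℕ → ℤ[X]) {S : ℝ} (hS : 1 < S) {x : ℝ}
    (h : HasSum (fun a : ℕ => aeval ((S ^ m) ^ N) (f a) * (S ^ m) ^ (-(2 * (a : ℤ)))) x) :
    HasSum (fun a : ℚ => aeval (S ^ (N * m)) (PQ N f a) *
      (S ^ (N * m)) ^ (2 * ((d : ℝ) - (a : ℝ)))) (S ^ (2 * (N * m) * d) * x) := by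
  have hN' : (N : ℚ) ≠ 0 := by exact_mod_cast hN.ne'
  have hinj : Function.Injective fun n : ℕ => (n : ℚ) / N := by
    intro a b hab
    have h1 : (a : ℚ) = b := by
      have := congrArg (fun z : ℚ => z * N) hab
      simpa [div_mul_cancel₀ _ hN'] using this
    exact_mod_cast h1
  rw [← hinj.hasSum_iff]
  · have h1 := h.mul_left (S ^ (2 * (N * m) * d))
    have e0 : ((fun a : ℚ => aeval (S ^ (N * m)) (PQ N f a) *
        (S ^ (N * m)) ^ (2 * ((d : ℝ) - (a : ℝ)))) ∘ fun n : ℕ => (n : ℚ) / N) =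
        fun a : ℕ => S ^ (2 * (N * m) * d) *
          (aeval ((S ^ m) ^ N) (f a) * (S ^ m) ^ (-(2 * (a : ℤ)))) := by
      funext a
      have h2 := pow_rat (N := N) (m := m) (d := d) hN hS (a : ℤ)
      rw [Int.cast_natCast] at h2
      rw [Function.comp_apply, PQ_div hN, h2, ← pow_mul, mul_comm m N]
      ring
    rw [e0]
    exact h1
  · intro a ha
    rw [PQ_not hN f a ha, map_zero, zero_mul]

theorem hasSum_ratZ {N m : ℕ} (hN : 0 < N) (f : ℤ → ℤ[X]) {S : ℝ} (hS : 1 < S) {x : ℝ}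
    (h : HasSum (fun b : ℤ => aeval ((S ^ m) ^ N) (f b) * (S ^ m) ^ (2 * b)) x) :
    HasSum (fun b : ℚ => aeval (S ^ (N * m)) (QQ N f b) *
      (S ^ (N * m)) ^ (2 * (b : ℝ))) x := by
  have hN' : (N : ℚ) ≠ 0 := by exact_mod_cast hN.ne'
  have hinj : Function.Injective fun n : ℤ => (n : ℚ) / N := by
    intro a b hab
    have h1 : (a : ℚ) = b := by
      have := congrArg (fun z : ℚ => z * N) hab
      simpa [div_mul_cancel₀ _ hN'] using this
    exact_mod_cast h1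
  rw [← hinj.hasSum_iff]
  · have e0 : ((fun b : ℚ => aeval (S ^ (N * m)) (QQ N f b) *
        (S ^ (N * m)) ^ (2 * (b : ℝ))) ∘ fun n : ℤ => (n : ℚ) / N) =
        fun b : ℤ => aeval ((S ^ m) ^ N) (f b) * (S ^ m) ^ (2 * b) := ?_
    · rw [e0]
      exact h
    funext b
    have h2 := pow_rat (N := N) (m := m) (d := 0) hN hS (-b)
    rw [Function.comp_apply, QQ_div hN, ← pow_mul, mul_comm m N]
    congr 1
    rw [mul_zero, pow_zero, one_mul] at h2
    have e1 : (2 * (((0 : ℕ) : ℝ) - ((((-b : ℤ) : ℚ) / N : ℚ) : ℝ))) =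
        2 * (((b : ℚ) / N : ℚ) : ℝ) := by
      push_cast
      ring
    rw [e1] at h2
    rw [h2]
    congr 1
    ring
  · intro a ha
    rw [QQ_not hN f a ha, map_zero, zero_mul]

/-- the convergence of a sum of families gives the convergence of each of them -/
theorem conv_comp {N m : ℕ} (hN : 0 < N) (hm : 0 < m) {ι : Type} [Fintype ι]
    (f : ι → ℕ → ℤ[X]) (hf : ∀ i a, f i a = 0 ∨ 0 < (f i a).leadingCoeff)
    (h : ConvergesG (N * m) fun a => ∑ i, PQ N (f i) a) (i : ι) :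
    Tendsto (fun a : ℕ => 2 * (a : ℤ) - N * ((f i a).natDegree : ℤ)) atTop atTop := by
  have hN' : (N : ℚ) ≠ 0 := by exact_mod_cast hN.ne'
  have hm' : (m : ℚ) ≠ 0 := by exact_mod_cast hm.ne'
  have hNQ : (0 : ℚ) < N := by exact_mod_cast hN
  -- restrict to the multiples of `m`
  have h1 : Tendsto (fun a : ℕ => a * m) atTop atTop :=
    tendsto_atTop_mono (fun a => Nat.le_mul_of_pos_right a hm) tendsto_id
  have h2 := h.comp h1
  have h3 : Tendsto (fun a : ℕ => 2 * ((a : ℚ) / N) - ((f i a).natDegree : ℚ)) atTop atTop := by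
    refine tendsto_atTop_mono (fun a => ?_) h2
    have e1 : (((a * m : ℕ) : ℚ)) / ((N * m : ℕ) : ℚ) = (a : ℚ) / N := by
      push_cast
      rw [mul_div_mul_right _ _ hm']
    simp only [Function.comp_apply]
    rw [e1]
    have e2 : (∑ j, PQ N (f j) ((a : ℚ) / N)) = ∑ j, f j a :=
      Finset.sum_congr rfl fun j _ => PQ_div hN _ _
    rw [e2]
    have h4 := natDegree_le_sum Finset.univ (fun j => f j a) (fun j _ => hf j a)
      (Finset.mem_univ i)
    have h5 : ((f i a).natDegree : ℚ) ≤ ((∑ j, f j a).natDegree : ℚ) := by exact_mod_cast h4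
    linarith
  have h4 : Tendsto (fun a : ℕ => ((N : ℚ)) * (2 * ((a : ℚ) / N) - ((f i a).natDegree : ℚ)))
      atTop atTop := h3.const_mul_atTop hNQ
  rw [tendsto_atTop] at h4 ⊢
  intro b
  filter_upwards [h4 (b : ℚ)] with a ha
  have e3 : (N : ℚ) * (2 * ((a : ℚ) / N) - ((f i a).natDegree : ℚ)) =
      ((2 * (a : ℤ) - N * ((f i a).natDegree : ℤ) : ℤ) : ℚ) := by
    push_cast
    field_simp
  rw [e3] at ha
  exact_mod_cast ha

end

end Pool.Agent.WG
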