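import Pool.Agent.WG.U2

/-! # The value of `v` (piece WG-U3) -/

namespace Pool.Agent.WG

open Polynomial Pool.Agent.WD Pool.Agent.WC

noncomputable section

universe u v

variable {p : ℕ} [Fact p.Prime] {k : Type u} [Field k] [IsAlgClosed k] [CharP k p] {s : ℕ}
  {G : Type v} [Group G] {N κ θ : ℕ} [NeZero N] {ζ : kˣ} {γ g : G} {d n : ℕ}
  {ρ : G →* Matrix (Fin d) (Fin d) k} {c : Par p s k} {q : k[X]} {m : Fin n → ℕ}
  {E : Module.Basis (Ix n m) k (Fin d → k)} {r : Ix n m → ℕ}

omit [IsAlgClosed k] [CharP k p] in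
private theorem U3_inj : Function.Injective (algebraMap (PowerSeries k) (Ks k)) := by
  rw [IsScalarTower.algebraMap_eq (PowerSeries k) (LaurentSeries k) (Ks k), RingHom.coe_comp]
  exact (algebraMap (LaurentSeries k) (Ks k)).injective.comp
    (IsFractionRing.injective (PowerSeries k) (LaurentSeries k))

omit [IsAlgClosed k] in
private theorem U3_det {φ : Torsor k G} {b b' : Fin d → Fin d → Ks k} (hb : TBasis ρ φ b)
    (hb' : TBasis ρ φ b') : ∃ U : PowerSeries k,
      Matrix.det b' = algebraMap (PowerSeries k) (Ks k) U * Matrix.det b := by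
  have h1 : ∀ i, ∃ u : Fin d → PowerSeries k,
      ∀ a, b' i a = ∑ j, algebraMap (PowerSeries k) (Ks k) (u j) * b j a := fun i =>
    (hb.2 (b' i) (hb'.1 i)).exists
  choose u hu using h1
  refine ⟨Matrix.det (Matrix.of u), ?_⟩
  rw [RingHom.map_det, ← Matrix.det_mul]
  congr 1
  ext i a
  rw [hu i a, Matrix.mul_apply]
  rfl

/-- WG-U3: the valuation of the determinant does not depend on the basis -/
theorem vval_unique {φ : Torsor k G} {a a' : ℚ} (h : VVal ρ φ a) (h' : VVal ρ φ a') : a = a' := by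
  obtain ⟨b, M, l, w, hb, hM, rfl, hd⟩ := h
  obtain ⟨b', M', l', w', hb', hM', rfl, hd'⟩ := h'
  obtain ⟨U, hU⟩ := U3_det hb hb'
  obtain ⟨U', hU'⟩ := U3_det hb' hb
  have hne : Matrix.det b ≠ 0 := by
    intro h0
    rw [h0, zero_pow hM.ne'] at hd
    have h1 := U3_inj (hd.symm.trans (map_zero _).symm)
    exact (mul_ne_zero w.ne_zero (pow_ne_zero _ PowerSeries.X_ne_zero)) h1
  have hUU : U' * U = 1 := by
    apply U3_inj
    rw [map_mul, map_one]
    apply mul_right_cancel₀ hne
    rw [mul_assoc, ← hU, ← hU', one_mul]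
  have hunit : IsUnit U := IsUnit.of_mul_eq_one U' (by rw [mul_comm]; exact hUU)
  have e : ((w' : PowerSeries k) * PowerSeries.X ^ l') ^ M =
      U ^ (M * M') * ((w : PowerSeries k) * PowerSeries.X ^ l) ^ M' := by
    apply U3_inj
    rw [map_pow, ← hd', map_mul, map_pow, map_pow, ← hd, hU]
    ring
  have e2 := congrArg PowerSeries.order e
  have ho : ∀ (y : PowerSeries k) (j : ℕ), IsUnit y →
      (y * PowerSeries.X ^ j).order = (j : ℕ∞) := by
    intro y j hy
    rw [PowerSeries.order_mul, PowerSeries.order_zero_of_unit hy, PowerSeries.order_X_pow,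
      zero_add]
  rw [PowerSeries.order_mul, PowerSeries.order_pow, PowerSeries.order_pow, PowerSeries.order_pow,
    PowerSeries.order_zero_of_unit hunit, smul_zero, zero_add, ho _ _ w'.isUnit,
    ho _ _ w.isUnit] at e2
  have e3 : M * l' = M' * l := by
    have : ((M * l' : ℕ) : ℕ∞) = ((M' * l : ℕ) : ℕ∞) := by
      push_cast
      simpa using e2
    exact_mod_cast this
  have hM0 : (M : ℚ) ≠ 0 := Nat.cast_ne_zero.2 hM.ne'
  have hM0' : (M' : ℚ) ≠ 0 := Nat.cast_ne_zero.2 hM'.ne'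
  rw [div_eq_div_iff hM0 hM0']
  have e4 : ((M * l' : ℕ) : ℚ) = ((M' * l : ℕ) : ℚ) := by rw [e3]
  push_cast at e4
  linarith

theorem vval_iff (hN : ¬ p ∣ N) (hζ : IsPrimitiveRoot ζ N) (hA : Adm p N ζ γ g s θ κ)
    (hv : Val N κ c) {φ : Torsor k G} (hφ : IsType N (ζ : k) γ g c φ) (hq : GoodQ p s θ q)
    (J : JD p N s ζ q (ρ g) (ρ γ) m E r) (a : ℚ) :
    VVal ρ φ a ↔ a = (vc N c r : ℚ) / N := by
  have h1 : VVal ρ φ ((vc N c r : ℚ) / N) := by
    obtain ⟨b, T, x, hb, hT, hx, hd⟩ := exists_tbasis hN hζ hA hv hφ hq J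
    refine ⟨b, N, vc N c r, Units.map (PowerSeries.C (R := k)).toMonoidHom
      (Units.mk0 (x ^ N) (pow_ne_zero N hx)), hb, Nat.pos_of_ne_zero (NeZero.ne N), rfl, ?_⟩
    have h2 : algebraMap (PowerSeries k) (Ks k) (PowerSeries.C (x ^ N)) = cK k (x ^ N) := by
      rw [IsScalarTower.algebraMap_apply (PowerSeries k) (LaurentSeries k) (Ks k), cK_eq]
      congr 1
      exact HahnSeries.ofPowerSeries_C _
    have h3 : algebraMap (PowerSeries k) (Ks k) PowerSeries.X = tK k := by
      rw [IsScalarTower.algebraMap_apply (PowerSeries k) (LaurentSeries k) (Ks k)]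
      unfold tK
      congr 1
      exact HahnSeries.ofPowerSeries_X
    rw [map_mul, map_pow, h3, hd, mul_pow, ← pow_mul, mul_comm (vc N c r) N, pow_mul, hT]
    congr 1
    rw [← map_pow]
    exact h2.symm
  constructor
  · intro h
    exact vval_unique h h1
  · rintro rfl
    exact h1

end

end Pool.Agent.WG
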