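import Pool.Agent.WG.Tun

/-! # Invariance under isomorphisms, the fixed space (piece WG-U4) -/

namespace Pool.Agent.WG

open Polynomial Pool.Agent.WD Pool.Agent.WC

noncomputable section

universe u v

variable {p : ℕ} [Fact p.Prime] {k : Type u} [Field k] [IsAlgClosed k] [CharP k p] {s : ℕ}
  {G : Type v} [Group G] {N κ θ : ℕ} [NeZero N] {ζ : kˣ} {γ g : G} {d n : ℕ}
  {ρ : G →* Matrix (Fin d) (Fin d) k} {c : Par p s k} {q : k[X]} {m : Fin n → ℕ}
  {E : Module.Basis (Ix n m) k (Fin d → k)} {r : Ix n m → ℕ}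

/-- the action of a matrix over `k` on the vectors over `K^sep` -/
private def U4_act (M : Matrix (Fin d) (Fin d) k) (x : Fin d → Ks k) : Fin d → Ks k :=
  (M.map (cK k)).mulVec x

omit [Fact p.Prime] [IsAlgClosed k] [CharP k p] in
private theorem U4_act_apply (M : Matrix (Fin d) (Fin d) k) (x : Fin d → Ks k) (a : Fin d) :
    U4_act M x a = ∑ b, cK k (M a b) * x b := rfl

private theorem U4_act_mul (M M' : Matrix (Fin d) (Fin d) k) (x : Fin d → Ks k) :
    U4_act (M * M') x = U4_act M (U4_act M' x) := by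
  unfold U4_act
  rw [Matrix.mulVec_mulVec]
  congr 1
  exact Matrix.map_mul

private theorem U4_act_one (x : Fin d → Ks k) : U4_act (1 : Matrix (Fin d) (Fin d) k) x = x := by
  funext a
  rw [U4_act_apply, Finset.sum_eq_single a]
  · rw [Matrix.one_apply_eq, map_one, one_mul]
  · intro b _ hb
    rw [Matrix.one_apply_ne hb.symm, map_zero, zero_mul]
  · intro ha
    exact absurd (Finset.mem_univ a) ha

private theorem U4_sigma (M : Matrix (Fin d) (Fin d) k) (x : Fin d → Ks k) (σ : GalK k)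
    (a : Fin d) : σ (U4_act M x a) = U4_act M (fun b => σ (x b)) a := by
  rw [U4_act_apply, U4_act_apply, map_sum]
  refine Finset.sum_congr rfl fun b _ => ?_
  rw [map_mul, sigma_cK]

private theorem U4_cK (a : k) : cK k a = algebraMap (PowerSeries k) (Ks k) (PowerSeries.C a) := by
  rw [cK_eq, IsScalarTower.algebraMap_apply (PowerSeries k) (LaurentSeries k) (Ks k)]
  congr 1
  exact (HahnSeries.ofPowerSeries_C a).symm

private theorem U4_tuned {φ ψ : Torsor k G} {h : G} (hi : ∀ σ, ψ.hom σ = h * φ.hom σ * h⁻¹)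
    {x : Fin d → Ks k} (hx : Tuned ρ φ x) : Tuned ρ ψ (U4_act (ρ h) x) := by
  refine ⟨fun a => ?_, fun σ a => ?_⟩
  · rw [U4_act_apply]
    refine IsIntegral.sum _ fun b _ => ?_
    rw [U4_cK]
    exact isIntegral_algebraMap.mul (hx.1 b)
  · rw [U4_sigma]
    have h1 : (fun b => σ (x b)) = U4_act (ρ ((φ.hom σ)⁻¹)) x := by
      funext b
      exact hx.2 σ b
    rw [h1, ← U4_act_mul, ← map_mul]
    change _ = U4_act (ρ ((ψ.hom σ)⁻¹)) (U4_act (ρ h) x) a
    have h2 : h * (φ.hom σ)⁻¹ = (h * φ.hom σ * h⁻¹)⁻¹ * h := by group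
    rw [← U4_act_mul, ← map_mul, hi σ, h2]

private theorem U4_iso_symm {φ ψ : Torsor k G} {h : G} (hi : ∀ σ, ψ.hom σ = h * φ.hom σ * h⁻¹)
    (σ : GalK k) : φ.hom σ = h⁻¹ * ψ.hom σ * h⁻¹⁻¹ := by
  rw [hi σ]
  group

private theorem U4_act_sum {ι : Type*} [Fintype ι] (M : Matrix (Fin d) (Fin d) k)
    (u : ι → Ks k) (b : ι → Fin d → Ks k) (a : Fin d) :
    U4_act M (fun a => ∑ i, u i * b i a) a = ∑ i, u i * U4_act M (b i) a := by
  have h1 : ∀ c, cK k (M a c) * ∑ i, u i * b i c = ∑ i, cK k (M a c) * (u i * b i c) :=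
    fun c => Finset.mul_sum _ _ _
  have h2 : ∀ i, u i * ∑ c, cK k (M a c) * b i c = ∑ c, u i * (cK k (M a c) * b i c) :=
    fun i => Finset.mul_sum _ _ _
  change ∑ c, cK k (M a c) * ∑ i, u i * b i c = ∑ i, u i * ∑ c, cK k (M a c) * b i c
  rw [Finset.sum_congr rfl fun c _ => h1 c, Finset.sum_congr rfl fun i _ => h2 i]
  refine Finset.sum_comm.trans ?_
  refine Finset.sum_congr rfl fun i _ => Finset.sum_congr rfl fun c _ => ?_
  ring

/-- WG-U4: invariance under isomorphisms: `x ↦ ρ(h) x` -/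
theorem VVal.iso {φ ψ : Torsor k G} (hi : Iso φ ψ) {a : ℚ} (h : VVal ρ φ a) : VVal ρ ψ a := by
  obtain ⟨x, hx⟩ := hi
  obtain ⟨b, M, l, w, ⟨hb1, hb2⟩, hM, ha, hdet⟩ := h
  have hinv1 : ∀ y : Fin d → Ks k, U4_act (ρ x) (U4_act (ρ x⁻¹) y) = y := by
    intro y
    rw [← U4_act_mul, ← map_mul, mul_inv_cancel, map_one, U4_act_one]
  have hinv2 : ∀ y : Fin d → Ks k, U4_act (ρ x⁻¹) (U4_act (ρ x) y) = y := by
    intro y
    rw [← U4_act_mul, ← map_mul, inv_mul_cancel, map_one, U4_act_one]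
  have hdx : IsUnit (ρ x).det := by
    have h1 : (ρ x).det * (ρ x⁻¹).det = 1 := by
      rw [← Matrix.det_mul, ← map_mul, mul_inv_cancel, map_one, Matrix.det_one]
    exact IsUnit.of_mul_eq_one _ h1
  obtain ⟨u, hu⟩ := hdx
  let w' : (PowerSeries k)ˣ := w * (Units.map (PowerSeries.C : k →+* PowerSeries k).toMonoidHom u) ^ M
  refine ⟨fun i => U4_act (ρ x) (b i), M, l, w', ⟨fun i => U4_tuned hx (hb1 i), ?_⟩, hM, ha, ?_⟩
  · intro y hy
    have h1 : Tuned ρ φ (U4_act (ρ x⁻¹) y) := U4_tuned (U4_iso_symm hx) hy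
    have key : ∀ v : Fin d → PowerSeries k,
        (∀ a, y a = ∑ i, algebraMap (PowerSeries k) (Ks k) (v i) * U4_act (ρ x) (b i) a) ↔
        (∀ a, U4_act (ρ x⁻¹) y a = ∑ i, algebraMap (PowerSeries k) (Ks k) (v i) * b i a) := by
      intro v
      constructor
      · intro h2 a
        have h3 : y = U4_act (ρ x) (fun a => ∑ i, algebraMap (PowerSeries k) (Ks k) (v i) *
            b i a) := by
          funext a
          rw [h2 a, U4_act_sum]
        conv_lhs => rw [h3]
        rw [hinv2]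
      · intro h2 a
        have h3 : U4_act (ρ x⁻¹) y = fun a => ∑ i, algebraMap (PowerSeries k) (Ks k) (v i) *
            b i a := funext h2
        rw [← U4_act_sum, ← h3, hinv1]
    obtain ⟨v, hv, huniq⟩ := hb2 _ h1
    exact ⟨v, (key v).2 hv, fun v' hv' => huniq v' ((key v').1 hv')⟩
  · have h1 : Matrix.det (fun i => U4_act (ρ x) (b i)) =
        Matrix.det b * cK k (ρ x).det := by
      have h2 : (Matrix.of fun i => U4_act (ρ x) (b i)) =
          (Matrix.of b) * ((ρ x).map (cK k)).transpose := by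
        ext i a
        rw [Matrix.mul_apply]
        change U4_act (ρ x) (b i) a = _
        rw [U4_act_apply]
        refine Finset.sum_congr rfl fun c _ => ?_
        rw [Matrix.transpose_apply, Matrix.map_apply, mul_comm]
        rfl
      have h3 := congrArg Matrix.det h2
      rw [Matrix.det_mul, Matrix.det_transpose] at h3
      have h4 : ((ρ x).map (cK k)).det = cK k (ρ x).det := (RingHom.map_det (cK k) (ρ x)).symm
      rw [h4] at h3
      exact h3
    rw [h1, mul_pow, hdet, ← hu, U4_cK, ← map_pow, ← map_mul]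
    congr 1
    change (w : PowerSeries k) * PowerSeries.X ^ l * PowerSeries.C (u : k) ^ M =
      ((w : PowerSeries k) * (PowerSeries.C (u : k)) ^ M) * PowerSeries.X ^ l
    ring

theorem finrank_FixG_iso {φ ψ : Torsor k G} (hi : Iso φ ψ) :
    Module.finrank k (FixG ρ φ) = Module.finrank k (FixG ρ ψ) := by
  obtain ⟨x, hx⟩ := hi
  have h1 : ρ x * ρ x⁻¹ = 1 := by rw [← map_mul, mul_inv_cancel, map_one]
  have h2 : ρ x⁻¹ * ρ x = 1 := by rw [← map_mul, inv_mul_cancel, map_one]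
  let e : (Fin d → k) ≃ₗ[k] (Fin d → k) :=
    LinearEquiv.ofLinearMap (Matrix.mulVecLin (ρ x)) (Matrix.mulVecLin (ρ x⁻¹))
      (by rw [← Matrix.mulVecLin_mul, h1, Matrix.mulVecLin_one])
      (by rw [← Matrix.mulVecLin_mul, h2, Matrix.mulVecLin_one])
  have h3 : FixG ρ ψ = (FixG ρ φ).map (e : (Fin d → k) →ₗ[k] (Fin d → k)) := by
    unfold FixG
    rw [Submodule.map_span]
    congr 1
    ext y
    simp only [Set.mem_ofPred_eq, Set.mem_image]
    constructor
    · intro hy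
      refine ⟨(ρ x⁻¹).mulVec y, fun σ => ?_, ?_⟩
      · have h4 := hy σ
        have h5 : φ.hom σ * x⁻¹ = x⁻¹ * ψ.hom σ := by
          rw [hx σ]
          group
        rw [Matrix.mulVec_mulVec, ← map_mul, h5, map_mul, ← Matrix.mulVec_mulVec, h4]
      · change (ρ x).mulVec ((ρ x⁻¹).mulVec y) = y
        rw [Matrix.mulVec_mulVec, h1, Matrix.one_mulVec]
    · rintro ⟨z, hz, rfl⟩ σ
      change (ρ (ψ.hom σ)).mulVec ((ρ x).mulVec z) = (ρ x).mulVec z
      have h5 : ψ.hom σ * x = x * φ.hom σ := by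
        rw [hx σ]
        group
      rw [Matrix.mulVec_mulVec, ← map_mul, h5, map_mul, ← Matrix.mulVec_mulVec, hz σ]
  rw [h3]
  exact (LinearEquiv.finrank_map_eq e (FixG ρ φ)).symm

/-- the fixed space -/
theorem finrank_FixG (hN : ¬ p ∣ N) (hζ : IsPrimitiveRoot ζ N) (hA : Adm p N ζ γ g s θ κ)
    (hv : Val N κ c) {φ : Torsor k G} (hφ : IsType N (ζ : k) γ g c φ) (hq : GoodQ p s θ q)
    (J : JD p N s ζ q (ρ g) (ρ γ) m E r) :
    Module.finrank k (FixG ρ φ) =
      (Finset.univ.filter fun b : Ix n m => (b.2 : ℕ) = 0 ∧ r b = 0).card := by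
  obtain ⟨T, z, hr, ht⟩ := (isType_iff hA c φ).1 hφ
  have hT : T ≠ 0 := by
    rintro rfl
    have h1 := hr.1
    rw [zero_pow (NeZero.ne N)] at h1
    exact tK_ne_zero h1.symm
  have hval : ∀ i l : ℕ, ∃ σ : GalK k, φ.hom σ = γ ^ i * g ^ l := by
    intro i l
    obtain ⟨σ, hσ⟩ := form_surj hN hζ hA hv hr i l
    refine ⟨σ, ?_⟩
    obtain ⟨i', l', hf, hφσ⟩ := ht σ
    obtain ⟨h1, h2⟩ := form_unique hζ hA.hθN hT hf hσ
    rw [hφσ]
    have h3 : γ ^ i' = γ ^ i := by
      have h4 : i' ≡ i [MOD orderOf γ] := h1.of_dvd (orderOf_dvd_of_pow_eq_one hA.hγ)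
      exact pow_eq_pow_iff_modEq.2 h4
    have h4 : g ^ l' = g ^ l := by
      refine pow_eq_pow_iff_modEq.2 ?_
      rw [hA.hg]
      exact h2
    rw [h3, h4]
  have h1 : FixG ρ φ = Submodule.span k {x : Fin d → k | (ρ g).mulVec x = x ∧
      (ρ γ).mulVec x = x} := by
    unfold FixG
    congr 1
    ext x
    simp only [Set.mem_ofPred_eq]
    constructor
    · intro hx
      obtain ⟨σ, hσ⟩ := hval 0 1
      obtain ⟨τ, hτ⟩ := hval 1 0
      rw [pow_zero, one_mul, pow_one] at hσ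
      rw [pow_zero, mul_one, pow_one] at hτ
      have h2 := hx σ
      have h3 := hx τ
      rw [hσ] at h2
      rw [hτ] at h3
      exact ⟨h2, h3⟩
    · rintro ⟨h2, h3⟩ σ
      obtain ⟨i, l, _, hφσ⟩ := ht σ
      have h4 : ∀ l : ℕ, (ρ g ^ l).mulVec x = x := by
        intro l
        induction l with
        | zero => rw [pow_zero, Matrix.one_mulVec]
        | succ l ih => rw [pow_succ, ← Matrix.mulVec_mulVec, h2, ih]
      have h5 : ∀ i : ℕ, (ρ γ ^ i).mulVec x = x := by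
        intro i
        induction i with
        | zero => rw [pow_zero, Matrix.one_mulVec]
        | succ i ih => rw [pow_succ, ← Matrix.mulVec_mulVec, h3, ih]
      rw [hφσ, map_mul, map_pow, map_pow, ← Matrix.mulVec_mulVec, h4, h5]
  rw [h1]
  refine J.finrank_fixed hζ hq ?_
  rw [← map_pow, ← hA.hg, pow_orderOf_eq_one, map_one]

end

end Pool.Agent.WG
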