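import Pool.Agent.WG.Fin2
import Pool.Agent.WG.ClsF
import Pool.Agent.WG.D6
import Pool.Agent.WG.U3
import Pool.Agent.WG.U4

/-! # Assembly: the data for the pairs `(γ, g)`, classes of the level sets -/

namespace Pool.Agent.WG

open Polynomial Filter Pool.Agent.WD Pool.Agent.WC

noncomputable section

universe u v

variable {p : ℕ} [Fact p.Prime] {k : Type u} [Field k] {G : Type v} [Group G] {d : ℕ}

/-- the data for one pair -/
structure Dat (p N : ℕ) [Fact p.Prime] (ζ : kˣ) (ρ : G →* Matrix (Fin d) (Fin d) k) (γ g : G) where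
  s : ℕ
  θ : ℕ
  κ : ℕ
  q : k[X]
  n : ℕ
  m : Fin n → ℕ
  E : Module.Basis (Ix n m) k (Fin d → k)
  r : Ix n m → ℕ
  hA : Adm p N ζ γ g s θ κ
  hq : GoodQ p s θ q
  J : JD p N s ζ q (ρ g) (ρ γ) m E r
  D : ND p N κ s (fun b : Ix n m => (b.2 : ℕ)) r

/-- the positions in the Jordan chains -/
abbrev Dat.pos {N : ℕ} {ζ : kˣ} {ρ : G →* Matrix (Fin d) (Fin d) k} {γ g : G}
    (D : Dat p N ζ ρ γ g) : Ix D.n D.m → ℕ := fun b => (b.2 : ℕ)

variable {N : ℕ} [NeZero N] {ζ : kˣ} {ρ : G →* Matrix (Fin d) (Fin d) k} {γ g : G}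

/-- the dual data -/
def Dat.dual [CharP k p] (D : Dat p N ζ ρ γ g) (hζ : IsPrimitiveRoot ζ N) :
    Dat p N ζ ρ γ⁻¹ g where
  s := D.s
  θ := D.θ ^ (N - 1)
  κ := dk N D.κ
  q := D.q
  n := D.n
  m := D.m
  E := D.E
  r := dr N D.r
  hA := D.hA.dual hζ.pow_eq_one
  hq := by
    refine D.hq.dual ?_ ?_
    · have h1 := D.hA.hθN
      have h2 : D.θ * D.θ ^ (N - 1) = D.θ ^ N := by
        rw [← pow_succ', Nat.sub_add_cancel (Nat.one_le_iff_ne_zero.mpr (NeZero.ne N))]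
      rw [h2]
      exact h1
    · have h1 := D.hA.hθk' hζ.pow_eq_one
      rw [Nat.cast_pow, ← pow_succ', Nat.sub_add_cancel (Nat.one_le_iff_ne_zero.mpr (NeZero.ne N))]
      exact h1
  J := by
    refine D.J.dual hζ.pow_eq_one ?_
    rw [← map_mul, inv_mul_cancel, map_one]
  D := D.D.dual

theorem exists_dat [CharP k p] [Finite G] (hN : ¬ p ∣ N) (hζ : IsPrimitiveRoot ζ N)
    (hρ : Function.Injective ρ) {x : G × G} (hx : AdmP p N x) :
    Nonempty (Dat p N ζ ρ x.1 x.2) := by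
  obtain ⟨s, θ, κ, -, hA⟩ := exists_Adm hN hζ hx
  have hθk := hA.hθk' hζ.pow_eq_one
  obtain ⟨q, hq⟩ := exists_goodQ (k := k) (p := p) (N := N) (s := s) (θ := θ) hN hA.hθp hA.hθN hθk
  have h1 : ρ x.2 ^ (p ^ s) = 1 := by
    rw [← map_pow, ← hA.hg, pow_orderOf_eq_one, map_one]
  have h2 : ρ x.1 ^ N = 1 := by
    rw [← map_pow, hA.hγ, map_one]
  have h3 : ρ x.2 * ρ x.1 = ρ x.1 * ρ x.2 ^ θ := by
    rw [← map_pow, ← map_mul, ← map_mul, ← hA.hθ]
    congr 1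
    group
  obtain ⟨n, m, E, r, J⟩ := exists_JD (p := p) hζ hq h1 h2 h3 hθk
  refine ⟨⟨s, θ, κ, q, n, m, E, r, hA, hq, J, ?_⟩⟩
  refine ⟨Nat.pos_of_ne_zero (NeZero.ne N), hN, hA.p_sub_one hζ, fun b => ?_, J.hr, ?_⟩
  · exact lt_of_lt_of_le b.2.2 (J.hm b.1)
  · rcases Nat.eq_zero_or_pos s with h | h
    · exact Or.inl h
    · right
      refine J.faith hq h1 h ?_
      intro h4
      rw [← map_pow, ← map_one ρ] at h4
      have h5 := hρ h4
      have h6 := orderOf_dvd_of_pow_eq_one h5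
      rw [hA.hg] at h6
      have h7 := Nat.le_of_dvd (pow_pos (Fact.out : p.Prime).pos _) h6
      have h8 : p ^ (s - 1) < p ^ s := Nat.pow_lt_pow_right (Fact.out : p.Prime).one_lt (by omega)
      omega

section Classes

variable [IsAlgClosed k] [CharP k p]

/-- the value of `v` -/
theorem Dat.vval (hN : ¬ p ∣ N) (hζ : IsPrimitiveRoot ζ N) (D : Dat p N ζ ρ γ g)
    {c : Par p D.s k} (hv : Val N D.κ c) {φ ψ : Torsor k G} (hψ : IsType N (ζ : k) γ g c ψ)
    (hi : Iso φ ψ) (a : ℚ) :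
    VVal ρ φ a ↔ a = (vGN p N D.s D.pos D.r (upc c) : ℚ) / N := by
  have h1 : VVal ρ φ a ↔ VVal ρ ψ a := ⟨fun h => h.iso hi, fun h => h.iso hi.symm⟩
  rw [h1, vval_iff hN hζ D.hA hv hψ D.hq D.J]
  rfl

/-- the codimension of the fixed space -/
theorem Dat.codim (hN : ¬ p ∣ N) (hζ : IsPrimitiveRoot ζ N) (D : Dat p N ζ ρ γ g)
    {c : Par p D.s k} (hv : Val N D.κ c) {φ ψ : Torsor k G} (hψ : IsType N (ζ : k) γ g c ψ)
    (hi : Iso φ ψ) :
    (d : ℚ) - Module.finrank k (FixG ρ φ) = cGN D.pos D.r := by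
  classical
  rw [finrank_FixG_iso hi, finrank_FixG hN hζ D.hA hv hψ D.hq D.J]
  have h1 := D.J.card
  have h2 : (Finset.univ.filter fun b : Ix D.n D.m => (b.2 : ℕ) = 0 ∧ D.r b = 0).card +
      cGN D.pos D.r = Fintype.card (Ix D.n D.m) := by
    unfold cGN
    rw [← Finset.card_univ]
    exact Finset.card_filter_add_card_filter_not _
  rw [h1] at h2
  have h3 : (((Finset.univ.filter fun b : Ix D.n D.m => (b.2 : ℕ) = 0 ∧ D.r b = 0).card : ℕ) : ℚ) +
      ((cGN D.pos D.r : ℕ) : ℚ) = d := by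
    exact_mod_cast h2
  linarith

/-- the value of `w` -/
theorem Dat.wval (hN : ¬ p ∣ N) (hζ : IsPrimitiveRoot ζ N) (D : Dat p N ζ ρ γ g)
    {c : Par p D.s k} (hv : Val N D.κ c) {φ ψ : Torsor k G} (hψ : IsType N (ζ : k) γ g c ψ)
    (hi : Iso φ ψ) (b : ℚ) :
    WVal ρ φ b ↔ b = (cGN D.pos D.r : ℚ) - (vGN p N D.s D.pos D.r (upc c) : ℚ) / N := by
  unfold WVal
  constructor
  · rintro ⟨a, h1, h2⟩
    rw [(D.vval hN hζ hv hψ hi a)] at h1
    rw [h2, D.codim hN hζ hv hψ hi, h1]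
  · intro h
    refine ⟨_, (D.vval hN hζ hv hψ hi _).mpr rfl, ?_⟩
    rw [h, D.codim hN hζ hv hψ hi]

variable [Finite G]

theorem classV (hG : ∀ P : Sylow p G, IsCyclic P) {e0 : ℕ}
    (hcard : Nat.card G = N * p ^ e0) (hN : ¬ p ∣ N) (hζ : IsPrimitiveRoot ζ N) {m : ℕ}
    {R : Fin m → G × G} (hR : Reps p N R) (D : ∀ i, Dat p N ζ ρ (R i).1 (R i).2)
    (e : Realization k) (a : ℚ) :
    HasClassG (p := p) e {φ | VVal ρ φ a}
      (∑ i, PQ N (PGp p N (D i).κ (D i).s (D i).pos (D i).r) a) := by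
  have hN0 : 0 < N := Nat.pos_of_ne_zero (NeZero.ne N)
  have hN' : (N : ℚ) ≠ 0 := by exact_mod_cast hN0.ne'
  refine hasClassG_of hG hcard hN hζ hR (fun i => (D i).hA) e
    (fun i => {c | Val N (D i).κ c ∧
      ((vGN p N (D i).s (D i).pos (D i).r (upc c) : ℕ) : ℚ) = a * N})
    (fun i c hc => hc.1) (fun i x c hc => ⟨val_scl x hc.1, by rw [upc_scl]; exact hc.2⟩)
    _ (fun i => ?_) _ ?_
  · unfold PQ
    split_ifs with h
    · have h1 := hasClass_PG e (D i).D ⌊a * N⌋₊ (k := k)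
      have h2 : {c : Par p (D i).s k | Val N (D i).κ c ∧
          ((vGN p N (D i).s (D i).pos (D i).r (upc c) : ℕ) : ℚ) = a * N} =
          {c | Val N (D i).κ c ∧ vGN p N (D i).s (D i).pos (D i).r (upc c) = ⌊a * N⌋₊} := by
        ext c
        simp only [Set.mem_ofPred_eq]
        rw [← h]
        simp only [Nat.cast_inj]
        rw [h]
      rw [h2]
      exact h1
    · have h2 : {c : Par p (D i).s k | Val N (D i).κ c ∧
          ((vGN p N (D i).s (D i).pos (D i).r (upc c) : ℕ) : ℚ) = a * N} = ∅ := by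
        ext c
        simp only [Set.mem_ofPred_eq, Set.mem_empty_iff_false, iff_false, not_and]
        intro _ h3
        apply h
        rw [← h3, Nat.floor_natCast]
      rw [h2]
      exact hasClass_empty e
  · intro i c φ ψ hv hψ hi
    simp only [Set.mem_ofPred_eq]
    rw [(D i).vval hN hζ hv hψ hi]
    constructor
    · intro h
      refine ⟨hv, ?_⟩
      rw [h, div_mul_cancel₀ _ hN']
    · rintro ⟨-, h⟩
      rw [h, mul_div_cancel_right₀ _ hN']

theorem classW (hG : ∀ P : Sylow p G, IsCyclic P) {e0 : ℕ}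
    (hcard : Nat.card G = N * p ^ e0) (hN : ¬ p ∣ N) (hζ : IsPrimitiveRoot ζ N) {m : ℕ}
    {R : Fin m → G × G} (hR : Reps p N R) (D : ∀ i, Dat p N ζ ρ (R i).1 (R i).2)
    (e : Realization k) (b : ℚ) :
    HasClassG (p := p) e {φ | WVal ρ φ b}
      (∑ i, QQ N (QGp p N (D i).κ (D i).s (D i).pos (D i).r) b) := by
  have hN0 : 0 < N := Nat.pos_of_ne_zero (NeZero.ne N)
  have hN' : (N : ℚ) ≠ 0 := by exact_mod_cast hN0.ne'
  refine hasClassG_of hG hcard hN hζ hR (fun i => (D i).hA) e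
    (fun i => {c | Val N (D i).κ c ∧
      ((((N * cGN (D i).pos (D i).r : ℕ) : ℤ) -
        (vGN p N (D i).s (D i).pos (D i).r (upc c) : ℤ) : ℤ) : ℚ) = b * N})
    (fun i c hc => hc.1) (fun i x c hc => ⟨val_scl x hc.1, by rw [upc_scl]; exact hc.2⟩)
    _ (fun i => ?_) _ ?_
  · unfold QQ
    split_ifs with h
    · have h1 := hasClass_QG e (D i).D ⌊b * N⌋ (k := k)
      have h2 : {c : Par p (D i).s k | Val N (D i).κ c ∧
          ((((N * cGN (D i).pos (D i).r : ℕ) : ℤ) -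
            (vGN p N (D i).s (D i).pos (D i).r (upc c) : ℤ) : ℤ) : ℚ) = b * N} =
          {c | Val N (D i).κ c ∧ ((N * cGN (D i).pos (D i).r : ℕ) : ℤ) -
            (vGN p N (D i).s (D i).pos (D i).r (upc c) : ℤ) = ⌊b * N⌋} := by
        ext c
        simp only [Set.mem_ofPred_eq]
        rw [← h]
        simp only [Int.cast_inj]
        rw [h]
      rw [h2]
      exact h1
    · have h2 : {c : Par p (D i).s k | Val N (D i).κ c ∧
          ((((N * cGN (D i).pos (D i).r : ℕ) : ℤ) -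
            (vGN p N (D i).s (D i).pos (D i).r (upc c) : ℤ) : ℤ) : ℚ) = b * N} = ∅ := by
        ext c
        simp only [Set.mem_ofPred_eq, Set.mem_empty_iff_false, iff_false, not_and]
        intro _ h3
        apply h
        rw [← h3, Int.floor_intCast]
      rw [h2]
      exact hasClass_empty e
  · intro i c φ ψ hv hψ hi
    simp only [Set.mem_ofPred_eq]
    rw [(D i).wval hN hζ hv hψ hi]
    push_cast
    constructor
    · intro h
      refine ⟨hv, ?_⟩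
      rw [h, sub_mul, div_mul_cancel₀ _ hN', mul_comm (N : ℚ)]
    · rintro ⟨-, h⟩
      have h3 : b = (b * N) / N := by rw [mul_div_cancel_right₀ _ hN']
      rw [h3, ← h, sub_div, mul_div_cancel_left₀ _ hN']

end Classes

/-- the duality of the sums -/
theorem dual_sums {ι : Type} [Fintype ι] {N e0 n d : ℕ} (hp : p.Prime) (hN : 0 < N)
    (hn : n = N * p ^ e0) {β : ι → Type} [∀ i, Fintype (β i)] (κ s : ι → ℕ)
    (pos r : ∀ i, β i → ℕ) (D : ∀ i, ND p N (κ i) (s i) (pos i) (r i))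
    (h : ConvergesG n fun a => ∑ i, PQ N (PGp p N (κ i) (s i) (pos i) (r i)) a) :
    DualSumsG n d (fun a => ∑ i, PQ N (PGp p N (κ i) (s i) (pos i) (r i)) a)
      (fun b => ∑ i, QQ N (QGp p N (dk N (κ i)) (s i) (pos i) (dr N (r i))) b) := by
  subst hn
  have hm : 0 < p ^ e0 := pow_pos hp.pos _
  have h1 : ∀ i, ∃ F F' : ℝ → ℝ, Dual F F' ∧ ∀ y : ℝ, 1 < y →
      HasSum (fun a : ℕ => aeval (y ^ N) (PGp p N (κ i) (s i) (pos i) (r i) a) *
        y ^ (-(2 * (a : ℤ)))) (F y) ∧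
      HasSum (fun b : ℤ => aeval (y ^ N) (QGp p N (dk N (κ i)) (s i) (pos i) (dr N (r i)) b) *
        y ^ (2 * b)) (F' y) := fun i =>
    comp_dual hp (D i) (conv_comp hN hm (fun i => PGp p N (κ i) (s i) (pos i) (r i))
      (fun i a => PGp_lead a) h i)
  choose F F' hF hs using h1
  have h2 : Dual (fun S => ∑ i, F i (S ^ p ^ e0)) (fun S => ∑ i, F' i (S ^ p ^ e0)) :=
    Dual.sum Finset.univ (fun i S => F i (S ^ p ^ e0)) (fun i S => F' i (S ^ p ^ e0))
      (fun i _ => Pool.Agent.WG.Dual.comp_pow (hF i) hm)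
  have h3 : Dual (fun S => S ^ (2 * (N * p ^ e0) * d : ℤ) * ∑ i, F i (S ^ p ^ e0))
      (fun S => S ^ (-(2 * (N * p ^ e0) * d : ℤ)) * ∑ i, F' i (S ^ p ^ e0)) :=
    (Dual.zpow _).mul h2
  obtain ⟨A, B, hB, hAB⟩ := h3
  refine ⟨A, B, hB, fun S hS => ?_⟩
  have hS0 : (0 : ℝ) < S := by linarith
  have hy : 1 < S ^ p ^ e0 := one_lt_pow₀ hS hm.ne'
  obtain ⟨hA1, hA2⟩ := hAB S hS
  have hz : (S : ℝ) ^ (2 * (N * p ^ e0) * d) = S ^ (2 * (N * p ^ e0) * d : ℤ) := by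
    rw [← zpow_natCast]
    push_cast
    rfl
  constructor
  · rw [← hA1]
    beta_reduce
    rw [← hz, Finset.mul_sum]
    have h4 := hasSum_sum (s := Finset.univ) fun i _ =>
      hasSum_rat (d := d) hN (PGp p N (κ i) (s i) (pos i) (r i)) hS ((hs i _ hy).1)
    have e1 : (fun a : ℚ => aeval (S ^ (N * p ^ e0))
        (∑ i, PQ N (PGp p N (κ i) (s i) (pos i) (r i)) a) *
        (S ^ (N * p ^ e0)) ^ (2 * ((d : ℝ) - (a : ℝ)))) = fun a : ℚ => ∑ i,
        aeval (S ^ (N * p ^ e0)) (PQ N (PGp p N (κ i) (s i) (pos i) (r i)) a) *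
        (S ^ (N * p ^ e0)) ^ (2 * ((d : ℝ) - (a : ℝ))) := by
      funext a
      rw [map_sum, Finset.sum_mul]
    rw [e1]
    exact h4
  · rw [← hA2]
    beta_reduce
    rw [hz, ← mul_assoc, ← zpow_add₀ hS0.ne', add_neg_cancel, zpow_zero, one_mul]
    have h4 := hasSum_sum (s := Finset.univ) fun i _ =>
      hasSum_ratZ hN (QGp p N (dk N (κ i)) (s i) (pos i) (dr N (r i))) hS ((hs i _ hy).2)
    have e1 : (fun b : ℚ => aeval (S ^ (N * p ^ e0))
        (∑ i, QQ N (QGp p N (dk N (κ i)) (s i) (pos i) (dr N (r i))) b) *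
        (S ^ (N * p ^ e0)) ^ (2 * (b : ℝ))) = fun b : ℚ => ∑ i,
        aeval (S ^ (N * p ^ e0)) (QQ N (QGp p N (dk N (κ i)) (s i) (pos i) (dr N (r i))) b) *
        (S ^ (N * p ^ e0)) ^ (2 * (b : ℝ)) := by
      funext a
      rw [map_sum, Finset.sum_mul]
    rw [e1]
    exact h4

theorem finalG (p : ℕ) [Fact p.Prime] (k : Type u) [Field k] [IsAlgClosed k] [CharP k p]
    (G : Type v) [Group G] [Finite G] (hG : ∀ P : Sylow p G, IsCyclic P) {d : ℕ}
    (ρ : G →* Matrix (Fin d) (Fin d) k) (hρ : Function.Injective ρ) (e : Realization k) :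
    (∀ φ : Torsor k G, ∃! a : ℚ, VVal ρ φ a) ∧
    ∃ P Q : ℚ → ℤ[X], (∀ a, HasClassG (p := p) e {φ | VVal ρ φ a} (P a)) ∧
      (∀ b, HasClassG (p := p) e {φ | WVal ρ φ b} (Q b)) ∧
      (ConvergesG (Nat.card G) P → DualSumsG (Nat.card G) d P Q) := by
  have hp : p.Prime := Fact.out
  obtain ⟨e0, N, hN, hcard⟩ := Nat.exists_eq_pow_mul_and_not_dvd
    (n := Nat.card G) Nat.card_pos.ne' p hp.ne_one
  rw [mul_comm] at hcard
  have hN0 : N ≠ 0 := by
    rintro rfl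
    exact hN (dvd_zero p)
  have : NeZero N := ⟨hN0⟩
  have : NeZero (N : k) := ⟨by
    intro h
    exact hN ((CharP.cast_eq_zero_iff k p N).mp h)⟩
  obtain ⟨ζ0, hζ0⟩ := HasEnoughRootsOfUnity.exists_primitiveRoot k N
  obtain ⟨ζ, rfl⟩ := hζ0.isUnit hN0
  have hζ : IsPrimitiveRoot ζ N := IsPrimitiveRoot.coe_units_iff.mp hζ0
  obtain ⟨m, R, hR⟩ := exists_reps (G := G) (p := p) (N := N)
  have hD : ∀ i, Nonempty (Dat p N ζ ρ (R i).1 (R i).2) := fun i => exists_dat hN hζ hρ (hR.1 i)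
  have D := fun i => (hD i).some
  refine ⟨fun φ => ?_, ?_⟩
  · obtain ⟨i, c, ψ, hv, hψ, hi⟩ := classify hG hcard hN hζ hR (fun i => (D i).hA) φ
    exact ⟨_, ((D i).vval hN hζ hv hψ hi _).mpr rfl, fun a ha =>
      ((D i).vval hN hζ hv hψ hi a).mp ha⟩
  · refine ⟨_, _, fun a => classV hG hcard hN hζ hR D e a, fun b =>
      classW hG hcard hN hζ hR.inv (fun i => (D i).dual hζ) e b, ?_⟩
    intro h
    exact dual_sums hp (Nat.pos_of_ne_zero hN0) hcard (fun i => (D i).κ) (fun i => (D i).s)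
      (fun i => (D i).pos) (fun i => (D i).r) (fun i => (D i).D) h

end

end Pool.Agent.WG
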