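import Pool.Agent.WD.A1

/-!
# MP_827cb6_ag, project WG : substitutions in Laurent series (basic definitions)

`subN N : x(t) ↦ x(T^N)` and `rot ζ : x(T) ↦ x(ζ T)` on `LaurentSeries k`, and the extension of
`rot ζ` to `k((T^ℚ))` given by a character of `ℚ`.
-/

namespace Pool.Agent.WG

open Pool.Agent.WD

noncomputable section

universe u

variable (k : Type u) [Field k]

/-- `x(t) ↦ x(T^N)` -/
def subN (N : ℕ) [NeZero N] : LaurentSeries k →+* LaurentSeries k :=
  HahnSeries.embDomainRingHom (AddMonoidHom.mulLeft (N : ℤ))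
    (fun a b h => mul_left_cancel₀ (Nat.cast_ne_zero.mpr (NeZero.ne N)) h)
    (fun a b => mul_le_mul_iff_of_pos_left
      (Int.natCast_pos.mpr (Nat.pos_of_ne_zero (NeZero.ne N))))

variable {k}

theorem subN_coeff_mul (N : ℕ) [NeZero N] (x : LaurentSeries k) (j : ℤ) :
    (subN k N x).coeff ((N : ℤ) * j) = x.coeff j := by
  change (HahnSeries.embDomain _ x).coeff _ = _
  exact HahnSeries.embDomain_coeff (f := ⟨⟨AddMonoidHom.mulLeft (N : ℤ),
    fun a b h => mul_left_cancel₀ (Nat.cast_ne_zero.mpr (NeZero.ne N)) h⟩,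
    mul_le_mul_iff_of_pos_left (Int.natCast_pos.mpr (Nat.pos_of_ne_zero (NeZero.ne N)))⟩)
    (a := j)

theorem subN_coeff_not (N : ℕ) [NeZero N] (x : LaurentSeries k) (j : ℤ) (h : ¬ (N : ℤ) ∣ j) :
    (subN k N x).coeff j = 0 := by
  change (HahnSeries.embDomain _ x).coeff _ = _
  apply HahnSeries.embDomain_of_notMem_range
  rintro ⟨i, hi⟩
  exact h ⟨i, hi.symm⟩

/-- multiplication of the coefficient at `q` by `χ(q)` -/
def hmul {Γ : Type*} [AddCommMonoid Γ] [LinearOrder Γ] [IsOrderedCancelAddMonoid Γ]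
    (χ : Multiplicative Γ →* k) (x : HahnSeries Γ k) : HahnSeries Γ k where
  coeff q := χ (Multiplicative.ofAdd q) * x.coeff q
  isPWO_support' := x.isPWO_support.mono fun q hq h => hq (by
    simp only [h, mul_zero])

/-- the same as a ring homomorphism -/
def hmulHom {Γ : Type*} [AddCommMonoid Γ] [LinearOrder Γ] [IsOrderedCancelAddMonoid Γ]
    (χ : Multiplicative Γ →* k) : HahnSeries Γ k →+* HahnSeries Γ k where
  toFun := hmul χ
  map_zero' := by
    ext q
    change χ _ * (0 : HahnSeries Γ k).coeff q = _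
    rw [HahnSeries.coeff_zero, mul_zero]
  map_one' := by
    ext q
    change χ _ * (1 : HahnSeries Γ k).coeff q = _
    rw [HahnSeries.coeff_one]
    split_ifs with h
    · rw [h, ofAdd_zero, map_one, mul_one]
    · rw [mul_zero]
  map_add' x y := by
    ext q
    change χ _ * (x + y).coeff q = χ _ * x.coeff q + χ _ * y.coeff q
    rw [HahnSeries.coeff_add, mul_add]
  map_mul' x y := by
    ext q
    change χ _ * (x * y).coeff q = _
    rw [HahnSeries.coeff_mul, HahnSeries.coeff_mul, Finset.mul_sum]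
    refine Eq.symm ?_
    have hterm : ∀ ij : Γ × Γ, ij.1 + ij.2 = q → (hmul χ x).coeff ij.1 * (hmul χ y).coeff ij.2 =
        χ (Multiplicative.ofAdd q) * (x.coeff ij.1 * y.coeff ij.2) := by
      intro ij hij
      change χ _ * x.coeff ij.1 * (χ _ * y.coeff ij.2) = _
      rw [← hij, ofAdd_add, map_mul]
      ring
    have hstep : ∀ ij ∈ Finset.antidiagonal (hmul χ x).isPWO_support (hmul χ y).isPWO_support q,
        (hmul χ x).coeff ij.1 * (hmul χ y).coeff ij.2 =
        χ (Multiplicative.ofAdd q) * (x.coeff ij.1 * y.coeff ij.2) := by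
      intro ij hij
      rw [Finset.mem_antidiagonal] at hij
      exact hterm ij hij.2.2
    rw [Finset.sum_congr rfl hstep]
    refine Finset.sum_subset ?_ ?_
    · intro ij hij
      rw [Finset.mem_antidiagonal] at hij ⊢
      refine ⟨?_, ?_, hij.2.2⟩
      · intro h0
        apply hij.1
        change χ _ * x.coeff ij.1 = 0
        rw [h0, mul_zero]
      · intro h0
        apply hij.2.1
        change χ _ * y.coeff ij.2 = 0
        rw [h0, mul_zero]
    · intro ij hij hnot
      rw [Finset.mem_antidiagonal] at hij hnot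
      rw [← hterm ij hij.2.2]
      by_cases h1 : (hmul χ x).coeff ij.1 = 0
      · rw [h1, zero_mul]
      · by_cases h2 : (hmul χ y).coeff ij.2 = 0
        · rw [h2, mul_zero]
        · exact absurd ⟨h1, h2, hij.2.2⟩ hnot

/-- the character `j ↦ ζ^j` of `ℤ` -/
def zchar (ζ : kˣ) : Multiplicative ℤ →* k where
  toFun j := ((ζ ^ (Multiplicative.toAdd j) : kˣ) : k)
  map_one' := by simp
  map_mul' a b := by
    rw [toAdd_mul, zpow_add, Units.val_mul]

/-- `x(T) ↦ x(ζ T)` -/
def rot (ζ : kˣ) : LaurentSeries k →+* LaurentSeries k := hmulHom (zchar ζ)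

theorem rot_coeff (ζ : kˣ) (x : LaurentSeries k) (j : ℤ) :
    (rot ζ x).coeff j = ((ζ ^ j : kˣ) : k) * x.coeff j := rfl

theorem rot_single (ζ : kˣ) (j : ℤ) (a : k) :
    rot ζ (HahnSeries.single j a) = HahnSeries.single j (((ζ ^ j : kˣ) : k) * a) := by
  ext q
  rw [rot_coeff, HahnSeries.coeff_single, HahnSeries.coeff_single]
  split_ifs with h
  · rw [h]
  · rw [mul_zero]

theorem rot_rot (ζ ζ' : kˣ) (x : LaurentSeries k) : rot ζ (rot ζ' x) = rot (ζ * ζ') x := by
  ext q
  rw [rot_coeff, rot_coeff, rot_coeff, mul_zpow, Units.val_mul, mul_assoc]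

theorem rot_one (x : LaurentSeries k) : rot 1 x = x := by
  ext q
  rw [rot_coeff, one_zpow, Units.val_one, one_mul]

theorem rot_subN (N : ℕ) [NeZero N] (ζ : kˣ) (hζ : ζ ^ N = 1) (x : LaurentSeries k) :
    rot ζ (subN k N x) = subN k N x := by
  ext q
  rw [rot_coeff]
  by_cases h : (N : ℤ) ∣ q
  · obtain ⟨j, rfl⟩ := h
    rw [zpow_mul, zpow_natCast, hζ, one_zpow, Units.val_one, one_mul]
  · rw [subN_coeff_not N x q h, mul_zero]

theorem subN_single (N : ℕ) [NeZero N] (j : ℤ) (a : k) :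
    subN k N (HahnSeries.single j a) = HahnSeries.single ((N : ℤ) * j) a := by
  have hN : (N : ℤ) ≠ 0 := Nat.cast_ne_zero.mpr (NeZero.ne N)
  ext q
  by_cases h : (N : ℤ) ∣ q
  · obtain ⟨i, rfl⟩ := h
    rw [subN_coeff_mul, HahnSeries.coeff_single, HahnSeries.coeff_single]
    by_cases hij : i = j
    · rw [if_pos hij, if_pos (by rw [hij])]
    · rw [if_neg hij, if_neg (fun h => hij (mul_left_cancel₀ hN h))]
  · rw [subN_coeff_not N _ q h, HahnSeries.coeff_single_of_ne]
    rintro rfl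
    exact h ⟨j, rfl⟩

theorem subN_injective (N : ℕ) [NeZero N] : Function.Injective (subN k N) := (subN k N).injective

/-- `y_i = ∑_j x_{N j + i} T^j` -/
private def Gen_part (N : ℕ) [NeZero N] (r : ℤ) (x : LaurentSeries k) : LaurentSeries k where
  coeff j := x.coeff ((N : ℤ) * j + r)
  isPWO_support' := by
    have hN : (0 : ℤ) < N := Int.natCast_pos.mpr (Nat.pos_of_ne_zero (NeZero.ne N))
    have hx := x.isPWO_support
    rw [Set.isPWO_iff_isWF] at hx ⊢
    rw [Set.isWF_iff_no_descending_seq] at hx ⊢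
    intro f hf hfs
    refine hx (fun n => (N : ℤ) * f n + r) ?_ ?_
    · intro a b hab
      have := hf hab
      have := mul_lt_mul_of_pos_left this hN
      simp only
      omega
    · intro n
      exact hfs n

private theorem Gen_part_coeff (N : ℕ) [NeZero N] (r : ℤ) (x : LaurentSeries k) (j : ℤ) :
    (Gen_part N r x).coeff j = x.coeff ((N : ℤ) * j + r) := rfl

/-- every `x` is `∑_{i < N} T^i y_i(T^N)` -/
theorem exists_decomp (N : ℕ) [NeZero N] (x : LaurentSeries k) :
    ∃ y : Fin N → LaurentSeries k,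
      x = ∑ i : Fin N, HahnSeries.single ((i : ℕ) : ℤ) 1 * subN k N (y i) := by
  have hN : (0 : ℤ) < N := Int.natCast_pos.mpr (Nat.pos_of_ne_zero (NeZero.ne N))
  refine ⟨fun i => Gen_part N ((i : ℕ) : ℤ) x, ?_⟩
  ext q
  rw [HahnSeries.coeff_sum]
  have h0 : 0 ≤ q % N := Int.emod_nonneg _ hN.ne'
  have h1 : q % N < N := Int.emod_lt_of_pos _ hN
  set i₀ : Fin N := ⟨(q % N).toNat, by omega⟩ with hi₀
  have hi : ((i₀ : ℕ) : ℤ) = q % N := by
    rw [hi₀]
    exact Int.toNat_of_nonneg h0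
  rw [Finset.sum_eq_single i₀]
  · rw [HahnSeries.coeff_single_mul, one_mul, hi]
    have h2 : q - q % N = (N : ℤ) * (q / N) := by
      have := Int.emod_add_mul_ediv q N
      omega
    rw [h2, subN_coeff_mul, Gen_part_coeff]
    congr 1
    omega
  · intro i _ hne
    rw [HahnSeries.coeff_single_mul, one_mul, subN_coeff_not]
    intro hdvd
    apply hne
    apply Fin.ext
    have h3 : (N : ℤ) ∣ ((i₀ : ℕ) : ℤ) - ((i : ℕ) : ℤ) := by
      rw [hi]
      have h4 : (N : ℤ) ∣ q - q % N := Int.dvd_self_sub_emod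
      have h5 := dvd_sub hdvd h4
      have h6 : q - ((i : ℕ) : ℤ) - (q - q % N) = q % N - ((i : ℕ) : ℤ) := by ring
      rwa [h6] at h5
    have h7 : ((i₀ : ℕ) : ℤ) - ((i : ℕ) : ℤ) = 0 := by
      apply Int.eq_zero_of_abs_lt_dvd h3
      have := i.2
      rw [abs_lt]
      constructor <;> omega
    omega
  · intro h
    exact absurd (Finset.mem_univ _) h

/-- the eigenvectors of `rot ζ` -/
theorem rot_eigen (N : ℕ) [NeZero N] (ζ : kˣ) (hζ : IsPrimitiveRoot ζ N) (r : ℤ)
    (x : LaurentSeries k) (h : rot ζ x = HahnSeries.C ((ζ ^ r : kˣ) : k) * x) :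
    ∃ y : LaurentSeries k, x = HahnSeries.single r 1 * subN k N y := by
  refine ⟨Gen_part N r x, ?_⟩
  ext q
  rw [HahnSeries.coeff_single_mul, one_mul]
  by_cases hd : (N : ℤ) ∣ q - r
  · obtain ⟨j, hj⟩ := hd
    rw [hj, subN_coeff_mul, Gen_part_coeff, ← hj, sub_add_cancel]
  · rw [subN_coeff_not N _ _ hd]
    have h1 := congrArg (fun z : LaurentSeries k => z.coeff q) h
    rw [rot_coeff, HahnSeries.C_mul_eq_smul, HahnSeries.coeff_smul, smul_eq_mul] at h1
    by_contra hx
    have h2 : ((ζ ^ q : kˣ) : k) = ((ζ ^ r : kˣ) : k) := mul_right_cancel₀ hx h1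
    have h3 : ζ ^ q = ζ ^ r := Units.ext h2
    apply hd
    rw [← hζ.zpow_eq_one_iff_dvd, zpow_sub, h3, mul_inv_cancel]

/-- an extension of the character `j ↦ ζ^j` to `ℚ` -/
theorem exists_char [IsAlgClosed k] (ζ : kˣ) :
    ∃ χ : Multiplicative ℚ →* k, ∀ j : ℤ,
      χ (Multiplicative.ofAdd (j : ℚ)) = ((ζ ^ j : kˣ) : k) := by
  have hsurj : ∀ {n : ℕ}, n ≠ 0 →
      Function.Surjective (fun a : Additive kˣ => n • a) := by
    intro n hn a
    obtain ⟨z, hz⟩ := IsAlgClosed.exists_pow_nat_eq ((Additive.toMul a : kˣ) : k)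
      (Nat.pos_of_ne_zero hn)
    have hz0 : z ≠ 0 := by
      rintro rfl
      rw [zero_pow hn] at hz
      exact (Additive.toMul a : kˣ).ne_zero hz.symm
    refine ⟨Additive.ofMul (Units.mk0 z hz0), ?_⟩
    change Additive.ofMul ((Units.mk0 z hz0) ^ n) = a
    apply Additive.toMul.injective
    apply Units.ext
    simpa using hz
  letI : DivisibleBy (Additive kˣ) ℕ := divisibleByOfSMulRightSurj _ _ hsurj
  letI : DivisibleBy (Additive kˣ) ℤ := AddGroup.divisibleByIntOfDivisibleByNat _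
  have hB : Module.Baer ℤ (Additive kˣ) := Module.Baer.of_divisible _
  obtain ⟨h, hh⟩ := hB.extension_property_addMonoidHom (Int.castAddHom ℚ)
    (show Function.Injective (Int.castAddHom ℚ) from Int.cast_injective)
    ((zmultiplesHom (Additive kˣ)) (Additive.ofMul ζ))
  refine ⟨(Units.coeHom k).comp (AddMonoidHom.toMultiplicativeLeft h), fun j => ?_⟩
  have h1 := DFunLike.congr_fun hh j
  change h (j : ℚ) = j • Additive.ofMul ζ at h1
  change (((Additive.toMul (h (j : ℚ))) : kˣ) : k) = _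
  rw [h1]
  rfl

theorem hmulHom_toOm (χ : Multiplicative ℚ →* k) (ζ : kˣ)
    (h : ∀ j : ℤ, χ (Multiplicative.ofAdd (j : ℚ)) = ((ζ ^ j : kˣ) : k)) (x : LaurentSeries k) :
    hmulHom χ (toOm k x) = toOm k (rot ζ x) := by
  ext q
  change χ (Multiplicative.ofAdd q) * (toOm k x).coeff q = _
  by_cases hq : ∃ j : ℤ, q = j
  · obtain ⟨j, rfl⟩ := hq
    rw [toOm_coeff_int, toOm_coeff_int, rot_coeff, h]
  · push Not at hq
    rw [toOm_coeff_not _ _ hq, toOm_coeff_not _ _ hq, mul_zero]

theorem orderTop_hmulHom (χ : Multiplicative ℚ →* k) (x : Om k) :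
    (hmulHom χ x).orderTop = x.orderTop := by
  have hχ : ∀ q : ℚ, χ (Multiplicative.ofAdd q) ≠ 0 := by
    intro q h0
    have h1 : χ (Multiplicative.ofAdd q * (Multiplicative.ofAdd q)⁻¹) = 1 := by
      rw [mul_inv_cancel, map_one]
    rw [map_mul, h0, zero_mul] at h1
    exact zero_ne_one h1
  have hc : ∀ q : ℚ, (hmulHom χ x).coeff q = 0 ↔ x.coeff q = 0 := by
    intro q
    change χ (Multiplicative.ofAdd q) * x.coeff q = 0 ↔ _
    rw [mul_eq_zero, or_iff_right (hχ q)]
  apply le_antisymm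
  · rw [HahnSeries.le_orderTop_iff_forall]
    intro j hj
    rw [← hc]
    exact HahnSeries.coeff_eq_zero_of_lt_orderTop hj
  · rw [HahnSeries.le_orderTop_iff_forall]
    intro j hj
    rw [hc]
    exact HahnSeries.coeff_eq_zero_of_lt_orderTop hj

end

end Pool.Agent.WG
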