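import Pool.Agent.WD.Defs

/-! # Graded Jordan bases of vector spaces (piece WG-J1) -/

namespace Pool.Agent.WG

open Pool.Agent.WD

noncomputable section

universe u v

variable {k : Type u} [Field k]

/-- The spectral projectors of an endomorphism of finite order. -/
private lemma jgr_proj {V : Type v} [AddCommGroup V] [Module k V] (Γ : Module.End k V) {N : ℕ}
    [NeZero N] (ζ : kˣ) (hζ : IsPrimitiveRoot ζ N) (hΓ : Γ ^ N = 1) :
    ∃ P : ℕ → Module.End k V, (∑ i ∈ Finset.range N, P i = 1) ∧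
      (∀ i, ((ζ : k) ^ i) • (Γ * P i) = P i) ∧ (∀ i, ((ζ : k) ^ i) • (P i * Γ) = P i) := by
  have hζk : IsPrimitiveRoot (ζ : k) N := IsPrimitiveRoot.coe_units_iff.2 hζ
  have hN : (N : k) ≠ 0 := (hζk.neZero').ne
  let P : ℕ → Module.End k V := fun i =>
    (N : k)⁻¹ • ∑ j ∈ Finset.range N, ((ζ : k) ^ (i * j)) • Γ ^ j
  have hshift : ∀ i, ∑ j ∈ Finset.range N, ((ζ : k) ^ (i * (j + 1))) • Γ ^ (j + 1) =
      ∑ j ∈ Finset.range N, ((ζ : k) ^ (i * j)) • Γ ^ j := by
    intro i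
    have h1 := Finset.sum_range_succ' (fun j => ((ζ : k) ^ (i * j)) • Γ ^ j) N
    have h2 := Finset.sum_range_succ (fun j => ((ζ : k) ^ (i * j)) • Γ ^ j) N
    rw [h1] at h2
    have h3 : ((ζ : k) ^ (i * N)) • Γ ^ N = ((ζ : k) ^ (i * 0)) • Γ ^ 0 := by
      rw [hΓ, mul_zero, pow_zero, pow_zero, mul_comm, pow_mul, hζk.pow_eq_one, one_pow]
    rw [h3] at h2
    exact add_right_cancel h2
  have hcomm : ∀ i, P i * Γ = Γ * P i := by
    intro i
    simp only [P, smul_mul_assoc, mul_smul_comm, Finset.sum_mul, Finset.mul_sum, ← pow_succ,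
      ← pow_succ']
  have hG : ∀ i, ((ζ : k) ^ i) • (Γ * P i) = P i := by
    intro i
    have : ((ζ : k) ^ i) • (Γ * P i) =
        (N : k)⁻¹ • ∑ j ∈ Finset.range N, ((ζ : k) ^ (i * (j + 1))) • Γ ^ (j + 1) := by
      simp only [P, mul_smul_comm, Finset.mul_sum]
      rw [smul_comm]
      congr 1
      rw [Finset.smul_sum]
      refine Finset.sum_congr rfl fun j _ => ?_
      rw [← pow_succ', smul_smul, ← pow_add, mul_add, mul_one, add_comm]
    rw [this, hshift]
  refine ⟨P, ?_, hG, fun i => by rw [hcomm]; exact hG i⟩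
  have h1 : ∑ i ∈ Finset.range N, P i =
      (N : k)⁻¹ • ∑ j ∈ Finset.range N, (∑ i ∈ Finset.range N, (ζ : k) ^ (i * j)) • Γ ^ j := by
    simp only [P]
    rw [← Finset.smul_sum, Finset.sum_comm]
    congr 1
    refine Finset.sum_congr rfl fun j _ => ?_
    rw [Finset.sum_smul]
  rw [h1]
  have h2 : ∀ j ∈ Finset.range N, j ≠ 0 → ∑ i ∈ Finset.range N, (ζ : k) ^ (i * j) = 0 := by
    intro j hj hj0
    have hj' : (ζ : k) ^ j ≠ 1 := hζk.pow_ne_one_of_pos_of_lt hj0 (Finset.mem_range.1 hj)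
    have h3 := geom_sum_mul ((ζ : k) ^ j) N
    have h4 : ((ζ : k) ^ j) ^ N = 1 := by rw [← pow_mul, mul_comm, pow_mul, hζk.pow_eq_one, one_pow]
    rw [h4, sub_self] at h3
    have h5 := (mul_eq_zero.1 h3).resolve_right (sub_ne_zero.2 hj')
    rw [← h5]
    refine Finset.sum_congr rfl fun i _ => ?_
    rw [← pow_mul, mul_comm]
  rw [Finset.sum_eq_single_of_mem 0 (Finset.mem_range.2 (Nat.pos_of_ne_zero (NeZero.ne N)))
    (fun j hj hj0 => by rw [h2 j hj hj0, zero_smul])]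
  simp [smul_smul, hN]

private lemma jgr_core (N : ℕ) [NeZero N] (ζ : kˣ) (hζ : IsPrimitiveRoot ζ N) (θ : k)
    (hθ : θ ≠ 0) :
    ∀ (d : ℕ) (V : Type v) [AddCommGroup V] [Module k V] [FiniteDimensional k V]
      (X Γ : Module.End k V), Module.finrank k V = d → IsNilpotent X → X * Γ = θ • (Γ * X) →
      Γ ^ N = 1 →
    ∃ (I : Type) (_ : Fintype I) (m : I → ℕ) (E : Module.Basis (Σ B : I, Fin (m B)) k V),
      (∀ (B : I) (j j' : Fin (m B)), (j : ℕ) = (j' : ℕ) + 1 → X (E ⟨B, j⟩) = E ⟨B, j'⟩) ∧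
      (∀ (B : I) (j : Fin (m B)), (j : ℕ) = 0 → X (E ⟨B, j⟩) = 0) ∧
      ∀ b, ∃ c : k, Γ (E b) = c • E b := by
  intro d
  induction d using Nat.strong_induction_on with
  | _ d ih =>
  intro V _ _ _ X Γ hd hX hrel hΓ
  rcases subsingleton_or_nontrivial V with hV | hV
  · refine ⟨Empty, inferInstance, Empty.elim, Module.Basis.empty V, ?_, ?_, ?_⟩
    · rintro ⟨⟩
    · rintro ⟨⟩
    · rintro ⟨⟨⟩, _⟩
  obtain ⟨P, hP1, hP2, hP3⟩ := jgr_proj Γ ζ hζ hΓ
  -- the nilpotency class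
  obtain ⟨m₀, hm0, hm1⟩ : ∃ m₀, X ^ m₀ ≠ 0 ∧ X ^ (m₀ + 1) = 0 := by
    have h1 := pow_pred_nilpotencyClass hX
    have h2 := pow_nilpotencyClass hX
    have h3 : nilpotencyClass X ≠ 0 := by
      intro h
      rw [h, pow_zero] at h2
      exact one_ne_zero h2
    refine ⟨nilpotencyClass X - 1, h1, ?_⟩
    rwa [Nat.sub_add_cancel (Nat.pos_of_ne_zero h3)]
  have hXX : ∀ i j (x : V), m₀ + 1 ≤ i + j → (X ^ i) ((X ^ j) x) = 0 := by
    intro i j x hij
    rw [← Module.End.mul_apply, ← pow_add]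
    obtain ⟨t, ht⟩ := Nat.exists_eq_add_of_le hij
    rw [ht, pow_add, hm1, zero_mul, LinearMap.zero_apply]
  have hXG : ∀ i, X ^ i * Γ = θ ^ i • (Γ * X ^ i) := by
    intro i
    induction i with
    | zero => simp
    | succ i hi =>
      rw [pow_succ, mul_assoc, hrel, mul_smul_comm, ← mul_assoc, hi, smul_mul_assoc, smul_smul,
        mul_assoc, ← pow_succ, ← pow_succ']
  have hXG' : ∀ i (x : V), (X ^ i) (Γ x) = θ ^ i • Γ ((X ^ i) x) := by
    intro i x
    have := LinearMap.congr_fun (hXG i) x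
    simpa using this
  -- an eigenvector
  obtain ⟨v, cv, hv, hvc⟩ : ∃ (v : V) (c : k), (X ^ m₀) v ≠ 0 ∧ Γ v = c • v := by
    by_contra hcon
    push Not at hcon
    apply hm0
    ext x
    have h1 : x = ∑ i ∈ Finset.range N, P i x := by
      have := LinearMap.congr_fun hP1 x
      rw [LinearMap.sum_apply] at this
      exact this.symm
    rw [h1, map_sum, LinearMap.zero_apply]
    refine Finset.sum_eq_zero fun i _ => ?_
    by_contra h2
    refine hcon (P i x) (((ζ : k) ^ i)⁻¹) h2 ?_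
    have h3 := LinearMap.congr_fun (hP2 i) x
    simp only [LinearMap.smul_apply, Module.End.mul_apply] at h3
    rw [eq_inv_smul_iff₀ (pow_ne_zero _ ζ.ne_zero)]
    exact h3
  -- an eigenfunctional
  obtain ⟨f, cf, hf, hfc⟩ : ∃ (f : V →ₗ[k] k) (c : k), f ((X ^ m₀) v) ≠ 0 ∧
      ∀ x, f (Γ x) = c • f x := by
    obtain ⟨g, hg⟩ := Module.Projective.exists_dual_ne_zero k hv
    by_contra hcon
    push Not at hcon
    apply hg
    have h1 : (X ^ m₀) v = ∑ i ∈ Finset.range N, P i ((X ^ m₀) v) := by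
      have := LinearMap.congr_fun hP1 ((X ^ m₀) v)
      rw [LinearMap.sum_apply] at this
      exact this.symm
    rw [h1, map_sum]
    refine Finset.sum_eq_zero fun i _ => ?_
    by_contra h2
    obtain ⟨x, hx⟩ := hcon (g.comp (P i)) (((ζ : k) ^ i)⁻¹) h2
    apply hx
    have h3 := LinearMap.congr_fun (hP3 i) x
    simp only [LinearMap.smul_apply, Module.End.mul_apply] at h3
    rw [LinearMap.comp_apply, LinearMap.comp_apply,
      eq_inv_smul_iff₀ (pow_ne_zero _ ζ.ne_zero), ← map_smul, h3]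
  -- the complement
  let T : V →ₗ[k] (Fin (m₀ + 1) → k) := LinearMap.pi fun i => f.comp (X ^ (i : ℕ))
  have hT : ∀ x i, T x i = f ((X ^ (i : ℕ)) x) := fun x i => rfl
  let C : Submodule k V := LinearMap.ker T
  have hC : ∀ x, x ∈ C ↔ ∀ i, i ≤ m₀ → f ((X ^ i) x) = 0 := by
    intro x
    rw [LinearMap.mem_ker]
    constructor
    · intro h i hi
      exact congr_fun h ⟨i, Nat.lt_succ_of_le hi⟩
    · intro h
      funext i
      exact h i (Nat.le_of_lt_succ i.2)
  have hCX : ∀ x ∈ C, X x ∈ C := by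
    intro x hx
    rw [hC] at hx ⊢
    intro i hi
    rw [← Module.End.mul_apply, ← pow_succ]
    rcases Nat.lt_or_ge i m₀ with h | h
    · exact hx (i + 1) h
    · have : i = m₀ := le_antisymm hi h
      rw [this, hm1]
      simp
  have hCG : ∀ x ∈ C, Γ x ∈ C := by
    intro x hx
    rw [hC] at hx ⊢
    intro i hi
    rw [hXG', map_smul, hfc, hx i hi, smul_zero, smul_zero]
  let X' : Module.End k C := X.restrict hCX
  let Γ' : Module.End k C := Γ.restrict hCG
  have hX'c : ∀ x : C, ((X' x : C) : V) = X x := fun x => rfl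
  have hΓ'c : ∀ x : C, ((Γ' x : C) : V) = Γ x := fun x => rfl
  have hX'p : ∀ i (x : C), (((X' ^ i) x : C) : V) = (X ^ i) x := by
    intro i
    induction i with
    | zero => intro x; simp
    | succ i hi =>
      intro x
      rw [pow_succ, pow_succ, Module.End.mul_apply, Module.End.mul_apply, hi, hX'c]
  have hΓ'p : ∀ i (x : C), (((Γ' ^ i) x : C) : V) = (Γ ^ i) x := by
    intro i
    induction i with
    | zero => intro x; simp
    | succ i hi =>
      intro x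
      rw [pow_succ, pow_succ, Module.End.mul_apply, Module.End.mul_apply, hi, hΓ'c]
  have hX' : IsNilpotent X' := by
    refine ⟨m₀ + 1, ?_⟩
    ext x
    rw [hX'p, hm1]
    simp
  have hrel' : X' * Γ' = θ • (Γ' * X') := by
    ext x
    have := LinearMap.congr_fun hrel (x : V)
    simpa [hX'c, hΓ'c] using this
  have hΓ' : Γ' ^ N = 1 := by
    ext x
    rw [hΓ'p, hΓ]
    simp
  have hlt : Module.finrank k C < d := by
    rw [← hd]
    apply Submodule.finrank_lt
    intro h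
    apply hf
    have : v ∈ C := by rw [h]; trivial
    exact (hC v).1 this m₀ le_rfl
  obtain ⟨I, hI, m, E, hE1, hE2, hE3⟩ := ih _ hlt C X' Γ' rfl hX' hrel' hΓ'
  -- the chain
  let w : Fin (m₀ + 1) → V := fun j => (X ^ (m₀ - (j : ℕ))) v
  let Ψ : (Fin (m₀ + 1) → k) →ₗ[k] V := Fintype.linearCombination k w
  have hΨ : ∀ a, Ψ a = ∑ j, a j • w j := fun a => by
    simp [Ψ, Fintype.linearCombination_apply]
  let M : Matrix (Fin (m₀ + 1)) (Fin (m₀ + 1)) k := fun i j => T (w j) i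
  have hM : ∀ i j, M i j = f ((X ^ (i : ℕ)) ((X ^ (m₀ - (j : ℕ))) v)) := fun i j => rfl
  have hdet : M.det ≠ 0 := by
    rw [Matrix.det_of_isUpperTriangular]
    · refine Finset.prod_ne_zero_iff.2 fun i _ => ?_
      rw [hM, ← Module.End.mul_apply, ← pow_add, Nat.add_sub_cancel' (Nat.le_of_lt_succ i.2)]
      exact hf
    · intro i j hij
      have hij' : (j : ℕ) < i := hij
      rw [hM, hXX _ _ _ (by omega), map_zero]
  have hTΨ : ∀ a, T (Ψ a) = M.mulVec a := by
    intro a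
    rw [hΨ, map_sum]
    funext i
    simp only [map_smul, Finset.sum_apply, Pi.smul_apply, smul_eq_mul, Matrix.mulVec, dotProduct]
    exact Finset.sum_congr rfl fun j _ => mul_comm _ _
  let e₀ : ((Fin (m₀ + 1) → k) × C) →ₗ[k] V := Ψ.coprod C.subtype
  have he₀ : ∀ a (c : C), e₀ (a, c) = Ψ a + c := fun a c => rfl
  have hinj : Function.Injective e₀ := by
    rw [injective_iff_map_eq_zero]
    rintro ⟨a, c⟩ h
    rw [he₀] at h
    have h1 : T (Ψ a) = 0 := by
      have h2 : T (Ψ a + c) = 0 := by rw [h, map_zero]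
      rw [map_add] at h2
      have h3 : T (c : V) = 0 := c.2
      rwa [h3, add_zero] at h2
    rw [hTΨ] at h1
    have h4 : a = 0 := Matrix.eq_zero_of_mulVec_eq_zero hdet h1
    rw [h4, map_zero, zero_add] at h
    rw [h4]
    congr 1
    exact Subtype.ext h
  have hsurj : Function.Surjective e₀ := by
    intro x
    let a : Fin (m₀ + 1) → k := M⁻¹.mulVec (T x)
    have ha : M.mulVec a = T x := by
      simp only [a]
      rw [Matrix.mulVec_mulVec, Matrix.mul_nonsing_inv _ (isUnit_iff_ne_zero.2 hdet),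
        Matrix.one_mulVec]
    have hc : x - Ψ a ∈ C := by
      rw [LinearMap.mem_ker, map_sub, hTΨ, ha, sub_self]
    refine ⟨(a, ⟨x - Ψ a, hc⟩), ?_⟩
    rw [he₀]
    simp
  let e : ((Fin (m₀ + 1) → k) × C) ≃ₗ[k] V := LinearEquiv.ofBijective e₀ ⟨hinj, hsurj⟩
  have he : ∀ a (c : C), e (a, c) = Ψ a + c := fun a c => rfl
  let m' : Option I → ℕ := fun B => B.elim (m₀ + 1) m
  let φ : (Fin (m₀ + 1) ⊕ (Σ B : I, Fin (m B))) ≃ (Σ B : Option I, Fin (m' B)) :=
    { toFun := fun x => match x with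
        | Sum.inl j => ⟨none, j⟩
        | Sum.inr ⟨B, j⟩ => ⟨some B, j⟩
      invFun := fun x => match x with
        | ⟨none, j⟩ => Sum.inl j
        | ⟨some B, j⟩ => Sum.inr ⟨B, j⟩
      left_inv := by rintro (j | ⟨B, j⟩) <;> rfl
      right_inv := by rintro ⟨_ | B, j⟩ <;> rfl }
  let E' : Module.Basis (Σ B : Option I, Fin (m' B)) k V :=
    (((Pi.basisFun k (Fin (m₀ + 1))).prod E).map e).reindex φ
  have hE'n : ∀ j : Fin (m₀ + 1), E' ⟨none, j⟩ = w j := by
    intro j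
    have h1 : E' ⟨none, j⟩ = e ((Pi.basisFun k (Fin (m₀ + 1))).prod E (Sum.inl j)) := by
      simp only [E', Module.Basis.reindex_apply, Module.Basis.map_apply]
      rfl
    rw [h1]
    have h2 : (Pi.basisFun k (Fin (m₀ + 1))).prod E (Sum.inl j) = (Pi.single j 1, 0) := by
      ext <;> simp
    rw [h2, he, hΨ]
    simp [Pi.single_apply]
  have hE's : ∀ (B : I) (j : Fin (m B)), E' ⟨some B, j⟩ = (E ⟨B, j⟩ : V) := by
    intro B j
    have h1 : E' ⟨some B, j⟩ = e ((Pi.basisFun k (Fin (m₀ + 1))).prod E (Sum.inr ⟨B, j⟩)) := by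
      simp only [E', Module.Basis.reindex_apply, Module.Basis.map_apply]
      rfl
    rw [h1]
    have h2 : (Pi.basisFun k (Fin (m₀ + 1))).prod E (Sum.inr ⟨B, j⟩) = (0, E ⟨B, j⟩) := by
      ext <;> simp
    rw [h2, he, map_zero, zero_add]
  refine ⟨Option I, inferInstance, m', E', ?_, ?_, ?_⟩
  · rintro (_ | B) j j' hjj
    · rw [hE'n, hE'n]
      have hj := j.2
      have hj' : (j : ℕ) < m₀ + 1 := hj
      simp only [w]
      rw [← Module.End.mul_apply, ← pow_succ']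
      congr 2
      change m₀ - (j : ℕ) + 1 = m₀ - (j' : ℕ)
      omega
    · rw [hE's, hE's, ← hE1 B j j' hjj, hX'c]
  · rintro (_ | B) j hj
    · rw [hE'n]
      simp only [w]
      have := hXX 1 (m₀ - (j : ℕ)) v (by omega)
      rwa [pow_one] at this
    · rw [hE's, ← hX'c, hE2 B j hj]
      rfl
  · rintro ⟨_ | B, j⟩
    · rw [hE'n]
      refine ⟨(θ ^ (m₀ - (j : ℕ)))⁻¹ * cv, ?_⟩
      simp only [w]
      have h1 := hXG' (m₀ - (j : ℕ)) v
      rw [hvc, map_smul] at h1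
      rw [mul_smul, eq_inv_smul_iff₀ (pow_ne_zero _ hθ)]
      exact h1.symm
    · rw [hE's]
      obtain ⟨c, hc⟩ := hE3 ⟨B, j⟩
      exact ⟨c, by rw [← hΓ'c, hc]; rfl⟩

/-- Induction on `dim V`: apply the induction hypothesis to `X V`, lift the tops of the chains to
eigenvectors and extend by eigenvectors in the kernel of `X`. Here `X` is nilpotent and
`X Γ = θ Γ X`. General form for a vector space. -/
theorem exists_graded {V : Type v} [AddCommGroup V] [Module k V] [FiniteDimensional k V]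
    (X Γ : Module.End k V) (θ : k) (hθ : θ ≠ 0) (hX : IsNilpotent X)
    (hrel : X * Γ = θ • (Γ * X)) {N : ℕ} [NeZero N] (ζ : kˣ) (hζ : IsPrimitiveRoot ζ N)
    (hΓ : Γ ^ N = 1) (hθN : θ ^ N = 1) :
    ∃ (n : ℕ) (m : Fin n → ℕ) (E : Module.Basis (Ix n m) k V) (r : Ix n m → ℕ),
      (∀ b, r b < N) ∧ (∀ b b' : Ix n m, b.1 = b'.1 → (b.2 : ℕ) = (b'.2 : ℕ) + 1 → X (E b) = E b') ∧
      (∀ b : Ix n m, (b.2 : ℕ) = 0 → X (E b) = 0) ∧
      ∀ b, Γ (E b) = ((ζ ^ r b)⁻¹ : kˣ) • E b := by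
  obtain ⟨I, hI, m, E, hE1, hE2, hE3⟩ := jgr_core N ζ hζ θ hθ _ V X Γ rfl hX hrel hΓ
  let ε : Fin (Fintype.card I) ≃ I := (Fintype.equivFin I).symm
  let m' : Fin (Fintype.card I) → ℕ := fun B => m (ε B)
  let ψ : (Ix (Fintype.card I) m') ≃ (Σ B : I, Fin (m B)) :=
    Equiv.sigmaCongrLeft (β := fun B => Fin (m B)) ε
  have hψ : ∀ (B : Fin (Fintype.card I)) (j : Fin (m' B)), ψ ⟨B, j⟩ = ⟨ε B, j⟩ := fun B j => rfl
  let E' : Module.Basis (Ix (Fintype.card I) m') k V := E.reindex ψ.symm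
  have hE' : ∀ (B : Fin (Fintype.card I)) (j : Fin (m' B)), E' ⟨B, j⟩ = E ⟨ε B, j⟩ := by
    intro B j
    simp only [E', Module.Basis.reindex_apply, Equiv.symm_symm]
    rw [hψ]
  have hζk : IsPrimitiveRoot (ζ : k) N := IsPrimitiveRoot.coe_units_iff.2 hζ
  have hr : ∀ b, ∃ r : ℕ, r < N ∧ Γ (E' b) = ((ζ ^ r)⁻¹ : kˣ) • E' b := by
    rintro ⟨B, j⟩
    obtain ⟨c, hc⟩ := hE3 ⟨ε B, j⟩
    rw [← hE'] at hc
    have hpow : ∀ i, (Γ ^ i) (E' ⟨B, j⟩) = c ^ i • E' ⟨B, j⟩ := by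
      intro i
      induction i with
      | zero => simp
      | succ i hi =>
        rw [pow_succ, Module.End.mul_apply, hc, map_smul, hi, smul_smul, pow_succ']
    have h1 := hpow N
    rw [hΓ, Module.End.one_apply] at h1
    have hne := E'.ne_zero ⟨B, j⟩
    have h2 : c ^ N = 1 := by
      have h3 : (c ^ N - 1) • E' ⟨B, j⟩ = 0 := by rw [sub_smul, one_smul, ← h1, sub_self]
      exact sub_eq_zero.1 ((smul_eq_zero.1 h3).resolve_right hne)
    have hc0 : c ≠ 0 := by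
      rintro rfl
      rw [zero_pow (NeZero.ne N)] at h2
      exact zero_ne_one h2
    obtain ⟨r, hrN, hrc⟩ := hζk.eq_pow_of_pow_eq_one (ξ := c⁻¹) (by rw [inv_pow, h2, inv_one])
    refine ⟨r, hrN, ?_⟩
    rw [hc, Units.smul_def]
    congr 1
    push_cast
    rw [hrc, inv_inv]
  choose r hrN hrG using hr
  refine ⟨Fintype.card I, m', E', r, hrN, ?_, ?_, hrG⟩
  · rintro ⟨B, j⟩ ⟨B', j'⟩ hB hj
    obtain rfl : B = B' := hB
    rw [hE', hE']
    exact hE1 _ _ _ hj
  · rintro ⟨B, j⟩ hj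
    rw [hE']
    exact hE2 _ _ hj

end

end Pool.Agent.WG
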