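import Pool.Agent.WG.GoodQ
import Pool.Agent.WG.Jgr
import Pool.Agent.WD.Defs

/-!
# Graded Jordan bases (piece WG-J2)
-/

namespace Pool.Agent.WG

open Polynomial Pool.Agent.WD

noncomputable section

universe u v

variable {k : Type u} [Field k] {d n : ℕ}

/-- The basis `E` consists of Jordan chains of `q(A)`, `q(A) E_{B,i} = E_{B,i-1}`, and of
eigenvectors of `Γ` with the eigenvalues `ζ^{-r}`. -/
structure JD (p N s : ℕ) (ζ : kˣ) (q : k[X]) (A Γ : Matrix (Fin d) (Fin d) k) (m : Fin n → ℕ)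
    (E : Module.Basis (Ix n m) k (Fin d → k)) (r : Ix n m → ℕ) : Prop where
  hm : ∀ B, m B ≤ p ^ s
  hr : ∀ b, r b < N
  hX : ∀ b b' : Ix n m, b.1 = b'.1 → (b.2 : ℕ) = (b'.2 : ℕ) + 1 →
    (aeval A q).mulVec (E b) = E b'
  hX0 : ∀ b : Ix n m, (b.2 : ℕ) = 0 → (aeval A q).mulVec (E b) = 0
  hΓ : ∀ b, Γ.mulVec (E b) = ((ζ ^ r b)⁻¹ : kˣ) • E b

variable {p N s θ : ℕ} [Fact p.Prime] [CharP k p] {ζ : kˣ} {q : k[X]}
  {A Γ : Matrix (Fin d) (Fin d) k}

/-- `q(A) Γ = θ Γ q(A)` -/
theorem aeval_rel (hq : GoodQ p s θ q) (hA : A ^ (p ^ s) = 1) (hrel : A * Γ = Γ * A ^ θ) :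
    aeval A q * Γ = (θ : k) • (Γ * aeval A q) := by
  have h1 : ∀ i : ℕ, A ^ i * Γ = Γ * (A ^ θ) ^ i := by
    intro i
    induction i with
    | zero => simp
    | succ i ih => rw [pow_succ, mul_assoc, hrel, ← mul_assoc, ih, mul_assoc, ← pow_succ]
  have h2 : ∀ f : k[X], aeval A f * Γ = Γ * aeval (A ^ θ) f := by
    intro f
    induction f using Polynomial.induction_on' with
    | add f g hf hg => rw [map_add, map_add, add_mul, mul_add, hf, hg]
    | monomial i a =>
      rw [aeval_monomial, aeval_monomial, mul_assoc, h1, ← mul_assoc, ← mul_assoc,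
        Algebra.commutes a Γ]
  obtain ⟨w, hw⟩ := hq.2
  have h3 : aeval (A ^ θ) q = (θ : k) • aeval A q := by
    have h4 : q.comp (X ^ θ) = C (θ : k) * q + (X ^ (p ^ s) - 1) * w := by
      rw [← hw]; ring
    have h5 : aeval A (q.comp (X ^ θ)) = aeval (A ^ θ) q := by
      rw [aeval_comp, map_pow, aeval_X]
    rw [← h5, h4, map_add, map_mul, map_mul, map_sub, map_pow, aeval_X, hA, map_one, sub_self,
      zero_mul, add_zero, aeval_C, ← Algebra.smul_def]
  rw [h2, h3, mul_smul_comm]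

private theorem JD_nil (hq : GoodQ p s θ q) (hA : A ^ (p ^ s) = 1) : aeval A q ^ (p ^ s) = 0 := by
  obtain ⟨v, hv, -⟩ := hq.1
  rw [← map_pow, hv, mul_pow, sub_pow_char_pow, one_pow, map_mul, map_sub, map_pow, aeval_X, hA,
    map_one, sub_self, zero_mul]

/-- `A - 1` is divisible by `q(A)` -/
private theorem JD_sub (hq : GoodQ p s θ q) (hA : A ^ (p ^ s) = 1) :
    ∃ W : Matrix (Fin d) (Fin d) k, A - 1 = W * aeval A q ∧ Commute W (aeval A q) := by
  obtain ⟨R, hR0, w, hw⟩ := exists_inverse q hq.1 (p ^ s)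
  obtain ⟨R', hR'⟩ := X_dvd_iff.2 hR0
  refine ⟨aeval A (R'.comp q), ?_, ?_⟩
  · have h1 : (X - 1 : k[X]) = R.comp q - (X - 1) ^ (p ^ s) * w := by
      rw [← hw]; ring
    have h2 : aeval A (X - 1 : k[X]) = A - 1 := by rw [map_sub, aeval_X, map_one]
    rw [← h2, h1, hR', mul_comp, X_comp, map_sub, map_mul, map_mul, sub_pow_char_pow, one_pow,
      map_sub, map_pow, aeval_X, hA, map_one, sub_self, zero_mul, sub_zero, ← map_mul, ← map_mul,
      mul_comm]
  · show _ = _
    rw [← map_mul, ← map_mul, mul_comm]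

private theorem JD_chain {m : Fin n → ℕ} {E : Module.Basis (Ix n m) k (Fin d → k)}
    {X' : Matrix (Fin d) (Fin d) k}
    (hX : ∀ b b' : Ix n m, b.1 = b'.1 → (b.2 : ℕ) = (b'.2 : ℕ) + 1 → X'.mulVec (E b) = E b')
    (B : Fin n) : ∀ (j i : ℕ) (hi : i + j < m B),
      (X' ^ j).mulVec (E ⟨B, ⟨i + j, hi⟩⟩) = E ⟨B, ⟨i, by omega⟩⟩ := by
  intro j
  induction j with
  | zero =>
    intro i hi
    rw [pow_zero, Matrix.one_mulVec]
    rfl
  | succ j ih =>
    intro i hi
    rw [pow_succ, ← Matrix.mulVec_mulVec, hX ⟨B, ⟨i + (j + 1), hi⟩⟩ ⟨B, ⟨i + j, by omega⟩⟩ rfl rfl]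
    exact ih i (by omega)

theorem exists_JD [NeZero N] (hζ : IsPrimitiveRoot ζ N) (hq : GoodQ p s θ q)
    (hA : A ^ (p ^ s) = 1) (hΓ : Γ ^ N = 1) (hrel : A * Γ = Γ * A ^ θ) (hθN : (θ : k) ^ N = 1) :
    ∃ (n : ℕ) (m : Fin n → ℕ) (E : Module.Basis (Ix n m) k (Fin d → k)) (r : Ix n m → ℕ),
      JD p N s ζ q A Γ m E r := by
  have hθ0 : (θ : k) ≠ 0 := by
    intro h0
    rw [h0, zero_pow (NeZero.ne N)] at hθN
    exact zero_ne_one hθN
  have hrel' := aeval_rel hq hA hrel
  have hnil := JD_nil hq hA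
  obtain ⟨n, m, E, r, hr, hX, hX0, hE⟩ := exists_graded (V := Fin d → k)
    (Matrix.toLin' (aeval A q)) (Matrix.toLin' Γ) (θ : k) hθ0
    ⟨p ^ s, by rw [← Matrix.toLin'_pow, hnil, map_zero]⟩
    (by
      show Matrix.toLin' (aeval A q) ∘ₗ Matrix.toLin' Γ =
        (θ : k) • (Matrix.toLin' Γ ∘ₗ Matrix.toLin' (aeval A q))
      rw [← Matrix.toLin'_mul, hrel', map_smul, Matrix.toLin'_mul])
    ζ hζ (by rw [← Matrix.toLin'_pow, hΓ, Matrix.toLin'_one]; rfl) hθN
  simp only [Matrix.toLin'_apply] at hX hX0 hE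
  refine ⟨n, m, E, r, ⟨fun B => ?_, hr, hX, hX0, hE⟩⟩
  by_contra hcon
  push Not at hcon
  have h1 := JD_chain hX B (p ^ s) 0 (by omega)
  rw [hnil, Matrix.zero_mulVec] at h1
  exact E.ne_zero _ h1.symm

variable {m : Fin n → ℕ} {E : Module.Basis (Ix n m) k (Fin d → k)} {r : Ix n m → ℕ}

theorem JD.card (h : JD p N s ζ q A Γ m E r) : Fintype.card (Ix n m) = d := by
  have _ := h.hm
  rw [← Module.finrank_eq_card_basis E, Module.finrank_fin_fun]

/-- if `A^(p^(s-1)) ≠ 1`, there is a block of size `> p^(s-1)` -/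
theorem JD.faith (h : JD p N s ζ q A Γ m E r) (hq : GoodQ p s θ q) (hA : A ^ (p ^ s) = 1)
    (hs : 0 < s) (hne : A ^ (p ^ (s - 1)) ≠ 1) : ∃ b : Ix n m, (b.2 : ℕ) = p ^ (s - 1) := by
  have _ := hs
  by_contra hcon
  push Not at hcon
  have hm : ∀ B, m B ≤ p ^ (s - 1) := by
    intro B
    by_contra h1
    push Not at h1
    exact hcon ⟨B, ⟨p ^ (s - 1), h1⟩⟩ rfl
  -- powers of `q(A)` on the basis
  have hz : ∀ (i : ℕ) (B : Fin n) (hi : i < m B), (aeval A q ^ (i + 1)).mulVec (E ⟨B, ⟨i, hi⟩⟩) =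
      0 := by
    intro i B hi
    have h1 := JD_chain h.hX B i 0 (by omega)
    have h2 : (⟨B, ⟨0 + i, by omega⟩⟩ : Ix n m) = ⟨B, ⟨i, hi⟩⟩ := by
      congr 2
      omega
    rw [h2] at h1
    rw [pow_succ', ← Matrix.mulVec_mulVec, h1]
    exact h.hX0 _ rfl
  have hz2 : aeval A q ^ (p ^ (s - 1)) = 0 := by
    apply Matrix.toLin'.injective
    rw [map_zero]
    apply E.ext
    rintro ⟨B, i, hi⟩
    rw [Matrix.toLin'_apply, LinearMap.zero_apply]
    obtain ⟨j, hj⟩ := Nat.exists_eq_add_of_le (show i + 1 ≤ p ^ (s - 1) from (hm B).trans' hi)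
    rw [hj, add_comm (i + 1) j, pow_add, ← Matrix.mulVec_mulVec, hz i B hi, Matrix.mulVec_zero]
  obtain ⟨W, hW, hc⟩ := JD_sub hq hA
  apply hne
  rw [← sub_eq_zero]
  have h3 : (A - 1) ^ (p ^ (s - 1)) = A ^ (p ^ (s - 1)) - 1 := by
    have h4 : aeval A ((X - 1 : k[X]) ^ (p ^ (s - 1))) = aeval A (X ^ (p ^ (s - 1)) - 1 : k[X]) := by
      rw [sub_pow_char_pow, one_pow]
    rwa [map_pow, map_sub, map_sub, map_pow, aeval_X, map_one] at h4
  rw [← h3, hW, hc.mul_pow, hz2, mul_zero]

/-- the same basis for `Γ⁻¹` -/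
theorem JD.dual [NeZero N] (h : JD p N s ζ q A Γ m E r) (hζ : ζ ^ N = 1)
    {Γ' : Matrix (Fin d) (Fin d) k} (hΓ' : Γ' * Γ = 1) :
    JD p N s ζ q A Γ' m E fun b => (N - r b) % N := by
  refine ⟨h.hm, fun b => Nat.mod_lt _ (Nat.pos_of_ne_zero (NeZero.ne N)), h.hX, h.hX0, fun b => ?_⟩
  have h1 : Γ'.mulVec (Γ.mulVec (E b)) = E b := by
    rw [Matrix.mulVec_mulVec, hΓ', Matrix.one_mulVec]
  rw [h.hΓ b, Units.smul_def, Matrix.mulVec_smul, ← Units.smul_def] at h1
  have h2 : Γ'.mulVec (E b) = (ζ ^ r b) • E b := by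
    rw [← h1, smul_smul, mul_inv_cancel, one_smul, h1]
  have h3 : ((ζ ^ ((N - r b) % N))⁻¹ : kˣ) = ζ ^ r b := by
    rw [inv_eq_iff_mul_eq_one, ← pow_add]
    have h4 := h.hr b
    rcases Nat.eq_zero_or_pos (r b) with h5 | h5
    · rw [h5, Nat.sub_zero, Nat.mod_self, add_zero, pow_zero]
    · rw [Nat.mod_eq_of_lt (by omega), Nat.sub_add_cancel h4.le, hζ]
  rw [h2, h3]

/-- the space of the vectors fixed by `A` and `Γ` -/
theorem JD.finrank_fixed (h : JD p N s ζ q A Γ m E r) (hζ : IsPrimitiveRoot ζ N)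
    (hq : GoodQ p s θ q) (hA : A ^ (p ^ s) = 1) :
    Module.finrank k (Submodule.span k {x : Fin d → k | A.mulVec x = x ∧ Γ.mulVec x = x}) =
      (Finset.univ.filter fun b : Ix n m => (b.2 : ℕ) = 0 ∧ r b = 0).card := by
  classical
  have hspan : Submodule.span k {x : Fin d → k | A.mulVec x = x ∧ Γ.mulVec x = x} =
      Submodule.span k (Set.range fun b : {b : Ix n m // (b.2 : ℕ) = 0 ∧ r b = 0} => E b.1) := by
    obtain ⟨W, hW, hc⟩ := JD_sub hq hA
    apply le_antisymm
    · rw [Submodule.span_le]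
      rintro x ⟨hx1, hx2⟩
      -- `q(A) x = 0`
      have h1 : (aeval A q).mulVec x = 0 := by
        obtain ⟨v, hv, -⟩ := hq.1
        have h2 : (A - 1).mulVec x = 0 := by
          rw [Matrix.sub_mulVec, hx1, Matrix.one_mulVec, sub_self]
        rw [hv, mul_comm, map_mul, ← Matrix.mulVec_mulVec, map_sub, aeval_X, map_one, h2,
          Matrix.mulVec_zero]
      have hsum : x = ∑ b, E.repr x b • E b := (E.sum_repr x).symm
      have hc1 : ∀ b : Ix n m, (b.2 : ℕ) ≠ 0 → E.repr x b = 0 := by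
        rintro ⟨B, i, hi⟩ hb
        obtain ⟨i', rfl⟩ : ∃ i', i = i' + 1 := ⟨i - 1, by simp only at hb; omega⟩
        -- the coordinate of `q(A) x` at the preceding place
        have h3 : ∀ b : Ix n m, E.repr ((aeval A q).mulVec (E b)) ⟨B, ⟨i', by omega⟩⟩ =
            if b = ⟨B, ⟨i' + 1, hi⟩⟩ then 1 else 0 := by
          rintro ⟨B', j, hj⟩
          rcases Nat.eq_zero_or_pos j with rfl | hj0
          · rw [h.hX0 _ rfl, map_zero, Finsupp.zero_apply, if_neg]
            intro h4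
            rw [Sigma.mk.injEq] at h4
            obtain ⟨rfl, h4⟩ := h4
            have h5 := congrArg Fin.val (eq_of_heq h4)
            simp at h5
          · obtain ⟨j', rfl⟩ : ∃ j', j = j' + 1 := ⟨j - 1, by omega⟩
            rw [h.hX ⟨B', ⟨j' + 1, hj⟩⟩ ⟨B', ⟨j', by omega⟩⟩ rfl rfl, E.repr_self,
              Finsupp.single_apply]
            refine if_congr ?_ rfl rfl
            constructor
            · intro h4
              rw [Sigma.mk.injEq] at h4
              obtain ⟨rfl, h4⟩ := h4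
              have h5 := congrArg Fin.val (eq_of_heq h4)
              simp only at h5
              subst h5
              rfl
            · intro h4
              rw [Sigma.mk.injEq] at h4
              obtain ⟨rfl, h4⟩ := h4
              have h5 := congrArg Fin.val (eq_of_heq h4)
              simp only at h5
              obtain rfl : j' = i' := by omega
              rfl
        have h4 := congrArg (fun y => E.repr y ⟨B, ⟨i', by omega⟩⟩) h1
        simp only [map_zero, Finsupp.zero_apply] at h4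
        rw [hsum, Matrix.mulVec_sum] at h4
        simp only [Matrix.mulVec_smul, map_sum, map_smul, Finsupp.coe_finset_sum, Finset.sum_apply,
          Finsupp.smul_apply, h3, smul_eq_mul, mul_ite, mul_one, mul_zero, Finset.sum_ite_eq',
          Finset.mem_univ, if_true] at h4
        exact h4
      have hc2 : ∀ b : Ix n m, r b ≠ 0 → E.repr x b = 0 := by
        intro b hb
        have h3 : Γ.mulVec x = ∑ b, (E.repr x b * (((ζ ^ r b)⁻¹ : kˣ) : k)) • E b := by
          conv_lhs => rw [hsum]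
          rw [Matrix.mulVec_sum]
          refine Finset.sum_congr rfl fun b _ => ?_
          rw [Matrix.mulVec_smul, h.hΓ b, Units.smul_def, smul_smul]
        rw [hx2] at h3
        have h4 := congrArg (fun y => E.repr y b) h3
        simp only [map_sum, map_smul, Finsupp.coe_finset_sum, Finset.sum_apply,
          Finsupp.smul_apply, E.repr_self, Finsupp.single_apply, smul_eq_mul, mul_ite, mul_one,
          mul_zero, Finset.sum_ite_eq', Finset.mem_univ, if_true] at h4
        have h5 : E.repr x b * (1 - (((ζ ^ r b)⁻¹ : kˣ) : k)) = 0 := by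
          rw [mul_sub, mul_one, sub_eq_zero]
          exact h4
        rcases mul_eq_zero.1 h5 with h6 | h6
        · exact h6
        · exfalso
          have h7 : (ζ ^ r b)⁻¹ = 1 := Units.ext (sub_eq_zero.1 h6).symm
          rw [inv_eq_one] at h7
          have h8 := (hζ.pow_eq_one_iff_dvd _).1 h7
          exact hb (Nat.eq_zero_of_dvd_of_lt h8 (h.hr b))
      rw [SetLike.mem_coe, hsum]
      apply Submodule.sum_mem
      intro b _
      by_cases hb : (b.2 : ℕ) = 0 ∧ r b = 0
      · exact Submodule.smul_mem _ _ (Submodule.subset_span ⟨⟨b, hb⟩, rfl⟩)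
      · rw [not_and_or] at hb
        rcases hb with hb | hb
        · rw [hc1 b hb, zero_smul]
          exact Submodule.zero_mem _
        · rw [hc2 b hb, zero_smul]
          exact Submodule.zero_mem _
    · rw [Submodule.span_le]
      rintro _ ⟨⟨b, hb0, hb1⟩, rfl⟩
      apply Submodule.subset_span
      constructor
      · have h1 : (A - 1).mulVec (E b) = 0 := by
          rw [hW, ← Matrix.mulVec_mulVec, h.hX0 b hb0, Matrix.mulVec_zero]
        rw [Matrix.sub_mulVec, Matrix.one_mulVec, sub_eq_zero] at h1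
        exact h1
      · show Γ.mulVec (E b) = E b
        rw [h.hΓ b, hb1, pow_zero, inv_one, one_smul]
  have hli : LinearIndependent k
      (fun b : {b : Ix n m // (b.2 : ℕ) = 0 ∧ r b = 0} => E b.1) :=
    E.linearIndependent.comp _ Subtype.val_injective
  rw [hspan, finrank_span_eq_card hli, Fintype.card_subtype]

/-- `E_b` in coordinates: vectors over a field `L` with constants `cc : k → L`. -/
theorem JD.exists_coord (E : Module.Basis (Ix n m) k (Fin d → k)) {L : Type v} [Field L]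
    (cc : k →+* L) (x : Fin d → L) :
    ∃! y : Ix n m → L, ∀ a, x a = ∑ b, cc (E b a) * y b := by
  classical
  have h1 : ∀ a a' : Fin d, ∑ b, E.repr (Pi.single a 1) b * E b a' = if a' = a then 1 else 0 := by
    intro a a'
    have h2 := congrFun (E.sum_repr (Pi.single a 1)) a'
    rw [Finset.sum_apply] at h2
    simp only [Pi.smul_apply, smul_eq_mul, Pi.single_apply] at h2
    exact h2
  have h3 : ∀ b b' : Ix n m, ∑ a, E.repr (Pi.single a 1) b * E b' a =
      if b' = b then 1 else 0 := by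
    intro b b'
    have h4 : E b' = ∑ a, E b' a • (Pi.single a 1 : Fin d → k) := by
      funext c
      rw [Finset.sum_apply]
      simp [Pi.single_apply]
    have h5 : E.repr (E b') b = ∑ a, E b' a * E.repr (Pi.single a 1) b := by
      conv_lhs => rw [h4]
      simp [map_sum, map_smul, Finsupp.coe_finset_sum, Finset.sum_apply, Finsupp.smul_apply]
    rw [E.repr_self, Finsupp.single_apply] at h5
    rw [h5]
    exact Finset.sum_congr rfl fun a _ => mul_comm _ _
  refine ⟨fun b => ∑ a, cc (E.repr (Pi.single a 1) b) * x a, fun a' => ?_, fun y hy => ?_⟩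
  · have h6 : ∑ b, cc (E b a') * ∑ a, cc (E.repr (Pi.single a 1) b) * x a =
        ∑ a, cc (∑ b, E.repr (Pi.single a 1) b * E b a') * x a := by
      simp only [Finset.mul_sum, map_sum, Finset.sum_mul, map_mul]
      rw [Finset.sum_comm]
      refine Finset.sum_congr rfl fun a _ => Finset.sum_congr rfl fun b _ => ?_
      ring
    rw [h6]
    simp [h1, apply_ite cc]
  · funext b
    have h6 : ∑ a, cc (E.repr (Pi.single a 1) b) * x a =
        ∑ b', cc (∑ a, E.repr (Pi.single a 1) b * E b' a) * y b' := by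
      simp only [hy, Finset.mul_sum, map_sum, Finset.sum_mul, map_mul]
      rw [Finset.sum_comm]
      refine Finset.sum_congr rfl fun a _ => Finset.sum_congr rfl fun b _ => ?_
      ring
    rw [h6]
    simp [h3, apply_ite cc]

end

end Pool.Agent.WG
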