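import Pool.Agent.WG.Defs
import Pool.Agent.WG.Gen

/-! # The separable closure of `k((t))` (piece WG-K1) -/

namespace Pool.Agent.WG

open Pool.Agent.WD

noncomputable section

universe u w

private theorem K1_minpoly {F E : Type u} [Field F] [Field E] [Algebra F E]
    (hs : ∀ x : E, ∃ P : Polynomial F, P.Separable ∧ P.eval₂ (algebraMap F E) x = 0) :
    Algebra.IsSeparable F E := by
  refine ⟨fun x => ?_⟩
  obtain ⟨P, hP, hx⟩ := hs x
  exact hP.of_dvd (minpoly.dvd F x hx)

/-- Extension of an embedding of `F` into a separably closed field to a separable algebraic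
extension `E`. -/
theorem exists_lift {F E Ω' : Type u} [Field F] [Field E] [Field Ω'] [IsSepClosed Ω']
    (j : F →+* E) (ι : F →+* Ω')
    (hs : ∀ x : E, ∃ P : Polynomial F, P.Separable ∧ P.eval₂ j x = 0) :
    ∃ ι' : E →+* Ω', ∀ x, ι' (j x) = ι x := by
  let := j.toAlgebra
  let := ι.toAlgebra
  have : Algebra.IsSeparable F E := K1_minpoly hs
  let f : E →ₐ[F] Ω' := IsSepClosed.lift
  exact ⟨f.toRingHom, fun x => f.commutes x⟩

/-- An embedding `ε` of `E` into a separable closure of `F`, `E / F` separable algebraic, and an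
automorphism `τ` of `E` over `F`: there is an automorphism of the separable closure which extends
`τ`. -/
theorem exists_extend {F E Ω' : Type u} [Field F] [Field E] [Field Ω'] [Algebra F Ω']
    [IsSepClosure F Ω'] (j : F →+* E) (ε : E →+* Ω')
    (hε : ∀ x, ε (j x) = algebraMap F Ω' x) (τ : E ≃+* E) (hτ : ∀ x, τ (j x) = j x) :
    ∃ σ : Ω' ≃ₐ[F] Ω', ∀ x, σ (ε x) = ε (τ x) := by
  have : IsSepClosed Ω' := IsSepClosure.sep_closed F
  have : Algebra.IsSeparable F Ω' := IsSepClosure.separable
  obtain ⟨σ, hσ⟩ := exists_lift ε (ε.comp (τ : E →+* E)) (fun x : Ω' => by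
    refine ⟨(minpoly F x).map j, Polynomial.Separable.map (Algebra.IsSeparable.isSeparable F x), ?_⟩
    rw [Polynomial.eval₂_map]
    have h1 : ε.comp j = algebraMap F Ω' := RingHom.ext hε
    rw [h1]
    exact minpoly.aeval F x)
  let s : Ω' →ₐ[F] Ω' :=
    { σ with
      commutes' := fun x => by
        change σ (algebraMap F Ω' x) = algebraMap F Ω' x
        rw [← hε, hσ]
        change ε (τ (j x)) = _
        rw [hτ] }
  have : Algebra.IsAlgebraic F Ω' := Algebra.IsSeparable.isAlgebraic F Ω'
  refine ⟨AlgEquiv.ofBijective s (Algebra.IsAlgebraic.algHom_bijective s), fun x => ?_⟩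
  exact hσ x

/-- An element of the separable closure fixed by all automorphisms which fix the image of `E`
is in the image of `E`. -/
theorem mem_range_of_fixed {F E Ω' : Type u} [Field F] [Field E] [Field Ω'] [Algebra F Ω']
    [IsSepClosure F Ω'] (j : F →+* E) (ε : E →+* Ω')
    (hε : ∀ x, ε (j x) = algebraMap F Ω' x) (x : Ω')
    (h : ∀ σ : Ω' ≃ₐ[F] Ω', (∀ y, σ (ε y) = ε y) → σ x = x) : x ∈ Set.range ε := by
  let : Algebra F E := j.toAlgebra
  let : Algebra E Ω' := ε.toAlgebra
  have : IsScalarTower F E Ω' := IsScalarTower.of_algebraMap_eq fun x => (hε x).symm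
  have : IsGalois F Ω' := inferInstance
  have : IsGalois E Ω' := IsGalois.tower_top_of_isGalois F E Ω'
  refine (InfiniteGalois.mem_range_algebraMap_iff_fixed (k := E) x).2 fun σ => ?_
  exact h (σ.restrictScalars F) fun y => σ.commutes y

variable {k : Type u} [Field k]

instance isSepClosure_Ks : IsSepClosure (LaurentSeries k) (Ks k) :=
  separableClosure.isSepClosure (LaurentSeries k) (AlgebraicClosure (LaurentSeries k))

instance isSepClosed_Ks : IsSepClosed (Ks k) :=
  IsSepClosure.sep_closed (LaurentSeries k)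

instance isGalois_Ks : IsGalois (LaurentSeries k) (Ks k) :=
  inferInstance

instance tower_Ks : IsScalarTower (PowerSeries k) (LaurentSeries k) (Ks k) :=
  inferInstanceAs (IsScalarTower (PowerSeries k) (LaurentSeries k)
    (separableClosure (LaurentSeries k) (AlgebraicClosure (LaurentSeries k))))

instance charP_Ks {p : ℕ} [Fact p.Prime] [CharP k p] : CharP (Ks k) p :=
  charP_of_injective_ringHom (cK k).injective p

theorem cK_eq (a : k) : cK k a = algebraMap (LaurentSeries k) (Ks k) (HahnSeries.C a) := rfl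

theorem sigma_cK (σ : GalK k) (a : k) : σ (cK k a) = cK k a := σ.commutes _

theorem sigma_tK (σ : GalK k) : σ (tK k) = tK k := σ.commutes _

theorem tK_ne_zero : tK k ≠ 0 := by
  intro h
  have h1 : (HahnSeries.single (1 : ℤ) (1 : k) : LaurentSeries k) = 0 :=
    (map_eq_zero (algebraMap (LaurentSeries k) (Ks k))).1 h
  exact one_ne_zero (HahnSeries.single_eq_zero_iff.1 h1)

end

end Pool.Agent.WG
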