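import Pool.Agent.WG.K1

/-! # The tame extension `K(T)`, `T^N = t` (piece WG-K2) -/

namespace Pool.Agent.WG

open Pool.Agent.WD

noncomputable section

universe u

variable {k : Type u} [Field k]

private lemma K2_cK_inj : Function.Injective (cK k) := (cK k).injective

private lemma K2_natCast_ne (N : ℕ) (hN : (N : k) ≠ 0) : (N : Ks k) ≠ 0 := by
  have h : cK k (N : k) = (N : Ks k) := map_natCast (cK k) N
  rw [← h]
  intro h0
  exact hN ((map_eq_zero (cK k)).1 h0)

private lemma K2_natCast_ne' (N : ℕ) (hN : (N : k) ≠ 0) : (N : LaurentSeries k) ≠ 0 := by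
  have h : (HahnSeries.C : k →+* LaurentSeries k) (N : k) = (N : LaurentSeries k) :=
    map_natCast (HahnSeries.C : k →+* LaurentSeries k) N
  rw [← h]
  intro h0
  exact hN ((map_eq_zero (HahnSeries.C : k →+* LaurentSeries k)).1 h0)

private lemma K2_C_eq (a : k) :
    (HahnSeries.C a : LaurentSeries k) = HahnSeries.single 0 a := rfl

private lemma K2_single_eq (j : ℤ) (a : k) :
    (HahnSeries.single j a : LaurentSeries k) = HahnSeries.C a * HahnSeries.single 1 1 ^ j := by
  rw [← RatFunc.single_zpow, K2_C_eq, HahnSeries.single_mul_single, zero_add, mul_one]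

private lemma K2_subN_C (N : ℕ) [NeZero N] (a : k) :
    subN k N (HahnSeries.C a) = HahnSeries.C a := by
  rw [K2_C_eq, subN_single, mul_zero]

theorem exists_T (N : ℕ) [NeZero N] (hN : (N : k) ≠ 0) : ∃ T : Ks k, T ^ N = tK k := by
  have : NeZero (N : Ks k) := ⟨K2_natCast_ne N hN⟩
  exact IsSepClosed.exists_pow_nat_eq (tK k) N

/-- an extension generated by an `N`-th root of a nonzero element is separable -/
private lemma K2_sep {F E : Type u} [Field F] [Field E] (j : F →+* E) (N : ℕ)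
    (hN : (N : F) ≠ 0) (t : F) (ht : t ≠ 0) (T : E) (hT : T ^ N = j t)
    (hgen : ∀ x : E, ∃ y : Fin N → F, x = ∑ i : Fin N, T ^ (i : ℕ) * j (y i)) (x : E) :
    ∃ P : Polynomial F, P.Separable ∧ P.eval₂ j x = 0 := by
  let _ : Algebra F E := j.toAlgebra
  have halg : algebraMap F E = j := rfl
  have hsep : IsSeparable F T := by
    have h1 : (Polynomial.X ^ N - Polynomial.C t : Polynomial F).Separable :=
      Polynomial.separable_X_pow_sub_C t hN ht
    have h2 : Polynomial.aeval T (Polynomial.X ^ N - Polynomial.C t : Polynomial F) = 0 := by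
      rw [map_sub, map_pow, Polynomial.aeval_X, Polynomial.aeval_C, halg, hT, sub_self]
    exact h1.of_dvd (minpoly.dvd F T h2)
  have := (IntermediateField.isSeparable_adjoin_simple_iff_isSeparable F E).2 hsep
  have hx : x ∈ IntermediateField.adjoin F {T} := by
    obtain ⟨y, hy⟩ := hgen x
    rw [hy]
    refine sum_mem fun i _ => mul_mem (pow_mem (IntermediateField.mem_adjoin_simple_self F T) _) ?_
    exact (IntermediateField.adjoin F {T}).algebraMap_mem (y i)
  have hxs : IsSeparable F x := IntermediateField.isSeparable_of_mem_isSeparable F E hx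
  refine ⟨minpoly F x, hxs, ?_⟩
  have h3 := minpoly.aeval F x
  rwa [Polynomial.aeval_def, halg] at h3

section Iota

variable {N : ℕ} [NeZero N] {T : Ks k} {ι : LaurentSeries k →+* Ks k}

theorem iota_C (h : ∀ x, ι (subN k N x) = algebraMap (LaurentSeries k) (Ks k) x) (a : k) :
    ι (HahnSeries.C a) = cK k a := by
  rw [← K2_subN_C N a, h, cK_eq]

theorem iota_single (h : ∀ x, ι (subN k N x) = algebraMap (LaurentSeries k) (Ks k) x)
    (hT : ι (HahnSeries.single 1 1) = T) (j : ℤ) (a : k) :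
    ι (HahnSeries.single j a) = cK k a * T ^ j := by
  rw [K2_single_eq, map_mul, iota_C h, map_zpow₀, hT]

private lemma K2_T_pow (h : ∀ x, ι (subN k N x) = algebraMap (LaurentSeries k) (Ks k) x)
    (hT : ι (HahnSeries.single 1 1) = T) : T ^ N = tK k := by
  have h1 := h (HahnSeries.single 1 1)
  rw [subN_single, iota_single h hT, map_one, one_mul, mul_one, zpow_natCast] at h1
  exact h1

end Iota

private lemma K2_T_ne {N : ℕ} [NeZero N] {T : Ks k} (hT : T ^ N = tK k) : T ≠ 0 := by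
  rintro rfl
  rw [zero_pow (NeZero.ne N)] at hT
  exact tK_ne_zero hT.symm

/-- two `N`-th roots of `t` differ by a power of `ζ` -/
private lemma K2_root {N : ℕ} [NeZero N] (ζ : k) (hζ : IsPrimitiveRoot ζ N) {T T' : Ks k}
    (hT : T ^ N = tK k) (hT' : T' ^ N = tK k) : ∃ i : ℕ, T' = cK k ζ ^ i * T := by
  have hT0 := K2_T_ne hT
  have hζ' : IsPrimitiveRoot (cK k ζ) N := hζ.map_of_injective K2_cK_inj
  have h1 : (T' / T) ^ N = 1 := by
    rw [div_pow, hT, hT', div_self tK_ne_zero]
  obtain ⟨i, _, hi⟩ := hζ'.eq_pow_of_pow_eq_one h1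
  refine ⟨i, ?_⟩
  rw [hi, div_mul_cancel₀ _ hT0]

/-- Embed `k((T))` over `k((t))` with `exists_lift` and correct the image of `T` with a rotation;
or define `ι(∑_i T^i y_i(T^N)) = ∑_i T^i y_i(t)` with `exists_decomp`. -/
theorem exists_iota (N : ℕ) [NeZero N] (hN : (N : k) ≠ 0) (ζ : kˣ) (hζ : IsPrimitiveRoot ζ N)
    (T : Ks k) (hT : T ^ N = tK k) :
    ∃ ι : LaurentSeries k →+* Ks k, (∀ x, ι (subN k N x) = algebraMap (LaurentSeries k) (Ks k) x) ∧
      ι (HahnSeries.single 1 1) = T := by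
  have hsep : ∀ x : LaurentSeries k, ∃ P : Polynomial (LaurentSeries k), P.Separable ∧
      P.eval₂ (subN k N) x = 0 := by
    intro x
    refine K2_sep (subN k N) N (K2_natCast_ne' N hN) (HahnSeries.single 1 1) ?_
      (HahnSeries.single 1 1) ?_ ?_ x
    · intro h0
      have := congrArg (fun z : LaurentSeries k => z.coeff 1) h0
      simp at this
    · rw [subN_single, mul_one, ← RatFunc.single_one_eq_pow]
    · intro x
      obtain ⟨y, hy⟩ := exists_decomp N x
      refine ⟨y, ?_⟩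
      rw [hy]
      refine Finset.sum_congr rfl fun i _ => ?_
      rw [← RatFunc.single_one_eq_pow]
  obtain ⟨ι', hι'⟩ := exists_lift (subN k N) (algebraMap (LaurentSeries k) (Ks k)) hsep
  have hT' : (ι' (HahnSeries.single 1 1)) ^ N = tK k := K2_T_pow hι' rfl
  have hζk : IsPrimitiveRoot (ζ : k) N := IsPrimitiveRoot.coe_units_iff.2 hζ
  obtain ⟨i, hi⟩ := K2_root (ζ : k) hζk hT' hT
  have hz : (ζ ^ i) ^ N = 1 := by
    rw [← pow_mul, mul_comm, pow_mul, hζ.pow_eq_one, one_pow]
  refine ⟨ι'.comp (rot (ζ ^ i)), fun x => ?_, ?_⟩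
  · rw [RingHom.comp_apply, rot_subN N _ hz, hι']
  · rw [RingHom.comp_apply, rot_single, iota_single hι' rfl, zpow_one, zpow_one, hi, mul_one,
      Units.val_pow_eq_pow_val, map_pow]

variable {N : ℕ} [NeZero N] {T : Ks k} {ι : LaurentSeries k →+* Ks k}

theorem sigma_iota (h : ∀ x, ι (subN k N x) = algebraMap (LaurentSeries k) (Ks k) x)
    (hT : ι (HahnSeries.single 1 1) = T) (σ : GalK k) (ζ : kˣ) (hσ : σ T = cK k (ζ : k) * T)
    (x : LaurentSeries k) : σ (ι x) = ι (rot ζ x) := by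
  have hTN := K2_T_pow h hT
  have hT0 := K2_T_ne hTN
  have hζ : ζ ^ N = 1 := by
    have h1 : σ (T ^ N) = T ^ N := by
      rw [hTN, sigma_tK]
    rw [map_pow, hσ, mul_pow] at h1
    have h2 : (cK k (ζ : k)) ^ N = 1 := mul_right_cancel₀ (pow_ne_zero N hT0)
      (h1.trans (one_mul _).symm)
    apply Units.ext
    rw [Units.val_pow_eq_pow_val, Units.val_one]
    apply K2_cK_inj
    rw [map_pow, map_one, h2]
  obtain ⟨y, hy⟩ := exists_decomp N x
  rw [hy, map_sum, map_sum, map_sum, map_sum]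
  refine Finset.sum_congr rfl fun i _ => ?_
  rw [map_mul, map_mul, map_mul, map_mul, rot_subN N ζ hζ, h, rot_single, iota_single h hT,
    iota_single h hT, AlgEquiv.commutes, map_mul, map_zpow₀, hσ, map_one, map_one, one_mul,
    mul_one, mul_zpow]
  congr 2
  rw [zpow_natCast, zpow_natCast, Units.val_pow_eq_pow_val, map_pow]

theorem sigma_T (ζ : k) (hζ : IsPrimitiveRoot ζ N) (hT : T ^ N = tK k) (σ : GalK k) :
    ∃ i : ℕ, σ T = cK k ζ ^ i * T := by
  refine K2_root ζ hζ hT ?_
  rw [← map_pow, hT, sigma_tK]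

theorem exists_sigma_T (hN : (N : k) ≠ 0) (ζ : kˣ) (hζ : IsPrimitiveRoot ζ N)
    (hT : T ^ N = tK k) : ∃ σ : GalK k, σ T = cK k (ζ : k) * T := by
  obtain ⟨ι, h, hT'⟩ := exists_iota N hN ζ hζ T hT
  have hτ : ∀ x, (RingEquiv.ofRingHom (rot ζ) (rot ζ⁻¹)
      (by ext1 x; simp [rot_rot, rot_one]) (by ext1 x; simp [rot_rot, rot_one]) :
        LaurentSeries k ≃+* LaurentSeries k) x = rot ζ x := fun x => rfl
  obtain ⟨σ, hσ⟩ := exists_extend (Ω' := Ks k) (subN k N) ι h
    (RingEquiv.ofRingHom (rot ζ) (rot ζ⁻¹)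
      (by ext1 x; simp [rot_rot, rot_one]) (by ext1 x; simp [rot_rot, rot_one]))
    (fun x => by
      rw [hτ, rot_subN N ζ hζ.pow_eq_one])
  refine ⟨σ, ?_⟩
  have h1 := hσ (HahnSeries.single 1 1)
  rw [hT', hτ, rot_single, iota_single h hT', zpow_one, zpow_one, mul_one] at h1
  exact h1

/-- `K(T)` is the fixed field of the automorphisms that fix `T` -/
theorem mem_range_iota (h : ∀ x, ι (subN k N x) = algebraMap (LaurentSeries k) (Ks k) x)
    (hT : ι (HahnSeries.single 1 1) = T) (x : Ks k)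
    (hx : ∀ σ : GalK k, σ T = T → σ x = x) : x ∈ Set.range ι := by
  refine mem_range_of_fixed (subN k N) ι h x fun σ hσ => ?_
  apply hx
  rw [← hT]
  exact hσ _

end

end Pool.Agent.WG
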