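import Pool.Agent.WG.K2

/-! # The integral closure of `k[[t]]` is local (piece WG-M1) -/

namespace Pool.Agent.WG

open Polynomial Pool.Agent.WD

noncomputable section

universe u

section general

variable {A B : Type*} [CommRing A] (I : Ideal A)

private theorem M1_precomplete [AddCommGroup B] [Module A B] [IsPrecomplete I A] {ι : Type*}
    [Finite ι] (b : Module.Basis ι A B) : IsPrecomplete I B := by
  classical
  have := Fintype.ofFinite ι
  refine ⟨fun f hf => ?_⟩
  have h1 : ∀ i, ∃ l : A, ∀ n, b.coord i (f n) ≡ l [SMOD (I ^ n • ⊤ : Ideal A)] := by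
    intro i
    refine IsPrecomplete.prec' _ fun {m n} hmn => ?_
    refine ((hf hmn).map (b.coord i)).mono ?_
    rw [Submodule.map_smul'']
    exact Submodule.smul_mono le_rfl le_top
  choose l hl using h1
  refine ⟨∑ i, l i • b i, fun n => ?_⟩
  rw [SModEq.sub_mem]
  have h2 : f n - ∑ i, l i • b i = ∑ i, (b.coord i (f n) - l i) • b i := by
    simp only [sub_smul, Finset.sum_sub_distrib, Module.Basis.coord_apply, b.sum_repr]
  rw [h2]
  refine Submodule.sum_mem _ fun i _ => Submodule.smul_mem_smul ?_ trivial
  have h3 := hl i n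
  rw [SModEq.sub_mem, ← Ideal.one_eq_top, Ideal.smul_eq_mul, mul_one] at h3
  exact h3

private theorem M1_hausdorff [AddCommGroup B] [Module A B] [IsHausdorff I A] {ι : Type*}
    (b : Module.Basis ι A B) : IsHausdorff I B := by
  refine ⟨fun x hx => ?_⟩
  have h1 : ∀ i, b.coord i x = 0 := by
    intro i
    refine IsHausdorff.haus' (I := I) _ fun n => ?_
    have h2 := (hx n).map (b.coord i)
    rw [map_zero] at h2
    refine h2.mono ?_
    rw [Submodule.map_smul'']
    exact Submodule.smul_mono le_rfl le_top
  exact b.ext_elem fun i => by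
    have := h1 i
    rw [Module.Basis.coord_apply] at this
    rw [this, map_zero, Finsupp.zero_apply]

end general

/-- a domain which is complete for `J` is local, if every element of the quotient by `J`
is a root of a nonzero polynomial over a field -/
private theorem M1_local {k B : Type*} [Field k] [CommRing B] [IsDomain B] (J : Ideal B)
    [IsAdicComplete J B] (φ : k →+* B ⧸ J)
    (hφ : ∀ b : B, ∃ P : k[X], P ≠ 0 ∧ P.eval₂ φ (Ideal.Quotient.mk J b) = 0) :
    IsLocalRing B := by
  have hloc := isLocalHom_of_le_jacobson_bot J (IsAdicComplete.le_jacobson_bot J)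
  refine IsLocalRing.of_isUnit_or_isUnit_one_sub_self fun b => ?_
  set β := Ideal.Quotient.mk J b with hβ
  suffices h : IsUnit β ∨ IsUnit (1 - β) by
    rcases h with h | h
    · exact Or.inl (IsUnit.of_map (Ideal.Quotient.mk J) b h)
    · right
      refine IsUnit.of_map (Ideal.Quotient.mk J) (1 - b) ?_
      rw [map_sub, map_one]
      exact h
  obtain ⟨P, hP, hP0⟩ := hφ b
  obtain ⟨Q, hQ, hQ'⟩ := exists_eq_pow_rootMultiplicity_mul_and_not_dvd P hP 0
  set n := rootMultiplicity 0 P with hn
  rw [C_0, sub_zero] at hQ hQ'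
  rw [X_dvd_iff] at hQ'
  have h1 : β ^ n * (Q.divX.eval₂ φ β * β + φ (Q.coeff 0)) = 0 := by
    have h2 := hP0
    rw [hQ, ← Q.divX_mul_X_add, eval₂_mul, eval₂_pow, eval₂_X, eval₂_add, eval₂_mul, eval₂_X,
      eval₂_C] at h2
    exact h2
  obtain ⟨y, hy⟩ : ∃ y, β ^ (n + 1) * y = β ^ n := by
    refine ⟨-(Q.divX.eval₂ φ β) * φ (Q.coeff 0)⁻¹, ?_⟩
    have h2 : φ (Q.coeff 0) * φ (Q.coeff 0)⁻¹ = 1 := by
      rw [← map_mul, mul_inv_cancel₀ hQ', map_one]
    linear_combination (-φ (Q.coeff 0)⁻¹) * h1 + β ^ n * h2
  have h2 : ∀ j : ℕ, β ^ (n + j) * y ^ j = β ^ n := by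
    intro j
    induction j with
    | zero => simp
    | succ j ih =>
      calc β ^ (n + (j + 1)) * y ^ (j + 1) = (β ^ (n + 1) * y) * β ^ j * y ^ j := by ring
        _ = β ^ (n + j) * y ^ j := by rw [hy]; ring
        _ = β ^ n := ih
  set e := β ^ n * y ^ n with he
  have hee : e * e = e := by
    calc e * e = (β ^ (n + n) * y ^ n) * y ^ n := by rw [he]; ring
      _ = e := by rw [h2]
  obtain ⟨a₀, ha₀⟩ := Ideal.Quotient.mk_surjective e
  obtain ⟨a, ha, haJ⟩ := HenselianRing.is_henselian (I := J) (X ^ 2 - X : B[X])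
    (monic_X_pow_sub (by rw [degree_X]; norm_num)) a₀
    (by
      rw [← Ideal.Quotient.eq_zero_iff_mem, eval_sub, eval_pow, eval_X, map_sub, map_pow, ha₀,
        pow_two, hee, sub_self])
    (by
      have h3 : (derivative (X ^ 2 - X : B[X])).eval a₀ = 2 * a₀ - 1 := by
        simp only [derivative_sub, derivative_X_pow, derivative_X, eval_sub, eval_mul, eval_C,
          eval_pow, eval_X, eval_one]
        norm_num
      rw [h3, map_sub, map_mul, map_one, ha₀, map_ofNat]
      refine IsUnit.of_mul_eq_one (2 * e - 1) ?_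
      linear_combination 4 * hee)
  have ha2 : a = 0 ∨ a = 1 := by
    rw [IsRoot.def, eval_sub, eval_pow, eval_X] at ha
    have h3 : a * (a - 1) = 0 := by linear_combination ha
    rcases mul_eq_zero.1 h3 with h | h
    · exact Or.inl h
    · exact Or.inr (sub_eq_zero.1 h)
  have hae : Ideal.Quotient.mk J a = e := by
    rw [← ha₀]
    exact Ideal.Quotient.eq.2 haJ
  rcases ha2 with rfl | rfl
  · right
    rw [map_zero] at hae
    refine IsNilpotent.isUnit_one_sub ⟨n, ?_⟩
    calc β ^ n = β ^ (n + n) * y ^ n := (h2 n).symm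
      _ = β ^ n * (β ^ n * y ^ n) := by ring
      _ = 0 := by rw [← he, ← hae, mul_zero]
  · left
    rw [map_one] at hae
    by_cases hn0 : n = 0
    · rw [hn0] at hy
      rw [zero_add, pow_one, pow_zero] at hy
      exact IsUnit.of_mul_eq_one _ hy
    · rw [← isUnit_pow_iff hn0]
      exact IsUnit.of_mul_eq_one (y ^ n) hae.symm

variable {k : Type u} [Field k] {M : Type u} [Field M] [Algebra (LaurentSeries k) M]
  [Algebra (PowerSeries k) M] [IsScalarTower (PowerSeries k) (LaurentSeries k) M]
  [FiniteDimensional (LaurentSeries k) M] [Algebra.IsSeparable (LaurentSeries k) M]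

/-- WG-M1: the integral closure `B` of `k[[t]]` in `M` is local: it is a finite free
`k[[t]]`-module, hence `t`-adically complete, so that idempotents of `B / t B` lift to the domain
`B` (the polynomial `X^2 - X`, `HenselianRing`); so `B / t B` is a connected Artinian ring. -/
theorem isLocalRing_B : IsLocalRing (integralClosure (PowerSeries k) M) := by
  have htf : Module.IsTorsionFree (PowerSeries k) M :=
    .trans_faithfulSMul (PowerSeries k) (LaurentSeries k) M
  have hfin : Module.Finite (PowerSeries k) (integralClosure (PowerSeries k) M) :=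
    IsIntegralClosure.finite (PowerSeries k) (LaurentSeries k) M _
  have hfree : Module.Free (PowerSeries k) (integralClosure (PowerSeries k) M) :=
    IsIntegralClosure.module_free (PowerSeries k) (LaurentSeries k) M _
  have b := Module.Free.chooseBasis (PowerSeries k) (integralClosure (PowerSeries k) M)
  have h1 := M1_precomplete (Ideal.span {(PowerSeries.X : PowerSeries k)}) b
  have h2 := M1_hausdorff (Ideal.span {(PowerSeries.X : PowerSeries k)}) b
  have h3 : IsAdicComplete (Ideal.span {(PowerSeries.X : PowerSeries k)})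
    (integralClosure (PowerSeries k) M) := { h2, h1 with }
  have h4 := (IsAdicComplete.map_algebraMap_iff (S := integralClosure (PowerSeries k) M)
    (Ideal.span {(PowerSeries.X : PowerSeries k)}) (integralClosure (PowerSeries k) M)).2 h3
  set J := (Ideal.span {(PowerSeries.X : PowerSeries k)}).map
    (algebraMap (PowerSeries k) (integralClosure (PowerSeries k) M)) with hJ
  refine M1_local J ((Ideal.Quotient.mk J).comp ((algebraMap (PowerSeries k)
    (integralClosure (PowerSeries k) M)).comp (PowerSeries.C))) fun x => ?_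
  obtain ⟨P, hP, hPx⟩ : IsIntegral (PowerSeries k) x := Algebra.IsIntegral.isIntegral x
  refine ⟨P.map PowerSeries.constantCoeff, (hP.map _).ne_zero, ?_⟩
  rw [eval₂_map]
  have h5 : ((Ideal.Quotient.mk J).comp ((algebraMap (PowerSeries k)
      (integralClosure (PowerSeries k) M)).comp (PowerSeries.C))).comp
        PowerSeries.constantCoeff = (Ideal.Quotient.mk J).comp (algebraMap (PowerSeries k)
      (integralClosure (PowerSeries k) M)) := by
    ext1 a
    simp only [RingHom.comp_apply]
    rw [Ideal.Quotient.eq, ← map_sub]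
    refine Ideal.mem_map_of_mem _ ?_
    rw [Ideal.mem_span_singleton, PowerSeries.X_dvd_iff]
    simp
  rw [h5, ← hom_eval₂, hPx, map_zero]

end

end Pool.Agent.WG
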