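import Pool.Agent.WG.M1

/-! # Total ramification (piece WG-M2) -/

namespace Pool.Agent.WG

open Polynomial Pool.Agent.WD

noncomputable section

universe u

private theorem M2_inertia {A B : Type*} [CommRing A] [IsLocalRing A] [CommRing B]
    [IsLocalRing B] [Algebra A B]
    [(IsLocalRing.maximalIdeal B).LiesOver (IsLocalRing.maximalIdeal A)]
    (h : ∀ x : B, ∃ a : A, x - algebraMap A B a ∈ IsLocalRing.maximalIdeal B) :
    Ideal.inertiaDeg' (IsLocalRing.maximalIdeal A) (IsLocalRing.maximalIdeal B) = 1 := by
  rw [Ideal.inertiaDeg'_algebraMap]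
  let _ := Ideal.Quotient.field (IsLocalRing.maximalIdeal A)
  have hnt' : Nontrivial (B ⧸ IsLocalRing.maximalIdeal B) :=
    Ideal.Quotient.nontrivial_iff.2 Ideal.IsPrime.ne_top'
  have hnt : (1 : B ⧸ IsLocalRing.maximalIdeal B) ≠ 0 := one_ne_zero
  refine (finrank_eq_one_iff_of_nonzero' (K := A ⧸ IsLocalRing.maximalIdeal A) _ hnt).2
    fun y => ?_
  obtain ⟨x, rfl⟩ := Ideal.Quotient.mk_surjective y
  obtain ⟨a, ha⟩ := h x
  refine ⟨Ideal.Quotient.mk _ a, ?_⟩
  rw [Algebra.smul_def, mul_one, Ideal.Quotient.algebraMap_mk_of_liesOver]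
  symm
  rw [Ideal.Quotient.eq]
  exact ha

variable {k : Type u} [Field k] {M : Type u} [Field M] [Algebra (LaurentSeries k) M]
  [Algebra (PowerSeries k) M] [IsScalarTower (PowerSeries k) (LaurentSeries k) M]
  [FiniteDimensional (LaurentSeries k) M] [Algebra.IsSeparable (LaurentSeries k) M]

omit [FiniteDimensional (LaurentSeries k) M] [Algebra.IsSeparable (LaurentSeries k) M] in
private theorem M2_faithful :
    FaithfulSMul (PowerSeries k) (integralClosure (PowerSeries k) M) := by
  rw [faithfulSMul_iff_algebraMap_injective]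
  intro a b hab
  have h1 : algebraMap (PowerSeries k) M a = algebraMap (PowerSeries k) M b := by
    have h2 := congrArg (algebraMap (integralClosure (PowerSeries k) M) M) hab
    rwa [← IsScalarTower.algebraMap_apply, ← IsScalarTower.algebraMap_apply] at h2
  rw [IsScalarTower.algebraMap_apply (PowerSeries k) (LaurentSeries k) M,
    IsScalarTower.algebraMap_apply (PowerSeries k) (LaurentSeries k) M] at h1
  exact IsFractionRing.injective (PowerSeries k) (LaurentSeries k)
    ((algebraMap (LaurentSeries k) M).injective h1)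

omit [FiniteDimensional (LaurentSeries k) M] [Algebra.IsSeparable (LaurentSeries k) M] in
private theorem M2_X_not_isUnit :
    ¬ IsUnit (algebraMap (PowerSeries k) (integralClosure (PowerSeries k) M) PowerSeries.X) := by
  intro h
  have := M2_faithful (k := k) (M := M)
  have h1 : IsUnit (PowerSeries.X : PowerSeries k) := isUnit_of_map_unit (algebraMap (PowerSeries k)
    (integralClosure (PowerSeries k) M)) _ h
  exact PowerSeries.X_prime.not_isUnit h1

/-- WG-M2: the residue field of `B` is `k`  -/
theorem exists_residue [IsAlgClosed k] (x : integralClosure (PowerSeries k) M) :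
    ∃ a : k, ¬ IsUnit (x - algebraMap (PowerSeries k) (integralClosure (PowerSeries k) M)
      (PowerSeries.C a)) := by
  have hloc := isLocalRing_B (k := k) (M := M)
  set res := IsLocalRing.residue (integralClosure (PowerSeries k) M) with hres
  have hX : res (algebraMap (PowerSeries k) (integralClosure (PowerSeries k) M)
      PowerSeries.X) = 0 := by
    rw [hres, IsLocalRing.residue_eq_zero_iff, IsLocalRing.mem_maximalIdeal]
    exact M2_X_not_isUnit
  set φ : k →+* IsLocalRing.ResidueField (integralClosure (PowerSeries k) M) :=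
    (res.comp (algebraMap (PowerSeries k) (integralClosure (PowerSeries k) M))).comp
      (PowerSeries.C) with hφ
  have hc : φ.comp PowerSeries.constantCoeff =
      res.comp (algebraMap (PowerSeries k) (integralClosure (PowerSeries k) M)) := by
    ext1 a
    simp only [hφ, RingHom.comp_apply]
    have h1 : PowerSeries.X ∣ a - PowerSeries.C (PowerSeries.constantCoeff a) := by
      rw [PowerSeries.X_dvd_iff]
      simp
    obtain ⟨c, hc⟩ := h1
    have h2 : a = PowerSeries.C (PowerSeries.constantCoeff a) + PowerSeries.X * c := by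
      rw [← hc]; ring
    conv_rhs => rw [h2]
    rw [map_add, map_mul, map_add, map_mul, hX, zero_mul, add_zero]
  obtain ⟨P, hP, hPx⟩ : IsIntegral (PowerSeries k) x := Algebra.IsIntegral.isIntegral x
  have h1 : (P.map PowerSeries.constantCoeff).eval₂ φ (res x) = 0 := by
    rw [eval₂_map, hc, ← hom_eval₂, hPx, map_zero]
  have h2 : (P.map PowerSeries.constantCoeff).Monic := hP.map _
  have h3 : (P.map PowerSeries.constantCoeff) =
      ((P.map PowerSeries.constantCoeff).roots.map fun a => X - C a).prod := by
    exact (IsAlgClosed.splits (P.map PowerSeries.constantCoeff)).eq_prod_roots_of_monic h2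
  rw [h3, ← coe_eval₂RingHom, map_multiset_prod, Multiset.prod_eq_zero_iff, Multiset.map_map,
    Multiset.mem_map] at h1
  obtain ⟨a, -, ha⟩ := h1
  refine ⟨a, ?_⟩
  rw [Function.comp_apply, coe_eval₂RingHom, eval₂_sub, eval₂_X, eval₂_C] at ha
  have h4 : res (x - algebraMap (PowerSeries k) (integralClosure (PowerSeries k) M)
      (PowerSeries.C a)) = 0 := by
    rw [map_sub]
    exact ha
  rw [hres, IsLocalRing.residue_eq_zero_iff, IsLocalRing.mem_maximalIdeal] at h4
  exact h4

/-- WG-M3: `B` is a discrete valuation ring and `t = u ϖ^n`, `n = [M : K]`: `B / t B` has the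
dimension `n` over `k`, and `ϖ^i B / ϖ^(i+1) B` the dimension `1`. -/
theorem exists_uniformizer [IsAlgClosed k] :
    ∃ (ϖ : integralClosure (PowerSeries k) M) (v : (integralClosure (PowerSeries k) M)ˣ),
      Irreducible ϖ ∧
      algebraMap (PowerSeries k) (integralClosure (PowerSeries k) M) PowerSeries.X =
        v * ϖ ^ Module.finrank (LaurentSeries k) M := by
  have hloc := isLocalRing_B (k := k) (M := M)
  have hfaith := M2_faithful (k := k) (M := M)
  have htf : Module.IsTorsionFree (PowerSeries k) M :=
    .trans_faithfulSMul (PowerSeries k) (LaurentSeries k) M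
  have hfin : Module.Finite (PowerSeries k) (integralClosure (PowerSeries k) M) :=
    IsIntegralClosure.finite (PowerSeries k) (LaurentSeries k) M _
  have hded : IsDedekindDomain (integralClosure (PowerSeries k) M) :=
    integralClosure.isDedekindDomain (PowerSeries k) (LaurentSeries k) M
  have hfr : IsFractionRing (integralClosure (PowerSeries k) M) M :=
    integralClosure.isFractionRing_of_finite_extension (LaurentSeries k) M
  have hX := M2_X_not_isUnit (k := k) (M := M)
  have hX0 : algebraMap (PowerSeries k) (integralClosure (PowerSeries k) M) PowerSeries.X ≠ 0 := by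
    rw [Ne, map_eq_zero_iff _ (FaithfulSMul.algebraMap_injective _ _)]
    exact PowerSeries.X_ne_zero
  have hnf : ¬ IsField (integralClosure (PowerSeries k) M) := by
    intro hf
    obtain ⟨y, hy⟩ := hf.mul_inv_cancel hX0
    exact hX (IsUnit.of_mul_eq_one _ hy)
  have hdvr : IsDiscreteValuationRing (integralClosure (PowerSeries k) M) :=
    ((IsDiscreteValuationRing.TFAE _ hnf).out 0 2).2 hded
  obtain ⟨ϖ, hϖ⟩ := IsDiscreteValuationRing.exists_irreducible
    (integralClosure (PowerSeries k) M)
  obtain ⟨n, hn⟩ := IsDiscreteValuationRing.associated_pow_irreducible hX0 hϖ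
  have hmax : IsLocalRing.maximalIdeal (integralClosure (PowerSeries k) M) = Ideal.span {ϖ} :=
    (IsDiscreteValuationRing.irreducible_iff_uniformizer ϖ).1 hϖ
  have hp0 : IsLocalRing.maximalIdeal (PowerSeries k) ≠ ⊥ := by
    rw [PowerSeries.maximalIdeal_eq_span_X, Ne, Ideal.span_singleton_eq_bot]
    exact PowerSeries.X_ne_zero
  have hover : (IsLocalRing.maximalIdeal (integralClosure (PowerSeries k) M)).LiesOver
      (IsLocalRing.maximalIdeal (PowerSeries k)) := by
    refine ⟨?_⟩
    have h1 := (IsLocalRing.local_hom_TFAE (algebraMap (PowerSeries k)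
      (integralClosure (PowerSeries k) M))).out 0 4
    exact (h1.1 inferInstance).symm
  have hmap : Ideal.map (algebraMap (PowerSeries k) (integralClosure (PowerSeries k) M))
      (IsLocalRing.maximalIdeal (PowerSeries k)) =
      IsLocalRing.maximalIdeal (integralClosure (PowerSeries k) M) ^ n := by
    rw [PowerSeries.maximalIdeal_eq_span_X, Ideal.map_span, Set.image_singleton, hmax,
      Ideal.span_singleton_pow]
    exact Ideal.span_singleton_eq_span_singleton.2 hn
  have hram : Ideal.ramificationIdx' (IsLocalRing.maximalIdeal (PowerSeries k))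
      (IsLocalRing.maximalIdeal (integralClosure (PowerSeries k) M)) = n := by
    refine Ideal.ramificationIdx'_spec hmap.le ?_
    rw [hmap]
    intro hle
    have h1 : ϖ ^ n ∈ IsLocalRing.maximalIdeal (integralClosure (PowerSeries k) M) ^ (n + 1) := by
      refine hle ?_
      rw [hmax]
      exact Ideal.pow_mem_pow (Ideal.mem_span_singleton_self ϖ) n
    rw [hmax, Ideal.span_singleton_pow, Ideal.mem_span_singleton] at h1
    obtain ⟨c, hc⟩ := h1
    have h2 : ϖ ^ n * (ϖ * c) = ϖ ^ n * 1 := by rw [mul_one]; conv_rhs => rw [hc]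
                                                ring
    have h3 := mul_left_cancel₀ (pow_ne_zero n hϖ.ne_zero) h2
    exact hϖ.not_isUnit (IsUnit.of_mul_eq_one _ h3)
  have hin : Ideal.inertiaDeg' (IsLocalRing.maximalIdeal (PowerSeries k))
      (IsLocalRing.maximalIdeal (integralClosure (PowerSeries k) M)) = 1 := by
    refine M2_inertia fun x => ?_
    obtain ⟨a, ha⟩ := exists_residue x
    exact ⟨PowerSeries.C a, (IsLocalRing.mem_maximalIdeal _).2 ha⟩
  have hfund := Ideal.ramificationIdx_mul_inertiaDeg_of_isLocalRing
    (integralClosure (PowerSeries k) M) (LaurentSeries k) M hp0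
  rw [hram, hin, mul_one] at hfund
  obtain ⟨v, hv⟩ := hn.symm
  refine ⟨ϖ, v, hϖ, ?_⟩
  rw [← hfund, ← hv, mul_comm]

end

end Pool.Agent.WG
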