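import Pool.Agent.WG.Num
import Pool.Agent.WC.N1

/-! # Numbers: the function `cnt` (piece WG-N1) -/

namespace Pool.Agent.WG

open Polynomial Pool.Agent.WD Pool.Agent.WC

/-- the numbers `≡ v` modulo `M` up to `J` -/
private def N1_C (M v J : ℕ) : ℕ := ((Finset.Ioc 0 J).filter fun j => j ≡ v [MOD M]).card

private theorem N1_C_eq {M : ℕ} (hM : 0 < M) (v J : ℕ) :
    (N1_C M v J : ℤ) = ⌊((J : ℚ) - v) / (M : ℚ)⌋ - ⌊((0 : ℚ) - v) / (M : ℚ)⌋ := by
  have h := Nat.Ioc_filter_modEq_card 0 J hM v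
  unfold N1_C
  rw [h, max_eq_left]
  · simp
  · rw [sub_nonneg]
    apply Int.floor_le_floor
    have hM' : (0 : ℚ) < M := by exact_mod_cast hM
    have hJ : (0 : ℚ) ≤ J := by positivity
    have h0 : ((0 : ℕ) : ℚ) = 0 := Nat.cast_zero
    rw [h0]
    exact div_le_div_of_nonneg_right (by linarith) hM'.le

private theorem N1_C_add {M : ℕ} (hM : 0 < M) (v J t : ℕ) :
    N1_C M v (J + M * t) = N1_C M v J + t := by
  have h1 := N1_C_eq hM v (J + M * t)
  have h2 := N1_C_eq hM v J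
  have hM' : (M : ℚ) ≠ 0 := by exact_mod_cast hM.ne'
  have h3 : (((J + M * t : ℕ) : ℚ) - v) / (M : ℚ) = ((J : ℚ) - v) / M + (t : ℕ) := by
    push_cast
    field_simp
    ring
  rw [h3, Int.floor_add_natCast] at h1
  omega

private theorem N1_cnt (p N κ J : ℕ) :
    cnt p N κ J = ((Finset.Ioc 0 J).filter fun j => j ≡ κ [MOD N] ∧ ¬ p ∣ j).card := by
  unfold cnt
  congr 1
  ext j
  simp only [Finset.mem_filter, Finset.mem_range, Finset.mem_Ioc]
  constructor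
  · rintro ⟨h1, h2, h3, h4⟩
    exact ⟨⟨h2, by omega⟩, h3, h4⟩
  · rintro ⟨⟨h1, h2⟩, h3, h4⟩
    exact ⟨by omega, h1, h3, h4⟩

private theorem N1_split (p N κ J : ℕ) :
    cnt p N κ J + ((Finset.Ioc 0 J).filter fun j => j ≡ κ [MOD N] ∧ p ∣ j).card =
      N1_C N κ J := by
  rw [N1_cnt]
  unfold N1_C
  rw [← Finset.filter_filter, ← Finset.filter_filter, add_comm]
  exact Finset.card_filter_add_card_filter_not _

private theorem N1_crt {p N : ℕ} (hp : p.Prime) (hpN : ¬ p ∣ N) (κ : ℕ) :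
    ∃ κ' : ℕ, ∀ J, cnt p N κ J + N1_C (N * p) κ' J = N1_C N κ J := by
  have hco : Nat.Coprime N p := ((hp.coprime_iff_not_dvd).2 hpN).symm
  let κ' := Nat.chineseRemainder hco κ 0
  refine ⟨κ'.1, fun J => ?_⟩
  rw [← N1_split p N κ J]
  congr 1
  unfold N1_C
  congr 1
  ext j
  simp only [Finset.mem_filter]
  refine and_congr_right fun _ => ?_
  rw [← Nat.modEq_and_modEq_iff_modEq_mul hco]
  constructor
  · rintro ⟨h1, h2⟩
    exact ⟨h1.trans κ'.2.1, Nat.modEq_zero_iff_dvd.1 (h2.trans κ'.2.2)⟩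
  · rintro ⟨h1, h2⟩
    exact ⟨h1.trans κ'.2.1.symm,
      (Nat.modEq_zero_iff_dvd.2 h2).trans κ'.2.2.symm⟩

/-- adding a multiple of `N p` -/
theorem cnt_add {p N κ : ℕ} (hp : p.Prime) (hN : 0 < N) (hpN : ¬ p ∣ N) (J m : ℕ) :
    cnt p N κ (J + N * p * m) = cnt p N κ J + (p - 1) * m := by
  obtain ⟨κ', h⟩ := N1_crt hp hpN κ
  have h1 := h (J + N * p * m)
  have h2 := h J
  rw [N1_C_add (Nat.mul_pos hN hp.pos)] at h1
  rw [mul_assoc, N1_C_add hN, ← mul_assoc] at h1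
  have h3 : p * m = (p - 1) * m + m := by
    obtain ⟨q, hq⟩ := Nat.exists_eq_add_of_le hp.one_lt.le
    rw [hq, Nat.add_sub_cancel_left]
    ring
  omega

theorem cnt_mono (p N κ : ℕ) : Monotone (cnt p N κ) := by
  intro a b hab
  unfold cnt
  apply Finset.card_le_card
  apply Finset.filter_subset_filter
  intro x hx
  rw [Finset.mem_range] at hx ⊢
  omega

theorem cnt_pos {p N κ J : ℕ} (h : J ≡ κ [MOD N]) (h1 : ¬ p ∣ J) (h2 : 0 < J) :
    0 < cnt p N κ J := by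
  unfold cnt
  rw [Finset.card_pos]
  refine ⟨J, ?_⟩
  rw [Finset.mem_filter, Finset.mem_range]
  exact ⟨Nat.lt_succ_self J, h2, h, h1⟩

private theorem N1_dk {N κ : ℕ} (hN : 0 < N) : dk N κ + κ ≡ 0 [MOD N] := by
  unfold dk
  have h1 : κ % N < N := Nat.mod_lt _ hN
  have h2 : (N - κ % N) % N + κ ≡ (N - κ % N) + κ % N [MOD N] :=
    (Nat.mod_modEq _ _).add (Nat.mod_modEq κ N).symm
  refine h2.trans ?_
  rw [Nat.sub_add_cancel h1.le]
  exact Nat.modEq_zero_iff_dvd.2 (dvd_refl N)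

/-- the reflection: `j ↦ M - j` maps `{0 < j ≤ J, j ≡ κ, p ∤ j}` to
`{M - J ≤ j < M, j ≡ -κ, p ∤ j}`, `M = N p m`. -/
theorem cnt_refl {p N κ : ℕ} (hp : p.Prime) (hN : 0 < N) (hpN : ¬ p ∣ N) {J m : ℕ}
    (hJ : J ≡ κ [MOD N]) (hpJ : ¬ p ∣ J) (hJ0 : 0 < J) (hJm : J < N * p * m) :
    cnt p N (dk N κ) (N * p * m - J) + cnt p N κ J = (p - 1) * m + 1 := by
  have hNM : N ∣ N * p * m := ⟨p * m, by ring⟩
  have hpM : p ∣ N * p * m := ⟨N * m, by ring⟩
  have htot := cnt_add (κ := κ) hp hN hpN 0 m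
  rw [zero_add] at htot
  have h0 : cnt p N κ 0 = 0 := by
    rw [N1_cnt]
    simp
  rw [h0, zero_add] at htot
  generalize N * p * m = M at hJm hNM hpM htot ⊢
  have h1 : cnt p N (dk N κ) (M - J) =
      ((Finset.Ico J M).filter fun j => j ≡ κ [MOD N] ∧ ¬ p ∣ j).card := by
    rw [N1_cnt]
    apply Finset.card_bij (fun j _ => M - j)
    · intro j hj
      rw [Finset.mem_filter, Finset.mem_Ioc] at hj
      obtain ⟨⟨h1, h2⟩, h3, h4⟩ := hj
      rw [Finset.mem_filter, Finset.mem_Ico]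
      refine ⟨⟨by omega, by omega⟩, ?_, ?_⟩
      · have h5 : (M - j) + j ≡ κ + j [MOD N] := by
          rw [Nat.sub_add_cancel (by omega)]
          have h6 : κ + j ≡ 0 [MOD N] := by
            have := (h3.add_right κ).trans (N1_dk hN)
            rwa [add_comm] at this
          exact (Nat.modEq_zero_iff_dvd.2 hNM).trans h6.symm
        exact Nat.ModEq.add_right_cancel' j h5
      · intro h5
        apply h4
        have h6 : M = (M - j) + j := by omega
        rw [h6] at hpM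
        exact (Nat.dvd_add_right h5).1 hpM
    · intro a ha b hb hab
      rw [Finset.mem_filter, Finset.mem_Ioc] at ha hb
      change M - a = M - b at hab
      omega
    · intro j hj
      rw [Finset.mem_filter, Finset.mem_Ico] at hj
      obtain ⟨⟨h1, h2⟩, h3, h4⟩ := hj
      refine ⟨M - j, ?_, by omega⟩
      rw [Finset.mem_filter, Finset.mem_Ioc]
      refine ⟨⟨by omega, by omega⟩, ?_, ?_⟩
      · have h5 : (M - j) + j ≡ dk N κ + j [MOD N] := by
          rw [Nat.sub_add_cancel (by omega)]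
          exact (Nat.modEq_zero_iff_dvd.2 hNM).trans (((h3.add_left _).trans (N1_dk hN)).symm)
        exact Nat.ModEq.add_right_cancel' j h5
      · intro h5
        apply h4
        have h6 : M = (M - j) + j := by omega
        rw [h6] at hpM
        exact (Nat.dvd_add_right h5).1 hpM
  rw [h1]
  rw [N1_cnt] at htot ⊢
  have h2 : ((Finset.Ioc 0 M).filter fun j => j ≡ κ [MOD N] ∧ ¬ p ∣ j) =
      ((Finset.Ioc 0 J).filter fun j => j ≡ κ [MOD N] ∧ ¬ p ∣ j) ∪
        ((Finset.Ioo J M).filter fun j => j ≡ κ [MOD N] ∧ ¬ p ∣ j) := by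
    ext j
    simp only [Finset.mem_filter, Finset.mem_union, Finset.mem_Ioc, Finset.mem_Ioo]
    constructor
    · rintro ⟨⟨h2, h3⟩, h4⟩
      rcases lt_or_ge J j with h5 | h5
      · right
        refine ⟨⟨h5, lt_of_le_of_ne h3 ?_⟩, h4⟩
        rintro rfl
        exact h4.2 hpM
      · exact Or.inl ⟨⟨h2, h5⟩, h4⟩
    · rintro (⟨⟨h2, h3⟩, h4⟩ | ⟨⟨h2, h3⟩, h4⟩)
      · exact ⟨⟨h2, by omega⟩, h4⟩
      · exact ⟨⟨by omega, by omega⟩, h4⟩
  have h3 : ((Finset.Ico J M).filter fun j => j ≡ κ [MOD N] ∧ ¬ p ∣ j) =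
      insert J ((Finset.Ioo J M).filter fun j => j ≡ κ [MOD N] ∧ ¬ p ∣ j) := by
    ext j
    simp only [Finset.mem_filter, Finset.mem_insert, Finset.mem_Ico, Finset.mem_Ioo]
    constructor
    · rintro ⟨⟨h2, h3⟩, h4⟩
      rcases eq_or_lt_of_le h2 with h5 | h5
      · exact Or.inl h5.symm
      · exact Or.inr ⟨⟨h5, h3⟩, h4⟩
    · rintro (rfl | ⟨⟨h2, h3⟩, h4⟩)
      · exact ⟨⟨le_refl _, hJm⟩, hJ, hpJ⟩
      · exact ⟨⟨by omega, h3⟩, h4⟩
  rw [h2, Finset.card_union_of_disjoint] at htot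
  · rw [h3, Finset.card_insert_of_notMem]
    · omega
    · simp
  · rw [Finset.disjoint_left]
    intro j hj hj'
    rw [Finset.mem_filter, Finset.mem_Ioc] at hj
    rw [Finset.mem_filter, Finset.mem_Ioo] at hj'
    omega

private theorem N1_pk {p N κ u : ℕ} (hp : 1 ≤ p) (hκ : N ∣ (p - 1) * κ) (hu : u ≡ κ [MOD N]) :
    p * u ≡ κ [MOD N] := by
  have h1 : p * κ = (p - 1) * κ + κ := by
    obtain ⟨q, rfl⟩ := Nat.exists_eq_add_of_le hp
    rw [Nat.add_sub_cancel_left]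
    ring
  refine (hu.mul_left p).trans ?_
  rw [h1]
  have := (Nat.modEq_zero_iff_dvd.2 hκ).add_right κ
  rwa [zero_add] at this

/-- `cnt(p u)` for `u ≡ κ` -/
theorem cnt_mul {p N κ : ℕ} (hp : p.Prime) (hN : 0 < N) (hpN : ¬ p ∣ N) (hκ : N ∣ (p - 1) * κ)
    {u : ℕ} (hu : u ≡ κ [MOD N]) : N * cnt p N κ (p * u) = (p - 1) * u := by
  have hco : Nat.Coprime N p := ((hp.coprime_iff_not_dvd).2 hpN).symm
  have hd : N ∣ (p - 1) * u := by
    rw [← Nat.modEq_zero_iff_dvd]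
    exact (hu.mul_left (p - 1)).trans (Nat.modEq_zero_iff_dvd.2 hκ)
  obtain ⟨t, ht⟩ := hd
  have h1 : p * u = u + N * t := by
    rw [← ht]
    obtain ⟨q, hq⟩ := Nat.exists_eq_add_of_le hp.one_lt.le
    rw [hq, Nat.add_sub_cancel_left]
    ring
  have h2 := N1_split p N κ (p * u)
  have h3 : ((Finset.Ioc 0 (p * u)).filter fun j => j ≡ κ [MOD N] ∧ p ∣ j).card =
      N1_C N κ u := by
    unfold N1_C
    symm
    apply Finset.card_bij (fun j _ => p * j)
    · intro j hj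
      rw [Finset.mem_filter, Finset.mem_Ioc] at hj
      rw [Finset.mem_filter, Finset.mem_Ioc]
      exact ⟨⟨Nat.mul_pos hp.pos hj.1.1, Nat.mul_le_mul_left p hj.1.2⟩,
        N1_pk hp.one_lt.le hκ hj.2, dvd_mul_right p j⟩
    · intro a _ b _ hab
      exact Nat.eq_of_mul_eq_mul_left hp.pos hab
    · intro j hj
      rw [Finset.mem_filter, Finset.mem_Ioc] at hj
      obtain ⟨⟨h3, h4⟩, h5, i, rfl⟩ := hj
      refine ⟨i, ?_, rfl⟩
      rw [Finset.mem_filter, Finset.mem_Ioc]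
      refine ⟨⟨Nat.pos_of_mul_pos_left h3, Nat.le_of_mul_le_mul_left h4 hp.pos⟩, ?_⟩
      have h6 : p * i ≡ p * κ [MOD N] :=
        h5.trans (N1_pk hp.one_lt.le hκ (Nat.ModEq.refl κ)).symm
      exact Nat.ModEq.cancel_left_of_coprime hco h6
  rw [h3] at h2
  have h4 : N1_C N κ (p * u) = N1_C N κ u + t := by
    rw [h1]
    exact N1_C_add hN κ u t
  have h5 : cnt p N κ (p * u) = t := by omega
  rw [h5, ht]

/-- the jumps are `≡ κ` -/
theorem ue_modEq {p N κ s : ℕ} (hp : p.Prime) (hκ : N ∣ (p - 1) * κ) {e : Fin s → ℕ}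
    (he : ∀ l : Fin s, EV p N κ l (e l)) (l : ℕ) (hl : l < s) : ue p (WC.jN e) l ≡ κ [MOD N] := by
  induction l with
  | zero =>
    have h := he ⟨0, hl⟩
    change jN e 0 ≡ κ [MOD N]
    unfold jN
    rw [dif_pos hl]
    rcases h with ⟨_, h, _⟩ | ⟨h, _⟩
    · exact h
    · exact absurd h (lt_irrefl 0)
  | succ l ih =>
    have h := he ⟨l + 1, hl⟩
    change p * ue p (jN e) l + jN e (l + 1) ≡ κ [MOD N]
    have h1 := N1_pk hp.one_lt.le hκ (ih (by omega))
    have h2 : jN e (l + 1) ≡ 0 [MOD N] := by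
      unfold jN
      rw [dif_pos hl]
      rcases h with ⟨h, _⟩ | ⟨_, h | h⟩
      · exact absurd h (Nat.succ_ne_zero l)
      · rw [h]
      · exact Nat.modEq_zero_iff_dvd.2 h.1
    have := h1.add h2
    rwa [add_zero] at this

theorem up_modEq {p N κ s : ℕ} (hp : p.Prime) (hκ : N ∣ (p - 1) * κ) {J : Fin s → ℕ}
    (hJ : ∀ l : Fin s, JV p N κ l (J l)) (l : ℕ) (hl : l < s) :
    up p (WC.jN J) l ≡ κ [MOD N] := by
  induction l with
  | zero =>
    have h := hJ ⟨0, hl⟩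
    change jN J 0 ≡ κ [MOD N]
    unfold jN
    rw [dif_pos hl]
    rcases h with ⟨h, _⟩ | ⟨h, _⟩
    · exact h
    · exact absurd h (lt_irrefl 0)
  | succ l ih =>
    have h := hJ ⟨l + 1, hl⟩
    change max (p * up p (jN J) l) (jN J (l + 1)) ≡ κ [MOD N]
    have h1 := N1_pk hp.one_lt.le hκ (ih (by omega))
    have h2 : jN J (l + 1) = J ⟨l + 1, hl⟩ := by
      unfold jN
      rw [dif_pos hl]
    rw [h2]
    rcases h with ⟨h, _⟩ | ⟨_, h⟩
    · rcases max_choice (p * up p (jN J) l) (J ⟨l + 1, hl⟩) with h3 | h3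
      · rw [h3]
        exact h1
      · rw [h3]
        exact h
    · rw [h, max_eq_left (Nat.zero_le _)]
      exact h1

end Pool.Agent.WG
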