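import Pool.Agent.WG.N1

/-! # Numbers: the exponents (piece WG-N2) -/

namespace Pool.Agent.WG

open Polynomial Pool.Agent.WD Pool.Agent.WC

variable {β : Type} [Fintype β]

private theorem N2_ceil {y : ℚ} (hy : -1 < y) : ((⌈y⌉₊ : ℕ) : ℤ) = ⌈y⌉ := by
  have h1 : (0 : ℤ) ≤ ⌈y⌉ := by
    have h2 : (-1 : ℤ) < ⌈y⌉ := by
      rw [Int.lt_ceil]
      push_cast
      exact hy
    omega
  rw [← Int.ceil_toNat, Int.toNat_of_nonneg h1]

private theorem N2_cl {N : ℕ} (hN : 0 < N) {x : ℚ} (hx : 0 ≤ x) {r : ℕ} (hr : r < N) :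
    ((clN N x r : ℕ) : ℤ) = r + N * ⌈(x - r) / N⌉ := by
  have hN' : (0 : ℚ) < N := by exact_mod_cast hN
  have h1 : -1 < (x - r) / N := by
    rw [lt_div_iff₀ hN']
    have : (r : ℚ) < N := by exact_mod_cast hr
    linarith
  unfold clN
  rw [Nat.cast_add, Nat.cast_mul, N2_ceil h1]

/-- `clN (x + N m) = clN x + N m` -/
theorem clN_add {N : ℕ} (hN : 0 < N) {x : ℚ} (hx : 0 ≤ x) {r : ℕ} (hr : r < N) (m : ℕ) :
    clN N (x + N * m) r = clN N x r + N * m := by
  have hN' : (N : ℚ) ≠ 0 := by exact_mod_cast hN.ne'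
  have h1 : (0 : ℚ) ≤ x + N * m := by positivity
  have h2 : (x + N * m - r) / N = (x - r) / N + ((m : ℤ) : ℚ) := by
    push_cast
    field_simp
    ring
  have h3 : ((clN N (x + N * m) r : ℕ) : ℤ) = ((clN N x r + N * m : ℕ) : ℤ) := by
    rw [N2_cl hN h1 hr, h2, Int.ceil_add_intCast, Nat.cast_add, N2_cl hN hx hr, Nat.cast_mul]
    ring
  exact_mod_cast h3

/-- reflection, `x` not `≡ r` modulo `N`  -/
theorem clN_refl {N : ℕ} (hN : 0 < N) {x : ℚ} (hx : 0 ≤ x) {r m : ℕ} (hr : r < N)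
    (hxm : x ≤ N * m) (hn : ∀ z : ℤ, x ≠ r + N * z) :
    clN N (N * m - x) ((N - r) % N) + clN N x r = N * m + N := by
  have hN' : (0 : ℚ) < N := by exact_mod_cast hN
  obtain ⟨ε, hε⟩ : ∃ ε : ℕ, (N - r) % N + r = N * ε := by
    rcases Nat.eq_zero_or_pos r with h | h
    · exact ⟨0, by rw [h]; simp⟩
    · exact ⟨1, by rw [Nat.mod_eq_of_lt (by omega)]; omega⟩
  have hr'N : (N - r) % N < N := Nat.mod_lt _ hN
  generalize (N - r) % N = r' at hε hr'N
  have hεQ : (r' : ℚ) = N * ε - r := by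
    have h1 : ((r' + r : ℕ) : ℚ) = ((N * ε : ℕ) : ℚ) := by rw [hε]
    push_cast at h1
    linarith
  have h0 : (0 : ℚ) ≤ N * m - x := by linarith
  have h2 : ((N : ℚ) * m - x - r') / N = -((x - r) / N) + ((m - ε : ℤ) : ℚ) := by
    rw [hεQ]
    push_cast
    field_simp
    ring
  have hn' : ∀ z : ℤ, (x - r) / N ≠ z := by
    intro z hz
    rw [div_eq_iff hN'.ne'] at hz
    exact hn z (by linarith)
  have h3 : ⌈(x - r) / N⌉ = ⌊(x - r) / N⌋ + 1 := by
    rw [Int.ceil_eq_iff]
    push_cast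
    refine ⟨?_, (Int.lt_floor_add_one _).le⟩
    have := lt_of_le_of_ne (Int.floor_le ((x - r) / N)) (fun h => hn' _ h.symm)
    linarith
  have h4 : ((clN N (N * m - x) r' + clN N x r : ℕ) : ℤ) = ((N * m + N : ℕ) : ℤ) := by
    rw [Nat.cast_add, N2_cl hN h0 hr'N, N2_cl hN hx hr, h2, Int.ceil_add_intCast, Int.ceil_neg,
      h3]
    have h5 : (r' : ℤ) + r = N * ε := by exact_mod_cast hε
    push_cast
    linear_combination h5
  exact_mod_cast h4

theorem clN_zero {N : ℕ} (hN : 0 < N) {r : ℕ} (hr : r < N) : clN N 0 r = r := by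
  have h1 : ((clN N 0 r : ℕ) : ℤ) = r := by
    rw [N2_cl hN le_rfl hr]
    have h2 : ⌈((0 : ℚ) - r) / N⌉ = 0 := by
      have hN' : (0 : ℚ) < N := by exact_mod_cast hN
      have hr' : (r : ℚ) < N := by exact_mod_cast hr
      rw [Int.ceil_eq_iff]
      constructor
      · push_cast
        rw [lt_div_iff₀ hN']
        linarith
      · push_cast
        apply div_nonpos_of_nonpos_of_nonneg _ hN'.le
        have : (0 : ℚ) ≤ r := Nat.cast_nonneg _
        linarith
    rw [h2]
    ring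
  exact_mod_cast h1

/-! ### linearity -/

private theorem N2_ue_step {p : ℕ} (e : ℕ → ℕ) (s : ℕ) : p * ue p e s ≤ ue p e (s + 1) := by
  rw [ue]
  exact Nat.le_add_right _ _

private theorem N2_ue_add {p : ℕ} (e e' : ℕ → ℕ) (s : ℕ) :
    ue p (fun t => e t + e' t) s = ue p e s + ue p e' s := by
  induction s with
  | zero => rfl
  | succ s ih =>
    rw [ue, ue, ue, ih]
    ring

private theorem N2_ue_mul {p : ℕ} (c : ℕ) (e : ℕ → ℕ) (s : ℕ) :
    ue p (fun t => c * e t) s = c * ue p e s := by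
  induction s with
  | zero => rfl
  | succ s ih =>
    rw [ue, ue, ih]
    ring

private theorem N2_jN_add {r : ℕ} (e e' : Fin r → ℕ) :
    WC.jN (fun t => e t + e' t) = fun s => WC.jN e s + WC.jN e' s := by
  funext s
  by_cases h : s < r <;> simp [WC.jN, h]

private theorem N2_jN_mul {r : ℕ} (c : ℕ) (e : Fin r → ℕ) :
    WC.jN (fun t => c * e t) = fun s => c * WC.jN e s := by
  funext s
  by_cases h : s < r <;> simp [WC.jN, h]

private theorem N2_ueN_add {p r : ℕ} (e e' : Fin r → ℕ) (l : ℕ) :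
    ue p (WC.jN (fun t => e t + e' t)) l = ue p (WC.jN e) l + ue p (WC.jN e') l := by
  rw [N2_jN_add, N2_ue_add]

private theorem N2_ueN_mul {p r : ℕ} (c : ℕ) (e : Fin r → ℕ) (l : ℕ) :
    ue p (WC.jN (fun t => c * e t)) l = c * ue p (WC.jN e) l := by
  rw [N2_jN_mul, N2_ue_mul]

private theorem N2_Yq_add {p : ℕ} (u v : ℕ → ℚ) (s : ℕ) :
    Yq p (fun t => u t + v t) s = Yq p u s + Yq p v s := by
  have h1 : ∑ i ∈ Finset.range s, ((p : ℚ) - 1) * (u i + v i) / (p : ℚ) ^ (s - i + 1) =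
      ∑ i ∈ Finset.range s, ((p : ℚ) - 1) * u i / (p : ℚ) ^ (s - i + 1) +
      ∑ i ∈ Finset.range s, ((p : ℚ) - 1) * v i / (p : ℚ) ^ (s - i + 1) := by
    rw [← Finset.sum_add_distrib]
    refine Finset.sum_congr rfl fun i _ => ?_
    ring
  rw [Yq, Yq, Yq, h1]
  ring

private theorem N2_Yq_mul {p : ℕ} (c : ℚ) (u : ℕ → ℚ) (s : ℕ) :
    Yq p (fun t => c * u t) s = c * Yq p u s := by
  have h1 : ∑ i ∈ Finset.range s, ((p : ℚ) - 1) * (c * u i) / (p : ℚ) ^ (s - i + 1) =
      c * ∑ i ∈ Finset.range s, ((p : ℚ) - 1) * u i / (p : ℚ) ^ (s - i + 1) := by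
    rw [Finset.mul_sum]
    refine Finset.sum_congr rfl fun i _ => ?_
    ring
  rw [Yq, Yq, h1]
  ring

private theorem N2_Xq_add {p r : ℕ} (e e' : Fin r → ℕ) (i : ℕ) :
    Xq p r (ue p (WC.jN (fun t => e t + e' t))) i =
      Xq p r (ue p (WC.jN e)) i + Xq p r (ue p (WC.jN e')) i := by
  rw [Xq, Xq, Xq, ← Finset.sum_add_distrib]
  refine Finset.sum_congr rfl fun s _ => ?_
  rw [← mul_add, ← N2_Yq_add]
  congr 2
  funext t
  rw [N2_jN_add, N2_ue_add]
  push_cast
  ring

private theorem N2_Xq_mul {p r : ℕ} (c : ℕ) (e : Fin r → ℕ) (i : ℕ) :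
    Xq p r (ue p (WC.jN (fun t => c * e t))) i = (c : ℚ) * Xq p r (ue p (WC.jN e)) i := by
  rw [Xq, Xq, Finset.mul_sum]
  refine Finset.sum_congr rfl fun s _ => ?_
  rw [mul_left_comm, ← N2_Yq_mul (c : ℚ)]
  congr 2
  funext t
  rw [N2_jN_mul, N2_ue_mul]
  push_cast
  ring

private theorem N2_rec {p : ℕ} (hp : 0 < p) (u : ℕ → ℚ) (s : ℕ) :
    Yq p u (s + 1) = (u (s + 1) - u s + Yq p u s) / p := by
  have hp' : (p : ℚ) ≠ 0 := by exact_mod_cast hp.ne'
  rw [Yq, Yq, Finset.sum_range_succ]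
  have h1 : ∑ i ∈ Finset.range s, ((p : ℚ) - 1) * u i / (p : ℚ) ^ (s + 1 - i + 1) =
      (∑ i ∈ Finset.range s, ((p : ℚ) - 1) * u i / (p : ℚ) ^ (s - i + 1)) / p := by
    rw [Finset.sum_div]
    refine Finset.sum_congr rfl fun i hi => ?_
    have h2 : s + 1 - i + 1 = (s - i + 1) + 1 := by
      have := Finset.mem_range.mp hi
      omega
    rw [h2, pow_succ (p : ℚ) (s - i + 1), div_div]
  have h3 : s + 1 - s + 1 = 2 := by omega
  rw [h1, h3]
  field_simp
  ring

private theorem N2_Yq_nat {p : ℕ} (hp : p.Prime) (u : ℕ → ℕ)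
    (hu : ∀ s, p * u s ≤ u (s + 1)) (s : ℕ) :
    ∃ l : ℕ, Yq p (fun s => (u s : ℚ)) s = (l : ℚ) / (p : ℚ) ^ (s + 1) := by
  have hp' : (p : ℚ) ≠ 0 := by exact_mod_cast hp.ne_zero
  induction s with
  | zero => exact ⟨u 0, by simp [Yq]⟩
  | succ s ih =>
    obtain ⟨l, hl⟩ := ih
    have hle : u s ≤ u (s + 1) := le_trans (Nat.le_mul_of_pos_left _ hp.pos) (hu s)
    refine ⟨(u (s + 1) - u s) * p ^ (s + 1) + l, ?_⟩
    rw [N2_rec hp.pos, hl]
    push_cast [Nat.cast_sub hle]
    field_simp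
    ring

/-- after multiplication by `p^r` the `X_i` are natural numbers -/
private theorem N2_Xq_nat {p r : ℕ} (hp : p.Prime) (e : Fin r → ℕ) (i : ℕ) :
    ∃ k : ℕ, Xq p r (ue p (WC.jN (fun t => p ^ r * e t))) i = k := by
  have hp' : (p : ℚ) ≠ 0 := by exact_mod_cast hp.ne_zero
  rw [N2_Xq_mul, Xq, Finset.mul_sum]
  have h : ∀ s ∈ Finset.range r, ∃ k : ℕ, ((p ^ r : ℕ) : ℚ) *
      ((((i / p ^ s) % p : ℕ) : ℚ) * Yq p (fun s => ((ue p (WC.jN e)) s : ℚ)) s) = k := by
    intro s hs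
    rw [Finset.mem_range] at hs
    obtain ⟨l, hl⟩ := N2_Yq_nat hp (ue p (WC.jN e)) (N2_ue_step (WC.jN e)) s
    refine ⟨p ^ (r - (s + 1)) * (((i / p ^ s) % p) * l), ?_⟩
    have e1 : r = (s + 1) + (r - (s + 1)) := by omega
    rw [hl]
    push_cast
    rw [show (p : ℚ) ^ r = (p : ℚ) ^ (s + 1) * (p : ℚ) ^ (r - (s + 1)) from by
      rw [← pow_add, ← e1]]
    field_simp
  choose! k hk using h
  refine ⟨∑ s ∈ Finset.range r, k s, ?_⟩
  rw [Finset.sum_congr rfl hk]
  push_cast
  rfl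

private theorem N2_Xq_nonneg {p r : ℕ} (hp : p.Prime) (e : Fin r → ℕ) (i : ℕ) :
    0 ≤ Xq p r (ue p (WC.jN e)) i := by
  rw [Xq]
  refine Finset.sum_nonneg fun s _ => ?_
  exact mul_nonneg (by positivity)
    (le_trans (by positivity) (Yq_ge hp _ (N2_ue_step (WC.jN e)) s))

private theorem N2_Xq_pos_zero {p r : ℕ} (u : ℕ → ℕ) : Xq p r u 0 = 0 := by
  rw [Xq]
  refine Finset.sum_eq_zero fun s _ => ?_
  rw [Nat.zero_div, Nat.zero_mod, Nat.cast_zero, zero_mul]

/-! ### the linear part of the exponent -/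

/-- the linear part -/
private noncomputable def N2_B (p N : ℕ) {s : ℕ} (pos : β → ℕ) (f : Fin s → ℕ) : ℚ :=
  (N : ℚ) * ((((p - 1) * p ^ (s - 1) * ∑ l : Fin s, ue p (WC.jN f) l : ℕ) : ℚ) -
    ∑ b, Xq p s (ue p (WC.jN (fun t => p ^ s * f t))) (pos b))

private theorem N2_B_add {p N s : ℕ} (pos : β → ℕ) (f f' : Fin s → ℕ) :
    N2_B p N pos (fun t => f t + f' t) = N2_B p N pos f + N2_B p N pos f' := by
  unfold N2_B
  have h1 : ∑ l : Fin s, ue p (WC.jN fun t => f t + f' t) l =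
      ∑ l : Fin s, ue p (WC.jN f) l + ∑ l : Fin s, ue p (WC.jN f') l := by
    rw [← Finset.sum_add_distrib]
    exact Finset.sum_congr rfl fun l _ => N2_ueN_add f f' l
  have h2 : ∑ b, Xq p s (ue p (WC.jN (fun t => p ^ s * (f t + f' t)))) (pos b) =
      ∑ b, Xq p s (ue p (WC.jN (fun t => p ^ s * f t))) (pos b) +
      ∑ b, Xq p s (ue p (WC.jN (fun t => p ^ s * f' t))) (pos b) := by
    rw [← Finset.sum_add_distrib]
    refine Finset.sum_congr rfl fun b _ => ?_
    rw [← N2_Xq_add]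
    simp only [mul_add]
  rw [h1, h2]
  push_cast
  ring

private theorem N2_B_zero {p N s : ℕ} (pos : β → ℕ) :
    N2_B p N pos (fun _ : Fin s => 0) = 0 := by
  have h := N2_B_add (p := p) (N := N) pos (fun _ : Fin s => 0) (fun _ : Fin s => 0)
  simp only [add_zero] at h
  linarith

private theorem N2_B_ind {p N s : ℕ} (pos : β → ℕ) (S : Finset (Fin s)) :
    N2_B p N pos (fun t => if t ∈ S then 1 else 0) =
      ∑ l ∈ S, N2_B p N pos (fun t => if t = l then 1 else 0) := by
  classical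
  induction S using Finset.induction_on with
  | empty =>
    simp only [Finset.notMem_empty, if_false, Finset.sum_empty]
    exact N2_B_zero pos
  | insert l S hl ih =>
    rw [Finset.sum_insert hl, ← ih, ← N2_B_add]
    congr 1
    funext t
    by_cases h : t = l
    · subst h
      simp [hl]
    · simp [h]

private theorem N2_AG_add {p N κ s : ℕ} (hp : p.Prime) (hN : 0 < N) (hpN : ¬ p ∣ N)
    (pos r : β → ℕ) (hr : ∀ b, r b < N) (e f : Fin s → ℕ) :
    ((AG p N κ pos r (fun t => e t + N * p ^ s * f t) : ℤ) : ℚ) =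
      (AG p N κ pos r e : ℤ) + N2_B p N pos f := by
  have h1 : ∑ l : Fin s, cnt p N κ (ue p (WC.jN (fun t => e t + N * p ^ s * f t)) l) =
      ∑ l : Fin s, cnt p N κ (ue p (WC.jN e) l) +
        (p - 1) * p ^ (s - 1) * ∑ l : Fin s, ue p (WC.jN f) l := by
    rw [Finset.mul_sum, ← Finset.sum_add_distrib]
    refine Finset.sum_congr rfl fun l _ => ?_
    rw [N2_ueN_add e (fun t => N * p ^ s * f t), N2_ueN_mul]
    have h2 : N * p ^ s * ue p (WC.jN f) l = N * p * (p ^ (s - 1) * ue p (WC.jN f) l) := by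
      have h3 : p ^ s = p * p ^ (s - 1) := by
        rw [← pow_succ']
        congr 1
        have := l.2
        omega
      rw [h3]
      ring
    rw [h2, cnt_add hp hN hpN]
    ring
  have h4 : ∀ b, ∃ M : ℕ, Xq p s (ue p (WC.jN (fun t => p ^ s * f t))) (pos b) = M :=
    fun b => N2_Xq_nat hp f (pos b)
  choose M hM using h4
  have h5 : vGN p N s pos r (ue p (WC.jN (fun t => e t + N * p ^ s * f t))) =
      vGN p N s pos r (ue p (WC.jN e)) + ∑ b, N * M b := by
    unfold vGN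
    rw [← Finset.sum_add_distrib]
    refine Finset.sum_congr rfl fun b _ => ?_
    have h6 : Xq p s (ue p (WC.jN (fun t => e t + N * p ^ s * f t))) (pos b) =
        Xq p s (ue p (WC.jN e)) (pos b) + N * (M b : ℕ) := by
      rw [N2_Xq_add e (fun t => N * p ^ s * f t), ← hM b]
      congr 1
      rw [← N2_Xq_mul]
      congr 3
      funext t
      ring
    rw [h6, clN_add hN (N2_Xq_nonneg hp e _) (hr b)]
  unfold AG N2_B
  rw [h1, h5]
  simp only [hM]
  push_cast
  simp only [← Finset.mul_sum]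
  ring

/-! ### the reflection -/

private theorem N2_dk_cast {N : ℕ} (hN : 0 < N) (κ : ℕ) :
    ((dk N κ : ℕ) : ZMod N) = -(κ : ZMod N) := by
  unfold dk
  rw [ZMod.natCast_mod, Nat.cast_sub (Nat.mod_lt _ hN).le, ZMod.natCast_self, ZMod.natCast_mod,
    zero_sub]

private theorem N2_dk_modEq {N κ u u' : ℕ} (hN : 0 < N) (h : N ∣ u + u') (hu : u ≡ κ [MOD N]) :
    u' ≡ dk N κ [MOD N] := by
  rw [← ZMod.natCast_eq_natCast_iff, N2_dk_cast hN]
  have h1 : ((u + u' : ℕ) : ZMod N) = 0 := (ZMod.natCast_eq_zero_iff _ _).2 h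
  have h2 : (u : ZMod N) = κ := (ZMod.natCast_eq_natCast_iff _ _ _).2 hu
  rw [Nat.cast_add, h2] at h1
  exact eq_neg_of_add_eq_zero_right h1

private theorem N2_dk_dvd {p N κ : ℕ} (hN : 0 < N) (h : N ∣ (p - 1) * κ) :
    N ∣ (p - 1) * dk N κ := by
  rw [← ZMod.natCast_eq_zero_iff, Nat.cast_mul] at h ⊢
  rw [N2_dk_cast hN, mul_neg, h, neg_zero]

private theorem N2_AG_refl {p N κ s : ℕ} (hp : p.Prime) {pos r : β → ℕ} (D : ND p N κ s pos r)
    (e : Fin s → ℕ) (he : ∀ l : Fin s, EV p N κ l (e l)) (hb : ∀ t, e t < N * p ^ s) :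
    ((AG p N (dk N κ) pos (dr N r) (fun t => if e t = 0 then 0 else N * p ^ s - e t) : ℤ) : ℚ) +
      (AG p N κ pos r e : ℤ) =
      N2_B p N pos (fun t => if t ∈ Finset.univ.filter (fun t => e t ≠ 0) then 1 else 0) +
        (N : ℚ) * nS e - (N : ℚ) * cGN pos r := by
  classical
  set e' : Fin s → ℕ := fun t => if e t = 0 then 0 else N * p ^ s - e t with he'
  set g : Fin s → ℕ := fun t => if t ∈ Finset.univ.filter (fun t => e t ≠ 0) then 1 else 0 with hg
  have hg0 : ∀ t, e t = 0 → g t = 0 := by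
    intro t h
    simp [hg, h]
  have hg1 : ∀ t, e t ≠ 0 → g t = 1 := by
    intro t h
    simp [hg, h]
  have hsum : (fun t => e t + e' t) = fun t => N * p ^ s * g t := by
    funext t
    by_cases h : e t = 0
    · rw [hg0 t h]
      simp [he', h]
    · rw [hg1 t h]
      have := hb t
      simp only [he', h, if_false]
      omega
  have hue : ∀ l, ue p (WC.jN e) l + ue p (WC.jN e') l = N * p ^ s * ue p (WC.jN g) l := by
    intro l
    rw [← N2_ueN_add, hsum, N2_ueN_mul]
  have h4 : ∀ b, ∃ M : ℕ, Xq p s (ue p (WC.jN (fun t => p ^ s * g t))) (pos b) = M :=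
    fun b => N2_Xq_nat hp g (pos b)
  choose M hM using h4
  have hX : ∀ b, Xq p s (ue p (WC.jN e)) (pos b) + Xq p s (ue p (WC.jN e')) (pos b) =
      N * (M b : ℕ) := by
    intro b
    rw [← N2_Xq_add, hsum, ← hM b, ← N2_Xq_mul]
    congr 3
    funext t
    ring
  have hps : ∀ l : Fin s, p ^ s = p * p ^ (s - 1) := by
    intro l
    rw [← pow_succ']
    congr 1
    have := l.2
    omega
  have hjN : ∀ (f : Fin s → ℕ) (l : Fin s), WC.jN f l = f l := by
    intro f l
    simp [WC.jN]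
  have hue_le : ∀ (f : ℕ → ℕ) (l : ℕ), f l ≤ ue p f l := by
    intro f l
    cases l with
    | zero => exact le_rfl
    | succ l => exact Nat.le_add_left _ _
  have hpe : ∀ l : Fin s, e l ≠ 0 → ¬ p ∣ e l := by
    intro l hl
    rcases he l with h | h
    · exact h.2.2.1
    · rcases h.2 with h | h
      · exact absurd h hl
      · exact h.2
  -- the counting part
  have hc : ∀ l : Fin s, N * cnt p N (dk N κ) (ue p (WC.jN e') l) +
      N * cnt p N κ (ue p (WC.jN e) l) =
      N * ((p - 1) * p ^ (s - 1) * ue p (WC.jN g) l) + N * (if e l ≠ 0 then 1 else 0) := by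
    intro l
    have hul := hue l
    by_cases hl : e l = 0
    · obtain ⟨l, hls⟩ := l
      cases l with
      | zero =>
        exfalso
        rcases he ⟨0, hls⟩ with h | h
        · exact absurd hl h.2.2.2.ne'
        · exact absurd h.1 (lt_irrefl _)
      | succ l =>
        have h1 : ue p (WC.jN e) l ≡ κ [MOD N] := ue_modEq hp D.hκ he l (by omega)
        have h2 := hue l
        have h3 : ue p (WC.jN e') l ≡ dk N κ [MOD N] := by
          refine N2_dk_modEq D.hN ?_ h1
          rw [h2, mul_assoc]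
          exact dvd_mul_right _ _
        have h5 : ∀ f : Fin s → ℕ, f ⟨l + 1, hls⟩ = 0 →
            ue p (WC.jN f) (l + 1) = p * ue p (WC.jN f) l := by
          intro f hf
          have h6 : WC.jN f (l + 1) = 0 := by
            rw [← hf]
            exact hjN f ⟨l + 1, hls⟩
          rw [ue, h6, add_zero]
        have h7 : e' ⟨l + 1, hls⟩ = 0 := by simp [he', hl]
        change N * cnt p N (dk N κ) (ue p (WC.jN e') (l + 1)) +
          N * cnt p N κ (ue p (WC.jN e) (l + 1)) =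
          N * ((p - 1) * p ^ (s - 1) * ue p (WC.jN g) (l + 1)) + _
        rw [h5 e hl, h5 e' h7, h5 g (hg0 _ hl), cnt_mul hp D.hN D.hpN D.hκ h1,
          cnt_mul hp D.hN D.hpN (N2_dk_dvd D.hN D.hκ) h3, if_neg (not_not.2 hl), mul_zero,
          add_zero, ← mul_add, add_comm, h2, hps ⟨l + 1, hls⟩]
        ring
    · have h1 : ue p (WC.jN e) l ≡ κ [MOD N] := ue_modEq hp D.hκ he l l.2
      have h2 : ¬ p ∣ ue p (WC.jN e) l := by
        obtain ⟨l, hls⟩ := l
        have h3 := hpe _ hl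
        have h4 := hjN e ⟨l, hls⟩
        cases l with
        | zero =>
          change ¬ p ∣ WC.jN e 0
          change WC.jN e 0 = _ at h4
          rwa [h4]
        | succ l =>
          change ¬ p ∣ p * ue p (WC.jN e) l + WC.jN e (l + 1)
          change WC.jN e (l + 1) = _ at h4
          rw [h4, Nat.dvd_add_right (dvd_mul_right _ _)]
          exact h3
      have h3 : 0 < ue p (WC.jN e) l := by
        rcases Nat.eq_zero_or_pos (ue p (WC.jN e) l) with h | h
        · rw [h] at h2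
          exact absurd (dvd_zero p) h2
        · exact h
      have h5 : 0 < ue p (WC.jN e') l := by
        refine lt_of_lt_of_le ?_ (hue_le _ _)
        rw [hjN]
        simp only [he', hl, if_false]
        have := hb l
        omega
      have h6 : N * p * (p ^ (s - 1) * ue p (WC.jN g) l) = N * p ^ s * ue p (WC.jN g) l := by
        rw [hps l]
        ring
      have h7 := cnt_refl (κ := κ) hp D.hN D.hpN (J := ue p (WC.jN e) l)
        (m := p ^ (s - 1) * ue p (WC.jN g) l) h1 h2 h3 (by rw [h6, ← hul]; omega)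
      rw [h6, ← hul, Nat.add_sub_cancel_left] at h7
      rw [← mul_add, h7, if_pos hl]
      ring
  have hC : N * ∑ l : Fin s, cnt p N (dk N κ) (ue p (WC.jN e') l) +
      N * ∑ l : Fin s, cnt p N κ (ue p (WC.jN e) l) =
      N * ((p - 1) * p ^ (s - 1) * ∑ l : Fin s, ue p (WC.jN g) l) + N * nS e := by
    have h1 : nS e = ∑ l : Fin s, (if e l ≠ 0 then 1 else 0) := by
      unfold nS
      rw [Finset.card_filter]
    rw [h1]
    simp only [Finset.mul_sum]
    rw [← Finset.sum_add_distrib, ← Finset.sum_add_distrib]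
    exact Finset.sum_congr rfl fun l _ => hc l
  -- the value part
  have hv : ∀ b, clN N (Xq p s (ue p (WC.jN e')) (pos b)) (dr N r b) +
      clN N (Xq p s (ue p (WC.jN e)) (pos b)) (r b) =
      N * M b + N * (if ¬ (pos b = 0 ∧ r b = 0) then 1 else 0) := by
    intro b
    have hrb := D.hr b
    by_cases h0 : pos b = 0
    · have hXb := hX b
      rw [h0, N2_Xq_pos_zero, N2_Xq_pos_zero, add_zero] at hXb
      have h1 : N * M b = 0 := by exact_mod_cast hXb.symm
      have h2 : dr N r b < N := Nat.mod_lt _ D.hN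
      rw [h0, N2_Xq_pos_zero, N2_Xq_pos_zero, h1, zero_add, clN_zero D.hN h2,
        clN_zero D.hN hrb]
      change (N - r b) % N + r b = _
      rcases Nat.eq_zero_or_pos (r b) with h | h
      · rw [h]
        simp
      · rw [Nat.mod_eq_of_lt (by omega), if_pos (by omega)]
        omega
    · have hs : 0 < s := by
        rcases Nat.eq_zero_or_pos s with h | h
        · have h1 := D.hpos b
          rw [h, pow_zero] at h1
          omega
        · exact h
      have h2 : e ⟨0, hs⟩ ≠ 0 := by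
        rcases he ⟨0, hs⟩ with h | h
        · exact h.2.2.2.ne'
        · exact absurd h.1 (lt_irrefl _)
      have h3 : ¬ p ∣ ue p (WC.jN e) 0 := by
        have h4 := hjN e ⟨0, hs⟩
        change WC.jN e 0 = _ at h4
        change ¬ p ∣ WC.jN e 0
        rw [h4]
        exact hpe _ h2
      have h5 : ∀ z : ℤ, Xq p s (ue p (WC.jN e)) (pos b) ≠ r b + N * z := by
        intro z
        have h6 := Xq_not_int hp _ (N2_ue_step (WC.jN e)) 0 hs (fun t ht => absurd ht (by omega))
          h3 (pos b) (D.hpos b) (by rw [pow_zero]; omega) (r b + N * z)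
        push_cast at h6
        exact h6
      have h7 : Xq p s (ue p (WC.jN e')) (pos b) =
          N * (M b : ℕ) - Xq p s (ue p (WC.jN e)) (pos b) := by
        rw [← hX b]
        ring
      have h8 : Xq p s (ue p (WC.jN e)) (pos b) ≤ N * (M b : ℕ) := by
        rw [← hX b]
        have := N2_Xq_nonneg hp e' (pos b)
        linarith
      rw [h7, if_pos (fun h => h0 h.1), mul_one]
      exact clN_refl D.hN (N2_Xq_nonneg hp e _) hrb h8 h5
  have hV : vGN p N s pos (dr N r) (ue p (WC.jN e')) + vGN p N s pos r (ue p (WC.jN e)) =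
      N * ∑ b, M b + N * cGN pos r := by
    have h1 : cGN pos r = ∑ b, (if ¬ (pos b = 0 ∧ r b = 0) then 1 else 0) := by
      unfold cGN
      rw [Finset.card_filter]
    rw [h1]
    unfold vGN
    simp only [Finset.mul_sum]
    rw [← Finset.sum_add_distrib, ← Finset.sum_add_distrib]
    exact Finset.sum_congr rfl fun b _ => hv b
  have hC' : ((N * ∑ l : Fin s, cnt p N (dk N κ) (ue p (WC.jN e') l) : ℕ) : ℚ) +
      ((N * ∑ l : Fin s, cnt p N κ (ue p (WC.jN e) l) : ℕ) : ℚ) =
      N * (((p - 1) * p ^ (s - 1) * ∑ l : Fin s, ue p (WC.jN g) l : ℕ) : ℚ) + N * nS e := by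
    exact_mod_cast hC
  have hV' : ((vGN p N s pos (dr N r) (ue p (WC.jN e')) : ℕ) : ℚ) +
      ((vGN p N s pos r (ue p (WC.jN e)) : ℕ) : ℚ) =
      N * ((∑ b, M b : ℕ) : ℚ) + N * cGN pos r := by
    exact_mod_cast hV
  have hB : N2_B p N pos g = N * (((p - 1) * p ^ (s - 1) * ∑ l : Fin s, ue p (WC.jN g) l : ℕ) : ℚ) -
      N * ((∑ b, M b : ℕ) : ℚ) := by
    unfold N2_B
    rw [mul_sub, Nat.cast_sum]
    congr 2
    exact Finset.sum_congr rfl fun b _ => hM b
  have hA1 : ((AG p N (dk N κ) pos (dr N r) e' : ℤ) : ℚ) =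
      ((N * ∑ l : Fin s, cnt p N (dk N κ) (ue p (WC.jN e') l) : ℕ) : ℚ) -
        ((vGN p N s pos (dr N r) (ue p (WC.jN e')) : ℕ) : ℚ) := by
    unfold AG
    rw [Int.cast_sub, Int.cast_natCast, Int.cast_natCast]
  have hA2 : ((AG p N κ pos r e : ℤ) : ℚ) =
      ((N * ∑ l : Fin s, cnt p N κ (ue p (WC.jN e) l) : ℕ) : ℚ) -
        ((vGN p N s pos r (ue p (WC.jN e)) : ℕ) : ℚ) := by
    unfold AG
    rw [Int.cast_sub, Int.cast_natCast, Int.cast_natCast]
  rw [hA1, hA2, hB]
  linarith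

/-- `Xq` is linear in `u`; for `0 < i < p^s` and `p ∤ u_0` it is not an integer (`WC.Xq_not_int`) -/
theorem AG_struct {p N κ s : ℕ} (hp : p.Prime) {pos r : β → ℕ} (D : ND p N κ s pos r) :
    ∃ c : Fin s → ℤ,
      (∀ e : Fin s → ℕ, (∀ l : Fin s, EV p N κ l (e l)) → ∀ l, e l ≠ 0 →
        AG p N κ pos r (fun t => if t = l then e t + N * p ^ s else e t) =
          AG p N κ pos r e - c l) ∧
      (∀ e : Fin s → ℕ, (∀ l : Fin s, EV p N (dk N κ) l (e l)) → ∀ l, e l ≠ 0 →
        AG p N (dk N κ) pos (dr N r) (fun t => if t = l then e t + N * p ^ s else e t) =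
          AG p N (dk N κ) pos (dr N r) e - c l) ∧
      ∀ e : Fin s → ℕ, (∀ l : Fin s, EV p N κ l (e l)) → (∀ t, e t < N * p ^ s) →
        AG p N (dk N κ) pos (dr N r) (fun t => if e t = 0 then 0 else N * p ^ s - e t) +
          ((N * cGN pos r : ℕ) : ℤ) =
          (N : ℤ) * (nS e : ℤ) - (∑ t ∈ Finset.univ.filter (fun t => e t ≠ 0), c t) -
            AG p N κ pos r e := by
  classical
  have key : ∀ (κ' : ℕ) (r' : β → ℕ) (_ : ∀ b, r' b < N) (e : Fin s → ℕ) (l : Fin s),
      ((AG p N κ' pos r' (fun t => if t = l then e t + N * p ^ s else e t) : ℤ) : ℚ) =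
        (AG p N κ' pos r' e : ℤ) + N2_B p N pos (fun t => if t = l then 1 else 0) := by
    intro κ' r' hr' e l
    rw [← N2_AG_add hp D.hN D.hpN pos r' hr']
    congr 3
    funext t
    by_cases h : t = l <;> simp [h]
  set c : Fin s → ℤ := fun l => AG p N κ pos r (fun _ : Fin s => 0) -
    AG p N κ pos r (fun t => if t = l then (fun _ : Fin s => 0) t + N * p ^ s
      else (fun _ : Fin s => 0) t) with hc
  have hcB : ∀ l, ((c l : ℤ) : ℚ) = -N2_B p N pos (fun t => if t = l then 1 else 0) := by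
    intro l
    simp only [hc]
    rw [Int.cast_sub, key κ r D.hr (fun _ => 0) l]
    ring
  refine ⟨c, fun e _ l _ => ?_, fun e _ l _ => ?_, fun e he hb => ?_⟩
  · have h1 := key κ r D.hr e l
    have h2 : ((AG p N κ pos r (fun t => if t = l then e t + N * p ^ s else e t) : ℤ) : ℚ) =
        ((AG p N κ pos r e - c l : ℤ) : ℚ) := by
      rw [h1, Int.cast_sub, hcB]
      ring
    exact_mod_cast h2
  · have h1 := key (dk N κ) (dr N r) (fun b => Nat.mod_lt _ D.hN) e l
    have h2 : ((AG p N (dk N κ) pos (dr N r)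
        (fun t => if t = l then e t + N * p ^ s else e t) : ℤ) : ℚ) =
        ((AG p N (dk N κ) pos (dr N r) e - c l : ℤ) : ℚ) := by
      rw [h1, Int.cast_sub, hcB]
      ring
    exact_mod_cast h2
  · have h1 := N2_AG_refl hp D e he hb
    rw [N2_B_ind] at h1
    have h2 : ((∑ t ∈ Finset.univ.filter (fun t => e t ≠ 0), c t : ℤ) : ℚ) =
        -∑ t ∈ Finset.univ.filter (fun t => e t ≠ 0),
          N2_B p N pos (fun t' => if t' = t then 1 else 0) := by
      rw [Int.cast_sum, ← Finset.sum_neg_distrib]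
      exact Finset.sum_congr rfl fun t _ => hcB t
    have h3 : ((AG p N (dk N κ) pos (dr N r)
        (fun t => if e t = 0 then 0 else N * p ^ s - e t) +
          ((N * cGN pos r : ℕ) : ℤ) : ℤ) : ℚ) =
          (((N : ℤ) * (nS e : ℤ) - (∑ t ∈ Finset.univ.filter (fun t => e t ≠ 0), c t) -
            AG p N κ pos r e : ℤ) : ℚ) := by
      rw [Int.cast_add, Int.cast_sub, Int.cast_sub, h2]
      push_cast
      linarith
    exact_mod_cast h3

end Pool.Agent.WG
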