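import Pool.Agent.WG.Num
import Pool.Agent.WC.N3
import Pool.Agent.WD.D0
import Pool.Agent.WD.D1

/-! # Reciprocity for product cones (piece WG-N3) -/

namespace Pool.Agent.WG

open Polynomial Pool.Agent.WD Pool.Agent.WC

open Classical in
/-- the residues modulo `P` -/
private noncomputable def N3Res {r : ℕ} (Ev : Fin r → ℕ → Prop) (P : ℕ) : Finset (Fin r → ℕ) :=
  Fintype.piFinset fun s => (Finset.range P).filter fun j => Ev s j

private theorem N3_mem {r P : ℕ} {Ev : Fin r → ℕ → Prop} {ρ : Fin r → ℕ} :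
    ρ ∈ N3Res Ev P ↔ ∀ s, ρ s < P ∧ Ev s (ρ s) := by
  classical
  unfold N3Res
  rw [Fintype.mem_piFinset]
  constructor
  · intro h s
    have := h s
    rw [Finset.mem_filter, Finset.mem_range] at this
    exact this
  · intro h s
    rw [Finset.mem_filter, Finset.mem_range]
    exact h s

/-- the support -/
private def N3S {r : ℕ} (ρ : Fin r → ℕ) : Finset (Fin r) := Finset.univ.filter fun s => ρ s ≠ 0

/-- the sum over the exponents of residue `ρ` -/
private noncomputable def N3T {r : ℕ} (N : ℕ) (B : (Fin r → ℕ) → ℤ) (c : Fin r → ℤ)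
    (ρ : Fin r → ℕ) (q : ℝ) : ℝ :=
  q ^ B ρ * ∏ s ∈ N3S ρ, ((1 - (q ^ N)⁻¹) * (1 - q ^ (-c s))⁻¹)

/-- the exponent `ρ + P m` -/
private def N3E {r : ℕ} (P : ℕ) (ρ m : Fin r → ℕ) : Fin r → ℕ :=
  fun s => if ρ s = 0 then 0 else ρ s + P * m s

private theorem N3_step {r P : ℕ} {Ev : Fin r → ℕ → Prop}
    (h1 : ∀ l x, x ≠ 0 → (Ev l x ↔ Ev l (x + P))) (l : Fin r) (x : ℕ) (hx : x ≠ 0) (m : ℕ) :
    Ev l x ↔ Ev l (x + P * m) := by
  induction m with
  | zero => rw [mul_zero, add_zero]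
  | succ m ih =>
    rw [ih, h1 l (x + P * m) (by omega), add_assoc, ← Nat.mul_succ]

private theorem N3_shift {r P : ℕ} {Ev : Fin r → ℕ → Prop}
    (h1 : ∀ l x, x ≠ 0 → (Ev l x ↔ Ev l (x + P))) (B : (Fin r → ℕ) → ℤ)
    (c : Fin r → ℤ)
    (hB : ∀ e : Fin r → ℕ, (∀ l, Ev l (e l)) → ∀ l, e l ≠ 0 →
      B (fun t => if t = l then e t + P else e t) = B e - c l)
    (ρ : Fin r → ℕ) (hρ : ∀ s, Ev s (ρ s)) :
    ∀ (n : ℕ) (m : Fin r → ℕ), ∑ s, m s = n →
      B (N3E P ρ m) = B ρ - ∑ s ∈ N3S ρ, c s * m s := by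
  intro n
  induction n with
  | zero =>
    intro m hm
    have h0 : ∀ s, m s = 0 := by
      intro s
      have := (Finset.sum_eq_zero_iff.mp hm) s (Finset.mem_univ s)
      exact this
    have h1 : N3E P ρ m = ρ := by
      funext s
      unfold N3E
      rw [h0 s]
      by_cases h : ρ s = 0
      · rw [if_pos h, h]
      · rw [if_neg h, mul_zero, add_zero]
    rw [h1]
    have h2 : ∑ s ∈ N3S ρ, c s * (m s : ℤ) = 0 :=
      Finset.sum_eq_zero fun s _ => by rw [h0 s]; simp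
    rw [h2, sub_zero]
  | succ n ih =>
    intro m hm
    obtain ⟨s, hs⟩ : ∃ s, m s ≠ 0 := by
      by_contra hcon
      push Not at hcon
      rw [Finset.sum_eq_zero (fun s _ => hcon s)] at hm
      omega
    let m' : Fin r → ℕ := Function.update m s (m s - 1)
    have hms : m' s = m s - 1 := Function.update_self s _ m
    have hmt : ∀ t, t ≠ s → m' t = m t := fun t ht => Function.update_of_ne ht _ m
    have hsum : ∑ t, m' t = n := by
      have h1 := Finset.add_sum_erase Finset.univ m (Finset.mem_univ s)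
      have h2 := Finset.add_sum_erase Finset.univ m' (Finset.mem_univ s)
      have h3 : ∑ t ∈ Finset.univ.erase s, m' t = ∑ t ∈ Finset.univ.erase s, m t :=
        Finset.sum_congr rfl fun t ht => hmt t (Finset.ne_of_mem_erase ht)
      rw [hms, h3] at h2
      omega
    have hih := ih m' hsum
    by_cases hρs : ρ s = 0
    · have h1 : N3E P ρ m = N3E P ρ m' := by
        funext t
        unfold N3E
        by_cases ht : t = s
        · subst ht
          rw [if_pos hρs, if_pos hρs]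
        · rw [hmt t ht]
      rw [h1, hih]
      congr 1
      refine Finset.sum_congr rfl fun t ht => ?_
      have hts : t ≠ s := by
        rintro rfl
        unfold N3S at ht
        rw [Finset.mem_filter] at ht
        exact ht.2 hρs
      rw [hmt t hts]
    · have h2 : N3E P ρ m = fun t => if t = s then N3E P ρ m' t + P else N3E P ρ m' t := by
        funext t
        by_cases ht : t = s
        · subst ht
          rw [if_pos rfl]
          unfold N3E
          rw [if_neg hρs, if_neg hρs, hms]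
          obtain ⟨k, hk⟩ := Nat.exists_eq_succ_of_ne_zero hs
          rw [hk, Nat.succ_sub_one, Nat.succ_eq_add_one]
          ring
        · rw [if_neg ht]
          unfold N3E
          rw [hmt t ht]
      have hcond : ∀ t, Ev t (N3E P ρ m' t) := by
        intro t
        unfold N3E
        by_cases h : ρ t = 0
        · rw [if_pos h, ← h]
          exact hρ t
        · rw [if_neg h]
          exact (N3_step h1 t (ρ t) h (m' t)).1 (hρ t)
      have hne : N3E P ρ m' s ≠ 0 := by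
        unfold N3E
        rw [if_neg hρs]
        omega
      rw [h2, hB _ hcond s hne, hih]
      have hsS : s ∈ N3S ρ := by
        unfold N3S
        rw [Finset.mem_filter]
        exact ⟨Finset.mem_univ s, hρs⟩
      have h2 := Finset.add_sum_erase (N3S ρ) (fun t => c t * (m t : ℤ)) hsS
      have h3 := Finset.add_sum_erase (N3S ρ) (fun t => c t * (m' t : ℤ)) hsS
      have h4 : ∑ t ∈ (N3S ρ).erase s, c t * (m' t : ℤ) = ∑ t ∈ (N3S ρ).erase s, c t * (m t : ℤ) :=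
        Finset.sum_congr rfl fun t ht => by rw [hmt t (Finset.ne_of_mem_erase ht)]
      rw [← h2, ← h3, h4]
      have h5 : (m' s : ℤ) = (m s : ℤ) - 1 := by
        rw [hms]
        omega
      simp only [h5]
      ring

private theorem N3_memS {r : ℕ} (ρ : Fin r → ℕ) (s : Fin r) : s ∈ N3S ρ ↔ ρ s ≠ 0 := by
  unfold N3S
  rw [Finset.mem_filter]
  exact ⟨fun h => h.2, fun h => ⟨Finset.mem_univ s, h⟩⟩

/-- the exponents of residue `ρ` -/
private def N3F {r : ℕ} (P : ℕ) (ρ : Fin r → ℕ) (m : {s // s ∈ N3S ρ} → ℕ) (s : Fin r) : ℕ :=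
  if h : s ∈ N3S ρ then ρ s + P * m ⟨s, h⟩ else 0

private theorem N3F_Ev {r P : ℕ} {Ev : Fin r → ℕ → Prop}
    (h1 : ∀ l x, x ≠ 0 → (Ev l x ↔ Ev l (x + P))) (ρ : Fin r → ℕ) (hρ : ∀ s, Ev s (ρ s))
    (m : {s // s ∈ N3S ρ} → ℕ) (s : Fin r) : Ev s (N3F P ρ m s) := by
  unfold N3F
  by_cases h : s ∈ N3S ρ
  · rw [dif_pos h]
    exact (N3_step h1 s (ρ s) ((N3_memS ρ s).1 h) _).1 (hρ s)
  · rw [dif_neg h]
    rw [N3_memS, not_not] at h
    rw [← h]
    exact hρ s

private theorem N3_hasSum {r N : ℕ} (P : ℕ) (hP0 : 0 < P) {Ev : Fin r → ℕ → Prop}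
    (h1 : ∀ l x, x ≠ 0 → (Ev l x ↔ Ev l (x + P)))
    (h2 : ∀ l x, Ev l x → x ≠ 0 → ¬ P ∣ x)
    (B : (Fin r → ℕ) → ℤ) (c : Fin r → ℤ) (hc : ∀ s, 0 < c s)
    (hB : ∀ e : Fin r → ℕ, (∀ l, Ev l (e l)) → ∀ l, e l ≠ 0 →
      B (fun t => if t = l then e t + P else e t) = B e - c l) (q : ℝ) (hq : 1 < q) :
    HasSum (fun e : {e : Fin r → ℕ // ∀ l, Ev l (e l)} =>
        (1 - (q ^ N)⁻¹) ^ nS e.1 * q ^ B e.1) (∑ ρ ∈ N3Res Ev P, N3T N B c ρ q) := by
  classical
  have hq0 : (0 : ℝ) < q := by linarith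
  have key : ∀ ρ ∈ N3Res Ev P, HasSum (fun e : {e : Fin r → ℕ // ∀ l, Ev l (e l)} =>
      if (fun s => e.1 s % P) = ρ then (1 - (q ^ N)⁻¹) ^ nS e.1 * q ^ B e.1 else 0)
      (N3T N B c ρ q) := by
    intro ρ hρ
    rw [N3_mem] at hρ
    have hρ2 : ∀ s, Ev s (ρ s) := fun s => (hρ s).2
    let emb : ({s // s ∈ N3S ρ} → ℕ) → {e : Fin r → ℕ // ∀ l, Ev l (e l)} :=
      fun m => ⟨N3F P ρ m, N3F_Ev h1 ρ hρ2 m⟩
    have hval : ∀ (m : {s // s ∈ N3S ρ} → ℕ) (s : Fin r),
        (emb m).1 s = if h : s ∈ N3S ρ then ρ s + P * m ⟨s, h⟩ else 0 := fun m s => rfl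
    have hinj : Function.Injective emb := by
      intro m m' h
      funext ⟨s, hs⟩
      have h1 : (emb m).1 s = (emb m').1 s := by rw [h]
      rw [hval, hval, dif_pos hs, dif_pos hs] at h1
      have h2 : P * m ⟨s, hs⟩ = P * m' ⟨s, hs⟩ := by omega
      exact Nat.eq_of_mul_eq_mul_left hP0 h2
    rw [← hinj.hasSum_iff]
    · have hfun : (fun e : {e : Fin r → ℕ // ∀ l, Ev l (e l)} =>
          if (fun s => e.1 s % P) = ρ then (1 - (q ^ N)⁻¹) ^ nS e.1 * q ^ B e.1 else 0) ∘ emb =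
          fun m : {s // s ∈ N3S ρ} → ℕ => ((1 - (q ^ N)⁻¹) ^ (N3S ρ).card * q ^ B ρ) *
            ∏ b, (q ^ (-c b.1)) ^ m b := by
        funext m
        have h1' : (fun s => (emb m).1 s % P) = ρ := by
          funext s
          rw [hval]
          by_cases h : s ∈ N3S ρ
          · rw [dif_pos h, Nat.add_mul_mod_self_left, Nat.mod_eq_of_lt (hρ s).1]
          · rw [dif_neg h, Nat.zero_mod]
            rw [N3_memS, not_not] at h
            exact h.symm
        have h2' : (emb m).1 =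
            N3E P ρ (fun s => if h : s ∈ N3S ρ then m ⟨s, h⟩ else 0) := by
          funext s
          rw [hval]
          unfold N3E
          by_cases h : s ∈ N3S ρ
          · rw [dif_pos h, if_neg ((N3_memS ρ s).1 h)]
            simp only [h, dif_pos]
          · rw [dif_neg h]
            rw [N3_memS, not_not] at h
            rw [if_pos h]
        have h3 : nS (emb m).1 = (N3S ρ).card := by
          unfold nS
          congr 1
          ext s
          rw [Finset.mem_filter, N3_memS]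
          simp only [Finset.mem_univ, true_and]
          rw [hval]
          by_cases h : s ∈ N3S ρ
          · rw [dif_pos h]
            have := (N3_memS ρ s).1 h
            constructor
            · intro _
              exact this
            · intro _
              omega
          · rw [dif_neg h]
            rw [N3_memS, not_not] at h
            simp [h]
        simp only [Function.comp_apply]
        rw [if_pos h1', h3, h2', N3_shift h1 B c hB ρ hρ2 _ _ rfl, zpow_sub₀ hq0.ne']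
        have h4 : ∑ s ∈ N3S ρ, c s * ((if h : s ∈ N3S ρ then m ⟨s, h⟩ else 0 : ℕ) : ℤ) =
            ∑ b : {s // s ∈ N3S ρ}, c b.1 * (m b : ℤ) := by
          rw [← Finset.sum_coe_sort (N3S ρ)]
          refine Finset.sum_congr rfl fun b _ => ?_
          rw [dif_pos b.2]
        rw [h4]
        have h5 : ∏ b : {s // s ∈ N3S ρ}, (q ^ (-c b.1)) ^ m b =
            (q ^ (∑ b : {s // s ∈ N3S ρ}, c b.1 * (m b : ℤ)))⁻¹ := by
          rw [← zpow_neg, ← Finset.sum_neg_distrib]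
          have h6 : ∀ t : Finset {s // s ∈ N3S ρ}, ∏ b ∈ t, (q ^ (-c b.1)) ^ m b =
              q ^ (∑ b ∈ t, -(c b.1 * (m b : ℤ))) := by
            intro t
            induction t using Finset.induction_on with
            | empty => simp
            | insert a t ha ih =>
              rw [Finset.prod_insert ha, Finset.sum_insert ha, zpow_add₀ hq0.ne', ih,
                ← zpow_natCast, ← zpow_mul]
              congr 2
              ring
          exact h6 Finset.univ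
        rw [h5]
        ring
      rw [hfun]
      have hx0 : ∀ b : {s // s ∈ N3S ρ}, 0 ≤ q ^ (-c b.1) := fun b => (zpow_pos hq0 _).le
      have hx1 : ∀ b : {s // s ∈ N3S ρ}, q ^ (-c b.1) < 1 := fun b =>
        zpow_lt_one_of_neg₀ hq (by have := hc b.1; omega)
      have hg := (hasSum_geom_pi (fun b : {s // s ∈ N3S ρ} => q ^ (-c b.1)) hx0 hx1).mul_left
        ((1 - (q ^ N)⁻¹) ^ (N3S ρ).card * q ^ B ρ)
      have hT : N3T N B c ρ q = ((1 - (q ^ N)⁻¹) ^ (N3S ρ).card * q ^ B ρ) *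
          ∏ b : {s // s ∈ N3S ρ}, (1 - q ^ (-c b.1))⁻¹ := by
        unfold N3T
        rw [Finset.prod_mul_distrib, Finset.prod_const,
          Finset.prod_coe_sort (N3S ρ) (fun s => (1 - q ^ (-c s))⁻¹)]
        ring
      rw [hT]
      exact hg
    · intro e he
      rw [if_neg]
      intro h
      apply he
      refine ⟨fun b => e.1 b.1 / P, ?_⟩
      apply Subtype.ext
      funext s
      rw [hval]
      have hs : e.1 s % P = ρ s := congrFun h s
      by_cases h0 : s ∈ N3S ρ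
      · rw [dif_pos h0, ← hs]
        exact Nat.mod_add_div _ _
      · rw [dif_neg h0]
        rw [N3_memS, not_not] at h0
        rw [h0] at hs
        by_contra hne
        exact h2 s (e.1 s) (e.2 s) (fun h' => hne h'.symm) (Nat.dvd_of_mod_eq_zero hs)
  have h := hasSum_sum key
  have hfun : (fun e : {e : Fin r → ℕ // ∀ l, Ev l (e l)} => (1 - (q ^ N)⁻¹) ^ nS e.1 *
        q ^ B e.1) = fun e : {e : Fin r → ℕ // ∀ l, Ev l (e l)} => ∑ ρ ∈ N3Res Ev P,
      if (fun s => e.1 s % P) = ρ then (1 - (q ^ N)⁻¹) ^ nS e.1 * q ^ B e.1 else 0 := by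
    funext e
    rw [Finset.sum_ite_eq, if_pos]
    rw [N3_mem]
    intro s
    refine ⟨Nat.mod_lt _ hP0, ?_⟩
    by_cases h' : e.1 s = 0
    · rw [h', Nat.zero_mod, ← h']
      exact e.2 s
    · have h0 : e.1 s % P ≠ 0 := fun h0 => h2 s (e.1 s) (e.2 s) h' (Nat.dvd_of_mod_eq_zero h0)
      rw [N3_step h1 s (e.1 s % P) h0 (e.1 s / P), Nat.mod_add_div]
      exact e.2 s
  rw [hfun]
  exact h

/-- the dual residue -/
private def N3Inv {r : ℕ} (P : ℕ) (ρ : Fin r → ℕ) : Fin r → ℕ :=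
  fun t => if ρ t = 0 then 0 else P - ρ t

private theorem N3_inv_mem {r P : ℕ} (hP : 0 < P) {Ev Ev' : Fin r → ℕ → Prop}
    (h3 : ∀ l x, 0 < x → x < P → (Ev l x ↔ Ev' l (P - x)))
    (h4 : ∀ l, Ev l 0 ↔ Ev' l 0) {ρ : Fin r → ℕ}
    (hρ : ρ ∈ N3Res Ev P) : N3Inv P ρ ∈ N3Res Ev' P := by
  rw [N3_mem] at hρ ⊢
  intro s
  obtain ⟨h1, h2⟩ := hρ s
  unfold N3Inv
  by_cases h : ρ s = 0
  · rw [if_pos h]
    refine ⟨hP, ?_⟩
    rw [← h4, ← h]
    exact h2
  · rw [if_neg h]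
    refine ⟨by omega, ?_⟩
    exact (h3 s (ρ s) (by omega) h1).1 h2

private theorem N3_inv_inv {r P : ℕ} {Ev : Fin r → ℕ → Prop} {ρ : Fin r → ℕ}
    (hρ : ρ ∈ N3Res Ev P) : N3Inv P (N3Inv P ρ) = ρ := by
  rw [N3_mem] at hρ
  funext s
  obtain ⟨h1, -⟩ := hρ s
  unfold N3Inv
  by_cases h : ρ s = 0
  · rw [if_pos h, if_pos rfl, h]
  · rw [if_neg h, if_neg (by omega)]
    omega

private theorem N3_inv_S {r P : ℕ} {Ev : Fin r → ℕ → Prop} {ρ : Fin r → ℕ}
    (hρ : ρ ∈ N3Res Ev P) : N3S (N3Inv P ρ) = N3S ρ := by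
  rw [N3_mem] at hρ
  ext s
  obtain ⟨h1, -⟩ := hρ s
  unfold N3S N3Inv
  rw [Finset.mem_filter, Finset.mem_filter]
  simp only [Finset.mem_univ, true_and]
  by_cases h : ρ s = 0
  · rw [if_pos h]
    simp [h]
  · rw [if_neg h]
    constructor
    · intro _
      exact h
    · intro _
      omega

private theorem N3_factor {q : ℝ} (hq : 1 < q) {N : ℕ} {c : ℤ} (hc : 0 < c) :
    (1 - q ^ N) * (1 - q ^ c)⁻¹ = q ^ ((N : ℤ) - c) * ((1 - (q ^ N)⁻¹) * (1 - q ^ (-c))⁻¹) := by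
  have hq0 : (0 : ℝ) < q := by linarith
  have h1 : 1 < q ^ c := one_lt_zpow₀ hq hc
  have h3 : q ^ c ≠ 0 := (zpow_pos hq0 c).ne'
  have h4 : q ^ N ≠ 0 := (pow_pos hq0 N).ne'
  rw [zpow_sub₀ hq0.ne', zpow_natCast, zpow_neg]
  have e0 : 1 - q ^ c = -(q ^ c * (1 - (q ^ c)⁻¹)) := by
    rw [mul_sub, mul_inv_cancel₀ h3]
    ring
  have e1 : (1 - q ^ c)⁻¹ = -((q ^ c)⁻¹ * (1 - (q ^ c)⁻¹)⁻¹) := by
    rw [e0, inv_neg, mul_inv]
  have e2 : 1 - q ^ N = -(q ^ N * (1 - (q ^ N)⁻¹)) := by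
    rw [mul_sub, mul_inv_cancel₀ h4]
    ring
  rw [e1, e2]
  ring

/-- As in `WC.prod_reciprocity`: decompose `e = P m + ρ`; for a fixed support and a fixed residue
vector `ρ` both sums are products of geometric series. -/
theorem recipG {s P N : ℕ} (hP : 0 < P) (hN : 0 < N) (Ev Ev' : Fin s → ℕ → Prop)
    (h1 : ∀ l x, x ≠ 0 → (Ev l x ↔ Ev l (x + P))) (h1' : ∀ l x, x ≠ 0 → (Ev' l x ↔ Ev' l (x + P)))
    (h2 : ∀ l x, Ev l x → x ≠ 0 → ¬ P ∣ x) (h2' : ∀ l x, Ev' l x → x ≠ 0 → ¬ P ∣ x)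
    (h3 : ∀ l x, 0 < x → x < P → (Ev l x ↔ Ev' l (P - x)))
    (h4 : ∀ l, Ev l 0 ↔ Ev' l 0)
    (A A' : (Fin s → ℕ) → ℤ) (c : Fin s → ℤ) (hc : ∀ l, 0 < c l)
    (hA : ∀ e : Fin s → ℕ, (∀ l, Ev l (e l)) → ∀ l, e l ≠ 0 →
      A (fun t => if t = l then e t + P else e t) = A e - c l)
    (hA' : ∀ e : Fin s → ℕ, (∀ l, Ev' l (e l)) → ∀ l, e l ≠ 0 →
      A' (fun t => if t = l then e t + P else e t) = A' e - c l)
    (hr : ∀ e : Fin s → ℕ, (∀ l, Ev l (e l)) → (∀ t, e t < P) →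
      A' (fun t => if e t = 0 then 0 else P - e t) =
        (N : ℤ) * (nS e : ℤ) - (∑ t ∈ Finset.univ.filter (fun t => e t ≠ 0), c t) - A e) :
    ∃ F F' : ℝ → ℝ, Dual F F' ∧ ∀ q : ℝ, 1 < q →
      HasSum (fun e : {e : Fin s → ℕ // ∀ l, Ev l (e l)} =>
        (1 - (q ^ N)⁻¹) ^ nS e.1 * q ^ A e.1) (F q) ∧
      HasSum (fun e : {e : Fin s → ℕ // ∀ l, Ev' l (e l)} =>
        (1 - (q ^ N)⁻¹) ^ nS e.1 * q ^ A' e.1) (F' q) := by
  have h3' : ∀ l x, 0 < x → x < P → (Ev' l x ↔ Ev l (P - x)) := by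
    intro l x hx0 hxP
    have h := h3 l (P - x) (by omega) (by omega)
    have hxx : P - (P - x) = x := by omega
    rw [hxx] at h
    exact h.symm
  have h4' : ∀ l, Ev' l 0 ↔ Ev l 0 := fun l => (h4 l).symm
  refine ⟨fun q => ∑ ρ ∈ N3Res Ev P, N3T N A c ρ q, fun q => ∑ ρ ∈ N3Res Ev' P, N3T N A' c ρ q,
    ?_, fun q hq => ⟨N3_hasSum P hP h1 h2 A c hc hA q hq,
      N3_hasSum P hP h1' h2' A' c hc hA' q hq⟩⟩
  have hD : Dual (fun q => ∑ ρ ∈ N3Res Ev P, N3T N A c ρ q)
      (fun q => ∑ ρ ∈ N3Res Ev P, N3T N A' c (N3Inv P ρ) q) := by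
    refine Dual.sum _ _ _ fun ρ hρ => ?_
    have hd1 : ∀ s ∈ N3S ρ, Dual (fun q => (1 - (q ^ N)⁻¹) * (1 - q ^ (-c s))⁻¹)
        (fun q => (1 - q ^ N) * (1 - q ^ (c s))⁻¹) := by
      intro s _
      have h2 : Dual (fun q => 1 - (q ^ N)⁻¹) (fun q => 1 - q ^ N) := by
        refine ((Dual.const 1).add ((Dual.const (-1)).mul (Dual.zpow (-(N : ℤ))))).congr ?_ ?_
        · intro q _
          simp only [Int.cast_one, Int.cast_neg, zpow_neg, zpow_natCast]
          ring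
        · intro q _
          simp only [Int.cast_one, Int.cast_neg, neg_neg, zpow_natCast]
          ring
      exact h2.mul (Dual.inv_one_sub (c s) (hc s).ne')
    have hd2 := (Dual.zpow (A ρ)).mul (Dual.prod (N3S ρ) _ _ hd1)
    refine hd2.congr (fun q _ => rfl) fun q hq => ?_
    have hq0 : (0 : ℝ) < q := by linarith
    have hρ' := hρ
    rw [N3_mem] at hρ'
    have h3 : A' (N3Inv P ρ) = (N : ℤ) * (nS ρ : ℤ) - (∑ s ∈ N3S ρ, c s) - A ρ :=
      hr ρ (fun t => (hρ' t).2) (fun t => (hρ' t).1)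
    have h4 : (N : ℤ) * (nS ρ : ℤ) = ∑ s ∈ N3S ρ, (N : ℤ) := by
      rw [Finset.sum_const]
      unfold nS N3S
      rw [nsmul_eq_mul, mul_comm]
    have h5 : A' (N3Inv P ρ) = -A ρ + ∑ s ∈ N3S ρ, ((N : ℤ) - c s) := by
      rw [h3, h4, Finset.sum_sub_distrib]
      ring
    have h6 : ∀ t : Finset (Fin s), q ^ (∑ s ∈ t, ((N : ℤ) - c s)) =
        ∏ s ∈ t, q ^ ((N : ℤ) - c s) := by
      intro t
      induction t using Finset.induction_on with
      | empty => simp
      | insert a t ha ih =>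
        rw [Finset.sum_insert ha, Finset.prod_insert ha, zpow_add₀ hq0.ne', ih]
    unfold N3T
    rw [N3_inv_S hρ, h5, zpow_add₀ hq0.ne', h6, mul_assoc, ← Finset.prod_mul_distrib]
    congr 1
    refine Finset.prod_congr rfl fun s _ => ?_
    exact (N3_factor hq (hc s)).symm
  refine hD.congr (fun q _ => rfl) fun q _ => ?_
  refine Finset.sum_nbij' (N3Inv P) (N3Inv P) (fun ρ hρ => N3_inv_mem hP h3' h4' hρ)
    (fun ρ hρ => N3_inv_mem hP h3 h4 hρ) (fun ρ hρ => N3_inv_inv hρ) (fun ρ hρ => N3_inv_inv hρ) ?_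
  intro ρ hρ
  rw [N3_inv_inv hρ]

theorem Dual.comp_pow {F F' : ℝ → ℝ} (h : Dual F F') {m : ℕ} (hm : 0 < m) :
    Dual (fun q => F (q ^ m)) (fun q => F' (q ^ m)) := by
  obtain ⟨A, B, hB, hq⟩ := h
  have hc : ∀ (P : ℤ[X]) (x : ℝ), aeval x (P.comp (X ^ m)) = aeval (x ^ m) P := by
    intro P x
    rw [aeval_comp, map_pow, aeval_X]
  refine ⟨A.comp (X ^ m), B.comp (X ^ m), ?_, ?_⟩
  · intro x hx hx1
    rw [hc]
    refine hB _ (by positivity) ?_
    intro h
    apply hx1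
    exact (pow_eq_one_iff_of_nonneg hx.le hm.ne').1 h
  · intro T hT
    have h1 : 1 < T ^ m := one_lt_pow₀ hT hm.ne'
    rw [hc, hc, hc, hc, inv_pow]
    exact hq _ h1

end Pool.Agent.WG
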