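import Pool.Agent.WG.N1

/-! # From pole orders to differences of jumps (piece WG-N4) -/

namespace Pool.Agent.WG

open Polynomial Pool.Agent.WD Pool.Agent.WC

/-- the mass of the pole order `j` -/
noncomputable def mRG (p N κ : ℕ) (q : ℝ) (j : ℕ) : ℝ :=
  if j = 0 then 1 else (q - 1) * q ^ (cnt p N κ j - 1)

private theorem n4_cnt_succ (p N κ J : ℕ) :
    cnt p N κ (J + 1) = cnt p N κ J + if (J + 1 ≡ κ [MOD N] ∧ ¬ p ∣ J + 1) then 1 else 0 := by
  unfold cnt
  rw [Finset.range_add_one, Finset.filter_insert]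
  by_cases h : J + 1 ≡ κ [MOD N] ∧ ¬ p ∣ J + 1
  · rw [if_pos ⟨Nat.succ_pos J, h⟩, if_pos h, Finset.card_insert_of_notMem]
    simp
  · rw [if_neg (fun h' => h h'.2), if_neg h, add_zero]

private theorem n4_cnt_zero (p N κ : ℕ) : cnt p N κ 0 = 0 := by
  unfold cnt
  rw [Finset.card_eq_zero, Finset.filter_eq_empty_iff]
  intro j hj
  rw [Finset.mem_range] at hj
  rintro ⟨h, -⟩
  omega

open Classical in
/-- `∑_{j ≤ M} m(j) = q^(cnt M)` over the admissible `j` (with `j = 0`) -/
theorem sum_mRG {p N κ : ℕ} (hp : p.Prime) (q : ℝ) (hq : 1 < q) (M l : ℕ) (hl : 0 < l) :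
    ∑ j ∈ (Finset.range (M + 1)).filter (fun j => JV p N κ l j), mRG p N κ q j =
      q ^ cnt p N κ M := by
  induction M with
  | zero =>
    rw [Finset.sum_filter, Finset.sum_range_one, if_pos (show JV p N κ l 0 from Or.inr ⟨hl, rfl⟩),
      n4_cnt_zero]
    simp [mRG]
  | succ M ih =>
    rw [Finset.sum_filter] at ih ⊢
    rw [Finset.sum_range_succ, ih, n4_cnt_succ]
    by_cases h : M + 1 ≡ κ [MOD N] ∧ ¬ p ∣ M + 1
    · rw [if_pos (show JV p N κ l (M + 1) from Or.inl ⟨h.1, h.2, Nat.succ_pos M⟩), if_pos h]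
      unfold mRG
      rw [if_neg (Nat.succ_ne_zero M), n4_cnt_succ, if_pos h, Nat.add_sub_cancel, pow_succ]
      ring
    · rw [if_neg, if_neg h, add_zero, add_zero]
      rintro (h' | h')
      · exact h ⟨h'.1, h'.2.1⟩
      · exact absurd h'.2 (Nat.succ_ne_zero M)

private theorem n4_hasSum_fib {A B : Type*} (f : A → B) (t : B → Finset A)
    (ht : ∀ b a, f a = b ↔ a ∈ t b) (F : A → ℝ) (hF : ∀ a, 0 ≤ F a) (x : ℝ)
    (h : HasSum (fun b => ∑ a ∈ t b, F a) x) : HasSum F x := by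
  have hfib : ∀ b, HasSum (fun c : {a // f a = b} => F c) (∑ a ∈ t b, F a) := by
    intro b
    have h1 : HasSum (F ∘ (Subtype.val : {a // f a = b} → A)) (∑ a ∈ t b, F a) := by
      have h2 := hasSum_subtype_iff_indicator (f := F) (s := {a | f a = b})
        (a := ∑ a ∈ t b, F a)
      refine h2.2 ?_
      have h3 : ∑ a ∈ t b, F a = ∑ a ∈ t b, Set.indicator {a | f a = b} F a := by
        refine Finset.sum_congr rfl fun a ha => ?_
        rw [Set.indicator_of_mem]
        exact (ht b a).2 ha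
      rw [h3]
      refine hasSum_sum_of_ne_finset_zero fun a ha => ?_
      rw [Set.indicator_of_notMem]
      intro h4
      exact ha ((ht b a).1 h4)
    exact h1
  rw [← (Equiv.sigmaFiberEquiv f).hasSum_iff]
  have hs : Summable (F ∘ (Equiv.sigmaFiberEquiv f)) := by
    refine (summable_sigma_of_nonneg (f := F ∘ (Equiv.sigmaFiberEquiv f))
      (fun x => hF _)).2 ?_
    refine ⟨fun b => (hfib b).summable, ?_⟩
    have h5 : (fun b => ∑' y : {a // f a = b}, (F ∘ (Equiv.sigmaFiberEquiv f)) ⟨b, y⟩) =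
        fun b => ∑ a ∈ t b, F a := by
      funext b
      exact (hfib b).tsum_eq
    rw [h5]
    exact h.summable
  exact HasSum.sigma_of_hasSum h hfib hs

private def n4_pu (u : ℕ → ℕ) : ℕ → ℕ
  | 0 => 0
  | s + 1 => u s

private theorem n4_ue_eq (p : ℕ) (e : ℕ → ℕ) (s : ℕ) :
    ue p e s = p * n4_pu (ue p e) s + e s := by
  cases s with
  | zero => simp [ue, n4_pu]
  | succ s => simp [ue, n4_pu]

private theorem n4_up_eq (p : ℕ) (e : ℕ → ℕ) (s : ℕ) :
    up p e s = max (p * n4_pu (up p e) s) (e s) := by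
  cases s with
  | zero => simp [up, n4_pu]
  | succ s => simp [up, n4_pu]

private theorem n4_pu_congr (u v : ℕ → ℕ) (s : ℕ) (h : ∀ t, t < s → u t = v t) :
    n4_pu u s = n4_pu v s := by
  cases s with
  | zero => rfl
  | succ s => exact h s (Nat.lt_succ_self s)

private theorem n4_jN {r : ℕ} (J : Fin r → ℕ) (s : Fin r) : WC.jN J s = J s := by
  unfold WC.jN
  rw [dif_pos s.2]

private theorem n4_jN' {r : ℕ} (J : Fin r → ℕ) (s : ℕ) (hs : s < r) :
    WC.jN J s = J ⟨s, hs⟩ := by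
  unfold WC.jN
  rw [dif_pos hs]

/-- `p u ≡ κ` if `u ≡ κ` -/
private theorem n4_pmod {p N κ u : ℕ} (hp : p.Prime) (hκ : N ∣ (p - 1) * κ)
    (hu : u ≡ κ [MOD N]) : p * u ≡ κ [MOD N] := by
  have h1 : p * u ≡ p * κ [MOD N] := hu.mul_left p
  have h2 : p * κ ≡ κ [MOD N] := by
    have h3 : p * κ = (p - 1) * κ + κ := by
      obtain ⟨m, rfl⟩ : ∃ m, p = m + 1 := ⟨p - 1, (Nat.sub_add_cancel hp.one_le).symm⟩
      rw [Nat.add_sub_cancel]
      ring
    rw [h3]
    have h4 : (p - 1) * κ ≡ 0 [MOD N] := (Nat.modEq_zero_iff_dvd).2 hκ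
    simpa using h4.add_right κ
  exact h1.trans h2

private def n4_fe (p : ℕ) {r : ℕ} (J : Fin r → ℕ) : Fin r → ℕ := fun s =>
  up p (WC.jN J) s - p * n4_pu (up p (WC.jN J)) s

private theorem n4_fe_EV {p N κ s : ℕ} (hp : p.Prime) (hκ : N ∣ (p - 1) * κ) {J : Fin s → ℕ}
    (hJ : ∀ l : Fin s, JV p N κ l (J l)) (l : Fin s) : EV p N κ l (n4_fe p J l) := by
  have h0 := n4_up_eq p (WC.jN J) l
  rw [n4_jN] at h0
  unfold n4_fe
  rcases Nat.eq_zero_or_pos (l : ℕ) with hl | hl
  · left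
    have h1 : n4_pu (up p (WC.jN J)) l = 0 := by rw [hl]; rfl
    rw [h0, h1, mul_zero, Nat.zero_max, Nat.sub_zero]
    rcases hJ l with h | h
    · exact ⟨hl, h⟩
    · omega
  · right
    refine ⟨hl, ?_⟩
    have h1 : n4_pu (up p (WC.jN J)) l ≡ κ [MOD N] := by
      obtain ⟨m, hm⟩ : ∃ m, (l : ℕ) = m + 1 := ⟨l - 1, by omega⟩
      rw [hm]
      exact up_modEq hp hκ hJ m (by have := l.2; omega)
    have h2 := n4_pmod hp hκ h1
    rcases le_total (J l) (p * n4_pu (up p (WC.jN J)) l) with h3 | h3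
    · left
      rw [h0, max_eq_left h3, Nat.sub_self]
    · rcases hJ l with h | h
      · right
        rw [h0, max_eq_right h3]
        refine ⟨(Nat.modEq_iff_dvd' h3).1 (h2.trans h.1.symm), fun h4 => h.2.1 ?_⟩
        have h5 := dvd_add h4 (dvd_mul_right p (n4_pu (up p (WC.jN J)) l))
        rwa [Nat.sub_add_cancel h3] at h5
      · left
        rw [h0, h.2]
        simp

open Classical in
private noncomputable def n4_tt (p N κ : ℕ) {r : ℕ} (e : Fin r → ℕ) (s : Fin r) : Finset ℕ :=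
  if e s = 0 then
    (Finset.range (p * n4_pu (ue p (WC.jN e)) s + 1)).filter (fun j => JV p N κ s j)
  else {p * n4_pu (ue p (WC.jN e)) s + e s}

private theorem n4_ue_fe {p r : ℕ} (J : Fin r → ℕ) (s : ℕ) (hs : s < r) :
    ue p (WC.jN (n4_fe p J)) s = up p (WC.jN J) s := by
  induction s using Nat.strong_induction_on with
  | _ s ih =>
    rw [n4_ue_eq]
    rw [n4_pu_congr _ (up p (WC.jN J)) s (fun t ht => ih t ht (ht.trans hs))]
    rw [n4_jN' _ s hs]
    unfold n4_fe
    simp only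
    have h2 : p * n4_pu (up p (WC.jN J)) s ≤ up p (WC.jN J) s := by
      rw [n4_up_eq p (WC.jN J) s]
      exact le_max_left _ _
    omega

private theorem n4_tt_JV {p N κ s : ℕ} (hp : p.Prime) (hκ : N ∣ (p - 1) * κ) {e : Fin s → ℕ}
    (he : ∀ l : Fin s, EV p N κ l (e l)) (l : Fin s) (j : ℕ) (hj : j ∈ n4_tt p N κ e l) :
    JV p N κ l j := by
  classical
  unfold n4_tt at hj
  split_ifs at hj with h
  · exact (Finset.mem_filter.1 hj).2
  · rw [Finset.mem_singleton] at hj
    left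
    rcases Nat.eq_zero_or_pos (l : ℕ) with hl | hl
    · have h1 : n4_pu (ue p (WC.jN e)) l = 0 := by rw [hl]; rfl
      rw [h1, mul_zero, zero_add] at hj
      rw [hj]
      rcases he l with h2 | h2
      · exact h2.2
      · omega
    · have h1 : n4_pu (ue p (WC.jN e)) l ≡ κ [MOD N] := by
        obtain ⟨m, hm⟩ : ∃ m, (l : ℕ) = m + 1 := ⟨l - 1, by omega⟩
        rw [hm]
        exact ue_modEq hp hκ he m (by have := l.2; omega)
      have h2 := n4_pmod hp hκ h1
      rcases he l with h3 | h3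
      · omega
      · have h4 := h3.2.resolve_left h
        refine ⟨?_, fun h5 => h4.2 ?_, by omega⟩
        · rw [hj]
          have h6 : e l ≡ 0 [MOD N] := (Nat.modEq_zero_iff_dvd).2 h4.1
          simpa using h2.add h6
        · rw [hj] at h5
          exact (Nat.dvd_add_right (dvd_mul_right p _)).1 h5

private theorem n4_fe_iff {p N κ r : ℕ} (hp : p.Prime) (hκ : N ∣ (p - 1) * κ) {e J : Fin r → ℕ}
    (hJ : ∀ l : Fin r, JV p N κ l (J l)) :
    n4_fe p J = e ↔ J ∈ Fintype.piFinset (n4_tt p N κ e) := by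
  classical
  rw [Fintype.mem_piFinset]
  constructor
  · rintro rfl s
    unfold n4_tt
    have h0 : n4_pu (ue p (WC.jN (n4_fe p J))) s = n4_pu (up p (WC.jN J)) s :=
      n4_pu_congr _ _ s (fun t ht => n4_ue_fe J t (ht.trans s.2))
    rw [h0]
    have h1 := n4_up_eq p (WC.jN J) s
    rw [n4_jN] at h1
    have h2 : n4_fe p J s = up p (WC.jN J) s - p * n4_pu (up p (WC.jN J)) s := rfl
    split_ifs with h
    · rw [Finset.mem_filter, Finset.mem_range]
      refine ⟨?_, hJ s⟩
      rw [h2] at h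
      have h3 := le_max_right (p * n4_pu (up p (WC.jN J)) s) (J s)
      rw [← h1] at h3
      omega
    · rw [Finset.mem_singleton, h2]
      rw [h2] at h
      rcases le_total (J s) (p * n4_pu (up p (WC.jN J)) s) with h4 | h4
      · rw [max_eq_left h4] at h1
        omega
      · rw [max_eq_right h4] at h1
        rw [h1]
        omega
  · intro h
    have key : ∀ s, s < r → up p (WC.jN J) s = ue p (WC.jN e) s := by
      intro s
      induction s using Nat.strong_induction_on with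
      | _ s ih =>
        intro hs
        have h0 : n4_pu (up p (WC.jN J)) s = n4_pu (ue p (WC.jN e)) s :=
          n4_pu_congr _ _ s (fun t ht => ih t ht (ht.trans hs))
        rw [n4_up_eq, n4_ue_eq, h0]
        have h1 := h ⟨s, hs⟩
        unfold n4_tt at h1
        rw [n4_jN' J s hs, n4_jN' e s hs]
        split_ifs at h1 with h2
        · rw [Finset.mem_filter, Finset.mem_range] at h1
          have h3 := h1.1
          rw [h2, add_zero]
          apply max_eq_left
          simp only at h3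
          omega
        · rw [Finset.mem_singleton] at h1
          rw [h1]
          simp only
          omega
    funext s
    have h2 : n4_fe p J s = up p (WC.jN J) s - p * n4_pu (up p (WC.jN J)) s := rfl
    rw [h2, key s s.2, n4_pu_congr _ _ s (fun t ht => key t (ht.trans s.2)), n4_ue_eq, n4_jN]
    omega

private theorem n4_sum_tt {p N κ s : ℕ} (hp : p.Prime) (hκ : N ∣ (p - 1) * κ) (q : ℝ)
    (hq : 1 < q) {e : Fin s → ℕ} (he : ∀ l : Fin s, EV p N κ l (e l)) (l : Fin s) :
    ∑ j ∈ n4_tt p N κ e l, mRG p N κ q j = (if e l ≠ 0 then (1 - q⁻¹) else 1) *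
      q ^ cnt p N κ (ue p (WC.jN e) l) := by
  have h0 := n4_ue_eq p (WC.jN e) l
  rw [n4_jN] at h0
  by_cases h : e l = 0
  · have hl : 0 < (l : ℕ) := by
      rcases he l with h1 | h1
      · have := h1.2.2.2
        omega
      · exact h1.1
    rw [h0, h, add_zero]
    unfold n4_tt
    rw [if_pos h, if_neg (not_not.2 rfl), one_mul]
    exact sum_mRG hp q hq _ _ hl
  · have hJ := n4_tt_JV hp hκ he l (p * n4_pu (ue p (WC.jN e)) l + e l) (by
      unfold n4_tt
      rw [if_neg h]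
      exact Finset.mem_singleton_self _)
    unfold n4_tt
    rw [if_neg h, if_pos h, Finset.sum_singleton, h0]
    unfold mRG
    rw [if_neg (by omega)]
    have hJ' := hJ.resolve_right (by omega)
    have h1 := cnt_pos hJ'.1 hJ'.2.1 hJ'.2.2
    obtain ⟨c, hc⟩ : ∃ c, cnt p N κ (p * n4_pu (ue p (WC.jN e)) l + e l) = c + 1 :=
      ⟨cnt p N κ (p * n4_pu (ue p (WC.jN e)) l + e l) - 1, by omega⟩
    rw [hc, Nat.add_sub_cancel, pow_succ]
    have hq0 : q ≠ 0 := by linarith
    field_simp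

/-- As in `WC.hasSum_jumps`: for a function `Φ ≥ 0` of the jumps the sum over the pole orders `J` is
the sum over the differences `e`; if `e_l = 0`, `l > 0`, the coordinate `J_l` runs over all
admissible numbers `≤ p u_{l-1}`. Induction on `s` (last coordinate). -/
theorem hasSum_jumpsG {p N κ s : ℕ} (hp : p.Prime) (hN : 0 < N) (hpN : ¬ p ∣ N)
    (hκ : N ∣ (p - 1) * κ) (q : ℝ) (hq : 1 < q) (Φ : (ℕ → ℕ) → ℝ)
    (hΦ : ∀ u, 0 ≤ Φ u) (hc : ∀ u u' : ℕ → ℕ, (∀ l, l < s → u l = u' l) → Φ u = Φ u') (x : ℝ)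
    (h : HasSum (fun e : ET p N κ s => (1 - q⁻¹) ^ nS e.1 *
      q ^ (∑ l : Fin s, cnt p N κ (ue p (WC.jN e.1) l)) * Φ (ue p (WC.jN e.1))) x) :
    HasSum (fun J : JT p N κ s => (∏ l, mRG p N κ q (J.1 l)) * Φ (up p (WC.jN J.1))) x := by
  classical
  refine n4_hasSum_fib (fun J : JT p N κ s => (⟨n4_fe p J.1, n4_fe_EV hp hκ J.2⟩ : ET p N κ s))
    (fun e => (Fintype.piFinset (n4_tt p N κ e.1)).subtype
      (fun J => ∀ l : Fin s, JV p N κ l (J l))) (fun e J => ?_) _ (fun J => ?_) x ?_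
  · rw [Subtype.ext_iff, Finset.mem_subtype]
    exact n4_fe_iff hp hκ J.2
  · refine mul_nonneg (Finset.prod_nonneg fun s _ => ?_) (hΦ _)
    unfold mRG
    split_ifs
    · exact zero_le_one
    · exact mul_nonneg (by linarith) (pow_nonneg (by linarith) _)
  · convert h using 2 with e
    rw [Finset.sum_subtype_eq_sum_filter (s := Fintype.piFinset (n4_tt p N κ e.1))
      (f := fun J : Fin s → ℕ => (∏ l, mRG p N κ q (J l)) * Φ (up p (WC.jN J))),
      Finset.filter_true_of_mem (fun J hJ l => n4_tt_JV hp hκ e.2 l _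
        (Fintype.mem_piFinset.1 hJ l))]
    have h1 : ∀ J ∈ Fintype.piFinset (n4_tt p N κ e.1), (∏ s, mRG p N κ q (J s)) *
        Φ (up p (WC.jN J)) = (∏ s, mRG p N κ q (J s)) *
        Φ (ue p (WC.jN e.1)) := by
      intro J hJ
      have hJV : ∀ l : Fin s, JV p N κ l (J l) := fun l =>
        n4_tt_JV hp hκ e.2 l _ (Fintype.mem_piFinset.1 hJ l)
      have h2 := (n4_fe_iff hp hκ hJV).2 hJ
      rw [hc (up p (WC.jN J)) (ue p (WC.jN e.1))
        (fun l hl => by rw [← n4_ue_fe J l hl, h2])]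
    rw [Finset.sum_congr rfl h1, ← Finset.sum_mul]
    congr 1
    rw [← Finset.prod_univ_sum (t := n4_tt p N κ e.1) (f := fun _ j => mRG p N κ q j)]
    rw [Finset.prod_congr rfl (fun l _ => n4_sum_tt hp hκ q hq e.2 l)]
    rw [Finset.prod_mul_distrib]
    congr 1
    · unfold nS
      rw [Finset.prod_ite, Finset.prod_const, Finset.prod_const_one, mul_one]
    · rw [Finset.prod_pow_eq_pow_sum]

end Pool.Agent.WG
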