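import Pool.Agent.WG.N2
import Pool.Agent.WG.N4

/-! # Degrees (piece WG-N5) -/

namespace Pool.Agent.WG

open Polynomial Filter Pool.Agent.WD Pool.Agent.WC

variable {β : Type} [Fintype β] {p N κ s : ℕ} {pos r : β → ℕ}

private theorem N5_above {p i s : ℕ} (hp : p.Prime) (h : i < p ^ s) : (i / p ^ s) % p = 0 := by
  rw [Nat.div_eq_of_lt h, Nat.zero_mod]

private theorem N5_Xq {p s m : ℕ} (hp : p.Prime) (u : ℕ → ℕ) (hm : m < s) :
    Xq p s u (p ^ m) = Yq p (fun i => (u i : ℚ)) m := by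
  rw [Xq, Finset.sum_eq_single m]
  · rw [Nat.div_self (pow_pos hp.pos m), Nat.mod_eq_of_lt hp.one_lt]
    simp
  · intro t _ hne
    rcases lt_or_gt_of_ne hne with hlt | hgt
    · have h2 : p ^ m / p ^ t = p ^ (m - t) := Nat.pow_div hlt.le hp.pos
      have h3 : p ^ (m - t) % p = 0 :=
        Nat.mod_eq_zero_of_dvd (dvd_pow_self p (by omega))
      rw [h2, h3]
      simp
    · rw [N5_above hp (Nat.pow_lt_pow_right hp.one_lt hgt)]
      simp
  · intro hn
    exact absurd (Finset.mem_range.mpr hm) hn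

private theorem N5_jN {s : ℕ} (J : Fin s → ℕ) (l : Fin s) : WC.jN J l = J l := by
  unfold WC.jN
  rw [dif_pos l.2]

private theorem N5_jN' {s : ℕ} (J : Fin s → ℕ) (l : ℕ) (hl : l < s) :
    WC.jN J l = J ⟨l, hl⟩ := by
  unfold WC.jN
  rw [dif_pos hl]

private theorem N5_mono {p : ℕ} (hp : p.Prime) (u : ℕ → ℕ) (hu : ∀ s, p * u s ≤ u (s + 1)) :
    Monotone u := by
  refine monotone_nat_of_le_succ fun s => ?_
  exact (Nat.le_mul_of_pos_left _ hp.pos).trans (hu s)

/-- `J_l ≤ (p + 1) N v` -/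
theorem le_vGN (hp : p.Prime) (D : ND p N κ s pos r) {J : Fin s → ℕ}
    (hJ : ∀ l : Fin s, JV p N κ l (J l)) (l : Fin s) :
    J l ≤ (p + 1) * vGN p N s pos r (up p (WC.jN J)) := by
  have hs : 0 < s := Fin.pos l
  obtain ⟨b, hb⟩ := D.hf.resolve_left hs.ne'
  have hN := D.hN
  haveI : NeZero N := ⟨hN.ne'⟩
  set u : ℕ → ℕ := up p (WC.jN J) with hu
  have hum : ∀ i, p * u i ≤ u (i + 1) := fun i => up_mono hp.one_lt.le _ i
  have h1 : J l ≤ u (s - 1) := by
    have h2 := le_up hp.one_lt.le (WC.jN J) l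
    rw [N5_jN] at h2
    exact h2.trans (N5_mono hp u hum (by have := l.2; omega))
  have h3 : (u (s - 1) : ℚ) / ((p : ℚ) + 1) ≤ (clN N (Xq p s u (pos b)) (r b) : ℚ) := by
    refine le_trans ?_ (le_clN _ _)
    rw [hb, N5_Xq hp u (by omega)]
    exact Yq_ge hp u hum (s - 1)
  have h4 : clN N (Xq p s u (pos b)) (r b) ≤ vGN p N s pos r u :=
    Finset.single_le_sum (f := fun b => clN N (Xq p s u (pos b)) (r b))
      (fun _ _ => Nat.zero_le _) (Finset.mem_univ b)
  rw [div_le_iff₀ (by positivity)] at h3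
  have h5 : (u (s - 1) : ℚ) ≤ ((clN N (Xq p s u (pos b)) (r b) * (p + 1) : ℕ) : ℚ) := by
    push_cast
    exact h3
  have h6 : u (s - 1) ≤ clN N (Xq p s u (pos b)) (r b) * (p + 1) := by exact_mod_cast h5
  calc J l ≤ u (s - 1) := h1
    _ ≤ clN N (Xq p s u (pos b)) (r b) * (p + 1) := h6
    _ ≤ vGN p N s pos r u * (p + 1) := Nat.mul_le_mul_right _ h4
    _ = (p + 1) * vGN p N s pos r u := mul_comm _ _

private theorem N5_add {A B : ℤ[X]} (hA : A = 0 ∨ 0 < A.leadingCoeff)
    (hB : B = 0 ∨ 0 < B.leadingCoeff) :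
    (A + B = 0 ∨ 0 < (A + B).leadingCoeff) ∧ A.natDegree ≤ (A + B).natDegree ∧
      B.natDegree ≤ (A + B).natDegree := by
  rcases hA with rfl | hA
  · rw [zero_add, natDegree_zero]
    exact ⟨hB, Nat.zero_le _, le_rfl⟩
  rcases hB with rfl | hB
  · rw [add_zero, natDegree_zero]
    exact ⟨Or.inr hA, le_rfl, Nat.zero_le _⟩
  rcases lt_trichotomy A.degree B.degree with h | h | h
  · refine ⟨Or.inr ?_, ?_, ?_⟩
    · rw [leadingCoeff_add_of_degree_lt h]
      exact hB
    · rw [natDegree_add_eq_right_of_degree_lt h]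
      exact natDegree_le_natDegree h.le
    · rw [natDegree_add_eq_right_of_degree_lt h]
  · have h1 : A.leadingCoeff + B.leadingCoeff ≠ 0 := (add_pos hA hB).ne'
    have h2 : (A + B).degree = A.degree := by
      rw [degree_add_eq_of_leadingCoeff_add_ne_zero h1, h, max_self]
    refine ⟨Or.inr ?_, ?_, ?_⟩
    · rw [leadingCoeff_add_of_degree_eq h h1]
      exact add_pos hA hB
    · exact natDegree_le_natDegree h2.ge
    · exact natDegree_le_natDegree (h2.trans h).ge
  · refine ⟨Or.inr ?_, ?_, ?_⟩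
    · rw [leadingCoeff_add_of_degree_lt' h]
      exact hA
    · rw [natDegree_add_eq_left_of_degree_lt h]
    · rw [natDegree_add_eq_left_of_degree_lt h]
      exact natDegree_le_natDegree h.le

private theorem N5_sum {ι : Type} (t : Finset ι) (P : ι → ℤ[X])
    (h : ∀ i ∈ t, P i = 0 ∨ 0 < (P i).leadingCoeff) :
    (∑ j ∈ t, P j = 0 ∨ 0 < (∑ j ∈ t, P j).leadingCoeff) ∧
      ∀ i ∈ t, (P i).natDegree ≤ (∑ j ∈ t, P j).natDegree := by
  classical
  induction t using Finset.induction_on with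
  | empty => simp
  | insert a t ha ih =>
    have h1 := ih fun i hi => h i (Finset.mem_insert_of_mem hi)
    have h2 := N5_add (h a (Finset.mem_insert_self a t)) h1.1
    rw [Finset.sum_insert ha]
    refine ⟨h2.1, fun i hi => ?_⟩
    rcases Finset.mem_insert.1 hi with rfl | hi
    · exact h2.2.1
    · exact (h1.2 i hi).trans h2.2.2

private theorem N5_monic (p N κ j : ℕ) : (mclsG p N κ j).Monic := by
  unfold mclsG
  split_ifs with h
  · exact monic_one
  · have h1 : (X ^ 2 - 1 : ℤ[X]).Monic := by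
      have := monic_X_pow_sub_C (1 : ℤ) (two_ne_zero)
      rwa [map_one] at this
    exact h1.mul (monic_X_pow _)

private theorem N5_lead {s : ℕ} (p N κ : ℕ) (J : Fin s → ℕ) :
    (∏ l, mclsG p N κ (J l)) = 0 ∨ 0 < (∏ l, mclsG p N κ (J l)).leadingCoeff := by
  right
  rw [(monic_prod_of_monic _ _ fun l _ => N5_monic p N κ (J l)).leadingCoeff]
  exact one_pos

/-- `PGp` is zero or has a positive leading coefficient -/
theorem PGp_lead (a : ℕ) : PGp p N κ s pos r a = 0 ∨ 0 < (PGp p N κ s pos r a).leadingCoeff := by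
  unfold PGp
  exact (N5_sum _ _ fun J _ => N5_lead p N κ J).1

theorem natDegree_le_sum {ι : Type} (t : Finset ι) (P : ι → ℤ[X])
    (h : ∀ i ∈ t, P i = 0 ∨ 0 < (P i).leadingCoeff) {i : ι} (hi : i ∈ t) :
    (P i).natDegree ≤ (∑ j ∈ t, P j).natDegree :=
  (N5_sum t P h).2 i hi

private theorem N5_cnt_zero (p N κ : ℕ) : cnt p N κ 0 = 0 := by
  unfold cnt
  rw [Finset.card_eq_zero, Finset.filter_eq_empty_iff]
  intro j hj
  rw [Finset.mem_range] at hj
  rintro ⟨h, -⟩
  omega

private theorem N5_deg {p N κ j : ℕ} (hj : j = 0 ∨ (j ≡ κ [MOD N] ∧ ¬ p ∣ j ∧ 0 < j)) :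
    (mclsG p N κ j).natDegree = 2 * cnt p N κ j := by
  rcases hj with rfl | ⟨h1, h2, h3⟩
  · unfold mclsG
    rw [if_pos rfl, natDegree_one, N5_cnt_zero]
  · unfold mclsG
    have h4 := cnt_pos h1 h2 h3
    rw [if_neg h3.ne']
    have h5 : (X ^ 2 - 1 : ℤ[X]).Monic := by
      have := monic_X_pow_sub_C (1 : ℤ) (two_ne_zero)
      rwa [map_one] at this
    have h6 : (X ^ 2 - 1 : ℤ[X]).natDegree = 2 := by
      have := natDegree_X_pow_sub_C (n := 2) (r := (1 : ℤ))
      rwa [map_one] at this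
    rw [h5.natDegree_mul (monic_X_pow _), h6, natDegree_X_pow]
    omega

/-- the greatest admissible number `≤ M` -/
private def N5_best (p N κ M : ℕ) : ℕ :=
  Nat.findGreatest (fun j => j ≡ κ [MOD N] ∧ ¬ p ∣ j ∧ 0 < j) M

private theorem N5_best_le (p N κ M : ℕ) : N5_best p N κ M ≤ M := Nat.findGreatest_le M

private theorem N5_best_adm (p N κ M : ℕ) : N5_best p N κ M = 0 ∨
    (N5_best p N κ M ≡ κ [MOD N] ∧ ¬ p ∣ N5_best p N κ M ∧ 0 < N5_best p N κ M) := by
  rcases Nat.eq_zero_or_pos (N5_best p N κ M) with h | h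
  · exact Or.inl h
  · exact Or.inr (Nat.findGreatest_of_ne_zero (P := fun j => j ≡ κ [MOD N] ∧ ¬ p ∣ j ∧ 0 < j)
      rfl h.ne')

private theorem N5_best_self {p N κ M : ℕ} (h : M ≡ κ [MOD N] ∧ ¬ p ∣ M ∧ 0 < M) :
    N5_best p N κ M = M :=
  le_antisymm (N5_best_le p N κ M) (Nat.le_findGreatest le_rfl h)

private theorem N5_best_cnt (p N κ M : ℕ) : cnt p N κ (N5_best p N κ M) = cnt p N κ M := by
  refine le_antisymm (cnt_mono p N κ (N5_best_le p N κ M)) ?_
  unfold cnt
  refine Finset.card_le_card fun j hj => ?_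
  rw [Finset.mem_filter, Finset.mem_range] at hj ⊢
  refine ⟨?_, hj.2⟩
  have h1 : j ≤ N5_best p N κ M :=
    Nat.le_findGreatest (P := fun j => j ≡ κ [MOD N] ∧ ¬ p ∣ j ∧ 0 < j) (by omega)
      ⟨hj.2.2.1, hj.2.2.2, hj.2.1⟩
  omega

/-- the best pole orders for the differences `e` -/
private def N5_J (p N κ : ℕ) {s : ℕ} (e : Fin s → ℕ) (l : Fin s) : ℕ :=
  N5_best p N κ (ue p (WC.jN e) l)

private theorem N5_ue_adm (hp : p.Prime) (hκ : N ∣ (p - 1) * κ) {e : Fin s → ℕ}
    (he : ∀ l : Fin s, EV p N κ l (e l)) (l : Fin s) (hl : e l ≠ 0) :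
    ue p (WC.jN e) l ≡ κ [MOD N] ∧ ¬ p ∣ ue p (WC.jN e) l ∧ 0 < ue p (WC.jN e) l := by
  refine ⟨ue_modEq hp hκ he l l.2, ?_, ?_⟩
  · rcases hm : (l : ℕ) with _ | m
    · rw [ue]
      have h1 : WC.jN e 0 = e l := by
        rw [← N5_jN e l, hm]
      rw [h1]
      rcases he l with h | h
      · exact h.2.2.1
      · omega
    · rw [ue]
      have h1 : WC.jN e (m + 1) = e l := by
        rw [← N5_jN e l, hm]
      rw [h1]
      rcases he l with h | h
      · omega
      · intro h2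
        exact (h.2.resolve_left hl).2 ((Nat.dvd_add_right (dvd_mul_right p _)).1 h2)
  · rcases hm : (l : ℕ) with _ | m
    · rw [ue]
      have h1 : WC.jN e 0 = e l := by
        rw [← N5_jN e l, hm]
      rw [h1]
      exact Nat.pos_of_ne_zero hl
    · rw [ue]
      have h1 : WC.jN e (m + 1) = e l := by
        rw [← N5_jN e l, hm]
      rw [h1]
      have := Nat.pos_of_ne_zero hl
      omega

private theorem N5_J_JV (hp : p.Prime) (hκ : N ∣ (p - 1) * κ) {e : Fin s → ℕ}
    (he : ∀ l : Fin s, EV p N κ l (e l)) (l : Fin s) : JV p N κ l (N5_J p N κ e l) := by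
  rcases Nat.eq_zero_or_pos (l : ℕ) with hl | hl
  · left
    have h1 : e l ≠ 0 := by
      rcases he l with h | h
      · omega
      · omega
    have h2 := N5_ue_adm hp hκ he l h1
    unfold N5_J
    rw [N5_best_self h2]
    exact h2
  · unfold N5_J
    rcases N5_best_adm p N κ (ue p (WC.jN e) l) with h | h
    · exact Or.inr ⟨hl, h⟩
    · exact Or.inl h

private theorem N5_up (hp : p.Prime) (hκ : N ∣ (p - 1) * κ) {e : Fin s → ℕ}
    (he : ∀ l : Fin s, EV p N κ l (e l)) (l : ℕ) (hl : l < s) :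
    up p (WC.jN (N5_J p N κ e)) l = ue p (WC.jN e) l := by
  induction l with
  | zero =>
    rw [up, N5_jN' _ 0 hl]
    unfold N5_J
    have h1 : e ⟨0, hl⟩ ≠ 0 := by
      rcases he ⟨0, hl⟩ with h | h
      · omega
      · have := h.1
        simp at this
    exact N5_best_self (N5_ue_adm hp hκ he ⟨0, hl⟩ h1)
  | succ l ih =>
    rw [up, ih (by omega), N5_jN' _ (l + 1) hl]
    unfold N5_J
    simp only
    by_cases h0 : e ⟨l + 1, hl⟩ = 0
    · have h1 : ue p (WC.jN e) (l + 1) = p * ue p (WC.jN e) l := by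
        rw [ue, N5_jN' _ (l + 1) hl, h0, add_zero]
      rw [h1]
      refine max_eq_left (N5_best_le _ _ _ _)
    · rw [N5_best_self (N5_ue_adm hp hκ he ⟨l + 1, hl⟩ h0)]
      refine max_eq_right ?_
      rw [ue]
      exact Nat.le_add_right _ _

private theorem N5_Xq_congr {p s : ℕ} {u u' : ℕ → ℕ} (h : ∀ l, l < s → u l = u' l) (i : ℕ) :
    Xq p s u i = Xq p s u' i := by
  unfold Xq
  refine Finset.sum_congr rfl fun s hs => ?_
  rw [Finset.mem_range] at hs
  congr 1
  unfold Yq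
  simp only
  rw [h s hs]
  congr 1
  refine Finset.sum_congr rfl fun t ht => ?_
  rw [Finset.mem_range] at ht
  rw [h t (ht.trans hs)]

private theorem N5_vGN_congr {u u' : ℕ → ℕ} (h : ∀ l, l < s → u l = u' l) :
    vGN p N s pos r u = vGN p N s pos r u' := by
  unfold vGN
  exact Finset.sum_congr rfl fun a _ => by rw [N5_Xq_congr h]

/-- the degree of the class of the level set of an admissible `e` -/
private theorem N5_degree (hp : p.Prime) (D : ND p N κ s pos r) {e : Fin s → ℕ}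
    (he : ∀ l : Fin s, EV p N κ l (e l)) :
    2 * ((vGN p N s pos r (ue p (WC.jN e)) : ℕ) : ℤ) -
      N * ((PGp p N κ s pos r (vGN p N s pos r (ue p (WC.jN e)))).natDegree : ℤ) ≤
      -2 * AG p N κ pos r e := by
  classical
  set a := vGN p N s pos r (ue p (WC.jN e)) with ha
  have hJ := N5_J_JV hp D.hκ he
  have hv : vGN p N s pos r (up p (WC.jN (N5_J p N κ e))) = a :=
    N5_vGN_congr fun l hl => N5_up hp D.hκ he l hl
  have h1 : (∏ l, mclsG p N κ (N5_J p N κ e l)).natDegree ≤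
      (PGp p N κ s pos r a).natDegree := by
    unfold PGp
    refine natDegree_le_sum _ (fun J : Fin s → ℕ => ∏ l, mclsG p N κ (J l))
      (fun J _ => N5_lead p N κ J) (i := N5_J p N κ e) ?_
    rw [Finset.mem_filter]
    refine ⟨?_, hv⟩
    unfold boxG
    refine Finset.mem_filter.2 ⟨Fintype.mem_piFinset.2 fun l => ?_, hJ⟩
    rw [Finset.mem_range, Nat.lt_succ_iff]
    have h2 := le_vGN hp D hJ l
    rwa [hv] at h2
  have h2 : (∏ l, mclsG p N κ (N5_J p N κ e l)).natDegree =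
      2 * ∑ l : Fin s, cnt p N κ (ue p (WC.jN e) l) := by
    rw [natDegree_prod_of_monic _ _ fun l _ => N5_monic p N κ _, Finset.mul_sum]
    refine Finset.sum_congr rfl fun l _ => ?_
    unfold N5_J
    rw [N5_deg (N5_best_adm _ _ _ _), N5_best_cnt]
  rw [h2] at h1
  have h3 : AG p N κ pos r e = ((N * ∑ l : Fin s, cnt p N κ (ue p (WC.jN e) l) : ℕ) : ℤ) - a := rfl
  rw [h3]
  have h4 : N * (2 * ∑ l : Fin s, cnt p N κ (ue p (WC.jN e) l)) ≤
      N * (PGp p N κ s pos r a).natDegree := Nat.mul_le_mul_left _ h1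
  have h5 : ((N * (2 * ∑ l : Fin s, cnt p N κ (ue p (WC.jN e) l)) : ℕ) : ℤ) ≤
      ((N * (PGp p N κ s pos r a).natDegree : ℕ) : ℤ) := by exact_mod_cast h4
  rw [Nat.cast_mul N (PGp p N κ s pos r a).natDegree] at h5
  have h6 : ((N * (2 * ∑ l : Fin s, cnt p N κ (ue p (WC.jN e) l)) : ℕ) : ℤ) =
      2 * ((N * ∑ l : Fin s, cnt p N κ (ue p (WC.jN e) l) : ℕ) : ℤ) := by
    push_cast
    ring
  rw [h6] at h5
  linarith

private def N5_e (N q : ℕ) {s : ℕ} (l : Fin s) (P x : ℕ) (t : Fin s) : ℕ :=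
  (if (t : ℕ) = 0 then q else if t = l then N else 0) + if t = l then x * P else 0

private theorem N5_e_EV (hp : p.Prime) (D : ND p N κ s pos r) {q : ℕ} (hq : q ≡ κ [MOD N])
    (hpq : ¬ p ∣ q) (l : Fin s) (x : ℕ) (t : Fin s) :
    EV p N κ t (N5_e N q l (N * p ^ s) x t) := by
  have hs : 0 < s := Fin.pos l
  have hd : p ∣ x * (N * p ^ s) := ((dvd_pow_self p hs.ne').mul_left N).mul_left x
  have hd' : N ∣ x * (N * p ^ s) := (dvd_mul_right N _).mul_left x
  have hq0 : 0 < q := Nat.pos_of_ne_zero fun h => hpq (by rw [h]; exact dvd_zero p)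
  unfold N5_e
  by_cases ht : (t : ℕ) = 0
  · left
    rw [if_pos ht]
    refine ⟨ht, ?_, ?_, by omega⟩
    · split_ifs
      · have h1 : x * (N * p ^ s) ≡ 0 [MOD N] := (Nat.modEq_zero_iff_dvd).2 hd'
        simpa using hq.add h1
      · simpa using hq
    · split_ifs
      · intro h
        exact hpq ((Nat.dvd_add_left hd).1 h)
      · simpa using hpq
  · right
    rw [if_neg ht]
    refine ⟨Nat.pos_of_ne_zero ht, ?_⟩
    by_cases htl : t = l
    · right
      rw [if_pos htl, if_pos htl]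
      refine ⟨(dvd_refl N).add hd', fun h => D.hpN ((Nat.dvd_add_left hd).1 h)⟩
    · left
      rw [if_neg htl, if_neg htl]

/-- If `c_l ≤ 0`, the parameters `e + x P 1_l`, `x → ∞`, give level sets whose classes have degree
`≥ 2 a / N - const`. -/
theorem dec_posG (hp : p.Prime) (D : ND p N κ s pos r)
    (hconv : Tendsto (fun a : ℕ => 2 * (a : ℤ) - N * ((PGp p N κ s pos r a).natDegree : ℤ))
      atTop atTop) (c : Fin s → ℤ)
    (hc : ∀ e : Fin s → ℕ, (∀ l : Fin s, EV p N κ l (e l)) → ∀ l, e l ≠ 0 →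
        AG p N κ pos r (fun t => if t = l then e t + N * p ^ s else e t) =
          AG p N κ pos r e - c l) (l : Fin s) : 0 < c l := by
  by_contra hcl
  rw [not_lt] at hcl
  have hN := D.hN
  have hcop : Nat.Coprime N p := ((Nat.Prime.coprime_iff_not_dvd hp).2 D.hpN).symm
  obtain ⟨q, hq1, hq2⟩ := Nat.chineseRemainder hcop κ 1
  have hpq : ¬ p ∣ q := by
    intro h
    have h1 : 1 ≡ 0 [MOD p] := hq2.symm.trans ((Nat.modEq_zero_iff_dvd).2 h)
    exact hp.one_lt.ne' (Nat.dvd_one.1 ((Nat.modEq_zero_iff_dvd).1 h1))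
  have hq0 : 0 < q := Nat.pos_of_ne_zero fun h => hpq (by rw [h]; exact dvd_zero p)
  set P := N * p ^ s with hP
  have hP0 : 0 < P := Nat.mul_pos hN (pow_pos hp.pos s)
  have hE := N5_e_EV hp D hq1 hpq l
  have hge : ∀ x, x ≤ N5_e N q l P x l := by
    intro x
    unfold N5_e
    rw [if_pos (rfl : l = l), if_pos (rfl : l = l)]
    have h1 : x ≤ x * P := Nat.le_mul_of_pos_right x hP0
    omega
  have hne : ∀ x, N5_e N q l P x l ≠ 0 := by
    intro x
    unfold N5_e
    rw [if_pos (rfl : l = l), if_pos (rfl : l = l)]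
    split_ifs <;> omega
  have hA : ∀ x : ℕ, AG p N κ pos r (N5_e N q l P x) =
      AG p N κ pos r (N5_e N q l P 0) - x * c l := by
    intro x
    induction x with
    | zero => simp
    | succ x ih =>
      have h1 := hc (N5_e N q l P x) (hE x) l (hne x)
      have h2 : (fun t => if t = l then N5_e N q l P x t + N * p ^ s else N5_e N q l P x t) =
          N5_e N q l P (x + 1) := by
        funext t
        unfold N5_e
        by_cases ht : t = l
        · simp only [if_pos ht]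
          rw [← hP]
          ring
        · simp only [if_neg ht]
      rw [h2] at h1
      rw [h1, ih]
      push_cast
      ring
  obtain ⟨M, hM⟩ := (tendsto_atTop_atTop.1 hconv) (-2 * AG p N κ pos r (N5_e N q l P 0) + 1)
  set x : ℕ := (p + 1) * M with hx
  set a : ℕ := vGN p N s pos r (ue p (WC.jN (N5_e N q l P x))) with ha
  have haM : M ≤ a := by
    have hJ := N5_J_JV hp D.hκ (hE x)
    have h1 := le_vGN hp D hJ l
    have hv : vGN p N s pos r (up p (WC.jN (N5_J p N κ (N5_e N q l P x)))) = a :=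
      N5_vGN_congr fun l hl => N5_up hp D.hκ (hE x) l hl
    rw [hv] at h1
    have h2 : N5_J p N κ (N5_e N q l P x) l = ue p (WC.jN (N5_e N q l P x)) l := by
      unfold N5_J
      exact N5_best_self (N5_ue_adm hp D.hκ (hE x) l (hne x))
    have h3 : N5_e N q l P x l ≤ ue p (WC.jN (N5_e N q l P x)) l := by
      rcases hm : (l : ℕ) with _ | m
      · rw [ue]
        have h4 : WC.jN (N5_e N q l P x) 0 = N5_e N q l P x l := by
          rw [← N5_jN (N5_e N q l P x) l, hm]
        rw [h4]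
      · rw [ue]
        have h4 : WC.jN (N5_e N q l P x) (m + 1) = N5_e N q l P x l := by
          rw [← N5_jN (N5_e N q l P x) l, hm]
        rw [h4]
        exact Nat.le_add_left _ _
    rw [h2] at h1
    have h4 : (p + 1) * M ≤ (p + 1) * a := by
      rw [← hx]
      exact ((hge x).trans h3).trans h1
    exact Nat.le_of_mul_le_mul_left h4 (Nat.succ_pos p)
  have h2 := hM a haM
  have h3 := N5_degree hp D (hE x)
  rw [← ha, hA x] at h3
  have h7 : (x : ℤ) * c l ≤ 0 := mul_nonpos_of_nonneg_of_nonpos (Int.natCast_nonneg x) hcl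
  linarith

end Pool.Agent.WG
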