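import Pool.Agent.WG.EL
import Pool.Agent.WG.Cl
import Pool.Agent.WG.JD

/-!
# The tuning module over `L_c` (piece WG-TL1)
-/

namespace Pool.Agent.WG

open Polynomial Pool.Agent.WD

noncomputable section

universe u v

variable {p N s θ : ℕ} [Fact p.Prime] {k : Type u} [Field k] [CharP k p] {ζ : kˣ}
  {L : Type v} [Field L] {φ : L →+* Om k} {j0 : LaurentSeries k →+* L} {w τ : L ≃+* L}
  {h : ℕ → L} {Xv : ℕ → ℚ} {d n : ℕ} {q : k[X]}
  {A Γ : Matrix (Fin d) (Fin d) k} {m : Fin n → ℕ}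
  {E : Module.Basis (Ix n m) k (Fin d → k)} {r : Ix n m → ℕ}

/-- the tuning module: `x` is integral, `w⁻¹(x) = A x`, `τ⁻¹(x) = Γ x` -/
def TunL (φ : L →+* Om k) (j0 : LaurentSeries k →+* L) (w τ : L ≃+* L)
    (A Γ : Matrix (Fin d) (Fin d) k) (x : Fin d → L) : Prop :=
  (∀ a, 0 ≤ (φ (x a)).orderTop) ∧ (∀ a, w⁻¹ (x a) = ∑ b, cst0 j0 (A a b) * x b) ∧
    ∀ a, τ⁻¹ (x a) = ∑ b, cst0 j0 (Γ a b) * x b

/-- order of a constant -/
private theorem TL_ord_cst (hφ : ∀ x, φ (j0 x) = toOm k x) (c : k) :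
    0 ≤ (φ (cst0 j0 c)).orderTop := by
  have h1 : φ (cst0 j0 c) = HahnSeries.single (0 : ℚ) c := by
    change φ (j0 (HahnSeries.C c)) = _
    rw [hφ]
    change HahnSeries.embDomain _ (HahnSeries.single (0 : ℤ) c) = _
    rw [HahnSeries.embDomain_single]
    rfl
  rw [h1]
  exact HahnSeries.orderTop_single_le

private theorem TL_ord_sum {ι : Type} (s : Finset ι) (f : ι → Om k)
    (hf : ∀ i ∈ s, 0 ≤ (f i).orderTop) : 0 ≤ (∑ i ∈ s, f i).orderTop := by
  classical
  induction s using Finset.induction_on with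
  | empty => simp
  | insert i s hi ih =>
    rw [Finset.sum_insert hi]
    refine le_trans (le_min (hf i (Finset.mem_insert_self i s)) ?_)
      HahnSeries.min_orderTop_le_orderTop_add
    exact ih fun j hj => hf j (Finset.mem_insert_of_mem hj)

private theorem TL_ord_comb {ι : Type} [Fintype ι] (hφ : ∀ x, φ (j0 x) = toOm k x)
    (c : ι → k) (y : ι → L) (hy : ∀ i, 0 ≤ (φ (y i)).orderTop) :
    0 ≤ (φ (∑ i, cst0 j0 (c i) * y i)).orderTop := by
  rw [map_sum]
  apply TL_ord_sum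
  intro i _
  rw [map_mul, HahnSeries.orderTop_mul]
  exact add_nonneg (TL_ord_cst hφ _) (hy i)

/-- coordinates are unique -/
private theorem TL_inj (E : Module.Basis (Ix n m) k (Fin d → k)) {y y' : Ix n m → L}
    (hy : ∀ a, ∑ b, cst0 j0 (E b a) * y b = ∑ b, cst0 j0 (E b a) * y' b) : y = y' := by
  obtain ⟨y0, -, h2⟩ := JD.exists_coord E (cst0 j0) fun a => ∑ b, cst0 j0 (E b a) * y' b
  rw [h2 y fun a => (hy a).symm, h2 y' fun a => rfl]

/-- the inverse matrix -/
private theorem TL_inv (E : Module.Basis (Ix n m) k (Fin d → k)) (y : Ix n m → L)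
    (b : Ix n m) :
    y b = ∑ a, cst0 j0 (E.repr (Pi.single a 1) b) * ∑ b', cst0 j0 (E b' a) * y b' := by
  classical
  have h1 : ∀ b', ∑ a, E.repr (Pi.single a 1) b * E b' a = if b' = b then 1 else 0 := by
    intro b'
    have h2 : E b' = ∑ a, E b' a • (Pi.single a (1 : k) : Fin d → k) := by
      funext i
      simp [Finset.sum_apply, Pi.single_apply]
    have h3 : E.repr (E b') b = ∑ a, E b' a * E.repr (Pi.single a 1) b := by
      conv_lhs => rw [h2]
      simp [Finsupp.finsetSum_apply]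
    rw [E.repr_self, Finsupp.single_apply] at h3
    rw [h3]
    exact Finset.sum_congr rfl fun a _ => mul_comm _ _
  calc y b = ∑ b', (if b' = b then 1 else 0) * y b' := by simp
    _ = ∑ b', cst0 j0 (∑ a, E.repr (Pi.single a 1) b * E b' a) * y b' := by
        refine Finset.sum_congr rfl fun b' _ => ?_
        rw [h1 b']
        split_ifs <;> simp
    _ = ∑ b', ∑ a, cst0 j0 (E.repr (Pi.single a 1) b) * (cst0 j0 (E b' a) * y b') := by
        refine Finset.sum_congr rfl fun b' _ => ?_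
        rw [map_sum, Finset.sum_mul]
        exact Finset.sum_congr rfl fun a _ => by rw [map_mul, mul_assoc]
    _ = _ := by
        rw [Finset.sum_comm]
        exact Finset.sum_congr rfl fun a _ => by rw [Finset.mul_sum]

/-- an additive operator that commutes with constants, on a combination -/
private theorem TL_op_comb {ι : Type} [Fintype ι] (T : L →+ L)
    (hT : ∀ c x, T (cst0 j0 c * x) = cst0 j0 c * T x) (c : ι → k) (y : ι → L) :
    T (∑ i, cst0 j0 (c i) * y i) = ∑ i, cst0 j0 (c i) * T (y i) := by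
  rw [map_sum]
  exact Finset.sum_congr rfl fun i _ => hT _ _

/-- matrix product -/
private theorem TL_mul {κ : Type} [Fintype κ] (M : Matrix (Fin d) (Fin d) k)
    (M' : Matrix (Fin d) κ k) (x : κ → L) (a : Fin d) :
    ∑ b, cst0 j0 (M a b) * ∑ c, cst0 j0 (M' b c) * x c =
      ∑ c, cst0 j0 ((M * M') a c) * x c := by
  simp_rw [Finset.mul_sum]
  rw [Finset.sum_comm]
  refine Finset.sum_congr rfl fun c _ => ?_
  rw [Matrix.mul_apply, map_sum, Finset.sum_mul]
  exact Finset.sum_congr rfl fun b _ => by rw [map_mul, mul_assoc]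

private theorem TL_iter (T : L →+ L)
    (hT : ∀ c x, T (cst0 j0 c * x) = cst0 j0 c * T x) (M : Matrix (Fin d) (Fin d) k)
    (x : Fin d → L) (hx : ∀ a, T (x a) = ∑ b, cst0 j0 (M a b) * x b) (l : ℕ) (a : Fin d) :
    T^[l] (x a) = ∑ b, cst0 j0 ((M ^ l) a b) * x b := by
  induction l generalizing a with
  | zero =>
    rw [pow_zero, Function.iterate_zero, id_eq]
    simp [Matrix.one_apply]
  | succ l ih =>
    rw [Function.iterate_succ', Function.comp_apply, ih, TL_op_comb T hT, pow_succ, ← TL_mul]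
    exact Finset.sum_congr rfl fun b _ => by rw [hx]

private theorem TL_poly (T : L → L) (M : Matrix (Fin d) (Fin d) k) (x : Fin d → L)
    (hx : ∀ (l : ℕ) a, T^[l] (x a) = ∑ b, cst0 j0 ((M ^ l) a b) * x b) (Q : k[X])
    (a : Fin d) :
    (Q.sum fun l c => cst0 j0 c * T^[l] (x a)) = ∑ b, cst0 j0 ((aeval M Q) a b) * x b := by
  rw [Polynomial.aeval_def, Polynomial.eval₂_eq_sum, Polynomial.sum_def, Polynomial.sum_def]
  simp_rw [hx, Finset.mul_sum]
  rw [Finset.sum_comm]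
  refine Finset.sum_congr rfl fun b _ => ?_
  rw [Matrix.sum_apply, map_sum, Finset.sum_mul]
  refine Finset.sum_congr rfl fun l _ => ?_
  rw [← mul_assoc, ← map_mul, Algebra.algebraMap_eq_smul_one, smul_mul_assoc, one_mul,
    Matrix.smul_apply, smul_eq_mul]

omit [Fact p.Prime] [CharP k p] in
/-- the shift -/
private theorem TL_shift (J : JD p N s ζ q A Γ m E r) (y : Ix n m → L) (a : Fin d) :
    ∑ b, cst0 j0 ((aeval A q).mulVec (E b) a) * y b =
      ∑ b, cst0 j0 (E b a) *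
        (if h : (b.2 : ℕ) + 1 < m b.1 then y ⟨b.1, ⟨(b.2 : ℕ) + 1, h⟩⟩ else 0) := by
  classical
  have h1 : ∑ b, cst0 j0 ((aeval A q).mulVec (E b) a) * y b =
      ∑ b ∈ Finset.univ.filter (fun b : Ix n m => (b.2 : ℕ) ≠ 0),
        cst0 j0 ((aeval A q).mulVec (E b) a) * y b := by
    symm
    apply Finset.sum_filter_of_ne
    intro b _ hb h0
    apply hb
    rw [J.hX0 b h0]
    simp
  have h2 : ∑ b, cst0 j0 (E b a) *
        (if h : (b.2 : ℕ) + 1 < m b.1 then y ⟨b.1, ⟨(b.2 : ℕ) + 1, h⟩⟩ else 0) =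
      ∑ b ∈ Finset.univ.filter (fun b : Ix n m => (b.2 : ℕ) + 1 < m b.1),
        cst0 j0 (E b a) *
        (if h : (b.2 : ℕ) + 1 < m b.1 then y ⟨b.1, ⟨(b.2 : ℕ) + 1, h⟩⟩ else 0) := by
    symm
    apply Finset.sum_filter_of_ne
    intro b _ hb
    by_contra h0
    apply hb
    rw [dif_neg h0, mul_zero]
  rw [h1, h2]
  refine Finset.sum_bij'
    (fun b _ => (⟨b.1, ⟨(b.2 : ℕ) - 1, lt_of_le_of_lt (Nat.sub_le _ _) b.2.2⟩⟩ : Ix n m))
    (fun b hb => (⟨b.1, ⟨(b.2 : ℕ) + 1, (Finset.mem_filter.1 hb).2⟩⟩ : Ix n m)) ?_ ?_ ?_ ?_ ?_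
  · intro b hb
    have h0 := (Finset.mem_filter.1 hb).2
    have h3 := b.2.2
    refine Finset.mem_filter.2 ⟨Finset.mem_univ _, ?_⟩
    change (b.2 : ℕ) - 1 + 1 < m b.1
    omega
  · intro b hb
    refine Finset.mem_filter.2 ⟨Finset.mem_univ _, ?_⟩
    change (b.2 : ℕ) + 1 ≠ 0
    omega
  · intro b hb
    have h0 := (Finset.mem_filter.1 hb).2
    obtain ⟨B, i, hi⟩ := b
    change (⟨B, ⟨i - 1 + 1, _⟩⟩ : Ix n m) = ⟨B, ⟨i, hi⟩⟩
    congr
    change i ≠ 0 at h0
    omega
  · intro b hb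
    obtain ⟨B, i, hi⟩ := b
    rfl
  · intro b hb
    have h0 := (Finset.mem_filter.1 hb).2
    obtain ⟨B, i, hi⟩ := b
    change i ≠ 0 at h0
    have h3 : (aeval A q).mulVec (E ⟨B, ⟨i, hi⟩⟩) =
        E ⟨B, ⟨i - 1, lt_of_le_of_lt (Nat.sub_le _ _) hi⟩⟩ :=
      J.hX _ _ rfl (by change i = i - 1 + 1; omega)
    rw [h3]
    have h4 : i - 1 + 1 < m B := by omega
    rw [dif_pos h4]
    congr 2
    change (⟨B, ⟨i, hi⟩⟩ : Ix n m) = ⟨B, ⟨i - 1 + 1, _⟩⟩
    congr
    omega

/-- In the coordinates `y` with respect to the basis `E` the conditions are: the `y_b` are integral,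
`X(y_{B,i}) = y_{B,i+1}` (`0` if `i + 1 = m_B`), and `τ⁻¹(y_b) = ζ^{-r_b} y_b`. -/
theorem tunL_iff (D : EL p N s θ ζ φ j0 w τ h Xv) (hq : GoodQ p s θ q)
    (hA : A ^ (p ^ s) = 1) (J : JD p N s ζ q A Γ m E r) (y : Ix n m → L) :
    TunL φ j0 w τ A Γ (fun a => ∑ b, cst0 j0 (E b a) * y b) ↔
      (∀ b, 0 ≤ (φ (y b)).orderTop) ∧
      (∀ b : Ix n m, XL j0 w q (y b) =
        if h : (b.2 : ℕ) + 1 < m b.1 then y ⟨b.1, ⟨(b.2 : ℕ) + 1, h⟩⟩ else 0) ∧
      ∀ b, τ⁻¹ (y b) = cst0 j0 (((ζ ^ r b)⁻¹ : kˣ) : k) * y b := by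
  classical
  have hwi : ∀ c x, (w⁻¹ : L ≃+* L) (cst0 j0 c * x) = cst0 j0 c * w⁻¹ x := by
    intro c x
    rw [map_mul]
    congr 1
    have h1 : w (cst0 j0 c) = cst0 j0 c := (D.fixw _).2 ⟨HahnSeries.C c, rfl⟩
    conv_lhs => rw [← h1]
    exact w.symm_apply_apply _
  have hτi : ∀ c x, (τ⁻¹ : L ≃+* L) (cst0 j0 c * x) = cst0 j0 c * τ⁻¹ x := by
    intro c x
    rw [map_mul]
    congr 1
    have h1 : τ (cst0 j0 c) = cst0 j0 c := by
      change τ (j0 (HahnSeries.C c)) = j0 (HahnSeries.C c)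
      rw [D.τj]
      congr 1
      change rot ζ (HahnSeries.single 0 c) = HahnSeries.single 0 c
      rw [rot_single]
      simp
    conv_lhs => rw [← h1]
    exact τ.symm_apply_apply _
  -- the operators as additive maps
  let W : L →+ L := ((w⁻¹ : L ≃+* L) : L →+* L).toAddMonoidHom
  have hW : ∀ x, W x = w⁻¹ x := fun x => rfl
  let T : L →+ L := ((τ⁻¹ : L ≃+* L) : L →+* L).toAddMonoidHom
  have hT : ∀ x, T x = τ⁻¹ x := fun x => rfl
  let X0 : L →+ L := AddMonoidHom.mk' (XL j0 w q) (opQ_map_add q)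
  have hX0 : ∀ x, X0 x = XL j0 w q x := fun x => rfl
  have hXc : ∀ c x, X0 (cst0 j0 c * x) = cst0 j0 c * X0 x := fun c x => D.X_mul q _ x
  set x : Fin d → L := fun a => ∑ b, cst0 j0 (E b a) * y b with hx
  have hEx : ∀ (M : Matrix (Fin d) (Fin d) k) a, ∑ c, cst0 j0 (M a c) * x c =
      ∑ b, cst0 j0 (M.mulVec (E b) a) * y b := by
    intro M a
    have := TL_mul (j0 := j0) M (Matrix.of fun c b => E b c) y a
    simp only [hx]
    refine (Eq.trans ?_ this).trans ?_
    · rfl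
    · rfl
  unfold TunL
  refine and_congr ?_ (and_congr ?_ ?_)
  · constructor
    · intro h1 b
      rw [TL_inv (j0 := j0) E y b]
      exact TL_ord_comb D.φj _ _ h1
    · intro h1 a
      exact TL_ord_comb D.φj _ _ h1
  · -- the operator `X`
    have key : (∀ a, X0 (x a) = ∑ b, cst0 j0 ((aeval A q) a b) * x b) ↔
        ∀ b : Ix n m, XL j0 w q (y b) =
          if h : (b.2 : ℕ) + 1 < m b.1 then y ⟨b.1, ⟨(b.2 : ℕ) + 1, h⟩⟩ else 0 := by
      have h1 : ∀ a, X0 (x a) = ∑ b, cst0 j0 (E b a) * X0 (y b) := fun a =>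
        TL_op_comb X0 hXc _ _
      have h2 : ∀ a, ∑ b, cst0 j0 ((aeval A q) a b) * x b = ∑ b, cst0 j0 (E b a) *
          (if h : (b.2 : ℕ) + 1 < m b.1 then y ⟨b.1, ⟨(b.2 : ℕ) + 1, h⟩⟩ else 0) := by
        intro a
        rw [hEx, TL_shift J]
      constructor
      · intro h3 b
        have h4 := TL_inj (j0 := j0) E (y := fun b => X0 (y b)) (y' := fun b =>
          if h : (b.2 : ℕ) + 1 < m b.1 then y ⟨b.1, ⟨(b.2 : ℕ) + 1, h⟩⟩ else 0) (by
            intro a
            rw [← h1, ← h2, h3])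
        exact congrFun h4 b
      · intro h3 a
        rw [h1, h2]
        exact Finset.sum_congr rfl fun b _ => by rw [hX0, h3 b]
    rw [← key]
    constructor
    · intro h1 a
      have h2 := TL_iter W hwi A x h1
      have h3 := TL_poly W A x h2 q a
      rw [← h3, hX0]
      unfold XL opQ
      congr 1
      funext l c
      congr 1
      have h4 : ∀ (l : ℕ) (z : L), ((w⁻¹ : L ≃+* L) ^ l) z = W^[l] z := by
        intro l
        induction l with
        | zero => intro z; rfl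
        | succ l ih =>
          intro z
          rw [pow_succ', Function.iterate_succ', Function.comp_apply, ← ih]
          rfl
      exact h4 l _
    · intro h1 a
      obtain ⟨R, hR0, hR1, hR2⟩ := D.w_of_X hq
      have h2 := TL_iter X0 hXc (aeval A q) x h1
      have h3 := TL_poly X0 (aeval A q) x h2 R a
      rw [hR2]
      have h4 : (R.sum fun l c => cst0 j0 c * (XL j0 w q)^[l] (x a)) =
          R.sum fun l c => cst0 j0 c * X0^[l] (x a) := rfl
      rw [h4, h3]
      have h5 : aeval (aeval A q) R = A - 1 := by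
        obtain ⟨v, hv⟩ := hR1
        have h6 : aeval A (R.comp q - (X - 1)) = 0 := by
          rw [hv, sub_pow_char_pow, one_pow]
          simp [hA]
        rw [map_sub, aeval_comp, sub_eq_zero] at h6
        rw [h6]
        simp
      rw [h5]
      have h7 : x a = ∑ b, cst0 j0 ((1 : Matrix (Fin d) (Fin d) k) a b) * x b := by
        simp [Matrix.one_apply]
      conv_lhs => rw [h7]
      rw [← Finset.sum_add_distrib]
      refine Finset.sum_congr rfl fun b _ => ?_
      rw [← add_mul, ← map_add, Matrix.sub_apply, add_sub_cancel]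
  · have h1 : ∀ a, T (x a) = ∑ b, cst0 j0 (E b a) * T (y b) := fun a =>
      TL_op_comb T hτi _ _
    have h2 : ∀ a, ∑ b, cst0 j0 (Γ a b) * x b = ∑ b, cst0 j0 (E b a) *
        (cst0 j0 (((ζ ^ r b)⁻¹ : kˣ) : k) * y b) := by
      intro a
      rw [hEx]
      refine Finset.sum_congr rfl fun b _ => ?_
      rw [J.hΓ b]
      have h3 : ((((ζ ^ r b)⁻¹ : kˣ) • E b) : Fin d → k) a =
          (((ζ ^ r b)⁻¹ : kˣ) : k) * E b a := rfl
      rw [h3, map_mul]
      ring
    constructor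
    · intro h3 b
      have h4 := TL_inj (j0 := j0) E (y := fun b => T (y b)) (y' := fun b =>
        cst0 j0 (((ζ ^ r b)⁻¹ : kˣ) : k) * y b) (by
          intro a
          rw [← h1, ← h2, hT, h3])
      exact congrFun h4 b
    · intro h3 a
      rw [← hT, h1, h2]
      exact Finset.sum_congr rfl fun b _ => by rw [hT, h3 b]

end

end Pool.Agent.WG
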