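import Pool.Agent.WC.Num
import Pool.Agent.WG.TL

/-!
# MP_827cb6_ag, project WG : numerical functions
-/

namespace Pool.Agent.WG

open Polynomial Pool.Agent.WD Pool.Agent.WC

noncomputable section

/-- the number of the `j`, `0 < j ≤ J`, `j ≡ κ` modulo `N`, `p ∤ j` -/
def cnt (p N κ J : ℕ) : ℕ :=
  ((Finset.range (J + 1)).filter fun j => 0 < j ∧ j ≡ κ [MOD N] ∧ ¬ p ∣ j).card

variable {β : Type} [Fintype β]

/-- the value `N v`, where `u` are the upper jumps, `pos b` is the position of `b` in its block and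
`r b` its residue -/
def vGN (p N s : ℕ) (pos r : β → ℕ) (u : ℕ → ℕ) : ℕ := ∑ b, clN N (Xq p s u (pos b)) (r b)

/-- the codimension of the fixed space -/
def cGN (pos r : β → ℕ) : ℕ := (Finset.univ.filter fun b : β => ¬ (pos b = 0 ∧ r b = 0)).card

/-- the admissible pole orders of the `l`-th coordinate -/
def JV (p N κ l j : ℕ) : Prop :=
  (j ≡ κ [MOD N] ∧ ¬ p ∣ j ∧ 0 < j) ∨ (0 < l ∧ j = 0)

/-- the admissible differences `e_l = u_l - p u_{l-1}` -/
def EV (p N κ l e : ℕ) : Prop :=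
  (l = 0 ∧ e ≡ κ [MOD N] ∧ ¬ p ∣ e ∧ 0 < e) ∨ (0 < l ∧ (e = 0 ∨ (N ∣ e ∧ ¬ p ∣ e)))

/-- pole orders as a type -/
abbrev JT (p N κ s : ℕ) : Type := {J : Fin s → ℕ // ∀ l : Fin s, JV p N κ l (J l)}

/-- differences as a type -/
abbrev ET (p N κ s : ℕ) : Type := {e : Fin s → ℕ // ∀ l : Fin s, EV p N κ l (e l)}

/-- class of the set of all coordinates with the pole order `j` -/
def mclsG (p N κ j : ℕ) : ℤ[X] :=
  if j = 0 then 1 else (X ^ 2 - 1) * X ^ (2 * (cnt p N κ j - 1))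

open Classical in
/-- the admissible pole orders `≤ M` -/
def boxG (p N κ s M : ℕ) : Finset (Fin s → ℕ) :=
  (Fintype.piFinset fun _ => Finset.range (M + 1)).filter fun J => ∀ l : Fin s, JV p N κ l (J l)

/-- the class of the level set `{N v = a}` -/
def PGp (p N κ s : ℕ) (pos r : β → ℕ) (a : ℕ) : ℤ[X] :=
  ∑ J ∈ (boxG p N κ s ((p + 1) * a)).filter (fun J => vGN p N s pos r (up p (jN J)) = a),
    ∏ l, mclsG p N κ (J l)

/-- the class of the level set `{N w = b}` -/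
def QGp (p N κ s : ℕ) (pos r : β → ℕ) (b : ℤ) : ℤ[X] :=
  ∑ J ∈ (boxG p N κ s ((p + 1) * (N * cGN pos r + (-b).toNat))).filter
    (fun J => ((N * cGN pos r : ℕ) : ℤ) - (vGN p N s pos r (up p (jN J)) : ℤ) = b),
    ∏ l, mclsG p N κ (J l)

/-- the exponent `A(e) = N ∑_l cnt(u_l) - N v` -/
def AG (p N κ : ℕ) {s : ℕ} (pos r : β → ℕ) (e : Fin s → ℕ) : ℤ :=
  ((N * ∑ l : Fin s, cnt p N κ (ue p (jN e) l) : ℕ) : ℤ) - vGN p N s pos r (ue p (jN e))

/-- the numerical data -/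
structure ND (p N κ s : ℕ) (pos r : β → ℕ) : Prop where
  hN : 0 < N
  hpN : ¬ p ∣ N
  hκ : N ∣ (p - 1) * κ
  hpos : ∀ b, pos b < p ^ s
  hr : ∀ b, r b < N
  hf : s = 0 ∨ ∃ b, pos b = p ^ (s - 1)

/-- the dual residues -/
def dr (N : ℕ) (r : β → ℕ) : β → ℕ := fun b => (N - r b) % N

/-- the dual residue class -/
def dk (N κ : ℕ) : ℕ := (N - κ % N) % N

end

end Pool.Agent.WG
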