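import Pool.Agent.WG.Gen

/-!
# Polynomials in an automorphism (piece WG-Q2)

`L` is a field with constants `cc : k → L`, and `w` an automorphism of `L` which fixes the
constants; `opQ cc w q` is the operator `q(w)` on `L`.
-/

namespace Pool.Agent.WG

open Polynomial

noncomputable section

universe u v

variable {k : Type u} [Field k] {L : Type v} [Field L]

/-- the operator `q(w)` -/
def opQ (cc : k →+* L) (w : L ≃+* L) (q : k[X]) (x : L) : L := q.sum fun n a => cc a * (w ^ n) x

variable {cc : k →+* L} {w : L ≃+* L}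

private theorem OpQ_mon (n : ℕ) (a : k) (x : L) :
    opQ cc w (monomial n a) x = cc a * (w ^ n) x := by
  unfold opQ
  rw [Polynomial.sum_monomial_index]
  rw [map_zero, zero_mul]

private theorem OpQ_pow_succ (w : L ≃+* L) (n : ℕ) (x : L) : (w ^ (n + 1)) x = w ((w ^ n) x) := by
  rw [pow_succ']
  rfl

private theorem OpQ_pow_add (w : L ≃+* L) (n m : ℕ) (x : L) :
    (w ^ (n + m)) x = (w ^ n) ((w ^ m) x) := by
  rw [pow_add]
  rfl

private theorem OpQ_pow_fixed {w : L ≃+* L} {a : L} (ha : w a = a) (n : ℕ) : (w ^ n) a = a := by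
  induction n with
  | zero => rw [pow_zero]; rfl
  | succ n ih => rw [OpQ_pow_succ, ih, ha]

theorem opQ_add (q q' : k[X]) (x : L) : opQ cc w (q + q') x = opQ cc w q x + opQ cc w q' x := by
  unfold opQ
  rw [Polynomial.sum_add_index]
  · intro i
    rw [map_zero, zero_mul]
  · intro i a b
    rw [map_add, add_mul]

theorem opQ_sub (q q' : k[X]) (x : L) : opQ cc w (q - q') x = opQ cc w q x - opQ cc w q' x := by
  have h := opQ_add (cc := cc) (w := w) (q - q') q' x
  rw [sub_add_cancel] at h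
  rw [h, add_sub_cancel_right]

theorem opQ_map_add (q : k[X]) (x y : L) : opQ cc w q (x + y) = opQ cc w q x + opQ cc w q y := by
  unfold opQ
  rw [Polynomial.sum_def, Polynomial.sum_def, Polynomial.sum_def, ← Finset.sum_add_distrib]
  refine Finset.sum_congr rfl fun n _ => ?_
  rw [map_add, mul_add]

theorem opQ_C (a : k) (x : L) : opQ cc w (C a) x = cc a * x := by
  rw [← Polynomial.monomial_zero_left, OpQ_mon, pow_zero]
  rfl

theorem opQ_X (x : L) : opQ cc w X x = w x := by
  rw [← Polynomial.monomial_one_one_eq_X, OpQ_mon, pow_one, map_one, one_mul]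

theorem opQ_X_pow (n : ℕ) (x : L) : opQ cc w (X ^ n) x = (w ^ n) x := by
  rw [Polynomial.X_pow_eq_monomial, OpQ_mon, map_one, one_mul]

/-- multiplicativity, if `w` fixes the constants -/
theorem opQ_mul (h : ∀ a, w (cc a) = cc a) (q q' : k[X]) (x : L) :
    opQ cc w (q * q') x = opQ cc w q (opQ cc w q' x) := by
  induction q using Polynomial.induction_on' with
  | add q1 q2 h1 h2 => rw [add_mul, opQ_add, opQ_add, h1, h2]
  | monomial n a =>
    induction q' using Polynomial.induction_on' with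
    | add q1 q2 h1 h2 => rw [mul_add, opQ_add, opQ_add, opQ_map_add, h1, h2]
    | monomial m b =>
      rw [Polynomial.monomial_mul_monomial, OpQ_mon, OpQ_mon, OpQ_mon, map_mul, map_mul,
        OpQ_pow_fixed (h b), OpQ_pow_add, mul_assoc]

theorem opQ_comp_pow (h : ∀ a, w (cc a) = cc a) (q : k[X]) (n : ℕ) (x : L) :
    opQ cc w (q.comp (X ^ n)) x = opQ cc (w ^ n) q x := by
  have _ := h
  induction q using Polynomial.induction_on' with
  | add q1 q2 h1 h2 => rw [Polynomial.add_comp, opQ_add, opQ_add, h1, h2]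
  | monomial m b =>
    rw [Polynomial.monomial_comp, ← pow_mul, Polynomial.C_mul_X_pow_eq_monomial, OpQ_mon, OpQ_mon,
      pow_mul]

/-- multiplication by a fixed element commutes with `q(w)` -/
theorem opQ_mul_fixed (q : k[X]) (a : L) (ha : w a = a) (x : L) :
    opQ cc w q (a * x) = a * opQ cc w q x := by
  unfold opQ
  rw [Polynomial.sum_def, Polynomial.sum_def, Finset.mul_sum]
  refine Finset.sum_congr rfl fun n _ => ?_
  rw [map_mul, OpQ_pow_fixed ha, mul_left_comm]

/-- if `w^(p^s) = 1`, multiples of `x^(p^s) - 1` act as zero -/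
theorem opQ_eq_of_dvd (h : ∀ a, w (cc a) = cc a) {m : ℕ} (hw : w ^ m = 1) (q q' : k[X])
    (hd : (X ^ m - 1 : k[X]) ∣ q - q') (x : L) : opQ cc w q x = opQ cc w q' x := by
  obtain ⟨r, hr⟩ := hd
  have h1 : opQ cc w (q - q') x = 0 := by
    rw [hr, mul_comm, opQ_mul h, opQ_sub, opQ_X_pow, hw, ← Polynomial.C_1, opQ_C, map_one, one_mul]
    have h2 : (1 : L ≃+* L) x - x = 0 := sub_self x
    rw [h2]
    have h3 := opQ_map_add (cc := cc) (w := w) r 0 0
    rw [add_zero] at h3
    exact (left_eq_add.1 h3)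
  rw [opQ_sub] at h1
  exact sub_eq_zero.1 h1

/-- conjugation: `τ q(w^n) τ⁻¹ = q(w')` if `w' τ = τ w^n` -/
theorem opQ_conj (q : k[X]) (τ w' : L ≃+* L) (hτ : ∀ a, τ (cc a) = cc a) (n : ℕ)
    (h : ∀ x, w' (τ x) = τ ((w ^ n) x)) (x : L) :
    opQ cc w' q (τ x) = τ (opQ cc (w ^ n) q x) := by
  have h1 : ∀ m : ℕ, (w' ^ m) (τ x) = τ (((w ^ n) ^ m) x) := by
    intro m
    induction m with
    | zero => rw [pow_zero, pow_zero]; rfl
    | succ m ih => rw [OpQ_pow_succ, ih, h, OpQ_pow_succ]
  unfold opQ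
  rw [Polynomial.sum_def, Polynomial.sum_def, map_sum]
  refine Finset.sum_congr rfl fun m _ => ?_
  rw [map_mul, hτ, h1]

end

end Pool.Agent.WG
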