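import Pool.Agent.WG.Wit
import Pool.Agent.WD.A1

/-! # Reduction of Laurent series and Witt vectors modulo `℘` (piece WG-W1) -/

namespace Pool.Agent.WG

open Pool.Agent.WD Pool.Agent.WC

noncomputable section

universe u

variable {p : ℕ} [Fact p.Prime] {k : Type u} [Field k] [IsAlgClosed k] [CharP k p] {s : ℕ}

instance charP_LS : CharP (LaurentSeries k) p := charP_of_injective_algebraMap
  (algebraMap k (LaurentSeries k)).injective p

private def W1_red (p : ℕ) (f : LaurentSeries k) : Prop :=
  ∃ (c : Jp p →₀ k) (y : LaurentSeries k),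
    f = (c.sum fun j a => HahnSeries.single (-(j.1 : ℤ)) a) + (y ^ p - y)

omit [IsAlgClosed k] in
private theorem W1_add {f g : LaurentSeries k} (hf : W1_red p f) (hg : W1_red p g) :
    W1_red p (f + g) := by
  obtain ⟨c, y, hf⟩ := hf
  obtain ⟨d, z, hg⟩ := hg
  refine ⟨c + d, y + z, ?_⟩
  rw [Finsupp.sum_add_index' (fun j => by simp) (fun j a b => by simp), add_pow_char, hf, hg]
  ring

omit [Fact p.Prime] [IsAlgClosed k] [CharP k p] in
private theorem W1_sub (y : LaurentSeries k) : W1_red p (y ^ p - y) :=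
  ⟨0, y, by simp⟩

private theorem W1_single (m : ℕ) (hm : 0 < m) (a : k) :
    W1_red p (HahnSeries.single (-(m : ℤ)) a : LaurentSeries k) := by
  have hp : p.Prime := Fact.out
  induction m using Nat.strong_induction_on generalizing a with
  | _ m ih =>
    by_cases h : p ∣ m
    · obtain ⟨l, rfl⟩ := h
      have hl : 0 < l := Nat.pos_of_mul_pos_left hm
      obtain ⟨b, hb⟩ := IsAlgClosed.exists_pow_nat_eq a hp.pos
      have h1 : (HahnSeries.single (-((p * l : ℕ) : ℤ)) a : LaurentSeries k) =
          ((HahnSeries.single (-(l : ℤ)) b) ^ p - HahnSeries.single (-(l : ℤ)) b) +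
            HahnSeries.single (-(l : ℤ)) b := by
        rw [HahnSeries.single_pow, hb, sub_add_cancel]
        congr 2
        push_cast
        rw [nsmul_eq_mul]
        ring
      rw [h1]
      exact W1_add (W1_sub _) (ih l (by nlinarith [hp.two_le]) hl b)
    · refine ⟨Finsupp.single ⟨m, h⟩ a, 0, ?_⟩
      rw [Finsupp.sum_single_index (by simp), zero_pow hp.ne_zero]
      simp

private def W1_Y (p : ℕ) [hp : Fact p.Prime] {k : Type u} [Field k] (b : k) (g : ℕ → k) :
    ℕ → k
  | n => if _h : n = 0 then b else (if p ∣ n then (W1_Y p b g (n / p)) ^ p else 0) - g n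
  termination_by n => n
  decreasing_by exact Nat.div_lt_self (Nat.pos_of_ne_zero _h) hp.out.one_lt

omit [IsAlgClosed k] in
private theorem W1_coeff_pow (y : LaurentSeries k) (n : ℤ) :
    (y ^ p).coeff n = if (p : ℤ) ∣ n then (y.coeff (n / p)) ^ p else 0 := by
  have hp : p.Prime := Fact.out
  have hp0 : (p : ℚ) ≠ 0 := by exact_mod_cast hp.ne_zero
  rw [← toOm_coeff_int, map_pow, coeff_pow_p]
  split_ifs with h
  · obtain ⟨m, rfl⟩ := h
    have h1 : ((p : ℤ) * m) / (p : ℤ) = m :=
      Int.mul_ediv_cancel_left m (by exact_mod_cast hp.ne_zero)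
    have h2 : (((p : ℤ) * m : ℤ) : ℚ) / (p : ℚ) = (m : ℚ) := by
      push_cast
      field_simp
    rw [h1, h2, toOm_coeff_int]
  · rw [toOm_coeff_not, zero_pow hp.ne_zero]
    intro j hj
    apply h
    refine ⟨j, ?_⟩
    have h3 : (n : ℚ) = (p : ℚ) * j := by
      rw [← hj]
      field_simp
    exact_mod_cast h3

private theorem W1_nonneg (f : LaurentSeries k) (hf : ∀ n < 0, f.coeff n = 0) : W1_red p f := by
  have hp : p.Prime := Fact.out
  have hp0 : (0 : ℤ) < p := by exact_mod_cast hp.pos
  obtain ⟨b, hb⟩ : ∃ b : k, b ^ p - b = f.coeff 0 := by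
    obtain ⟨b, hb⟩ := IsAlgClosed.exists_root
      (Polynomial.X ^ p - Polynomial.X - Polynomial.C (f.coeff 0) : Polynomial k) (by
        have h1 : (Polynomial.X ^ p - Polynomial.X - Polynomial.C (f.coeff 0) :
            Polynomial k).degree = (p : WithBot ℕ) := by
          rw [sub_sub]
          rw [Polynomial.degree_sub_eq_left_of_degree_lt, Polynomial.degree_X_pow]
          rw [Polynomial.degree_X_pow, Polynomial.degree_X_add_C]
          exact_mod_cast hp.one_lt
        rw [h1]
        exact_mod_cast hp.ne_zero)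
    refine ⟨b, ?_⟩
    rw [Polynomial.IsRoot.def] at hb
    simp only [Polynomial.eval_sub, Polynomial.eval_pow, Polynomial.eval_X,
      Polynomial.eval_C] at hb
    exact sub_eq_zero.1 hb
  obtain ⟨Y, hY⟩ : ∃ Y : ℕ → k, Y = W1_Y p b fun n => f.coeff n := ⟨_, rfl⟩
  have hY0 : Y 0 = b := by rw [hY, W1_Y]; simp
  have hYn : ∀ n : ℕ, 0 < n → Y n = (if p ∣ n then (Y (n / p)) ^ p else 0) - f.coeff n := by
    intro n hn
    rw [hY, W1_Y, dif_neg hn.ne']
  obtain ⟨y, hy⟩ : ∃ y : LaurentSeries k, y = HahnSeries.ofPowerSeries ℤ k (PowerSeries.mk Y) :=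
    ⟨_, rfl⟩
  have hyn : ∀ n : ℕ, y.coeff n = Y n := by
    intro n
    have h1 := HahnSeries.ofPowerSeries_apply_coeff (Γ := ℤ) (PowerSeries.mk Y) n
    rw [hy]
    rw [PowerSeries.coeff_mk] at h1
    exact h1
  have hyneg : ∀ n : ℤ, n < 0 → y.coeff n = 0 := by
    intro n hn
    rw [hy, HahnSeries.ofPowerSeries_apply, HahnSeries.embDomain_of_notMem_range]
    rintro ⟨i, hi⟩
    have : ((i : ℕ) : ℤ) = n := hi
    omega
  refine ⟨0, y, ?_⟩
  rw [Finsupp.sum_zero_index, zero_add]
  ext n
  rw [HahnSeries.coeff_sub, W1_coeff_pow]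
  rcases lt_trichotomy n 0 with h | h | h
  · rw [hf n h, hyneg n h, hyneg (n / p) (Int.ediv_neg_of_neg_of_pos h hp0),
      zero_pow hp.ne_zero]
    simp
  · subst h
    have h0 : y.coeff 0 = b := by
      have := hyn 0
      rw [hY0] at this
      exact_mod_cast this
    rw [if_pos (dvd_zero _), Int.zero_ediv, h0, hb]
  · lift n to ℕ using h.le
    have hn : 0 < n := by exact_mod_cast h
    have e1 : ((n : ℤ) / (p : ℤ)) = ((n / p : ℕ) : ℤ) := by push_cast; rfl
    rw [e1, hyn, hyn, hYn n hn]
    simp only [Int.natCast_dvd_natCast]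
    ring

private theorem W1_all (N : ℕ) : ∀ f : LaurentSeries k, (∀ n < -(N : ℤ), f.coeff n = 0) →
    W1_red p f := by
  induction N with
  | zero =>
    intro f hf
    exact W1_nonneg f fun n hn => hf n (by simpa using hn)
  | succ N ih =>
    intro f hf
    have h1 : f = HahnSeries.single (-((N + 1 : ℕ) : ℤ)) (f.coeff (-((N + 1 : ℕ) : ℤ))) +
        (f - HahnSeries.single (-((N + 1 : ℕ) : ℤ)) (f.coeff (-((N + 1 : ℕ) : ℤ)))) := by
      ring
    rw [h1]
    refine W1_add (W1_single _ N.succ_pos _) (ih _ fun n hn => ?_)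
    rw [HahnSeries.coeff_sub, HahnSeries.coeff_single]
    split_ifs with h
    · rw [h, sub_self]
    · rw [sub_zero]
      apply hf
      push_cast at h ⊢
      omega

/-- `a T^{-jp} ≡ a^{1/p} T^{-j}`; the constant term: `k` is algebraically closed; the positive part
`x`: `y = -∑_n x^(p^n)`. -/
theorem exists_reduced_one (f : LaurentSeries k) :
    ∃ (c : Jp p →₀ k) (y : LaurentSeries k),
      f = (c.sum fun j a => HahnSeries.single (-(j.1 : ℤ)) a) + (y ^ p - y) := by
  refine W1_all (-f.order).toNat f fun n hn => ?_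
  apply HahnSeries.coeff_eq_zero_of_lt_order
  omega

omit [Fact p.Prime] [IsAlgClosed k] [CharP k p] in
private theorem W1_polar (c : Par p s k) (d : Jp p →₀ k) : ∃ c' : Par p (s + 1) k,
    (∀ i : Fin s, polar c' i.castSucc = polar c i) ∧
      polar c' (Fin.last s) = d.sum fun j a => HahnSeries.single (-(j.1 : ℤ)) a := by
  have hi1 : Function.Injective fun x : Fin s × Jp p => (x.1.castSucc, x.2) := by
    rintro ⟨a, b⟩ ⟨a', b'⟩ h
    simp only [Prod.mk.injEq] at h
    exact Prod.ext (Fin.castSucc_injective _ h.1) h.2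
  have hi2 : Function.Injective fun j : Jp p => (Fin.last s, j) := by
    intro a b h
    simp only [Prod.mk.injEq, true_and] at h
    exact h
  have hadd : ∀ (i : Fin (s + 1)) (a b : Par p (s + 1) k), polar (a + b) i =
      polar a i + polar b i := by
    intro i a b
    unfold polar
    refine Finsupp.sum_add_index' (fun x => ?_) (fun x a b => ?_)
    · split_ifs <;> simp
    · split_ifs <;> simp
  refine ⟨c.mapDomain (fun x => (x.1.castSucc, x.2)) + d.mapDomain (fun j => (Fin.last s, j)),
    fun i => ?_, ?_⟩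
  · rw [hadd]
    unfold polar
    rw [Finsupp.sum_mapDomain_index_inj hi1, Finsupp.sum_mapDomain_index_inj hi2]
    have h2 : (d.sum fun a m => if (Fin.last s, a).1 = i.castSucc then
        (HahnSeries.single (-(((Fin.last s, a).2 : Jp p).1 : ℤ)) m : LaurentSeries k) else 0) =
          0 := by
      exact Finset.sum_eq_zero fun j _ => if_neg (Fin.castSucc_lt_last i).ne'
    rw [h2, add_zero]
    refine Finsupp.sum_congr fun x _ => ?_
    simp only [Fin.castSucc_inj]
  · rw [hadd]
    unfold polar
    rw [Finsupp.sum_mapDomain_index_inj hi1, Finsupp.sum_mapDomain_index_inj hi2]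
    have h2 : (c.sum fun a m => if (a.1.castSucc, a.2).1 = Fin.last s then
        (HahnSeries.single (-(((a.1.castSucc, a.2) : Fin (s + 1) × Jp p).2.1 : ℤ)) m :
          LaurentSeries k) else 0) = 0 := by
      exact Finset.sum_eq_zero fun j _ => if_neg (Fin.castSucc_lt_last j.1).ne
    rw [h2, zero_add]
    refine Finsupp.sum_congr fun x _ => ?_
    simp only [if_true]

/-- Induction on `s`: reduce the first coordinate with `[y]`, subtract it and divide by `V`. -/
theorem exists_reduced (f : WittVector p (LaurentSeries k)) (s : ℕ) :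
    ∃ (c : Par p s k) (y : WittVector p (LaurentSeries k)),
      ∀ i < s, (f - (WittVector.frobenius y - y)).coeff i = (wfK c).coeff i := by
  induction s with
  | zero => exact ⟨0, 0, fun i hi => absurd hi (Nat.not_lt_zero i)⟩
  | succ s ih =>
    obtain ⟨c, y, hy⟩ := ih
    obtain ⟨x, hx⟩ : ∃ x, x = f - (WittVector.frobenius y - y) := ⟨_, rfl⟩
    rw [← hx] at hy
    obtain ⟨d, u, hu⟩ := exists_reduced_one (p := p) (x.coeff s)
    obtain ⟨c', hc1, hc2⟩ := W1_polar c d
    have hT : WittVector.frobenius (WittVector.teichmuller p u) =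
        WittVector.teichmuller p (u ^ p) := by
      ext i
      rw [WittVector.coeff_frobenius_charP]
      rcases Nat.eq_zero_or_pos i with rfl | hi
      · rw [WittVector.teichmuller_coeff_zero, WittVector.teichmuller_coeff_zero]
      · rw [WittVector.teichmuller_coeff_pos p _ _ hi, WittVector.teichmuller_coeff_pos p _ _ hi,
          zero_pow (Fact.out : p.Prime).ne_zero]
    have hF : WittVector.frobenius ((WittVector.verschiebung)^[s] (WittVector.teichmuller p u)) =
        (WittVector.verschiebung)^[s] (WittVector.teichmuller p (u ^ p)) := by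
      have hc : Function.Commute
          (WittVector.verschiebung : WittVector p (LaurentSeries k) → _)
          WittVector.frobenius := WittVector.verschiebung_frobenius_comm
      rw [← hT]
      exact ((hc.iterate_left s) _).symm
    refine ⟨c', y + (WittVector.verschiebung)^[s] (WittVector.teichmuller p u), ?_⟩
    have key : f - (WittVector.frobenius (y + (WittVector.verschiebung)^[s]
        (WittVector.teichmuller p u)) - (y + (WittVector.verschiebung)^[s]
        (WittVector.teichmuller p u))) =
        (x - (WittVector.verschiebung)^[s] (WittVector.teichmuller p (u ^ p))) +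
          (WittVector.verschiebung)^[s] (WittVector.teichmuller p u) := by
      rw [map_add, hF, hx]
      ring
    rw [key]
    obtain ⟨h1, h2⟩ := coeff_sub_iterate x s (u ^ p)
    obtain ⟨h3, h4⟩ := coeff_add_iterate
      (x - (WittVector.verschiebung)^[s] (WittVector.teichmuller p (u ^ p))) s u
    intro i hi
    rcases Nat.lt_succ_iff_lt_or_eq.1 hi with h | h
    · rw [h3 i h, h1 i h, hy i h]
      unfold wfK
      rw [WittVector.coeff_mk, WittVector.coeff_mk, dif_pos h, dif_pos hi]
      exact (hc1 ⟨i, h⟩).symm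
    · subst h
      rw [h4, h2, hu]
      unfold wfK
      rw [WittVector.coeff_mk, dif_pos hi]
      have h5 : (⟨i, hi⟩ : Fin (i + 1)) = Fin.last i := rfl
      rw [h5, hc2]
      ring

end

end Pool.Agent.WG
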