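import Pool.Agent.WG.Wit

/-! # Uniqueness of the reduced Witt vector (piece WG-W2) -/

namespace Pool.Agent.WG

open Pool.Agent.WD Pool.Agent.WC

noncomputable section

universe u

variable {p : ℕ} [Fact p.Prime] {k : Type u} [Field k] [CharP k p] {s : ℕ}

omit [Fact p.Prime] in
private theorem W2_charP : CharP (LaurentSeries k) p := charP_of_injective_algebraMap
  (algebraMap k (LaurentSeries k)).injective p

private theorem W2_pow_mul (y : LaurentSeries k) (m : ℤ) :
    (y ^ p).coeff ((p : ℤ) * m) = (y.coeff m) ^ p := by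
  have hp0 : (p : ℚ) ≠ 0 := by exact_mod_cast (Fact.out : p.Prime).ne_zero
  rw [← toOm_coeff_int, map_pow, coeff_pow_p, ← toOm_coeff_int y]
  congr 2
  push_cast
  field_simp

private theorem W2_pow_not (y : LaurentSeries k) (n : ℤ) (h : ¬ (p : ℤ) ∣ n) :
    (y ^ p).coeff n = 0 := by
  have hp0 : (p : ℚ) ≠ 0 := by exact_mod_cast (Fact.out : p.Prime).ne_zero
  rw [← toOm_coeff_int, map_pow, coeff_pow_p, toOm_coeff_not, zero_pow (Fact.out : p.Prime).ne_zero]
  intro j hj
  apply h
  refine ⟨j, ?_⟩
  rw [div_eq_iff hp0] at hj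
  have h1 : n = j * (p : ℤ) := by exact_mod_cast hj
  rw [h1, mul_comm]

omit [Fact p.Prime] [CharP k p] in
private theorem W2_sum_coeff (c : Jp p →₀ k) (z : ℤ) :
    (c.sum fun j a => (HahnSeries.single (-(j.1 : ℤ)) a : LaurentSeries k)).coeff z =
      ∑ j ∈ c.support, if z = -(j.1 : ℤ) then c j else 0 := by
  rw [Finsupp.sum, HahnSeries.coeff_sum]
  refine Finset.sum_congr rfl fun j _ => ?_
  rw [HahnSeries.coeff_single]
  split_ifs <;> rfl

omit [Fact p.Prime] [CharP k p] in
private theorem W2_sum_coeff_self (c : Jp p →₀ k) (j : Jp p) :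
    (c.sum fun j a => (HahnSeries.single (-(j.1 : ℤ)) a : LaurentSeries k)).coeff (-(j.1 : ℤ)) =
      c j := by
  rw [W2_sum_coeff, Finset.sum_eq_single j]
  · rw [if_pos rfl]
  · intro i _ hij
    rw [if_neg]
    intro h
    apply hij
    apply Subtype.ext
    omega
  · intro hj
    rw [if_pos rfl]
    exact Finsupp.notMem_support_iff.1 hj

omit [Fact p.Prime] [CharP k p] in
private theorem W2_sum_coeff_not (c : Jp p →₀ k) (z : ℤ) (h : ∀ j : Jp p, z ≠ -(j.1 : ℤ)) :
    (c.sum fun j a => (HahnSeries.single (-(j.1 : ℤ)) a : LaurentSeries k)).coeff z = 0 := by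
  rw [W2_sum_coeff]
  exact Finset.sum_eq_zero fun j _ => if_neg (h j)

/-- If `y` has a pole of order `m > 0`, then `y^p - y` has the pole order `p m`, but all pole
orders that occur in the sum on the left are prime to `p`. So `y` is a power series, the polar
part is zero, and `y^p = y`. -/
theorem reduced_unique_one (c : Jp p →₀ k) (y : LaurentSeries k)
    (h : (c.sum fun j a => HahnSeries.single (-(j.1 : ℤ)) a) = y ^ p - y) : c = 0 := by
  have hp : p.Prime := Fact.out
  have hp0 : (0 : ℤ) < p := by exact_mod_cast hp.pos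
  have hp1 : (1 : ℤ) < p := by exact_mod_cast hp.one_lt
  have h1 : ∀ m : ℤ, y.coeff ((p : ℤ) * m) = (y.coeff m) ^ p := by
    intro m
    have e := congrArg (fun x : LaurentSeries k => x.coeff ((p : ℤ) * m)) h
    simp only [HahnSeries.coeff_sub] at e
    rw [W2_sum_coeff_not, W2_pow_mul] at e
    · exact (sub_eq_zero.1 e.symm).symm
    · intro j hj
      apply j.2
      have h2 : (p : ℤ) ∣ (j.1 : ℤ) := ⟨-m, by linarith⟩
      exact_mod_cast h2
  have h2 : ∀ (m : ℤ) (n : ℕ), y.coeff ((p : ℤ) ^ n * m) = (y.coeff m) ^ (p ^ n) := by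
    intro m n
    induction n with
    | zero => simp
    | succ n ih => rw [pow_succ', mul_assoc, h1, ih, ← pow_mul, pow_succ]
  have h3 : ∀ m : ℤ, m < 0 → y.coeff m = 0 := by
    intro m hm
    by_contra hne
    have hpow : ∀ n : ℕ, y.coeff ((p : ℤ) ^ n * m) ≠ 0 := fun n => by
      rw [h2]
      exact pow_ne_zero _ hne
    have hwf := y.isWF_support
    rw [Set.isWF_iff_no_descending_seq] at hwf
    refine hwf (fun n => (p : ℤ) ^ n * m) ?_ fun n => hpow n
    refine strictAnti_nat_of_succ_lt fun n => ?_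
    have h4 : (0 : ℤ) < (p : ℤ) ^ n := pow_pos hp0 n
    have h5 : (p : ℤ) ^ (n + 1) * m = (p : ℤ) ^ n * ((p : ℤ) * m) := by ring
    rw [h5]
    refine mul_lt_mul_of_pos_left ?_ h4
    nlinarith
  ext j
  have hj : (0 : ℤ) < (j.1 : ℤ) := by
    have h4 : j.1 ≠ 0 := fun h4 => j.2 (by rw [h4]; exact dvd_zero p)
    exact_mod_cast Nat.pos_of_ne_zero h4
  have e := congrArg (fun x : LaurentSeries k => x.coeff (-(j.1 : ℤ))) h
  simp only [HahnSeries.coeff_sub] at e
  rw [W2_sum_coeff_self, W2_pow_not, h3 _ (by omega), sub_zero] at e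
  · exact e
  · intro h5
    apply j.2
    rw [dvd_neg] at h5
    exact_mod_cast h5

omit [Fact p.Prime] [CharP k p] in
private theorem W2_polar (c : Par p s k) (i : Fin s) :
    polar c i = (c.comapDomain (fun j => (i, j)) (fun _ _ _ _ e => (Prod.mk.inj e).2)).sum
      fun j a => HahnSeries.single (-(j.1 : ℤ)) a := by
  classical
  have hval : ∀ z : ℤ, (polar c i).coeff z =
      ∑ x ∈ c.support, if x.1 = i ∧ z = -(x.2.1 : ℤ) then c x else 0 := by
    intro z
    unfold polar
    rw [Finsupp.sum, HahnSeries.coeff_sum]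
    refine Finset.sum_congr rfl fun x _ => ?_
    by_cases h1 : x.1 = i
    · rw [if_pos h1, HahnSeries.coeff_single]
      by_cases h2 : z = -(x.2.1 : ℤ)
      · rw [if_pos h2, if_pos ⟨h1, h2⟩]
      · rw [if_neg h2, if_neg (fun h => h2 h.2)]
    · rw [if_neg h1, if_neg (fun h => h1 h.1), HahnSeries.coeff_zero]
  ext z
  rw [hval]
  by_cases hz : ∃ j : Jp p, z = -(j.1 : ℤ)
  · obtain ⟨j, rfl⟩ := hz
    rw [W2_sum_coeff_self, Finsupp.comapDomain_apply, Finset.sum_eq_single (i, j)]
    · rw [if_pos ⟨rfl, rfl⟩]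
    · rintro ⟨i', j'⟩ _ hne
      rw [if_neg]
      rintro ⟨h1, h2⟩
      apply hne
      refine Prod.ext h1 (Subtype.ext ?_)
      change j'.1 = j.1
      change -(j.1 : ℤ) = -(j'.1 : ℤ) at h2
      omega
    · intro hj
      rw [if_pos ⟨rfl, rfl⟩]
      exact Finsupp.notMem_support_iff.1 hj
  · push Not at hz
    rw [W2_sum_coeff_not _ _ hz]
    exact Finset.sum_eq_zero fun x _ => if_neg fun h => hz x.2 h.2

/-- two Witt vectors with the same first coordinates -/
private theorem W2_sub {A : Type*} [Field A] [CharP A p] (a b : WittVector p A) (i : ℕ)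
    (h : ∀ j < i, a.coeff j = b.coeff j) : (a - b).coeff i = a.coeff i - b.coeff i := by
  set d : WittVector p A := WittVector.mk p fun j => if j < i then b.coeff j else 0 with hd
  have hdc : ∀ j, d.coeff j = if j < i then b.coeff j else 0 := fun j => rfl
  have key : ∀ (e : WittVector p A), (∀ j < i, e.coeff j = b.coeff j) → ∀ j < i + 1,
      e.coeff j = (d + (WittVector.verschiebung)^[i]
        (WittVector.teichmuller p (e.coeff i))).coeff j := by
    intro e he j hj
    obtain ⟨h1, h2⟩ := coeff_add_iterate d i (e.coeff i)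
    rcases Nat.lt_succ_iff_lt_or_eq.1 hj with h3 | rfl
    · rw [h1 j h3, hdc, if_pos h3, he j h3]
    · rw [h2, hdc, if_neg (lt_irrefl _), zero_add]
  rw [coeff_sub_congr (key a h) (key b fun j _ => rfl) i (Nat.lt_succ_self i)]
  have e4 : d + (WittVector.verschiebung)^[i] (WittVector.teichmuller p (a.coeff i)) -
      (d + (WittVector.verschiebung)^[i] (WittVector.teichmuller p (b.coeff i))) =
      (0 + (WittVector.verschiebung)^[i] (WittVector.teichmuller p (a.coeff i))) -
        (WittVector.verschiebung)^[i] (WittVector.teichmuller p (b.coeff i)) := by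
    ring
  rw [e4, (coeff_sub_iterate _ i _).2, (coeff_add_iterate _ i _).2, WittVector.zero_coeff,
    zero_add]

/-- Induction on `s` with `[f_0] + V(f_1, ...)`; `y_0 ∈ 𝔽_p`. -/
theorem reduced_unique (c c' : Par p s k) (y : WittVector p (LaurentSeries k))
    (h : ∀ i < s, (wfK c - wfK c').coeff i = (WittVector.frobenius y - y).coeff i) :
    c = c' ∧ ∃ n : ℕ, ∀ i < s, y.coeff i = ((n : ℕ) : WittVector p (LaurentSeries k)).coeff i := by
  classical
  have hp : p.Prime := Fact.out
  have : CharP (LaurentSeries k) p := W2_charP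
  have hwf : ∀ (c : Par p s k) (i : ℕ) (hi : i < s), (wfK c).coeff i = polar c ⟨i, hi⟩ := by
    intro c i hi
    change (if h : i < s then polar c ⟨i, h⟩ else 0) = _
    rw [dif_pos hi]
  have main : ∀ i, ∀ hi : i < s, (∀ j, c (⟨i, hi⟩, j) = c' (⟨i, hi⟩, j)) := by
    intro i
    induction i using Nat.strong_induction_on with
    | _ i ih =>
      intro hi
      have hpol : ∀ j < i, (wfK c).coeff j = (wfK c').coeff j := by
        intro j hj
        have hjs := hj.trans hi
        rw [hwf c j hjs, hwf c' j hjs, W2_polar, W2_polar]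
        congr 1
        ext l
        rw [Finsupp.comapDomain_apply, Finsupp.comapDomain_apply]
        exact ih j hj hjs l
      have hzero : ∀ j < i, (WittVector.frobenius y - y).coeff j = 0 := by
        intro j hj
        rw [← h j (hj.trans hi), coeff_sub_congr hpol (fun j _ => rfl) j hj, sub_self,
          WittVector.zero_coeff]
      obtain ⟨g, hg⟩ := exists_nat_of_frobenius i y hzero
      set y' := y - ((g.val : ℕ) : WittVector p (LaurentSeries k)) with hy'
      have hy'0 : ∀ j < i, y'.coeff j = 0 := by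
        intro j hj
        rw [hy', coeff_sub_congr hg (fun j _ => rfl) j hj, sub_self, WittVector.zero_coeff]
      have hF : WittVector.frobenius y' - y' = WittVector.frobenius y - y := by
        rw [hy', map_sub, map_natCast]
        ring
      have h1 : (WittVector.frobenius y' - y').coeff i = y'.coeff i ^ p - y'.coeff i := by
        rw [W2_sub _ _ i, WittVector.coeff_frobenius_charP]
        intro j hj
        rw [WittVector.coeff_frobenius_charP, hy'0 j hj, zero_pow hp.ne_zero]
      have h2 := h i hi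
      rw [W2_sub _ _ i hpol, ← hF, h1, hwf c i hi, hwf c' i hi, W2_polar, W2_polar] at h2
      set a := c.comapDomain (fun j => ((⟨i, hi⟩ : Fin s), j))
        (fun _ _ _ _ e => (Prod.mk.inj e).2) with ha
      set b := c'.comapDomain (fun j => ((⟨i, hi⟩ : Fin s), j))
        (fun _ _ _ _ e => (Prod.mk.inj e).2) with hb
      have h3 : ((a - b).sum fun j x => (HahnSeries.single (-(j.1 : ℤ)) x : LaurentSeries k)) =
          y'.coeff i ^ p - y'.coeff i := by
        rw [← h2, Finsupp.sum_sub_index]
        intro j x x'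
        exact map_sub (HahnSeries.single.addMonoidHom (-(j.1 : ℤ))) x x'
      have h4 := reduced_unique_one (a - b) (y'.coeff i) h3
      intro j
      have h5 : a j = b j := by
        rw [sub_eq_zero.1 h4]
      rw [ha, hb, Finsupp.comapDomain_apply, Finsupp.comapDomain_apply] at h5
      exact h5
  have hcc : c = c' := by
    ext ⟨i, j⟩
    exact main i.1 i.2 j
  refine ⟨hcc, ?_⟩
  obtain ⟨g, hg⟩ := exists_nat_of_frobenius s y (fun i hi => by
    rw [← h i hi, hcc, sub_self, WittVector.zero_coeff])
  exact ⟨g.val, hg⟩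

end

end Pool.Agent.WG
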