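import Pool.Agent.WG.Emb2
import Pool.Agent.WG.W1
import Pool.Agent.WG.W2

/-!
# Torsors of the type `(γ, g, c)` (piece WG-Y1)
-/

namespace Pool.Agent.WG

open Polynomial Pool.Agent.WD Pool.Agent.WC

noncomputable section

universe u v

variable {p : ℕ} [Fact p.Prime] {k : Type u} [Field k] [IsAlgClosed k] [CharP k p] {s : ℕ}
  {G : Type v} [Group G] {N κ θ : ℕ} [NeZero N] {ζ : kˣ} {γ g : G}

/-- `T^N = t` and `F(z) - z = f_c(T)` in the coordinates `< s` -/
def Root (N : ℕ) (c : Par p s k) (T : Ks k) (z : WittVector p (Ks k)) : Prop :=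
  T ^ N = tK k ∧ ∀ i < s, (WittVector.frobenius z - z).coeff i = (fT c T).coeff i

/-- `σ(T) = ζ^i T` and `σ(z) = θ^i z + l` (coordinates `< s`) -/
def Form (ζ : kˣ) (θ s : ℕ) (T : Ks k) (z : WittVector p (Ks k)) (σ : GalK k) (i l : ℕ) : Prop :=
  σ T = cK k (ζ : k) ^ i * T ∧
    ∀ j < s, σ (z.coeff j) = (((θ ^ i : ℕ) : WittVector p (Ks k)) * z + l).coeff j

/-- the type with a fixed `θ`  -/
def TypeT (ζ : kˣ) (θ : ℕ) (γ g : G) (s : ℕ) (T : Ks k) (z : WittVector p (Ks k))
    (φ : Torsor k G) : Prop :=
  ∀ σ : GalK k, ∃ i l : ℕ, Form ζ θ s T z σ i l ∧ φ.hom σ = γ ^ i * g ^ l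

omit [IsAlgClosed k] in
private theorem Typ_as (w : Ks k) : ∃ z : Ks k, z ^ p - z = w := by
  have hp : p.Prime := Fact.out
  set P : (Ks k)[X] := X ^ p - (X + C w) with hP
  have hdeg : P.degree = p := by
    have h1 : (X + C w : (Ks k)[X]).degree < (X ^ p : (Ks k)[X]).degree := by
      rw [degree_X_add_C, degree_X_pow]
      exact_mod_cast hp.one_lt
    rw [hP, degree_sub_eq_left_of_degree_lt h1, degree_X_pow]
  have hd : P.degree ≠ 0 := by
    rw [hdeg]
    exact_mod_cast hp.ne_zero
  have hs : P.Separable := by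
    rw [separable_def]
    have h1 : derivative P = -1 := by
      rw [hP, derivative_sub, derivative_X_pow, derivative_add, derivative_X, derivative_C,
        CharP.cast_eq_zero (Ks k) p, C_0]
      ring
    rw [h1]
    exact ⟨0, -1, by ring⟩
  obtain ⟨x, hx⟩ := IsSepClosed.exists_root P hd hs
  refine ⟨x, ?_⟩
  rw [hP, IsRoot.def, eval_sub, eval_pow, eval_add, eval_X, eval_C] at hx
  linear_combination hx

private theorem Typ_step {R : Type u} [CommRing R] [CharP R p]
    (hR : ∀ w : R, ∃ z : R, z ^ p - z = w) (f : WittVector p R) (n : ℕ) (z : WittVector p R)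
    (hz : ∀ i < n, (f - (WittVector.frobenius z - z)).coeff i = 0) :
    ∃ z' : WittVector p R, ∀ i < n + 1, (f - (WittVector.frobenius z' - z')).coeff i = 0 := by
  set x := f - (WittVector.frobenius z - z) with hx
  obtain ⟨u, hu⟩ := hR ((x.shift n).coeff 0)
  set t : WittVector p R := WittVector.teichmuller p u with ht
  set Vn : WittVector p R → WittVector p R := (WittVector.verschiebung)^[n] with hVn
  have hsub : ∀ a b, Vn (a - b) = Vn a - Vn b := by
    intro a b
    exact iterate_map_sub (WittVector.verschiebung) n a b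
  have hF : WittVector.frobenius (Vn t) = Vn (WittVector.frobenius t) := by
    have hc : Function.Commute (WittVector.verschiebung : WittVector p R → WittVector p R)
        WittVector.frobenius := WittVector.verschiebung_frobenius_comm
    exact ((hc.iterate_left n) t).symm
  have hxV : x = Vn (x.shift n) := WittVector.eq_iterate_verschiebung hz
  refine ⟨z + Vn t, ?_⟩
  have key : f - (WittVector.frobenius (z + Vn t) - (z + Vn t))
      = Vn (x.shift n - (WittVector.frobenius t - t)) := by
    rw [hsub, hsub, ← hxV, ← hF, hx, map_add]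
    ring
  rw [key]
  intro i hi
  rcases Nat.lt_succ_iff_lt_or_eq.1 hi with h | h
  · exact WittVector.iterate_verschiebung_coeff_eq_zero _ h
  · subst h
    have h1 := WittVector.iterate_verschiebung_coeff
      (x.shift i - (WittVector.frobenius t - t)) i 0
    rw [zero_add] at h1
    rw [hVn, h1]
    have h2 : ∀ a b : WittVector p R, (a - b).coeff 0 = a.coeff 0 - b.coeff 0 := by
      intro a b
      exact map_sub (WittVector.constantCoeff (p := p) (R := R)) a b
    rw [h2, h2, WittVector.coeff_frobenius_charP, ht, WittVector.teichmuller_coeff_zero, hu,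
      sub_self]

private theorem Typ_witt {R : Type u} [Field R] [CharP R p]
    (hR : ∀ w : R, ∃ z : R, z ^ p - z = w) (f : WittVector p R) (n : ℕ) :
    ∃ z : WittVector p R, ∀ i < n, (WittVector.frobenius z - z).coeff i = f.coeff i := by
  have h1 : ∃ z : WittVector p R, ∀ i < n, (f - (WittVector.frobenius z - z)).coeff i = 0 := by
    induction n with
    | zero => exact ⟨0, fun i hi => absurd hi (Nat.not_lt_zero i)⟩
    | succ n ih =>
      obtain ⟨z, hz⟩ := ih
      exact Typ_step hR f n z hz
  obtain ⟨z, hz⟩ := h1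
  refine ⟨z, fun i hi => ?_⟩
  have h2 := coeff_sub_congr (p := p) (L := R) (a := f) (a' := f)
    (b := f - (WittVector.frobenius z - z)) (b' := 0) (n := n) (fun i _ => rfl)
    (fun j hj => by rw [hz j hj, WittVector.zero_coeff]) i hi
  rw [sub_sub_cancel, sub_zero] at h2
  exact h2

/-- In an algebraically closed field every Witt vector equation `F(z) - z = f` has a root; the
separable closure is enough, because the equations for the coordinates are separable. -/
theorem exists_root_Ks (c : Par p s k) (T : Ks k) :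
    ∃ z : WittVector p (Ks k), ∀ i < s,
      (WittVector.frobenius z - z).coeff i = (fT c T).coeff i := by
  exact Typ_witt Typ_as (fT c T) s

/-- two roots differ by a natural number -/
theorem root_unique {c : Par p s k} {T : Ks k} {z z' : WittVector p (Ks k)} (h : Root N c T z)
    (h' : Root N c T z') : ∃ l : ℕ, ∀ i < s, z'.coeff i = (z + l).coeff i := by
  have h1 : ∀ i < s, (WittVector.frobenius (z' - z) - (z' - z)).coeff i = 0 := by
    intro i hi
    have e1 : WittVector.frobenius (z' - z) - (z' - z) =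
        (WittVector.frobenius z' - z') - (WittVector.frobenius z - z) := by
      rw [map_sub]
      ring
    have h2 := coeff_sub_congr (p := p) (L := Ks k) (a := WittVector.frobenius z' - z')
      (a' := fT c T) (b := WittVector.frobenius z - z)
      (b' := fT c T) (n := s) h'.2 h.2 i hi
    rw [e1, h2, sub_self, WittVector.zero_coeff]
  obtain ⟨g, hg⟩ := exists_nat_of_frobenius s (z' - z) h1
  refine ⟨g.val, fun i hi => ?_⟩
  have h3 := coeff_add_congr (p := p) (L := Ks k) (a := z) (a' := z) (b := z' - z)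
    (b' := ((g.val : ℕ) : WittVector p (Ks k))) (n := s) (fun i _ => rfl) hg i hi
  rw [← h3]
  congr 1
  ring

omit [IsAlgClosed k] in
private theorem Typ_fT_scl (x : k) (c : Par p s k) (T : Ks k) (j : ℕ) :
    (fT (scl x c) T).coeff j = cK k x * (fT c T).coeff j := by
  unfold fT scl
  rw [WittVector.coeff_mk, WittVector.coeff_mk, Finsupp.sum_mapRange_index]
  · refine Eq.trans ?_ (Finset.mul_sum _ _ _).symm
    refine Finset.sum_congr rfl fun y _ => ?_
    beta_reduce
    split
    · rw [map_mul, mul_assoc]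
    · rw [mul_zero]
  · intro y
    split
    · rw [map_zero, zero_mul]
    · rfl

/-- `a z` is a root for `a c`, if `a` is a Teichmueller representative modulo `p^s` -/
theorem root_scl {c : Par p s k} {T : Ks k} {z : WittVector p (Ks k)} (h : Root N c T z) {a : ℕ}
    (ha : a ^ p ≡ a [MOD p ^ s]) :
    Root N (scl (a : k) c) T (((a : ℕ) : WittVector p (Ks k)) * z) := by
  refine ⟨h.1, fun i hi => ?_⟩
  have h1 : WittVector.frobenius (((a : ℕ) : WittVector p (Ks k)) * z) -
      ((a : ℕ) : WittVector p (Ks k)) * z =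
      ((a : ℕ) : WittVector p (Ks k)) * (WittVector.frobenius z - z) := by
    rw [map_mul, map_natCast]
    ring
  rw [h1, coeff_nat_mul ha _ i hi, h.2 i hi, Typ_fT_scl, map_natCast]

/-- `fT c (ζ^i T) = fT (θ^i c) T` -/
theorem fT_rot {c : Par p s k} (hc : ∀ x ∈ c.support, (x.2 : ℕ) ≡ κ [MOD N])
    (hζ : ζ ^ N = 1) (hθk : (θ : k) * (ζ : k) ^ κ = 1) (T : Ks k) (i j : ℕ) :
    (fT c (cK k (ζ : k) ^ i * T)).coeff j = (fT (scl ((θ : k) ^ i) c) T).coeff j := by
  rw [Typ_fT_scl]
  unfold fT
  rw [WittVector.coeff_mk, WittVector.coeff_mk]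
  refine Eq.trans ?_ (Finset.mul_sum _ _ _).symm
  refine Finset.sum_congr rfl fun y hy => ?_
  beta_reduce
  split
  · have h1 : (ζ : k) ^ (y.2 : ℕ) = (ζ : k) ^ κ := by
      have h2 : ζ ^ (y.2 : ℕ) = ζ ^ κ := by
        rw [pow_eq_pow_iff_modEq]
        exact (hc y hy).of_dvd (orderOf_dvd_of_pow_eq_one hζ)
      have h3 := congrArg (fun u : kˣ => (u : k)) h2
      simpa using h3
    have h4 : (((ζ : k) ^ i)⁻¹) ^ (y.2 : ℕ) = (θ : k) ^ i := by
      rw [inv_pow, ← pow_mul, mul_comm i, pow_mul, h1]
      have h5 : (ζ : k) ^ κ ≠ 0 := pow_ne_zero _ ζ.ne_zero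
      rw [← inv_pow]
      congr 1
      rw [inv_eq_iff_eq_inv, eq_comm, inv_eq_iff_eq_inv, eq_comm]
      field_simp
      linear_combination -hθk
    rw [← h4, map_pow, map_inv₀, map_pow, mul_inv, mul_pow]
    ring
  · rw [mul_zero]

end

end Pool.Agent.WG
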