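import Pool.Agent.WG.Typ

/-! # The forms of the automorphisms (piece WG-Y2) -/

namespace Pool.Agent.WG

open Polynomial Pool.Agent.WD Pool.Agent.WC

noncomputable section

universe u v

section aux

variable {p : ℕ} [Fact p.Prime]

private theorem Typ2_tr {R : Type*} [CommRing R] {s : ℕ} {x y : WittVector p R} :
    WittVector.truncate s x = WittVector.truncate s y ↔ ∀ i < s, x.coeff i = y.coeff i := by
  constructor
  · intro h i hi
    have h1 := congrArg (fun z => TruncatedWittVector.coeff (⟨i, hi⟩ : Fin s) z) h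
    simpa [WittVector.coeff_truncate] using h1
  · intro h
    ext i
    rw [WittVector.coeff_truncate, WittVector.coeff_truncate]
    exact h i i.2

private theorem Typ2_map {R S : Type*} [CommRing R] [CommRing S] {s : ℕ} (f : R →+* S)
    {x y : WittVector p R} (h : WittVector.truncate s x = WittVector.truncate s y) :
    WittVector.truncate s (WittVector.map f x) = WittVector.truncate s (WittVector.map f y) := by
  rw [Typ2_tr] at h ⊢
  intro i hi
  rw [WittVector.map_coeff, WittVector.map_coeff, h i hi]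

private theorem Typ2_lin {R : Type*} [CommRing R] {s a b : ℕ} {x y : WittVector p R}
    (h : WittVector.truncate s x = WittVector.truncate s y) :
    WittVector.truncate s (((a : ℕ) : WittVector p R) * x + ((b : ℕ) : WittVector p R)) =
      WittVector.truncate s (((a : ℕ) : WittVector p R) * y + ((b : ℕ) : WittVector p R)) := by
  rw [map_add, map_add, map_mul, map_mul, h]

private theorem Typ2_frob {R S : Type u} [CommRing R] [CommRing S] (f : R →+* S)
    (x : WittVector p R) :
    WittVector.map f (WittVector.frobenius x) = WittVector.frobenius (WittVector.map f x) :=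
  (WittVector.frobenius_isPoly p).map f x

end aux

variable {p : ℕ} [Fact p.Prime] {k : Type u} [Field k] [IsAlgClosed k] [CharP k p] {s : ℕ}
  {G : Type v} [Group G] {N κ θ : ℕ} [NeZero N] {ζ : kˣ} {γ g : G}

omit [IsAlgClosed k] [CharP k p] [NeZero N] in
private theorem Typ2_form {T : Ks k} {z : WittVector p (Ks k)} {σ : GalK k} {i l : ℕ}
    (h : Form ζ θ s T z σ i l) :
    WittVector.truncate s (WittVector.map (σ : Ks k →+* Ks k) z) =
      WittVector.truncate s (((θ ^ i : ℕ) : WittVector p (Ks k)) * z +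
        ((l : ℕ) : WittVector p (Ks k))) := by
  rw [Typ2_tr]
  intro j hj
  rw [WittVector.map_coeff]
  exact h.2 j hj

omit [IsAlgClosed k] [CharP k p] in
private theorem Typ2_fT (c : Par p s k) (T : Ks k) (σ : GalK k) (j : ℕ) :
    σ ((fT c T).coeff j) = (fT c (σ T)).coeff j := by
  unfold fT
  rw [WittVector.coeff_mk, WittVector.coeff_mk, Finsupp.sum, Finsupp.sum, map_sum]
  refine Finset.sum_congr rfl fun x _ => ?_
  split_ifs with h
  · rw [map_mul, sigma_cK, map_pow, map_inv₀]
  · rw [map_zero]

/-- every `σ` has the form `(i, l)` for some `i`, `l` -/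
theorem exists_form (hN : ¬ p ∣ N) (hζ : IsPrimitiveRoot ζ N) (hA : Adm p N ζ γ g s θ κ)
    {c : Par p s k} (hc : ∀ x ∈ c.support, (x.2 : ℕ) ≡ κ [MOD N]) {T : Ks k}
    {z : WittVector p (Ks k)} (h : Root N c T z) (σ : GalK k) : ∃ i l, Form ζ θ s T z σ i l := by
  obtain ⟨i, hi⟩ := sigma_T (ζ : k) (IsPrimitiveRoot.coe_units_iff.2 hζ) h.1 σ
  have h1 : Root N (scl (((θ ^ i : ℕ) : ℕ) : k) c) T
      (WittVector.map (σ : Ks k →+* Ks k) z) := by
    refine ⟨h.1, fun j hj => ?_⟩
    rw [← Typ2_frob, ← map_sub, WittVector.map_coeff, h.2 j hj]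
    have h2 : (σ : Ks k →+* Ks k) ((fT c T).coeff j) = (fT c (σ T)).coeff j := Typ2_fT c T σ j
    rw [h2, hi, fT_rot hc hζ.pow_eq_one hA.hθk T i j, Nat.cast_pow]
  have h3 : (θ ^ i) ^ N ≡ 1 [MOD p ^ s] := by
    rw [← pow_mul, mul_comm, pow_mul]
    have := hA.hθN.pow i
    rwa [one_pow] at this
  obtain ⟨l, hl⟩ := root_unique (root_scl h (pow_p_of_pow hN h3)) h1
  refine ⟨i, l, hi, fun j hj => ?_⟩
  have := hl j hj
  rw [WittVector.map_coeff] at this
  exact this

/-- `i` is unique modulo `N` and `l` modulo `p^s` -/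
theorem form_unique (hζ : IsPrimitiveRoot ζ N) (hθN : θ ^ N ≡ 1 [MOD p ^ s]) {T : Ks k}
    (hT : T ≠ 0) {z : WittVector p (Ks k)} {σ : GalK k} {i l i' l' : ℕ}
    (h : Form ζ θ s T z σ i l) (h' : Form ζ θ s T z σ i' l') :
    i ≡ i' [MOD N] ∧ l ≡ l' [MOD p ^ s] := by
  have h1 : i ≡ i' [MOD N] := by
    have e1 : cK k (ζ : k) ^ i = cK k (ζ : k) ^ i' :=
      mul_right_cancel₀ hT (h.1.symm.trans h'.1)
    rw [← map_pow, ← map_pow] at e1
    have e2 : (ζ : k) ^ i = (ζ : k) ^ i' := (cK k).injective e1
    have e3 : ζ ^ i = ζ ^ i' := by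
      apply Units.ext
      push_cast
      exact e2
    rw [pow_eq_pow_iff_modEq, ← hζ.eq_orderOf] at e3
    exact e3
  refine ⟨h1, ?_⟩
  have h2 : θ ^ i ≡ θ ^ i' [MOD p ^ s] := by
    have key : ∀ a : ℕ, θ ^ a ≡ θ ^ (a % N) [MOD p ^ s] := by
      intro a
      have e : θ ^ a = θ ^ (a % N) * (θ ^ N) ^ (a / N) := by
        rw [← pow_mul, ← pow_add, Nat.mod_add_div]
      have e2 : θ ^ (a % N) * (θ ^ N) ^ (a / N) ≡ θ ^ (a % N) * 1 ^ (a / N) [MOD p ^ s] :=
        Nat.ModEq.mul_left _ (hθN.pow _)
      rw [one_pow, mul_one] at e2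
      rw [e]
      exact e2
    have e := h1
    unfold Nat.ModEq at e
    exact (key i).trans ((by rw [e] : θ ^ (i % N) ≡ θ ^ (i' % N) [MOD p ^ s]).trans (key i').symm)
  have h3 : WittVector.truncate s ((θ ^ i : ℕ) : WittVector p (Ks k)) =
      WittVector.truncate s ((θ ^ i' : ℕ) : WittVector p (Ks k)) :=
    Typ2_tr.2 (coeff_nat_congr h2)
  have h4 := (Typ2_form h).symm.trans (Typ2_form h')
  rw [map_add, map_add, map_mul, map_mul, h3] at h4
  exact nat_congr_of_coeff (Typ2_tr.1 (add_left_cancel h4))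

/-- composition -/
theorem form_mul {T : Ks k} {z : WittVector p (Ks k)} {σ σ' : GalK k} {i l i' l' : ℕ}
    (h : Form ζ θ s T z σ i l) (h' : Form ζ θ s T z σ' i' l') :
    Form ζ θ s T z (σ * σ') (i + i') (θ ^ i' * l + l') := by
  constructor
  · rw [AlgEquiv.mul_apply, h'.1, map_mul, map_pow, sigma_cK, h.1, pow_add]
    ring
  · have e1 : WittVector.map ((σ * σ' : GalK k) : Ks k →+* Ks k) z =
        WittVector.map (σ : Ks k →+* Ks k) (WittVector.map (σ' : Ks k →+* Ks k) z) := by
      ext j
      simp only [WittVector.map_coeff]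
      rfl
    have e2 := Typ2_map (σ : Ks k →+* Ks k) (Typ2_form h')
    rw [← e1, map_add, map_mul, map_natCast, map_natCast] at e2
    have e3 := e2.trans (Typ2_lin (Typ2_form h))
    have e4 : ((θ ^ i' : ℕ) : WittVector p (Ks k)) *
        (((θ ^ i : ℕ) : WittVector p (Ks k)) * z + ((l : ℕ) : WittVector p (Ks k))) +
          ((l' : ℕ) : WittVector p (Ks k)) =
        ((θ ^ (i + i') : ℕ) : WittVector p (Ks k)) * z +
          ((θ ^ i' * l + l' : ℕ) : WittVector p (Ks k)) := by
      push_cast
      ring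
    rw [e4, Typ2_tr] at e3
    intro j hj
    have := e3 j hj
    rw [WittVector.map_coeff] at this
    exact this

/-- all pairs `(i, l)` occur, if the first coordinate of `c` is not zero -/
theorem form_surj (hN : ¬ p ∣ N) (hζ : IsPrimitiveRoot ζ N) (hA : Adm p N ζ γ g s θ κ)
    {c : Par p s k} (hv : Val N κ c) {T : Ks k} {z : WittVector p (Ks k)} (h : Root N c T z)
    (i l : ℕ) : ∃ σ : GalK k, Form ζ θ s T z σ i l := by
  obtain ⟨ε, e⟩ := exists_emb hN c hv ζ hζ T h.1 z h.2
  obtain ⟨w, τ, hh, E, hw, hτ⟩ := exists_EL hN c hv ζ hζ.pow_eq_one hA.hθk hA.hθN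
  have hwj : ∀ (l : ℕ) (x : LaurentSeries k), (w ^ l) (j0L c x) = j0L c x := by
    intro l x
    induction l with
    | zero => rfl
    | succ l ih =>
      rw [pow_succ', RingAut.mul_apply, ih]
      exact (E.fixw _).2 ⟨x, rfl⟩
  have hτj : ∀ (i : ℕ) (x : LaurentSeries k), (τ ^ i) (j0L c (subN k N x)) =
      j0L c (subN k N x) := by
    intro i x
    induction i with
    | zero => rfl
    | succ i ih =>
      rw [pow_succ', RingAut.mul_apply, ih, E.τj, rot_subN N ζ hζ.pow_eq_one]
  have hτT : ∀ i : ℕ, (τ ^ i) (j0L c (HahnSeries.single 1 1)) =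
      j0L c (HahnSeries.single 1 ((ζ : k) ^ i)) := by
    intro i
    induction i with
    | zero => rw [pow_zero, pow_zero]; rfl
    | succ i ih =>
      rw [pow_succ', RingAut.mul_apply, ih, E.τj, rot_single, zpow_one, ← pow_succ']
  obtain ⟨σ, hσ⟩ := e.exists_sigma (τ ^ i * w ^ l) (fun x => by
    rw [RingAut.mul_apply, hwj, hτj])
  refine ⟨σ, ?_, ?_⟩
  · have h1 : HahnSeries.single (1 : ℤ) ((ζ : k) ^ i) =
        subN k N (HahnSeries.C ((ζ : k) ^ i)) * HahnSeries.single (1 : ℤ) (1 : k) := by
      rw [HahnSeries.C_apply, subN_single, mul_zero, HahnSeries.single_mul_single, zero_add,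
        mul_one]
    rw [← e.εT, hσ, RingAut.mul_apply, hwj, hτT, h1, map_mul, map_mul, e.εK, e.εT,
      ← map_pow, cK_eq]
  · obtain ⟨Z, hZ⟩ : ∃ Z : WittVector p (Lw c), ∀ i : Fin s, Z.coeff i = zL c i :=
      ⟨WittVector.mk p fun i => if h : i < s then zL c ⟨i, h⟩ else 0, fun i => by
        rw [WittVector.coeff_mk, dif_pos i.2]⟩
    -- the inclusion
    have hval : WittVector.truncate s (WittVector.map (phiL c) Z) =
        WittVector.truncate s (wz c) := by
      rw [Typ2_tr]
      intro j hj
      rw [WittVector.map_coeff, hZ ⟨j, hj⟩]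
      rfl
    have hinj : ∀ x y : WittVector p (Lw c), WittVector.truncate s (WittVector.map (phiL c) x) =
        WittVector.truncate s (WittVector.map (phiL c) y) →
        WittVector.truncate s x = WittVector.truncate s y := by
      intro x y hxy
      rw [Typ2_tr] at hxy ⊢
      intro j hj
      have := hxy j hj
      rw [WittVector.map_coeff, WittVector.map_coeff] at this
      exact (phiL c).injective this
    have hwZ : WittVector.truncate s (WittVector.map (w : Lw c →+* Lw c) Z) =
        WittVector.truncate s (((1 : ℕ) : WittVector p (Lw c)) * Z + ((1 : ℕ) : WittVector p (Lw c))) := by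
      apply hinj
      rw [map_add, map_mul, map_natCast]
      refine Eq.trans ?_ (Typ2_lin hval).symm
      rw [Typ2_tr]
      intro j hj
      rw [WittVector.map_coeff, WittVector.map_coeff, hZ ⟨j, hj⟩]
      have := hw ⟨j, hj⟩
      rw [Nat.cast_one, one_mul]
      exact this
    have hτZ : WittVector.truncate s (WittVector.map (τ : Lw c →+* Lw c) Z) =
        WittVector.truncate s (((θ : ℕ) : WittVector p (Lw c)) * Z + ((0 : ℕ) : WittVector p (Lw c))) := by
      apply hinj
      rw [map_add, map_mul, map_natCast, map_natCast]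
      refine Eq.trans ?_ (Typ2_lin hval).symm
      rw [Typ2_tr]
      intro j hj
      rw [WittVector.map_coeff, WittVector.map_coeff, hZ ⟨j, hj⟩]
      have := hτ ⟨j, hj⟩
      rw [Nat.cast_zero, add_zero]
      exact this
    have hcomp : ∀ (a b : Lw c ≃+* Lw c) (x : WittVector p (Lw c)),
        WittVector.map ((a * b : Lw c ≃+* Lw c) : Lw c →+* Lw c) x =
        WittVector.map (a : Lw c →+* Lw c) (WittVector.map (b : Lw c →+* Lw c) x) := by
      intro a b x
      ext j
      simp only [WittVector.map_coeff]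
      rfl
    have hone : ∀ x : WittVector p (Lw c),
        WittVector.map ((1 : Lw c ≃+* Lw c) : Lw c →+* Lw c) x = x := by
      intro x
      ext j
      simp only [WittVector.map_coeff]
      rfl
    have hwl : ∀ l : ℕ, WittVector.truncate s
        (WittVector.map ((w ^ l : Lw c ≃+* Lw c) : Lw c →+* Lw c) Z) =
        WittVector.truncate s (((1 : ℕ) : WittVector p (Lw c)) * Z + ((l : ℕ) : WittVector p (Lw c))) := by
      intro l
      induction l with
      | zero => rw [pow_zero, hone, Nat.cast_one, Nat.cast_zero, one_mul, add_zero]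
      | succ l ih =>
        rw [pow_succ', hcomp]
        refine (Typ2_map _ ih).trans ?_
        rw [map_add, map_mul, map_natCast, map_natCast]
        refine (Typ2_lin hwZ).trans ?_
        congr 1
        push_cast
        ring
    have hτi : ∀ i : ℕ, WittVector.truncate s
        (WittVector.map ((τ ^ i : Lw c ≃+* Lw c) : Lw c →+* Lw c) Z) =
        WittVector.truncate s (((θ ^ i : ℕ) : WittVector p (Lw c)) * Z + ((0 : ℕ) : WittVector p (Lw c))) := by
      intro i
      induction i with
      | zero => rw [pow_zero, pow_zero, hone, Nat.cast_one, Nat.cast_zero, one_mul, add_zero]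
      | succ i ih =>
        rw [pow_succ', hcomp]
        refine (Typ2_map _ ih).trans ?_
        rw [map_add, map_mul, map_natCast, map_natCast]
        refine (Typ2_lin hτZ).trans ?_
        congr 1
        push_cast
        ring
    have hαZ : WittVector.truncate s
        (WittVector.map ((τ ^ i * w ^ l : Lw c ≃+* Lw c) : Lw c →+* Lw c) Z) =
        WittVector.truncate s (((θ ^ i : ℕ) : WittVector p (Lw c)) * Z + ((l : ℕ) : WittVector p (Lw c))) := by
      rw [hcomp]
      refine (Typ2_map _ (hwl l)).trans ?_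
      rw [map_add, map_mul, map_natCast, map_natCast]
      refine (Typ2_lin (hτi i)).trans ?_
      congr 1
      push_cast
      ring
    intro j hj
    have h2 : ((((τ ^ i * w ^ l : Lw c ≃+* Lw c) (zL c ⟨j, hj⟩)) : Lw c) : Om k) =
        (((θ ^ i : ℕ) : WittVector p (Om k)) * wz c + l).coeff (⟨j, hj⟩ : Fin s) := by
      have h3 := (Typ2_map (phiL c) hαZ)
      rw [map_add, map_mul, map_natCast, map_natCast] at h3
      have h4 := Typ2_tr.1 (h3.trans (Typ2_lin hval)) j hj
      rw [WittVector.map_coeff, WittVector.map_coeff, hZ ⟨j, hj⟩] at h4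
      exact h4
    have h5 := e.coeff (θ ^ i) l ⟨j, hj⟩ _ h2
    rw [← hσ, e.εz] at h5
    exact h5

end

end Pool.Agent.WG
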