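import Pool.Agent.WG.Typ2

/-! # Existence of torsors (piece WG-Y3) -/

namespace Pool.Agent.WG

open Polynomial Pool.Agent.WD Pool.Agent.WC

noncomputable section

universe u v

variable {p : ℕ} [Fact p.Prime] {k : Type u} [Field k] [IsAlgClosed k] [CharP k p] {s : ℕ}
  {G : Type v} [Group G] {N κ θ : ℕ} [NeZero N] {ζ : kˣ} {γ g : G}

private theorem Typ3_mul_le {A : Type*} [Field A] [CharP A p] {a b r : ℕ} (hab : a ≤ b)
    (h : a ≡ b [MOD p ^ r]) (z l : WittVector p A) : ∀ j < r,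
      (((a : ℕ) : WittVector p A) * z + l).coeff j =
        (((b : ℕ) : WittVector p A) * z + l).coeff j := by
  obtain ⟨c, hc⟩ := (Nat.modEq_iff_dvd' hab).1 h
  have hb : b = a + c * p ^ r := by
    rw [mul_comm c, ← hc]
    omega
  have hb' : ((b : ℕ) : WittVector p A) * z + l = (((a : ℕ) : WittVector p A) * z + l) +
      (((c : ℕ) : WittVector p A) * z) * (p : WittVector p A) ^ r := by
    rw [hb]
    push_cast
    ring
  intro j hj
  have h1 := coeff_add_congr (p := p) (L := A) (a := (a : WittVector p A) * z + l)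
    (a' := (a : WittVector p A) * z + l)
    (b := (((c : ℕ) : WittVector p A) * z) * (p : WittVector p A) ^ r) (b' := 0) (n := r)
    (fun i _ => rfl) (fun i hi => by
      rw [WittVector.mul_pow_charP_coeff_zero _ hi, WittVector.zero_coeff]) j hj
  rw [add_zero] at h1
  rw [hb', h1]

private theorem Typ3_mul {A : Type*} [Field A] [CharP A p] {a b r : ℕ} (h : a ≡ b [MOD p ^ r])
    (z l : WittVector p A) : ∀ j < r,
      (((a : ℕ) : WittVector p A) * z + l).coeff j =
        (((b : ℕ) : WittVector p A) * z + l).coeff j := by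
  rcases le_total a b with hab | hab
  · exact Typ3_mul_le hab h z l
  · exact fun j hj => (Typ3_mul_le hab h.symm z l j hj).symm

/-- the definition `IsType` in terms of `TypeT`, with the given `θ` -/
theorem isType_iff (hA : Adm p N ζ γ g s θ κ) (c : Par p s k) (φ : Torsor k G) :
    IsType N (ζ : k) γ g c φ ↔ ∃ T z, Root N c T z ∧ TypeT ζ θ γ g s T z φ := by
  constructor
  · rintro ⟨T, z, θ', hT, hz, hθ', hσ⟩
    refine ⟨T, z, ⟨hT, hz⟩, fun σ => ?_⟩
    obtain ⟨i, l, h1, h2, h3⟩ := hσ σ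
    have h4 : g ^ θ' = g ^ θ := by rw [← hθ', hA.hθ]
    rw [pow_eq_pow_iff_modEq, hA.hg] at h4
    exact ⟨i, l, ⟨h1, fun j hj => (h2 j hj).trans (Typ3_mul (h4.pow i) z l j hj)⟩, h3⟩
  · rintro ⟨T, z, hR, hT⟩
    refine ⟨T, z, θ, hR.1, hR.2, hA.hθ, fun σ => ?_⟩
    obtain ⟨i, l, h, e⟩ := hT σ
    exact ⟨i, l, h.1, h.2, e⟩

private theorem Typ3_conj (h : γ⁻¹ * g * γ = g ^ θ) (i l : ℕ) :
    g ^ l * γ ^ i = γ ^ i * g ^ (θ ^ i * l) := by
  induction i generalizing l with
  | zero => simp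
  | succ i ih =>
    have h1 : ∀ m : ℕ, g ^ m * γ = γ * g ^ (θ * m) := by
      intro m
      rw [pow_mul, ← h]
      have h2 : (γ⁻¹ * g * γ) ^ m = γ⁻¹ * g ^ m * γ := by
        have := conj_pow (a := γ⁻¹) (b := g) (i := m)
        rwa [inv_inv] at this
      rw [h2]
      group
    rw [pow_succ, ← mul_assoc, ih, mul_assoc, h1, ← mul_assoc, pow_succ, ← mul_assoc θ,
      mul_comm θ]

/-- existence of a torsor: `φ(σ) = γ^i g^l` is well defined and a homomorphism -/
theorem exists_torsor (hN : ¬ p ∣ N) (hζ : IsPrimitiveRoot ζ N) (hA : Adm p N ζ γ g s θ κ)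
    {c : Par p s k} (hc : ∀ x ∈ c.support, (x.2 : ℕ) ≡ κ [MOD N]) {T : Ks k}
    {z : WittVector p (Ks k)} (h : Root N c T z) : ∃ φ : Torsor k G, TypeT ζ θ γ g s T z φ := by
  classical
  have hT0 : T ≠ 0 := by
    rintro rfl
    have h1 := h.1
    rw [zero_pow (NeZero.ne N)] at h1
    exact tK_ne_zero h1.symm
  choose I L hF using exists_form hN hζ hA hc h
  have huniq : ∀ (σ : GalK k) (i l : ℕ), Form ζ θ s T z σ i l →
      γ ^ I σ * g ^ L σ = γ ^ i * g ^ l := by
    intro σ i l hf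
    obtain ⟨h1, h2⟩ := form_unique hζ hA.hθN hT0 (hF σ) hf
    have h3 : γ ^ I σ = γ ^ i := by
      rw [pow_eq_pow_iff_modEq]
      exact h1.of_dvd (orderOf_dvd_of_pow_eq_one hA.hγ)
    have h4 : g ^ L σ = g ^ l := by
      rw [pow_eq_pow_iff_modEq, hA.hg]
      exact h2
    rw [h3, h4]
  have hone : ∀ σ : GalK k, σ T = T → (∀ j < s, σ (z.coeff j) = z.coeff j) →
      γ ^ I σ * g ^ L σ = 1 := by
    intro σ h1 h2
    have h3 : Form ζ θ s T z σ 0 0 := by
      refine ⟨by rw [pow_zero, one_mul]; exact h1, fun j hj => ?_⟩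
      rw [h2 j hj]
      congr 1
      push_cast
      ring
    rw [huniq σ 0 0 h3, pow_zero, pow_zero, one_mul]
  refine ⟨{ hom := { toFun := fun σ => γ ^ I σ * g ^ L σ, map_one' := ?_, map_mul' := ?_ },
            cont := ?_ }, fun σ => ⟨I σ, L σ, hF σ, rfl⟩⟩
  · exact hone 1 rfl fun j _ => rfl
  · intro σ σ'
    rw [huniq _ _ _ (form_mul (hF σ) (hF σ')), pow_add, pow_add, mul_assoc, mul_assoc,
      ← mul_assoc (g ^ L σ) (γ ^ I σ'), Typ3_conj hA.hθ, mul_assoc]
  · refine ⟨insert T ((Finset.range s).image fun j => z.coeff j), fun σ hσ => ?_⟩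
    refine hone σ (hσ T (Finset.mem_insert_self _ _)) fun j hj => ?_
    exact hσ _ (Finset.mem_insert_of_mem (Finset.mem_image_of_mem _ (Finset.mem_range.2 hj)))

end

end Pool.Agent.WG
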