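import Pool.Agent.WG.Tun

/-! # A basis of the tuning module (piece WG-U2) -/

namespace Pool.Agent.WG

open Polynomial Pool.Agent.WD Pool.Agent.WC

noncomputable section

universe u v

variable {p : ℕ} [Fact p.Prime] {k : Type u} [Field k] [IsAlgClosed k] [CharP k p] {s : ℕ}
  {G : Type v} [Group G] {N κ θ : ℕ} [NeZero N] {ζ : kˣ} {γ g : G} {d n : ℕ}
  {ρ : G →* Matrix (Fin d) (Fin d) k} {c : Par p s k} {q : k[X]} {m : Fin n → ℕ}
  {E : Module.Basis (Ix n m) k (Fin d → k)} {r : Ix n m → ℕ}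

/-- constants are mapped to constants -/
private theorem U2_cst {T : Ks k} {z : WittVector p (Ks k)} {ε : Lw c →+* Ks k}
    (e : Emb N c T z ε) (a : k) : ε (cst0 (j0L c) a) = cK k a := by
  have h1 : subN k N (HahnSeries.C a) = HahnSeries.C a := by
    change subN k N (HahnSeries.single 0 a) = HahnSeries.single 0 a
    rw [subN_single, mul_zero]
  have h2 := e.εK (HahnSeries.C a)
  rw [h1] at h2
  exact h2

private theorem U2_pow {T : Ks k} {z : WittVector p (Ks k)} {ε : Lw c →+* Ks k}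
    (e : Emb N c T z ε) (A : ℕ) : ε (j0L c (HahnSeries.single (A : ℤ) 1)) = T ^ A := by
  have h1 : (HahnSeries.single (A : ℤ) 1 : LaurentSeries k) = HahnSeries.single 1 1 ^ A := by
    rw [HahnSeries.single_pow, one_pow]
    simp
  rw [h1, map_pow, map_pow, e.εT]

omit [IsAlgClosed k] in
private theorem U2_alg (u : PowerSeries k) :
    algebraMap (LaurentSeries k) (Ks k) (u : LaurentSeries k) =
      algebraMap (PowerSeries k) (Ks k) u := rfl

omit [IsAlgClosed k] in
/-- the determinant of a basis is not zero -/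
private theorem U2_det (F : Module.Basis (Fin d) k (Fin d → k)) :
    Matrix.det (Matrix.of fun i a => F i a) ≠ 0 := by
  have h1 := (Pi.basisFun k (Fin d)).isUnit_det F
  rw [Pi.basisFun_det_apply] at h1
  exact h1.ne_zero

/-- WG-U2: a basis of the tuning module and its determinant -/
theorem exists_tbasis (hN : ¬ p ∣ N) (hζ : IsPrimitiveRoot ζ N) (hA : Adm p N ζ γ g s θ κ)
    (hv : Val N κ c) {φ : Torsor k G} (hφ : IsType N (ζ : k) γ g c φ) (hq : GoodQ p s θ q)
    (J : JD p N s ζ q (ρ g) (ρ γ) m E r) :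
    ∃ (b : Fin d → Fin d → Ks k) (T : Ks k) (x : k), TBasis ρ φ b ∧ T ^ N = tK k ∧ x ≠ 0 ∧
      Matrix.det b = cK k x * T ^ vc N c r := by
  classical
  obtain ⟨T, z, hr, hT⟩ := (isType_iff hA c φ).1 hφ
  obtain ⟨ε, e⟩ := exists_emb hN c hv ζ hζ T hr.1 z hr.2
  have hζ1 : ζ ^ N = 1 := hζ.pow_eq_one
  obtain ⟨w, τ, h, D, hw, hτ⟩ := exists_EL hN c hv ζ hζ1 hA.hθk hA.hθN
  have hgp : (ρ g) ^ (p ^ s) = 1 := by
    rw [← map_pow, ← hA.hg, pow_orderOf_eq_one, map_one]
  have hrel : ρ g * ρ γ = ρ γ * (ρ g) ^ θ := by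
    rw [← map_pow, ← map_mul, ← map_mul, ← hA.hθ]
    congr 1
    group
  obtain ⟨ξ, hξ1, hξ2, hξ3, hξ4⟩ := exists_basisL D hN hζ (hA.hθk' hζ1)
    (fun j => Xq_nonneg c j) hq hgp hrel J
  let f : Fin d ≃ Ix n m := (Fintype.equivFinOfCardEq J.card).symm
  let bb : Fin d → Fin d → Ks k := fun i a =>
    ε (∑ b', cst0 (j0L c) (E b' a) * ξ (f i) b')
  have hbb : ∀ i a, bb i a = ε (∑ b', cst0 (j0L c) (E b' a) * ξ (f i) b') := fun _ _ => rfl
  refine ⟨bb, T, Matrix.det (Matrix.of fun i a => (E.reindex f.symm) i a), ⟨?_, ?_⟩, hr.1,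
    U2_det _, ?_⟩
  · intro i
    exact (tuned_iff hN hζ hA hv hr hT e D hw hτ _).2 ⟨_, hξ1 (f i), fun a => rfl⟩
  · intro x hx
    obtain ⟨y, hy, hxy⟩ := (tuned_iff hN hζ hA hv hr hT e D hw hτ _).1 hx
    obtain ⟨u, hu, hu'⟩ := hξ4 y hy
    have key : ∀ (u : Ix n m → PowerSeries k) (a : Fin d),
        ε (∑ b, j0L c (subN k N (u b : LaurentSeries k)) *
          ∑ b', cst0 (j0L c) (E b' a) * ξ b b') =
        ∑ i, algebraMap (PowerSeries k) (Ks k) (u (f i)) * bb i a := by
      intro u a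
      rw [map_sum, ← Equiv.sum_comp f]
      refine Finset.sum_congr rfl fun i _ => ?_
      rw [map_mul, e.εK, hbb, U2_alg]
    refine ⟨fun i => u (f i), ?_, ?_⟩
    · intro a
      rw [hxy, hu a, key]
    · intro u' hu1
      have h2 := hu' (fun b => u' (f.symm b)) (by
        intro a
        apply ε.injective
        rw [← hxy, hu1 a, key]
        refine Finset.sum_congr rfl fun i _ => ?_
        rw [f.symm_apply_apply])
      funext i
      have h3 := congrFun h2 (f i)
      rw [f.symm_apply_apply] at h3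
      exact h3
  · have hM : (Matrix.of bb : Matrix (Fin d) (Fin d) (Ks k)) =
        (Matrix.of fun b b' : Ix n m => ε (ξ b b')).submatrix f f *
          (cK k).mapMatrix (Matrix.of fun i a => (E.reindex f.symm) i a) := by
      ext i a
      rw [Matrix.mul_apply, Matrix.of_apply, hbb, map_sum, ← Equiv.sum_comp f]
      refine Finset.sum_congr rfl fun j _ => ?_
      rw [map_mul, U2_cst e, mul_comm]
      rw [RingHom.mapMatrix_apply, Matrix.map_apply, Matrix.of_apply, Matrix.submatrix_apply,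
        Matrix.of_apply, Module.Basis.reindex_apply, Equiv.symm_symm]
    have h0 : Matrix.det bb = Matrix.det (Matrix.of bb) := rfl
    rw [h0, hM, Matrix.det_mul, Matrix.det_submatrix_equiv_self, ← RingHom.map_det,
      det_triangular (fun b b' => ε (ξ b b')) (fun b b' hb => by rw [hξ2 b b' hb, map_zero]),
      mul_comm]
    congr 1
    unfold vc
    rw [← Finset.prod_pow_eq_pow_sum]
    refine Finset.prod_congr rfl fun b _ => ?_
    rw [hξ3 b, U2_pow e]

end

end Pool.Agent.WG
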