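import Pool.Agent.WD.Defs
import Pool.Agent.WC.T1
import Pool.Agent.WC.G1
import Pool.Agent.WG.Gen

/-!
# Reduced Witt vectors over `k((T))` (pieces WG-W1, WG-W2, WG-W3)
-/

namespace Pool.Agent.WG

open Pool.Agent.WD Pool.Agent.WC

noncomputable section

universe u

variable {p : ℕ} [Fact p.Prime] {k : Type u} [Field k] {s : ℕ}

/-- the Witt vector `(f_0, ..., f_{s-1}, 0, ...)` over `k((T))`, where `f_i = ∑_j c_{i,j} T^{-j}` -/
def wfK (c : Par p s k) : WittVector p (LaurentSeries k) :=
  WittVector.mk p fun i => if h : i < s then polar c ⟨i, h⟩ else 0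

/-- multiplication of all coefficients by `x`  -/
def scl (x : k) (c : Par p s k) : Par p s k := c.mapRange (fun a => x * a) (mul_zero x)

/-- the exponents are `≡ κ` modulo `N`, and the first coordinate is not zero -/
def Val (N κ : ℕ) (c : Par p s k) : Prop :=
  (∀ x ∈ c.support, (x.2 : ℕ) ≡ κ [MOD N]) ∧ ∀ h : 0 < s, ∃ j, c (⟨0, h⟩, j) ≠ 0

end

end Pool.Agent.WG
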